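import Pool.Agent.H98.MK.ADefs

/-!
# Project MK2 (MP_a3214d): definitions for the sharp analytic theorem
-/

set_option autoImplicit false

open scoped BigOperators

namespace Pool.Agent.H98.ML

open Pool.Agent.H98.MK (psi jp)

open Classical in
/-- the sums with arbitrary one-variable weights and size exponents `w` -/
noncomputable def GW {ι : Type} [Fintype ι] (w : ι → ℝ) (L : ι → ι → Prop)
    (a : ι → ℕ → ℝ) (Y : ℝ) : ℝ :=
  ∑ x ∈ Fintype.piFinset (fun _ : ι => Finset.Icc 1 ⌊Y⌋₊),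
    if Squarefree (2 * ∏ i, x i) ∧ ∏ i, (x i : ℝ) ^ w i ≤ Y
    then (∏ i, a i (x i)) * (jp L x : ℝ) else 0

/-- the loss from coprimality conditions -/
noncomputable def hm (m : ℕ) : ℝ := ∑ e ∈ m.divisors, (e.divisors.card : ℝ) / Real.sqrt e

/-- free indices -/
def Free {ι : Type} (w : ι → ℝ) (L : ι → ι → Prop) (c : ι → Fin 4) (i : ι) : Prop :=
  w i = 1 ∧ c i = 0 ∧ ∀ j, ¬ L i j ∧ ¬ L j i

end Pool.Agent.H98.ML
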