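import Pool.Agent.H98.MK.NDefs
import Pool.Agent.H98.ML.GDefs

/-!
# Project MK2 (MP_a3214d): definitions

Strong Malle over the rationals for 2-groups with central elementary abelian Frattini subgroup.
-/

set_option autoImplicit false

open scoped BigOperators

namespace Pool.Agent.H98.ML

open Pool.Agent.H98.MK (psi jp lg eps sg p8)

/-- Coordinates of a group with central elementary abelian Frattini subgroup. -/
structure Dt where
  /-- rank of the quotient -/
  r : ℕ
  /-- rank of the Frattini subgroup -/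
  s : ℕ
  /-- the bilinear cocycle -/
  β : (Fin r → ZMod 2) →ₗ[ZMod 2] (Fin r → ZMod 2) →ₗ[ZMod 2] (Fin s → ZMod 2)
  spz : Submodule.span (ZMod 2) (Set.range fun v : Fin r → ZMod 2 => β v v) = ⊤

namespace Dt

variable (D : Dt)

abbrev V : Type := Fin D.r → ZMod 2

abbrev Z : Type := Fin D.s → ZMod 2

/-- squares -/
def q (v : D.V) : D.Z := D.β v v

/-- commutators -/
def B (v w : D.V) : D.Z := D.β v w + D.β w v

/-- the order of the group -/
def n : ℕ := 2 ^ (D.r + D.s)

end Dt

/-- the group -/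
@[ext] structure Ext (D : Dt) where
  v : D.V
  z : D.Z

namespace Ext

variable {D : Dt}

theorem two_V (v : D.V) : v + v = 0 := by
  funext i
  exact CharTwo.add_self_eq_zero (v i)

theorem two_Z (v : D.Z) : v + v = 0 := by
  funext i
  exact CharTwo.add_self_eq_zero (v i)

instance : Mul (Ext D) := ⟨fun x y => ⟨x.v + y.v, x.z + y.z + D.β x.v y.v⟩⟩
instance : One (Ext D) := ⟨⟨0, 0⟩⟩
instance : Inv (Ext D) := ⟨fun x => ⟨x.v, x.z + D.β x.v x.v⟩⟩

@[simp] theorem mul_v (x y : Ext D) : (x * y).v = x.v + y.v := rfl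
@[simp] theorem mul_z (x y : Ext D) : (x * y).z = x.z + y.z + D.β x.v y.v := rfl
@[simp] theorem one_v : (1 : Ext D).v = 0 := rfl
@[simp] theorem one_z : (1 : Ext D).z = 0 := rfl
@[simp] theorem inv_v (x : Ext D) : (x⁻¹).v = x.v := rfl
@[simp] theorem inv_z (x : Ext D) : (x⁻¹).z = x.z + D.β x.v x.v := rfl

instance : Group (Ext D) :=
  Group.ofLeftAxioms
    (fun x y z => by
      apply Ext.ext
      · simp [add_assoc]
      · simp only [mul_z, mul_v, map_add, LinearMap.add_apply]
        abel)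
    (fun x => by
      apply Ext.ext
      · simp
      · simp)
    (fun x => by
      apply Ext.ext
      · simp only [mul_v, inv_v, one_v]
        exact two_V x.v
      · simp only [mul_z, inv_z, inv_v, one_z]
        have h1 := two_Z x.z
        have h2 := two_Z (D.β x.v x.v)
        calc x.z + D.β x.v x.v + x.z + D.β x.v x.v
            = (x.z + x.z) + (D.β x.v x.v + D.β x.v x.v) := by abel
          _ = 0 := by rw [h1, h2, add_zero])

/-- coordinates -/
def equivProd : Ext D ≃ D.V × D.Z where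
  toFun x := (x.v, x.z)
  invFun y := ⟨y.1, y.2⟩
  left_inv _ := rfl
  right_inv _ := rfl

instance : Fintype (Ext D) := Fintype.ofEquiv _ (equivProd (D := D)).symm

instance : DecidableEq (Ext D) := (equivProd (D := D)).decidableEq

end Ext

/-- index function of a permutation representation -/
structure Wt (D : Dt) where
  /-- the index -/
  ind : Ext D → ℕ
  /-- the least index -/
  m : ℕ
  conj : ∀ x g, ind (x * g * x⁻¹) = ind g
  pos : 0 < m
  min : ∀ g, g ≠ 1 → m ≤ ind g
  att : ∃ g, g ≠ 1 ∧ ind g = m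
  sqr : ∀ g, g * g ≠ 1 → m < ind g

namespace Wt

variable {D : Dt} (w : Wt D)

/-- the number of classes of least index -/
noncomputable def b : ℕ :=
  Nat.card {c : ConjClasses (Ext D) // ∃ g : Ext D, ConjClasses.mk g = c ∧ g ≠ 1 ∧ w.ind g = w.m}

/-- size exponents -/
noncomputable def wt (g : Ext D) : ℝ := if g = 1 then 1 else (w.ind g : ℝ) / w.m

end Wt

namespace Dt

variable (D : Dt)

/-- the local condition at a prime `p` with vector `v` -/
def okp (a b : D.V) (m : D.V → ℕ) (v : D.V) (p : ℕ) : Prop :=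
  ∑ u : D.V, lg (jacobiSym p (m u)) • D.B u v + lg (jacobiSym (-1) p) • D.B a v +
    lg (jacobiSym 2 p) • D.B b v = lg (jacobiSym (-1) p) • D.q v

/-- the complex conjugation -/
def vinf (a : D.V) (δ : D.V → ZMod 8) : D.V := a + ∑ v : D.V, eps (δ v) • v

/-- the parameters span -/
def Span (a b : D.V) (T : Finset D.V) : Prop :=
  Submodule.span (ZMod 2) (insert a (insert b (T : Set D.V))) = ⊤

open Classical in
/-- the product of the variables over a vector -/
noncomputable def mV (m : Ext D → ℕ) (v : D.V) : ℕ := if v = 0 then 1 else ∏ z : D.Z, m ⟨v, z⟩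

end Dt

open Classical in
/-- the sum over all parameters of size at most `Y` -/
noncomputable def S {D : Dt} (w : Wt D) (θ : D.V → D.V → (D.V → ZMod 8) → Finset D.V → ℝ)
    (Y : ℝ) : ℝ :=
  ∑ a : D.V, ∑ b : D.V, ∑ m ∈ Fintype.piFinset (fun _ : Ext D => Finset.Icc 1 ⌊Y⌋₊),
    if m 1 = 1 ∧ Squarefree (2 * ∏ g, m g) ∧ (∏ g, (m g : ℝ) ^ w.wt g) ≤ Y ∧
      ∀ g, ∀ p ∈ (m g).primeFactors, D.okp a b (D.mV m) g.v p
    then θ a b (fun v => (D.mV m v : ZMod 8)) (Finset.univ.filter fun v => D.mV m v ≠ 1)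
    else 0

/-! ### the expansion -/

namespace Dt

variable (D : Dt)

/-- all indices -/
abbrev P : Type := Ext D × D.Z

/-- the exponent of the symbol of `x i` over `x j` -/
def e (i j : D.P) : ZMod 2 := i.2 ⬝ᵥ D.B i.1.v j.1.v

/-- linked, with orientation -/
def L (i j : D.P) : Prop := D.e i j = 1 ∧ D.e j i = 0

/-- the annihilator of the commutators with `v` -/
def Av (v : D.V) : Submodule (ZMod 2) D.Z where
  carrier := {ζ | ∀ w : D.V, ζ ⬝ᵥ D.B v w = 0}
  add_mem' := by
    intro a b ha hb w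
    rw [add_dotProduct, ha w, hb w, add_zero]
  zero_mem' := by
    intro w
    exact zero_dotProduct _
  smul_mem' := by
    intro c a ha w
    rw [smul_dotProduct, ha w, smul_zero]

/-- representatives modulo the annihilator -/
noncomputable def zrep (v : D.V) (ζ : D.Z) : D.Z :=
  Quotient.out (Submodule.Quotient.mk ζ : D.Z ⧸ D.Av v)

/-- representatives of conjugacy classes -/
noncomputable def crep (g : Ext D) : Ext D := Quotient.out (ConjClasses.mk g)

open Classical in
/-- the parameters attached to the expanded variables -/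
noncomputable def mof (x : D.P → ℕ) (v : D.V) : ℕ :=
  if v = 0 then 1 else ∏ z : D.Z, ∏ ζ : D.Z, x (⟨v, z⟩, ζ)

open Classical in
/-- the sign of an expanded term -/
noncomputable def sgn (a b : D.V) (x : D.P → ℕ) : ℤ :=
  (∏ i, ∏ j, if D.e i j = 1 then jacobiSym (x i) (x j) else 1) *
  (∏ i : D.P, if i.2 ⬝ᵥ (D.q i.1.v + D.B i.1.v a) = 1 then jacobiSym (-1) (x i) else 1) *
  (∏ i : D.P, if i.2 ⬝ᵥ D.B i.1.v b = 1 then jacobiSym 2 (x i) else 1)

open Classical in
/-- vectors in a support -/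
noncomputable def supV (σ : Finset D.P) : Finset D.V :=
  Finset.univ.filter fun v => v ≠ 0 ∧ ∃ z ζ : D.Z, (⟨v, z⟩, ζ) ∈ σ

open Classical in
/-- the function of the residues modulo eight -/
noncomputable def Psi (θ : D.V → D.V → (D.V → ZMod 8) → Finset D.V → ℝ) (a b : D.V)
    (σ : Finset D.P) (u : D.P → ZMod 8) : ℝ :=
  ((∏ i : D.P, ∏ j : D.P,
      if Fintype.equivFin D.V i.1.v < Fintype.equivFin D.V j.1.v ∧ D.e i j = 1 ∧ D.e j i = 1
      then sg (eps (u i) * eps (u j)) else 1) *
    (∏ i : D.P, if i.2 ⬝ᵥ (D.q i.1.v + D.B i.1.v a) = 1 then p8 1 (u i) else 1) *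
    (∏ i : D.P, if i.2 ⬝ᵥ D.B i.1.v b = 1 then p8 2 (u i) else 1) : ℤ) *
  θ a b (fun v => if v = 0 then 1 else ∏ z : D.Z, ∏ ζ : D.Z, u (⟨v, z⟩, ζ)) (D.supV σ)

open Classical in
/-- unit residues on the support, `1` elsewhere -/
noncomputable def U8 (σ : Finset D.P) : Finset (D.P → ZMod 8) :=
  Fintype.piFinset (fun i : D.P => if i ∈ σ then {1, 3, 5, 7} else {1})

/-- the Fourier coefficient -/
noncomputable def coef (θ : D.V → D.V → (D.V → ZMod 8) → Finset D.V → ℝ) (a b : D.V)
    (σ : Finset D.P) (c : D.P → Fin 4) : ℝ :=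
  (1 / 4) ^ σ.card * ∑ u ∈ D.U8 σ, D.Psi θ a b σ u * ((∏ i ∈ σ, p8 (c i) (u i) : ℤ) : ℝ)

open Classical in
/-- characters supported in `σ` -/
noncomputable def C4 (σ : Finset D.P) : Finset (D.P → Fin 4) :=
  Fintype.piFinset (fun i : D.P => if i ∈ σ then Finset.univ else {0})

end Dt

namespace Wt

variable {D : Dt} (w : Wt D)

open Classical in
/-- the active indices -/
noncomputable def act : Finset D.P :=
  Finset.univ.filter fun i => i.1 ≠ 1 ∧
    (w.ind i.1 = w.m → D.crep i.1 = i.1 ∧ D.zrep i.1.v i.2 = i.2)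

/-- the coefficient of the indices of larger weight -/
noncomputable def kap (i : D.P) (n : ℕ) : ℝ :=
  if w.ind i.1 = w.m then 1 else (1 / 2 ^ D.s) ^ n.primeFactors.card

/-- the one-variable weights -/
noncomputable def aw (c : D.P → Fin 4) (i : D.P) (n : ℕ) : ℝ :=
  if 2 ≤ n then (psi (c i) n : ℝ) * w.kap i n else 0

/-- the basic sum of a support -/
noncomputable def TSσ (σ : Finset D.P) (c : D.P → Fin 4) (Y : ℝ) : ℝ :=
  GW (ι := {i // i ∈ σ}) (fun i => w.wt i.1.1) (fun i j => D.L i.1 j.1)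
    (fun i n => w.aw c i.1 n) Y

open Classical in
/-- the free indices -/
noncomputable def R (σ : Finset D.P) (c : D.P → Fin 4) : Finset D.P :=
  σ.filter fun i => w.ind i.1 = w.m ∧ c i = 0 ∧ ∀ j ∈ σ, D.e i j = D.e j i

open Classical in
/-- sums over the tuples with exact support `σ` -/
noncomputable def SX (σ : Finset D.P) (Y : ℝ) (h : (D.P → ℕ) → ℝ) : ℝ :=
  ∑ x ∈ Fintype.piFinset (fun i : D.P => if i ∈ σ then Finset.Icc 2 ⌊Y⌋₊ else {1}),
    if Squarefree (2 * ∏ i, x i) ∧ ∏ i, (x i : ℝ) ^ w.wt i.1 ≤ Y then h x else 0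

end Wt

end Pool.Agent.H98.ML
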