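import Pool.Agent.H98.MK.MDefs
import Pool.Agent.H98.ML.Defs

/-!
# Project MK2 (MP_a3214d): definitions for the master formula
-/

set_option autoImplicit false

open scoped BigOperators

namespace Pool.Agent.H98.ML

open Pool.Agent.H98.MK (Om Gam dabs fld chi dd adm par lg eps par_hom par_lc mfun z12)

/-- the number of orbits of `g` on the cosets of `H` -/
noncomputable def norb {G : Type} [Group G] (H : Subgroup G) (g : G) : ℕ :=
  Nat.card (MulAction.orbitRel.Quotient (Subgroup.zpowers g) (G ⧸ H))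

/-- the index of `g` on the cosets of `H` -/
noncomputable def hind {G : Type} [Group G] (H : Subgroup G) (g : G) : ℕ := H.index - norb H g

/-- the properties of a universal tame generator and Frobenius at `p` -/
structure IsTau (p : ℕ) (τ φ : Gam) : Prop where
  rel : ∀ (U : Subgroup Gam) [U.Normal], IsOpen (U : Set Gam) → (∃ k, U.index = 2 ^ k) →
    φ * τ * φ⁻¹ * (τ ^ p)⁻¹ ∈ U
  disc : ∀ (U : Subgroup Gam) [U.Normal], IsOpen (U : Set Gam) → (∃ k, U.index = 2 ^ k) →
    ∀ W : Subgroup Gam, U ≤ W → (dabs (fld W)).factorization p + norb W τ = W.index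
  chi0 : ∀ d : ℤ, ¬ (p : ℤ) ∣ d → chi d τ = 0 ∧ chi d φ = lg (jacobiSym d p)
  chi1 : chi (dd p : ℤ) τ = 1

open Classical in
/-- the universal tame generator -/
noncomputable def tau (p : ℕ) : Gam :=
  if h : ∃ τ φ : Gam, IsTau p τ φ then h.choose else 1

/-- a lift of `par x` to the group -/
structure IsLift (D : Dt) (x : ℕ →₀ D.V) (f : Gam → D.Z) : Prop where
  lc : IsLocallyConstant f
  hom : ∀ σ τ, f (σ * τ) = f σ + f τ + D.β (par x σ) (par x τ)

/-- the homomorphism attached to a lift -/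
noncomputable def lh {D : Dt} {x : ℕ →₀ D.V} {f : Gam → D.Z} (h : IsLift D x f) :
    Gam →* Ext D :=
  MonoidHom.mk' (fun σ => ⟨par x σ, f σ⟩) (fun σ τ => by
    apply Ext.ext
    · exact par_hom x σ τ
    · exact h.hom σ τ)

/-- exponents of the discriminant -/
noncomputable def ex {D : Dt} (H0 : Subgroup (Ext D)) (p : ℕ) (ρ : Gam →* Ext D) : ℕ :=
  (dabs (fld (H0.comap ρ))).factorization p

/-- the local conditions for the existence of a lift -/
def Sol (D : Dt) (x : ℕ →₀ D.V) : Prop :=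
  (∀ p : ℕ, p.Prime → p ≠ 2 → x p ≠ 0 →
      (x.sum fun i w => if i = p then 0 else lg (jacobiSym (dd i) p) • D.B w (x p)) =
        lg (jacobiSym (-1) p) • D.q (x p)) ∧
    D.q (x.sum fun i w => if dd i < 0 then w else 0) = 0

open Classical in
/-- the product of the odd primes with value `g` -/
noncomputable def gfun {D : Dt} (x : ℕ →₀ D.V) (z : ℕ →₀ D.Z) (g : Ext D) : ℕ :=
  ∏ p ∈ (x.support ∪ z.support).filter (fun p => p ≠ 1 ∧ p ≠ 2 ∧ x p = g.v ∧ z p = g.z), p

/-- the odd part of the discriminant -/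
noncomputable def szG {D : Dt} (H0 : Subgroup (Ext D)) (x : ℕ →₀ D.V) (z : ℕ →₀ D.Z) : ℕ :=
  ∏ g : Ext D, gfun x z g ^ hind H0 g

/-- a normalised lift -/
structure IsNormal (D : Dt) (x : ℕ →₀ D.V) (f : Gam → D.Z) : Prop extends IsLift D x f where
  nor : ∀ p : ℕ, p.Prime → p ≠ 2 → f (tau p) = 0

theorem IsLift.add {D : Dt} {x : ℕ →₀ D.V} {f : Gam → D.Z} (h : IsLift D x f)
    (z : ℕ →₀ D.Z) : IsLift D x (fun σ => f σ + par z σ) := by
  refine ⟨?_, fun σ τ => ?_⟩
  · exact IsLocallyConstant.comp₂ h.lc (par_lc z) (fun a b => a + b)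
  · rw [h.hom, par_hom z σ τ]
    abel

end Pool.Agent.H98.ML
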