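import Pool.Agent.H98.ML.FDefs
import Pool.Agent.H98.MK.FldBasic

/-!
# Project MK2, row M3: tame generators in the group (version with the existence of the tame
generators as a hypothesis)
-/

set_option autoImplicit false

open scoped BigOperators

namespace Pool.Agent.H98.ML

open Pool.Agent.H98.MK (Om Gam dabs fld chi dd adm par lg eps par_hom par_lc mfun z12)

/-- existence of the universal tame generators -/
def M3Ex : Prop := ∀ (p : ℕ) [Fact p.Prime], p ≠ 2 → ∃ τ φ : Gam, IsTau p τ φ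

theorem m3_tau (hE : M3Ex) (p : ℕ) (hp : p.Prime) (hp2 : p ≠ 2) : ∃ φ : Gam, IsTau p (tau p) φ := by
  have h : ∃ τ φ : Gam, IsTau p τ φ := @hE p ⟨hp⟩ hp2
  unfold tau
  rw [dif_pos h]
  exact h.choose_spec

private theorem m3_dd (p i : ℕ) (hp : p.Prime) (hp2 : p ≠ 2) (hi : i = 1 ∨ i.Prime) (hip : i ≠ p) :
    ¬ (p : ℤ) ∣ dd i := by
  have h0 : ¬ p ∣ i := by
    intro h
    rcases hi with rfl | hi
    · exact hp.one_lt.ne' (Nat.dvd_one.1 h)
    · exact hip ((Nat.prime_dvd_prime_iff_eq hp hi).1 h).symm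
  unfold dd
  intro h
  split_ifs at h with h1 h2 h3
  · rw [Int.dvd_neg] at h
    exact hp.one_lt.ne' (Nat.dvd_one.1 (by exact_mod_cast h))
  · exact hp2 ((Nat.prime_dvd_prime_iff_eq hp Nat.prime_two).1 (by exact_mod_cast h))
  · exact h0 (by exact_mod_cast h)
  · rw [Int.dvd_neg] at h
    exact h0 (by exact_mod_cast h)

theorem m3_par (hE : M3Ex) {W : Type} [AddCommGroup W] [Module (ZMod 2) W] {x : ℕ →₀ W}
    (hx : adm x) (p : ℕ) (hp : p.Prime) (hp2 : p ≠ 2) : par x (tau p) = x p := by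
  obtain ⟨φ, hφ⟩ := m3_tau hE p hp hp2
  unfold par Finsupp.sum
  rw [Finset.sum_eq_single p]
  · beta_reduce
    rw [hφ.chi1, one_smul]
  · intro i hi hip
    beta_reduce
    rw [(hφ.chi0 (dd i) (m3_dd p i hp hp2 (hx i (Finsupp.mem_support_iff.1 hi)) hip)).1, zero_smul]
  · intro h
    beta_reduce
    rw [Finsupp.notMem_support_iff.1 h, smul_zero]

theorem lh_tau_of (hE : M3Ex) {D : Dt} {x : ℕ →₀ D.V} {f : Gam → D.Z} (hx : adm x)
    (h : IsLift D x f) (p : ℕ) (hp : p.Prime) (hp2 : p ≠ 2) :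
    lh h (tau p) = ⟨x p, f (tau p)⟩ := by
  apply Ext.ext
  · exact m3_par hE hx p hp hp2
  · rfl

/-- orbits on cosets of a preimage -/
theorem m3_norb {G K : Type} [Group G] [Group K] (ρ : G →* K) (hs : Function.Surjective ρ)
    (H : Subgroup K) (g : G) : norb (H.comap ρ) g = norb H (ρ g) := by
  unfold norb
  let F : G ⧸ H.comap ρ → K ⧸ H := Quotient.map' (fun a => ρ a) (by
    intro a b hab
    rw [QuotientGroup.leftRel_apply] at hab ⊢
    rw [Subgroup.mem_comap, map_mul, map_inv] at hab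
    exact hab)
  have hF : ∀ a : G, F (a : G ⧸ H.comap ρ) = ((ρ a : K) : K ⧸ H) := fun a => rfl
  have hbij : Function.Bijective F := by
    constructor
    · intro a b
      induction a using QuotientGroup.induction_on with
      | H a =>
      induction b using QuotientGroup.induction_on with
      | H b =>
      intro hab
      rw [hF, hF, QuotientGroup.eq] at hab
      rw [QuotientGroup.eq, Subgroup.mem_comap, map_mul, map_inv]
      exact hab
    · intro y
      induction y using QuotientGroup.induction_on with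
      | H y =>
      obtain ⟨a, rfl⟩ := hs y
      exact ⟨(a : G ⧸ H.comap ρ), hF a⟩
  have hsm : ∀ (a : G) (x : G ⧸ H.comap ρ), F (a • x) = ρ a • F x := by
    intro a x
    induction x using QuotientGroup.induction_on with
    | H b =>
    have h1 : a • ((b : G) : G ⧸ H.comap ρ) = ((a * b : G) : G ⧸ H.comap ρ) := rfl
    have h2 : ρ a • ((ρ b : K) : K ⧸ H) = ((ρ a * ρ b : K) : K ⧸ H) := rfl
    rw [h1, hF, hF, h2, map_mul]
  refine Nat.card_congr (Quotient.congr (Equiv.ofBijective F hbij) ?_)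
  intro a b
  show (MulAction.orbitRel _ _) a b ↔ (MulAction.orbitRel _ _) (F a) (F b)
  rw [MulAction.orbitRel_apply, MulAction.orbitRel_apply, MulAction.mem_orbit_iff,
    MulAction.mem_orbit_iff]
  constructor
  · rintro ⟨⟨s, hs1⟩, hx⟩
    obtain ⟨k, rfl⟩ := Subgroup.mem_zpowers_iff.1 hs1
    refine ⟨⟨ρ g ^ k, Subgroup.mem_zpowers_iff.2 ⟨k, rfl⟩⟩, ?_⟩
    rw [← hx]
    show ρ g ^ k • F b = F (g ^ k • b)
    rw [hsm, map_zpow]
  · rintro ⟨⟨s, hs1⟩, hx⟩
    obtain ⟨k, rfl⟩ := Subgroup.mem_zpowers_iff.1 hs1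
    refine ⟨⟨g ^ k, Subgroup.mem_zpowers_iff.2 ⟨k, rfl⟩⟩, ?_⟩
    apply hbij.1
    show F (g ^ k • b) = F a
    rw [hsm, map_zpow]
    exact hx

theorem m3_card (D : Dt) : Nat.card (Ext D) = D.n := by
  rw [Nat.card_congr (Ext.equivProd (D := D)), Nat.card_prod, Nat.card_eq_fintype_card,
    Nat.card_eq_fintype_card, Fintype.card_fun, Fintype.card_fun, ZMod.card, Fintype.card_fin,
    Fintype.card_fin, Dt.n, pow_add]

theorem m3_ker {D : Dt} (ρ : Gam →* Ext D) : ∃ k, ρ.ker.index = 2 ^ k := by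
  have h : ρ.ker.index ∣ 2 ^ (D.r + D.s) := by
    rw [Subgroup.index_ker]
    have h1 := Subgroup.card_subgroup_dvd_card ρ.range
    rwa [m3_card] at h1
  obtain ⟨k, -, hk⟩ := (Nat.dvd_prime_pow Nat.prime_two).1 h
  exact ⟨k, hk⟩

theorem m3_open {D : Dt} (ρ : Gam →* Ext D) (hρ : IsLocallyConstant ρ) :
    IsOpen (ρ.ker : Set Gam) := by
  have h := hρ.isOpen_fiber (1 : Ext D)
  have h2 : (ρ.ker : Set Gam) = {x | ρ x = 1} := by
    ext x
    exact MonoidHom.mem_ker
  rw [h2]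
  exact h

theorem ex_tau_of (hE : M3Ex) {D : Dt} (H0 : Subgroup (Ext D)) (ρ : Gam →* Ext D)
    (hρ : IsLocallyConstant ρ) (hs : Function.Surjective ρ) (p : ℕ) (hp : p.Prime) (hp2 : p ≠ 2) :
    ex H0 p ρ = hind H0 (ρ (tau p)) := by
  obtain ⟨φ, hφ⟩ := m3_tau hE p hp hp2
  have h1 := hφ.disc ρ.ker (m3_open ρ hρ) (m3_ker ρ) (H0.comap ρ) (by
    intro x hx
    rw [Subgroup.mem_comap, MonoidHom.mem_ker.1 hx]
    exact H0.one_mem)
  rw [m3_norb ρ hs, Subgroup.index_comap_of_surjective H0 hs] at h1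
  unfold ex hind
  omega

theorem m3_norb_lt {G : Type} [Group G] (U : Subgroup G) (hU : U.index ≠ 0) (g : G)
    (hg : g ∉ U) : norb U g < U.index := by
  have hfin : Finite (G ⧸ U) := Nat.finite_of_card_ne_zero hU
  have hsurj : Function.Surjective (fun x : G ⧸ U =>
      (Quotient.mk'' x : MulAction.orbitRel.Quotient (Subgroup.zpowers g) (G ⧸ U))) :=
    Quotient.mk''_surjective
  rcases lt_or_ge (norb U g) U.index with h | h
  · exact h
  exfalso
  have hinj := (hsurj.bijective_of_nat_card_le (by exact h)).1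
  have h2 : (Quotient.mk'' ((g : G) : G ⧸ U) :
      MulAction.orbitRel.Quotient (Subgroup.zpowers g) (G ⧸ U)) =
      Quotient.mk'' ((1 : G) : G ⧸ U) := by
    apply Quotient.sound'
    show (MulAction.orbitRel _ _) _ _
    rw [MulAction.orbitRel_apply, MulAction.mem_orbit_iff]
    refine ⟨⟨g, Subgroup.mem_zpowers g⟩, ?_⟩
    show g • ((1 : G) : G ⧸ U) = ((g : G) : G ⧸ U)
    show ((g * 1 : G) : G ⧸ U) = ((g : G) : G ⧸ U)
    rw [mul_one]
  have h3 : ((g : G) : G ⧸ U) = ((1 : G) : G ⧸ U) := hinj h2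
  rw [QuotientGroup.eq, mul_one] at h3
  exact hg (U.inv_mem_iff.1 h3)

theorem tau_finite_of (hE : M3Ex) {D : Dt} (ρ : Gam →* Ext D) (hρ : IsLocallyConstant ρ) :
    {p : ℕ | p.Prime ∧ p ≠ 2 ∧ ρ (tau p) ≠ 1}.Finite := by
  refine Set.Finite.subset (dabs (fld ρ.ker)).primeFactors.finite_toSet ?_
  rintro p ⟨hp, hp2, h1⟩
  obtain ⟨φ, hφ⟩ := m3_tau hE p hp hp2
  have h2 := hφ.disc ρ.ker (m3_open ρ hρ) (m3_ker ρ) ρ.ker le_rfl
  have h3 : norb ρ.ker (tau p) < ρ.ker.index := by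
    apply m3_norb_lt
    · obtain ⟨k, hk⟩ := m3_ker ρ
      rw [hk]
      positivity
    · intro h
      exact h1 (MonoidHom.mem_ker.1 h)
  have h4 : (dabs (fld ρ.ker)).factorization p ≠ 0 := by omega
  rw [Finset.mem_coe, ← Nat.support_factorization, Finsupp.mem_support_iff]
  exact h4

end Pool.Agent.H98.ML
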