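import Mathlib

/-!
# Project MK2, row A1: weighted sums over tuples with a min
-/

set_option autoImplicit false

namespace Pool.Agent.H98.ML

open Finset

variable {κ : Type} [Fintype κ] {h : ℕ → ℝ} {C0 : ℝ}

theorem rs_C0 (hh : ∀ n, 0 ≤ h n)
    (hs : ∀ t : ℝ, 1 ≤ t → ∑ n ∈ Finset.Icc 1 ⌊t⌋₊, h n ≤ C0 * t) : 0 ≤ C0 := by
  have h1 := hs 1 le_rfl
  rw [mul_one] at h1
  exact (sum_nonneg fun n _ => hh n).trans h1

theorem rs_hs (hh : ∀ n, 0 ≤ h n)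
    (hs : ∀ t : ℝ, 1 ≤ t → ∑ n ∈ Finset.Icc 1 ⌊t⌋₊, h n ≤ C0 * t) {x : ℝ} (hx : 0 ≤ x) :
    ∑ n ∈ Finset.Icc 1 ⌊x⌋₊, h n ≤ C0 * x := by
  rcases le_or_gt 1 x with h1 | h1
  · exact hs x h1
  · rw [Nat.floor_eq_zero.2 h1]
    simpa using mul_nonneg (rs_C0 hh hs) hx

theorem rs_log {x : ℝ} (hx : 1 ≤ x) : ((Nat.log 2 ⌊x⌋₊ : ℕ) : ℝ) + 1 ≤ 2 * (1 + Real.log x) := by
  have h0 : ⌊x⌋₊ ≠ 0 := by
    have := Nat.le_floor (n := 1) (by exact_mod_cast hx : ((1 : ℕ) : ℝ) ≤ x)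
    omega
  have h1 : (2 : ℝ) ^ (Nat.log 2 ⌊x⌋₊) ≤ x := by
    have h2 := Nat.pow_log_le_self 2 h0
    have h3 : ((2 ^ Nat.log 2 ⌊x⌋₊ : ℕ) : ℝ) ≤ ((⌊x⌋₊ : ℕ) : ℝ) := Nat.cast_le.2 h2
    push_cast at h3
    exact h3.trans (Nat.floor_le (by linarith))
  have h2 := Real.log_le_log (by positivity) h1
  rw [Real.log_pow] at h2
  have h3 := Real.log_two_gt_d9
  have h4 : (0 : ℝ) ≤ (Nat.log 2 ⌊x⌋₊ : ℕ) := Nat.cast_nonneg _
  nlinarith [Real.log_nonneg hx]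

/-- the harmonic sum -/
theorem rs_S (hh : ∀ n, 0 ≤ h n)
    (hs : ∀ t : ℝ, 1 ≤ t → ∑ n ∈ Finset.Icc 1 ⌊t⌋₊, h n ≤ C0 * t) {Y : ℝ} (hY : 1 ≤ Y) :
    ∑ n ∈ Finset.Icc 1 ⌊Y⌋₊, h n / n ≤ 4 * C0 * (1 + Real.log Y) := by
  have hC := rs_C0 hh hs
  set J := Nat.log 2 ⌊Y⌋₊ with hJ
  have h1 : ∀ n ∈ Finset.Icc 1 ⌊Y⌋₊, h n / n ≤
      ∑ j ∈ range (J + 1), if n ≤ 2 ^ (j + 1) then h n * (1 / (2 : ℝ) ^ j) else 0 := by
    intro n hn
    rw [mem_Icc] at hn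
    have hn0 : n ≠ 0 := by omega
    have hj : Nat.log 2 n ∈ range (J + 1) := by
      rw [mem_range]
      have := Nat.log_mono_right (b := 2) hn.2
      omega
    have hnn : ∀ j ∈ range (J + 1),
        (0 : ℝ) ≤ if n ≤ 2 ^ (j + 1) then h n * (1 / (2 : ℝ) ^ j) else 0 := by
      intro j _
      have := hh n
      split_ifs <;> positivity
    refine le_trans ?_ (single_le_sum hnn hj)
    have h2 : n ≤ 2 ^ (Nat.log 2 n + 1) := (Nat.lt_pow_succ_log_self (by norm_num) n).le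
    rw [if_pos h2, div_eq_mul_one_div]
    have h3 : ((2 ^ Nat.log 2 n : ℕ) : ℝ) ≤ (n : ℝ) := Nat.cast_le.2 (Nat.pow_log_le_self 2 hn0)
    push_cast at h3
    exact mul_le_mul_of_nonneg_left (one_div_le_one_div_of_le (by positivity) h3) (hh n)
  calc ∑ n ∈ Finset.Icc 1 ⌊Y⌋₊, h n / n
      ≤ ∑ n ∈ Finset.Icc 1 ⌊Y⌋₊, ∑ j ∈ range (J + 1),
        (if n ≤ 2 ^ (j + 1) then h n * (1 / (2 : ℝ) ^ j) else 0) := sum_le_sum h1
    _ = ∑ j ∈ range (J + 1), ∑ n ∈ Finset.Icc 1 ⌊Y⌋₊,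
        (if n ≤ 2 ^ (j + 1) then h n * (1 / (2 : ℝ) ^ j) else 0) := sum_comm
    _ ≤ ∑ _j ∈ range (J + 1), 2 * C0 := by
        refine sum_le_sum fun j _ => ?_
        rw [← sum_filter, ← sum_mul]
        have h2 : (Finset.Icc 1 ⌊Y⌋₊).filter (fun n => n ≤ 2 ^ (j + 1)) ⊆
            Finset.Icc 1 ⌊((2 : ℝ) ^ (j + 1))⌋₊ := by
          intro n hn
          rw [mem_filter, mem_Icc] at hn
          rw [mem_Icc]
          refine ⟨hn.1.1, Nat.le_floor ?_⟩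
          exact_mod_cast hn.2
        have h3 := (sum_le_sum_of_subset_of_nonneg h2 fun n _ _ => hh n).trans
          (rs_hs hh hs (by positivity : (0 : ℝ) ≤ 2 ^ (j + 1)))
        calc _ ≤ (C0 * 2 ^ (j + 1)) * (1 / (2 : ℝ) ^ j) :=
              mul_le_mul_of_nonneg_right h3 (by positivity)
          _ = 2 * C0 := by
              rw [pow_succ]
              field_simp
    _ = (((J : ℕ) : ℝ) + 1) * (2 * C0) := by
        rw [sum_const, card_range, nsmul_eq_mul]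
        push_cast
        ring
    _ ≤ (2 * (1 + Real.log Y)) * (2 * C0) :=
        mul_le_mul_of_nonneg_right (rs_log hY) (by positivity)
    _ = _ := by ring

open Classical in
/-- tuples with bounded product -/
theorem rs_N (i0 : κ) (hh : ∀ n, 0 ≤ h n)
    (hs : ∀ t : ℝ, 1 ≤ t → ∑ n ∈ Finset.Icc 1 ⌊t⌋₊, h n ≤ C0 * t) (Y : ℝ) {t : ℝ}
    (ht : 0 ≤ t) :
    ∑ r ∈ Fintype.piFinset (fun _ : κ => Finset.Icc 1 ⌊Y⌋₊),
      (if ∏ i, (r i : ℝ) ≤ t then ∏ i, h (r i) else 0) ≤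
      C0 * t * (∑ n ∈ Finset.Icc 1 ⌊Y⌋₊, h n / n) ^ (Fintype.card κ - 1) := by
  have hC := rs_C0 hh hs
  set T := Finset.Icc 1 ⌊Y⌋₊ with hT
  have e1 : ∑ r ∈ Fintype.piFinset (fun _ : κ => T),
      (if ∏ i, (r i : ℝ) ≤ t then ∏ i, h (r i) else 0) =
      ∑ p ∈ T ×ˢ Fintype.piFinset (fun _ : {j : κ // j ≠ i0} => T),
        (if (p.1 : ℝ) * ∏ j, (p.2 j : ℝ) ≤ t then h p.1 * ∏ j, h (p.2 j) else 0) := by
    refine Finset.sum_equiv (Equiv.funSplitAt i0 ℕ) ?_ ?_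
    · intro r
      simp only [Fintype.mem_piFinset, mem_product, Equiv.funSplitAt_apply]
      constructor
      · intro h1
        exact ⟨h1 i0, fun j => h1 j⟩
      · rintro ⟨h1, h2⟩ i
        by_cases hi : i = i0
        · rw [hi]; exact h1
        · exact h2 ⟨i, hi⟩
    · intro r _
      simp only [Equiv.funSplitAt_apply]
      rw [Fintype.prod_eq_mul_prod_subtype_ne (fun i => (r i : ℝ)) i0,
        Fintype.prod_eq_mul_prod_subtype_ne (fun i => h (r i)) i0]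
  rw [e1, sum_product_right]
  have h1 : ∀ q ∈ Fintype.piFinset (fun _ : {j : κ // j ≠ i0} => T),
      ∑ n ∈ T, (if (n : ℝ) * ∏ j, (q j : ℝ) ≤ t then h n * ∏ j, h (q j) else 0) ≤
      C0 * t * ∏ j, (h (q j) / (q j : ℝ)) := by
    intro q hq
    rw [Fintype.mem_piFinset] at hq
    have hq1 : ∀ j, (0 : ℝ) < (q j : ℝ) := by
      intro j
      have := (mem_Icc.1 (hq j)).1
      exact_mod_cast this
    have hP : (0 : ℝ) < ∏ j, (q j : ℝ) := prod_pos fun j _ => hq1 j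
    have hH : 0 ≤ ∏ j, h (q j) := prod_nonneg fun j _ => hh _
    rw [← sum_filter, ← sum_mul]
    have h2 : T.filter (fun n : ℕ => (n : ℝ) * ∏ j, (q j : ℝ) ≤ t) ⊆
        Finset.Icc 1 ⌊t / ∏ j, (q j : ℝ)⌋₊ := by
      intro n hn
      rw [mem_filter, hT, mem_Icc] at hn
      rw [mem_Icc]
      refine ⟨hn.1.1, Nat.le_floor ?_⟩
      rw [le_div_iff₀ hP]
      exact hn.2
    have h3 := (sum_le_sum_of_subset_of_nonneg h2 fun n _ _ => hh n).trans
      (rs_hs hh hs (by positivity : (0 : ℝ) ≤ t / ∏ j, (q j : ℝ)))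
    rw [prod_div_distrib]
    calc _ ≤ C0 * (t / ∏ j, (q j : ℝ)) * ∏ j, h (q j) := mul_le_mul_of_nonneg_right h3 hH
      _ = _ := by ring
  refine (sum_le_sum h1).trans (le_of_eq ?_)
  rw [← mul_sum]
  congr 1
  have h2 := Finset.prod_univ_sum (fun _ : {j : κ // j ≠ i0} => T)
    (fun _ n => h n / (n : ℝ))
  rw [prod_const, card_univ, Fintype.card_subtype_compl, Fintype.card_subtype_eq] at h2
  exact h2.symm

open Classical in
theorem rs_sum {κ : Type} [Fintype κ] (h : ℕ → ℝ) (hh : ∀ n, 0 ≤ h n) (C0 : ℝ)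
    (hs : ∀ t : ℝ, 1 ≤ t → ∑ n ∈ Finset.Icc 1 ⌊t⌋₊, h n ≤ C0 * t) :
    ∃ C : ℝ, ∀ Y H : ℝ, 1 ≤ Y → 1 ≤ H →
      ∑ r ∈ Fintype.piFinset (fun _ : κ => Finset.Icc 1 ⌊Y⌋₊),
        (if ∏ i, (r i : ℝ) ≤ Y then (∏ i, h (r i)) * min (Y / ∏ i, (r i : ℝ)) H else 0) ≤
      C * Y * (1 + Real.log Y) ^ (Fintype.card κ - 1) * (1 + Real.log H) := by
  have hC := rs_C0 hh hs
  by_cases hκ : IsEmpty κ
  · refine ⟨1, fun Y H hY hH => ?_⟩
    have hlY := Real.log_nonneg hY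
    have hlH := Real.log_nonneg hH
    have h1 : Fintype.card κ = 0 := Fintype.card_eq_zero
    rw [h1]
    simp only [univ_eq_empty, prod_empty, zero_tsub, pow_zero, mul_one, one_mul, div_one, hY,
      if_true, sum_const, Fintype.card_piFinset, one_smul]
    calc min Y H ≤ Y := min_le_left _ _
      _ ≤ Y * (1 + Real.log H) := by nlinarith
  · rw [not_isEmpty_iff] at hκ
    obtain ⟨i0⟩ := hκ
    refine ⟨4 * C0 * (4 * C0) ^ (Fintype.card κ - 1), fun Y H hY hH => ?_⟩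
    have hlY := Real.log_nonneg hY
    have hlH := Real.log_nonneg hH
    have hY0 : 0 < Y := by linarith
    set J := Nat.log 2 ⌊H⌋₊ with hJ
    have hS0 : 0 ≤ ∑ n ∈ Finset.Icc 1 ⌊Y⌋₊, h n / n :=
      sum_nonneg fun n _ => div_nonneg (hh n) (Nat.cast_nonneg n)
    have h1 : ∀ r ∈ Fintype.piFinset (fun _ : κ => Finset.Icc 1 ⌊Y⌋₊),
        (if ∏ i, (r i : ℝ) ≤ Y then (∏ i, h (r i)) * min (Y / ∏ i, (r i : ℝ)) H else 0) ≤
        ∑ j ∈ range (J + 1), (2 : ℝ) ^ (j + 1) *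
          (if ∏ i, (r i : ℝ) ≤ Y / 2 ^ j then ∏ i, h (r i) else 0) := by
      intro r hr
      rw [Fintype.mem_piFinset] at hr
      have hP : (0 : ℝ) < ∏ i, (r i : ℝ) := prod_pos fun i _ => by
        have := (mem_Icc.1 (hr i)).1
        exact_mod_cast this
      have hH' : 0 ≤ ∏ i, h (r i) := prod_nonneg fun i _ => hh _
      have hnn : ∀ j ∈ range (J + 1), (0 : ℝ) ≤ (2 : ℝ) ^ (j + 1) *
          (if ∏ i, (r i : ℝ) ≤ Y / 2 ^ j then ∏ i, h (r i) else 0) := by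
        intro j _
        split_ifs <;> positivity
      split_ifs with hD
      · set m := min (Y / ∏ i, (r i : ℝ)) H with hm
        have hm1 : 1 ≤ m := le_min (by rw [le_div_iff₀ hP, one_mul]; exact hD) hH
        have hm0 : ⌊m⌋₊ ≠ 0 := by
          have := Nat.le_floor (n := 1) (by exact_mod_cast hm1 : ((1 : ℕ) : ℝ) ≤ m)
          omega
        set j := Nat.log 2 ⌊m⌋₊ with hj
        have hjJ : j ∈ range (J + 1) := by
          rw [mem_range]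
          have := Nat.log_mono_right (b := 2) (Nat.floor_le_floor (min_le_right (Y /
            ∏ i, (r i : ℝ)) H) : ⌊m⌋₊ ≤ ⌊H⌋₊)
          omega
        have h2 : (2 : ℝ) ^ j ≤ m := by
          have h3 : ((2 ^ j : ℕ) : ℝ) ≤ ((⌊m⌋₊ : ℕ) : ℝ) :=
            Nat.cast_le.2 (Nat.pow_log_le_self 2 hm0)
          push_cast at h3
          exact h3.trans (Nat.floor_le (by linarith))
        have h3 : m ≤ (2 : ℝ) ^ (j + 1) := by
          have h4 := Nat.lt_floor_add_one m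
          have h5 : ⌊m⌋₊ + 1 ≤ 2 ^ (j + 1) := Nat.lt_pow_succ_log_self (by norm_num) _
          have h6 : ((⌊m⌋₊ + 1 : ℕ) : ℝ) ≤ ((2 ^ (j + 1) : ℕ) : ℝ) := Nat.cast_le.2 h5
          push_cast at h6
          linarith
        have h4 : ∏ i, (r i : ℝ) ≤ Y / 2 ^ j := by
          have h5 : (2 : ℝ) ^ j ≤ Y / ∏ i, (r i : ℝ) := h2.trans (min_le_left _ _)
          rw [le_div_iff₀ hP] at h5
          rw [le_div_iff₀ (by positivity)]
          linarith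
        refine le_trans ?_ (single_le_sum hnn hjJ)
        rw [if_pos h4, mul_comm]
        exact mul_le_mul_of_nonneg_right h3 hH'
      · exact sum_nonneg hnn
    calc _ ≤ _ := sum_le_sum h1
      _ = ∑ j ∈ range (J + 1), (2 : ℝ) ^ (j + 1) *
          ∑ r ∈ Fintype.piFinset (fun _ : κ => Finset.Icc 1 ⌊Y⌋₊),
            (if ∏ i, (r i : ℝ) ≤ Y / 2 ^ j then ∏ i, h (r i) else 0) := by
          rw [sum_comm]
          exact sum_congr rfl fun j _ => (mul_sum _ _ _).symm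
      _ ≤ ∑ _j ∈ range (J + 1), 2 * C0 * Y *
          (∑ n ∈ Finset.Icc 1 ⌊Y⌋₊, h n / n) ^ (Fintype.card κ - 1) := by
          refine sum_le_sum fun j _ => ?_
          have h2 := rs_N i0 hh hs Y (t := Y / 2 ^ j) (by positivity)
          calc _ ≤ _ := mul_le_mul_of_nonneg_left h2 (by positivity : (0 : ℝ) ≤ 2 ^ (j + 1))
            _ = _ := by
                rw [pow_succ]
                field_simp
      _ = (((J : ℕ) : ℝ) + 1) * (2 * C0 * Y *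
          (∑ n ∈ Finset.Icc 1 ⌊Y⌋₊, h n / n) ^ (Fintype.card κ - 1)) := by
          rw [sum_const, card_range, nsmul_eq_mul]
          push_cast
          ring
      _ ≤ (2 * (1 + Real.log H)) * (2 * C0 * Y *
          (4 * C0 * (1 + Real.log Y)) ^ (Fintype.card κ - 1)) := by
          have h2 := rs_log hH
          have h3 := rs_S hh hs hY
          gcongr
      _ = _ := by
          rw [mul_pow (4 * C0)]
          ring

end Pool.Agent.H98.ML
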