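import Pool.Agent.H98.ML.FDefs

/-!
# Project MK2 (MP_a3214d), row ML-G3: the orbit count on the cosets (Burnside)
-/

set_option autoImplicit false

open scoped BigOperators

namespace Pool.Agent.H98.ML

theorem nbu_mem {G : Type} [Group G] (H : Subgroup G) (τ : G) (a : Subgroup.zpowers τ) (g : G) :
    g ∈ ((QuotientGroup.mk : G → G ⧸ H) ⁻¹' MulAction.fixedBy (G ⧸ H) a) ↔
      g⁻¹ * (a : G) * g ∈ H := by
  have h1 : g ∈ ((QuotientGroup.mk : G → G ⧸ H) ⁻¹' MulAction.fixedBy (G ⧸ H) a) ↔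
      (((a : G) * g : G) : G ⧸ H) = (g : G ⧸ H) := Iff.rfl
  rw [h1, eq_comm, QuotientGroup.eq]
  rw [mul_assoc]

theorem nbu_fix {G : Type} [Group G] (H : Subgroup G) (τ : G) (a : Subgroup.zpowers τ) :
    Nat.card H * Nat.card (MulAction.fixedBy (G ⧸ H) a) =
      Nat.card {g : G // g⁻¹ * (a : G) * g ∈ H} := by
  rw [← Nat.card_prod, ← Nat.card_congr
    (QuotientGroup.preimageMkEquivSubgroupProdSet H (MulAction.fixedBy (G ⧸ H) a))]
  exact Nat.card_congr (Equiv.subtypeEquivRight fun g => nbu_mem H τ a g)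

theorem norb_burnside {G : Type} [Group G] [Fintype G] (H : Subgroup G) (τ : G) :
    norb H τ * Nat.card H * Nat.card (Subgroup.zpowers τ) =
      ∑ g : G, Nat.card (Subgroup.zpowers τ ⊓ H.comap (MulAut.conj g).toMonoidHom : Subgroup G) := by
  classical
  have h1 : norb H τ * Nat.card (Subgroup.zpowers τ) =
      ∑ a : Subgroup.zpowers τ, Nat.card (MulAction.fixedBy (G ⧸ H) a) := by
    rw [norb, ← Nat.card_prod, ← Nat.card_congr
      (MulAction.sigmaFixedByEquivOrbitsProdGroup (Subgroup.zpowers τ) (G ⧸ H)), Nat.card_sigma]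
  have h2 : norb H τ * Nat.card H * Nat.card (Subgroup.zpowers τ) =
      ∑ a : Subgroup.zpowers τ, Nat.card {g : G // g⁻¹ * (a : G) * g ∈ H} := by
    rw [mul_right_comm, h1, Finset.sum_mul]
    refine Finset.sum_congr rfl fun a _ => ?_
    rw [mul_comm, nbu_fix]
  have h3 : ∀ a : Subgroup.zpowers τ, Nat.card {g : G // g⁻¹ * (a : G) * g ∈ H} =
      ∑ g : G, if g⁻¹ * (a : G) * g ∈ H then 1 else 0 := by
    intro a
    rw [Nat.card_eq_fintype_card, Fintype.card_subtype, Finset.card_filter]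
  have h4 : ∀ g : G, (∑ a : Subgroup.zpowers τ, if g * (a : G) * g⁻¹ ∈ H then 1 else 0) =
      Nat.card (Subgroup.zpowers τ ⊓ H.comap (MulAut.conj g).toMonoidHom : Subgroup G) := by
    intro g
    rw [← Finset.card_filter, ← Fintype.card_subtype, ← Nat.card_eq_fintype_card]
    refine Nat.card_congr ?_
    refine ⟨fun a => ⟨(a.1 : G), a.1.2, a.2⟩, fun b => ⟨⟨b.1, b.2.1⟩, b.2.2⟩, fun a => rfl,
      fun b => rfl⟩
  rw [h2, Finset.sum_congr rfl fun a _ => h3 a, Finset.sum_comm]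
  rw [Finset.sum_congr rfl fun g _ => (h4 g).symm]
  refine Fintype.sum_equiv (Equiv.inv G) _ _ fun g => ?_
  simp only [Equiv.inv_apply, inv_inv]

end Pool.Agent.H98.ML
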