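import Pool.Agent.H98.ML.Nec2

/-!
# Project MK2 (MP_a3214d), row M4: normalised lifts and the exponents at the odd primes
-/

set_option autoImplicit false

open scoped BigOperators

namespace Pool.Agent.H98.ML

open Pool.Agent.H98.MK (Om Gam dabs fld chi dd adm par lg eps par_hom par_lc mfun z12)

theorem exists_normal {D : Dt} {x : ℕ →₀ D.V} {f : Gam → D.Z} (_hx : adm x)
    (h : IsLift D x f) : ∃ f' : Gam → D.Z, IsNormal D x f' :=
  exists_normal_of m4_ex h

theorem ex_odd {D : Dt} (H0 : Subgroup (Ext D)) {x : ℕ →₀ D.V} {f : Gam → D.Z} (hx : adm x)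
    (h : IsNormal D x f) (z : ℕ →₀ D.Z) (hz : adm z)
    (hs : Function.Surjective (lh (h.toIsLift.add z))) (p : ℕ) (hp : p.Prime) (hp2 : p ≠ 2) :
    ex H0 p (lh (h.toIsLift.add z)) = hind H0 ⟨x p, z p⟩ :=
  ex_odd_of m4_ex H0 hx h z hz hs p hp hp2

end Pool.Agent.H98.ML
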