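import Pool.Agent.H98.MK.Embed
import Pool.Agent.H98.ML.FDefs

/-!
# Project MK2, row K: the lift exists under the local conditions

Adapted from `MK/EmbedA.lean` (helper15).
-/

set_option autoImplicit false

open scoped BigOperators

namespace Pool.Agent.H98.ML

open Pool.Agent.H98.MK (Om Gam dabs fld chi dd adm par lg eps par_hom par_lc mfun z12 k3tt k3_one
  tate steinberg chi_mul)

/-- the cocycle in coordinates -/
theorem ek_coord (D : Dt) (x : ℕ →₀ D.V) (σ τ : Gam) (k : Fin D.s) :
    D.β (par x σ) (par x τ) k = ∑ i ∈ x.support, ∑ j ∈ x.support,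
      D.β (x j) (x i) k * (chi (dd j : ℤ) σ * chi (dd i : ℤ) τ) := by
  unfold par
  simp only [Finsupp.sum, map_sum, LinearMap.sum_apply, map_smul, LinearMap.smul_apply,
    Finset.sum_apply, Pi.smul_apply, smul_eq_mul]
  refine Finset.sum_congr rfl fun i _ => ?_
  rw [Finset.mul_sum]
  refine Finset.sum_congr rfl fun j _ => ?_
  ring

/-- the tame condition in coordinates -/
theorem ek_tame (D : Dt) (x : ℕ →₀ D.V) (p : ℕ) (hps : p ∈ x.support)
    (h : (x.sum fun i w => if i = p then 0 else lg (jacobiSym (dd i) p) • D.B w (x p)) =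
        lg (jacobiSym (-1) p) • D.q (x p)) (k : Fin D.s) :
    ∑ i ∈ x.support, ∑ j ∈ x.support, D.β (x j) (x i) k * k3tt p i j = 0 := by
  have h1 := congrFun h k
  simp only [Finsupp.sum, Finset.sum_apply, Pi.smul_apply, smul_eq_mul] at h1
  have h2 : ∀ i, (if i = p then (0 : D.Z) else lg (jacobiSym (dd i) p) • D.B (x i) (x p)) k =
      if i = p then 0 else lg (jacobiSym (dd i) p) * D.B (x i) (x p) k := by
    intro i
    split_ifs <;> rfl
  simp only [h2] at h1
  have h3 : ∀ i ∈ x.support, ∑ j ∈ x.support, D.β (x j) (x i) k * k3tt p i j =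
      (if i = p then ∑ j ∈ x.support, D.β (x j) (x p) k *
        (if j = p then lg (jacobiSym (-1) p) else lg (jacobiSym (dd j) p)) else
        D.β (x p) (x i) k * lg (jacobiSym (dd i) p)) := by
    intro i _
    by_cases hi : i = p
    · subst hi
      rw [if_pos rfl]
      refine Finset.sum_congr rfl fun j _ => ?_
      unfold k3tt
      by_cases hj : j = i
      · simp [hj]
      · simp [hj]
    · rw [if_neg hi, Finset.sum_eq_single p]
      · unfold k3tt
        simp [hi]
      · intro j _ hj
        unfold k3tt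
        simp [hi, hj]
      · intro h4
        exact absurd hps h4
  have hrow : ∑ j ∈ x.support, D.β (x j) (x p) k *
      (if j = p then lg (jacobiSym (-1) p) else lg (jacobiSym (dd j) p)) =
      D.β (x p) (x p) k * lg (jacobiSym (-1) p) + ∑ j ∈ x.support.erase p,
        D.β (x j) (x p) k * (if j = p then lg (jacobiSym (-1) p) else
          lg (jacobiSym (dd j) p)) := by
    rw [← Finset.add_sum_erase _ _ hps, if_pos rfl]
  rw [Finset.sum_congr rfl h3, ← Finset.add_sum_erase _ _ hps, if_pos rfl]
  rw [← Finset.add_sum_erase _ _ hps, if_pos rfl, zero_add] at h1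
  have h4 : ∑ i ∈ x.support.erase p, D.β (x i) (x p) k *
      (if i = p then lg (jacobiSym (-1) p) else lg (jacobiSym (dd i) p)) +
      ∑ i ∈ x.support.erase p, (if i = p then ∑ j ∈ x.support, D.β (x j) (x p) k *
        (if j = p then lg (jacobiSym (-1) p) else lg (jacobiSym (dd j) p)) else
        D.β (x p) (x i) k * lg (jacobiSym (dd i) p)) =
      ∑ i ∈ x.support.erase p, (if i = p then 0 else lg (jacobiSym (dd i) p) *
        D.B (x i) (x p) k) := by
    rw [← Finset.sum_add_distrib]
    refine Finset.sum_congr rfl fun i hi => ?_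
    have hip : i ≠ p := (Finset.mem_erase.1 hi).1
    rw [if_neg hip, if_neg hip, if_neg hip]
    change _ = lg (jacobiSym (dd i) p) * (D.β (x i) (x p) k + D.β (x p) (x i) k)
    ring
  conv_lhs =>
    lhs
    rw [hrow]
  rw [add_assoc, h4, h1]
  change D.β (x p) (x p) k * lg (jacobiSym (-1) p) + lg (jacobiSym (-1) p) * D.β (x p) (x p) k = 0
  rw [mul_comm]
  exact CharTwo.add_self_eq_zero _

/-- the condition at infinity in coordinates -/
theorem ek_inf (D : Dt) (x : ℕ →₀ D.V)
    (h : D.q (x.sum fun i w => if dd i < 0 then w else 0) = 0) (k : Fin D.s) :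
    ∑ i ∈ x.support, ∑ j ∈ x.support,
      (if dd i < 0 ∧ dd j < 0 then D.β (x j) (x i) k else 0) = 0 := by
  have h1 := congrFun h k
  unfold Dt.q at h1
  simp only [Finsupp.sum, map_sum, LinearMap.sum_apply, Finset.sum_apply] at h1
  refine Eq.trans ?_ h1
  refine Finset.sum_congr rfl fun i _ => Finset.sum_congr rfl fun j _ => ?_
  by_cases hi : dd i < 0
  · by_cases hj : dd j < 0
    · simp [hi, hj]
    · simp [hi, hj]
  · by_cases hj : dd j < 0
    · simp [hi, hj]
    · simp [hi, hj]

theorem embed2 (D : Dt) (x : ℕ →₀ D.V) (hx : adm x) (h : Sol D x) :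
    ∃ f : Gam → D.Z, IsLift D x f := by
  obtain ⟨hp, hinf⟩ := h
  have h1 : ∀ k : Fin D.s, ∃ f : Gam → ZMod 2, IsLocallyConstant f ∧
      ∀ σ τ, f (σ * τ) = f σ + f τ + D.β (par x σ) (par x τ) k := by
    intro k
    obtain ⟨f, hf, h⟩ := k3_one (fun s hl hr hs S hS c h1 h2 => tate s hl hr hs S hS c h1 h2)
      steinberg chi_mul x.support
      (fun i hi => hx i (Finsupp.mem_support_iff.1 hi)) (fun i j => D.β (x j) (x i) k)
      (fun p hps hpp hp2 => ek_tame D x p hps (hp p hpp hp2 (Finsupp.mem_support_iff.1 hps)) k)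
      (ek_inf D x hinf k)
    refine ⟨f, hf, fun σ τ => ?_⟩
    rw [h, ek_coord]
  choose f hf h using h1
  refine ⟨fun σ k => f k σ, ⟨?_, fun σ τ => ?_⟩⟩
  · rw [IsLocallyConstant.iff_eventually_eq]
    intro σ
    have h2 : ∀ k, ∀ᶠ y in nhds σ, f k y = f k σ := fun k =>
      (IsLocallyConstant.iff_eventually_eq _).1 (hf k) σ
    filter_upwards [Filter.eventually_all.2 h2] with y hy
    funext k
    exact hy k
  · funext k
    exact h k σ τ

end Pool.Agent.H98.ML
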