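import Pool.Agent.H98.ML.NorbBurnside
import Pool.Agent.H98.MK.DiscExp
import Pool.Agent.H98.MK.TameExp

/-!
# Project MK2 (MP_a3214d), row ML-G3: discriminant exponents and orbits of the tame generator
-/

set_option autoImplicit false

open scoped BigOperators Pointwise

open Filter NumberField Pool.Agent.H67.MU

namespace Pool.Agent.H98.ML

theorem disc_orb_of {K : Type} [Field K] [NumberField K] [IsGalois ℚ K]
    (disc_sub : ∀ (p : ℕ) [Fact p.Prime] (P : Ideal (𝓞 K)) [P.IsPrime] (_ : (p : 𝓞 K) ∈ P)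
      (H : Subgroup (K ≃ₐ[ℚ] K)),
      (discr (IntermediateField.fixedField H)).natAbs.factorization p * Nat.card H *
          Nat.card (P.inertia (K ≃ₐ[ℚ] K)) +
        ∑ g : K ≃ₐ[ℚ] K, vexp P (differentIdeal (𝓞 (IntermediateField.fixedField
          (P.inertia (K ≃ₐ[ℚ] K) ⊓ H.comap (MulAut.conj g).toMonoidHom))) (𝓞 K)) =
        (discr K).natAbs.factorization p * Nat.card (P.inertia (K ≃ₐ[ℚ] K)))
    (tame_sub : ∀ (k : ℕ) (_ : Module.finrank ℚ K = 2 ^ k) (p : ℕ) [Fact p.Prime] (_ : p ≠ 2)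
      (P : Ideal (𝓞 K)) [P.IsPrime] (_ : (p : 𝓞 K) ∈ P) (J : Subgroup (K ≃ₐ[ℚ] K))
      (_ : J ≤ P.inertia (K ≃ₐ[ℚ] K)),
      vexp P (differentIdeal (𝓞 (IntermediateField.fixedField J)) (𝓞 K)) + 1 = Nat.card J)
    (k : ℕ) (hk : Module.finrank ℚ K = 2 ^ k) (p : ℕ) [Fact p.Prime] (hp : p ≠ 2)
    (P : Ideal (𝓞 K)) [P.IsPrime] (hpP : (p : 𝓞 K) ∈ P) (τ : K ≃ₐ[ℚ] K)
    (hτ : Subgroup.zpowers τ = P.inertia (K ≃ₐ[ℚ] K)) (H : Subgroup (K ≃ₐ[ℚ] K)) :
    (discr (IntermediateField.fixedField H)).natAbs.factorization p + norb H τ = H.index := by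
  have hpr : p.Prime := Fact.out
  have h1 := disc_sub p P hpP H
  have h2 := Pool.Agent.H98.MK.disc_exp p P hpP
  have hcard : Nat.card (K ≃ₐ[ℚ] K) = Module.finrank ℚ K := IsGalois.card_aut_eq_finrank ℚ K
  have ht : ¬ p ∣ Nat.card (P.inertia (K ≃ₐ[ℚ] K)) := by
    intro hd
    have h5 : p ∣ 2 ^ k := by
      rw [← hk, ← hcard]
      exact hd.trans (Subgroup.card_subgroup_dvd_card _)
    exact hp ((Nat.prime_dvd_prime_iff_eq hpr Nat.prime_two).1 (hpr.dvd_of_dvd_pow h5))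
  have h3 := Pool.Agent.H98.MK.tame_exp p P hpP ht
  have h4 := norb_burnside H τ
  rw [hτ] at h4
  have h5 : ∑ g : K ≃ₐ[ℚ] K, (vexp P (differentIdeal (𝓞 (IntermediateField.fixedField
        (P.inertia (K ≃ₐ[ℚ] K) ⊓ H.comap (MulAut.conj g).toMonoidHom))) (𝓞 K)) + 1) =
      ∑ g : K ≃ₐ[ℚ] K, Nat.card (P.inertia (K ≃ₐ[ℚ] K) ⊓
        H.comap (MulAut.conj g).toMonoidHom : Subgroup (K ≃ₐ[ℚ] K)) :=
    Finset.sum_congr rfl fun g _ => tame_sub k hk p hp P hpP _ inf_le_left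
  rw [Finset.sum_add_distrib, Finset.sum_const, Finset.card_univ, smul_eq_mul, mul_one,
    ← Nat.card_eq_fintype_card, hcard, ← h4] at h5
  have h6 : H.index * Nat.card H = Module.finrank ℚ K := by
    rw [Subgroup.index_mul_card, hcard]
  have hI : 0 < Nat.card (P.inertia (K ≃ₐ[ℚ] K)) := Nat.card_pos
  have hH : 0 < Nat.card H := Nat.card_pos
  refine Nat.eq_of_mul_eq_mul_right (Nat.mul_pos hH hI) ?_
  rw [h2] at h1
  have h7 : Module.finrank ℚ K * vexp P (differentIdeal ℤ (𝓞 K)) + Module.finrank ℚ K =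
      Module.finrank ℚ K * Nat.card (P.inertia (K ≃ₐ[ℚ] K)) := by
    rw [← h3]
    ring
  calc _ = ((discr (IntermediateField.fixedField H)).natAbs.factorization p * Nat.card H *
        Nat.card (P.inertia (K ≃ₐ[ℚ] K))) +
        norb H τ * Nat.card H * Nat.card (P.inertia (K ≃ₐ[ℚ] K)) := by ring
    _ = Module.finrank ℚ K * Nat.card (P.inertia (K ≃ₐ[ℚ] K)) := by
        rw [← h7, ← h1, ← h5, add_assoc]
    _ = _ := by rw [← h6]; ring

end Pool.Agent.H98.ML
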