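import Pool.Agent.H98.ML.GDA

/-!
# Project MK2 (MP_a3214d): discriminants of non-normal fields (helper33)

`gd_formula`: for a Galois field `K` with group `G`, a subfield `F` with group `H` and a prime `P`
of `K` over `p` with inertia group `I`,
`|H| |I| v_p(disc F) + sum over g of delta(I ∩ g H g^{-1}) = |I| v_p(disc K)`, where `delta(J)` is
the exponent of `P` in the different of `K` over the fixed field of `J`.
`gd_compare`: `v_p(disc F)` depends only on the restriction of `ρ` to the inertia group.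
`gd_index`: at a tame prime `v_p(disc F)` is the index.
-/

set_option autoImplicit false

open NumberField Pool.Agent.H67.MU UniqueFactorizationMonoid

open scoped Pointwise

namespace Pool.Agent.H98.ML

open Pool.Agent.H98.MK

section

variable {K : Type} [Field K] [NumberField K] [IsGalois ℚ K]

/-- the exponent of the different of `K` over the fixed field of `J` -/
noncomputable def gdel (P : Ideal (𝓞 K)) (J : Subgroup (K ≃ₐ[ℚ] K)) : ℕ :=
  vexp P (differentIdeal (𝓞 (IntermediateField.fixedField J)) (𝓞 K))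

theorem gd_formula (p : ℕ) [Fact p.Prime] (P : Ideal (𝓞 K)) [P.IsPrime]
    (hpP : (p : 𝓞 K) ∈ P) (F : IntermediateField ℚ K) :
    Nat.card F.fixingSubgroup * Nat.card (P.inertia (K ≃ₐ[ℚ] K)) *
        (discr F).natAbs.factorization p +
      ∑ σ : K ≃ₐ[ℚ] K, gdel P (P.inertia (K ≃ₐ[ℚ] K) ⊓ MulAut.conj σ • F.fixingSubgroup) =
    Nat.card (P.inertia (K ≃ₐ[ℚ] K)) * (discr K).natAbs.factorization p := by
  classical
  have hP0 := gd_ne_bot p P hpP
  have hd : differentIdeal (𝓞 F) (𝓞 K) ≠ ⊥ := differentIdeal_ne_bot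
  have h1 := natAbs_discr_eq_absNorm_differentIdeal_mul_natAbs_discr_pow F (𝓞 F) K (𝓞 K)
  have h2 : Module.finrank F K = Nat.card F.fixingSubgroup :=
    (IsGalois.card_fixingSubgroup_eq_finrank F).symm
  have h3 : (discr K).natAbs.factorization p =
      (Ideal.absNorm (differentIdeal (𝓞 F) (𝓞 K))).factorization p +
        Nat.card F.fixingSubgroup * (discr F).natAbs.factorization p := by
    rw [h1, Nat.factorization_mul, Nat.factorization_pow, h2]
    · rfl
    · rwa [Ne, Ideal.absNorm_eq_zero_iff]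
    · exact pow_ne_zero _ (Int.natAbs_ne_zero.2 (discr_ne_zero F))
  have h4 := gd_absNorm p P hpP _ hd
  have h5 : ∑ σ : K ≃ₐ[ℚ] K, vexp (σ • P) (differentIdeal (𝓞 F) (𝓞 K)) =
      ∑ σ : K ≃ₐ[ℚ] K, gdel P (P.inertia (K ≃ₐ[ℚ] K) ⊓ MulAut.conj σ • F.fixingSubgroup) := by
    rw [← Equiv.sum_comp (Equiv.inv (K ≃ₐ[ℚ] K))
      (fun σ : K ≃ₐ[ℚ] K => vexp (σ • P) (differentIdeal (𝓞 F) (𝓞 K)))]
    refine Finset.sum_congr rfl fun σ _ => ?_
    have h6 := gd_vexp_eq σ⁻¹ (F.map (σ : K →ₐ[ℚ] K)) F (gd_map_inv σ F _ rfl) P hP0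
    rw [Equiv.inv_apply, h6]
    refine dc_key P hP0 _ _ ?_
    rw [← IsGalois.map_fixingSubgroup]
  rw [← h5, ← h4, h3]
  ring

end

section groups

variable {G Γ : Type} [Group G] [Group Γ] [Fintype G] [Fintype Γ]

theorem gd_sum_comp (ρ : G →* Γ) (hρ : Function.Surjective ρ) (φ : Γ → ℕ) :
    Fintype.card Γ * ∑ σ : G, φ (ρ σ) = Fintype.card G * ∑ x : Γ, φ x := by
  have h1 : ∀ x : Γ, ∑ σ : G, φ (ρ σ * x) = ∑ σ : G, φ (ρ σ) := by
    intro x
    obtain ⟨τ, rfl⟩ := hρ x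
    rw [← Equiv.sum_comp (Equiv.mulRight τ) (fun σ : G => φ (ρ σ))]
    refine Finset.sum_congr rfl fun σ _ => ?_
    rw [Equiv.coe_mulRight, map_mul]
  have h2 : ∑ x : Γ, ∑ σ : G, φ (ρ σ * x) = Fintype.card Γ * ∑ σ : G, φ (ρ σ) := by
    rw [Finset.sum_congr rfl fun x _ => h1 x, Finset.sum_const, smul_eq_mul, Finset.card_univ]
  rw [← h2, Finset.sum_comm]
  have h3 : ∀ σ : G, ∑ x : Γ, φ (ρ σ * x) = ∑ x : Γ, φ x := by
    intro σ
    rw [← Equiv.sum_comp (Equiv.mulLeft (ρ σ)) φ]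
    rfl
  rw [Finset.sum_congr rfl fun σ _ => h3 σ, Finset.sum_const, smul_eq_mul, Finset.card_univ]

theorem gd_card_comap (ρ : G →* Γ) (hρ : Function.Surjective ρ) (H : Subgroup Γ) :
    Nat.card (H.comap ρ) * Nat.card Γ = Nat.card G * Nat.card H := by
  have h1 := (H.comap ρ).card_mul_index
  have h2 := H.card_mul_index
  rw [Subgroup.index_comap_of_surjective H hρ] at h1
  rw [← h1, ← h2]
  ring

omit [Fintype G] [Fintype Γ] in
theorem gd_comap_conj (ρ : G →* Γ) (H : Subgroup Γ) (σ : G) :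
    MulAut.conj σ • H.comap ρ = (MulAut.conj (ρ σ) • H).comap ρ := by
  ext g
  rw [Subgroup.mem_pointwise_smul_iff_inv_smul_mem, Subgroup.mem_comap, Subgroup.mem_comap,
    Subgroup.mem_pointwise_smul_iff_inv_smul_mem]
  simp [MulAut.smul_def, ← map_inv]

end groups

section

variable {K : Type} [Field K] [NumberField K] [IsGalois ℚ K]

/-- `v_p` of the discriminant of the field of `ρ` depends only on the restriction of `ρ` to the
inertia group, up to conjugation -/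
theorem gd_compare {Γ : Type} [Group Γ] [Finite Γ] (p : ℕ) [Fact p.Prime] (P : Ideal (𝓞 K))
    [P.IsPrime] (hpP : (p : 𝓞 K) ∈ P) (H : Subgroup Γ) (ρ ρ' : (K ≃ₐ[ℚ] K) →* Γ)
    (hρ : Function.Surjective ρ) (hρ' : Function.Surjective ρ') (F F' : IntermediateField ℚ K)
    (hF : F.fixingSubgroup = H.comap ρ) (hF' : F'.fixingSubgroup = H.comap ρ') (c : Γ)
    (h : ∀ s ∈ P.inertia (K ≃ₐ[ℚ] K), ρ s = c * ρ' s * c⁻¹) :
    (discr F).natAbs.factorization p = (discr F').natAbs.factorization p := by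
  classical
  have := Fintype.ofFinite Γ
  have key : ∀ (ρ : (K ≃ₐ[ℚ] K) →* Γ) (F : IntermediateField ℚ K),
      Function.Surjective ρ → F.fixingSubgroup = H.comap ρ →
      Nat.card (K ≃ₐ[ℚ] K) * Nat.card H * Nat.card (P.inertia (K ≃ₐ[ℚ] K)) *
        (discr F).natAbs.factorization p + Fintype.card (K ≃ₐ[ℚ] K) *
          ∑ x : Γ, gdel P (P.inertia (K ≃ₐ[ℚ] K) ⊓ (MulAut.conj x • H).comap ρ) =
      Nat.card Γ * (Nat.card (P.inertia (K ≃ₐ[ℚ] K)) * (discr K).natAbs.factorization p) := by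
    intro ρ F hρ hF
    rw [← gd_formula p P hpP F, hF]
    have h1 : ∑ σ : K ≃ₐ[ℚ] K, gdel P (P.inertia (K ≃ₐ[ℚ] K) ⊓ MulAut.conj σ • H.comap ρ) =
        ∑ σ : K ≃ₐ[ℚ] K, (fun x : Γ => gdel P (P.inertia (K ≃ₐ[ℚ] K) ⊓
          (MulAut.conj x • H).comap ρ)) (ρ σ) := by
      refine Finset.sum_congr rfl fun σ _ => ?_
      rw [gd_comap_conj]
    rw [h1, ← gd_sum_comp ρ hρ, mul_add, Nat.card_eq_fintype_card (α := Γ)]
    congr 1
    rw [← gd_card_comap ρ hρ H, Nat.card_eq_fintype_card (α := Γ)]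
    ring
  have k1 := key ρ F hρ hF
  have k2 := key ρ' F' hρ' hF'
  have h2 : ∑ x : Γ, gdel P (P.inertia (K ≃ₐ[ℚ] K) ⊓ (MulAut.conj x • H).comap ρ) =
      ∑ x : Γ, gdel P (P.inertia (K ≃ₐ[ℚ] K) ⊓ (MulAut.conj x • H).comap ρ') := by
    rw [← Equiv.sum_comp (Equiv.mulLeft c)
      (fun x : Γ => gdel P (P.inertia (K ≃ₐ[ℚ] K) ⊓ (MulAut.conj x • H).comap ρ))]
    refine Finset.sum_congr rfl fun x _ => ?_
    congr 1
    ext s
    rw [Subgroup.mem_inf, Subgroup.mem_inf]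
    refine and_congr_right fun hs => ?_
    rw [Subgroup.mem_comap, Subgroup.mem_comap, h s hs,
      Subgroup.mem_pointwise_smul_iff_inv_smul_mem, Subgroup.mem_pointwise_smul_iff_inv_smul_mem]
    have e : (MulAut.conj (Equiv.mulLeft c x))⁻¹ • (c * ρ' s * c⁻¹) =
        (MulAut.conj x)⁻¹ • ρ' s := by
      rw [MulAut.smul_def, MulAut.smul_def, Equiv.coe_mulLeft, ← map_inv, ← map_inv,
        MulAut.conj_apply, MulAut.conj_apply]
      group
    rw [e]
  rw [h2] at k1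
  have k3 := k1.trans k2.symm
  have k4 := Nat.add_right_cancel k3
  refine Nat.eq_of_mul_eq_mul_left ?_ k4
  exact Nat.mul_pos (Nat.mul_pos Nat.card_pos Nat.card_pos) Nat.card_pos

end

end Pool.Agent.H98.ML
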