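import Pool.Agent.H98.ML.FDefs
import Pool.Agent.H98.ML.GD

/-!
# Project MK2 (MP_a3214d), row ML-G1: discriminants of subfields of a Galois field
-/

set_option autoImplicit false

open scoped BigOperators Pointwise

open Filter NumberField Pool.Agent.H67.MU

namespace Pool.Agent.H98.ML

theorem disc_sub {K : Type} [Field K] [NumberField K] [IsGalois ℚ K] (p : ℕ) [Fact p.Prime]
    (P : Ideal (𝓞 K)) [P.IsPrime] (hpP : (p : 𝓞 K) ∈ P) (H : Subgroup (K ≃ₐ[ℚ] K)) :
    (discr (IntermediateField.fixedField H)).natAbs.factorization p * Nat.card H *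
        Nat.card (P.inertia (K ≃ₐ[ℚ] K)) +
      ∑ g : K ≃ₐ[ℚ] K, vexp P (differentIdeal (𝓞 (IntermediateField.fixedField
        (P.inertia (K ≃ₐ[ℚ] K) ⊓ H.comap (MulAut.conj g).toMonoidHom))) (𝓞 K)) =
      (discr K).natAbs.factorization p * Nat.card (P.inertia (K ≃ₐ[ℚ] K)) := by
  have h := gd_formula p P hpP (IntermediateField.fixedField H)
  rw [IntermediateField.fixingSubgroup_fixedField] at h
  rw [mul_comm ((discr K).natAbs.factorization p), ← h]
  congr 1
  · ring
  · rw [← Equiv.sum_comp (Equiv.inv (K ≃ₐ[ℚ] K)) (fun σ : K ≃ₐ[ℚ] K =>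
      gdel P (P.inertia (K ≃ₐ[ℚ] K) ⊓ MulAut.conj σ • H))]
    refine Finset.sum_congr rfl fun g _ => ?_
    have h1 : MulAut.conj (Equiv.inv (K ≃ₐ[ℚ] K) g) • H =
        H.comap (MulAut.conj g).toMonoidHom := by
      ext x
      rw [Subgroup.mem_pointwise_smul_iff_inv_smul_mem, Subgroup.mem_comap, Equiv.inv_apply,
        map_inv, inv_inv, MulAut.smul_def]
      rfl
    rw [h1]
    rfl

end Pool.Agent.H98.ML
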