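import Pool.Agent.H98.ML.FDefs
import Pool.Agent.H98.MK.DiscCompare
import Pool.Agent.H98.MK.TameExp

/-!
# Project MK2 (MP_a3214d), row ML-G2: tame exponents for subgroups of inertia (helper25)
-/

set_option autoImplicit false

open scoped BigOperators Pointwise
open Filter NumberField Pool.Agent.H67.MU

namespace Pool.Agent.H98.ML

open Pool.Agent.H98.MK

private theorem g2_lowZ {F : Type} [Field F] [NumberField F] (Q : Ideal (𝓞 F)) [Q.IsPrime]
    (hQ : Q ≠ ⊥) : Q.ramificationIdx ℤ ≤ vexp Q (differentIdeal ℤ (𝓞 F)) + 1 := by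
  classical
  have hu : Q.under ℤ ≠ ⊥ := Ideal.under_ne_bot ℤ hQ
  have hm : (Q.under ℤ).IsMaximal := Ideal.IsPrime.isMaximal inferInstance hu
  have hD : differentIdeal ℤ (𝓞 F) ≠ ⊥ := differentIdeal_ne_bot
  have hmap : (Q.under ℤ).map (algebraMap ℤ (𝓞 F)) ≠ ⊥ := Ideal.map_ne_bot_of_ne_bot hu
  have h4 : Q ^ Q.ramificationIdx ℤ ∣ (Q.under ℤ).map (algebraMap ℤ (𝓞 F)) := by
    rw [mu3_pow_dvd_iff inferInstance hQ hmap,
      Ideal.IsDedekindDomain.ramificationIdx_eq_normalizedFactors_count (Q.under ℤ) Q hmap, vexp]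
  have h5 := pow_sub_one_dvd_differentIdeal ℤ Q _ hu h4
  rw [mu3_pow_dvd_iff inferInstance hQ hD] at h5
  omega

private theorem g2_low {F K : Type} [Field F] [NumberField F] [Field K] [NumberField K]
    [Algebra F K] (Q : Ideal (𝓞 K)) [Q.IsPrime] (hQ : Q ≠ ⊥) :
    Q.ramificationIdx (𝓞 F) ≤ vexp Q (differentIdeal (𝓞 F) (𝓞 K)) + 1 := by
  classical
  have hu : Q.under (𝓞 F) ≠ ⊥ := Ideal.under_ne_bot (𝓞 F) hQ
  have hm : (Q.under (𝓞 F)).IsMaximal := Ideal.IsPrime.isMaximal inferInstance hu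
  have hD : differentIdeal (𝓞 F) (𝓞 K) ≠ ⊥ := differentIdeal_ne_bot
  have hmap : (Q.under (𝓞 F)).map (algebraMap (𝓞 F) (𝓞 K)) ≠ ⊥ :=
    Ideal.map_ne_bot_of_ne_bot hu
  have h4 : Q ^ Q.ramificationIdx (𝓞 F) ∣ (Q.under (𝓞 F)).map (algebraMap (𝓞 F) (𝓞 K)) := by
    rw [mu3_pow_dvd_iff inferInstance hQ hmap,
      Ideal.IsDedekindDomain.ramificationIdx_eq_normalizedFactors_count (Q.under (𝓞 F)) Q hmap,
      vexp]
  have h5 := pow_sub_one_dvd_differentIdeal (𝓞 F) Q _ hu h4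
  rw [mu3_pow_dvd_iff inferInstance hQ hD] at h5
  omega

theorem tame_sub {K : Type} [Field K] [NumberField K] [IsGalois ℚ K] (k : ℕ)
    (hk : Module.finrank ℚ K = 2 ^ k) (p : ℕ) [Fact p.Prime] (hp : p ≠ 2) (P : Ideal (𝓞 K))
    [P.IsPrime] (hpP : (p : 𝓞 K) ∈ P) (J : Subgroup (K ≃ₐ[ℚ] K))
    (hJ : J ≤ P.inertia (K ≃ₐ[ℚ] K)) :
    vexp P (differentIdeal (𝓞 (IntermediateField.fixedField J)) (𝓞 K)) + 1 = Nat.card J := by
  have hpp : p.Prime := Fact.out
  have hP : P ≠ ⊥ := by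
    rintro rfl
    have h1 : ((p : ℕ) : 𝓞 K) = 0 := by simpa using hpP
    exact hpp.ne_zero (by exact_mod_cast h1)
  have hcard : Nat.card (K ≃ₐ[ℚ] K) = 2 ^ k := by
    rw [IsGalois.card_aut_eq_finrank, hk]
  have ht : ¬ p ∣ Nat.card (P.inertia (K ≃ₐ[ℚ] K)) := by
    intro h
    have h1 : p ∣ 2 ^ k := (h.trans (Subgroup.card_subgroup_dvd_card _)).trans hcard.dvd
    exact hp ((Nat.prime_dvd_prime_iff_eq hpp Nat.prime_two).1 (hpp.dvd_of_dvd_pow h1))
  have h1 := tame_exp p P hpP ht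
  have h2 := diff_tower (F := IntermediateField.fixedField J) P hP
  have h3 := dt_ram_tower_int (E := IntermediateField.fixedField J) P
  have h4 := dc_card P (IntermediateField.fixedField J)
  rw [IntermediateField.fixingSubgroup_fixedField, inf_eq_right.2 hJ] at h4
  rw [dc_cardZ] at h3
  have h5 := g2_low (F := IntermediateField.fixedField J) P hP
  have h6 := g2_lowZ (P.under (𝓞 (IntermediateField.fixedField J)))
    (Ideal.under_ne_bot (𝓞 (IntermediateField.fixedField J)) hP)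
  rw [h4] at h2 h3 h5
  generalize vexp P (differentIdeal (𝓞 (IntermediateField.fixedField J)) (𝓞 K)) = a at *
  generalize vexp (P.under (𝓞 (IntermediateField.fixedField J)))
    (differentIdeal ℤ (𝓞 (IntermediateField.fixedField J))) = b at *
  generalize (P.under (𝓞 (IntermediateField.fixedField J))).ramificationIdx ℤ = e at *
  generalize Nat.card J = j at *
  generalize Nat.card (P.inertia (K ≃ₐ[ℚ] K)) = n at *
  have h7 : e * j ≤ (b + 1) * j := Nat.mul_le_mul_right _ h6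
  rw [h2] at h1
  have h8 : (b + 1) * j = j * b + j := by ring
  omega

end Pool.Agent.H98.ML
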