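import Pool.Agent.H98.ML.LocalOddFinOf
import Pool.Agent.H98.ML.DiscOrbOf
import Pool.Agent.H98.ML.DiscSub
import Pool.Agent.H98.ML.TameSub

/-!
# Project MK2 (MP_a3214d), row ML-G5: the local lemma at odd primes, all subgroups (helper16)
-/

set_option autoImplicit false

open scoped BigOperators Pointwise

open Filter NumberField Pool.Agent.H67.MU

namespace Pool.Agent.H98.ML

open Pool.Agent.H98.MK (Om Gam dabs fld chi dd adm par lg eps par_hom par_lc mfun z12)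

private theorem g5_orb : G5Orb := fun _ _ _ _ k hk p _ hp P _ hpP τ hτ H =>
  disc_orb_of (fun p _ P _ hpP H => disc_sub p P hpP H)
    (fun k hk p _ hp P _ hpP J hJ => tame_sub k hk p hp P hpP J hJ) k hk p hp P hpP τ hτ H

theorem local_odd_fin (p : ℕ) [Fact p.Prime] (hp : p ≠ 2) (U : Subgroup Gam) [U.Normal]
    (hU : IsOpen (U : Set Gam)) (k : ℕ) (hk : U.index = 2 ^ k) :
    ∃ τ φ : Gam, φ * τ * φ⁻¹ * (τ ^ p)⁻¹ ∈ U ∧
      (∀ W : Subgroup Gam, U ≤ W → (dabs (fld W)).factorization p + norb W τ = W.index) ∧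
      (∀ d : ℤ, ¬ (p : ℤ) ∣ d → (∀ σ ∈ U, chi d σ = 0) →
        chi d τ = 0 ∧ chi d φ = lg (jacobiSym d p)) ∧
      ((∀ σ ∈ U, chi (dd p : ℤ) σ = 0) → chi (dd p : ℤ) τ = 1) :=
  local_odd_fin_of g5_orb p hp U hU k hk

end Pool.Agent.H98.ML
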