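import Pool.Agent.H98.ML.ExistsTauOf
import Pool.Agent.H98.ML.LocalOddFin

/-!
# Project MK2 (MP_a3214d), row G6: universal tame generators
-/

set_option autoImplicit false

open scoped BigOperators

namespace Pool.Agent.H98.ML

open Pool.Agent.H98.MK (Om Gam dabs fld chi dd adm par lg eps par_hom par_lc mfun z12)

theorem exists_tau (p : ℕ) [Fact p.Prime] (hp : p ≠ 2) : ∃ τ φ : Gam, IsTau p τ φ :=
  exists_tau_of p fun U _ hU k hk => local_odd_fin p hp U hU k hk

end Pool.Agent.H98.ML
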