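import Pool.Agent.H98.ML.Nec2A
import Pool.Agent.H98.ML.ExistsTau

/-!
# Project MK2 (MP_a3214d), row M4: necessity of the local conditions
-/

set_option autoImplicit false

open scoped BigOperators

namespace Pool.Agent.H98.ML

open Pool.Agent.H98.MK (Om Gam dabs fld chi dd adm par lg eps par_hom par_lc mfun z12)

theorem m4_ex : M3Ex := fun p _ hp => exists_tau p hp

theorem nec {D : Dt} {x : ℕ →₀ D.V} {f : Gam → D.Z} (hx : adm x) (h : IsLift D x f) :
    Sol D x :=
  nec_of m4_ex hx h

end Pool.Agent.H98.ML
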