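import Pool.Agent.H98.ML.LhTauA
import Pool.Agent.H98.ML.ExistsTau

/-!
# Project MK2, row M3: tame generators in the group
-/

set_option autoImplicit false

open scoped BigOperators

namespace Pool.Agent.H98.ML

open Pool.Agent.H98.MK (Om Gam dabs fld chi dd adm par lg eps par_hom par_lc mfun z12)

theorem m3_ex : M3Ex := fun p _ hp => exists_tau p hp

theorem lh_tau {D : Dt} {x : ℕ →₀ D.V} {f : Gam → D.Z} (hx : adm x) (h : IsLift D x f)
    (p : ℕ) (hp : p.Prime) (hp2 : p ≠ 2) : lh h (tau p) = ⟨x p, f (tau p)⟩ :=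
  lh_tau_of m3_ex hx h p hp hp2

theorem ex_tau {D : Dt} (H0 : Subgroup (Ext D)) (ρ : Gam →* Ext D) (hρ : IsLocallyConstant ρ)
    (hs : Function.Surjective ρ) (p : ℕ) (hp : p.Prime) (hp2 : p ≠ 2) :
    ex H0 p ρ = hind H0 (ρ (tau p)) :=
  ex_tau_of m3_ex H0 ρ hρ hs p hp hp2

theorem tau_finite {D : Dt} (ρ : Gam →* Ext D) (hρ : IsLocallyConstant ρ) :
    {p : ℕ | p.Prime ∧ p ≠ 2 ∧ ρ (tau p) ≠ 1}.Finite :=
  tau_finite_of m3_ex ρ hρ

end Pool.Agent.H98.ML
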