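import Pool.Agent.H98.MK.CountFields
import Pool.Agent.H98.MK.FldBasic

/-!
# Project MK2, row ML-S3: the frozen count in terms of homomorphisms
-/

set_option autoImplicit false

open scoped BigOperators

namespace Pool.Agent.H98.ML

open Pool.Agent.H98.MK (Om Gam dabs fld)

/-! ### automorphisms extending embeddings and isomorphisms -/

/-- every embedding of an intermediate field extends to an automorphism -/
theorem ch2_lift (M : IntermediateField ℚ Om) (φ : M →ₐ[ℚ] Om) :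
    ∃ τ : Gam, ∀ x : M, τ (x : Om) = φ x := by
  have h1 : ∀ x : M, (φ.liftNormal Om : Om →ₐ[ℚ] Om) (x : Om) = φ x := fun x =>
    φ.liftNormal_commutes Om x
  exact ⟨AlgEquiv.ofBijective (φ.liftNormal Om) (AlgHom.normal_bijective ℚ Om Om _), h1⟩

/-- the fixing subgroup of an isomorphic field is a conjugate -/
theorem ch2_conj_of_iso {U W : Subgroup Gam} (hU : IsOpen (U : Set Gam))
    (hW : IsOpen (W : Set Gam)) (f : fld U ≃ₐ[ℚ] fld W) :
    ∃ τ : Gam, ∀ σ : Gam, σ ∈ U ↔ τ * σ * τ⁻¹ ∈ W := by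
  obtain ⟨τ, hτ⟩ := ch2_lift (fld U) ((fld W).val.comp f.toAlgHom)
  have hτ' : ∀ x : fld U, τ (x : Om) = ((f x : fld W) : Om) := hτ
  refine ⟨τ, fun σ => ?_⟩
  conv_lhs => rw [← Pool.Agent.H98.MK.fld_fixing U hU]
  conv_rhs => rw [← Pool.Agent.H98.MK.fld_fixing W hW]
  rw [IntermediateField.mem_fixingSubgroup_iff, IntermediateField.mem_fixingSubgroup_iff]
  constructor
  · intro h y hy
    have h1 : τ (f.symm ⟨y, hy⟩ : fld U) = y := by
      rw [hτ', AlgEquiv.apply_symm_apply]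
    have h2 : τ⁻¹ y = ((f.symm ⟨y, hy⟩ : fld U) : Om) := by
      conv_lhs => rw [← h1]
      exact τ.symm_apply_apply _
    change τ (σ (τ⁻¹ y)) = y
    rw [h2, h _ (f.symm ⟨y, hy⟩).2, h1]
  · intro h x hx
    have h1 : τ (σ (τ⁻¹ (τ x))) = τ x := by
      have h3 := h (τ x) (by
        have h4 := hτ' ⟨x, hx⟩
        rw [show τ x = ((f ⟨x, hx⟩ : fld W) : Om) from h4]
        exact (f ⟨x, hx⟩).2)
      exact h3
    have h2 : τ⁻¹ (τ x) = x := τ.symm_apply_apply x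
    rw [h2] at h1
    exact τ.injective h1

/-- conjugate subgroups have isomorphic fixed fields -/
theorem ch2_iso_of_conj {U W : Subgroup Gam} (τ : Gam)
    (h : ∀ σ : Gam, σ ∈ U ↔ τ * σ * τ⁻¹ ∈ W) : Nonempty (fld U ≃ₐ[ℚ] fld W) := by
  have h1 : ∀ x : fld U, τ (x : Om) ∈ fld W := by
    intro x
    refine (IntermediateField.mem_fixedField_iff W _).2 fun σ hσ => ?_
    have h2 : τ⁻¹ * σ * τ ∈ U := by
      rw [h]
      have : τ * (τ⁻¹ * σ * τ) * τ⁻¹ = σ := by group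
      rw [this]
      exact hσ
    have h3 := (IntermediateField.mem_fixedField_iff U _).1 x.2 _ h2
    have h4 : τ⁻¹ (σ (τ (x : Om))) = (x : Om) := h3
    have h5 : τ (τ⁻¹ (σ (τ (x : Om)))) = σ (τ (x : Om)) := τ.apply_symm_apply _
    rw [← h5, h4]
  have h1' : ∀ y : fld W, τ⁻¹ (y : Om) ∈ fld U := by
    intro y
    refine (IntermediateField.mem_fixedField_iff U _).2 fun σ hσ => ?_
    have h2 : τ * σ * τ⁻¹ ∈ W := (h σ).1 hσ
    have h3 := (IntermediateField.mem_fixedField_iff W _).1 y.2 _ h2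
    have h4 : τ (σ (τ⁻¹ (y : Om))) = (y : Om) := h3
    have h5 : τ⁻¹ (τ (σ (τ⁻¹ (y : Om)))) = σ (τ⁻¹ (y : Om)) := τ.symm_apply_apply _
    rw [← h5, h4]
  let f : fld U →ₐ[ℚ] fld W :=
    ((τ.toAlgHom.comp (fld U).val).codRestrict (fld W).toSubalgebra h1)
  refine ⟨AlgEquiv.ofBijective f ⟨f.injective, fun y => ⟨⟨τ⁻¹ (y : Om), h1' y⟩, ?_⟩⟩⟩
  apply Subtype.ext
  exact τ.apply_symm_apply _

/-- the discriminant is an invariant -/
theorem ch2_dabs_congr {K L : IntermediateField ℚ Om} (hK : FiniteDimensional ℚ K)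
    (f : K ≃ₐ[ℚ] L) : dabs K = dabs L := by
  have hL : FiniteDimensional ℚ L := f.toLinearEquiv.finiteDimensional
  have nK : NumberField K := ⟨⟩
  have nL : NumberField L := ⟨⟩
  unfold Pool.Agent.H98.MK.dabs
  rw [dif_pos nK, dif_pos nL, NumberField.discr_eq_discr_of_algEquiv K f]

/-! ### the two conditions on fields -/

/-- the condition on the embeddings -/
def Ch2Emb (n : ℕ) (G : Subgroup (Equiv.Perm (Fin n))) (M : IntermediateField ℚ Om) : Prop :=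
  ∃ e : (M →ₐ[ℚ] Om) ≃ Fin n, ∀ π : Equiv.Perm (Fin n),
    π ∈ G ↔ ∃ σ : Gam, ∀ φ : M →ₐ[ℚ] Om, e (σ.toAlgHom.comp φ) = π (e φ)

section

variable {n : ℕ} {G : Subgroup (Equiv.Perm (Fin n))}

/-- the stabilizer pulled back -/
noncomputable abbrev ch2U (i0 : Fin n) (ρ : Gam →* G) : Subgroup Gam :=
  (MulAction.stabilizer G i0).comap ρ

theorem ch2_mem (i0 : Fin n) (ρ : Gam →* G) (σ : Gam) :
    σ ∈ ch2U i0 ρ ↔ (ρ σ : Equiv.Perm (Fin n)) i0 = i0 := Iff.rfl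

theorem ch2_open (i0 : Fin n) (ρ : Gam →* G) (hl : IsLocallyConstant ρ) :
    IsOpen (ch2U i0 ρ : Set Gam) :=
  hl (MulAction.stabilizer G i0 : Set G)

theorem ch2_finrank (htr : MulAction.IsPretransitive G (Fin n)) (i0 : Fin n) (ρ : Gam →* G)
    (hs : Function.Surjective ρ) (hl : IsLocallyConstant ρ) :
    Module.finrank ℚ (fld (ch2U i0 ρ)) = n := by
  rw [Pool.Agent.H98.MK.fld_finrank _ (ch2_open i0 ρ hl), Subgroup.index_comap_of_surjective _ hs,
    MulAction.index_stabilizer_of_transitive, Nat.card_eq_fintype_card, Fintype.card_fin]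

theorem ch2_emb (htr : MulAction.IsPretransitive G (Fin n)) (i0 : Fin n) (ρ : Gam →* G)
    (hs : Function.Surjective ρ) (hl : IsLocallyConstant ρ) :
    Ch2Emb n G (fld (ch2U i0 ρ)) := by
  set M := fld (ch2U i0 ρ) with hM
  have hfix : M.fixingSubgroup = ch2U i0 ρ := Pool.Agent.H98.MK.fld_fixing _ (ch2_open i0 ρ hl)
  choose T hT using ch2_lift M
  let e0 : (M →ₐ[ℚ] Om) → Fin n := fun φ => (ρ (T φ) : Equiv.Perm (Fin n)) i0
  -- independence of the lift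
  have key : ∀ (φ : M →ₐ[ℚ] Om) (τ : Gam), (∀ x : M, τ (x : Om) = φ x) →
      e0 φ = (ρ τ : Equiv.Perm (Fin n)) i0 := by
    intro φ τ hτ
    have h1 : (T φ)⁻¹ * τ ∈ ch2U i0 ρ := by
      rw [← hfix, IntermediateField.mem_fixingSubgroup_iff]
      intro x hx
      change (T φ)⁻¹ (τ x) = x
      have h2 : τ x = (T φ) x := by
        rw [show τ x = φ ⟨x, hx⟩ from hτ ⟨x, hx⟩, show (T φ) x = φ ⟨x, hx⟩ from hT φ ⟨x, hx⟩]
      rw [h2]
      exact (T φ).symm_apply_apply x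
    rw [ch2_mem, map_mul, map_inv] at h1
    have h2 : ((ρ (T φ) : Equiv.Perm (Fin n)))⁻¹ ((ρ τ : Equiv.Perm (Fin n)) i0) = i0 := h1
    rw [Equiv.Perm.inv_eq_iff_eq] at h2
    exact h2.symm
  have hinj : Function.Injective e0 := by
    intro φ φ' h
    have h1 : (T φ)⁻¹ * T φ' ∈ ch2U i0 ρ := by
      rw [ch2_mem, map_mul, map_inv]
      change ((ρ (T φ) : Equiv.Perm (Fin n)))⁻¹ ((ρ (T φ') : Equiv.Perm (Fin n)) i0) = i0
      rw [Equiv.Perm.inv_eq_iff_eq]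
      exact h.symm
    rw [← hfix, IntermediateField.mem_fixingSubgroup_iff] at h1
    ext x
    have h2 : (T φ)⁻¹ (T φ' (x : Om)) = (x : Om) := h1 x x.2
    have h3 : T φ ((T φ)⁻¹ (T φ' (x : Om))) = T φ' (x : Om) := (T φ).apply_symm_apply _
    rw [← hT φ x, ← hT φ' x, ← h3, h2]
  have hsurj : Function.Surjective e0 := by
    intro j
    obtain ⟨g, hg⟩ := htr.exists_smul_eq i0 j
    obtain ⟨τ, rfl⟩ := hs g
    refine ⟨τ.toAlgHom.comp M.val, ?_⟩
    rw [key _ τ (fun x => rfl)]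
    exact hg
  let e : (M →ₐ[ℚ] Om) ≃ Fin n := Equiv.ofBijective e0 ⟨hinj, hsurj⟩
  have hcomp : ∀ (σ : Gam) (φ : M →ₐ[ℚ] Om),
      e (σ.toAlgHom.comp φ) = (ρ σ : Equiv.Perm (Fin n)) (e φ) := by
    intro σ φ
    change e0 (σ.toAlgHom.comp φ) = (ρ σ : Equiv.Perm (Fin n)) (e0 φ)
    rw [key _ (σ * T φ) (fun x => by
      change σ (T φ (x : Om)) = σ (φ x)
      rw [hT φ x]), map_mul]
    rfl
  refine ⟨e, fun π => ⟨fun hπ => ?_, ?_⟩⟩
  · obtain ⟨σ, hσ⟩ := hs ⟨π, hπ⟩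
    refine ⟨σ, fun φ => ?_⟩
    rw [hcomp, hσ]
  · rintro ⟨σ, hσ⟩
    have h1 : π = (ρ σ : Equiv.Perm (Fin n)) := by
      ext i
      obtain ⟨φ, rfl⟩ := e.surjective i
      rw [← hcomp, hσ]
    rw [h1]
    exact (ρ σ).2

/-- every field of the frozen statement comes from a surjection -/
theorem ch2_exists (i0 : Fin n) (M : IntermediateField ℚ Om) (hfd : FiniteDimensional ℚ M)
    (he : Ch2Emb n G M) :
    ∃ ρ : Gam →* G, Function.Surjective ρ ∧ IsLocallyConstant ρ ∧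
      Nonempty (fld (ch2U i0 ρ) ≃ₐ[ℚ] M) := by
  obtain ⟨e, he⟩ := he
  set P := Pool.Agent.H98.MK.cfPerm M n e with hP
  have hPG : ∀ σ, P σ ∈ G := fun σ =>
    (he _).2 ⟨σ, fun φ => (Pool.Agent.H98.MK.cfPerm_apply M n e σ φ).symm⟩
  have hGP : ∀ π ∈ G, ∃ σ, P σ = π := by
    intro π hπ
    obtain ⟨σ, hσ⟩ := (he _).1 hπ
    refine ⟨σ, ?_⟩
    ext i
    obtain ⟨φ, rfl⟩ := e.surjective i
    rw [hP, Pool.Agent.H98.MK.cfPerm_apply, hσ]
  let ρ : Gam →* G := P.codRestrict G hPG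
  have hρ : ∀ σ (φ : M →ₐ[ℚ] Om), (ρ σ : Equiv.Perm (Fin n)) (e φ) = e (σ.toAlgHom.comp φ) :=
    fun σ φ => Pool.Agent.H98.MK.cfPerm_apply M n e σ φ
  have hs : Function.Surjective ρ := by
    rintro ⟨π, hπ⟩
    obtain ⟨σ, hσ⟩ := hGP π hπ
    exact ⟨σ, Subtype.ext hσ⟩
  have hfixφ : ∀ (φ : M →ₐ[ℚ] Om) (σ : Gam),
      σ ∈ φ.fieldRange.fixingSubgroup ↔ σ.toAlgHom.comp φ = φ := by
    intro φ σ
    rw [IntermediateField.mem_fixingSubgroup_iff]
    constructor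
    · intro h
      ext x
      exact h (φ x) ⟨x, rfl⟩
    · rintro h y ⟨x, rfl⟩
      exact DFunLike.congr_fun h x
  have hl : IsLocallyConstant ρ := by
    apply Pool.Agent.H98.MK.lc_of_ker_open
    have hfin : Finite (M →ₐ[ℚ] Om) := Finite.of_equiv _ e.symm
    have h1 : (ρ.ker : Set Gam) = ⋂ φ : M →ₐ[ℚ] Om, (φ.fieldRange.fixingSubgroup : Set Gam) := by
      ext σ
      rw [Set.mem_iInter]
      constructor
      · intro h φ
        have h2 : ρ σ = 1 := h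
        rw [SetLike.mem_coe, hfixφ]
        apply e.injective
        rw [← hρ, h2]
        rfl
      · intro h
        have h2 : ρ σ = 1 := by
          apply Subtype.ext
          ext i
          obtain ⟨φ, rfl⟩ := e.surjective i
          rw [hρ, (hfixφ φ σ).1 (h φ)]
          rfl
        exact h2
    rw [h1]
    refine isOpen_iInter_of_finite fun φ => ?_
    have hf : FiniteDimensional ℚ φ.fieldRange :=
      (AlgEquiv.ofInjectiveField φ).toLinearEquiv.finiteDimensional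
    exact IntermediateField.fixingSubgroup_isOpen _
  refine ⟨ρ, hs, hl, ?_⟩
  have h1 : ch2U i0 ρ = (e.symm i0).fieldRange.fixingSubgroup := by
    ext σ
    rw [ch2_mem, hfixφ]
    constructor
    · intro h
      apply e.injective
      rw [← hρ, Equiv.apply_symm_apply, h]
    · intro h
      have h2 := hρ σ (e.symm i0)
      rw [h, Equiv.apply_symm_apply] at h2
      exact h2
  have h2 : fld (ch2U i0 ρ) = (e.symm i0).fieldRange := by
    rw [h1]
    exact InfiniteGalois.fixedField_fixingSubgroup _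
  rw [h2]
  exact ⟨(AlgEquiv.ofInjectiveField (e.symm i0)).symm⟩

theorem ch2_core (htr : MulAction.IsPretransitive G (Fin n)) (i0 : Fin n) (x : G)
    (h : ∀ g : G, g * x * g⁻¹ ∈ MulAction.stabilizer G i0) : x = 1 := by
  apply Subtype.ext
  ext i
  obtain ⟨g, hg⟩ := htr.exists_smul_eq i i0
  have hg' : (g : Equiv.Perm (Fin n)) i = i0 := hg
  have h1 : (g : Equiv.Perm (Fin n)) ((x : Equiv.Perm (Fin n))
      ((g : Equiv.Perm (Fin n))⁻¹ i0)) = i0 := h g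
  have h2 : (g : Equiv.Perm (Fin n))⁻¹ i0 = i := by
    rw [Equiv.Perm.inv_eq_iff_eq]
    exact hg'.symm
  rw [h2, ← hg'] at h1
  have h3 := (g : Equiv.Perm (Fin n)).injective h1
  rw [h3]
  rfl

theorem ch2_ker_le (htr : MulAction.IsPretransitive G (Fin n)) (i0 : Fin n) {ρ ρ' : Gam →* G}
    (hs' : Function.Surjective ρ') (τ : Gam)
    (h : ∀ σ : Gam, σ ∈ ch2U i0 ρ → τ * σ * τ⁻¹ ∈ ch2U i0 ρ') : ρ.ker ≤ ρ'.ker := by
  intro σ hσ
  rw [MonoidHom.mem_ker] at hσ ⊢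
  refine ch2_core htr i0 _ fun g => ?_
  obtain ⟨η, rfl⟩ := hs' g
  have h1 : (τ⁻¹ * η) * σ * (τ⁻¹ * η)⁻¹ ∈ ch2U i0 ρ := by
    rw [ch2_mem, map_mul, map_mul, hσ, mul_one, map_inv, mul_inv_cancel]
    rfl
  have h2 := h _ h1
  have h3 : τ * ((τ⁻¹ * η) * σ * (τ⁻¹ * η)⁻¹) * τ⁻¹ = η * σ * η⁻¹ := by group
  rw [h3] at h2
  have h4 : ρ' (η * σ * η⁻¹) ∈ MulAction.stabilizer G i0 := h2
  rw [map_mul, map_mul, map_inv] at h4
  exact h4

theorem ch2_ker (htr : MulAction.IsPretransitive G (Fin n)) (i0 : Fin n) {ρ ρ' : Gam →* G}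
    (hs : Function.Surjective ρ) (hs' : Function.Surjective ρ') (τ : Gam)
    (h : ∀ σ : Gam, σ ∈ ch2U i0 ρ ↔ τ * σ * τ⁻¹ ∈ ch2U i0 ρ') : ρ.ker = ρ'.ker := by
  refine le_antisymm (ch2_ker_le htr i0 hs' τ fun σ => (h σ).1)
    (ch2_ker_le htr i0 hs τ⁻¹ fun σ hσ => ?_)
  rw [h]
  have h3 : τ * (τ⁻¹ * σ * τ⁻¹⁻¹) * τ⁻¹ = σ := by group
  rw [h3]
  exact hσ

theorem ch2_twist (i0 : Fin n) (ρ : Gam →* G) (hs : Function.Surjective ρ) (α : MulAut G)
    (hα : ∃ g : G, ∀ x : G, x ∈ MulAction.stabilizer G i0 ↔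
          g * α x * g⁻¹ ∈ MulAction.stabilizer G i0) :
    ∃ τ : Gam, ∀ σ : Gam, σ ∈ ch2U i0 ρ ↔
      τ * σ * τ⁻¹ ∈ ch2U i0 ((α : G ≃* G).toMonoidHom.comp ρ) := by
  obtain ⟨g, hg⟩ := hα
  obtain ⟨y, rfl⟩ := (α : G ≃* G).surjective g
  obtain ⟨τ, rfl⟩ := hs y
  refine ⟨τ, fun σ => ?_⟩
  have h1 : ((α : G ≃* G).toMonoidHom.comp ρ) (τ * σ * τ⁻¹) =
      α (ρ τ) * α (ρ σ) * (α (ρ τ))⁻¹ := by
    change α (ρ (τ * σ * τ⁻¹)) = _
    rw [map_mul, map_mul, map_inv, map_mul, map_mul, map_inv]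
  change ρ σ ∈ MulAction.stabilizer G i0 ↔
    ((α : G ≃* G).toMonoidHom.comp ρ) (τ * σ * τ⁻¹) ∈ MulAction.stabilizer G i0
  rw [h1]
  exact hg (ρ σ)

/-- the counting argument for an arbitrary description of the condition -/
theorem ch2_main (htr : MulAction.IsPretransitive G (Fin n)) (i0 : Fin n) (B : ℝ)
    (P : IntermediateField ℚ Om → Prop)
    (hP : ∀ M, P M ↔ FiniteDimensional ℚ M ∧ Module.finrank ℚ M = n ∧ Ch2Emb n G M ∧
      (dabs M : ℝ) ≤ B) :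
    Nat.card (Quot (fun L L' : {M : IntermediateField ℚ Om // P M} =>
        Nonempty (L.1 ≃ₐ[ℚ] L'.1))) *
      Nat.card {α : MulAut G // ∃ g : G, ∀ x : G, x ∈ MulAction.stabilizer G i0 ↔
          g * α x * g⁻¹ ∈ MulAction.stabilizer G i0} =
      Nat.card {ρ : Gam →* G // Function.Surjective ρ ∧ IsLocallyConstant ρ ∧
        (dabs (fld ((MulAction.stabilizer G i0).comap ρ)) : ℝ) ≤ B} := by
  classical
  let r : {M : IntermediateField ℚ Om // P M} → {M : IntermediateField ℚ Om // P M} → Prop :=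
    fun L L' => Nonempty (L.1 ≃ₐ[ℚ] L'.1)
  have hr : Equivalence r :=
    ⟨fun _ => ⟨AlgEquiv.refl⟩, fun ⟨f⟩ => ⟨f.symm⟩, fun ⟨f⟩ ⟨g⟩ => ⟨f.trans g⟩⟩
  let A := {α : MulAut G // ∃ g : G, ∀ x : G, x ∈ MulAction.stabilizer G i0 ↔
          g * α x * g⁻¹ ∈ MulAction.stabilizer G i0}
  let T := {ρ : Gam →* G // Function.Surjective ρ ∧ IsLocallyConstant ρ ∧
        (dabs (fld (ch2U i0 ρ)) : ℝ) ≤ B}
  let F : T → Quot r := fun t => Quot.mk r ⟨fld (ch2U i0 t.1),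
    (hP _).2 ⟨Pool.Agent.H98.MK.fld_finite _ (ch2_open i0 t.1 t.2.2.1),
      ch2_finrank htr i0 t.1 t.2.1 t.2.2.1, ch2_emb htr i0 t.1 t.2.1 t.2.2.1, t.2.2.2⟩⟩
  have hF : Function.Surjective F := by
    rintro ⟨⟨M, hM⟩⟩
    obtain ⟨hfd, hn, he, hd⟩ := (hP M).1 hM
    obtain ⟨ρ, hs, hl, ⟨f⟩⟩ := ch2_exists i0 M hfd he
    have h1 : dabs (fld (ch2U i0 ρ)) = dabs M :=
      ch2_dabs_congr (Pool.Agent.H98.MK.fld_finite _ (ch2_open i0 ρ hl)) f
    refine ⟨⟨ρ, hs, hl, by rw [h1]; exact hd⟩, ?_⟩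
    exact Quot.sound ⟨f⟩
  have hFiso : ∀ t t' : T, F t = F t' → Nonempty (fld (ch2U i0 t.1) ≃ₐ[ℚ] fld (ch2U i0 t'.1)) :=
    fun t t' h => (hr.eqvGen_iff).1 (Quot.eqvGen_exact h)
  choose R hR using hF
  have htw : ∀ (t : T) (α : A), (Nonempty (fld (ch2U i0 t.1) ≃ₐ[ℚ]
      fld (ch2U i0 ((α.1 : G ≃* G).toMonoidHom.comp t.1)))) := by
    intro t α
    obtain ⟨τ, hτ⟩ := ch2_twist i0 t.1 t.2.1 α.1 α.2
    exact ch2_iso_of_conj τ hτ
  let tw : T → A → T := fun t α => ⟨(α.1 : G ≃* G).toMonoidHom.comp t.1,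
    (α.1 : G ≃* G).surjective.comp t.2.1, t.2.2.1.comp _, by
      rw [← ch2_dabs_congr (Pool.Agent.H98.MK.fld_finite _ (ch2_open i0 t.1 t.2.2.1))
        (htw t α).some]
      exact t.2.2.2⟩
  have hFtw : ∀ t α, F (tw t α) = F t := by
    intro t α
    obtain ⟨f⟩ := htw t α
    exact Quot.sound ⟨f.symm⟩
  let ψ : Quot r × A → T := fun x => tw (R x.1) x.2
  have hψ : Function.Bijective ψ := by
    constructor
    · rintro ⟨c, α⟩ ⟨c', α'⟩ h
      have h1 : F (tw (R c) α) = F (tw (R c') α') := congrArg F h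
      rw [hFtw, hFtw, hR, hR] at h1
      subst h1
      have h2 : (tw (R c) α).1 = (tw (R c) α').1 := congrArg Subtype.val h
      have h3 : α = α' := by
        apply Subtype.ext
        apply MulEquiv.ext
        intro x
        obtain ⟨σ, rfl⟩ := (R c).2.1 x
        exact DFunLike.congr_fun h2 σ
      rw [h3]
    · intro t
      set s : T := R (F t) with hs
      have h1 : F s = F t := hR (F t)
      obtain ⟨f⟩ := hFiso s t h1
      obtain ⟨τ, hτ⟩ := ch2_conj_of_iso (ch2_open i0 s.1 s.2.2.1) (ch2_open i0 t.1 t.2.2.1) f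
      have hk := ch2_ker htr i0 s.2.1 t.2.1 τ hτ
      let a : G ≃* G := (QuotientGroup.quotientKerEquivOfSurjective s.1 s.2.1).symm.trans
        ((QuotientGroup.quotientMulEquivOfEq hk).trans
          (QuotientGroup.quotientKerEquivOfSurjective t.1 t.2.1))
      have ha : ∀ σ, a (s.1 σ) = t.1 σ := by
        intro σ
        have h2 : (QuotientGroup.quotientKerEquivOfSurjective s.1 s.2.1).symm (s.1 σ) =
            (QuotientGroup.mk σ : Gam ⧸ s.1.ker) := by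
          rw [MulEquiv.symm_apply_eq]
          rfl
        change QuotientGroup.quotientKerEquivOfSurjective t.1 t.2.1
          (QuotientGroup.quotientMulEquivOfEq hk
            ((QuotientGroup.quotientKerEquivOfSurjective s.1 s.2.1).symm (s.1 σ))) = t.1 σ
        rw [h2]
        rfl
      refine ⟨(F t, ⟨a, t.1 τ, fun x => ?_⟩), ?_⟩
      · obtain ⟨σ, rfl⟩ := s.2.1 x
        rw [ha]
        have h3 : t.1 τ * t.1 σ * (t.1 τ)⁻¹ = t.1 (τ * σ * τ⁻¹) := by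
          rw [map_mul, map_mul, map_inv]
        rw [h3]
        exact hτ σ
      · apply Subtype.ext
        apply MonoidHom.ext
        intro σ
        exact ha σ
  have h1 := Nat.card_congr (Equiv.ofBijective ψ hψ)
  rw [Nat.card_prod] at h1
  exact h1

end

/-- the frozen count in terms of homomorphisms -/
theorem count_homs2 (n : ℕ) (G : Subgroup (Equiv.Perm (Fin n)))
    (htr : MulAction.IsPretransitive G (Fin n)) (i0 : Fin n) (B : ℝ) :
    Nat.card (Quot (fun L L' : {M : IntermediateField ℚ (AlgebraicClosure ℚ) //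
            Module.finrank ℚ M = n ∧
            (∃ e : (M →ₐ[ℚ] AlgebraicClosure ℚ) ≃ Fin n, ∀ π : Equiv.Perm (Fin n),
               π ∈ G ↔ ∃ σ : AlgebraicClosure ℚ ≃ₐ[ℚ] AlgebraicClosure ℚ,
                 ∀ φ : M →ₐ[ℚ] AlgebraicClosure ℚ, e (σ.toAlgHom.comp φ) = π (e φ)) ∧
            ∃ h : NumberField M,
              ((|@NumberField.discr M _ h| : ℤ) : ℝ) ≤ B * ((|NumberField.discr ℚ| : ℤ) : ℝ) ^ n}
          => Nonempty (L.1 ≃ₐ[ℚ] L'.1))) *
        Nat.card {α : MulAut G // ∃ g : G, ∀ x : G, x ∈ MulAction.stabilizer G i0 ↔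
          g * α x * g⁻¹ ∈ MulAction.stabilizer G i0} =
      Nat.card {ρ : Gam →* G // Function.Surjective ρ ∧ IsLocallyConstant ρ ∧
        (dabs (fld ((MulAction.stabilizer G i0).comap ρ)) : ℝ) ≤ B} := by
  have hn : 0 < n := by
    have := i0.2
    omega
  refine ch2_main htr i0 B (fun M : IntermediateField ℚ (AlgebraicClosure ℚ) =>
            Module.finrank ℚ M = n ∧
            (∃ e : (M →ₐ[ℚ] AlgebraicClosure ℚ) ≃ Fin n, ∀ π : Equiv.Perm (Fin n),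
               π ∈ G ↔ ∃ σ : AlgebraicClosure ℚ ≃ₐ[ℚ] AlgebraicClosure ℚ,
                 ∀ φ : M →ₐ[ℚ] AlgebraicClosure ℚ, e (σ.toAlgHom.comp φ) = π (e φ)) ∧
            ∃ h : NumberField M,
              ((|@NumberField.discr M _ h| : ℤ) : ℝ) ≤
                B * ((|NumberField.discr ℚ| : ℤ) : ℝ) ^ n) (fun M => ?_)
  constructor
  · rintro ⟨h1, h2, h3⟩
    have hfd : FiniteDimensional ℚ M := Module.finite_of_finrank_pos (by rw [h1]; exact hn)
    exact ⟨hfd, h1, h2, (Pool.Agent.H98.MK.cf_disc M hfd n B).1 h3⟩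
  · rintro ⟨hfd, h1, h2, h3⟩
    exact ⟨h1, h2, (Pool.Agent.H98.MK.cf_disc M hfd n B).2 h3⟩

end Pool.Agent.H98.ML
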