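import Pool.Agent.H98.ML.GDefs
import Pool.Agent.H98.MK.GSAniso

/-!
# Project MK2 (MP_a3214d), row A4: a large variable of weight larger than one
-/

set_option autoImplicit false

open scoped BigOperators

namespace Pool.Agent.H98.ML

open Pool.Agent.H98.MK (psi jp a3_jp a3_harm)

theorem a4_step (s : ℝ) (hs : 0 < s) (n : ℕ) (hn : 1 ≤ n) :
    (((n + 1 : ℕ) : ℝ)) ^ (-(s + 1)) ≤
      (1 / s) * ((n : ℝ) ^ (-s) - (((n + 1 : ℕ) : ℝ)) ^ (-s)) := by
  have hn0 : (0 : ℝ) < (n : ℝ) := by exact_mod_cast hn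
  push_cast
  set m : ℝ := (n : ℝ) + 1 with hm
  have hm0 : 0 < m := by positivity
  have hq : (0 : ℝ) < 1 - 1 / m := by
    rw [sub_pos, div_lt_one hm0]
    linarith
  have h1 : (n : ℝ) = m * (1 - 1 / m) := by
    field_simp
    linarith
  have h2 : (n : ℝ) ^ (-s) = m ^ (-s) * (1 - 1 / m) ^ (-s) := by
    rw [← Real.mul_rpow hm0.le hq.le, ← h1]
  have h3 : 1 + s / m ≤ (1 - 1 / m) ^ (-s) := by
    rw [Real.rpow_def_of_pos hq]
    have h4 := Real.add_one_le_exp (Real.log (1 - 1 / m) * (-s))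
    have h5 := Real.log_le_sub_one_of_pos hq
    have h6 : s / m ≤ Real.log (1 - 1 / m) * (-s) := by
      have h7 : s * (1 / m) ≤ s * (-Real.log (1 - 1 / m)) :=
        mul_le_mul_of_nonneg_left (by linarith) hs.le
      calc s / m = s * (1 / m) := by ring
        _ ≤ _ := h7
        _ = _ := by ring
    linarith
  have h8 : m ^ (-(s + 1)) = m ^ (-s) * (1 / m) := by
    rw [neg_add, Real.rpow_add hm0, Real.rpow_neg_one, one_div]
  have h9 : 0 < m ^ (-s) := Real.rpow_pos_of_pos hm0 _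
  rw [h8, h2]
  have h10 : m ^ (-s) * (s / m) ≤ m ^ (-s) * (1 - 1 / m) ^ (-s) - m ^ (-s) := by
    have := mul_le_mul_of_nonneg_left h3 h9.le
    linarith
  calc m ^ (-s) * (1 / m) = (1 / s) * (m ^ (-s) * (s / m)) := by
        field_simp
    _ ≤ _ := mul_le_mul_of_nonneg_left h10 (by positivity)

theorem a4_tail (s : ℝ) (hs : 0 < s) (P : ℝ) (hP : 1 ≤ P) (N : ℕ) :
    ∑ n ∈ Finset.Icc 1 N, (if P < (n : ℝ) then (n : ℝ) ^ (-(s + 1)) else 0) ≤
      (1 / s * 2 ^ s) * P ^ (-s) := by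
  have hP0 : 0 < P := by linarith
  have hF : 1 ≤ ⌊P⌋₊ := Nat.le_floor (by simpa using hP)
  have hF1 : (⌊P⌋₊ : ℝ) ≤ P := Nat.floor_le hP0.le
  have hF2 : P < (⌊P⌋₊ : ℝ) + 1 := Nat.lt_floor_add_one P
  have hF3 : (1 : ℝ) ≤ (⌊P⌋₊ : ℝ) := by exact_mod_cast hF
  have hz : ∀ N : ℕ, N ≤ ⌊P⌋₊ →
      ∑ n ∈ Finset.Icc 1 N, (if P < (n : ℝ) then (n : ℝ) ^ (-(s + 1)) else 0) = 0 := by
    intro N hN
    refine Finset.sum_eq_zero fun n hn => ?_
    rw [if_neg]
    push Not
    have h1 : (n : ℝ) ≤ (⌊P⌋₊ : ℝ) := by exact_mod_cast (Finset.mem_Icc.1 hn).2.trans hN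
    linarith
  have hb : (⌊P⌋₊ : ℝ) ^ (-s) ≤ 2 ^ s * P ^ (-s) := by
    have h1 : P / 2 ≤ (⌊P⌋₊ : ℝ) := by linarith
    calc (⌊P⌋₊ : ℝ) ^ (-s) ≤ (P / 2) ^ (-s) :=
          Real.rpow_le_rpow_of_nonpos (by linarith) h1 (by linarith)
      _ = 2 ^ s * P ^ (-s) := by
          rw [Real.div_rpow hP0.le (by norm_num), Real.rpow_neg (by norm_num : (0 : ℝ) ≤ 2)]
          field_simp
  have hind : ∀ N : ℕ, ⌊P⌋₊ ≤ N →
      ∑ n ∈ Finset.Icc 1 N, (if P < (n : ℝ) then (n : ℝ) ^ (-(s + 1)) else 0) ≤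
        (1 / s) * ((⌊P⌋₊ : ℝ) ^ (-s) - (N : ℝ) ^ (-s)) := by
    intro N hN
    induction N, hN using Nat.le_induction with
    | base => rw [hz _ le_rfl]; simp
    | succ N hN ih =>
      rw [Finset.sum_Icc_succ_top (by omega)]
      have h1 := a4_step s hs N (hF.trans hN)
      have h2 : (if P < (((N + 1 : ℕ)) : ℝ) then (((N + 1 : ℕ)) : ℝ) ^ (-(s + 1)) else 0) ≤
          (1 / s) * ((N : ℝ) ^ (-s) - (((N + 1 : ℕ)) : ℝ) ^ (-s)) := by
        split_ifs with h
        · exact h1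
        · refine le_trans ?_ h1
          positivity
      calc _ ≤ (1 / s) * ((⌊P⌋₊ : ℝ) ^ (-s) - (N : ℝ) ^ (-s)) +
            (1 / s) * ((N : ℝ) ^ (-s) - (((N + 1 : ℕ)) : ℝ) ^ (-s)) := add_le_add ih h2
        _ = _ := by ring
  rcases le_total N ⌊P⌋₊ with h | h
  · rw [hz N h]
    positivity
  · refine (hind N h).trans ?_
    have h1 : 0 ≤ (N : ℝ) ^ (-s) := by positivity
    calc (1 / s) * ((⌊P⌋₊ : ℝ) ^ (-s) - (N : ℝ) ^ (-s)) ≤ (1 / s) * (⌊P⌋₊ : ℝ) ^ (-s) := by
          refine mul_le_mul_of_nonneg_left (by linarith) (by positivity)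
      _ ≤ (1 / s) * (2 ^ s * P ^ (-s)) := mul_le_mul_of_nonneg_left hb (by positivity)
      _ = _ := by ring

open Classical in
/-- counting with one distinguished variable of weight one -/
theorem a4_count {ι : Type} [Fintype ι] (w : ι → ℝ) (r : ι) (hr : w r = 1)
    (b : ι → ℕ → ℝ) (hb : ∀ j n, 0 ≤ b j n ∧ b j n ≤ 1) (Y : ℝ) (hY : 1 ≤ Y) :
    ∑ x ∈ Fintype.piFinset (fun _ : ι => Finset.Icc 1 ⌊Y⌋₊),
      (if ∏ j, (x j : ℝ) ^ w j ≤ Y then ∏ j, b j (x j) else 0) ≤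
    Y * ∏ j ∈ Finset.univ.erase r, ∑ n ∈ Finset.Icc 1 ⌊Y⌋₊, b j n * (n : ℝ) ^ (-(w j)) := by
  set S := Fintype.piFinset (fun _ : ι => Finset.Icc 1 ⌊Y⌋₊) with hS
  set T := Fintype.piFinset (fun j : ι => if j = r then ({1} : Finset ℕ) else Finset.Icc 1 ⌊Y⌋₊)
    with hT
  set c : ι → ℕ → ℝ := fun j n => if j = r then 1 else b j n * (n : ℝ) ^ (-(w j)) with hc
  have hmap : ∀ x ∈ S, Function.update x r 1 ∈ T := by
    intro x hx
    rw [hT, Fintype.mem_piFinset]
    intro j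
    by_cases hj : j = r
    · subst hj
      simp
    · rw [if_neg hj, Function.update_of_ne hj]
      exact Fintype.mem_piFinset.1 hx j
  rw [← Finset.sum_fiberwise_of_maps_to hmap]
  have hfib : ∀ y ∈ T, ∑ x ∈ S with Function.update x r 1 = y,
      (if ∏ j, (x j : ℝ) ^ w j ≤ Y then ∏ j, b j (x j) else 0) ≤ Y * ∏ j, c j (y j) := by
    intro y hy
    have hy1 : ∀ j, 1 ≤ y j := by
      intro j
      have h1 := Fintype.mem_piFinset.1 hy j
      by_cases hj : j = r
      · rw [if_pos hj, Finset.mem_singleton] at h1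
        exact h1.ge
      · rw [if_neg hj] at h1
        exact (Finset.mem_Icc.1 h1).1
    set β : ℝ := ∏ j ∈ Finset.univ.erase r, b j (y j) with hβ
    set Q : ℝ := ∏ j ∈ Finset.univ.erase r, (y j : ℝ) ^ w j with hQ
    have hQ0 : 0 < Q := Finset.prod_pos fun j _ => by
      have := hy1 j
      positivity
    have hβ0 : 0 ≤ β := Finset.prod_nonneg fun j _ => (hb j _).1
    have hcQ : ∏ j, c j (y j) = β / Q := by
      rw [← Finset.mul_prod_erase Finset.univ (fun j => c j (y j)) (Finset.mem_univ r)]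
      have h1 : c r (y r) = 1 := by simp [hc]
      rw [h1, one_mul, hβ, hQ, ← Finset.prod_div_distrib]
      refine Finset.prod_congr rfl fun j hj => ?_
      have hj1 : j ≠ r := (Finset.mem_erase.1 hj).1
      simp only [hc, if_neg hj1]
      rw [Real.rpow_neg (by positivity), div_eq_mul_inv]
    have hx : ∀ x ∈ S.filter (fun x => Function.update x r 1 = y),
        (if ∏ j, (x j : ℝ) ^ w j ≤ Y then ∏ j, b j (x j) else 0) ≤
          if (x r : ℝ) ≤ Y / Q then β else 0 := by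
      intro x hx
      obtain ⟨h1, h2⟩ := Finset.mem_filter.1 hx
      have h3 : ∀ j, j ≠ r → x j = y j := fun j hj => by
        rw [← h2, Function.update_of_ne hj]
      have h4 : ∏ j, (x j : ℝ) ^ w j = (x r : ℝ) * Q := by
        rw [← Finset.mul_prod_erase Finset.univ (fun j => (x j : ℝ) ^ w j) (Finset.mem_univ r),
          hr, Real.rpow_one, hQ]
        congr 1
        refine Finset.prod_congr rfl fun j hj => ?_
        rw [h3 j (Finset.mem_erase.1 hj).1]
      have h5 : ∏ j, b j (x j) = b r (x r) * β := by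
        rw [← Finset.mul_prod_erase Finset.univ (fun j => b j (x j)) (Finset.mem_univ r), hβ]
        congr 1
        refine Finset.prod_congr rfl fun j hj => ?_
        rw [h3 j (Finset.mem_erase.1 hj).1]
      rw [h4, h5]
      have h6 : (x r : ℝ) * Q ≤ Y ↔ (x r : ℝ) ≤ Y / Q := by rw [le_div_iff₀ hQ0]
      by_cases h7 : (x r : ℝ) * Q ≤ Y
      · rw [if_pos h7, if_pos (h6.1 h7)]
        exact mul_le_of_le_one_left hβ0 (hb r _).2
      · rw [if_neg h7]
        split_ifs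
        · exact hβ0
        · exact le_rfl
    refine (Finset.sum_le_sum hx).trans ?_
    rw [← Finset.sum_filter, Finset.sum_const, nsmul_eq_mul, hcQ]
    have hcard : ((S.filter (fun x => Function.update x r 1 = y)).filter
        (fun x => (x r : ℝ) ≤ Y / Q)).card ≤ ⌊Y / Q⌋₊ := by
      have h1 : (Finset.Icc 1 ⌊Y / Q⌋₊).card = ⌊Y / Q⌋₊ := by simp
      rw [← h1]
      refine Finset.card_le_card_of_injOn (fun x => x r) ?_ ?_
      · intro x hx
        obtain ⟨h2, h3⟩ := Finset.mem_filter.1 (Finset.mem_coe.1 hx)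
        obtain ⟨h4, h5⟩ := Finset.mem_filter.1 h2
        refine Finset.mem_coe.2 (Finset.mem_Icc.2 ⟨(Finset.mem_Icc.1
          (Fintype.mem_piFinset.1 h4 r)).1, Nat.le_floor h3⟩)
      · intro x hx x' hx' hxx
        obtain ⟨h2, h3⟩ := Finset.mem_filter.1 (Finset.mem_coe.1 hx)
        obtain ⟨h4, h5⟩ := Finset.mem_filter.1 h2
        obtain ⟨h2', h3'⟩ := Finset.mem_filter.1 (Finset.mem_coe.1 hx')
        obtain ⟨h4', h5'⟩ := Finset.mem_filter.1 h2'
        funext j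
        by_cases hj : j = r
        · subst hj
          exact hxx
        · have h6 : Function.update x r 1 j = Function.update x' r 1 j := by rw [h5, h5']
          rwa [Function.update_of_ne hj, Function.update_of_ne hj] at h6
    have hYQ : 0 ≤ Y / Q := by positivity
    calc (((S.filter (fun x => Function.update x r 1 = y)).filter
        (fun x => (x r : ℝ) ≤ Y / Q)).card : ℝ) * β ≤ (⌊Y / Q⌋₊ : ℝ) * β := by
          refine mul_le_mul_of_nonneg_right ?_ hβ0
          exact_mod_cast hcard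
      _ ≤ Y / Q * β := mul_le_mul_of_nonneg_right (Nat.floor_le hYQ) hβ0
      _ = Y * (β / Q) := by ring
  refine (Finset.sum_le_sum hfib).trans ?_
  rw [← Finset.mul_sum]
  refine mul_le_mul_of_nonneg_left (le_of_eq ?_) (by linarith)
  rw [hT, ← Finset.prod_univ_sum
    (fun j : ι => if j = r then ({1} : Finset ℕ) else Finset.Icc 1 ⌊Y⌋₊) (fun j n => c j n),
    ← Finset.mul_prod_erase Finset.univ _ (Finset.mem_univ r)]
  have h1 : ∑ n ∈ (if r = r then ({1} : Finset ℕ) else Finset.Icc 1 ⌊Y⌋₊), c r n = 1 := by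
    simp [hc]
  rw [h1, one_mul]
  refine Finset.prod_congr rfl fun j hj => ?_
  have hj1 : j ≠ r := (Finset.mem_erase.1 hj).1
  rw [if_neg hj1]
  refine Finset.sum_congr rfl fun n _ => ?_
  simp only [hc, if_neg hj1]

open Classical in
/-- counting without a distinguished variable -/
theorem a4_count0 {ι : Type} [Fintype ι] (w : ι → ℝ)
    (b : ι → ℕ → ℝ) (hb : ∀ j n, 0 ≤ b j n ∧ b j n ≤ 1) (Y : ℝ) (hY : 1 ≤ Y) :
    ∑ x ∈ Fintype.piFinset (fun _ : ι => Finset.Icc 1 ⌊Y⌋₊),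
      (if ∏ j, (x j : ℝ) ^ w j ≤ Y then ∏ j, b j (x j) else 0) ≤
    Y * ∏ j, ∑ n ∈ Finset.Icc 1 ⌊Y⌋₊, b j n * (n : ℝ) ^ (-(w j)) := by
  rw [Finset.prod_univ_sum (fun _ : ι => Finset.Icc 1 ⌊Y⌋₊)
    (fun j n => b j n * (n : ℝ) ^ (-(w j))), Finset.mul_sum]
  refine Finset.sum_le_sum fun x hx => ?_
  have hx1 : ∀ j, 1 ≤ x j := fun j => (Finset.mem_Icc.1 (Fintype.mem_piFinset.1 hx j)).1
  have hQ0 : 0 < ∏ j, (x j : ℝ) ^ w j := Finset.prod_pos fun j _ => by
    have := hx1 j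
    positivity
  have hβ0 : 0 ≤ ∏ j, b j (x j) := Finset.prod_nonneg fun j _ => (hb j _).1
  have h1 : ∏ j, b j (x j) * (x j : ℝ) ^ (-(w j)) =
      (∏ j, b j (x j)) / ∏ j, (x j : ℝ) ^ w j := by
    rw [← Finset.prod_div_distrib]
    refine Finset.prod_congr rfl fun j _ => ?_
    rw [Real.rpow_neg (by positivity), div_eq_mul_inv]
  rw [h1]
  split_ifs with h
  · calc ∏ j, b j (x j) = 1 * ∏ j, b j (x j) := (one_mul _).symm
      _ ≤ (Y / ∏ j, (x j : ℝ) ^ w j) * ∏ j, b j (x j) := by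
          refine mul_le_mul_of_nonneg_right ?_ hβ0
          rw [le_div_iff₀ hQ0, one_mul]
          exact h
      _ = _ := by ring
  · have : 0 ≤ Y := by linarith
    positivity

/-- the product of the bounds -/
theorem a4_prod {ι : Type} [Fintype ι] [DecidableEq ι] (R : ι → Prop) [DecidablePred R] (i : ι)
    (A B E : ℝ) (hA : 1 ≤ A) (hB : 1 ≤ B) (hE : 0 ≤ E) (s : ι → ℝ)
    (hs0 : ∀ j, 0 ≤ s j) (F : Finset ι) (hiF : i ∈ F) (e : ℕ)
    (he : (F.filter (fun j => R j)).card ≤ e)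
    (h1 : ∀ j ∈ F, R j → s j ≤ A) (h2 : ∀ j ∈ F, ¬ R j → s j ≤ B) (h3 : s i ≤ E) :
    ∏ j ∈ F, s j ≤ E * (A ^ e * B ^ Fintype.card ι) := by
  have hA0 : 0 ≤ A := by linarith
  have hB0 : 0 ≤ B := by linarith
  rw [← Finset.mul_prod_erase F s hiF]
  refine mul_le_mul h3 ?_ (Finset.prod_nonneg fun j _ => hs0 j) hE
  have h4 : ∀ j ∈ F.erase i, s j ≤ (if R j then A else 1) * (if R j then 1 else B) := by
    intro j hj
    have hjF := (Finset.mem_erase.1 hj).2
    by_cases hR : R j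
    · rw [if_pos hR, if_pos hR, mul_one]
      exact h1 j hjF hR
    · rw [if_neg hR, if_neg hR, one_mul]
      exact h2 j hjF hR
  refine (Finset.prod_le_prod (fun j _ => hs0 j) h4).trans ?_
  rw [Finset.prod_mul_distrib]
  refine mul_le_mul ?_ ?_ (Finset.prod_nonneg fun j _ => by split_ifs <;> positivity)
    (by positivity)
  · rw [Finset.prod_ite, Finset.prod_const, Finset.prod_const, one_pow, mul_one]
    refine pow_le_pow_right₀ hA (le_trans (Finset.card_le_card ?_) he)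
    exact Finset.filter_subset_filter _ (Finset.erase_subset _ _)
  · rw [Finset.prod_ite, Finset.prod_const, Finset.prod_const, one_pow, one_mul]
    exact pow_le_pow_right₀ hB (Finset.card_le_univ _)

theorem GW_an {ι : Type} [Fintype ι] (w : ι → ℝ) (hw : ∀ i, 1 ≤ w i) (L : ι → ι → Prop)
    (R : ι → Prop) (hR : ∀ i, R i → w i = 1) (i : ι) (hi : 1 < w i) :
    ∃ C : ℝ, ∃ k : ℕ, ∀ (a : ι → ℕ → ℝ) (P M Y : ℝ), (∀ l n, |a l n| ≤ 1) → 1 ≤ P → 1 ≤ M →
      1 ≤ Y → (∀ l, ¬ R l → ∀ n, a l n ≠ 0 → (n : ℝ) ≤ M) →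
      (∀ n, a i n ≠ 0 → P < n) →
      |GW w L a Y| ≤ C * Y * (1 + Real.log Y) ^ (Nat.card {l // R l} - 1) *
        P ^ (-(w i - 1)) * (1 + Real.log M) ^ k := by
  classical
  have hs : 0 < w i - 1 := by linarith
  have hiR : ¬ R i := fun h => by
    have := hR i h
    linarith
  refine ⟨1 / (w i - 1) * 2 ^ (w i - 1), Fintype.card ι, fun a P M Y ha hP hM hY haM haP => ?_⟩
  have hP0 : 0 < P := by linarith
  set b : ι → ℕ → ℝ := fun j n => if a j n = 0 then 0 else 1 with hbd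
  have hb : ∀ j n, 0 ≤ b j n ∧ b j n ≤ 1 := by
    intro j n
    simp only [hbd]
    split_ifs <;> norm_num
  have hab : ∀ j n, |a j n| ≤ b j n := by
    intro j n
    simp only [hbd]
    split_ifs with h
    · rw [h, abs_zero]
    · exact ha j n
  set s : ι → ℝ := fun j => ∑ n ∈ Finset.Icc 1 ⌊Y⌋₊, b j n * (n : ℝ) ^ (-(w j)) with hsd
  have hs0 : ∀ j, 0 ≤ s j := fun j => Finset.sum_nonneg fun n _ =>
    mul_nonneg (hb j n).1 (by positivity)
  have hlY : 0 ≤ Real.log Y := Real.log_nonneg hY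
  have hlM : 0 ≤ Real.log M := Real.log_nonneg hM
  have hinv : ∀ j, ∀ n : ℕ, 1 ≤ n → (n : ℝ) ^ (-(w j)) ≤ ((n : ℝ))⁻¹ := by
    intro j n hn
    rw [← Real.rpow_neg_one]
    exact Real.rpow_le_rpow_of_exponent_le (by exact_mod_cast hn) (by linarith [hw j])
  have h1 : ∀ j, s j ≤ 1 + Real.log Y := by
    intro j
    refine le_trans (Finset.sum_le_sum fun n hn => ?_) (a3_harm Y hY)
    have hn1 := (Finset.mem_Icc.1 hn).1
    calc b j n * (n : ℝ) ^ (-(w j)) ≤ 1 * (n : ℝ) ^ (-(w j)) :=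
          mul_le_mul_of_nonneg_right (hb j n).2 (by positivity)
      _ = (n : ℝ) ^ (-(w j)) := one_mul _
      _ ≤ _ := hinv j n hn1
  have h2 : ∀ j, ¬ R j → s j ≤ 1 + Real.log M := by
    intro j hj
    refine le_trans ?_ (a3_harm M hM)
    have h3 : ∀ n ∈ Finset.Icc 1 ⌊Y⌋₊, b j n * (n : ℝ) ^ (-(w j)) ≤
        if n ∈ Finset.Icc 1 ⌊M⌋₊ then ((n : ℝ))⁻¹ else 0 := by
      intro n hn
      have hn1 := (Finset.mem_Icc.1 hn).1
      simp only [hbd]
      by_cases h0 : a j n = 0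
      · rw [if_pos h0, zero_mul]
        split_ifs <;> positivity
      · rw [if_neg h0, one_mul, if_pos (Finset.mem_Icc.2 ⟨hn1, Nat.le_floor (haM j hj n h0)⟩)]
        exact hinv j n hn1
    refine (Finset.sum_le_sum h3).trans ?_
    rw [← Finset.sum_filter]
    refine Finset.sum_le_sum_of_subset_of_nonneg ?_ fun n _ _ => by positivity
    intro n hn
    exact (Finset.mem_filter.1 hn).2
  have h3 : s i ≤ (1 / (w i - 1) * 2 ^ (w i - 1)) * P ^ (-(w i - 1)) := by
    refine le_trans (Finset.sum_le_sum fun n hn => ?_) (a4_tail (w i - 1) hs P hP ⌊Y⌋₊)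
    simp only [hbd]
    by_cases h0 : a i n = 0
    · rw [if_pos h0, zero_mul]
      split_ifs <;> positivity
    · rw [if_neg h0, one_mul, if_pos (haP n h0), sub_add_cancel]
  have hG : |GW w L a Y| ≤ ∑ x ∈ Fintype.piFinset (fun _ : ι => Finset.Icc 1 ⌊Y⌋₊),
      (if ∏ j, (x j : ℝ) ^ w j ≤ Y then ∏ j, b j (x j) else 0) := by
    unfold GW
    refine (Finset.abs_sum_le_sum_abs _ _).trans (Finset.sum_le_sum fun x _ => ?_)
    have hnn : 0 ≤ ∏ j, b j (x j) := Finset.prod_nonneg fun j _ => (hb j _).1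
    by_cases hc : Squarefree (2 * ∏ i, x i) ∧ ∏ i, (x i : ℝ) ^ w i ≤ Y
    · rw [if_pos hc, if_pos hc.2, abs_mul, Finset.abs_prod]
      calc (∏ j, |a j (x j)|) * |(jp L x : ℝ)| ≤ (∏ j, b j (x j)) * 1 :=
            mul_le_mul (Finset.prod_le_prod (fun j _ => abs_nonneg _) fun j _ => hab j _)
              (a3_jp L x) (abs_nonneg _) hnn
        _ = _ := mul_one _
    · rw [if_neg hc, abs_zero]
      split_ifs
      · exact hnn
      · exact le_rfl
  refine hG.trans ?_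
  have hE : 0 ≤ (1 / (w i - 1) * 2 ^ (w i - 1)) * P ^ (-(w i - 1)) := by positivity
  have hY0 : 0 ≤ Y := by linarith
  by_cases hex : ∃ r, R r
  · obtain ⟨r, hr⟩ := hex
    refine (a4_count w r (hR r hr) b hb Y hY).trans ?_
    have hir : i ≠ r := fun h => hiR (h ▸ hr)
    have hcard : ((Finset.univ.erase r).filter (fun j => R j)).card ≤
        Nat.card {l // R l} - 1 := by
      rw [Nat.card_eq_fintype_card, Fintype.card_subtype]
      have e1 : (Finset.univ.erase r).filter (fun j => R j) =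
          (Finset.univ.filter (fun j => R j)).erase r := by
        ext j
        simp only [Finset.mem_filter, Finset.mem_erase, Finset.mem_univ, and_true, true_and]
      rw [e1, Finset.card_erase_of_mem (by simp [hr])]
    have h4 := a4_prod R i (1 + Real.log Y) (1 + Real.log M) _ (by linarith) (by linarith)
      hE s hs0 (Finset.univ.erase r) (Finset.mem_erase.2 ⟨hir, Finset.mem_univ i⟩)
      (Nat.card {l // R l} - 1) hcard (fun j _ _ => h1 j) (fun j _ hj => h2 j hj) h3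
    calc Y * ∏ j ∈ Finset.univ.erase r, s j ≤ Y * _ := mul_le_mul_of_nonneg_left h4 hY0
      _ = _ := by ring
  · push Not at hex
    refine (a4_count0 w b hb Y hY).trans ?_
    have hcard : (Finset.univ.filter (fun j => R j)).card ≤ Nat.card {l // R l} - 1 := by
      rw [Finset.filter_false_of_mem fun j _ => hex j]
      simp
    have h4 := a4_prod R i (1 + Real.log Y) (1 + Real.log M) _ (by linarith) (by linarith)
      hE s hs0 Finset.univ (Finset.mem_univ i)
      (Nat.card {l // R l} - 1) hcard (fun j _ _ => h1 j) (fun j _ hj => h2 j hj) h3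
    calc Y * ∏ j, s j ≤ Y * _ := mul_le_mul_of_nonneg_left h4 hY0
      _ = _ := by ring

end Pool.Agent.H98.ML
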