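import Pool.Agent.H98.ML.HmA

/-!
# Project MK2, row A2: the function `hm` and sums of a bounded completely multiplicative function
over squarefree integers coprime to `m`
-/

set_option autoImplicit false

namespace Pool.Agent.H98.ML

open Finset ArithmeticFunction ArithmeticFunction.Moebius

private theorem hm_inv_le (m : ℕ) :
    ∑ e ∈ Nat.divisors m, (Real.sqrt e)⁻¹ ≤ hm m := by
  unfold hm
  refine Finset.sum_le_sum fun e he => ?_
  have h1 : 1 ≤ e.divisors.card :=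
    Finset.card_pos.2 ⟨1, Nat.one_mem_divisors.2 (Nat.pos_of_mem_divisors he).ne'⟩
  have h2 : (1 : ℝ) ≤ (e.divisors.card : ℝ) := by exact_mod_cast h1
  rw [div_eq_mul_inv]
  exact le_mul_of_one_le_left (inv_nonneg.2 (Real.sqrt_nonneg _)) h2

theorem hm_pos (m : ℕ) (h : 0 < m) : 1 ≤ hm m := by
  refine le_trans ?_ (hm_inv_le m)
  have h1 := Finset.single_le_sum (f := fun e : ℕ => (Real.sqrt e)⁻¹) (s := Nat.divisors m)
    (fun e _ => inv_nonneg.2 (Real.sqrt_nonneg _)) (Nat.one_mem_divisors.2 h.ne')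
  simpa using h1

private theorem hm_tau_mul (a b : ℕ) :
    ((a * b).divisors.card : ℝ) ≤ (a.divisors.card : ℝ) * (b.divisors.card : ℝ) := by
  have h : (a * b).divisors.card ≤ a.divisors.card * b.divisors.card := by
    rw [Nat.divisors_mul]
    exact Finset.card_mul_le
  exact_mod_cast h

theorem hm_mul (a b : ℕ) (ha : 0 < a) (hb : 0 < b) : hm (a * b) ≤ hm a * hm b := by
  classical
  unfold hm
  rw [Finset.sum_mul_sum, ← Finset.sum_product']
  have hmaps : ∀ p ∈ a.divisors ×ˢ b.divisors, p.1 * p.2 ∈ (a * b).divisors := by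
    intro p hp
    rw [Finset.mem_product] at hp
    rw [Nat.mem_divisors]
    exact ⟨mul_dvd_mul (Nat.dvd_of_mem_divisors hp.1) (Nat.dvd_of_mem_divisors hp.2),
      (Nat.mul_pos ha hb).ne'⟩
  rw [← Finset.sum_fiberwise_of_maps_to (g := fun p : ℕ × ℕ => p.1 * p.2) hmaps]
  refine Finset.sum_le_sum fun e he => ?_
  obtain ⟨d1, hd1, d2, hd2, hd⟩ : ∃ d1 ∈ a.divisors, ∃ d2 ∈ b.divisors, d1 * d2 = e := by
    rw [Nat.divisors_mul, Finset.mem_mul] at he
    exact he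
  have hmem : (d1, d2) ∈ (a.divisors ×ˢ b.divisors).filter (fun p => p.1 * p.2 = e) := by
    rw [Finset.mem_filter, Finset.mem_product]
    exact ⟨⟨hd1, hd2⟩, hd⟩
  have h1 := Finset.single_le_sum
    (f := fun p : ℕ × ℕ => (p.1.divisors.card : ℝ) / Real.sqrt p.1 *
      ((p.2.divisors.card : ℝ) / Real.sqrt p.2))
    (s := (a.divisors ×ˢ b.divisors).filter (fun p => p.1 * p.2 = e))
    (fun p _ => mul_nonneg (div_nonneg (Nat.cast_nonneg _) (Real.sqrt_nonneg _))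
      (div_nonneg (Nat.cast_nonneg _) (Real.sqrt_nonneg _))) hmem
  refine le_trans ?_ h1
  change (e.divisors.card : ℝ) / Real.sqrt e ≤ (d1.divisors.card : ℝ) / Real.sqrt d1 *
      ((d2.divisors.card : ℝ) / Real.sqrt d2)
  rw [← hd, div_mul_div_comm, Nat.cast_mul, Real.sqrt_mul (Nat.cast_nonneg _)]
  exact div_le_div_of_nonneg_right (hm_tau_mul d1 d2)
    (mul_nonneg (Real.sqrt_nonneg _) (Real.sqrt_nonneg _))

private theorem hm_tau_sum (f : ℕ → ℝ) (hf : ∀ a b, f (a * b) = f a * f b) (hf0 : ∀ a, 0 ≤ f a)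
    (N : ℕ) : ∑ n ∈ Finset.Icc 1 N, (n.divisors.card : ℝ) * f n ≤
      (∑ n ∈ Finset.Icc 1 N, f n) ^ 2 := by
  classical
  let s : Finset (ℕ × ℕ) := (Finset.Icc 1 N ×ˢ Finset.Icc 1 N).filter fun p => p.1 * p.2 ≤ N
  have h1 : ∑ n ∈ Finset.Icc 1 N, (n.divisors.card : ℝ) * f n =
      ∑ p ∈ s, f p.1 * f p.2 := by
    rw [← Finset.sum_fiberwise_of_maps_to (s := s) (t := Finset.Icc 1 N)
      (g := fun p : ℕ × ℕ => p.1 * p.2)]
    · refine Finset.sum_congr rfl fun n hn => ?_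
      have hn' := Finset.mem_Icc.1 hn
      have e : s.filter (fun p => p.1 * p.2 = n) = Nat.divisorsAntidiagonal n := by
        ext p
        simp only [s, Finset.mem_filter, Finset.mem_product, Finset.mem_Icc,
          Nat.mem_divisorsAntidiagonal]
        constructor
        · rintro ⟨⟨-, -⟩, h⟩
          exact ⟨h, by omega⟩
        · rintro ⟨h, -⟩
          have p1 : 0 < p.1 := Nat.pos_of_ne_zero fun h0 => by
            rw [h0, zero_mul] at h
            omega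
          have p2 : 0 < p.2 := Nat.pos_of_ne_zero fun h0 => by
            rw [h0, mul_zero] at h
            omega
          have l1 : p.1 ≤ n := h ▸ Nat.le_mul_of_pos_right _ p2
          have l2 : p.2 ≤ n := h ▸ Nat.le_mul_of_pos_left _ p1
          exact ⟨⟨⟨⟨p1, l1.trans hn'.2⟩, ⟨p2, l2.trans hn'.2⟩⟩, h ▸ hn'.2⟩, h⟩
      rw [e]
      have e2 : ∀ p ∈ Nat.divisorsAntidiagonal n, f p.1 * f p.2 = f n := by
        intro p hp
        rw [← hf, (Nat.mem_divisorsAntidiagonal.1 hp).1]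
      rw [Finset.sum_congr rfl e2, Finset.sum_const, nsmul_eq_mul,
        ← Nat.map_div_right_divisors, Finset.card_map]
    · intro p hp
      simp only [s, Finset.mem_filter, Finset.mem_product, Finset.mem_Icc] at hp
      rw [Finset.mem_Icc]
      exact ⟨Nat.mul_pos hp.1.1.1 hp.1.2.1, hp.2⟩
  rw [h1, sq, Finset.sum_mul_sum, ← Finset.sum_product']
  exact Finset.sum_le_sum_of_subset_of_nonneg (Finset.filter_subset _ _) fun p _ _ =>
    mul_nonneg (hf0 _) (hf0 _)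

theorem hm_sum : ∃ C : ℝ, ∀ t : ℝ, 1 ≤ t → ∑ n ∈ Finset.Icc 1 ⌊t⌋₊, hm n ≤ C * t := by
  let f : ℕ → ℝ := fun n => ((n : ℝ) ^ (3 / 2 : ℝ))⁻¹
  have hfs : Summable f := Real.summable_nat_rpow_inv.2 (by norm_num)
  have hf0 : ∀ n, 0 ≤ f n := fun n => inv_nonneg.2 (Real.rpow_nonneg (Nat.cast_nonneg _) _)
  have hfm : ∀ a b, f (a * b) = f a * f b := fun a b => by
    change (((a * b : ℕ) : ℝ) ^ (3 / 2 : ℝ))⁻¹ = _
    rw [Nat.cast_mul, Real.mul_rpow (Nat.cast_nonneg _) (Nat.cast_nonneg _), mul_inv]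
  refine ⟨(∑' n, f n) ^ 2, ?_⟩
  intro t ht
  obtain ⟨N, hN⟩ : ∃ N : ℕ, N = ⌊t⌋₊ := ⟨_, rfl⟩
  rw [← hN]
  have hNt : (N : ℝ) ≤ t := by
    rw [hN]
    exact Nat.floor_le (by linarith)
  have e1 : ∑ n ∈ Finset.Icc 1 N, hm n = ∑ e ∈ Finset.Icc 1 N,
      ((N / e : ℕ) : ℝ) * ((e.divisors.card : ℝ) / Real.sqrt e) := by
    have e2 : ∀ n ∈ Finset.Icc 1 N, hm n = ∑ e ∈ Finset.Icc 1 N,
        (if e ∣ n then (e.divisors.card : ℝ) / Real.sqrt e else 0) := by
      intro n hn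
      have hn' := Finset.mem_Icc.1 hn
      unfold hm
      rw [← Finset.sum_filter]
      refine Finset.sum_congr ?_ fun _ _ => rfl
      ext e
      rw [Nat.mem_divisors, Finset.mem_filter, Finset.mem_Icc]
      constructor
      · rintro ⟨h1, h2⟩
        exact ⟨⟨Nat.pos_of_dvd_of_pos h1 hn'.1, (Nat.le_of_dvd hn'.1 h1).trans hn'.2⟩, h1⟩
      · rintro ⟨-, h2⟩
        exact ⟨h2, (Nat.pos_of_ne_zero (by omega)).ne'⟩
    rw [Finset.sum_congr rfl e2, Finset.sum_comm]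
    refine Finset.sum_congr rfl fun e he => ?_
    rw [hm_cs_mult_sum (fun _ => (e.divisors.card : ℝ) / Real.sqrt e) e N
      (Finset.mem_Icc.1 he).1, Finset.sum_const, Nat.card_Icc, nsmul_eq_mul, Nat.add_sub_cancel]
  rw [e1]
  have e3 : ∀ e ∈ Finset.Icc 1 N, ((N / e : ℕ) : ℝ) * ((e.divisors.card : ℝ) / Real.sqrt e) ≤
      t * ((e.divisors.card : ℝ) * f e) := by
    intro e he
    have he0 : (0 : ℝ) < e := by exact_mod_cast (Finset.mem_Icc.1 he).1
    have hs0 : 0 < Real.sqrt e := Real.sqrt_pos.2 he0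
    have hfe : f e = (e : ℝ)⁻¹ * (Real.sqrt e)⁻¹ := by
      change ((e : ℝ) ^ (3 / 2 : ℝ))⁻¹ = _
      have h3 : (3 / 2 : ℝ) = 1 + 1 / 2 := by norm_num
      rw [h3, Real.rpow_add he0, Real.rpow_one, ← Real.sqrt_eq_rpow, mul_inv]
    have h4 : ((N / e : ℕ) : ℝ) ≤ t * (e : ℝ)⁻¹ := by
      rw [← div_eq_mul_inv]
      exact (Nat.cast_div_le).trans (div_le_div_of_nonneg_right hNt he0.le)
    rw [hfe]
    calc ((N / e : ℕ) : ℝ) * ((e.divisors.card : ℝ) / Real.sqrt e)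
        ≤ (t * (e : ℝ)⁻¹) * ((e.divisors.card : ℝ) / Real.sqrt e) :=
          mul_le_mul_of_nonneg_right h4 (by positivity)
      _ = t * ((e.divisors.card : ℝ) * ((e : ℝ)⁻¹ * (Real.sqrt e)⁻¹)) := by
          rw [div_eq_mul_inv]
          ring
  refine (Finset.sum_le_sum e3).trans ?_
  rw [← Finset.mul_sum, mul_comm]
  refine mul_le_mul_of_nonneg_right ?_ (by linarith)
  refine (hm_tau_sum f hfm hf0 N).trans ?_
  exact pow_le_pow_left₀ (Finset.sum_nonneg fun n _ => hf0 n)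
    (hfs.sum_le_tsum _ fun n _ => hf0 n) 2

open Classical in
theorem char_sqfree2 (χ : ℕ → ℝ) (hmul : ∀ a b, χ (a * b) = χ a * χ b) (h1 : ∀ n, |χ n| ≤ 1)
    (q : ℝ) (hq : 1 ≤ q) (hs : ∀ M : ℕ, |∑ n ∈ Finset.Icc 1 M, χ n| ≤ q) (m : ℕ) (hm0 : 0 < m)
    (x : ℝ) (hx : 1 ≤ x) :
    |∑ n ∈ Finset.Icc 1 ⌊x⌋₊, if Squarefree n ∧ Nat.Coprime n m then χ n else 0| ≤
      8 * hm m * Real.sqrt (q * x) := by
  obtain ⟨g, hg⟩ : ∃ g : ℕ → ℝ, ∀ n, g n = if Nat.Coprime n m then χ n else 0 :=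
    ⟨_, fun n => rfl⟩
  have hgmul : ∀ a b, g (a * b) = g a * g b := by
    intro a b
    rw [hg, hg, hg]
    by_cases ha : Nat.Coprime a m
    · by_cases hb : Nat.Coprime b m
      · rw [if_pos ha, if_pos hb, if_pos (Nat.Coprime.mul_left ha hb), hmul]
      · rw [if_neg hb, if_neg (fun h => hb (Nat.Coprime.coprime_mul_left h)), mul_zero]
    · rw [if_neg ha, if_neg (fun h => ha (Nat.Coprime.coprime_mul_right h)), zero_mul]
  have hg1 : ∀ n, |g n| ≤ 1 := by
    intro n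
    rw [hg]
    split_ifs
    · exact h1 n
    · rw [abs_zero]
      exact zero_le_one
  have hχ2 : ∀ M : ℕ, |∑ n ∈ Finset.Icc 1 M, χ n| ≤ M := by
    intro M
    refine (Finset.abs_sum_le_sum_abs _ _).trans ?_
    refine (Finset.sum_le_sum fun n _ => h1 n).trans ?_
    rw [Finset.sum_const, Nat.card_Icc, nsmul_eq_mul, mul_one]
    simp
  -- the sums of `g`
  have hG : ∀ M : ℕ, |∑ n ∈ Finset.Icc 1 M, g n| ≤
      ∑ e ∈ Nat.divisors m, |∑ j ∈ Finset.Icc 1 (M / e), χ j| := by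
    intro M
    have e1 : ∑ n ∈ Finset.Icc 1 M, g n = ∑ e ∈ Nat.divisors m, ((μ e : ℤ) : ℝ) *
        (χ e * ∑ j ∈ Finset.Icc 1 (M / e), χ j) := by
      have e2 : ∀ n ∈ Finset.Icc 1 M, g n =
          ∑ e ∈ Nat.divisors m, (if e ∣ n then ((μ e : ℤ) : ℝ) * χ n else 0) := by
        intro n hn
        rw [Finset.mem_Icc] at hn
        have e3 := hm_cs_coprime n m hn.1 hm0
        have e4 : g n = (if Nat.Coprime n m then (1 : ℝ) else 0) * χ n := by
          rw [hg]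
          split_ifs
          · rw [one_mul]
          · rw [zero_mul]
        rw [e4, ← e3, Finset.sum_mul]
        refine Finset.sum_congr rfl fun e _ => ?_
        rw [ite_mul, zero_mul]
      rw [Finset.sum_congr rfl e2, Finset.sum_comm]
      refine Finset.sum_congr rfl fun e he => ?_
      have he0 : 0 < e := Nat.pos_of_mem_divisors he
      rw [hm_cs_mult_sum (fun n => ((μ e : ℤ) : ℝ) * χ n) e M he0, Finset.mul_sum,
        Finset.mul_sum]
      refine Finset.sum_congr rfl fun j _ => ?_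
      rw [hmul]
    rw [e1]
    refine (Finset.abs_sum_le_sum_abs _ _).trans ?_
    refine Finset.sum_le_sum fun e _ => ?_
    rw [abs_mul, abs_mul]
    calc |((μ e : ℤ) : ℝ)| * (|χ e| * |∑ j ∈ Finset.Icc 1 (M / e), χ j|)
        ≤ 1 * (1 * |∑ j ∈ Finset.Icc 1 (M / e), χ j|) := by
          refine mul_le_mul (hm_cs_abs_mu e) ?_ (by positivity) zero_le_one
          exact mul_le_mul_of_nonneg_right (h1 e) (abs_nonneg _)
      _ = _ := by ring
  -- the identity
  obtain ⟨N, hNdef⟩ : ∃ N : ℕ, N = ⌊x⌋₊ := ⟨_, rfl⟩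
  rw [← hNdef]
  have hNx : (N : ℝ) ≤ x := by
    rw [hNdef]
    exact Nat.floor_le (by linarith)
  have e1 : (∑ n ∈ Finset.Icc 1 N, if Squarefree n ∧ Nat.Coprime n m then χ n else 0) =
      ∑ d ∈ Finset.Icc 1 N, ((μ d : ℤ) : ℝ) *
        (g (d ^ 2) * ∑ j ∈ Finset.Icc 1 (N / d ^ 2), g j) := by
    have e2 : ∀ n ∈ Finset.Icc 1 N,
        (if Squarefree n ∧ Nat.Coprime n m then χ n else 0) =
          ∑ d ∈ Finset.Icc 1 N, (if d ^ 2 ∣ n then ((μ d : ℤ) : ℝ) * g n else 0) := by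
      intro n hn
      rw [Finset.mem_Icc] at hn
      have e3 := hm_cs_sqf n N hn.1 hn.2
      have e4 : (if Squarefree n ∧ Nat.Coprime n m then χ n else 0) =
          (if Squarefree n then (1 : ℝ) else 0) * g n := by
        rw [hg]
        by_cases ha : Squarefree n
        · by_cases hb : Nat.Coprime n m
          · rw [if_pos ⟨ha, hb⟩, if_pos ha, if_pos hb, one_mul]
          · rw [if_neg (fun h => hb h.2), if_neg hb, mul_zero]
        · rw [if_neg (fun h => ha h.1), if_neg ha, zero_mul]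
      rw [e4, ← e3, Finset.sum_mul]
      refine Finset.sum_congr rfl fun d _ => ?_
      rw [ite_mul, zero_mul]
    rw [Finset.sum_congr rfl e2, Finset.sum_comm]
    refine Finset.sum_congr rfl fun d hd => ?_
    rw [Finset.mem_Icc] at hd
    have hd0 : 0 < d ^ 2 := pow_pos hd.1 2
    rw [hm_cs_mult_sum (fun n => ((μ d : ℤ) : ℝ) * g n) (d ^ 2) N hd0, Finset.mul_sum,
      Finset.mul_sum]
    refine Finset.sum_congr rfl fun j _ => ?_
    rw [hgmul]
  rw [e1]
  refine (Finset.abs_sum_le_sum_abs _ _).trans ?_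
  have hq0 : 0 < q := by linarith
  have hx0 : 0 < x := by linarith
  have e6 : ∀ d ∈ Finset.Icc 1 N, |((μ d : ℤ) : ℝ) *
      (g (d ^ 2) * ∑ j ∈ Finset.Icc 1 (N / d ^ 2), g j)| ≤
        ∑ e ∈ Nat.divisors m, |∑ j ∈ Finset.Icc 1 (N / d ^ 2 / e), χ j| := by
    intro d hd
    refine le_trans ?_ (hG _)
    rw [abs_mul, abs_mul]
    calc |((μ d : ℤ) : ℝ)| * (|g (d ^ 2)| * |∑ j ∈ Finset.Icc 1 (N / d ^ 2), g j|)
        ≤ 1 * (1 * |∑ j ∈ Finset.Icc 1 (N / d ^ 2), g j|) := by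
          refine mul_le_mul (hm_cs_abs_mu d) ?_ (by positivity) zero_le_one
          exact mul_le_mul_of_nonneg_right (hg1 _) (abs_nonneg _)
      _ = _ := by rw [one_mul, one_mul]
  refine (Finset.sum_le_sum e6).trans ?_
  rw [Finset.sum_comm]
  have e7 : ∀ e ∈ Nat.divisors m, ∑ d ∈ Finset.Icc 1 N,
      |∑ j ∈ Finset.Icc 1 (N / d ^ 2 / e), χ j| ≤
        4 * Real.sqrt (q * x) * (Real.sqrt e)⁻¹ := by
    intro e he
    have he0 : (0 : ℝ) < e := by exact_mod_cast Nat.pos_of_mem_divisors he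
    have h3 := hm_cs_min q (x / e) hq (by positivity) N
      (fun d => |∑ j ∈ Finset.Icc 1 (N / d ^ 2 / e), χ j|) (fun d _ => hs _) (fun d hd => by
        refine (hχ2 _).trans ?_
        have hd0 : (0 : ℝ) < d := by exact_mod_cast (Finset.mem_Icc.1 hd).1
        calc ((N / d ^ 2 / e : ℕ) : ℝ) ≤ ((N / d ^ 2 : ℕ) : ℝ) / (e : ℝ) := Nat.cast_div_le
          _ ≤ ((N : ℝ) / ((d ^ 2 : ℕ) : ℝ)) / (e : ℝ) :=
              div_le_div_of_nonneg_right Nat.cast_div_le he0.le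
          _ = (N : ℝ) / e / (d : ℝ) ^ 2 := by
              rw [Nat.cast_pow, div_right_comm]
          _ ≤ x / e / (d : ℝ) ^ 2 :=
              div_le_div_of_nonneg_right (div_le_div_of_nonneg_right hNx he0.le) (by positivity))
    refine h3.trans (le_of_eq ?_)
    rw [← mul_div_assoc, Real.sqrt_div (by positivity), div_eq_mul_inv, mul_assoc]
  refine (Finset.sum_le_sum e7).trans ?_
  rw [← Finset.mul_sum]
  have h4 := hm_inv_le m
  have h5 := hm_pos m hm0
  have h6 : 0 ≤ Real.sqrt (q * x) := Real.sqrt_nonneg _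
  calc 4 * Real.sqrt (q * x) * ∑ e ∈ Nat.divisors m, (Real.sqrt e)⁻¹
      ≤ 4 * Real.sqrt (q * x) * hm m := mul_le_mul_of_nonneg_left h4 (by positivity)
    _ ≤ 8 * hm m * Real.sqrt (q * x) := by nlinarith [mul_nonneg h6 (by linarith : 0 ≤ hm m)]

end Pool.Agent.H98.ML
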