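import Pool.Agent.H98.ML.GWChar2
import Pool.Agent.H98.ML.Hm

/-!
# Project MK2, row A5: a nontrivial character in a large variable, sharp form
-/

set_option autoImplicit false

open scoped BigOperators

namespace Pool.Agent.H98.ML

open Pool.Agent.H98.MK (psi jp)

theorem a5_csq : CSq := fun χ hmul h1 q hq hs m hm0 x hx =>
  char_sqfree2 χ hmul h1 q hq hs m hm0 x hx

open Classical in
theorem GW_char {ι : Type} [Fintype ι] (w : ι → ℝ) (hw : ∀ i, 1 ≤ w i) (L : ι → ι → Prop)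
    (hL : ∀ i j, L i j → ¬ L j i) (R : ι → Prop)
    (hR : ∀ i, R i → w i = 1 ∧ ∀ j, ¬ L i j ∧ ¬ L j i)
    (i : ι) (hi : w i = 1) (hiR : ¬ R i) (c : Fin 4) (hc : c ≠ 0 ∨ ∃ j, L i j ∨ L j i) :
    ∃ C : ℝ, ∃ k : ℕ, ∀ (a : ι → ℕ → ℝ) (P M Y : ℝ), (∀ l n, |a l n| ≤ 1) → 1 ≤ P → 1 ≤ M →
      1 ≤ Y → (∀ l, ¬ R l → ∀ n, a l n ≠ 0 → (n : ℝ) ≤ 2 * M) →
      (∀ n : ℕ, a i n = if M < n ∧ (n : ℝ) ≤ 2 * M then (psi c n : ℝ) else 0) →
      (∀ j, L i j ∨ L j i → ∀ n, a j n ≠ 0 → 2 ≤ n ∧ (n : ℝ) ≤ P) →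
      |GW w L a Y| ≤ C * Y * (1 + Real.log Y) ^ (Nat.card {l // R l} - 1) *
        (P ^ (Fintype.card ι) / M) ^ (1 / 2 : ℝ) * (1 + Real.log M) ^ k := by
  obtain ⟨C0, hC0⟩ := hm_sum
  obtain ⟨C, -, hC⟩ := a5_sum w hw R (fun j hj => (hR j hj).1) i hiR hm a5_hm_nonneg
    (by simp [hm]) C0 hC0
  refine ⟨16 * Real.sqrt 8 * C, Fintype.card ι + 1, ?_⟩
  intro a P M Y ha hP hM hY haR hai haj
  have hM0 : 0 < M := by linarith
  have hP0 : 0 < P := by linarith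
  have hD : 0 ≤ 16 * Real.sqrt 8 * (P ^ (Fintype.card ι) / M) ^ (1 / 2 : ℝ) := by positivity
  unfold GW
  rw [Pool.Agent.H98.MK.a4_split i]
  refine (Finset.abs_sum_le_sum_abs _ _).trans ?_
  refine (Finset.sum_le_sum (g := fun z =>
      if (∀ j, ¬ R j → (z j : ℝ) ≤ 2 * M) ∧ ∏ j, (z j : ℝ) ^ w j ≤ Y then
      16 * Real.sqrt 8 * (P ^ (Fintype.card ι) / M) ^ (1 / 2 : ℝ) *
        ((∏ j, hm (z j)) * min (Y / ∏ j, (z j : ℝ) ^ w j) (2 * M)) else 0) fun z hz => ?_).trans ?_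
  · rw [Fintype.mem_piFinset] at hz
    have hzi : z i = 1 := by
      have := hz i
      rw [if_pos rfl, Finset.mem_singleton] at this
      exact this
    refine a5_term a5_csq hm_mul w hw L hL R i hi c hc a P M Y ha hP hM hY haR hai haj z
      (fun j => ?_) hzi _
    by_cases hj : j = i
    · rw [hj, hzi]
    · have := hz j
      rw [if_neg hj] at this
      exact (Finset.mem_Icc.1 this).1
  · refine (hC Y M _ hY hM hD).trans (le_of_eq ?_)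
    ring

end Pool.Agent.H98.ML
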