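import Pool.Agent.H98.ML.GWPairA
import Pool.Agent.H98.ML.RSum
import Pool.Agent.H98.MK.Bilin

/-!
# Project MK2, row A3: a linked pair of large variables, sharp form
-/

set_option autoImplicit false

open scoped BigOperators

namespace Pool.Agent.H98.ML

open Pool.Agent.H98.MK

open Classical in
/-- the sum over the free variables -/
theorem gwp_rsum0 (κ : Type) [Fintype κ] : ∃ C : ℝ, 0 ≤ C ∧ ∀ (Y V M : ℝ), 1 ≤ Y → 1 ≤ V → 1 ≤ M →
    ∑ r ∈ Fintype.piFinset (fun _ : κ => Finset.Icc 1 ⌊Y⌋₊),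
      (if (∏ i, (r i : ℝ)) * V ≤ Y then min (Y / ((∏ i, (r i : ℝ)) * V)) (M ^ 2) else 0) ≤
    C * Y * (1 + Real.log Y) ^ (Fintype.card κ - 1) * (1 + Real.log M) * V⁻¹ := by
  classical
  obtain ⟨C, hC⟩ := rs_sum (κ := κ) (fun _ => 1) (fun _ => zero_le_one) 1 (fun t ht => by
    rw [Finset.sum_const, Nat.card_Icc, Nat.add_sub_cancel, nsmul_eq_mul, mul_one, one_mul]
    exact Nat.floor_le (by linarith))
  refine ⟨2 * max C 0, by positivity, fun Y V M hY hV hM => ?_⟩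
  have hlogM : 0 ≤ Real.log M := Real.log_nonneg hM
  have hlogY : 0 ≤ Real.log Y := Real.log_nonneg hY
  have hVpos : 0 < V := by linarith
  have hM2 : (1 : ℝ) ≤ M ^ 2 := one_le_pow₀ hM
  have hVinv : 0 < V⁻¹ := inv_pos.2 hVpos
  by_cases hYV : V ≤ Y
  swap
  · rw [Finset.sum_eq_zero]
    · have : 0 ≤ Y := by linarith
      positivity
    · intro r hr
      refine if_neg (not_le.2 ?_)
      have h0 : ∀ k, (1 : ℝ) ≤ (r k : ℝ) := fun k => by
        exact_mod_cast (Finset.mem_Icc.1 (Fintype.mem_piFinset.1 hr k)).1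
      have h1 : (1 : ℝ) ≤ ∏ i, (r i : ℝ) := by
        calc (1 : ℝ) = ∏ i : κ, (1 : ℝ) := by rw [Finset.prod_const_one]
          _ ≤ ∏ i, (r i : ℝ) := Finset.prod_le_prod (fun _ _ => zero_le_one) fun l _ => h0 l
      nlinarith [not_le.1 hYV]
  have hY2 : 1 ≤ Y / V := by rwa [le_div_iff₀ hVpos, one_mul]
  have hY2Y : Y / V ≤ Y := div_le_self (by linarith) hV
  have hsub : Fintype.piFinset (fun _ : κ => Finset.Icc 1 ⌊Y / V⌋₊) ⊆
      Fintype.piFinset (fun _ : κ => Finset.Icc 1 ⌊Y⌋₊) := by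
    intro r hr
    refine Fintype.mem_piFinset.2 fun l => ?_
    exact Finset.Icc_subset_Icc_right (Nat.floor_le_floor hY2Y) (Fintype.mem_piFinset.1 hr l)
  have hiff : ∀ x : ℝ, x * V ≤ Y ↔ x ≤ Y / V := fun x => by rw [le_div_iff₀ hVpos]
  have e1 : ∑ r ∈ Fintype.piFinset (fun _ : κ => Finset.Icc 1 ⌊Y⌋₊),
      (if (∏ i, (r i : ℝ)) * V ≤ Y then min (Y / ((∏ i, (r i : ℝ)) * V)) (M ^ 2) else 0) =
      ∑ r ∈ Fintype.piFinset (fun _ : κ => Finset.Icc 1 ⌊Y / V⌋₊),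
        (if ∏ i, (r i : ℝ) ≤ Y / V then
          (∏ i : κ, (fun _ : ℕ => (1 : ℝ)) (r i)) * min (Y / V / ∏ i, (r i : ℝ)) (M ^ 2) else 0) := by
    rw [← Finset.sum_subset hsub]
    · refine Finset.sum_congr rfl fun r _ => ?_
      rw [Finset.prod_const_one, one_mul, div_div, mul_comm V]
      simp only [hiff]
    · intro r hr hr'
      refine if_neg fun h => hr' ?_
      rw [hiff] at h
      refine Fintype.mem_piFinset.2 fun l => Finset.mem_Icc.2 ⟨?_, ?_⟩
      · exact (Finset.mem_Icc.1 (Fintype.mem_piFinset.1 hr l)).1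
      · refine Nat.le_floor (le_trans ?_ h)
        have h1 : ∀ k, (1 : ℝ) ≤ (r k : ℝ) := fun k => by
          exact_mod_cast (Finset.mem_Icc.1 (Fintype.mem_piFinset.1 hr k)).1
        have h2 : (1 : ℝ) ≤ ∏ k ∈ Finset.univ.erase l, (r k : ℝ) := by
          calc (1 : ℝ) = ∏ k ∈ Finset.univ.erase l, (1 : ℝ) := by rw [Finset.prod_const_one]
            _ ≤ ∏ k ∈ Finset.univ.erase l, (r k : ℝ) :=
              Finset.prod_le_prod (fun _ _ => zero_le_one) fun k _ => h1 k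
        rw [← Finset.mul_prod_erase Finset.univ (fun k => (r k : ℝ)) (Finset.mem_univ l)]
        nlinarith [h1 l]
  rw [e1]
  refine (hC (Y / V) (M ^ 2) hY2 hM2).trans ?_
  have hl1 : 0 ≤ Real.log (Y / V) := Real.log_nonneg hY2
  have hl2 : Real.log (Y / V) ≤ Real.log Y := Real.log_le_log (by linarith) hY2Y
  have hl3 : 1 + Real.log (M ^ 2) ≤ 2 * (1 + Real.log M) := by
    rw [Real.log_pow]
    push_cast
    linarith
  have hl4 : 0 ≤ Real.log (M ^ 2) := Real.log_nonneg hM2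
  have hYV0 : 0 ≤ Y / V := by linarith
  calc C * (Y / V) * (1 + Real.log (Y / V)) ^ (Fintype.card κ - 1) * (1 + Real.log (M ^ 2))
      ≤ max C 0 * (Y / V) * (1 + Real.log Y) ^ (Fintype.card κ - 1) * (2 * (1 + Real.log M)) := by
        have h5 : (1 + Real.log (Y / V)) ^ (Fintype.card κ - 1) ≤
            (1 + Real.log Y) ^ (Fintype.card κ - 1) :=
          pow_le_pow_left₀ (by linarith) (by linarith) _
        have h6 : C * (Y / V) ≤ max C 0 * (Y / V) :=
          mul_le_mul_of_nonneg_right (le_max_left _ _) hYV0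
        have h7 : 0 ≤ max C 0 * (Y / V) := mul_nonneg (le_max_right _ _) hYV0
        have h8 : 0 ≤ (1 + Real.log (Y / V)) ^ (Fintype.card κ - 1) := by positivity
        have h9 : 0 ≤ (1 + Real.log Y) ^ (Fintype.card κ - 1) := by positivity
        have h10 : C * (Y / V) * (1 + Real.log (Y / V)) ^ (Fintype.card κ - 1) ≤
            max C 0 * (Y / V) * (1 + Real.log Y) ^ (Fintype.card κ - 1) :=
          mul_le_mul h6 h5 h8 h7
        exact mul_le_mul h10 hl3 (by linarith) (mul_nonneg h7 h9)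
    _ = 2 * max C 0 * Y * (1 + Real.log Y) ^ (Fintype.card κ - 1) * (1 + Real.log M) * V⁻¹ := by
        rw [div_eq_mul_inv]
        ring

/-- the sum over the free variables -/
theorem gwp_rsum (κ : Type) [Fintype κ] [DecidableEq κ] : ∃ C : ℝ, 0 ≤ C ∧
    ∀ (Y V M : ℝ), 1 ≤ Y → 1 ≤ V → 1 ≤ M →
    ∑ r ∈ Fintype.piFinset (fun _ : κ => Finset.Icc 1 ⌊Y⌋₊),
      (if (∏ i, (r i : ℝ)) * V ≤ Y then min (Y / ((∏ i, (r i : ℝ)) * V)) (M ^ 2) else 0) ≤
    C * Y * (1 + Real.log Y) ^ (Fintype.card κ - 1) * (1 + Real.log M) * V⁻¹ := by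
  obtain ⟨C, h0, h⟩ := gwp_rsum0 κ
  refine ⟨C, h0, fun Y V M h1 h2 h3 => ?_⟩
  refine le_trans (le_of_eq (Finset.sum_congr ?_ fun r _ => rfl)) (h Y V M h1 h2 h3)
  ext r
  simp only [Fintype.mem_piFinset]

open Classical in
/-- the sum over all variables -/
theorem gwp_count {ι : Type} [Fintype ι] (w : ι → ℝ) (hw : ∀ i, 1 ≤ w i) (R : ι → Prop)
    (hR : ∀ i, R i → w i = 1) : ∃ C : ℝ, 0 ≤ C ∧ ∀ (Y M : ℝ), 1 ≤ Y → 1 ≤ M →
    ∑ z ∈ Fintype.piFinset (fun _ : ι => Finset.Icc 1 ⌊Y⌋₊),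
      (if (∀ l, ¬ R l → (z l : ℝ) ≤ M) ∧ ∏ l, (z l : ℝ) ^ w l ≤ Y then
          min (Y / ∏ l, (z l : ℝ) ^ w l) (M ^ 2) else 0) ≤
    C * Y * (1 + Real.log Y) ^ (Nat.card {l // R l} - 1) *
      (1 + Real.log M) ^ (1 + Nat.card {l // ¬ R l}) := by
  obtain ⟨C, hC0, hC⟩ := gwp_rsum {l // R l}
  refine ⟨C, hC0, fun Y M hY hM => ?_⟩
  have hlogM : 0 ≤ Real.log M := Real.log_nonneg hM
  have hlogY : 0 ≤ Real.log Y := Real.log_nonneg hY
  have hM0 : 0 ≤ M := by linarith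
  have hY0 : 0 ≤ Y := by linarith
  rw [Nat.card_eq_fintype_card, Nat.card_eq_fintype_card]
  -- split the index set
  have e1 : ∑ z ∈ Fintype.piFinset (fun _ : ι => Finset.Icc 1 ⌊Y⌋₊),
      (if (∀ l, ¬ R l → (z l : ℝ) ≤ M) ∧ ∏ l, (z l : ℝ) ^ w l ≤ Y then
          min (Y / ∏ l, (z l : ℝ) ^ w l) (M ^ 2) else 0) =
      ∑ p ∈ Fintype.piFinset (fun _ : {l // ¬ R l} => Finset.Icc 1 ⌊Y⌋₊) ×ˢ
        Fintype.piFinset (fun _ : {l // R l} => Finset.Icc 1 ⌊Y⌋₊),
        (if (∀ l, (p.1 l : ℝ) ≤ M) ∧ (∏ l, (p.2 l : ℝ)) * (∏ l, (p.1 l : ℝ) ^ w l) ≤ Y then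
          min (Y / ((∏ l, (p.2 l : ℝ)) * (∏ l, (p.1 l : ℝ) ^ w l))) (M ^ 2) else 0) := by
    refine Finset.sum_nbij' (fun z => (fun l => z l, fun l => z l))
      (fun p l => if h : R l then p.2 ⟨l, h⟩ else p.1 ⟨l, h⟩) ?_ ?_ ?_ ?_ ?_
    · intro z hz
      have hz' := Fintype.mem_piFinset.1 hz
      exact Finset.mem_product.2 ⟨Fintype.mem_piFinset.2 fun l => hz' l,
        Fintype.mem_piFinset.2 fun l => hz' l⟩
    · intro p hp
      obtain ⟨h1, h2⟩ := Finset.mem_product.1 hp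
      refine Fintype.mem_piFinset.2 fun l => ?_
      by_cases h : R l
      · rw [dif_pos h]
        exact Fintype.mem_piFinset.1 h2 _
      · rw [dif_neg h]
        exact Fintype.mem_piFinset.1 h1 _
    · intro z _
      funext l
      by_cases h : R l
      · exact dif_pos h
      · exact dif_neg h
    · rintro ⟨p, q⟩ _
      refine Prod.ext ?_ ?_
      · funext l
        exact dif_neg l.2
      · funext l
        exact dif_pos l.2
    · intro z _
      have h1 : ∏ l, (z l : ℝ) ^ w l = (∏ l : {l // R l}, (z l : ℝ)) *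
          (∏ l : {l // ¬ R l}, (z l : ℝ) ^ w l) := by
        rw [← Fintype.prod_subtype_mul_prod_subtype R]
        congr 1
        refine Finset.prod_congr rfl fun l _ => ?_
        rw [hR l l.2, Real.rpow_one]
      have h2 : (∀ l, ¬ R l → (z l : ℝ) ≤ M) ↔ ∀ l : {l // ¬ R l}, (z l : ℝ) ≤ M :=
        ⟨fun h l => h l l.2, fun h l hl => h ⟨l, hl⟩⟩
      rw [h1]
      simp only [h2]
  rw [e1, Finset.sum_product]
  have hB0 : 0 ≤ C * Y * (1 + Real.log Y) ^ (Fintype.card {l // R l} - 1) * (1 + Real.log M) := by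
    positivity
  calc _ ≤ ∑ v ∈ Fintype.piFinset (fun _ : {l // ¬ R l} => Finset.Icc 1 ⌊Y⌋₊),
        C * Y * (1 + Real.log Y) ^ (Fintype.card {l // R l} - 1) * (1 + Real.log M) *
          ∏ l, (if (v l : ℝ) ≤ M then ((v l : ℝ))⁻¹ else 0) := by
        refine Finset.sum_le_sum fun v hv => ?_
        have hv1 : ∀ l, (1 : ℝ) ≤ v l := fun l => by
          exact_mod_cast (Finset.mem_Icc.1 (Fintype.mem_piFinset.1 hv l)).1
        by_cases hvM : ∀ l, (v l : ℝ) ≤ M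
        · have hV1 : (1 : ℝ) ≤ ∏ l, (v l : ℝ) ^ w l := by
            calc (1 : ℝ) = ∏ l : {l // ¬ R l}, (1 : ℝ) := by rw [Finset.prod_const_one]
              _ ≤ ∏ l : {l // ¬ R l}, (v l : ℝ) ^ w l :=
                Finset.prod_le_prod (fun _ _ => zero_le_one) fun l _ =>
                  Real.one_le_rpow (hv1 l) (by linarith [hw l])
          have h3 := hC Y (∏ l, (v l : ℝ) ^ w l) M hY hV1 hM
          simp only [hvM, implies_true, true_and, if_true]
          refine h3.trans (mul_le_mul_of_nonneg_left ?_ hB0)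
          rw [← Finset.prod_inv_distrib]
          refine Finset.prod_le_prod (fun l _ => by positivity) fun l _ => ?_
          refine inv_anti₀ (by linarith [hv1 l]) ?_
          calc (v l : ℝ) = (v l : ℝ) ^ (1 : ℝ) := (Real.rpow_one _).symm
            _ ≤ (v l : ℝ) ^ w l := Real.rpow_le_rpow_of_exponent_le (hv1 l) (hw l)
        · rw [Finset.sum_eq_zero]
          · refine mul_nonneg hB0 (Finset.prod_nonneg fun l _ => ?_)
            split_ifs
            · positivity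
            · exact le_rfl
          · intro r _
            exact if_neg fun h => hvM h.1
    _ = C * Y * (1 + Real.log Y) ^ (Fintype.card {l // R l} - 1) * (1 + Real.log M) *
        (∑ n ∈ Finset.Icc 1 ⌊Y⌋₊, (if (n : ℝ) ≤ M then ((n : ℝ))⁻¹ else 0)) ^
          Fintype.card {l // ¬ R l} := by
        rw [← Finset.mul_sum]
        congr 1
        have h7 := Finset.prod_univ_sum (fun _ : {l // ¬ R l} => Finset.Icc 1 ⌊Y⌋₊)
          (fun (_ : {l // ¬ R l}) (n : ℕ) => (if (n : ℝ) ≤ M then ((n : ℝ))⁻¹ else 0))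
        rw [← h7, Finset.prod_const, Finset.card_univ]
    _ ≤ C * Y * (1 + Real.log Y) ^ (Fintype.card {l // R l} - 1) * (1 + Real.log M) *
        (1 + Real.log M) ^ Fintype.card {l // ¬ R l} := by
        refine mul_le_mul_of_nonneg_left ?_ hB0
        refine pow_le_pow_left₀ (Finset.sum_nonneg fun n _ => ?_) ?_ _
        · split_ifs
          · positivity
          · exact le_rfl
        · refine le_trans ?_ (gp_harm hM)
          rw [← Finset.sum_filter]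
          refine Finset.sum_le_sum_of_subset_of_nonneg ?_ fun n _ _ => by positivity
          intro n hn
          obtain ⟨h1, h2⟩ := Finset.mem_filter.1 hn
          exact Finset.mem_Icc.2 ⟨(Finset.mem_Icc.1 h1).1, Nat.le_floor h2⟩
    _ = C * Y * (1 + Real.log Y) ^ (Fintype.card {l // R l} - 1) *
        (1 + Real.log M) ^ (1 + Fintype.card {l // ¬ R l}) := by
        rw [pow_add, pow_one]
        ring

/-- a linked pair of large variables, sharp form -/
theorem GW_pair {ι : Type} [Fintype ι] (w : ι → ℝ) (hw : ∀ i, 1 ≤ w i) (L : ι → ι → Prop)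
    (hL : ∀ i j, L i j → ¬ L j i) (R : ι → Prop)
    (hR : ∀ i, R i → w i = 1 ∧ ∀ j, ¬ L i j ∧ ¬ L j i)
    (i j : ι) (hij : L i j) (hi : w i = 1) (hj : w j = 1) :
    ∃ C : ℝ, ∃ k : ℕ, ∀ (a : ι → ℕ → ℝ) (P M Y : ℝ), (∀ l n, |a l n| ≤ 1) → 1 ≤ P → 1 ≤ M →
      1 ≤ Y → (∀ l, ¬ R l → ∀ n, a l n ≠ 0 → (n : ℝ) ≤ M) →
      (∀ n, a i n ≠ 0 → P < n) → (∀ n, a j n ≠ 0 → P < n) →
      |GW w L a Y| ≤ C * Y * (1 + Real.log Y) ^ (Nat.card {l // R l} - 1) *
        P ^ (-(1 / 12) : ℝ) * (1 + Real.log M) ^ k := by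
  classical
  obtain ⟨C0, hC0⟩ := bilin
  have hne : i ≠ j := by
    rintro rfl
    exact hL _ _ hij hij
  have hC1 : GPBil (max C0 0) := by
    intro P x a b hP hx h1 h2 h3 h4
    refine (hC0 P x a b hP hx h1 h2 h3 h4).trans ?_
    have hlog : 0 ≤ Real.log x := Real.log_nonneg hx
    have hPp : 0 < P ^ (-(1 / 12) : ℝ) := Real.rpow_pos_of_pos (by linarith) _
    have hx0 : 0 ≤ x := by linarith
    gcongr
    exact le_max_left _ _
  have hRi : ¬ R i := fun h => ((hR i h).2 j).1 hij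
  have hRj : ¬ R j := fun h => ((hR j h).2 i).2 hij
  obtain ⟨C2, hC20, hC2⟩ := gwp_count w hw R (fun l hl => (hR l hl).1)
  refine ⟨4 * max C0 0 * C2, 2 + (1 + Nat.card {l // ¬ R l}), ?_⟩
  intro a P M Y ha hP hM hY haM hPi hPj
  have hlogM : 0 ≤ Real.log M := Real.log_nonneg hM
  have hPp : 0 < P ^ (-(1 / 12) : ℝ) := Real.rpow_pos_of_pos (by linarith) _
  have hCn : 0 ≤ max C0 0 := le_max_right _ _
  have hN : 1 ≤ ⌊Y⌋₊ := (Nat.one_le_floor_iff Y).2 hY
  set E : ℝ := 4 * max C0 0 * P ^ (-(1 / 12) : ℝ) * (1 + Real.log M) ^ 2 with hE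
  have hE0 : 0 ≤ E := by positivity
  set g : (ι → ℕ) → ℝ := fun z =>
    (if (∀ l, ¬ R l → (z l : ℝ) ≤ M) ∧ ∏ l, (z l : ℝ) ^ w l ≤ Y then
          min (Y / ∏ l, (z l : ℝ) ^ w l) (M ^ 2) else 0) with hg
  have hg0 : ∀ z, 0 ≤ g z := fun z => by
    rw [hg]
    show 0 ≤ (if (∀ l, ¬ R l → (z l : ℝ) ≤ M) ∧ ∏ l, (z l : ℝ) ^ w l ≤ Y then
          min (Y / ∏ l, (z l : ℝ) ^ w l) (M ^ 2) else 0)
    split_ifs
    · have h1 : 0 ≤ ∏ l, (z l : ℝ) ^ w l :=
        Finset.prod_nonneg fun l _ => Real.rpow_nonneg (Nat.cast_nonneg _) _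
      exact le_min (div_nonneg (by linarith) h1) (by positivity)
    · exact le_rfl
  unfold GW
  rw [gp_sum hne ⌊Y⌋₊ hN]
  refine (Finset.abs_sum_le_sum_abs _ _).trans ?_
  calc _ ≤ ∑ z ∈ (Fintype.piFinset (fun _ : ι => Finset.Icc 1 ⌊Y⌋₊)).filter
        (fun z => z i = 1 ∧ z j = 1), E * g z := by
        refine Finset.sum_le_sum fun z hz => ?_
        obtain ⟨hz1, hz2, hz3⟩ := Finset.mem_filter.1 hz
        have hz1' := Fintype.mem_piFinset.1 hz1
        exact gwp_inner w hw L R hne (fun h => hL _ _ h h) (fun h => hL _ _ h h) (hL _ _ hij) hij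
          hi hj hRi hRj hCn hC1 a P M Y ha hP hM hY haM hPi hPj z
          (fun l => (Finset.mem_Icc.1 (hz1' l)).1) hz2 hz3
    _ ≤ ∑ z ∈ Fintype.piFinset (fun _ : ι => Finset.Icc 1 ⌊Y⌋₊), E * g z := by
        refine Finset.sum_le_sum_of_subset_of_nonneg (Finset.filter_subset _ _) fun z _ _ => ?_
        exact mul_nonneg hE0 (hg0 z)
    _ = E * ∑ z ∈ Fintype.piFinset (fun _ : ι => Finset.Icc 1 ⌊Y⌋₊), g z := by
        rw [Finset.mul_sum]
    _ ≤ E * (C2 * Y * (1 + Real.log Y) ^ (Nat.card {l // R l} - 1) *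
          (1 + Real.log M) ^ (1 + Nat.card {l // ¬ R l})) :=
        mul_le_mul_of_nonneg_left (hC2 Y M hY hM) hE0
    _ = 4 * max C0 0 * C2 * Y * (1 + Real.log Y) ^ (Nat.card {l // R l} - 1) *
          P ^ (-(1 / 12) : ℝ) * (1 + Real.log M) ^ (2 + (1 + Nat.card {l // ¬ R l})) := by
        rw [hE, pow_add (1 + Real.log M) 2]
        ring

end Pool.Agent.H98.ML
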