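import Pool.Agent.H98.ML.GWBlockCore
import Pool.Agent.H98.ML.GWPair
import Pool.Agent.H98.ML.GWAn
import Pool.Agent.H98.ML.GWChar

/-!
# Project MK2 (MP_a3214d), row A7: the dyadic block of the largest non-free variable
-/

set_option autoImplicit false

open scoped BigOperators

namespace Pool.Agent.H98.ML

open Pool.Agent.H98.MK (psi jp)

open Classical in
/-- the part where the largest variable outside `R` lies in `(M, 2M]` -/
theorem GW_block {ι : Type} [Fintype ι] (w : ι → ℝ) (hw : ∀ i, 1 ≤ w i) (L : ι → ι → Prop)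
    (hL : ∀ i j, L i j → ¬ L j i) (c : ι → Fin 4) (a : ι → ℕ → ℝ) (ha : ∀ l n, |a l n| ≤ 1)
    (ha2 : ∀ l n, a l n ≠ 0 → 2 ≤ n)
    (hiso : ∀ i, w i = 1 → ∀ n, a i n = if 2 ≤ n then (psi (c i) n : ℝ) else 0) :
    ∃ C : ℝ, ∀ M Y : ℝ, 1 ≤ M → 1 ≤ Y →
      |GW w L (fun l n => if ¬ Free w L c l ∧ 2 * M < n then 0 else a l n) Y -
        GW w L (fun l n => if ¬ Free w L c l ∧ M < n then 0 else a l n) Y| ≤
      C * Y * (1 + Real.log Y) ^ (Nat.card {l // Free w L c l} - 1) *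
        (1 + Real.log M) ^ (-2 : ℝ) := by
  refine a7_block w hw L hL c a ha ha2 hiso ?_ ?_ ?_
  · intro i j hij hi hj
    exact GW_pair w hw L hL (Free w L c) (fun l hl => ⟨hl.1, hl.2.2⟩) i j hij hi hj
  · intro i hi
    exact GW_an w hw L (Free w L c) (fun l hl => hl.1) i hi
  · intro i hi hF d hd
    exact GW_char w hw L hL (Free w L c) (fun l hl => ⟨hl.1, hl.2.2⟩) i hi hF d hd

end Pool.Agent.H98.ML
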