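import Pool.Agent.H98.ML.GDefs
import Pool.Agent.H98.MK.AT1

/-!
# Project MK2 (MP_a3214d): bounded non-free variables
-/

set_option autoImplicit false

open scoped BigOperators
open Filter

namespace Pool.Agent.H98.ML

open Pool.Agent.H98.MK (psi jp NN NN_asymp)
open Pool.Agent.H98.MK.AT1aux (prod_split count_eq tendsto_rescale)

namespace GWLimAux

section split

variable {ι : Type} [Fintype ι] (w : ι → ℝ) (L : ι → ι → Prop) (R : ι → Prop) (a : ι → ℕ → ℝ)

open Classical in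
/-- the weight and the sign of the bounded variables -/
noncomputable def F (z : {i // ¬ R i} → ℕ) : ℝ :=
  (∏ j : {i // ¬ R i}, a j (z j)) *
    ((∏ i : {i // ¬ R i}, ∏ j : {i // ¬ R i},
      if L i j then jacobiSym (z i) (z j) else 1 : ℤ) : ℝ)

open Classical in
/-- the size of the bounded variables -/
noncomputable def qz (z : {i // ¬ R i} → ℕ) : ℝ := ∏ j : {i // ¬ R i}, (z j : ℝ) ^ w j

variable {w L R a}

open Classical in
theorem sign_split (hR : ∀ i, R i → w i = 1 ∧ ∀ j, ¬ L i j ∧ ¬ L j i)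
    (haR : ∀ l, R l → ∀ n, a l n = if 2 ≤ n then 1 else 0) (x : ι → ℕ) :
    (∏ i, a i (x i)) * (jp L x : ℝ) =
      (∏ i : {i // R i}, if 2 ≤ x i then (1:ℝ) else 0) * F L R a fun j => x j := by
  unfold F
  rw [← mul_assoc]
  congr 1
  · rw [prod_split R]
    congr 1
    exact Finset.prod_congr rfl fun i _ => haR i i.2 _
  · unfold jp
    congr 1
    rw [prod_split R]
    have h1 : (∏ i : {i // R i}, ∏ j, if L i j then jacobiSym (x i) (x j) else 1) = 1 :=
      Finset.prod_eq_one fun i _ => Finset.prod_eq_one fun j _ => by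
        rw [if_neg ((hR i i.2).2 j).1]
    rw [h1, one_mul]
    refine Finset.prod_congr rfl fun i _ => ?_
    rw [prod_split R]
    have h2 : (∏ j : {i // R i}, if L i j then jacobiSym (x i) (x j) else 1) = 1 :=
      Finset.prod_eq_one fun j _ => by
        rw [if_neg ((hR j j.2).2 i).2]
    rw [h2, one_mul]

open Classical in
theorem weight_split (hR : ∀ i, R i → w i = 1 ∧ ∀ j, ¬ L i j ∧ ¬ L j i) (x : ι → ℕ) :
    ∏ i, (x i : ℝ) ^ w i =
      ((∏ i : {i // R i}, x i : ℕ) : ℝ) * qz w R fun j => x j := by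
  rw [prod_split R]
  unfold qz
  push_cast
  congr 1
  refine Finset.prod_congr rfl fun i _ => ?_
  rw [(hR i i.2).1, Real.rpow_one]

theorem one_le_qz (hw : ∀ i, 1 ≤ w i) {z : {i // ¬ R i} → ℕ} (hz : ∀ j, 1 ≤ z j) :
    1 ≤ qz w R z := by
  classical
  unfold qz
  have : ∀ j ∈ (Finset.univ : Finset {i // ¬ R i}), (1:ℝ) ≤ (z j : ℝ) ^ w j := by
    intro j _
    apply Real.one_le_rpow _ (by linarith [hw j])
    exact_mod_cast hz j
  exact Finset.one_le_prod this

open Classical in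
theorem F_eq_zero {K : ℝ} (hK : ∀ l, ¬ R l → ∀ n, a l n ≠ 0 → (n : ℝ) ≤ K)
    {z : {i // ¬ R i} → ℕ} (hz : ∃ j, ⌊K⌋₊ < z j) : F L R a z = 0 := by
  obtain ⟨j, hj⟩ := hz
  have h1 : a j (z j) = 0 := by
    by_contra h
    have h2 := Nat.le_floor (hK j j.2 _ h)
    omega
  unfold F
  rw [Finset.prod_eq_zero (Finset.mem_univ j) h1, zero_mul]

open Classical in
/-- the sum as a finite sum over the bounded variables -/
theorem GW_eq {k : ℕ} (e : Fin (k + 1) ≃ {i // R i}) (hw : ∀ i, 1 ≤ w i)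
    (hR : ∀ i, R i → w i = 1 ∧ ∀ j, ¬ L i j ∧ ¬ L j i)
    (haR : ∀ l, R l → ∀ n, a l n = if 2 ≤ n then 1 else 0) {K : ℝ}
    (hK : ∀ l, ¬ R l → ∀ n, a l n ≠ 0 → (n : ℝ) ≤ K) {Y : ℝ} (hY : 1 ≤ Y) (hYK : K ≤ Y) :
    GW w L a Y = ∑ z ∈ Fintype.piFinset (fun _ : {i // ¬ R i} => Finset.Icc 1 ⌊K⌋₊),
      F L R a z * (NN (k + 1) (∏ j, z j) (Y / qz w R z) : ℝ) := by
  set E : (ι → ℕ) ≃ (Fin (k + 1) → ℕ) × ({i // ¬ R i} → ℕ) :=
    (Equiv.piEquivPiSubtypeProd R (fun _ => ℕ)).trans
      (Equiv.prodCongr (Equiv.arrowCongr e.symm (Equiv.refl ℕ)) (Equiv.refl _)) with hE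
  have hE1 : ∀ x a, (E x).1 a = x (e a) := fun x a => rfl
  have hE2 : ∀ x j, (E x).2 j = x j := fun x j => rfl
  have step : GW w L a Y = ∑ p ∈ (Fintype.piFinset (fun _ : Fin (k + 1) => Finset.Icc 1 ⌊Y⌋₊)) ×ˢ
      (Fintype.piFinset (fun _ : {i // ¬ R i} => Finset.Icc 1 ⌊Y⌋₊)),
      if Squarefree (2 * ((∏ a, p.1 a) * ∏ j, p.2 j)) ∧ ((∏ a, p.1 a : ℕ) : ℝ) * qz w R p.2 ≤ Y
      then (∏ b, if 2 ≤ p.1 b then (1:ℝ) else 0) * F L R a p.2 else 0 := by
    unfold GW
    refine Finset.sum_equiv E (fun x => ?_) fun x _ => ?_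
    · rw [Finset.mem_product, Fintype.mem_piFinset, Fintype.mem_piFinset, Fintype.mem_piFinset]
      constructor
      · intro hx
        exact ⟨fun a => hx _, fun j => hx _⟩
      · rintro ⟨h1, h2⟩ i
        by_cases hi : R i
        · have := h1 (e.symm ⟨i, hi⟩)
          rw [hE1, Equiv.apply_symm_apply] at this
          exact this
        · exact h2 ⟨i, hi⟩
    · have e1 : ∏ a, (E x).1 a = ∏ i : {i // R i}, x i := by
        simp only [hE1]
        exact Equiv.prod_comp e fun i : {i // R i} => x i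
      have e1' : (∏ b, if 2 ≤ (E x).1 b then (1:ℝ) else 0) =
          ∏ i : {i // R i}, if 2 ≤ x i then (1:ℝ) else 0 := by
        simp only [hE1]
        exact Equiv.prod_comp e fun i : {i // R i} => if 2 ≤ x i then (1:ℝ) else 0
      have e2 : ∏ j, (E x).2 j = ∏ i : {i // ¬ R i}, x i := rfl
      have e3 : (E x).2 = fun j : {i // ¬ R i} => x j := rfl
      rw [e1, e1', e2, e3, ← prod_split R x, ← weight_split hR, ← sign_split hR haR x]
  rw [step, Finset.sum_product_right]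
  have hsub : Fintype.piFinset (fun _ : {i // ¬ R i} => Finset.Icc 1 ⌊K⌋₊) ⊆
      Fintype.piFinset (fun _ : {i // ¬ R i} => Finset.Icc 1 ⌊Y⌋₊) :=
    Fintype.piFinset_subset _ _ fun _ => Finset.Icc_subset_Icc_right (Nat.floor_mono hYK)
  rw [← Finset.sum_subset hsub]
  · refine Finset.sum_congr rfl fun z hz => ?_
    rw [Fintype.mem_piFinset] at hz
    have hz1 : ∀ j, 1 ≤ z j := fun j => (Finset.mem_Icc.1 (hz j)).1
    simp only
    rw [← count_eq (one_le_qz hw hz1) hY]
    have hsub2 : Fintype.piFinset (fun _ : Fin (k + 1) => Finset.Icc 2 ⌊Y⌋₊) ⊆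
        Fintype.piFinset (fun _ : Fin (k + 1) => Finset.Icc 1 ⌊Y⌋₊) :=
      Fintype.piFinset_subset _ _ fun _ => Finset.Icc_subset_Icc_left (by norm_num)
    rw [← Finset.sum_subset hsub2]
    · rw [← Finset.sum_filter]
      have h3 : ∀ y ∈ (Fintype.piFinset (fun _ : Fin (k + 1) => Finset.Icc 2 ⌊Y⌋₊)).filter
          (fun y => Squarefree (2 * ((∏ i, y i) * ∏ j, z j)) ∧
            ((∏ i, y i : ℕ) : ℝ) * qz w R z ≤ Y),
          (∏ b, if 2 ≤ y b then (1:ℝ) else 0) * F L R a z = F L R a z := by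
        intro y hy
        have h4 := Fintype.mem_piFinset.1 (Finset.mem_filter.1 hy).1
        rw [Finset.prod_eq_one fun b _ => if_pos (Finset.mem_Icc.1 (h4 b)).1, one_mul]
      rw [Finset.sum_congr rfl h3, Finset.sum_const, nsmul_eq_mul, mul_comm]
    · intro y hy1 hy2
      have h4 := Fintype.mem_piFinset.1 hy1
      have h5 : ∃ b, ¬ 2 ≤ y b := by
        by_contra h
        push Not at h
        exact hy2 (Fintype.mem_piFinset.2 fun b => Finset.mem_Icc.2
          ⟨h b, (Finset.mem_Icc.1 (h4 b)).2⟩)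
      obtain ⟨b, hb⟩ := h5
      have h6 : (∏ b, if 2 ≤ y b then (1:ℝ) else 0) = 0 :=
        Finset.prod_eq_zero (Finset.mem_univ b) (if_neg hb)
      rw [h6, zero_mul, ite_self]
  · intro z hz1 hz2
    have h4 := Fintype.mem_piFinset.1 hz1
    have h5 : ∃ j, ⌊K⌋₊ < z j := by
      by_contra h
      push Not at h
      exact hz2 (Fintype.mem_piFinset.2 fun b => Finset.mem_Icc.2
        ⟨(Finset.mem_Icc.1 (h4 b)).1, h b⟩)
    simp only [F_eq_zero hK h5, mul_zero, ite_self, Finset.sum_const_zero]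

open Classical in
/-- the limit of a summand -/
theorem exists_lim (k : ℕ) (z : {i // ¬ R i} → ℕ) (hq : 0 < qz w R z) (c : ℝ) : ∃ C : ℝ,
    Tendsto (fun Y : ℝ => c * (NN (k + 1) (∏ j, z j) (Y / qz w R z) : ℝ) /
      (Y * Real.log Y ^ k)) atTop (nhds C) := by
  classical
  by_cases hs : Squarefree (2 * ∏ j, z j)
  · obtain ⟨C, hC, hlim⟩ := NN_asymp k (∏ j, z j) hs
    refine ⟨c * (C / qz w R z), ?_⟩
    have h3 := (tendsto_rescale (N := fun x => (NN (k + 1) (∏ j, z j) x : ℝ)) hq hlim).const_mul c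
    refine h3.congr fun Y => ?_
    rw [mul_div_assoc]
  · refine ⟨0, ?_⟩
    have h3 : ∀ x, NN (k + 1) (∏ j, z j) x = 0 := fun x => by
      unfold NN
      rw [Finset.card_eq_zero, Finset.filter_eq_empty_iff]
      intro y _ h4
      exact hs (h4.2.squarefree_of_dvd ⟨_, rfl⟩)
    simp only [h3, Nat.cast_zero, mul_zero, zero_div]
    exact tendsto_const_nhds

theorem abs_jp_le {ι : Type} [Fintype ι] (L : ι → ι → Prop) (x : ι → ℕ) : |(jp L x : ℝ)| ≤ 1 := by
  classical
  have h : |jp L x| ≤ 1 := by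
    unfold jp
    rw [Finset.abs_prod]
    refine Finset.prod_le_one (fun i _ => abs_nonneg _) fun i _ => ?_
    rw [Finset.abs_prod]
    refine Finset.prod_le_one (fun i _ => abs_nonneg _) fun j _ => ?_
    split_ifs
    · rcases jacobiSym.trichotomy (x i) (x j) with h | h | h <;> rw [h] <;> norm_num
    · norm_num
  exact_mod_cast h

end split

end GWLimAux

open GWLimAux in
/-- The sums with bounded non-free variables. -/
theorem GW_lim {ι : Type} [Fintype ι] (w : ι → ℝ) (hw : ∀ i, 1 ≤ w i) (L : ι → ι → Prop)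
    (R : ι → Prop) (hR : ∀ i, R i → w i = 1 ∧ ∀ j, ¬ L i j ∧ ¬ L j i)
    (a : ι → ℕ → ℝ) (ha : ∀ l n, |a l n| ≤ 1) (K : ℝ)
    (hK : ∀ l, ¬ R l → ∀ n, a l n ≠ 0 → (n : ℝ) ≤ K)
    (haR : ∀ l, R l → ∀ n, a l n = if 2 ≤ n then 1 else 0) :
    (∀ k, Nat.card {l // R l} = k + 1 → ∃ C : ℝ,
      Tendsto (fun Y : ℝ => GW w L a Y / (Y * Real.log Y ^ k)) atTop (nhds C)) ∧
    (Nat.card {l // R l} = 0 → Tendsto (fun Y : ℝ => GW w L a Y / Y) atTop (nhds 0)) := by
  classical
  constructor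
  · intro k hk
    have hcard : Nat.card (Fin (k + 1)) = Nat.card {i // R i} := by
      rw [hk, Nat.card_eq_fintype_card, Fintype.card_fin]
    have e : Fin (k + 1) ≃ {i // R i} := Fintype.equivOfCardEq (by
      rw [← Nat.card_eq_fintype_card, ← Nat.card_eq_fintype_card]; exact hcard)
    set S := Fintype.piFinset (fun _ : {i // ¬ R i} => Finset.Icc 1 ⌊K⌋₊) with hS
    have hlim : ∀ z ∈ S, ∃ C : ℝ, Tendsto (fun Y : ℝ => F L R a z *
        (NN (k + 1) (∏ j, z j) (Y / qz w R z) : ℝ) / (Y * Real.log Y ^ k)) atTop (nhds C) := by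
      intro z hz
      rw [hS, Fintype.mem_piFinset] at hz
      have hz1 : ∀ j, 1 ≤ z j := fun j => (Finset.mem_Icc.1 (hz j)).1
      exact exists_lim k z (by linarith [one_le_qz hw hz1]) _
    choose! C hC using hlim
    refine ⟨∑ z ∈ S, C z, (tendsto_finset_sum S fun z hz => hC z hz).congr' ?_⟩
    filter_upwards [eventually_ge_atTop (1:ℝ), eventually_ge_atTop K] with Y hY hYK
    rw [GW_eq e hw hR haR hK hY hYK, Finset.sum_div]
  · intro h0
    have hem : IsEmpty {l // R l} := by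
      rw [Nat.card_eq_fintype_card] at h0
      exact Fintype.card_eq_zero_iff.1 h0
    have hnR : ∀ l, ¬ R l := fun l hl => hem.false ⟨l, hl⟩
    set S := Fintype.piFinset (fun _ : ι => Finset.Icc 1 ⌊K⌋₊) with hS
    have hb : ∀ Y : ℝ, |GW w L a Y| ≤ (S.card : ℝ) := by
      intro Y
      unfold GW
      refine (Finset.abs_sum_le_sum_abs _ _).trans ?_
      have h1 : ∀ x ∈ Fintype.piFinset (fun _ : ι => Finset.Icc 1 ⌊Y⌋₊),
          |if Squarefree (2 * ∏ i, x i) ∧ ∏ i, (x i : ℝ) ^ w i ≤ Y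
            then (∏ i, a i (x i)) * (jp L x : ℝ) else 0| ≤ if x ∈ S then 1 else 0 := by
        intro x hx
        rw [Fintype.mem_piFinset] at hx
        by_cases hxS : x ∈ S
        · rw [if_pos hxS]
          split_ifs
          · rw [abs_mul, Finset.abs_prod]
            exact mul_le_one₀ (Finset.prod_le_one (fun i _ => abs_nonneg _) fun i _ => ha _ _)
              (abs_nonneg _) (abs_jp_le L x)
          · simp
        · rw [if_neg hxS]
          have h5 : ∃ j, ⌊K⌋₊ < x j := by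
            by_contra h
            push Not at h
            exact hxS (Fintype.mem_piFinset.2 fun b => Finset.mem_Icc.2
              ⟨(Finset.mem_Icc.1 (hx b)).1, h b⟩)
          obtain ⟨j, hj⟩ := h5
          have h6 : a j (x j) = 0 := by
            by_contra h
            have h2 := Nat.le_floor (hK j (hnR j) _ h)
            omega
          have h7 : ∏ i, a i (x i) = 0 := Finset.prod_eq_zero (Finset.mem_univ j) h6
          rw [h7, zero_mul, ite_self, abs_zero]
      refine (Finset.sum_le_sum h1).trans ?_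
      rw [← Finset.sum_filter, Finset.sum_const, nsmul_eq_mul, mul_one]
      exact_mod_cast Finset.card_le_card fun x hx => (Finset.mem_filter.1 hx).2
    have h2 : Tendsto (fun Y : ℝ => (S.card : ℝ) / Y) atTop (nhds 0) :=
      tendsto_const_nhds.div_atTop tendsto_id
    refine squeeze_zero_norm' ?_ h2
    filter_upwards [eventually_gt_atTop (0:ℝ)] with Y hY
    rw [Real.norm_eq_abs, abs_div, abs_of_pos hY]
    exact div_le_div_of_nonneg_right (hb Y) hY.le

end Pool.Agent.H98.ML
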