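import Pool.Agent.H98.ML.ATSOf
import Pool.Agent.H98.ML.GWLim
import Pool.Agent.H98.ML.GWBlock

/-!
# Project MK2, row A8: convergence of all basic sums (helper86)
-/

set_option autoImplicit false

open scoped BigOperators
open Filter

namespace Pool.Agent.H98.ML

open Pool.Agent.H98.MK (psi jp)

open Classical in
theorem ATS {ι : Type} [Fintype ι] (w : ι → ℝ) (hw : ∀ i, 1 ≤ w i) (L : ι → ι → Prop)
    (hL : ∀ i j, L i j → ¬ L j i) (c : ι → Fin 4) (a : ι → ℕ → ℝ) (ha : ∀ l n, |a l n| ≤ 1)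
    (ha2 : ∀ l n, a l n ≠ 0 → 2 ≤ n)
    (hiso : ∀ i, w i = 1 → ∀ n, a i n = if 2 ≤ n then (psi (c i) n : ℝ) else 0) :
    (∀ k, Nat.card {l // Free w L c l} = k + 1 → ∃ C : ℝ,
      Tendsto (fun Y : ℝ => GW w L a Y / (Y * Real.log Y ^ k)) atTop (nhds C)) ∧
    (Nat.card {l // Free w L c l} = 0 →
      Tendsto (fun Y : ℝ => GW w L a Y / Y) atTop (nhds 0)) :=
  ATS_of (fun w hw L R hR a ha K hK haR => GW_lim w hw L R hR a ha K hK haR)
    w hw L c a ha ha2 hiso (GW_block w hw L hL c a ha ha2 hiso)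

end Pool.Agent.H98.ML
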