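import Pool.Agent.H98.ML.Defs

/-!
# Project MK2 (MP_a3214d), row E1: class sizes and representatives modulo the annihilator
-/

set_option autoImplicit false

open scoped BigOperators

namespace Pool.Agent.H98.ML

open Pool.Agent.H98.MK (psi jp lg eps sg p8)

variable {D : Dt}

/-- the commutator map -/
private noncomputable def ccBl (v : D.V) : D.V →ₗ[ZMod 2] D.Z := D.β v + D.β.flip v

private theorem ccBl_apply (v w : D.V) : ccBl v w = D.B v w := by
  rfl

private theorem cc_conj_eq (x g : Ext D) : g * x * g⁻¹ = ⟨x.v, x.z + D.B x.v g.v⟩ := by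
  apply Ext.ext
  · simp only [Ext.mul_v, Ext.inv_v]
    calc g.v + x.v + g.v = x.v + (g.v + g.v) := by abel
      _ = x.v := by rw [Ext.two_V, add_zero]
  · simp only [Ext.mul_z, Ext.mul_v, Ext.inv_z, Ext.inv_v, Dt.B, map_add, LinearMap.add_apply]
    have h1 := Ext.two_Z g.z
    have h2 := Ext.two_Z (D.β g.v g.v)
    calc g.z + x.z + D.β g.v x.v + (g.z + D.β g.v g.v) + (D.β g.v g.v + D.β x.v g.v)
        = x.z + (D.β x.v g.v + D.β g.v x.v) + (g.z + g.z) + (D.β g.v g.v + D.β g.v g.v) := by abel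
      _ = x.z + (D.β x.v g.v + D.β g.v x.v) := by rw [h1, h2, add_zero, add_zero]

private theorem cc_isConj_iff (x y : Ext D) :
    IsConj x y ↔ x.v = y.v ∧ y.z - x.z ∈ LinearMap.range (ccBl (D := D) x.v) := by
  rw [isConj_iff]
  constructor
  · rintro ⟨c, hc⟩
    rw [cc_conj_eq] at hc
    have hv := congrArg Ext.v hc
    have hz := congrArg Ext.z hc
    simp only at hv hz
    refine ⟨hv, ⟨c.v, ?_⟩⟩
    rw [ccBl_apply, ← hz]
    abel
  · rintro ⟨hv, w, hw⟩
    refine ⟨⟨w, 0⟩, ?_⟩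
    rw [cc_conj_eq]
    apply Ext.ext
    · exact hv
    · simp only
      rw [ccBl_apply] at hw
      rw [hw]
      abel

/-- the annihilator of the annihilator, in size -/
private theorem cc_perp (s : ℕ) (W A : Submodule (ZMod 2) (Fin s → ZMod 2))
    (hA : ∀ x, x ∈ A ↔ ∀ y ∈ W, x ⬝ᵥ y = 0) :
    Nat.card ((Fin s → ZMod 2) ⧸ A) = Nat.card W := by
  have e1 : A ≃ₗ[ZMod 2] W.dualAnnihilator :=
    (dotProductEquiv (ZMod 2) (Fin s)).submoduleMap A |>.trans
      (LinearEquiv.ofEq _ _ (by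
        ext φ
        rw [Submodule.mem_map, Submodule.mem_dualAnnihilator]
        constructor
        · rintro ⟨x, hx, rfl⟩ y hy
          exact (hA x).1 hx y hy
        · intro h
          refine ⟨(dotProductEquiv (ZMod 2) (Fin s)).symm φ, ?_, by simp⟩
          rw [hA]
          intro y hy
          have h1 := h y hy
          conv_lhs at h1 => rw [← (dotProductEquiv (ZMod 2) (Fin s)).apply_symm_apply φ]
          exact h1))
  have e2 := W.dualQuotEquivDualAnnihilator
  have h1 := e1.finrank_eq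
  have h2 := e2.finrank_eq
  rw [Subspace.dual_finrank_eq] at h2
  have h3 := Submodule.finrank_quotient_add_finrank A
  have h4 := Submodule.finrank_quotient_add_finrank W
  have h5 : Module.finrank (ZMod 2) ((Fin s → ZMod 2) ⧸ A) = Module.finrank (ZMod 2) W := by
    omega
  rw [Module.natCard_eq_pow_finrank (K := ZMod 2), h5,
    ← Module.natCard_eq_pow_finrank (K := ZMod 2)]

private theorem cc_mk_zrep (v : D.V) (ζ : D.Z) :
    (Submodule.Quotient.mk (D.zrep v ζ) : D.Z ⧸ D.Av v) = Submodule.Quotient.mk ζ :=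
  Quotient.out_eq' _

private theorem cc_zrep_congr {v : D.V} {ζ η : D.Z}
    (h : (Submodule.Quotient.mk ζ : D.Z ⧸ D.Av v) = Submodule.Quotient.mk η) :
    D.zrep v ζ = D.zrep v η := by
  unfold Dt.zrep
  rw [h]

private theorem cc_card_rep (v : D.V) :
    Nat.card {ζ : D.Z // D.zrep v ζ = ζ} = Nat.card (D.Z ⧸ D.Av v) := by
  refine Nat.card_congr (Equiv.ofBijective (fun ζ => Submodule.Quotient.mk ζ.1) ⟨?_, ?_⟩)
  · rintro ⟨ζ, hζ⟩ ⟨η, hη⟩ h
    apply Subtype.ext
    simp only at h ⊢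
    rw [← hζ, ← hη]
    exact cc_zrep_congr h
  · intro c
    obtain ⟨ζ, rfl⟩ := Submodule.Quotient.mk_surjective _ c
    exact ⟨⟨D.zrep v ζ, cc_zrep_congr (cc_mk_zrep v ζ)⟩, cc_mk_zrep v ζ⟩

theorem card_conj (D : Dt) (g : Ext D) :
    Nat.card {h : Ext D // IsConj g h} = Nat.card {ζ : D.Z // D.zrep g.v ζ = ζ} := by
  rw [cc_card_rep, cc_perp D.s (LinearMap.range (ccBl (D := D) g.v)) (D.Av g.v) (fun x => ?_)]
  · refine Nat.card_congr
      { toFun := fun h => ⟨h.1.z - g.z, ((cc_isConj_iff g h.1).1 h.2).2⟩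
        invFun := fun y => ⟨⟨g.v, g.z + y.1⟩, (cc_isConj_iff g _).2 ⟨rfl, by
          have : g.z + y.1 - g.z = y.1 := by abel
          simp only [this]
          exact y.2⟩⟩
        left_inv := ?_
        right_inv := ?_ }
    · rintro ⟨h, hh⟩
      apply Subtype.ext
      apply Ext.ext
      · exact ((cc_isConj_iff g h).1 hh).1
      · simp
    · rintro ⟨y, hy⟩
      apply Subtype.ext
      simp
  · constructor
    · rintro h y ⟨w, rfl⟩
      exact h w
    · intro h w
      exact h _ ⟨w, rfl⟩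

private theorem cc_sg_add (x : ZMod 2) : sg x + sg (x + 1) = 0 := by
  revert x
  decide

open Classical in
theorem sum_zrep (D : Dt) (v w : D.V) :
    ∑ ζ ∈ Finset.univ.filter (fun ζ : D.Z => D.zrep v ζ = ζ), sg (ζ ⬝ᵥ D.B v w) =
      if D.B v w = 0 then (Nat.card {ζ : D.Z // D.zrep v ζ = ζ} : ℤ) else 0 := by
  split_ifs with h
  · have h1 : ∀ ζ ∈ Finset.univ.filter (fun ζ : D.Z => D.zrep v ζ = ζ),
        sg (ζ ⬝ᵥ D.B v w) = 1 := by
      intro ζ _
      rw [h, dotProduct_zero]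
      rfl
    rw [Finset.sum_congr rfl h1, Finset.sum_const, nsmul_eq_mul, mul_one,
      Nat.card_eq_fintype_card, Fintype.card_subtype]
  · obtain ⟨η, hη⟩ : ∃ η : D.Z, η ⬝ᵥ D.B v w = 1 := by
      by_contra hne
      apply h
      funext i
      have h1 : (Pi.single i 1 : D.Z) ⬝ᵥ D.B v w = D.B v w i := by
        rw [single_dotProduct, one_mul]
      have h2 : ∀ x : ZMod 2, x ≠ 1 → x = 0 := by decide
      exact h2 _ fun h3 => hne ⟨_, h1.trans h3⟩
    have key : ∀ ζ : D.Z, D.zrep v ζ ⬝ᵥ D.B v w = ζ ⬝ᵥ D.B v w := by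
      intro ζ
      have h1 := (Submodule.Quotient.eq (D.Av v)).1 (cc_mk_zrep v ζ)
      have h2 : (D.zrep v ζ - ζ) ⬝ᵥ D.B v w = 0 := h1 w
      rw [sub_dotProduct] at h2
      exact sub_eq_zero.1 h2
    have hval : ∀ ζ : D.Z, D.zrep v (ζ + η) ⬝ᵥ D.B v w = ζ ⬝ᵥ D.B v w + 1 := by
      intro ζ
      rw [key, add_dotProduct, hη]
    refine Finset.sum_involution (fun ζ _ => D.zrep v (ζ + η)) ?_ ?_ ?_ ?_
    · intro ζ _
      rw [hval]
      exact cc_sg_add _
    · intro ζ _ _ h2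
      have h3 := hval ζ
      rw [h2] at h3
      have h4 : ∀ x : ZMod 2, x ≠ x + 1 := by decide
      exact h4 _ h3
    · intro ζ _
      rw [Finset.mem_filter]
      exact ⟨Finset.mem_univ _, cc_zrep_congr (cc_mk_zrep v _)⟩
    · intro ζ hζ
      have h1 := (Finset.mem_filter.1 hζ).2
      have h2 : (Submodule.Quotient.mk (D.zrep v (ζ + η) + η) : D.Z ⧸ D.Av v) =
          Submodule.Quotient.mk ζ := by
        rw [Submodule.Quotient.mk_add, cc_mk_zrep, ← Submodule.Quotient.mk_add, add_assoc,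
          Ext.two_Z, add_zero]
      show D.zrep v (D.zrep v (ζ + η) + η) = ζ
      rw [cc_zrep_congr h2, h1]

theorem b_pos2 {D : Dt} (w : Wt D) : 1 ≤ w.b := by
  obtain ⟨g, hg, hm⟩ := w.att
  have : Nonempty {c : ConjClasses (Ext D) // ∃ g : Ext D, ConjClasses.mk g = c ∧ g ≠ 1 ∧
      w.ind g = w.m} := ⟨⟨ConjClasses.mk g, g, rfl, hg, hm⟩⟩
  have : Finite (ConjClasses (Ext D)) := inferInstance
  exact Nat.card_pos

end Pool.Agent.H98.ML
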