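import Pool.Agent.H98.ML.Defs

/-!
# Project MK2, row E7: the analytic theorem from the basic sums
-/

set_option autoImplicit false

open scoped BigOperators
open Filter

namespace Pool.Agent.H98.ML

open Pool.Agent.H98.MK (psi jp lg eps sg p8)

/-- Row E5. -/
def MtExp {D : Dt} (w : Wt D) (θ : D.V → D.V → (D.V → ZMod 8) → Finset D.V → ℝ) : Prop :=
  ∀ Y : ℝ, 1 ≤ Y → S w θ Y = ∑ a : D.V, ∑ b : D.V, ∑ σ ∈ w.act.powerset,
      ∑ c ∈ D.C4 σ, D.coef θ a b σ c * w.TSσ σ c Y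

/-- Row E6. -/
def MtR {D : Dt} (w : Wt D) (θ : D.V → D.V → (D.V → ZMod 8) → Finset D.V → ℝ) : Prop :=
  ∀ (a b : D.V) (σ : Finset D.P), σ ⊆ w.act → ∀ c : D.P → Fin 4, D.coef θ a b σ c ≠ 0 →
    D.Span a b (D.supV σ) → (w.R σ c).card ≤ w.b

/-- Row A8. -/
def MtATS : Prop := ∀ (ι : Type) [Fintype ι] (w : ι → ℝ), (∀ i, 1 ≤ w i) → ∀ (L : ι → ι → Prop),
    (∀ i j, L i j → ¬ L j i) → ∀ (c : ι → Fin 4) (a : ι → ℕ → ℝ), (∀ l n, |a l n| ≤ 1) →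
    (∀ l n, a l n ≠ 0 → 2 ≤ n) →
    (∀ i, w i = 1 → ∀ n, a i n = if 2 ≤ n then (psi (c i) n : ℝ) else 0) →
    (∀ k, Nat.card {l // Free w L c l} = k + 1 → ∃ C : ℝ,
      Tendsto (fun Y : ℝ => GW w L a Y / (Y * Real.log Y ^ k)) atTop (nhds C)) ∧
    (Nat.card {l // Free w L c l} = 0 →
      Tendsto (fun Y : ℝ => GW w L a Y / Y) atTop (nhds 0))

theorem mt_zmod (x y : ZMod 2) : (¬ (x = 1 ∧ y = 0) ∧ ¬ (y = 1 ∧ x = 0)) ↔ x = y := by
  revert x y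
  decide

/-- A nonzero coefficient forces a nonzero weight. -/
theorem mt_coef (D : Dt) (θ : D.V → D.V → (D.V → ZMod 8) → Finset D.V → ℝ) (a b : D.V)
    (σ : Finset D.P) (c : D.P → Fin 4) (h : D.coef θ a b σ c ≠ 0) :
    ∃ δ, θ a b δ (D.supV σ) ≠ 0 := by
  by_contra hne
  push Not at hne
  apply h
  rw [Dt.coef, Finset.sum_eq_zero, mul_zero]
  intro u _
  rw [Dt.Psi, hne, mul_zero, zero_mul]

theorem mt_wt {D : Dt} (w : Wt D) {g : Ext D} (hg : g ≠ 1) : w.wt g = 1 ↔ w.ind g = w.m := by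
  have hm : (0 : ℝ) < w.m := by exact_mod_cast w.pos
  rw [Wt.wt, if_neg hg, div_eq_one_iff_eq hm.ne']
  exact Nat.cast_inj

theorem mt_one_le {D : Dt} (w : Wt D) (g : Ext D) : 1 ≤ w.wt g := by
  have hm : (0 : ℝ) < w.m := by exact_mod_cast w.pos
  rw [Wt.wt]
  split_ifs with hg
  · exact le_rfl
  · rw [one_le_div hm]
    exact_mod_cast w.min g hg

theorem mt_ne_one {D : Dt} (w : Wt D) {i : D.P} (hi : i ∈ w.act) : i.1 ≠ 1 := by
  classical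
  rw [Wt.act, Finset.mem_filter] at hi
  exact hi.2.1

theorem mt_cardR {D : Dt} (w : Wt D) (σ : Finset D.P) (hσ : σ ⊆ w.act) (c : D.P → Fin 4) :
    Nat.card {i : {i // i ∈ σ} // Free (fun i : {i // i ∈ σ} => w.wt i.1.1)
      (fun i j => D.L i.1 j.1) (fun i => c i.1) i} = (w.R σ c).card := by
  classical
  have hcard : Nat.card {i // i ∈ w.R σ c} = (w.R σ c).card := by
    rw [Nat.card_eq_fintype_card, Fintype.card_coe]
  rw [← hcard]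
  refine Nat.card_congr ⟨fun i => ⟨i.1.1, ?_⟩, fun i => ⟨⟨i.1, ?_⟩, ?_⟩, fun i => rfl,
    fun i => rfl⟩
  · obtain ⟨⟨i, hi⟩, h1, h2, h3⟩ := i
    rw [Wt.R, Finset.mem_filter]
    refine ⟨hi, (mt_wt w (mt_ne_one w (hσ hi))).1 h1, h2, fun j hj => ?_⟩
    exact (mt_zmod _ _).1 (h3 ⟨j, hj⟩)
  · exact (Finset.mem_filter.1 i.2).1
  · obtain ⟨i, hi⟩ := i
    have h0 := (Finset.mem_filter.1 hi).1
    have h := (Finset.mem_filter.1 hi).2
    refine ⟨(mt_wt w (mt_ne_one w (hσ h0))).2 h.1, h.2.1, fun j => ?_⟩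
    exact (mt_zmod _ _).2 (h.2.2 j.1 j.2)

theorem mt_log (f : ℝ → ℝ) (C : ℝ) (k K : ℕ) (hk : k ≤ K)
    (hf : Tendsto (fun Y : ℝ => f Y / (Y * Real.log Y ^ k)) atTop (nhds C)) :
    ∃ C' : ℝ, Tendsto (fun Y : ℝ => f Y / (Y * Real.log Y ^ K)) atTop (nhds C') := by
  obtain ⟨d, rfl⟩ := Nat.exists_eq_add_of_le hk
  have h1 : ∃ C1 : ℝ, Tendsto (fun Y : ℝ => (Real.log Y ^ d)⁻¹) atTop (nhds C1) := by
    rcases Nat.eq_zero_or_pos d with rfl | hd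
    · exact ⟨1, by simp⟩
    · exact ⟨0, ((tendsto_pow_atTop hd.ne').comp Real.tendsto_log_atTop).inv_tendsto_atTop⟩
  obtain ⟨C1, hC1⟩ := h1
  refine ⟨C * C1, (hf.mul hC1).congr fun Y => ?_⟩
  rw [pow_add, div_eq_mul_inv, div_eq_mul_inv, mul_inv, mul_inv, mul_inv]
  ring

theorem mt_jac (a : ℤ) (n : ℕ) : |((jacobiSym a n : ℤ) : ℝ)| ≤ 1 := by
  rcases jacobiSym.trichotomy a n with h | h | h <;> rw [h] <;> norm_num

theorem mt_psi (x : Fin 4) (n : ℕ) : |((psi x n : ℤ) : ℝ)| ≤ 1 := by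
  unfold psi
  split_ifs
  · norm_num
  · exact mt_jac _ _
  · exact mt_jac _ _
  · exact mt_jac _ _

theorem mt_kap {D : Dt} (w : Wt D) (i : D.P) (n : ℕ) : |w.kap i n| ≤ 1 := by
  unfold Wt.kap
  split_ifs
  · norm_num
  · rw [abs_of_nonneg (by positivity)]
    apply pow_le_one₀ (by positivity)
    rw [div_le_one (by positivity)]
    exact one_le_pow₀ (by norm_num)

theorem mt_aw {D : Dt} (w : Wt D) (c : D.P → Fin 4) (i : D.P) (n : ℕ) : |w.aw c i n| ≤ 1 := by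
  unfold Wt.aw
  split_ifs
  · rw [abs_mul]
    exact mul_le_one₀ (mt_psi _ _) (abs_nonneg _) (mt_kap w i n)
  · norm_num

/-- The limit of one term. -/
theorem mt_term (h1 : MtATS) {D : Dt} (w : Wt D)
    (θ : D.V → D.V → (D.V → ZMod 8) → Finset D.V → ℝ) (hR : MtR w θ) (hb : 1 ≤ w.b)
    (hθ : ∀ a b δ Q, θ a b δ Q ≠ 0 → D.Span a b Q) (a b : D.V) (σ : Finset D.P)
    (hσ : σ ⊆ w.act) (c : D.P → Fin 4) :
    ∃ C : ℝ, Tendsto (fun Y : ℝ => D.coef θ a b σ c * w.TSσ σ c Y /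
      (Y * Real.log Y ^ (w.b - 1))) atTop (nhds C) := by
  by_cases hc : D.coef θ a b σ c = 0
  · refine ⟨0, ?_⟩
    simp only [hc, zero_mul, zero_div]
    exact tendsto_const_nhds
  obtain ⟨δ, hδ⟩ := mt_coef D θ a b σ c hc
  have hle := hR a b σ hσ c hc (hθ a b δ _ hδ)
  have hA := h1 {i // i ∈ σ} (fun i => w.wt i.1.1) (fun i => mt_one_le w _)
    (fun i j => D.L i.1 j.1) (fun i j hij hji => by
        have h3 := hij.2.symm.trans hji.1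
        exact absurd h3 (by decide)) (fun i => c i.1) (fun i n => w.aw c i.1 n)
    (fun i n => mt_aw w c i.1 n)
    (fun i n hn => by
      by_contra h2
      apply hn
      rw [Wt.aw, if_neg h2])
    (fun i hi n => by
      have h2 : w.ind i.1.1 = w.m := (mt_wt w (mt_ne_one w (hσ i.2))).1 hi
      rw [Wt.aw, Wt.kap, if_pos h2, mul_one])
  rw [mt_cardR w σ hσ c] at hA
  suffices h : ∃ C : ℝ, Tendsto (fun Y : ℝ => w.TSσ σ c Y /
      (Y * Real.log Y ^ (w.b - 1))) atTop (nhds C) by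
    obtain ⟨C, hC⟩ := h
    refine ⟨D.coef θ a b σ c * C, (hC.const_mul _).congr fun Y => ?_⟩
    rw [mul_div_assoc]
  rcases Nat.eq_zero_or_pos (w.R σ c).card with h0 | h0
  · have h2 := hA.2 h0
    apply mt_log (w.TSσ σ c) 0 0 (w.b - 1) (Nat.zero_le _)
    simp only [pow_zero, mul_one]
    exact h2
  · obtain ⟨k, hk⟩ := Nat.exists_eq_succ_of_ne_zero h0.ne'
    obtain ⟨C, hC⟩ := hA.1 k hk
    exact mt_log (w.TSσ σ c) C k (w.b - 1) (by omega) hC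

theorem main_an2_of (h1 : MtATS) {D : Dt} (w : Wt D)
    (θ : D.V → D.V → (D.V → ZMod 8) → Finset D.V → ℝ) (hE : MtExp w θ) (hR : MtR w θ)
    (hb : 1 ≤ w.b) (hθ : ∀ a b δ Q, θ a b δ Q ≠ 0 → D.Span a b Q) :
    ∃ C : ℝ, Tendsto (fun Y : ℝ => S w θ Y / (Y * Real.log Y ^ (w.b - 1))) atTop (nhds C) := by
  have hT : ∀ (a b : D.V) (σ : Finset D.P) (c : D.P → Fin 4), ∃ C : ℝ, σ ⊆ w.act →
      Tendsto (fun Y : ℝ => D.coef θ a b σ c * w.TSσ σ c Y /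
        (Y * Real.log Y ^ (w.b - 1))) atTop (nhds C) := by
    intro a b σ c
    by_cases hσ : σ ⊆ w.act
    · obtain ⟨C, hC⟩ := mt_term h1 w θ hR hb hθ a b σ hσ c
      exact ⟨C, fun _ => hC⟩
    · exact ⟨0, fun h => absurd h hσ⟩
  choose C hC using hT
  refine ⟨∑ a : D.V, ∑ b : D.V, ∑ σ ∈ w.act.powerset, ∑ c ∈ D.C4 σ, C a b σ c, ?_⟩
  have hlim : Tendsto (fun Y : ℝ => ∑ a : D.V, ∑ b : D.V, ∑ σ ∈ w.act.powerset,
      ∑ c ∈ D.C4 σ, D.coef θ a b σ c * w.TSσ σ c Y / (Y * Real.log Y ^ (w.b - 1))) atTop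
      (nhds (∑ a : D.V, ∑ b : D.V, ∑ σ ∈ w.act.powerset, ∑ c ∈ D.C4 σ, C a b σ c)) := by
    refine tendsto_finsetSum _ fun a _ => tendsto_finsetSum _ fun b _ =>
      tendsto_finsetSum _ fun σ hσ => tendsto_finsetSum _ fun c _ => ?_
    exact hC a b σ c (Finset.mem_powerset.1 hσ)
  refine hlim.congr' ?_
  filter_upwards [eventually_ge_atTop (1 : ℝ)] with Y hY
  rw [hE Y hY]
  simp only [Finset.sum_div]

end Pool.Agent.H98.ML
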