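import Pool.Agent.H98.ML.FXSmallB
import Pool.Agent.H98.ML.MainAn2Of
import Pool.Agent.H98.ML.CardConj
import Pool.Agent.H98.ML.ATS

/-!
# Project MK2 (MP_a3214d), row P4: supports without main term
-/

set_option autoImplicit false

open scoped BigOperators
open Filter

namespace Pool.Agent.H98.ML

open Pool.Agent.H98.MK (psi jp lg eps sg p8)

variable {D : Dt}

theorem fs_actM {w : Wt D} {σ : Finset D.P} (hσ : σ ⊆ w.actM) {i : D.P} (hi : i ∈ σ) :
    i.1 ≠ 1 ∧ w.ind i.1 = w.m ∧ D.crep i.1 = i.1 ∧ D.zrep i.1.v i.2 = i.2 := by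
  classical
  have h1 := hσ hi
  unfold Wt.actM at h1
  rw [Finset.mem_filter] at h1
  have h2 := h1.1
  unfold Wt.act at h2
  rw [Finset.mem_filter] at h2
  exact ⟨h2.2.1, h1.2, h2.2.2 h1.2⟩

theorem fs_q (w : Wt D) {g : Ext D} (h : w.ind g = w.m) : D.q g.v = 0 := by
  have h1 : g * g = 1 := by
    by_contra h2
    have := w.sqr g h2
    omega
  have h2 : (g * g).z = 0 := by rw [h1]; rfl
  rw [Ext.mul_z, Ext.two_Z, zero_add] at h2
  exact h2

theorem fs_conj_v {x y : Ext D} (h : IsConj x y) : x.v = y.v := by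
  rw [isConj_iff] at h
  obtain ⟨c, hc⟩ := h
  rw [← hc]
  simp only [Ext.mul_v, Ext.inv_v]
  calc x.v = x.v + (c.v + c.v) := by rw [Ext.two_V, add_zero]
    _ = c.v + x.v + c.v := by abel

theorem fs_J (π : Pr D) (x : D.P → ℕ) (h : Squarefree (2 * (∏ k, π.p k) * ∏ i, x i)) (i : D.P)
    (k : Fin D.r) : jacobiSym (x i) (π.p k) = 1 ∨ jacobiSym (x i) (π.p k) = -1 := by
  refine jacobiSym.eq_one_or_neg_one ?_
  have h1 : π.p k * x i ∣ 2 * (∏ k, π.p k) * ∏ i, x i := by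
    refine Nat.mul_dvd_mul ((Finset.dvd_prod_of_mem π.p (Finset.mem_univ k)).mul_left 2)
      (Finset.dvd_prod_of_mem x (Finset.mem_univ i))
  have h2 := Nat.coprime_of_squarefree_mul (h.squarefree_of_dvd h1)
  rw [Int.gcd_natCast_natCast]
  exact h2.symm

open Classical in
theorem fs_term {w : Wt D} (π : Pr D) (σ : Finset D.P) (hσ : σ ⊆ w.actM) (x : D.P → ℕ)
    (hx : ∀ i, x i ≠ 1 ↔ i ∈ σ) (h : Squarefree (2 * (∏ k, π.p k) * ∏ i, x i)) :
    (if Cnd π (D.mof x) then (Wt.sgF π x : ℝ) else 0) =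
      ∑ c ∈ D.C4 σ, ∑ T : Finset (D.V × Fin D.r),
        (D.coef (fsTh D) 0 0 σ c * (1 / 2 : ℝ) ^ (Fintype.card (D.V × Fin D.r))) *
        ((((∏ i ∈ σ, p8 (c i) (x i : ZMod 8) : ℤ) : ℝ) * (jp D.L x : ℝ)) *
        ((∏ i : D.P, ∏ k, if fsK T i k then jacobiSym (x i) (π.p k) else 1 : ℤ) : ℝ)) := by
  have hsq : Squarefree (2 * ∏ i, x i) :=
    h.squarefree_of_dvd (Nat.mul_dvd_mul (Dvd.intro _ rfl) dvd_rfl)
  have h1 := fs_mod σ (fun i hi => fs_q w (fs_actM hσ hi).2.1) x hx hsq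
  have h2 := fs_res π x (fs_J π x h)
  have h3 : (if Cnd π (D.mof x) then (Wt.sgF π x : ℝ) else 0) =
      (((∏ i, ∏ j, if D.e i j = 1 then jacobiSym (x i) (x j) else 1 : ℤ) : ℝ) *
      (if ∀ v, (D.mof x v : ZMod 8) = 1 then 1 else 0)) *
      ((if ∀ (v : D.V) (k : Fin D.r), jacobiSym (D.mof x v) (π.p k) = 1 then (1 : ℝ) else 0) *
      ((∏ i : D.P, sg (i.2 ⬝ᵥ D.B i.1.v (frob π (x i))) : ℤ) : ℝ)) := by
    by_cases ha : ∀ v, (D.mof x v : ZMod 8) = 1
    · by_cases hb : ∀ (v : D.V) (k : Fin D.r), jacobiSym (D.mof x v) (π.p k) = 1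
      · rw [if_pos (show Cnd π (D.mof x) from fun v => ⟨ha v, hb v⟩), if_pos ha, if_pos hb]
        unfold Wt.sgF
        rw [Int.cast_mul]
        ring
      · rw [if_neg (fun h : Cnd π (D.mof x) => hb fun v => (h v).2), if_neg hb]
        ring
    · rw [if_neg (fun h : Cnd π (D.mof x) => ha fun v => (h v).1), if_neg ha]
      ring
  rw [h3, h1, h2, Finset.sum_mul_sum]
  refine Finset.sum_congr rfl fun c _ => Finset.sum_congr rfl fun T _ => ?_
  ring

open Classical in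
theorem fs_expand {w : Wt D} (π : Pr D) (σ : Finset D.P) (hσ : σ ⊆ w.actM) (Y : ℝ) :
    Wt.FX π σ Y = ∑ c ∈ D.C4 σ, ∑ T : Finset (D.V × Fin D.r),
      (D.coef (fsTh D) 0 0 σ c * (1 / 2 : ℝ) ^ (Fintype.card (D.V × Fin D.r))) *
        GW (fsW σ) (fsL σ T) (fsA π σ c) (Y * ∏ k, (π.p k : ℝ) ^ 2) := by
  unfold Wt.FX
  simp only [← fs_GW π σ _ _ Y]
  simp only [Finset.mul_sum]
  rw [Finset.sum_congr rfl fun c _ => Finset.sum_comm, Finset.sum_comm]
  refine Finset.sum_congr rfl fun x hx => ?_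
  have hx' : ∀ i, x i ≠ 1 ↔ i ∈ σ := by
    intro i
    have h1 := (fs_mem _ _ _).1 hx i
    by_cases hi : i ∈ σ
    · rw [if_pos hi, Finset.mem_Icc] at h1
      exact ⟨fun _ => hi, fun _ => by omega⟩
    · rw [if_neg hi, Finset.mem_singleton] at h1
      exact ⟨fun h2 => absurd h1 h2, fun h2 => absurd h2 hi⟩
  by_cases hc : Squarefree (2 * (∏ k, π.p k) * ∏ i, x i) ∧ (∏ i, (x i : ℝ)) ≤ Y
  · have h1 := fs_term π σ hσ x hx' hc.1
    by_cases hd : Cnd π (D.mof x)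
    · rw [if_pos ⟨hc.1, hc.2, hd⟩]
      rw [if_pos hd] at h1
      rw [h1]
      refine Finset.sum_congr rfl fun c _ => Finset.sum_congr rfl fun T _ => ?_
      rw [if_pos hc]
    · rw [if_neg (fun h => hd h.2.2)]
      rw [if_neg hd] at h1
      rw [h1]
      refine Finset.sum_congr rfl fun c _ => Finset.sum_congr rfl fun T _ => ?_
      rw [if_pos hc]
  · rw [if_neg (fun h => hc ⟨h.1, h.2.1⟩)]
    symm
    refine Finset.sum_eq_zero fun c _ => Finset.sum_eq_zero fun T _ => ?_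
    rw [if_neg hc, mul_zero]

/-! ### free indices -/

/-- the characters of the extended sums -/
def fsC (σ : Finset D.P) (c : D.P → Fin 4) : {i // i ∈ σ} ⊕ Fin D.r → Fin 4 :=
  Sum.elim (fun i => c i.1) (fun _ => 0)

/-- two free indices over the same vector -/
theorem fs_same {w : Wt D} {σ : Finset D.P} (hσ : σ ⊆ w.actM) {T : Finset (D.V × Fin D.r)}
    {i j : D.P} (hi : i ∈ σ) (hj : j ∈ σ) (h1 : ∀ k, ¬ fsK T i k) (h2 : ∀ k, ¬ fsK T j k)
    (hv : i.1.v = j.1.v) : i.2 = j.2 := by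
  have h3 : ∀ k, i.2 ⬝ᵥ D.B i.1.v (Pi.single k 1) = j.2 ⬝ᵥ D.B i.1.v (Pi.single k 1) := by
    intro k
    have a1 := h1 k
    have a2 := h2 k
    unfold fsK at a1 a2
    rw [not_not] at a1 a2
    rw [← hv] at a2
    have a3 := a1.symm.trans a2
    have a4 : ∀ x y : ZMod 2, (x = 1 ↔ y = 1) → x = y := by decide
    exact a4 _ _ a3
  have h4 : ∀ κ : D.V, (i.2 - j.2) ⬝ᵥ D.B i.1.v κ = 0 := by
    intro κ
    rw [fs_B_sum, dotProduct_sum]
    refine Finset.sum_eq_zero fun k _ => ?_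
    rw [dotProduct_smul, sub_dotProduct, h3 k, sub_self, smul_zero]
  have h5 : (Submodule.Quotient.mk i.2 : D.Z ⧸ D.Av i.1.v) = Submodule.Quotient.mk j.2 :=
    (Submodule.Quotient.eq (D.Av i.1.v)).2 h4
  have h6 : D.zrep i.1.v i.2 = D.zrep i.1.v j.2 := by
    unfold Dt.zrep
    rw [h5]
  rw [(fs_actM hσ hi).2.2.2] at h6
  rw [h6, hv]
  exact (fs_actM hσ hj).2.2.2

theorem fs_card {w : Wt D} (σ : Finset D.P) (hσ : σ ⊆ w.actM) (hS : ¬ w.Sb σ)
    (T : Finset (D.V × Fin D.r)) (c : D.P → Fin 4) :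
    Nat.card {i // Free (fsW σ) (fsL σ T) (fsC σ c) i} < w.b := by
  classical
  have hQ : ∀ j : {i // i ∈ σ}, Free (fsW σ) (fsL σ T) (fsC σ c) (Sum.inl j) →
      (∀ i ∈ σ, D.e j.1 i = D.e i j.1) ∧ ∀ k, ¬ fsK T j.1 k := by
    intro j h
    refine ⟨fun i hi => ?_, fun k => (h.2.2 (Sum.inr k)).1⟩
    exact (mt_zmod _ _).1 (h.2.2 (Sum.inl ⟨i, hi⟩))
  have hle : Nat.card {i // Free (fsW σ) (fsL σ T) (fsC σ c) i} ≤
      Nat.card {j : {i // i ∈ σ} // Free (fsW σ) (fsL σ T) (fsC σ c) (Sum.inl j)} := by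
    refine Nat.card_le_card_of_surjective (fun j => ⟨Sum.inl j.1, j.2⟩) ?_
    rintro ⟨i | k, h⟩
    · exact ⟨⟨i, h⟩, rfl⟩
    · exfalso
      have h1 : (2 : ℝ) = 1 := h.1
      norm_num at h1
  refine lt_of_le_of_lt hle ?_
  by_contra hlt
  rw [not_lt] at hlt
  let φ : {j : {i // i ∈ σ} // Free (fsW σ) (fsL σ T) (fsC σ c) (Sum.inl j)} →
      {c : ConjClasses (Ext D) // ∃ g : Ext D, ConjClasses.mk g = c ∧ g ≠ 1 ∧ w.ind g = w.m} :=
    fun j => ⟨ConjClasses.mk j.1.1.1, j.1.1.1, rfl, (fs_actM hσ j.1.2).1,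
      (fs_actM hσ j.1.2).2.1⟩
  have hφ : Function.Injective φ := by
    intro j j' h
    have h1 : ConjClasses.mk j.1.1.1 = ConjClasses.mk j'.1.1.1 := congrArg Subtype.val h
    have h2 : j.1.1.1 = j'.1.1.1 := by
      rw [← (fs_actM hσ j.1.2).2.2.1, ← (fs_actM hσ j'.1.2).2.2.1]
      unfold Dt.crep
      rw [h1]
    have h3 : j.1.1.2 = j'.1.1.2 := fs_same hσ j.1.2 j'.1.2 (hQ _ j.2).2 (hQ _ j'.2).2
      (by rw [h2])
    exact Subtype.ext (Subtype.ext (Prod.ext h2 h3))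
  have hb : Function.Bijective φ := hφ.bijective_of_nat_card_le hlt
  apply hS
  have hex : ∀ g : Ext D, w.IsM g → ∃ j : {j : {i // i ∈ σ} //
      Free (fsW σ) (fsL σ T) (fsC σ c) (Sum.inl j)}, D.crep g = j.1.1.1 ∧ j.1.1.1.v = g.v := by
    intro g hg
    obtain ⟨j, hj⟩ := hb.2 ⟨ConjClasses.mk g, g, rfl, hg.1, hg.2⟩
    have h1 : ConjClasses.mk j.1.1.1 = ConjClasses.mk g := congrArg Subtype.val hj
    refine ⟨j, ?_, fs_conj_v (ConjClasses.mk_eq_mk_iff_isConj.1 h1)⟩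
    rw [← (fs_actM hσ j.1.2).2.2.1]
    unfold Dt.crep
    rw [h1]
  let ζ : D.V → D.Z := fun v => if h : ∃ j : {j : {i // i ∈ σ} //
      Free (fsW σ) (fsL σ T) (fsC σ c) (Sum.inl j)}, j.1.1.1.v = v then h.choose.1.1.2 else 0
  have hζ : ∀ j : {j : {i // i ∈ σ} // Free (fsW σ) (fsL σ T) (fsC σ c) (Sum.inl j)},
      ζ j.1.1.1.v = j.1.1.2 := by
    intro j
    have h : ∃ j' : {j : {i // i ∈ σ} //
      Free (fsW σ) (fsL σ T) (fsC σ c) (Sum.inl j)}, j'.1.1.1.v = j.1.1.1.v := ⟨j, rfl⟩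
    have h1 : ζ j.1.1.1.v = h.choose.1.1.2 := dif_pos h
    rw [h1]
    exact fs_same hσ h.choose.1.2 j.1.2 (hQ _ h.choose.2).2 (hQ _ j.2).2 h.choose_spec
  have hCmp : w.Cmp ζ := by
    intro g g' hg hg'
    obtain ⟨j, -, hj⟩ := hex g hg
    obtain ⟨j', -, hj'⟩ := hex g' hg'
    rw [← hj, ← hj', hζ, hζ]
    exact (hQ _ j.2).1 _ j'.1.2
  refine ⟨ζ, hCmp, ?_, ?_⟩
  · intro g hg hc
    obtain ⟨j, hj1, hj⟩ := hex g hg
    have h1 : (g, ζ g.v) = j.1.1 := by
      rw [← hj, hζ, ← hc, hj1]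
    rw [h1]
    exact j.1.2
  · intro i hi g hg
    obtain ⟨j, -, hj⟩ := hex g hg
    have h1 := hCmp i.1 g ⟨(fs_actM hσ hi).1, (fs_actM hσ hi).2.1⟩ hg
    have h2 := (hQ _ j.2).1 i hi
    unfold Dt.e at h2
    rw [add_dotProduct, h1, ← hj, hζ, h2]
    exact CharTwo.add_self_eq_zero _

/-! ### the limit -/

theorem fs_log (f : ℝ → ℝ) (C : ℝ) (k K : ℕ) (hk : k < K)
    (hf : Tendsto (fun Y : ℝ => f Y / (Y * Real.log Y ^ k)) atTop (nhds C)) :
    Tendsto (fun Y : ℝ => f Y / (Y * Real.log Y ^ K)) atTop (nhds 0) := by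
  obtain ⟨d, rfl⟩ := Nat.exists_eq_add_of_lt hk
  have h1 : Tendsto (fun Y : ℝ => (Real.log Y ^ (d + 1))⁻¹) atTop (nhds 0) :=
    ((tendsto_pow_atTop (Nat.succ_ne_zero d)).comp Real.tendsto_log_atTop).inv_tendsto_atTop
  have h2 := hf.mul h1
  rw [mul_zero] at h2
  refine h2.congr fun Y => ?_
  rw [add_assoc, pow_add, div_eq_mul_inv, div_eq_mul_inv, mul_inv, mul_inv, mul_inv]
  ring

theorem fs_scale (f : ℝ → ℝ) (q : ℝ) (hq : 0 < q) (K : ℕ)
    (hf : Tendsto (fun Y : ℝ => f Y / (Y * Real.log Y ^ K)) atTop (nhds 0)) :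
    Tendsto (fun Y : ℝ => f (Y * q) / (Y * Real.log Y ^ K)) atTop (nhds 0) := by
  have h1 : Tendsto (fun Y : ℝ => Y * q) atTop atTop := tendsto_id.atTop_mul_const hq
  have h2 := hf.comp h1
  have h3 : Tendsto (fun Y : ℝ => (1 + Real.log q * (Real.log Y)⁻¹) ^ K) atTop (nhds 1) := by
    have h4 := (Real.tendsto_log_atTop.inv_tendsto_atTop.const_mul (Real.log q)).const_add 1
    rw [mul_zero, add_zero] at h4
    have h5 := h4.pow K
    rwa [one_pow] at h5
  have h6 := (h2.mul h3).const_mul q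
  rw [zero_mul, mul_zero] at h6
  refine h6.congr' ?_
  filter_upwards [eventually_gt_atTop (1 : ℝ), eventually_gt_atTop (1 / q)] with Y hY hYq
  have hl : 0 < Real.log Y := Real.log_pos hY
  have hY0 : 0 < Y := by linarith
  have hYq1 : 1 < Y * q := by
    rw [div_lt_iff₀ hq] at hYq
    exact hYq
  have hlq : 0 < Real.log (Y * q) := Real.log_pos hYq1
  have h7 : 1 + Real.log q * (Real.log Y)⁻¹ = Real.log (Y * q) / Real.log Y := by
    rw [Real.log_mul hY0.ne' hq.ne']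
    field_simp
  rw [h7, div_pow]
  show q * (f (Y * q) / (Y * q * Real.log (Y * q) ^ K) *
    (Real.log (Y * q) ^ K / Real.log Y ^ K)) = _
  generalize f (Y * q) = F at *
  generalize Real.log (Y * q) = l at *
  field_simp

theorem FX_small_of (hATS : MtATS) (w : Wt D) (π : Pr D) (σ : Finset D.P) (hσ : σ ⊆ w.actM)
    (hS : ¬ w.Sb σ) :
    Tendsto (fun Y : ℝ => Wt.FX π σ Y / (Y * Real.log Y ^ (w.b - 1))) atTop (nhds 0) := by
  classical
  have hterm : ∀ (c : D.P → Fin 4) (T : Finset (D.V × Fin D.r)),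
      Tendsto (fun Y : ℝ => GW (fsW σ) (fsL σ T) (fsA π σ c) (Y * ∏ k, (π.p k : ℝ) ^ 2) /
        (Y * Real.log Y ^ (w.b - 1))) atTop (nhds 0) := by
    intro c T
    have hA := hATS ({i // i ∈ σ} ⊕ Fin D.r) (fsW σ)
      (fun i => by
        rcases i with i | k
        · exact le_rfl
        · exact one_le_two) (fsL σ T)
      (fun i j hij hji => by
        rcases i with i | k
        · rcases j with j | k
          · have h3 := hij.2.symm.trans hji.1
            exact absurd h3 (by decide)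
          · exact hji
        · exact hij) (fsC σ c) (fsA π σ c)
      (fun i n => by
        rcases i with i | k
        · show |if 2 ≤ n then (psi (c i.1) n : ℝ) else 0| ≤ 1
          split_ifs
          · exact mt_psi _ _
          · norm_num
        · show |if n = π.p k then (1 : ℝ) else 0| ≤ 1
          split_ifs <;> norm_num)
      (fun i n hn => by
        rcases i with i | k
        · by_contra h2
          exact hn (if_neg h2)
        · by_contra h2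
          apply hn
          refine if_neg ?_
          rintro rfl
          exact h2 (π.prime k).two_le)
      (fun i hi n => by
        rcases i with i | k
        · rfl
        · have h1 : (2 : ℝ) = 1 := hi
          norm_num at h1)
    have hlt := fs_card σ hσ hS T c
    refine fs_scale _ _ (fs_pos π) _ ?_
    rcases Nat.eq_zero_or_pos (Nat.card {i // Free (fsW σ) (fsL σ T) (fsC σ c) i}) with h0 | h0
    · have h1 := hA.2 h0
      rcases Nat.eq_zero_or_pos (w.b - 1) with hb | hb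
      · rw [hb]
        simpa using h1
      · exact fs_log _ 0 0 _ hb (by simpa using h1)
    · obtain ⟨k, hk⟩ := Nat.exists_eq_succ_of_ne_zero h0.ne'
      obtain ⟨C, hC⟩ := hA.1 k hk
      exact fs_log _ C k _ (by omega) hC
  have hsum : Tendsto (fun Y : ℝ => ∑ c ∈ D.C4 σ, ∑ T : Finset (D.V × Fin D.r),
      (D.coef (fsTh D) 0 0 σ c * (1 / 2 : ℝ) ^ (Fintype.card (D.V × Fin D.r))) *
        (GW (fsW σ) (fsL σ T) (fsA π σ c) (Y * ∏ k, (π.p k : ℝ) ^ 2) /
        (Y * Real.log Y ^ (w.b - 1)))) atTop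
      (nhds (∑ c ∈ D.C4 σ, ∑ T : Finset (D.V × Fin D.r),
      (D.coef (fsTh D) 0 0 σ c * (1 / 2 : ℝ) ^ (Fintype.card (D.V × Fin D.r))) * 0)) :=
    tendsto_finsetSum _ fun c _ => tendsto_finsetSum _ fun T _ => (hterm c T).const_mul _
  simp only [mul_zero, Finset.sum_const_zero] at hsum
  refine hsum.congr fun Y => ?_
  rw [fs_expand π σ hσ Y]
  simp only [Finset.sum_div, mul_div_assoc]

theorem FX_small {D : Dt} (w : Wt D) (π : Pr D) (σ : Finset D.P) (hσ : σ ⊆ w.actM)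
    (hS : ¬ w.Sb σ) :
    Tendsto (fun Y : ℝ => Wt.FX π σ Y / (Y * Real.log Y ^ (w.b - 1))) atTop (nhds 0) :=
  FX_small_of (fun _ _ w hw L hL c a ha ha2 hiso => ATS w hw L hL c a ha ha2 hiso) w π σ hσ hS

end Pool.Agent.H98.ML
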