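import Pool.Agent.H98.ML.FDefs
import Pool.Agent.H98.MK.ParClass

/-!
# Project MK2, row M1 (helper89): homomorphisms to `Ext D` are lifts; difference of lifts;
surjectivity of a lift; index of kernels.
-/

set_option autoImplicit false

open scoped BigOperators

namespace Pool.Agent.H98.ML

open Pool.Agent.H98.MK (Om Gam dabs fld chi dd adm par lg eps par_hom par_lc mfun z12 par_exists
  par_injective par_surj)

theorem lh_lc {D : Dt} {x : ℕ →₀ D.V} {f : Gam → D.Z} (h : IsLift D x f) :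
    IsLocallyConstant (lh h) :=
  IsLocallyConstant.comp₂ (par_lc x) h.lc (fun a b => (⟨a, b⟩ : Ext D))

theorem l1_two {k : ℕ} (v : Fin k → ZMod 2) : v + v = 0 := by
  funext i
  exact CharTwo.add_self_eq_zero (v i)

theorem hom_param (D : Dt) (ρ : Gam →* Ext D) (hρ : IsLocallyConstant ρ) :
    ∃ (x : ℕ →₀ D.V) (f : Gam → D.Z) (h : IsLift D x f), adm x ∧ ρ = lh h := by
  obtain ⟨x, hx, hxf⟩ := par_exists (fun σ => (ρ σ).v) (hρ.comp (fun y => y.v))
    (fun σ τ => by rw [map_mul]; rfl)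
  have hx2 : ∀ σ, par x σ = (ρ σ).v := fun σ => congrFun hxf σ
  have h : IsLift D x (fun σ => (ρ σ).z) := by
    refine ⟨hρ.comp (fun y => y.z), fun σ τ => ?_⟩
    rw [map_mul, hx2, hx2]
    rfl
  refine ⟨x, fun σ => (ρ σ).z, h, hx, ?_⟩
  apply MonoidHom.ext
  intro σ
  apply Ext.ext
  · exact (hx2 σ).symm
  · rfl

theorem lh_inj {D : Dt} {x x' : ℕ →₀ D.V} {f f' : Gam → D.Z} (h : IsLift D x f)
    (h' : IsLift D x' f') (hx : adm x) (hx' : adm x') (he : lh h = lh h') :
    x = x' ∧ f = f' := by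
  have h1 : ∀ σ, (⟨par x σ, f σ⟩ : Ext D) = ⟨par x' σ, f' σ⟩ := fun σ =>
    DFunLike.congr_fun he σ
  refine ⟨par_injective x x' hx hx' (funext fun σ => congrArg Ext.v (h1 σ)), funext fun σ => ?_⟩
  exact congrArg Ext.z (h1 σ)

theorem lift_diff {D : Dt} {x : ℕ →₀ D.V} {f f' : Gam → D.Z} (h : IsLift D x f)
    (h' : IsLift D x f') : ∃ z : ℕ →₀ D.Z, adm z ∧ ∀ σ, f' σ = f σ + par z σ := by
  obtain ⟨z, hz, hzf⟩ := par_exists (fun σ => f σ + f' σ)
    (IsLocallyConstant.comp₂ h.lc h'.lc (fun a b => a + b)) (fun σ τ => by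
      have h1 := l1_two (D.β (par x σ) (par x τ))
      calc f (σ * τ) + f' (σ * τ)
          = (f σ + f' σ) + (f τ + f' τ) +
            (D.β (par x σ) (par x τ) + D.β (par x σ) (par x τ)) := by
              rw [h.hom, h'.hom]; abel
        _ = (f σ + f' σ) + (f τ + f' τ) := by rw [h1, add_zero])
  refine ⟨z, hz, fun σ => ?_⟩
  rw [congrFun hzf σ, ← add_assoc, l1_two, zero_add]

theorem card_ext (D : Dt) : Nat.card (Ext D) = D.n := by
  rw [Nat.card_congr (Ext.equivProd (D := D)), Nat.card_prod, Nat.card_eq_fintype_card,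
    Nat.card_eq_fintype_card, Fintype.card_fun, Fintype.card_fun, ZMod.card, Fintype.card_fin,
    Fintype.card_fin, Dt.n, pow_add]

theorem ker_index {D : Dt} (ρ : Gam →* Ext D) : ∃ k, ρ.ker.index = 2 ^ k := by
  have h1 : ρ.ker.index ∣ 2 ^ (D.r + D.s) := by
    rw [Subgroup.index_ker]
    have h2 := Subgroup.card_subgroup_dvd_card ρ.range
    rw [card_ext D] at h2
    exact h2
  obtain ⟨k, -, hk⟩ := (Nat.dvd_prime_pow Nat.prime_two).1 h1
  exact ⟨k, hk⟩

/-- a subgroup that maps onto `V` is everything -/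
theorem l1_top {D : Dt} (H : Subgroup (Ext D)) (hH : ∀ v : D.V, ∃ z : D.Z, (⟨v, z⟩ : Ext D) ∈ H) :
    H = ⊤ := by
  -- the central part of `H`
  let N : Submodule (ZMod 2) D.Z :=
    { carrier := {z | (⟨0, z⟩ : Ext D) ∈ H}
      add_mem' := by
        intro a b ha hb
        have h1 : (⟨0, a⟩ : Ext D) * ⟨0, b⟩ = ⟨0, a + b⟩ := by
          apply Ext.ext
          · simp
          · simp
        have := H.mul_mem ha hb
        rw [h1] at this
        exact this
      zero_mem' := H.one_mem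
      smul_mem' := by
        intro c a ha
        have hc : c = 0 ∨ c = 1 := by
          revert c
          decide
        rcases hc with rfl | rfl
        · rw [zero_smul]
          exact H.one_mem
        · rw [one_smul]
          exact ha }
  have hq : ∀ v : D.V, D.q v ∈ N := by
    intro v
    obtain ⟨z, hz⟩ := hH v
    have h1 := H.mul_mem hz hz
    have h2 : (⟨v, z⟩ : Ext D) * ⟨v, z⟩ = ⟨0, D.q v⟩ := by
      apply Ext.ext
      · simp only [Ext.mul_v]
        exact Ext.two_V v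
      · simp only [Ext.mul_z]
        rw [Ext.two_Z z, zero_add]
        rfl
    rw [h2] at h1
    exact h1
  have hN : ∀ z : D.Z, (⟨0, z⟩ : Ext D) ∈ H := by
    intro z
    have h1 : Submodule.span (ZMod 2) (Set.range fun v : Fin D.r → ZMod 2 => D.β v v) ≤ N := by
      rw [Submodule.span_le]
      rintro _ ⟨v, rfl⟩
      exact hq v
    rw [D.spz] at h1
    exact h1 Submodule.mem_top
  rw [eq_top_iff]
  intro x _
  obtain ⟨z', hz'⟩ := hH x.v
  have h1 := H.mul_mem hz' (hN (x.z + z'))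
  have h2 : (⟨x.v, z'⟩ : Ext D) * ⟨0, x.z + z'⟩ = x := by
    apply Ext.ext
    · simp
    · simp only [Ext.mul_z, map_zero, add_zero]
      have := Ext.two_Z (D := D) z'
      calc z' + (x.z + z') = x.z + (z' + z') := by abel
        _ = x.z := by rw [this, add_zero]
  rw [h2] at h1
  exact h1

theorem lh_surj_iff_par {D : Dt} {x : ℕ →₀ D.V} {f : Gam → D.Z} (h : IsLift D x f) :
    Function.Surjective (lh h) ↔ Function.Surjective (par x) := by
  constructor
  · intro hs v
    obtain ⟨σ, hσ⟩ := hs ⟨v, 0⟩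
    exact ⟨σ, congrArg Ext.v hσ⟩
  · intro hs
    rw [← MonoidHom.range_eq_top]
    refine l1_top _ fun v => ?_
    obtain ⟨σ, hσ⟩ := hs v
    refine ⟨f σ, ⟨σ, ?_⟩⟩
    apply Ext.ext
    · exact hσ
    · rfl

theorem lh_surj {D : Dt} {x : ℕ →₀ D.V} {f : Gam → D.Z} (hx : adm x) (h : IsLift D x f) :
    Function.Surjective (lh h) ↔ Submodule.span (ZMod 2) (Set.range x) = ⊤ :=
  (lh_surj_iff_par h).trans (par_surj x hx)

end Pool.Agent.H98.ML
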