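import Pool.Agent.H98.ML.FDefs
import Pool.Agent.H98.MK.SolSets

/-!
# Project MK2 (MP_a3214d), row M9, second part: the products of primes with given value
-/

set_option autoImplicit false

open scoped BigOperators

namespace Pool.Agent.H98.ML

open Pool.Agent.H98.MK (Om Gam dabs fld chi dd adm par lg eps par_hom par_lc mfun z12)
open Pool.Agent.H98.MK.SolS

/-! ### parameters in an arbitrary finite group -/

section
variable {W : Type} [Zero W] [Fintype W] {m : W → ℕ}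

omit [Zero W] in
private theorem m9_sqf (hm : Squarefree (2 * ∏ v, m v)) (v : W) : Squarefree (m v) :=
  hm.squarefree_of_dvd ((Finset.dvd_prod_of_mem m (Finset.mem_univ v)).mul_left 2)

omit [Zero W] in
private theorem m9_odd (hm : Squarefree (2 * ∏ v, m v)) (v : W) : ¬ 2 ∣ m v := by
  intro h
  have h1 : 2 * 2 ∣ 2 * ∏ v, m v :=
    mul_dvd_mul_left 2 (h.trans (Finset.dvd_prod_of_mem m (Finset.mem_univ v)))
  have h2 := hm 2 h1
  rw [Nat.isUnit_iff] at h2
  omega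

omit [Zero W] in
private theorem m9_uniq (hm : Squarefree (2 * ∏ v, m v)) {u v : W} {p : ℕ} (hp : p.Prime)
    (hu : p ∣ m u) (hv : p ∣ m v) : u = v := by
  classical
  by_contra huv
  have h1 : m u * m v ∣ ∏ v, m v := by
    rw [← Finset.mul_prod_erase Finset.univ m (Finset.mem_univ u)]
    apply mul_dvd_mul_left
    exact Finset.dvd_prod_of_mem m (Finset.mem_erase.2 ⟨fun h => huv h.symm, Finset.mem_univ v⟩)
  have h2 : p * p ∣ 2 * ∏ v, m v := ((mul_dvd_mul hu hv).trans h1).mul_left 2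
  have h3 := hm p h2
  rw [Nat.isUnit_iff] at h3
  exact hp.ne_one h3

open Classical in
/-- the value at `p` -/
private noncomputable def m9val (a b : W) (m : W → ℕ) (p : ℕ) : W :=
  if p = 1 then a else if p = 2 then b else
    if h : p.Prime ∧ ∃ v, p ∣ m v then Classical.choose h.2 else 0

private theorem m9val_prime (hm : Squarefree (2 * ∏ v, m v)) (a b : W) {v : W} {p : ℕ}
    (hp : p.Prime) (hv : p ∣ m v) : m9val a b m p = v := by
  unfold m9val
  have h1 : p ≠ 1 := hp.ne_one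
  have h2 : p ≠ 2 := fun h => m9_odd hm v (h ▸ hv)
  have h3 : p.Prime ∧ ∃ v, p ∣ m v := ⟨hp, v, hv⟩
  rw [if_neg h1, if_neg h2, dif_pos h3]
  exact m9_uniq hm hp (Classical.choose_spec h3.2) hv

private theorem m9val_ne (a b : W) {p : ℕ} (h1 : p ≠ 1) (h2 : p ≠ 2) (h : m9val a b m p ≠ 0) :
    p.Prime ∧ p ∣ m (m9val a b m p) := by
  unfold m9val at h ⊢
  rw [if_neg h1, if_neg h2] at h ⊢
  by_cases h3 : p.Prime ∧ ∃ v, p ∣ m v
  · rw [dif_pos h3]
    exact ⟨h3.1, Classical.choose_spec h3.2⟩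
  · rw [dif_neg h3] at h
    exact absurd rfl h

end

theorem m9_exists (W : Type) [Zero W] [Fintype W] (a b : W) (m : W → ℕ) (h0 : m 0 = 1)
    (hm : Squarefree (2 * ∏ v, m v)) :
    ∃! x : ℕ →₀ W, adm x ∧ x 1 = a ∧ x 2 = b ∧ mfun x = m := by
  classical
  set S : Finset ℕ := {1, 2} ∪ Finset.univ.biUnion (fun v => (m v).primeFactors) with hS
  have hfin : ∀ p, m9val a b m p ≠ 0 → p ∈ S := by
    intro p hp
    by_cases h1 : p = 1
    · simp [hS, h1]
    · by_cases h2 : p = 2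
      · simp [hS, h2]
      · obtain ⟨q1, q2⟩ := m9val_ne a b h1 h2 hp
        rw [hS, Finset.mem_union]
        right
        rw [Finset.mem_biUnion]
        exact ⟨_, Finset.mem_univ _, Nat.mem_primeFactors.2 ⟨q1, q2, (m9_sqf hm _).ne_zero⟩⟩
  have hx : ∀ p, (Finsupp.onFinset S (m9val a b m) hfin) p = m9val a b m p := fun p => rfl
  refine ⟨Finsupp.onFinset S (m9val a b m) hfin, ⟨?_, ?_, ?_, ?_⟩, ?_⟩
  · intro p hp
    rw [hx] at hp
    by_cases h1 : p = 1
    · exact Or.inl h1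
    · by_cases h2 : p = 2
      · exact Or.inr (h2 ▸ Nat.prime_two)
      · exact Or.inr (m9val_ne a b h1 h2 hp).1
  · rw [hx]
    simp [m9val]
  · rw [hx]
    simp [m9val]
  · funext v
    rw [mfun_eq]
    have h1 : As (Finsupp.onFinset S (m9val a b m) hfin) v = (m v).primeFactors := by
      ext p
      rw [mem_As, hx, Nat.mem_primeFactors]
      constructor
      · rintro ⟨q1, q2, q3, rfl⟩
        have := m9val_ne a b q2 q3 q1
        exact ⟨this.1, this.2, (m9_sqf hm _).ne_zero⟩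
      · rintro ⟨q1, q2, -⟩
        have h2 : m9val a b m p = v := m9val_prime hm a b q1 q2
        refine ⟨?_, q1.ne_one, fun h => m9_odd hm v (h ▸ q2), h2⟩
        rw [h2]
        rintro rfl
        rw [h0, Nat.dvd_one] at q2
        exact q1.ne_one q2
    rw [h1]
    exact Nat.prod_primeFactors_of_squarefree (m9_sqf hm v)
  · rintro y ⟨y1, y2, y3, y4⟩
    ext p : 1
    rw [hx]
    by_cases h1 : p = 1
    · rw [h1, y2]
      simp [m9val]
    · by_cases h2 : p = 2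
      · rw [h2, y3]
        simp [m9val]
      · by_cases h3 : y p = 0
        · rw [h3]
          by_contra h4
          obtain ⟨q1, q2⟩ := m9val_ne a b h1 h2 (Ne.symm h4)
          have h5 : p ∈ As y (m9val a b m p) := by
            rw [← pf_mfun y1, y4]
            exact Nat.mem_primeFactors.2 ⟨q1, q2, (m9_sqf hm _).ne_zero⟩
          exact (mem_As.1 h5).1 h3
        · have h5 : p ∈ As y (y p) := mem_As.2 ⟨h3, h1, h2, rfl⟩
          rw [← pf_mfun y1, y4, Nat.mem_primeFactors] at h5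
          exact (m9val_prime hm a b h5.1 h5.2.1).symm

/-! ### pairs of parameters -/

/-- a pair of parameters as one parameter -/
noncomputable def m9pr {D : Dt} (x : ℕ →₀ D.V) (z : ℕ →₀ D.Z) : ℕ →₀ (D.V × D.Z) :=
  Finsupp.zipWith Prod.mk rfl x z

private theorem m9pr_apply {D : Dt} (x : ℕ →₀ D.V) (z : ℕ →₀ D.Z) (p : ℕ) :
    m9pr x z p = (x p, z p) := Finsupp.zipWith_apply

private theorem m9pr_ne {D : Dt} (x : ℕ →₀ D.V) (z : ℕ →₀ D.Z) (p : ℕ) :
    m9pr x z p ≠ 0 ↔ x p ≠ 0 ∨ z p ≠ 0 := by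
  rw [m9pr_apply, Ne, Prod.mk_eq_zero, not_and_or]

private theorem m9pr_adm {D : Dt} (x : ℕ →₀ D.V) (z : ℕ →₀ D.Z) :
    adm (m9pr x z) ↔ adm x ∧ adm z := by
  constructor
  · intro h
    exact ⟨fun i hi => h i ((m9pr_ne x z i).2 (Or.inl hi)),
      fun i hi => h i ((m9pr_ne x z i).2 (Or.inr hi))⟩
  · rintro ⟨h1, h2⟩ i hi
    rcases (m9pr_ne x z i).1 hi with h | h
    · exact h1 i h
    · exact h2 i h

theorem m9_gfun {D : Dt} (x : ℕ →₀ D.V) (z : ℕ →₀ D.Z) (g : Ext D) :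
    gfun x z g = mfun (m9pr x z) (g.v, g.z) := by
  classical
  rw [mfun_eq]
  unfold gfun
  refine Finset.prod_congr ?_ fun _ _ => rfl
  ext p
  rw [Finset.mem_filter, mem_As, m9pr_ne, m9pr_apply, Prod.mk.injEq, Finset.mem_union,
    Finsupp.mem_support_iff, Finsupp.mem_support_iff]

private theorem m9_prod {D : Dt} (f : Ext D → ℕ) (f' : D.V × D.Z → ℕ)
    (h : ∀ g, f g = f' (g.v, g.z)) : ∏ g, f g = ∏ u, f' u :=
  Fintype.prod_equiv (Ext.equivProd (D := D)) f f' h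

theorem gfun_spec (D : Dt) (x : ℕ →₀ D.V) (hx : adm x) (z : ℕ →₀ D.Z) (hz : adm z) :
    gfun x z 1 = 1 ∧ Squarefree (2 * ∏ g : Ext D, gfun x z g) ∧
      ∀ v : D.V, mfun x v = D.mV (gfun x z) v := by
  classical
  have hw : adm (m9pr x z) := (m9pr_adm x z).2 ⟨hx, hz⟩
  refine ⟨?_, ?_, ?_⟩
  · rw [m9_gfun]
    exact mfun_zero (m9pr x z)
  · rw [m9_prod _ _ fun g => m9_gfun x z g, prod_mfun]
    have h2 : (2:ℕ) ∉ Od (m9pr x z) := fun h => (mem_Od.1 h).2.2 rfl
    have h3 : 2 * ∏ p ∈ Od (m9pr x z), p = ∏ p ∈ Finset.cons 2 (Od (m9pr x z)) h2, p := by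
      rw [Finset.prod_cons]
    rw [h3]
    apply sqf_primes
    intro p hp
    rcases Finset.mem_cons.1 hp with rfl | hp
    · exact Nat.prime_two
    · exact prime_Od hw hp
  · intro v
    unfold Dt.mV
    by_cases h0 : v = 0
    · rw [if_pos h0, h0]
      exact mfun_zero x
    · rw [if_neg h0, mfun_eq, ← Finset.prod_fiberwise (As x v) (fun p => z p) (fun p => p)]
      refine Finset.prod_congr rfl fun z' _ => ?_
      rw [m9_gfun, mfun_eq]
      refine Finset.prod_congr ?_ fun _ _ => rfl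
      ext p
      rw [Finset.mem_filter, mem_As, mem_As, m9pr_ne, m9pr_apply, Prod.mk.injEq]
      constructor
      · rintro ⟨⟨q1, q2, q3, q4⟩, q5⟩
        exact ⟨Or.inl q1, q2, q3, q4, q5⟩
      · rintro ⟨-, q2, q3, q4, q5⟩
        exact ⟨⟨by rw [q4]; exact h0, q2, q3, q4⟩, q5⟩

theorem exists_xz (D : Dt) (a b : D.V) (z1 z2 : D.Z) (m : Ext D → ℕ) (h0 : m 1 = 1)
    (hm : Squarefree (2 * ∏ g, m g)) :
    ∃! w : (ℕ →₀ D.V) × (ℕ →₀ D.Z), adm w.1 ∧ adm w.2 ∧ w.1 1 = a ∧ w.1 2 = b ∧ w.2 1 = z1 ∧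
      w.2 2 = z2 ∧ gfun w.1 w.2 = m := by
  classical
  set m' : D.V × D.Z → ℕ := fun u => m ⟨u.1, u.2⟩ with hm'
  have e1 : ∏ g, m g = ∏ u, m' u := m9_prod m m' fun g => rfl
  obtain ⟨w, ⟨w1, w2, w3, w4⟩, w5⟩ := m9_exists (D.V × D.Z) (a, z1) (b, z2) m' h0 (e1 ▸ hm)
  have hpr : ∀ (x : ℕ →₀ D.V) (z : ℕ →₀ D.Z), gfun x z = m ↔ mfun (m9pr x z) = m' := by
    intro x z
    constructor
    · intro h
      funext u
      have h1 := congrFun h ⟨u.1, u.2⟩
      rw [m9_gfun] at h1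
      exact h1
    · intro h
      funext g
      rw [m9_gfun, h]
  have hw : m9pr (w.mapRange Prod.fst rfl) (w.mapRange Prod.snd rfl) = w := by
    ext p : 1
    rw [m9pr_apply, Finsupp.mapRange_apply, Finsupp.mapRange_apply]
  refine ⟨(w.mapRange Prod.fst rfl, w.mapRange Prod.snd rfl), ⟨?_, ?_, ?_, ?_, ?_, ?_, ?_⟩, ?_⟩
  · exact ((m9pr_adm _ _).1 (hw.symm ▸ w1)).1
  · exact ((m9pr_adm _ _).1 (hw.symm ▸ w1)).2
  · show (w.mapRange Prod.fst rfl) 1 = a
    rw [Finsupp.mapRange_apply, w2]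
  · show (w.mapRange Prod.fst rfl) 2 = b
    rw [Finsupp.mapRange_apply, w3]
  · show (w.mapRange Prod.snd rfl) 1 = z1
    rw [Finsupp.mapRange_apply, w2]
  · show (w.mapRange Prod.snd rfl) 2 = z2
    rw [Finsupp.mapRange_apply, w3]
  · refine (hpr _ _).2 ?_
    show mfun (m9pr (w.mapRange Prod.fst rfl) (w.mapRange Prod.snd rfl)) = m'
    rw [hw, w4]
  · rintro ⟨x, z⟩ ⟨y1, y2, y3, y4, y5, y6, y7⟩
    have h1 : m9pr x z = w := by
      refine w5 _ ⟨(m9pr_adm x z).2 ⟨y1, y2⟩, ?_, ?_, (hpr x z).1 y7⟩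
      · rw [m9pr_apply]
        exact Prod.ext y3 y5
      · rw [m9pr_apply]
        exact Prod.ext y4 y6
    refine Prod.ext ?_ ?_
    · ext p : 1
      show x p = (w.mapRange Prod.fst rfl) p
      rw [← h1, Finsupp.mapRange_apply, m9pr_apply]
    · ext p : 1
      show z p = (w.mapRange Prod.snd rfl) p
      rw [← h1, Finsupp.mapRange_apply, m9pr_apply]

end Pool.Agent.H98.ML
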