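import Pool.Agent.H98.ML.FDefs
import Pool.Agent.H98.MK.SolIff

/-!
# Project MK2 (MP_a3214d), row M9, first part: the local conditions in terms of the products
-/

set_option autoImplicit false

open scoped BigOperators

namespace Pool.Agent.H98.ML

open Pool.Agent.H98.MK (Om Gam dabs fld chi dd adm par lg eps par_hom par_lc mfun z12)
open Pool.Agent.H98.MK.SolS

private theorem m9_B0 (D : Dt) (v : D.V) : D.B 0 v = 0 := by
  simp [Dt.B]

theorem m9_sol_loc (D : Dt) (x : ℕ →₀ D.V) (hx : adm x) {p : ℕ} (hp : p.Prime) (hp2 : p ≠ 2) :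
    (x.sum fun i w => if i = p then 0 else lg (jacobiSym (dd i) p) • D.B w (x p)) =
      ∑ u : D.V, lg (jacobiSym p (mfun x u)) • D.B u (x p) +
        lg (jacobiSym (-1) p) • D.B (x 1) (x p) + lg (jacobiSym 2 p) • D.B (x 2) (x p) := by
  rw [sum_split x _ (fun i => by simp [m9_B0 D])]
  have h1 : (1:ℕ) ≠ p := hp.ne_one.symm
  have h2 : (2:ℕ) ≠ p := Ne.symm hp2
  rw [if_neg h1, if_neg h2]
  have e1 : dd 1 = -1 := by simp [dd]
  have e2 : dd 2 = 2 := by simp [dd]
  rw [e1, e2]
  have h3 : ∀ u : D.V, (∑ l ∈ As x u, if l = p then 0 else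
      lg (jacobiSym (dd l) p) • D.B u (x p)) = lg (jacobiSym p (mfun x u)) • D.B u (x p) := by
    intro u
    by_cases hu : u = x p
    · have h4 : D.B u (x p) = 0 := by
        rw [hu]
        exact Ext.two_Z _
      rw [h4, smul_zero]
      apply Finset.sum_eq_zero
      intro l _
      split_ifs
      · rfl
      · exact smul_zero _
    · have h5 : ∀ l ∈ As x u, l.Prime ∧ l ≠ p := by
        intro l hl
        refine ⟨prime_As hx hl, ?_⟩
        rintro rfl
        exact hu (mem_As.1 hl).2.2.2.symm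
      rw [mfun_eq, lg_prod hp _ h5, Finset.sum_smul]
      apply Finset.sum_congr rfl
      intro l hl
      rw [if_neg (h5 l hl).2, jac_dd (h5 l hl).1 (mem_As.1 hl).2.2.1 hp hp2]
  simp only [h3]
  abel

theorem m9_sol_inf (D : Dt) (x : ℕ →₀ D.V) (hx : adm x) :
    (x.sum fun i w => if dd i < 0 then w else 0) =
      D.vinf (x 1) (fun v => (mfun x v : ZMod 8)) := by
  rw [sum_split x _ (fun i => by simp)]
  have e1 : dd 1 = -1 := by simp [dd]
  have e2 : dd 2 = 2 := by simp [dd]
  rw [e1, e2, if_pos (by norm_num), if_neg (by norm_num), add_zero]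
  unfold Dt.vinf
  congr 1
  apply Finset.sum_congr rfl
  intro v _
  have h1 : ∀ l ∈ As x v, l % 4 = 1 ∨ l % 4 = 3 := fun l hl =>
    odd_mod (prime_As hx hl) (mem_As.1 hl).2.2.1
  change _ = eps ((mfun x v : ℕ) : ZMod 8) • v
  rw [mfun_eq, (eps_prod _ h1).2, Finset.sum_smul]
  apply Finset.sum_congr rfl
  intro l hl
  by_cases h : l % 4 = 3
  · rw [if_pos h, if_pos ((dd_neg (prime_As hx hl) (mem_As.1 hl).2.2.1).2 h), one_smul]
  · rw [if_neg h, if_neg (fun h2 => h ((dd_neg (prime_As hx hl) (mem_As.1 hl).2.2.1).1 h2)),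
      zero_smul]

theorem sol_iff (D : Dt) (x : ℕ →₀ D.V) (hx : adm x) :
    Sol D x ↔ (∀ v : D.V, ∀ p ∈ (mfun x v).primeFactors, D.okp (x 1) (x 2) (mfun x) v p) ∧
      D.q (D.vinf (x 1) (fun v => (mfun x v : ZMod 8))) = 0 := by
  unfold Sol
  rw [m9_sol_inf D x hx]
  apply and_congr_left
  intro _
  constructor
  · intro h v p hp
    rw [pf_mfun hx, mem_As] at hp
    obtain ⟨q1, q2, q3, rfl⟩ := hp
    have hpp : p.Prime := (hx p q1).resolve_left q2
    have h1 := h p hpp q3 q1
    rw [m9_sol_loc D x hx hpp q3] at h1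
    exact h1
  · intro h p hp hp2 hx0
    have h1 := h (x p) p (by
      rw [pf_mfun hx]
      exact mem_As.2 ⟨hx0, hp.ne_one, hp2, rfl⟩)
    rw [m9_sol_loc D x hx hp hp2]
    exact h1

open Classical in
theorem span_iff (D : Dt) (x : ℕ →₀ D.V) (hx : adm x) :
    Submodule.span (ZMod 2) (Set.range x) = ⊤ ↔
      D.Span (x 1) (x 2) (Finset.univ.filter fun v => mfun x v ≠ 1) := by
  unfold Dt.Span
  have h1 : Submodule.span (ZMod 2) (Set.range x) = Submodule.span (ZMod 2) (insert (x 1)
      (insert (x 2) (((Finset.univ.filter fun v => mfun x v ≠ 1 : Finset D.V)) : Set D.V))) := by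
    apply le_antisymm
    · rw [Submodule.span_le]
      rintro _ ⟨p, rfl⟩
      by_cases h0 : x p = 0
      · rw [h0]
        exact Submodule.zero_mem _
      · apply Submodule.subset_span
        by_cases hp1 : p = 1
        · exact Set.mem_insert_iff.2 (Or.inl (by rw [hp1]))
        · by_cases hp2 : p = 2
          · exact Set.mem_insert_iff.2 (Or.inr (Set.mem_insert_iff.2 (Or.inl (by rw [hp2]))))
          · apply Set.mem_insert_iff.2 (Or.inr (Set.mem_insert_iff.2 (Or.inr _)))
            rw [Finset.mem_coe, Finset.mem_filter]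
            exact ⟨Finset.mem_univ _, (mfun_ne_one hx _).2 ⟨p, mem_As.2 ⟨h0, hp1, hp2, rfl⟩⟩⟩
    · apply Submodule.span_mono
      rintro w hw
      rcases Set.mem_insert_iff.1 hw with rfl | hw
      · exact ⟨1, rfl⟩
      · rcases Set.mem_insert_iff.1 hw with rfl | hw
        · exact ⟨2, rfl⟩
        · rw [Finset.mem_coe, Finset.mem_filter] at hw
          obtain ⟨p, hp⟩ := (mfun_ne_one hx _).1 hw.2
          exact ⟨p, (mem_As.1 hp).2.2.2⟩
  rw [h1]

end Pool.Agent.H98.ML
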