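import Pool.Agent.H98.ML.CountSum2A
import Pool.Agent.H98.ML.SolIff2
import Pool.Agent.H98.ML.Gfun

/-!
# Project MK2 (MP_a3214d), row M11: the parameter count is the sum `S`
-/

set_option autoImplicit false

open scoped BigOperators

namespace Pool.Agent.H98.ML

open Pool.Agent.H98.MK (Om Gam dabs fld chi dd adm par lg eps par_hom par_lc mfun z12)

/-- the rows M9 -/
structure CsHyp (D : Dt) : Prop where
  sol : ∀ x : ℕ →₀ D.V, adm x →
    (Sol D x ↔ (∀ v : D.V, ∀ p ∈ (mfun x v).primeFactors, D.okp (x 1) (x 2) (mfun x) v p) ∧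
      D.q (D.vinf (x 1) (fun v => (mfun x v : ZMod 8))) = 0)
  span : ∀ x : ℕ →₀ D.V, adm x → (Submodule.span (ZMod 2) (Set.range x) = ⊤ ↔
      D.Span (x 1) (x 2) (Finset.univ.filter fun v => mfun x v ≠ 1))
  gsp : ∀ x : ℕ →₀ D.V, adm x → ∀ z : ℕ →₀ D.Z, adm z →
    gfun x z 1 = 1 ∧ Squarefree (2 * ∏ g : Ext D, gfun x z g) ∧
      ∀ v : D.V, mfun x v = D.mV (gfun x z) v
  ex : csEx D

open Classical in
theorem cs_main {D : Dt} (hD : CsHyp D) (H0 : Subgroup (Ext D)) (w : Wt D)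
    (hw : w.ind = hind H0) (cx : (ℕ →₀ D.V) → D.Z → D.Z → ℕ) (T : ℕ)
    (W : D.V → D.V → (D.V → ZMod 8) → ℕ → ℕ)
    (h : ∀ x : ℕ →₀ D.V, adm x → Sol D x → Submodule.span (ZMod 2) (Set.range x) = ⊤ →
        (∀ z1 z2, cx x z1 z2 ≤ T) ∧
        ∀ t, Nat.card {z : D.Z × D.Z // cx x z.1 z.2 = t} =
          W (x 1) (x 2) (fun v => (mfun x v : ZMod 8)) t) (X : ℝ) (hX : 1 ≤ X)
    (a b : D.V) (m : Ext D → ℕ) :
    (∑ z1 : D.Z, ∑ z2 : D.Z,
      (Nat.card {y : {y // csP D H0 cx X y} // csF D y.1 = (a, b, m, z1, z2)} : ℝ)) =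
    ∑ t ∈ Finset.range (T + 1),
      if m 1 = 1 ∧ Squarefree (2 * ∏ g, m g) ∧
        (∏ g, (m g : ℝ) ^ w.wt g) ≤ X ^ (1 / w.m : ℝ) * 2 ^ (-(t / w.m) : ℝ) ∧
        ∀ g, ∀ p ∈ (m g).primeFactors, D.okp a b (D.mV m) g.v p
      then (if D.Span a b (Finset.univ.filter fun v => D.mV m v ≠ 1) ∧
          D.q (D.vinf a (fun v => (D.mV m v : ZMod 8))) = 0
        then (W a b (fun v => (D.mV m v : ZMod 8)) t : ℝ) else 0)
      else 0 := by
  by_cases hg : m 1 = 1 ∧ Squarefree (2 * ∏ g, m g)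
  · obtain ⟨hm0, hsq⟩ := hg
    obtain ⟨x0, hx0, rfl, rfl, hz⟩ := cs_x0 hD.ex a b m hm0 hsq
    have hne : ∀ g, m g ≠ 0 := by
      intro g hg
      apply hsq.ne_zero
      rw [Finset.prod_eq_zero (Finset.mem_univ g) hg, mul_zero]
    have hmf : mfun x0 = D.mV m := by
      obtain ⟨z, k1, -, -, k2, -⟩ := hz 0 0
      funext v
      rw [(hD.gsp x0 hx0 z k1).2.2 v, k2]
    have hfib : ∀ z1 z2 : D.Z,
        Nat.card {y : {y // csP D H0 cx X y} // csF D y.1 = (x0 1, x0 2, m, z1, z2)} =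
        if Sol D x0 ∧ Submodule.span (ZMod 2) (Set.range x0) = ⊤ ∧
          ((2 ^ cx x0 z1 z2 * ∏ g, m g ^ hind H0 g : ℕ) : ℝ) ≤ X then 1 else 0 := by
      intro z1 z2
      obtain ⟨z, k1, k2, k3, k4, k5⟩ := hz z1 z2
      exact cs_fibre H0 cx X m z1 z2 x0 hx0 z k1 k2 k3 k4 k5
    simp only [hfib, hm0, hsq, true_and]
    by_cases hs : Sol D x0 ∧ Submodule.span (ZMod 2) (Set.range x0) = ⊤
    · obtain ⟨hT, hW⟩ := h x0 hx0 hs.1 hs.2
      have hs1 := (hD.sol x0 hx0).1 hs.1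
      have hs2 := (hD.span x0 hx0).1 hs.2
      rw [hmf] at hs1 hW
      simp only [hmf] at hs2
      have hok := (cs_okp (x0 1) (x0 2) m hne).1 hs1.1
      rw [← Fintype.sum_prod_type' (f := fun z1 z2 => (((if Sol D x0 ∧
        Submodule.span (ZMod 2) (Set.range x0) = ⊤ ∧
        ((2 ^ cx x0 z1 z2 * ∏ g, m g ^ hind H0 g : ℕ) : ℝ) ≤ X then
        1 else 0 : ℕ)) : ℝ))]
      have e1 := cs_group (fun z : D.Z × D.Z => cx x0 z.1 z.2) T (fun z => hT z.1 z.2)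
        (fun t => (((if Sol D x0 ∧ Submodule.span (ZMod 2) (Set.range x0) = ⊤ ∧
        ((2 ^ t * ∏ g, m g ^ hind H0 g : ℕ) : ℝ) ≤ X then
        1 else 0 : ℕ)) : ℝ))
      rw [e1]
      refine Finset.sum_congr rfl fun t _ => ?_
      rw [hW t, if_pos (show D.Span (x0 1) (x0 2) (Finset.univ.filter fun v => D.mV m v ≠ 1) ∧
          D.q (D.vinf (x0 1) (fun v => (D.mV m v : ZMod 8))) = 0 from ⟨hs2, hs1.2⟩)]
      have e2 := cs_size H0 w hw m hm0 t hX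
      simp only [hs.1, hs.2, true_and]
      by_cases hsz : (∏ g, (m g : ℝ) ^ w.wt g) ≤ X ^ (1 / w.m : ℝ) * 2 ^ (-(t / w.m) : ℝ)
      · rw [if_pos (e2.2 hsz), if_pos ⟨hsz, hok⟩, Nat.cast_one, mul_one]
      · rw [if_neg (fun h => hsz (e2.1 h)), if_neg (fun h => hsz h.1), Nat.cast_zero, mul_zero]
    · have hl : ∀ z1 z2, ¬ (Sol D x0 ∧ Submodule.span (ZMod 2) (Set.range x0) = ⊤ ∧
          ((2 ^ cx x0 z1 z2 * ∏ g, m g ^ hind H0 g : ℕ) : ℝ) ≤ X) :=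
        fun z1 z2 hc => hs ⟨hc.1, hc.2.1⟩
      simp only [hl, if_false, Nat.cast_zero, Finset.sum_const_zero]
      symm
      apply Finset.sum_eq_zero
      intro t _
      split_ifs with c1 c2
      · exfalso
        apply hs
        constructor
        · rw [hD.sol x0 hx0, hmf]
          exact ⟨(cs_okp (x0 1) (x0 2) m hne).2 c1.2, c2.2⟩
        · rw [hD.span x0 hx0]
          simp only [hmf]
          exact c2.1
      · rfl
      · rfl
  · have hl : ∀ z1 z2, Nat.card {y : {y // csP D H0 cx X y} //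
        csF D y.1 = (a, b, m, z1, z2)} = 0 := by
      intro z1 z2
      have hE : IsEmpty {y : {y // csP D H0 cx X y} // csF D y.1 = (a, b, m, z1, z2)} := by
        constructor
        rintro ⟨⟨y, p1, p2, p3, p4, p5⟩, hy⟩
        simp only [csF, Prod.mk.injEq] at hy
        obtain ⟨h1, h2, h3, h4, h5⟩ := hy
        obtain ⟨k1, k2, -⟩ := hD.gsp y.1 p1 y.2 p2
        rw [h3] at k1 k2
        exact hg ⟨k1, k2⟩
      exact Nat.card_of_isEmpty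
    simp only [hl, Nat.cast_zero, Finset.sum_const_zero]
    symm
    apply Finset.sum_eq_zero
    intro t _
    rw [if_neg]
    rintro ⟨h1, h2, _⟩
    exact hg ⟨h1, h2⟩

open Classical in
theorem cs_box {D : Dt} (w : Wt D) (F : (Ext D → ℕ) → ℝ) (Y Y0 : ℝ) (h : Y ≤ Y0)
    (c : (Ext D → ℕ) → Prop) [∀ m, Decidable (c m)]
    (hc : ∀ m, c m → (∏ g, (m g : ℝ) ^ w.wt g) ≤ Y) :
    (∑ m ∈ Fintype.piFinset (fun _ : Ext D => Finset.Icc 1 ⌊Y⌋₊), if c m then F m else 0) =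
    ∑ m ∈ Fintype.piFinset (fun _ : Ext D => Finset.Icc 1 ⌊Y0⌋₊), if c m then F m else 0 := by
  have hf : ⌊Y⌋₊ ≤ ⌊Y0⌋₊ := Nat.floor_le_floor h
  refine Finset.sum_subset (Fintype.piFinset_subset _ _ fun _ =>
    Finset.Icc_subset_Icc_right hf) fun m hm hm' => ?_
  rw [if_neg]
  intro hcm
  apply hm'
  simp only [Fintype.mem_piFinset, Finset.mem_Icc] at hm ⊢
  exact fun g => ⟨(hm g).1, cs_le w m (fun g => (hm g).1) (hc m hcm) g⟩

open Classical in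
theorem count_sum_of {D : Dt} (hD : CsHyp D) (H0 : Subgroup (Ext D)) (w : Wt D)
    (hw : w.ind = hind H0) (cx : (ℕ →₀ D.V) → D.Z → D.Z → ℕ) (T : ℕ)
    (W : D.V → D.V → (D.V → ZMod 8) → ℕ → ℕ)
    (h : ∀ x : ℕ →₀ D.V, adm x → Sol D x → Submodule.span (ZMod 2) (Set.range x) = ⊤ →
        (∀ z1 z2, cx x z1 z2 ≤ T) ∧
        ∀ t, Nat.card {z : D.Z × D.Z // cx x z.1 z.2 = t} =
          W (x 1) (x 2) (fun v => (mfun x v : ZMod 8)) t) (X : ℝ) (hX : 1 ≤ X) :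
    (Nat.card {y : (ℕ →₀ D.V) × (ℕ →₀ D.Z) // adm y.1 ∧ adm y.2 ∧ Sol D y.1 ∧
        Submodule.span (ZMod 2) (Set.range y.1) = ⊤ ∧
        ((2 ^ cx y.1 (y.2 1) (y.2 2) * szG H0 y.1 y.2 : ℕ) : ℝ) ≤ X} : ℝ) =
      ∑ t ∈ Finset.range (T + 1),
        S w (fun a b δ Q => if D.Span a b Q ∧ D.q (D.vinf a δ) = 0 then (W a b δ t : ℝ) else 0)
          (X ^ (1 / w.m : ℝ) * 2 ^ (-(t / w.m) : ℝ)) := by
  have hX0 : (0:ℝ) ≤ X := by linarith
  have hmp : (0:ℝ) < w.m := by exact_mod_cast w.pos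
  set Y0 : ℝ := X ^ (1 / w.m : ℝ) with hY0
  have hY00 : 0 ≤ Y0 := by positivity
  have hY : ∀ t : ℕ, Y0 * (2:ℝ) ^ (-(t / w.m) : ℝ) ≤ Y0 := by
    intro t
    apply mul_le_of_le_one_right hY00
    apply Real.rpow_le_one_of_one_le_of_nonpos (by norm_num)
    rw [neg_nonpos]
    positivity
  set PM := Fintype.piFinset (fun _ : Ext D => Finset.Icc 1 ⌊Y0⌋₊) with hPM
  -- the right hand side
  have hR : ∀ t : ℕ, S w (fun a b δ Q => if D.Span a b Q ∧ D.q (D.vinf a δ) = 0 then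
      (W a b δ t : ℝ) else 0) (Y0 * (2:ℝ) ^ (-(t / w.m) : ℝ)) =
      ∑ a : D.V, ∑ b : D.V, ∑ m ∈ PM,
        if m 1 = 1 ∧ Squarefree (2 * ∏ g, m g) ∧
          (∏ g, (m g : ℝ) ^ w.wt g) ≤ Y0 * (2:ℝ) ^ (-(t / w.m) : ℝ) ∧
          ∀ g, ∀ p ∈ (m g).primeFactors, D.okp a b (D.mV m) g.v p
        then (if D.Span a b (Finset.univ.filter fun v => D.mV m v ≠ 1) ∧
            D.q (D.vinf a (fun v => (D.mV m v : ZMod 8))) = 0
          then (W a b (fun v => (D.mV m v : ZMod 8)) t : ℝ) else 0)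
        else 0 := by
    intro t
    unfold S
    refine Finset.sum_congr rfl fun a _ => Finset.sum_congr rfl fun b _ => ?_
    exact cs_box w (fun m =>
      (if D.Span a b (Finset.univ.filter fun v => D.mV m v ≠ 1) ∧
        D.q (D.vinf a (fun v => (D.mV m v : ZMod 8))) = 0
      then (W a b (fun v => (D.mV m v : ZMod 8)) t : ℝ) else 0)) _ _ (hY t)
      (fun m => m 1 = 1 ∧ Squarefree (2 * ∏ g, m g) ∧
          (∏ g, (m g : ℝ) ^ w.wt g) ≤ Y0 * (2:ℝ) ^ (-(t / w.m) : ℝ) ∧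
          ∀ g, ∀ p ∈ (m g).primeFactors, D.okp a b (D.mV m) g.v p)
      fun m hc => hc.2.2.1
  rw [Finset.sum_congr rfl fun t _ => hR t]
  -- the left hand side
  have hfin : ∀ i, Finite {y : {y // csP D H0 cx X y} // csF D y.1 = i} := by
    rintro ⟨a, b, m, z1, z2⟩
    by_cases hg : m 1 = 1 ∧ Squarefree (2 * ∏ g, m g)
    · obtain ⟨hm0, hsq⟩ := hg
      obtain ⟨x0, hx0, rfl, rfl, hz⟩ := cs_x0 hD.ex a b m hm0 hsq
      obtain ⟨z, k1, k2, k3, k4, k5⟩ := hz z1 z2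
      have hsub : Subsingleton {y : {y // csP D H0 cx X y} //
          csF D y.1 = (x0 1, x0 2, m, z1, z2)} := by
        constructor
        rintro ⟨⟨y, p1, p2, p3, p4, p5⟩, hy⟩ ⟨⟨y', q1, q2, q3, q4, q5⟩, hy'⟩
        simp only [csF, Prod.mk.injEq] at hy hy'
        obtain ⟨h1, h2, h3, h4, h5⟩ := hy
        obtain ⟨h1', h2', h3', h4', h5'⟩ := hy'
        apply Subtype.ext
        apply Subtype.ext
        simp only
        rw [k5 y p1 p2 h1 h2 h4 h5 h3, k5 y' q1 q2 h1' h2' h4' h5' h3']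
      infer_instance
    · have hE : IsEmpty {y : {y // csP D H0 cx X y} // csF D y.1 = (a, b, m, z1, z2)} := by
        constructor
        rintro ⟨⟨y, p1, p2, p3, p4, p5⟩, hy⟩
        simp only [csF, Prod.mk.injEq] at hy
        obtain ⟨h1, h2, h3, h4, h5⟩ := hy
        obtain ⟨k1, k2, -⟩ := hD.gsp y.1 p1 y.2 p2
        rw [h3] at k1 k2
        exact hg ⟨k1, k2⟩
      infer_instance
  have hmem : ∀ y : {y // csP D H0 cx X y}, csF D y.1 ∈
      (Finset.univ : Finset D.V) ×ˢ (Finset.univ : Finset D.V) ×ˢ PM ×ˢ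
        (Finset.univ : Finset D.Z) ×ˢ (Finset.univ : Finset D.Z) := by
    rintro ⟨y, p1, p2, p3, p4, p5⟩
    obtain ⟨e1, e2, -⟩ := hD.gsp y.1 p1 y.2 p2
    have hne := e2.ne_zero
    have hm1 : ∀ g, 1 ≤ gfun y.1 y.2 g := by
      intro g
      apply Nat.one_le_iff_ne_zero.2
      intro h0
      apply hne
      rw [Finset.prod_eq_zero (Finset.mem_univ g) h0, mul_zero]
    have hsz : ((2 ^ 0 * ∏ g, gfun y.1 y.2 g ^ hind H0 g : ℕ) : ℝ) ≤ X := by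
      refine le_trans ?_ p5
      have h3 : 2 ^ 0 * ∏ g, gfun y.1 y.2 g ^ hind H0 g ≤
          2 ^ cx y.1 (y.2 1) (y.2 2) * szG H0 y.1 y.2 := by
        apply Nat.mul_le_mul
        · rw [pow_zero]
          exact Nat.one_le_two_pow
        · exact le_rfl
      exact_mod_cast h3
    have h1 := (cs_size H0 w hw (gfun y.1 y.2) e1 0 hX).1 hsz
    have h2 := cs_le w _ hm1 (h1.trans (hY 0))
    simp only [csF, Finset.mem_product, Finset.mem_univ, true_and, and_true, hPM,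
      Fintype.mem_piFinset, Finset.mem_Icc]
    exact fun g => ⟨hm1 g, h2 g⟩
  have hL : (Nat.card {y // csP D H0 cx X y} : ℝ) = ∑ a : D.V, ∑ b : D.V, ∑ m ∈ PM,
      ∑ z1 : D.Z, ∑ z2 : D.Z,
      (Nat.card {y : {y // csP D H0 cx X y} // csF D y.1 = (a, b, m, z1, z2)} : ℝ) := by
    rw [cs_fib (fun y : {y // csP D H0 cx X y} => csF D y.1) _ hmem fun i _ => hfin i]
    push_cast
    simp only [Finset.sum_product]
  have hL2 : (Nat.card {y : (ℕ →₀ D.V) × (ℕ →₀ D.Z) // adm y.1 ∧ adm y.2 ∧ Sol D y.1 ∧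
        Submodule.span (ZMod 2) (Set.range y.1) = ⊤ ∧
        ((2 ^ cx y.1 (y.2 1) (y.2 2) * szG H0 y.1 y.2 : ℕ) : ℝ) ≤ X} : ℝ) =
      (Nat.card {y // csP D H0 cx X y} : ℝ) := rfl
  rw [hL2, hL]
  simp only [cs_main hD H0 w hw cx T W h X hX]
  have hsw : ∀ F : ℕ → D.V → D.V → (Ext D → ℕ) → ℝ,
      ∑ a : D.V, ∑ b : D.V, ∑ m ∈ PM, ∑ t ∈ Finset.range (T + 1), F t a b m =
      ∑ t ∈ Finset.range (T + 1), ∑ a : D.V, ∑ b : D.V, ∑ m ∈ PM, F t a b m := by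
    intro F
    have g2 : ∀ a b, ∑ m ∈ PM, ∑ t ∈ Finset.range (T + 1), F t a b m =
        ∑ t ∈ Finset.range (T + 1), ∑ m ∈ PM, F t a b m :=
      fun a b => Finset.sum_comm
    simp only [g2]
    have g3 : ∀ a, ∑ b : D.V, ∑ t ∈ Finset.range (T + 1), ∑ m ∈ PM, F t a b m =
        ∑ t ∈ Finset.range (T + 1), ∑ b : D.V, ∑ m ∈ PM, F t a b m :=
      fun a => Finset.sum_comm
    simp only [g3]
    exact Finset.sum_comm
  exact hsw _

open Classical in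
theorem count_sum (D : Dt) (H0 : Subgroup (Ext D)) (w : Wt D) (hw : w.ind = hind H0)
    (cx : (ℕ →₀ D.V) → D.Z → D.Z → ℕ) (T : ℕ) (W : D.V → D.V → (D.V → ZMod 8) → ℕ → ℕ)
    (h : ∀ x : ℕ →₀ D.V, adm x → Sol D x → Submodule.span (ZMod 2) (Set.range x) = ⊤ →
        (∀ z1 z2, cx x z1 z2 ≤ T) ∧
        ∀ t, Nat.card {z : D.Z × D.Z // cx x z.1 z.2 = t} =
          W (x 1) (x 2) (fun v => (mfun x v : ZMod 8)) t) (X : ℝ) (hX : 1 ≤ X) :
    (Nat.card {y : (ℕ →₀ D.V) × (ℕ →₀ D.Z) // adm y.1 ∧ adm y.2 ∧ Sol D y.1 ∧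
        Submodule.span (ZMod 2) (Set.range y.1) = ⊤ ∧
        ((2 ^ cx y.1 (y.2 1) (y.2 2) * szG H0 y.1 y.2 : ℕ) : ℝ) ≤ X} : ℝ) =
      ∑ t ∈ Finset.range (T + 1),
        S w (fun a b δ Q => if D.Span a b Q ∧ D.q (D.vinf a δ) = 0 then (W a b δ t : ℝ) else 0)
          (X ^ (1 / w.m : ℝ) * 2 ^ (-(t / w.m) : ℝ)) :=
  count_sum_of ⟨sol_iff D, span_iff D, gfun_spec D, exists_xz D⟩ H0 w hw cx T W h X hX

end Pool.Agent.H98.ML
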