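import Pool.Agent.H98.ML.PDefs

/-!
# Project MK2 (MP_a3214d): auxiliary primes
-/

set_option autoImplicit false

namespace Pool.Agent.H98.ML

/-- finitely many primes, one modulo eight, each a square modulo the others -/
theorem xp_primes (r : ℕ) : ∃ p : Fin r → ℕ, (∀ k, (p k).Prime) ∧ (∀ k, p k % 8 = 1) ∧
    Function.Injective p ∧ ∀ k l, k ≠ l → jacobiSym (p k) (p l) = 1 := by
  induction r with
  | zero => exact ⟨fun k => k.elim0, fun k => k.elim0, fun k => k.elim0, fun k => k.elim0,
      fun k => k.elim0⟩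
  | succ r ih =>
    obtain ⟨p, h1, h2, h3, h4⟩ := ih
    have hN : 8 * ∏ l, p l ≠ 0 :=
      mul_ne_zero (by norm_num) (Finset.prod_ne_zero_iff.2 fun l _ => (h1 l).ne_zero)
    haveI : NeZero (8 * ∏ l, p l) := ⟨hN⟩
    obtain ⟨q, hq1, hq2, hq3⟩ := Nat.forall_exists_prime_gt_and_eq_mod
      (q := 8 * ∏ l, p l) (a := 1) isUnit_one (∑ l, p l)
    have hm : q ≡ 1 [MOD 8 * ∏ l, p l] := by
      rw [← ZMod.natCast_eq_natCast_iff, hq3, Nat.cast_one]
    have hq8 : q % 8 = 1 := hm.of_dvd (Dvd.intro _ rfl)
    have hlt : ∀ l, p l < q := fun l =>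
      lt_of_le_of_lt (Finset.single_le_sum (f := p) (fun i _ => Nat.zero_le _)
        (Finset.mem_univ l)) hq1
    have hJ : ∀ l, jacobiSym q (p l) = 1 := by
      intro l
      have hd : p l ∣ 8 * ∏ l, p l :=
        (Finset.dvd_prod_of_mem p (Finset.mem_univ l)).mul_left 8
      have h5 : q ≡ 1 [MOD p l] := hm.of_dvd hd
      have h6 : ((q : ℤ)) % (p l : ℤ) = 1 % (p l : ℤ) := by
        have := (Int.natCast_modEq_iff (a := q) (b := 1) (n := p l)).2 h5
        simpa [Int.ModEq] using this
      rw [jacobiSym.mod_left' h6, jacobiSym.one_left]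
    have hJ' : ∀ l, jacobiSym (p l) q = 1 := by
      intro l
      have ho : Odd q := Nat.odd_iff.2 (by omega)
      rw [jacobiSym.quadratic_reciprocity_one_mod_four (by have := h2 l; omega) ho, hJ l]
    refine ⟨Fin.cons q p, ?_, ?_, ?_, ?_⟩
    · intro k
      refine Fin.cases ?_ (fun k => ?_) k
      · simpa using hq2
      · simpa using h1 k
    · intro k
      refine Fin.cases ?_ (fun k => ?_) k
      · simpa using hq8
      · simpa using h2 k
    · rw [Fin.cons_injective_iff]
      refine ⟨?_, h3⟩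
      rintro ⟨l, hl⟩
      have := hlt l
      omega
    · intro k l
      refine Fin.cases ?_ (fun k => ?_) k
      · refine Fin.cases ?_ (fun l => ?_) l
        · intro h
          exact absurd rfl h
        · intro _
          simpa using hJ l
      · refine Fin.cases ?_ (fun l => ?_) l
        · intro _
          simpa using hJ' k
        · intro h
          have hkl : k ≠ l := fun e => h (by rw [e])
          simpa using h4 k l hkl

theorem exists_Pr (D : Dt) : Nonempty (Pr D) := by
  obtain ⟨p, h1, h2, h3, h4⟩ := xp_primes D.r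
  exact ⟨⟨p, h1, h2, h3, h4⟩⟩

end Pool.Agent.H98.ML
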