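import Pool.Agent.H98.ML.TwoPackA
import Pool.Agent.H98.ML.LocalTwo2
import Pool.Agent.H98.ML.HomParam2

/-!
# Project MK2, row ML-M6: the exponent of 2, twists and comparison (helper64)
-/

set_option autoImplicit false

open scoped BigOperators

namespace Pool.Agent.H98.ML

open Pool.Agent.H98.MK (Om Gam dabs fld chi dd adm par lg eps par_hom par_lc mfun z12)

theorem c2_twist {D : Dt} (H0 : Subgroup (Ext D)) {x : ℕ →₀ D.V} {f : Gam → D.Z} (hx : adm x)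
    (hsp : Submodule.span (ZMod 2) (Set.range x) = ⊤) (h : IsLift D x f)
    (z z' : ℕ →₀ D.Z) (hz : adm z) (hz' : adm z') (h1 : z 1 = z' 1) (h2 : z 2 = z' 2) :
    ex H0 2 (lh (h.add z)) = ex H0 2 (lh (h.add z')) :=
  c2_twist_of (fun U _ hU h1 h2 => local_two2 U hU h1 h2) (fun hx h => lh_surj hx h) H0 hx hsp h
    z z' hz hz' h1 h2

theorem c2_shift {D : Dt} (H0 : Subgroup (Ext D)) {x x' : ℕ →₀ D.V} {f f' : Gam → D.Z}
    (hx : adm x) (hx' : adm x')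
    (hsp : Submodule.span (ZMod 2) (Set.range x) = ⊤)
    (hsp' : Submodule.span (ZMod 2) (Set.range x') = ⊤)
    (h : IsLift D x f) (h' : IsLift D x' f') (h1 : x 1 = x' 1) (h2 : x 2 = x' 2)
    (hm : ∀ v : D.V, v ≠ 0 → (mfun x v : ZMod 8) = (mfun x' v : ZMod 8)) :
    ∃ y1 y2 : D.Z, ∀ z1 z2 : D.Z,
      ex H0 2 (lh (h.add (z12 z1 z2))) = ex H0 2 (lh (h'.add (z12 (z1 + y1) (z2 + y2)))) :=
  c2_shift_of (fun U _ hU h1 h2 => local_two2 U hU h1 h2) (fun hx h => lh_surj hx h) H0 hx hx'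
    hsp hsp' h h' h1 h2 hm

end Pool.Agent.H98.ML
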