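import Pool.Agent.H98.ML.FDefs
import Pool.Agent.H98.ML.TwoPack
import Pool.Agent.H98.ML.ExistsPr

/-!
# Project MK2 (MP_a3214d): the exponents of two depend only on residues (helper74)
-/

set_option autoImplicit false

open scoped BigOperators

namespace Pool.Agent.H98.ML

open Pool.Agent.H98.MK (Om Gam dabs fld chi dd adm par lg eps par_hom par_lc mfun z12)

/-- the special parameter -/
noncomputable def ewx {D : Dt} (π : Pr D) : ℕ →₀ D.V :=
  Finsupp.embDomain ⟨π.p, π.inj⟩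
    (Finsupp.equivFunOnFinite.symm fun k : Fin D.r => (Pi.single k 1 : D.V))

theorem ewx_apply {D : Dt} (π : Pr D) (k : Fin D.r) :
    ewx π (π.p k) = (Pi.single k 1 : D.V) := by
  have h := Finsupp.embDomain_apply_self (⟨π.p, π.inj⟩ : Fin D.r ↪ ℕ)
    (Finsupp.equivFunOnFinite.symm fun k : Fin D.r => (Pi.single k 1 : D.V)) k
  exact h

theorem ewx_ne {D : Dt} (π : Pr D) {i : ℕ} (h : ewx π i ≠ 0) : ∃ k, i = π.p k := by
  by_contra hcon
  apply h
  refine Finsupp.embDomain_notin_range _ _ _ ?_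
  rintro ⟨k, hk⟩
  exact hcon ⟨k, hk.symm⟩

theorem ewx_ne2 {D : Dt} (π : Pr D) (k : Fin D.r) : π.p k ≠ 2 := by
  have := π.mod k
  omega

theorem ewx_dd {D : Dt} (π : Pr D) (k : Fin D.r) : dd (π.p k) = (π.p k : ℤ) := by
  have h := π.mod k
  have h1 := (π.prime k).ne_one
  have h2 := ewx_ne2 π k
  have h3 : π.p k % 4 = 1 := by omega
  unfold dd
  rw [if_neg h1, if_neg h2, if_pos h3]

theorem ewx_jm {D : Dt} (π : Pr D) (k : Fin D.r) : jacobiSym (-1) (π.p k) = 1 := by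
  have h := π.mod k
  have h3 : π.p k % 4 = 1 := by omega
  have ho : Odd (π.p k) := Nat.odd_iff.2 (by omega)
  rw [jacobiSym.at_neg_one ho, ZMod.χ₄_nat_one_mod_four h3]

theorem ewx_lg : lg 1 = 0 := by
  unfold lg
  rw [if_neg (by norm_num)]

theorem exists_x0 (D : Dt) : ∃ x : ℕ →₀ D.V, adm x ∧ Sol D x ∧
    Submodule.span (ZMod 2) (Set.range x) = ⊤ ∧ x 1 = 0 ∧ x 2 = 0 ∧
    ∀ v : D.V, (mfun x v : ZMod 8) = 1 := by
  obtain ⟨π⟩ := exists_Pr D
  refine ⟨ewx π, ?_, ⟨?_, ?_⟩, ?_, ?_, ?_, ?_⟩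
  · intro i hi
    obtain ⟨k, rfl⟩ := ewx_ne π hi
    exact Or.inr (π.prime k)
  · intro p _ _ hp
    obtain ⟨l, rfl⟩ := ewx_ne π hp
    rw [ewx_jm, ewx_lg, zero_smul]
    refine Finset.sum_eq_zero fun i hi => ?_
    obtain ⟨k, rfl⟩ := ewx_ne π (Finsupp.mem_support_iff.1 hi)
    beta_reduce
    by_cases hkl : π.p k = π.p l
    · rw [if_pos hkl]
    · have h1 : k ≠ l := fun h => hkl (by rw [h])
      rw [if_neg hkl, ewx_dd, π.res k l h1, ewx_lg, zero_smul]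
  · have h0 : (ewx π).sum (fun i w => if dd i < 0 then w else 0) = 0 := by
      refine Finset.sum_eq_zero fun i hi => ?_
      obtain ⟨k, rfl⟩ := ewx_ne π (Finsupp.mem_support_iff.1 hi)
      beta_reduce
      rw [if_neg]
      rw [ewx_dd, not_lt]
      exact Int.natCast_nonneg _
    rw [h0]
    show D.β 0 0 = 0
    rw [map_zero]
  · rw [eq_top_iff]
    intro v _
    have h1 : v = ∑ k, v k • (Pi.single k 1 : D.V) := by
      funext j
      rw [Finset.sum_apply]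
      simp [Pi.single_apply]
    rw [h1]
    refine Submodule.sum_mem _ fun k _ => Submodule.smul_mem _ _ (Submodule.subset_span ?_)
    exact ⟨π.p k, ewx_apply π k⟩
  · by_contra h
    obtain ⟨k, hk⟩ := ewx_ne π h
    exact (π.prime k).ne_one hk.symm
  · by_contra h
    obtain ⟨k, hk⟩ := ewx_ne π h
    exact ewx_ne2 π k hk.symm
  · intro v
    unfold mfun
    rw [Nat.cast_prod]
    refine Finset.prod_eq_one fun p hp => ?_
    have hp1 : p ∈ (ewx π).support := by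
      simp only [Finset.mem_filter] at hp
      exact hp.1
    obtain ⟨k, rfl⟩ := ewx_ne π (Finsupp.mem_support_iff.1 hp1)
    have h := π.mod k
    have h2 : ((π.p k : ℕ) : ZMod 8) = ((1 : ℕ) : ZMod 8) := by
      rw [ZMod.natCast_eq_natCast_iff]
      exact h
    rw [h2, Nat.cast_one]

theorem exists_W (D : Dt) (H0 : Subgroup (Ext D)) (cx : (ℕ →₀ D.V) → D.Z → D.Z → ℕ)
    (h : ∀ x : ℕ →₀ D.V, adm x → Sol D x → Submodule.span (ZMod 2) (Set.range x) = ⊤ →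
      ∃ (f : Gam → D.Z) (h : IsNormal D x f),
        ∀ z1 z2, cx x z1 z2 = ex H0 2 (lh (h.toIsLift.add (z12 z1 z2)))) :
    ∃ (T : ℕ) (W : D.V → D.V → (D.V → ZMod 8) → ℕ → ℕ),
      (∃ t0, t0 ≤ T ∧ 1 ≤ W 0 0 (fun _ => 1) t0) ∧
      ∀ x : ℕ →₀ D.V, adm x → Sol D x → Submodule.span (ZMod 2) (Set.range x) = ⊤ →
        (∀ z1 z2, cx x z1 z2 ≤ T) ∧
        ∀ t, Nat.card {z : D.Z × D.Z // cx x z.1 z.2 = t} =
          W (x 1) (x 2) (fun v => (mfun x v : ZMod 8)) t := by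
  classical
  -- comparison of two parameters with the same data
  have key : ∀ x x' : ℕ →₀ D.V, adm x → Sol D x → Submodule.span (ZMod 2) (Set.range x) = ⊤ →
      adm x' → Sol D x' → Submodule.span (ZMod 2) (Set.range x') = ⊤ → x 1 = x' 1 → x 2 = x' 2 →
      (fun v => (mfun x v : ZMod 8)) = (fun v => (mfun x' v : ZMod 8)) →
      ∃ y1 y2 : D.Z, ∀ z1 z2 : D.Z, cx x z1 z2 = cx x' (z1 + y1) (z2 + y2) := by
    intro x x' hx hs hp hx' hs' hp' h1 h2 hm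
    obtain ⟨f, hf, hc⟩ := h x hx hs hp
    obtain ⟨f', hf', hc'⟩ := h x' hx' hs' hp'
    obtain ⟨y1, y2, hy⟩ := c2_shift H0 hx hx' hp hp' hf.toIsLift hf'.toIsLift h1 h2
      (fun v _ => congrFun hm v)
    exact ⟨y1, y2, fun z1 z2 => by rw [hc, hc', hy]⟩
  have kcard : ∀ x x' : ℕ →₀ D.V, adm x → Sol D x → Submodule.span (ZMod 2) (Set.range x) = ⊤ →
      adm x' → Sol D x' → Submodule.span (ZMod 2) (Set.range x') = ⊤ → x 1 = x' 1 →
      x 2 = x' 2 → (fun v => (mfun x v : ZMod 8)) = (fun v => (mfun x' v : ZMod 8)) →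
      ∀ t, Nat.card {z : D.Z × D.Z // cx x z.1 z.2 = t} =
        Nat.card {z : D.Z × D.Z // cx x' z.1 z.2 = t} := by
    intro x x' hx hs hp hx' hs' hp' h1 h2 hm t
    obtain ⟨y1, y2, hy⟩ := key x x' hx hs hp hx' hs' hp' h1 h2 hm
    apply Nat.card_congr
    refine Equiv.subtypeEquiv ((Equiv.addRight y1).prodCongr (Equiv.addRight y2)) ?_
    intro z
    rw [hy z.1 z.2]
    rfl
  -- representatives
  let P : D.V × D.V × (D.V → ZMod 8) → (ℕ →₀ D.V) → Prop := fun d x =>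
    adm x ∧ Sol D x ∧ Submodule.span (ZMod 2) (Set.range x) = ⊤ ∧ x 1 = d.1 ∧ x 2 = d.2.1 ∧
      (fun v => (mfun x v : ZMod 8)) = d.2.2
  let R : D.V × D.V × (D.V → ZMod 8) → (ℕ →₀ D.V) := fun d =>
    if hd : ∃ x, P d x then hd.choose else 0
  have hR : ∀ x : ℕ →₀ D.V, adm x → Sol D x → Submodule.span (ZMod 2) (Set.range x) = ⊤ →
      P (x 1, x 2, fun v => (mfun x v : ZMod 8)) (R (x 1, x 2, fun v => (mfun x v : ZMod 8))) := by
    intro x hx hs hp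
    have hd : ∃ x', P (x 1, x 2, fun v => (mfun x v : ZMod 8)) x' :=
      ⟨x, hx, hs, hp, rfl, rfl, rfl⟩
    simp only [R, dif_pos hd]
    exact hd.choose_spec
  have hbd : ∀ x : ℕ →₀ D.V, adm x → Sol D x → Submodule.span (ZMod 2) (Set.range x) = ⊤ →
      ∀ z1 z2, cx x z1 z2 ≤
        ∑ d : D.V × D.V × (D.V → ZMod 8), ∑ z : D.Z × D.Z, cx (R d) z.1 z.2 := by
    intro x hx hs hp z1 z2
    obtain ⟨hr1, hr2, hr0, hr3, hr4, hr5⟩ := hR x hx hs hp
    obtain ⟨y1, y2, hy⟩ := key x _ hx hs hp hr1 hr2 hr0 hr3.symm hr4.symm hr5.symm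
    rw [hy]
    refine le_trans ?_ (Finset.single_le_sum (f := fun d : D.V × D.V × (D.V → ZMod 8) =>
      ∑ z : D.Z × D.Z, cx (R d) z.1 z.2) (fun _ _ => Nat.zero_le _)
      (Finset.mem_univ (x 1, x 2, fun v => (mfun x v : ZMod 8))))
    exact Finset.single_le_sum (f := fun z : D.Z × D.Z =>
      cx (R (x 1, x 2, fun v => (mfun x v : ZMod 8))) z.1 z.2) (fun _ _ => Nat.zero_le _)
      (Finset.mem_univ (z1 + y1, z2 + y2))
  refine ⟨∑ d : D.V × D.V × (D.V → ZMod 8), ∑ z : D.Z × D.Z, cx (R d) z.1 z.2,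
    fun a b δ t => Nat.card {z : D.Z × D.Z // cx (R (a, b, δ)) z.1 z.2 = t}, ?_, ?_⟩
  · obtain ⟨x0, hx0, hs0, hp0, h1, h2, h3⟩ := exists_x0 D
    refine ⟨cx x0 0 0, hbd x0 hx0 hs0 hp0 0 0, ?_⟩
    have h0 : (fun v : D.V => ((mfun x0 v : ℕ) : ZMod 8)) = fun _ => 1 := funext h3
    have hR0 := hR x0 hx0 hs0 hp0
    rw [h0, h1, h2] at hR0
    obtain ⟨hr1, hr2, hr0, hr3, hr4, hr5⟩ := hR0
    have hk := kcard x0 (R (0, 0, fun _ => 1)) hx0 hs0 hp0 hr1 hr2 hr0 (h1.trans hr3.symm)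
      (h2.trans hr4.symm) (h0.trans hr5.symm) (cx x0 0 0)
    show 1 ≤ Nat.card {z : D.Z × D.Z // cx (R (0, 0, fun _ => 1)) z.1 z.2 = cx x0 0 0}
    rw [← hk]
    have : Nonempty {z : D.Z × D.Z // cx x0 z.1 z.2 = cx x0 0 0} := ⟨⟨(0, 0), rfl⟩⟩
    exact Nat.card_pos
  · intro x hx hs hp
    obtain ⟨hr1, hr2, hr0, hr3, hr4, hr5⟩ := hR x hx hs hp
    exact ⟨hbd x hx hs hp, fun t =>
      kcard x _ hx hs hp hr1 hr2 hr0 hr3.symm hr4.symm hr5.symm t⟩

end Pool.Agent.H98.ML
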