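import Pool.Agent.H98.ML.CountParam
import Pool.Agent.H98.ML.ExistsW
import Pool.Agent.H98.ML.CountSum2

/-!
# Project MK2 (MP_a3214d): the master formula
-/

set_option autoImplicit false

open scoped BigOperators
open Filter

namespace Pool.Agent.H98.ML

open Pool.Agent.H98.MK (Om Gam dabs fld chi dd adm par lg eps par_hom par_lc mfun z12)

open Classical in
/-- the master formula -/
theorem main_alg2 (D : Dt) (H0 : Subgroup (Ext D)) (w : Wt D) (hw : w.ind = hind H0) :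
    ∃ (T : ℕ) (W : D.V → D.V → (D.V → ZMod 8) → ℕ → ℕ),
    (∃ t0, t0 ≤ T ∧ 1 ≤ W 0 0 (fun _ => 1) t0) ∧ ∀ X : ℝ, 1 ≤ X →
      (Nat.card {ρ : Gam →* Ext D // Function.Surjective ρ ∧ IsLocallyConstant ρ ∧
        (dabs (fld (H0.comap ρ)) : ℝ) ≤ X} : ℝ) =
      ∑ t ∈ Finset.range (T + 1),
        S w (fun a b δ Q => if D.Span a b Q ∧ D.q (D.vinf a δ) = 0 then (W a b δ t : ℝ) else 0)
          (X ^ (1 / w.m : ℝ) * 2 ^ (-(t / w.m) : ℝ)) := by
  obtain ⟨cx, h1, h2⟩ := count_param D H0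
  obtain ⟨T, W, hW0, hW⟩ := exists_W D H0 cx h1
  refine ⟨T, W, hW0, fun X hX => ?_⟩
  rw [h2 X]
  exact count_sum D H0 w hw cx T W hW X hX

end Pool.Agent.H98.ML
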