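import Pool.Agent.H98.ML.RLeTw

/-!
# Project MK2 (MP_a3214d), row E6: at most `b` free indices
-/

set_option autoImplicit false

open scoped BigOperators

namespace Pool.Agent.H98.ML

open Pool.Agent.H98.MK (psi jp lg eps sg p8 n7_zm2 n7_sg_sq n7_un n7_un5 n7_un7 n7_p0)

section

variable {D : Dt}

private theorem e6_coef (θ : D.V → D.V → (D.V → ZMod 8) → Finset D.V → ℝ) (a b : D.V)
    {σ : Finset D.P} {c : D.P → Fin 4} {i i' : D.P} (hi : i ∈ σ) (hi' : i' ∈ σ)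
    (hc : c i = 0) (hc' : c i' = 0) (m : ZMod 8) (hm : m * m = 1)
    (hmu : ∀ x, n7_un x → n7_un (m * x)) (t : ZMod 2)
    (h : ∀ u ∈ D.U8 σ, D.Psi θ a b σ (e6_tw m i i' u) = ((sg t : ℤ) : ℝ) * D.Psi θ a b σ u)
    (h0 : D.coef θ a b σ c ≠ 0) : t = 0 := by
  classical
  have h1 : D.coef θ a b σ c = ((sg t : ℤ) : ℝ) * D.coef θ a b σ c := by
    have h2 : ∑ u ∈ D.U8 σ, D.Psi θ a b σ u * ((∏ i ∈ σ, p8 (c i) (u i) : ℤ) : ℝ) =
        ((sg t : ℤ) : ℝ) *
          ∑ u ∈ D.U8 σ, D.Psi θ a b σ u * ((∏ i ∈ σ, p8 (c i) (u i) : ℤ) : ℝ) := by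
      rw [Finset.mul_sum]
      refine Finset.sum_nbij' (fun u => e6_tw m i i' u) (fun u => e6_tw m i i' u)
        (fun u hu => e6_tw_mem hmu hi hi' hu) (fun u hu => e6_tw_mem hmu hi hi' hu)
        (fun u _ => e6_tw_tw hm i i' u) (fun u _ => e6_tw_tw hm i i' u) ?_
      intro u hu
      rw [h u hu, ← mul_assoc, ← mul_assoc]
      have h2 : ((sg t : ℤ) : ℝ) * ((sg t : ℤ) : ℝ) = 1 := by exact_mod_cast n7_sg_sq t
      rw [h2, one_mul]
      congr 2
      refine Finset.prod_congr rfl fun k _ => ?_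
      by_cases hk : k = i ∨ k = i'
      · have h3 : c k = 0 := by
          rcases hk with rfl | rfl
          · exact hc
          · exact hc'
        rw [h3, n7_p0, n7_p0]
      · rw [e6_tw_not hk]
    unfold Dt.coef
    rw [mul_left_comm, ← h2]
  rcases n7_zm2 t with rfl | rfl
  · rfl
  · exfalso
    have h2 : (sg 1 : ℤ) = -1 := by decide
    rw [h2] at h1
    push_cast at h1
    apply h0
    linarith

private theorem e6_B_add (v w w' : D.V) : D.B v (w + w') = D.B v w + D.B v w' := by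
  unfold Dt.B
  rw [map_add, map_add, LinearMap.add_apply]
  abel

private theorem e6_B_zero (v : D.V) : D.B v 0 = 0 := by
  unfold Dt.B
  rw [map_zero, map_zero, LinearMap.zero_apply, add_zero]

private theorem e6_B_smul (v w : D.V) (x : ZMod 2) : D.B v (x • w) = x • D.B v w := by
  unfold Dt.B
  rw [map_smul, map_smul, LinearMap.smul_apply, smul_add]

private theorem e6_span {S : Set D.V} (hS : Submodule.span (ZMod 2) S = ⊤) (z : D.Z) (v : D.V)
    (h : ∀ w ∈ S, z ⬝ᵥ D.B v w = 0) (w : D.V) : z ⬝ᵥ D.B v w = 0 := by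
  have hw : w ∈ Submodule.span (ZMod 2) S := by rw [hS]; trivial
  induction hw using Submodule.span_induction with
  | mem x hx => exact h x hx
  | zero => rw [e6_B_zero, dotProduct_zero]
  | add x y _ _ hx hy => rw [e6_B_add, dotProduct_add, hx, hy, add_zero]
  | smul x y _ hy => rw [e6_B_smul, dotProduct_smul, hy, smul_zero]

variable {w : Wt D}

private theorem e6_mem_R {σ : Finset D.P} {c : D.P → Fin 4} {i : D.P} :
    i ∈ w.R σ c ↔ i ∈ σ ∧ w.ind i.1 = w.m ∧ c i = 0 ∧ ∀ j ∈ σ, D.e i j = D.e j i := by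
  simp only [Wt.R, Finset.mem_filter]

private theorem e6_q {g : Ext D} (h : w.ind g = w.m) : D.q g.v = 0 := by
  have h1 : g * g = 1 := by
    by_contra h2
    have := w.sqr g h2
    omega
  have h2 : (g * g).z = 0 := by rw [h1]; rfl
  rw [Ext.mul_z, Ext.two_Z, zero_add] at h2
  exact h2

/-- two free indices over the same element -/
private theorem e6_key (θ : D.V → D.V → (D.V → ZMod 8) → Finset D.V → ℝ) (a b : D.V)
    {σ : Finset D.P} {c : D.P → Fin 4} (hc : D.coef θ a b σ c ≠ 0)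
    (hs : D.Span a b (D.supV σ)) {i i' : D.P} (hi : i ∈ w.R σ c) (hi' : i' ∈ w.R σ c)
    (hv : i.1 = i'.1) (x : D.V) : (i.2 + i'.2) ⬝ᵥ D.B i.1.v x = 0 := by
  by_cases hne : i = i'
  · rw [hne, Ext.two_Z, zero_dotProduct]
  rw [e6_mem_R] at hi hi'
  have he : ∀ j ∈ σ, D.e i j = D.e i' j := by
    intro j hj
    rw [hi.2.2.2 j hj, hi'.2.2.2 j hj]
    unfold Dt.e
    rw [hv]
  refine e6_span hs _ _ (fun x hx => ?_) x
  rcases hx with rfl | rfl | hx
  · exact e6_coef θ x b hi.1 hi'.1 hi.2.2.1 hi'.2.2.1 7 (by decide) n7_un7 _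
      (fun u hu => e6_psi7 θ x b hi.1 hi'.1 hne hv (e6_q hi.2.1) he hu) hc
  · exact e6_coef θ a x hi.1 hi'.1 hi.2.2.1 hi'.2.2.1 5 (by decide) n7_un5 _
      (fun u hu => e6_psi5 θ a x hi.1 hi'.1 hne hv hu) hc
  · unfold Dt.supV at hx
    simp only [Finset.coe_filter, Finset.mem_univ, true_and, Set.mem_ofPred_eq] at hx
    obtain ⟨_, z, ζ, hζ⟩ := hx
    have h1 := he _ hζ
    unfold Dt.e at h1
    simp only at h1
    rw [add_dotProduct, h1, ← hv]
    exact CharTwo.add_self_eq_zero _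

end

theorem R_le2 {D : Dt} (w : Wt D) (θ : D.V → D.V → (D.V → ZMod 8) → Finset D.V → ℝ) (a b : D.V)
    (σ : Finset D.P) (hσ : σ ⊆ w.act) (c : D.P → Fin 4) (hc : D.coef θ a b σ c ≠ 0)
    (hs : D.Span a b (D.supV σ)) :
    (w.R σ c).card ≤ w.b := by
  classical
  have hact : ∀ i ∈ w.R σ c, i.1 ≠ 1 ∧ D.crep i.1 = i.1 ∧ D.zrep i.1.v i.2 = i.2 := by
    intro i hi
    have h1 := e6_mem_R.mp hi
    have h2 := hσ h1.1
    unfold Wt.act at h2
    rw [Finset.mem_filter] at h2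
    exact ⟨h2.2.1, h2.2.2 h1.2.1⟩
  let F : {i // i ∈ w.R σ c} → {c : ConjClasses (Ext D) // ∃ g : Ext D,
      ConjClasses.mk g = c ∧ g ≠ 1 ∧ w.ind g = w.m} :=
    fun i => ⟨ConjClasses.mk i.1.1, i.1.1, rfl, (hact i.1 i.2).1, (e6_mem_R.mp i.2).2.1⟩
  have hF : Function.Injective F := by
    rintro ⟨i, hi⟩ ⟨j, hj⟩ h
    have h1 : ConjClasses.mk i.1 = ConjClasses.mk j.1 := congrArg Subtype.val h
    have h2 : i.1 = j.1 := by
      rw [← (hact i hi).2.1, ← (hact j hj).2.1]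
      unfold Dt.crep
      rw [h1]
    have h3 : i.2 + j.2 ∈ D.Av i.1.v := fun x => e6_key θ a b hc hs hi hj h2 x
    have h4 : i.2 - j.2 ∈ D.Av i.1.v := by
      have h5 : i.2 - j.2 = i.2 + j.2 := by
        rw [sub_eq_iff_eq_add, add_assoc, Ext.two_Z, add_zero]
      rw [h5]
      exact h3
    have h5 : i.2 = j.2 := by
      rw [← (hact i hi).2.2, ← (hact j hj).2.2, ← h2]
      unfold Dt.zrep
      rw [(Submodule.Quotient.eq _).mpr h4]
    exact Subtype.ext (Prod.ext h2 h5)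
  have hcard : (w.R σ c).card = Nat.card {i // i ∈ w.R σ c} :=
    (Nat.card_eq_finsetCard _).symm
  have hfin : Finite {c : ConjClasses (Ext D) // ∃ g : Ext D,
      ConjClasses.mk g = c ∧ g ≠ 1 ∧ w.ind g = w.m} := inferInstance
  rw [hcard]
  exact Nat.card_le_card_of_injective F hF

end Pool.Agent.H98.ML
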