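import Pool.Agent.H98.ML.ExpLoc

/-!
# Project MK2 (MP_a3214d), row ML-E2: the expansion over the active indices (helper54)
-/

set_option autoImplicit false

open scoped BigOperators

namespace Pool.Agent.H98.ML

open Pool.Agent.H98.MK (psi jp lg eps sg p8)

open Classical in
/-- the common factor -/
noncomputable def x2Phi (D : Dt) (θ : D.V → D.V → (D.V → ZMod 8) → Finset D.V → ℝ) (a b : D.V)
    (M : D.V → ℕ) : ℝ :=
  θ a b (fun v => (M v : ZMod 8)) (Finset.univ.filter fun v => M v ≠ 1)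

/-- the conditions on the parameters -/
def x2Q {D : Dt} (w : Wt D) (Y : ℝ) (m : Ext D → ℕ) : Prop :=
  Squarefree (2 * ∏ g, m g) ∧ ∏ g, (m g : ℝ) ^ w.wt g ≤ Y

open Classical in
theorem x2_left {D : Dt} (w : Wt D) (θ : D.V → D.V → (D.V → ZMod 8) → Finset D.V → ℝ) (Y : ℝ)
    (a b : D.V) (m : Ext D → ℕ) :
    (if m 1 = 1 ∧ Squarefree (2 * ∏ g, m g) ∧ (∏ g, (m g : ℝ) ^ w.wt g) ≤ Y ∧
      ∀ g, ∀ p ∈ (m g).primeFactors, D.okp a b (D.mV m) g.v p
    then θ a b (fun v => (D.mV m v : ZMod 8)) (Finset.univ.filter fun v => D.mV m v ≠ 1)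
    else 0) = if x2Q w Y (x2psh (x2pi w) m) then
      (∏ k, ∏ p ∈ (m k).primeFactors, x2f1 D a b (D.mV (x2psh (x2pi w) m)) k p) *
        x2Phi D θ a b (D.mV (x2psh (x2pi w) m)) else 0 := by
  have hQ : x2Q w Y (x2psh (x2pi w) m) ↔
      Squarefree (2 * ∏ g, m g) ∧ (∏ g, (m g : ℝ) ^ w.wt g) ≤ Y := by
    unfold x2Q
    rw [x2_prod_psh, x2_size]
    have h1 : ∏ k, (m k : ℝ) ^ w.wt (x2pi w k) = ∏ g, (m g : ℝ) ^ w.wt g :=
      Finset.prod_congr rfl fun k _ => by rw [x2_wt_conj w (x2_pi_conj w k)]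
    rw [h1]
  rw [x2_mV_pi]
  by_cases h : Squarefree (2 * ∏ g, m g) ∧ (∏ g, (m g : ℝ) ^ w.wt g) ≤ Y
  · rw [if_pos (hQ.2 h)]
    have hsq : Squarefree (∏ g, m g) := h.1.squarefree_of_dvd (dvd_mul_left _ _)
    by_cases hc : m 1 = 1 ∧ ∀ g, ∀ p ∈ (m g).primeFactors, D.okp a b (D.mV m) g.v p
    · rw [if_pos ⟨hc.1, h.1, h.2, hc.2⟩]
      have h1 : ∏ k, ∏ p ∈ (m k).primeFactors, x2f1 D a b (D.mV m) k p = 1 := by
        refine Finset.prod_eq_one fun k _ => Finset.prod_eq_one fun p hp => ?_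
        unfold x2f1
        have hk : k ≠ 1 := by
          rintro rfl
          rw [hc.1] at hp
          simp at hp
        rw [if_neg hk, if_pos (hc.2 k p hp)]
      rw [h1, one_mul]
      rfl
    · rw [if_neg fun h' => hc ⟨h'.1, h'.2.2.2⟩]
      have h1 : ∏ k, ∏ p ∈ (m k).primeFactors, x2f1 D a b (D.mV m) k p = 0 := by
        by_contra hne
        refine hc ⟨?_, ?_⟩
        · by_contra h2
          obtain ⟨p, hp, hd⟩ := Nat.exists_prime_and_dvd h2
          have h3 : p ∈ (m 1).primeFactors :=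
            Nat.mem_primeFactors.2 ⟨hp, hd, (x2_sqf hsq 1).ne_zero⟩
          have h4 := Finset.prod_ne_zero_iff.1 (Finset.prod_ne_zero_iff.1 hne 1
            (Finset.mem_univ 1)) p h3
          unfold x2f1 at h4
          rw [if_pos rfl] at h4
          exact h4 rfl
        · intro g p hp
          by_contra h2
          have h4 := Finset.prod_ne_zero_iff.1 (Finset.prod_ne_zero_iff.1 hne g
            (Finset.mem_univ g)) p hp
          unfold x2f1 at h4
          rw [if_neg h2, ite_self] at h4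
          exact h4 rfl
      rw [h1, zero_mul]
  · rw [if_neg fun h' => h (hQ.1 h'), if_neg fun h' => h ⟨h'.2.1, h'.2.2.1⟩]

open Classical in
theorem x2_right {D : Dt} (w : Wt D) (θ : D.V → D.V → (D.V → ZMod 8) → Finset D.V → ℝ) (Y : ℝ)
    (a b : D.V) (x : D.P → ℕ) :
    (if (∀ i, i ∉ w.act → x i = 1) ∧ Squarefree (2 * ∏ i, x i) ∧
          ∏ i, (x i : ℝ) ^ w.wt i.1 ≤ Y
        then (D.sgn a b x : ℝ) * (∏ i ∈ w.act, w.kap i (x i)) *
          θ a b (fun v => (D.mof x v : ZMod 8)) (Finset.univ.filter fun v => D.mof x v ≠ 1)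
        else 0) = if x2Q w Y (x2psh (fun i : D.P => i.1) x) then
      (∏ k, ∏ p ∈ (x k).primeFactors, x2f2 w a b (D.mV (x2psh (fun i : D.P => i.1) x)) k p) *
        x2Phi D θ a b (D.mV (x2psh (fun i : D.P => i.1) x)) else 0 := by
  have hQ : x2Q w Y (x2psh (fun i : D.P => i.1) x) ↔
      Squarefree (2 * ∏ i, x i) ∧ ∏ i, (x i : ℝ) ^ w.wt i.1 ≤ Y := by
    unfold x2Q
    rw [x2_prod_psh, x2_size]
  rw [← x2_mof]
  by_cases h : Squarefree (2 * ∏ i, x i) ∧ ∏ i, (x i : ℝ) ^ w.wt i.1 ≤ Y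
  · rw [if_pos (hQ.2 h)]
    have hsq : Squarefree (∏ i, x i) := h.1.squarefree_of_dvd (dvd_mul_left _ _)
    by_cases hc : ∀ i, i ∉ w.act → x i = 1
    · rw [if_pos ⟨hc, h⟩]
      have h1 : ∏ k, ∏ p ∈ (x k).primeFactors, x2f2 w a b (D.mof x) k p =
          (D.sgn a b x : ℝ) * ∏ i ∈ w.act, w.kap i (x i) := by
        rw [← x2_sign a b x h.1]
        have h2 : ∀ k : D.P, ∏ p ∈ (x k).primeFactors, x2f2 w a b (D.mof x) k p =
            ((∏ p ∈ (x k).primeFactors, sg (k.2 ⬝ᵥ x2X D a b (D.mof x) k.1.v p) : ℤ) : ℝ) *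
              (if k ∈ w.act then w.kap k (x k) else 1) := by
          intro k
          by_cases hk : k ∈ w.act
          · rw [if_pos hk]
            unfold x2f2 Wt.kap
            rw [Finset.prod_congr rfl fun p _ => if_pos hk, Finset.prod_mul_distrib,
              Finset.prod_const]
            rw [mul_comm]
            push_cast
            congr 1
            split_ifs
            · rw [one_pow]
            · rfl
          · rw [if_neg hk, hc k hk]
            simp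
        rw [Finset.prod_congr rfl fun k _ => h2 k, Finset.prod_mul_distrib]
        push_cast
        congr 1
        rw [Finset.prod_ite_mem, Finset.univ_inter]
      rw [h1]
      rfl
    · rw [if_neg fun h' => hc h'.1]
      push Not at hc
      obtain ⟨i, hi, hx⟩ := hc
      obtain ⟨p, hp, hd⟩ := Nat.exists_prime_and_dvd hx
      have h3 : p ∈ (x i).primeFactors :=
        Nat.mem_primeFactors.2 ⟨hp, hd, (x2_sqf hsq i).ne_zero⟩
      have h5 : x2f2 w a b (D.mof x) i p = 0 := by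
        unfold x2f2
        rw [if_neg hi]
      rw [Finset.prod_eq_zero (Finset.mem_univ i) (Finset.prod_eq_zero h3 h5), zero_mul]
  · rw [if_neg fun h' => h (hQ.1 h'), if_neg fun h' => h h'.2]

open Classical in
theorem expand2 {D : Dt} (w : Wt D) (θ : D.V → D.V → (D.V → ZMod 8) → Finset D.V → ℝ) (Y : ℝ) :
    S w θ Y = ∑ a : D.V, ∑ b : D.V,
      ∑ x ∈ Fintype.piFinset (fun _ : D.P => Finset.Icc 1 ⌊Y⌋₊),
        if (∀ i, i ∉ w.act → x i = 1) ∧ Squarefree (2 * ∏ i, x i) ∧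
          ∏ i, (x i : ℝ) ^ w.wt i.1 ≤ Y
        then (D.sgn a b x : ℝ) * (∏ i ∈ w.act, w.kap i (x i)) *
          θ a b (fun v => (D.mof x v : ZMod 8)) (Finset.univ.filter fun v => D.mof x v ≠ 1)
        else 0 := by
  unfold S
  refine Finset.sum_congr rfl fun a _ => Finset.sum_congr rfl fun b _ => ?_
  have hQ : ∀ m : Ext D → ℕ, x2Q w Y m → Squarefree (∏ g, m g) ∧ ∀ g, m g ≤ ⌊Y⌋₊ := by
    intro m hm
    have h1 : Squarefree (∏ g, m g) := hm.1.squarefree_of_dvd (dvd_mul_left _ _)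
    exact ⟨h1, x2_box w Y m h1 hm.2⟩
  have e1 := x2_gen (x2pi w) ⌊Y⌋₊ (x2Q w Y) hQ (fun m => x2Phi D θ a b (D.mV m))
    (fun m k p => x2f1 D a b (D.mV m) k p)
  have e2 := x2_gen (fun i : D.P => i.1) ⌊Y⌋₊ (x2Q w Y) hQ (fun m => x2Phi D θ a b (D.mV m))
    (fun m k p => x2f2 w a b (D.mV m) k p)
  have e3 : ∀ (m : Ext D → ℕ) (g : Ext D), ∏ p ∈ (m g).primeFactors,
      ∑ k ∈ Finset.univ.filter (fun k : Ext D => x2pi w k = g), x2f1 D a b (D.mV m) k p =
      ∏ p ∈ (m g).primeFactors,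
      ∑ k ∈ Finset.univ.filter (fun k : D.P => k.1 = g), x2f2 w a b (D.mV m) k p := fun m g =>
    Finset.prod_congr rfl fun p _ => x2_local w a b (D.mV m) g p
  simp only [e3] at e1
  refine Eq.trans ?_ (e1.trans (Eq.trans ?_ (e2.symm.trans ?_)))
  · refine Finset.sum_congr ?_ fun m _ => ?_
    · congr!
    · exact (x2_left w θ Y a b m)
  · congr!
  · refine Finset.sum_congr ?_ fun x _ => ?_
    · congr!
    · exact (x2_right w θ Y a b x).symm

end Pool.Agent.H98.ML
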