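import Pool.Agent.H98.ML.Defs
import Pool.Agent.H98.MK.SgnPsi

/-!
# Project MK2 (MP_a3214d), row E3: exact supports, Fourier inversion modulo eight, basic sums
-/

set_option autoImplicit false

open scoped BigOperators
open Filter

namespace Pool.Agent.H98.ML

open Pool.Agent.H98.MK (psi jp lg eps sg p8)

private theorem e3_mem {α : Type} (i1 : DecidableEq α) [Fintype α] {δ : α → Type}
    (t : ∀ a, Finset (δ a)) (f : ∀ a, δ a) :
    f ∈ @Fintype.piFinset α i1 _ δ t ↔ ∀ a, f a ∈ t a := Fintype.mem_piFinset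

open Classical in
theorem split_supp2 {D : Dt} (w : Wt D) (Y : ℝ) (hY : 1 ≤ Y) (h : (D.P → ℕ) → ℝ) :
    ∑ x ∈ Fintype.piFinset (fun _ : D.P => Finset.Icc 1 ⌊Y⌋₊),
        (if (∀ i, i ∉ w.act → x i = 1) ∧ Squarefree (2 * ∏ i, x i) ∧
          ∏ i, (x i : ℝ) ^ w.wt i.1 ≤ Y then h x else 0) =
      ∑ σ ∈ w.act.powerset, w.SX σ Y h := by
  have hN : 1 ≤ ⌊Y⌋₊ := Nat.le_floor (by exact_mod_cast hY)
  set f : (D.P → ℕ) → ℝ := fun x =>
    if Squarefree (2 * ∏ i, x i) ∧ ∏ i, (x i : ℝ) ^ w.wt i.1 ≤ Y then h x else 0 with hf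
  have h1 : ∑ x ∈ Fintype.piFinset (fun _ : D.P => Finset.Icc 1 ⌊Y⌋₊),
        (if (∀ i, i ∉ w.act → x i = 1) ∧ Squarefree (2 * ∏ i, x i) ∧
          ∏ i, (x i : ℝ) ^ w.wt i.1 ≤ Y then h x else 0) =
      ∑ x ∈ (Fintype.piFinset (fun _ : D.P => Finset.Icc 1 ⌊Y⌋₊)).filter
        (fun x => ∀ i, i ∉ w.act → x i = 1), f x := by
    rw [Finset.sum_filter]
    refine Finset.sum_congr rfl fun x _ => ?_
    by_cases hx : ∀ i, i ∉ w.act → x i = 1
    · rw [if_pos hx]
      by_cases hc : Squarefree (2 * ∏ i, x i) ∧ ∏ i, (x i : ℝ) ^ w.wt i.1 ≤ Y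
      · rw [if_pos ⟨hx, hc⟩, hf]
        exact (if_pos hc).symm
      · rw [if_neg (fun h => hc h.2), hf]
        exact (if_neg hc).symm
    · rw [if_neg hx, if_neg (fun hc => hx hc.1)]
  rw [h1, ← Finset.sum_fiberwise_of_maps_to
    (t := w.act.powerset)
    (g := fun x : D.P → ℕ => Finset.univ.filter fun i => x i ≠ 1)]
  · refine Finset.sum_congr rfl fun σ hσ => ?_
    unfold Wt.SX
    have h0 := Finset.mem_powerset.1 hσ
    refine Finset.sum_congr ?_ fun x _ => rfl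
    ext x
    rw [Finset.mem_filter, Finset.mem_filter, e3_mem, e3_mem]
    constructor
    · rintro ⟨⟨hx, -⟩, rfl⟩ i
      have hi := Finset.mem_Icc.1 (hx i)
      by_cases hi1 : x i = 1
      · rw [if_neg (by simp [hi1]), Finset.mem_singleton]
        exact hi1
      · rw [if_pos (by simp [hi1]), Finset.mem_Icc]
        omega
    · intro hx
      refine ⟨⟨fun i => ?_, fun i hi' => ?_⟩, ?_⟩
      · have hi := hx i
        by_cases hs : i ∈ σ
        · rw [if_pos hs, Finset.mem_Icc] at hi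
          rw [Finset.mem_Icc]
          omega
        · rw [if_neg hs, Finset.mem_singleton] at hi
          rw [Finset.mem_Icc]
          omega
      · have hi := hx i
        have hs : i ∉ σ := fun hc => hi' (h0 hc)
        rwa [if_neg hs, Finset.mem_singleton] at hi
      · ext i
        simp only [Finset.mem_filter, Finset.mem_univ, true_and]
        have hi := hx i
        by_cases hs : i ∈ σ
        · rw [if_pos hs, Finset.mem_Icc] at hi
          simp only [hs, iff_true]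
          omega
        · rw [if_neg hs, Finset.mem_singleton] at hi
          simp [hs, hi]
  · intro x hx
    rw [Finset.mem_powerset]
    intro i hi
    by_contra hc
    exact (Finset.mem_filter.1 hi).2 ((Finset.mem_filter.1 hx).2 i hc)

/-- orthogonality of the four characters on the units modulo eight -/
private theorem e3_orth (u w : ZMod 8) (hu : u ∈ ({1, 3, 5, 7} : Finset (ZMod 8)))
    (hw : w ∈ ({1, 3, 5, 7} : Finset (ZMod 8))) :
    ∑ c : Fin 4, p8 c w * p8 c u = if w = u then 4 else 0 := by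
  revert u w
  decide

/-- the sum over the characters supported in `σ` -/
private theorem e3_sum (D : Dt) (σ : Finset D.P) (u w : D.P → ZMod 8) (hu : u ∈ D.U8 σ)
    (hw : w ∈ D.U8 σ) :
    ∑ c ∈ D.C4 σ, (∏ i ∈ σ, p8 (c i) (w i)) * (∏ i ∈ σ, p8 (c i) (u i)) =
      if w = u then 4 ^ σ.card else 0 := by
  classical
  have h1 : ∀ c : D.P → Fin 4, (∏ i ∈ σ, p8 (c i) (w i)) * (∏ i ∈ σ, p8 (c i) (u i)) =
      ∏ i : D.P, (if i ∈ σ then p8 (c i) (w i) * p8 (c i) (u i) else 1) := by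
    intro c
    rw [← Finset.prod_mul_distrib, Finset.prod_ite_mem, Finset.univ_inter]
  have h2 : ∑ c ∈ D.C4 σ, (∏ i ∈ σ, p8 (c i) (w i)) * (∏ i ∈ σ, p8 (c i) (u i)) =
      ∏ i : D.P, ∑ e ∈ (if i ∈ σ then (Finset.univ : Finset (Fin 4)) else {0}),
        (if i ∈ σ then p8 e (w i) * p8 e (u i) else 1) := by
    rw [Finset.prod_univ_sum]
    refine Finset.sum_congr ?_ fun c _ => h1 c
    ext c
    unfold Dt.C4
    rw [e3_mem]
  have hu' := (e3_mem _ _ _).1 hu
  have hw' := (e3_mem _ _ _).1 hw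
  have h3 : ∀ i : D.P, ∑ e ∈ (if i ∈ σ then (Finset.univ : Finset (Fin 4)) else {0}),
        (if i ∈ σ then p8 e (w i) * p8 e (u i) else 1) =
      if i ∈ σ then (if w i = u i then 4 else 0) else 1 := by
    intro i
    by_cases hi : i ∈ σ
    · have a1 := hu' i
      have a2 := hw' i
      simp only [hi, if_true] at a1 a2 ⊢
      exact e3_orth (u i) (w i) a1 a2
    · simp [hi]
  rw [h2, Finset.prod_congr rfl fun i _ => h3 i]
  by_cases h : w = u
  · subst h
    rw [if_pos rfl, Finset.prod_ite_mem, Finset.univ_inter]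
    simp
  · rw [if_neg h]
    have h4 : ∃ i, w i ≠ u i := by
      by_contra h5
      push Not at h5
      exact h (funext h5)
    obtain ⟨i, hi⟩ := h4
    refine Finset.prod_eq_zero (Finset.mem_univ i) ?_
    have hiσ : i ∈ σ := by
      by_contra h6
      have a1 := hu' i
      have a2 := hw' i
      simp only [h6, if_false, Finset.mem_singleton] at a1 a2
      exact hi (by rw [a1, a2])
    rw [if_pos hiσ, if_neg hi]

theorem fourier2 (D : Dt) (σ : Finset D.P) (F : (D.P → ZMod 8) → ℝ) (u : D.P → ZMod 8)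
    (hu : u ∈ D.U8 σ) :
    F u = ∑ c ∈ D.C4 σ, ((1 / 4) ^ σ.card * ∑ w ∈ D.U8 σ, F w * ((∏ i ∈ σ, p8 (c i) (w i) : ℤ) : ℝ))
      * ((∏ i ∈ σ, p8 (c i) (u i) : ℤ) : ℝ) := by
  classical
  have h1 : ∑ c ∈ D.C4 σ, ((1 / 4) ^ σ.card *
        ∑ w ∈ D.U8 σ, F w * ((∏ i ∈ σ, p8 (c i) (w i) : ℤ) : ℝ))
      * ((∏ i ∈ σ, p8 (c i) (u i) : ℤ) : ℝ) =
      (1 / 4 : ℝ) ^ σ.card * ∑ w ∈ D.U8 σ, F w *
        ((∑ c ∈ D.C4 σ, (∏ i ∈ σ, p8 (c i) (w i)) * (∏ i ∈ σ, p8 (c i) (u i)) : ℤ) : ℝ) := by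
    rw [Finset.mul_sum]
    have h2 : ∀ w ∈ D.U8 σ, (1 / 4 : ℝ) ^ σ.card * (F w *
        ((∑ c ∈ D.C4 σ, (∏ i ∈ σ, p8 (c i) (w i)) * (∏ i ∈ σ, p8 (c i) (u i)) : ℤ) : ℝ)) =
        ∑ c ∈ D.C4 σ, (1 / 4 : ℝ) ^ σ.card * (F w * ((∏ i ∈ σ, p8 (c i) (w i) : ℤ) : ℝ)) *
          ((∏ i ∈ σ, p8 (c i) (u i) : ℤ) : ℝ) := by
      intro w _
      rw [Int.cast_sum, Finset.mul_sum, Finset.mul_sum]
      refine Finset.sum_congr rfl fun c _ => ?_
      rw [Int.cast_mul]
      ring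
    rw [Finset.sum_congr rfl h2, Finset.sum_comm]
    refine Finset.sum_congr rfl fun c _ => ?_
    rw [Finset.mul_sum, Finset.sum_mul]
  rw [h1]
  have h3 : ∑ w ∈ D.U8 σ, F w *
        ((∑ c ∈ D.C4 σ, (∏ i ∈ σ, p8 (c i) (w i)) * (∏ i ∈ σ, p8 (c i) (u i)) : ℤ) : ℝ) =
      F u * 4 ^ σ.card := by
    rw [Finset.sum_eq_single_of_mem u hu]
    · rw [e3_sum D σ u u hu hu, if_pos rfl]
      push_cast
      ring
    · intro w hw hne
      rw [e3_sum D σ u w hu hw, if_neg hne]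
      simp
  rw [h3]
  have h4 : (1 / 4 : ℝ) ^ σ.card * (F u * 4 ^ σ.card) = F u * ((1 / 4) * 4) ^ σ.card := by
    rw [mul_pow]
    ring
  rw [h4]
  norm_num

/-- the basic sum only involves variables at least two -/
private theorem e3_TS {D : Dt} (w : Wt D) (σ : Finset D.P) (c : D.P → Fin 4) (Y : ℝ) :
    w.TSσ σ c Y = ∑ x ∈ @Fintype.piFinset {i // i ∈ σ} (Classical.decEq _) _ _
        (fun _ : {i // i ∈ σ} => Finset.Icc 2 ⌊Y⌋₊),
      @ite ℝ (Squarefree (2 * ∏ i, x i) ∧ ∏ i, (x i : ℝ) ^ w.wt i.1.1 ≤ Y)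
        (Classical.propDecidable _)
        ((∏ i : {i // i ∈ σ}, w.aw c i.1 (x i)) *
          (jp (fun i j : {i // i ∈ σ} => D.L i.1 j.1) x : ℝ)) 0 := by
  classical
  unfold Wt.TSσ GW
  symm
  refine Finset.sum_subset_zero_on_sdiff ?_ ?_ ?_
  · intro x hx
    have hx := (e3_mem _ _ _).1 hx
    refine (e3_mem _ _ _).2 fun i => ?_
    have := Finset.mem_Icc.1 (hx i)
    rw [Finset.mem_Icc]
    omega
  · intro x hx
    have hx1 := (e3_mem _ _ _).1 (Finset.mem_sdiff.1 hx).1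
    have hx2 : ¬ ∀ i, x i ∈ Finset.Icc 2 ⌊Y⌋₊ := fun hc =>
      (Finset.mem_sdiff.1 hx).2 ((e3_mem _ _ _).2 hc)
    push Not at hx2
    obtain ⟨i, hi⟩ := hx2
    have hi1 := Finset.mem_Icc.1 (hx1 i)
    rw [Finset.mem_Icc] at hi
    have h1 : ¬ 2 ≤ x i := fun hc => hi ⟨hc, hi1.2⟩
    have h2 : ∏ i : {i // i ∈ σ}, w.aw c i.1 (x i) = 0 := by
      refine Finset.prod_eq_zero (Finset.mem_univ i) ?_
      unfold Wt.aw
      exact if_neg h1
    rw [h2, zero_mul]
    split_ifs <;> rfl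
  · intro x _
    by_cases hc : Squarefree (2 * ∏ i, x i) ∧
        ∏ i : {i // i ∈ σ}, (x i : ℝ) ^ w.wt i.1.1 ≤ Y
    · rw [if_pos hc, if_pos hc]
    · rw [if_neg hc, if_neg hc]

theorem SX_TS2 {D : Dt} (w : Wt D) (σ : Finset D.P) (hσ : σ ⊆ w.act) (c : D.P → Fin 4) (Y : ℝ) :
    w.SX σ Y (fun x => ((∏ i ∈ σ, p8 (c i) (x i : ZMod 8) : ℤ) : ℝ) *
      (∏ i ∈ w.act, w.kap i (x i)) * (jp D.L x : ℝ)) = w.TSσ σ c Y := by
  classical
  rw [e3_TS]
  unfold Wt.SX
  refine Finset.sum_bij' (fun x _ => fun i : {i // i ∈ σ} => x i.1)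
    (fun y _ => fun i => if h : i ∈ σ then y ⟨i, h⟩ else 1) ?_ ?_ ?_ ?_ ?_
  · intro x hx
    have hx' := (e3_mem _ _ _).1 hx
    refine (e3_mem _ _ _).2 fun i => ?_
    have := hx' i.1
    rwa [if_pos i.2] at this
  · intro y hy
    have hy := (e3_mem _ _ _).1 hy
    refine (e3_mem _ _ _).2 fun i => ?_
    by_cases h : i ∈ σ
    · rw [if_pos h]
      simp only [h, dif_pos]
      exact hy ⟨i, h⟩
    · rw [if_neg h]
      simp [h]
  · intro x hx
    funext i
    by_cases h : i ∈ σ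
    · simp [h]
    · have := (e3_mem _ _ _).1 hx i
      rw [if_neg h, Finset.mem_singleton] at this
      simp [h, this]
  · intro y _
    funext i
    simp
  · intro x hx
    have hx0 := (e3_mem _ _ _).1 hx
    have hx1 : ∀ i, i ∉ σ → x i = 1 := by
      intro i h
      have := hx0 i
      rwa [if_neg h, Finset.mem_singleton] at this
    have hx2 : ∀ i, i ∈ σ → 2 ≤ x i := by
      intro i h
      have := hx0 i
      rw [if_pos h, Finset.mem_Icc] at this
      exact this.1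
    have e1 : ∏ i, x i = ∏ i : {i // i ∈ σ}, x i.1 := by
      rw [Finset.prod_coe_sort σ x]
      exact (Finset.prod_subset (Finset.subset_univ σ) fun i _ h => hx1 i h).symm
    have e2 : ∏ i, (x i : ℝ) ^ w.wt i.1 =
        ∏ i : {i // i ∈ σ}, (x i.1 : ℝ) ^ w.wt i.1.1 := by
      rw [Finset.prod_coe_sort σ fun i => (x i : ℝ) ^ w.wt i.1]
      refine (Finset.prod_subset (Finset.subset_univ σ) fun i _ h => ?_).symm
      rw [hx1 i h]
      simp
    rw [e1, e2]
    by_cases hc : Squarefree (2 * ∏ i : {i // i ∈ σ}, x i.1) ∧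
        ∏ i : {i // i ∈ σ}, (x i.1 : ℝ) ^ w.wt i.1.1 ≤ Y
    · rw [if_pos hc, if_pos hc]
      have hodd : ∀ i : {i // i ∈ σ}, Odd (x i.1) := by
        intro i
        by_contra h
        rw [Nat.not_odd_iff_even] at h
        have h1 : 2 ∣ ∏ i : {i // i ∈ σ}, x i.1 :=
          (even_iff_two_dvd.1 h).trans (Finset.dvd_prod_of_mem _ (Finset.mem_univ i))
        have h2 : 2 * 2 ∣ 2 * ∏ i : {i // i ∈ σ}, x i.1 := Nat.mul_dvd_mul_left 2 h1
        have h3 := hc.1 2 h2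
        rw [Nat.isUnit_iff] at h3
        omega
      have g0 : ∏ i ∈ w.act, w.kap i (x i) = ∏ i ∈ σ, w.kap i (x i) := by
        refine (Finset.prod_subset hσ fun i _ h => ?_).symm
        rw [hx1 i h]
        unfold Wt.kap
        simp
      have g1 : ((∏ i ∈ σ, p8 (c i) (x i : ZMod 8) : ℤ) : ℝ) * ∏ i ∈ w.act, w.kap i (x i) =
          ∏ i : {i // i ∈ σ}, w.aw c i.1 (x i.1) := by
        rw [g0, Int.cast_prod, ← Finset.prod_mul_distrib,
          ← Finset.prod_coe_sort σ fun i =>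
            ((p8 (c i) (x i : ZMod 8) : ℤ) : ℝ) * w.kap i (x i)]
        refine Finset.prod_congr rfl fun i _ => ?_
        unfold Wt.aw
        rw [if_pos (hx2 i.1 i.2), Pool.Agent.H98.MK.psi_p8 _ _ (hodd i)]
      have g2 : jp D.L x = jp (fun i j : {i // i ∈ σ} => D.L i.1 j.1) fun i => x i.1 := by
        unfold jp
        have b1 : ∀ i, i ∉ σ → (∏ j, if D.L i j then jacobiSym (x i) (x j) else 1) = 1 := by
          intro i h
          refine Finset.prod_eq_one fun j _ => ?_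
          rw [hx1 i h]
          simp
        have b2 : ∀ i, (∏ j, if D.L i j then jacobiSym (x i) (x j) else 1) =
            ∏ j : {j // j ∈ σ}, if D.L i j.1 then jacobiSym (x i) (x j.1) else 1 := by
          intro i
          rw [Finset.prod_coe_sort σ fun j => if D.L i j then jacobiSym (x i) (x j) else 1]
          refine (Finset.prod_subset (Finset.subset_univ σ) fun j _ h => ?_).symm
          rw [hx1 j h]
          simp
        rw [← Finset.prod_subset (Finset.subset_univ σ) fun i _ h => b1 i h,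
          ← Finset.prod_coe_sort σ fun i => ∏ j, if D.L i j then jacobiSym (x i) (x j) else 1]
        exact Finset.prod_congr rfl fun i _ => b2 i.1
      beta_reduce
      rw [g1, g2]
    · rw [if_neg hc, if_neg hc]

end Pool.Agent.H98.ML
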