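import Pool.Agent.H98.ML.SExpand2Aux
import Pool.Agent.H98.ML.Expand2
import Pool.Agent.H98.ML.SgnPsi2
import Pool.Agent.H98.ML.Fourier2

/-!
# Project MK2, row E5: `S` is a finite combination of the basic sums.
-/

set_option autoImplicit false

open scoped BigOperators
open Filter

namespace Pool.Agent.H98.ML

theorem S_expand2 {D : Dt} (w : Wt D) (θ : D.V → D.V → (D.V → ZMod 8) → Finset D.V → ℝ) (Y : ℝ)
    (hY : 1 ≤ Y) :
    S w θ Y = ∑ a : D.V, ∑ b : D.V, ∑ σ ∈ w.act.powerset,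
      ∑ c ∈ D.C4 σ, D.coef θ a b σ c * w.TSσ σ c Y :=
  S_expand2_of w θ Y (expand2 w θ Y) (split_supp2 w Y hY)
    (fun a b σ x hx hsq => sgn_psi2 D θ a b σ x hx hsq)
    (fun σ F u hu => fourier2 D σ F u hu) (fun σ hσ c => SX_TS2 w σ hσ c Y)

end Pool.Agent.H98.ML
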