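import Pool.Agent.H98.ML.MainAn2Of
import Pool.Agent.H98.ML.SExpand2
import Pool.Agent.H98.ML.RLe2
import Pool.Agent.H98.ML.CardConj
import Pool.Agent.H98.ML.ATS

/-!
# Project MK2, row E7: convergence of `S(Y) / (Y (log Y)^(b-1))`
-/

set_option autoImplicit false

open scoped BigOperators
open Filter

namespace Pool.Agent.H98.ML

theorem main_an2 {D : Dt} (w : Wt D) (θ : D.V → D.V → (D.V → ZMod 8) → Finset D.V → ℝ)
    (hθ : ∀ a b δ Q, θ a b δ Q ≠ 0 → D.Span a b Q) :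
    ∃ C : ℝ, Tendsto (fun Y : ℝ => S w θ Y / (Y * Real.log Y ^ (w.b - 1))) atTop (nhds C) := by
  refine main_an2_of ?_ w θ (fun Y hY => S_expand2 w θ Y hY)
    (fun a b σ hσ c hc hs => R_le2 w θ a b σ hσ c hc hs) (b_pos2 w) hθ
  intro ι _ w hw L hL c a ha ha2 hiso
  exact ATS w hw L hL c a ha ha2 hiso

end Pool.Agent.H98.ML
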