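import Pool.Agent.H98.ML.FDefs

/-!
# Project MK2 (MP_a3214d), row F1: the count for the data
-/

set_option autoImplicit false

open scoped BigOperators
open Filter Topology

namespace Pool.Agent.H98.ML

open Pool.Agent.H98.MK (Om Gam dabs fld chi dd adm par lg eps par_hom par_lc mfun z12)

/-- change of scale in an asymptotic formula -/
private theorem f1_scale (f : ℝ → ℝ) (k : ℕ) (C α κ : ℝ) (hα : 0 < α) (hκ : 0 < κ)
    (hf : Tendsto (fun Y : ℝ => f Y / (Y * Real.log Y ^ k)) atTop (𝓝 C)) :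
    Tendsto (fun X : ℝ => f (X ^ α * κ) / (X ^ α * Real.log X ^ k)) atTop
      (𝓝 (C * κ * α ^ k)) := by
  have hY : Tendsto (fun X : ℝ => X ^ α * κ) atTop atTop :=
    (tendsto_rpow_atTop hα).atTop_mul_const hκ
  have h1 := hf.comp hY
  have h2 : Tendsto (fun X : ℝ => Real.log (X ^ α * κ) / Real.log X) atTop (𝓝 α) := by
    have h3 : Tendsto (fun X : ℝ => α + Real.log κ / Real.log X) atTop (𝓝 (α + 0)) :=
      tendsto_const_nhds.add (Tendsto.div_atTop tendsto_const_nhds Real.tendsto_log_atTop)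
    rw [add_zero] at h3
    refine h3.congr' ?_
    filter_upwards [eventually_gt_atTop (1 : ℝ)] with X hX
    have hlX : Real.log X ≠ 0 := (Real.log_pos hX).ne'
    have hX0 : 0 < X := by linarith
    rw [Real.log_mul (Real.rpow_pos_of_pos hX0 α).ne' hκ.ne', Real.log_rpow hX0]
    field_simp
  have h4 := (h1.mul_const κ).mul (h2.pow k)
  refine h4.congr' ?_
  have hlY : Tendsto (fun X : ℝ => Real.log (X ^ α * κ)) atTop atTop :=
    Real.tendsto_log_atTop.comp hY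
  filter_upwards [eventually_gt_atTop (1 : ℝ), hlY.eventually_gt_atTop 0] with X hX hX2
  have hlX : Real.log X ≠ 0 := (Real.log_pos hX).ne'
  have hX0 : 0 < X := by linarith
  have hXa : X ^ α ≠ 0 := (Real.rpow_pos_of_pos hX0 α).ne'
  have hL : Real.log (X ^ α * κ) ≠ 0 := hX2.ne'
  simp only [Function.comp_apply]
  rw [div_pow]
  field_simp

private theorem f1_nonneg {D : Dt} (w : Wt D)
    (θ : D.V → D.V → (D.V → ZMod 8) → Finset D.V → ℝ)
    (h : ∀ a b δ Q, 0 ≤ θ a b δ Q) (Y : ℝ) : 0 ≤ S w θ Y := by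
  unfold S
  refine Finset.sum_nonneg fun a _ => Finset.sum_nonneg fun b _ => Finset.sum_nonneg fun m _ => ?_
  split_ifs
  · exact h _ _ _ _
  · exact le_rfl

/-- a limit with large values is positive -/
private theorem f1_lim (f : ℝ → ℝ) (k : ℕ) (C : ℝ)
    (hf : Tendsto (fun Y : ℝ => f Y / (Y * Real.log Y ^ k)) atTop (𝓝 C))
    (h : ∃ c : ℝ, 0 < c ∧ ∀ Y0 : ℝ, ∃ Y : ℝ, Y0 ≤ Y ∧ c * (Y * Real.log Y ^ k) ≤ f Y) :
    0 < C := by
  obtain ⟨c, hc, h⟩ := h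
  by_contra hC
  push Not at hC
  have h1 : ∀ᶠ Y : ℝ in atTop, f Y / (Y * Real.log Y ^ k) < c :=
    hf.eventually_lt_const (lt_of_le_of_lt hC hc)
  obtain ⟨Y1, hY1⟩ := Filter.eventually_atTop.1 h1
  obtain ⟨Y, hY, hY2⟩ := h (max Y1 3)
  have h3 : Y1 ≤ Y := (le_max_left _ _).trans hY
  have h4 : 3 ≤ Y := (le_max_right _ _).trans hY
  have h5 := hY1 Y h3
  have h6 : 0 < Y * Real.log Y ^ k :=
    mul_pos (by linarith) (pow_pos (Real.log_pos (by linarith)) _)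
  rw [div_lt_iff₀ h6] at h5
  linarith

open Classical in
/-- the final count for the data, from the master formula and the analytic theorem -/
theorem main_dat2_of (D : Dt) (H0 : Subgroup (Ext D)) (w : Wt D) (hw : w.ind = hind H0)
    (halg : ∀ (D : Dt) (H0 : Subgroup (Ext D)) (w : Wt D) (_ : w.ind = hind H0),
      ∃ (T : ℕ) (W : D.V → D.V → (D.V → ZMod 8) → ℕ → ℕ),
      (∃ t0, t0 ≤ T ∧ 1 ≤ W 0 0 (fun _ => 1) t0) ∧ ∀ X : ℝ, 1 ≤ X →
        (Nat.card {ρ : Gam →* Ext D // Function.Surjective ρ ∧ IsLocallyConstant ρ ∧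
          (dabs (fld (H0.comap ρ)) : ℝ) ≤ X} : ℝ) =
        ∑ t ∈ Finset.range (T + 1),
          S w (fun a b δ Q => if D.Span a b Q ∧ D.q (D.vinf a δ) = 0 then (W a b δ t : ℝ) else 0)
            (X ^ (1 / w.m : ℝ) * 2 ^ (-(t / w.m) : ℝ)))
    (han : ∀ (D : Dt) (w : Wt D) (θ : D.V → D.V → (D.V → ZMod 8) → Finset D.V → ℝ)
      (_ : ∀ a b δ Q, θ a b δ Q ≠ 0 → D.Span a b Q),
      ∃ C : ℝ, Tendsto (fun Y : ℝ => S w θ Y / (Y * Real.log Y ^ (w.b - 1))) atTop (nhds C))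
    (hpos : ∀ (D : Dt) (w : Wt D)
      (θ : D.V → D.V → (D.V → ZMod 8) → Finset D.V → ℝ) (_ : ∀ a b δ Q, 0 ≤ θ a b δ Q)
      (_ : ∀ Q, D.Span 0 0 Q → 1 ≤ θ 0 0 (fun _ => 1) Q),
      ∃ c : ℝ, 0 < c ∧ ∀ Y0 : ℝ, ∃ Y : ℝ, Y0 ≤ Y ∧
        c * (Y * Real.log Y ^ (w.b - 1)) ≤ S w θ Y) :
    ∃ C : ℝ, 0 < C ∧ Tendsto (fun X : ℝ =>
      (Nat.card {ρ : Gam →* Ext D // Function.Surjective ρ ∧ IsLocallyConstant ρ ∧
        (dabs (fld (H0.comap ρ)) : ℝ) ≤ X} : ℝ) / (X ^ (1 / w.m : ℝ) * Real.log X ^ (w.b - 1)))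
      atTop (nhds C) := by
  obtain ⟨T, W, ⟨t0, ht0, hW⟩, halg⟩ := halg D H0 w hw
  set θ : ℕ → D.V → D.V → (D.V → ZMod 8) → Finset D.V → ℝ := fun t a b δ Q =>
    if D.Span a b Q ∧ D.q (D.vinf a δ) = 0 then (W a b δ t : ℝ) else 0 with hθ
  have hm : (0 : ℝ) < w.m := by exact_mod_cast w.pos
  have hα : (0 : ℝ) < 1 / w.m := by positivity
  have hθ0 : ∀ t a b δ Q, 0 ≤ θ t a b δ Q := by
    intro t a b δ Q
    simp only [hθ]
    split_ifs
    · exact Nat.cast_nonneg _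
    · exact le_rfl
  have h1 : ∀ t, ∃ C : ℝ, Tendsto (fun Y : ℝ => S w (θ t) Y / (Y * Real.log Y ^ (w.b - 1)))
      atTop (𝓝 C) := by
    intro t
    apply han D w
    intro a b δ Q h
    by_contra hc
    apply h
    simp only [hθ]
    rw [if_neg (fun h' => hc h'.1)]
  choose C hC using h1
  have hC0 : ∀ t, 0 ≤ C t := by
    intro t
    apply ge_of_tendsto (hC t)
    filter_upwards [eventually_ge_atTop (1 : ℝ)] with Y hY
    apply div_nonneg
    · exact f1_nonneg w _ (hθ0 t) Y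
    · exact mul_nonneg (by linarith) (pow_nonneg (Real.log_nonneg hY) _)
  have hCp : 0 < C t0 := by
    refine f1_lim _ _ _ (hC t0) (hpos D w (θ t0) (hθ0 t0) fun Q hQ => ?_)
    simp only [hθ]
    rw [if_pos]
    · exact_mod_cast hW
    · refine ⟨hQ, ?_⟩
      have he : eps 1 = 0 := by decide
      unfold Dt.vinf
      simp [he, Dt.q]
  set κ : ℕ → ℝ := fun t => (2 : ℝ) ^ (-(t / w.m) : ℝ) with hκ
  have hκ0 : ∀ t, 0 < κ t := fun t => Real.rpow_pos_of_pos (by norm_num) _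
  refine ⟨∑ t ∈ Finset.range (T + 1), C t * κ t * (1 / w.m : ℝ) ^ (w.b - 1), ?_, ?_⟩
  · apply Finset.sum_pos'
    · intro t _
      have := hC0 t
      have := hκ0 t
      positivity
    · refine ⟨t0, Finset.mem_range.2 (by omega), ?_⟩
      have := hκ0 t0
      positivity
  · have h2 : Tendsto (fun X : ℝ => ∑ t ∈ Finset.range (T + 1),
        S w (θ t) (X ^ (1 / w.m : ℝ) * κ t) / (X ^ (1 / w.m : ℝ) * Real.log X ^ (w.b - 1))) atTop
        (𝓝 (∑ t ∈ Finset.range (T + 1), C t * κ t * (1 / w.m : ℝ) ^ (w.b - 1))) :=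
      tendsto_finsetSum _ fun t _ => f1_scale _ _ _ _ _ hα (hκ0 t) (hC t)
    refine h2.congr' ?_
    filter_upwards [eventually_ge_atTop (1 : ℝ)] with X hX
    rw [halg X hX, Finset.sum_div]

end Pool.Agent.H98.ML
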