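import Pool.Agent.H98.ML.PDefs
import Pool.Agent.H98.MK.Expand2

/-!
# Project MK2, row P3: the sign of an expanded term of the positive family (helper37)
-/

set_option autoImplicit false

open scoped BigOperators

namespace Pool.Agent.H98.ML

open Pool.Agent.H98.MK (psi jp lg eps sg p8 ss_add ss_sum xp_sg xp_jac_primes_left
  xp_jac_right xp_ite_prod)

variable {D : Dt}

/-- the commutator map -/
noncomputable def fxB (v : D.V) : D.V →ₗ[ZMod 2] D.Z := D.β v + D.β.flip v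

theorem fxB_apply (v w : D.V) : fxB v w = D.B v w := rfl

theorem fx_B_zero (v : D.V) : D.B v 0 = 0 := by rw [← fxB_apply, map_zero]

theorem fx_B_zero_left (v : D.V) : D.B 0 v = 0 := by simp [Dt.B]

theorem fx_B_self (v : D.V) : D.B v v = 0 := by
  unfold Dt.B
  exact Ext.two_Z _

/-- the vector of a prime -/
noncomputable def fxW (π : Pr D) (m : D.V → ℕ) (p : ℕ) : D.V :=
  frob π p + ∑ u : D.V, lg (jacobiSym p (m u)) • u

theorem fx_dot (π : Pr D) (m : D.V → ℕ) (p : ℕ) (v : D.V) (ζ : D.Z) :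
    ζ ⬝ᵥ D.B v (fxW π m p) = ζ ⬝ᵥ D.B v (frob π p) +
      ∑ u : D.V, lg (jacobiSym p (m u)) * (ζ ⬝ᵥ D.B v u) := by
  unfold fxW
  rw [← fxB_apply, map_add, map_sum, dotProduct_add, dotProduct_sum, fxB_apply]
  congr 1
  refine Finset.sum_congr rfl fun u _ => ?_
  rw [map_smul, dotProduct_smul, smul_eq_mul, fxB_apply]

theorem fx_lg_mul (a b : ℤ) (ha : a = 1 ∨ a = -1) (hb : b = 1 ∨ b = -1) :
    lg (a * b) = lg a + lg b := by
  rcases ha with rfl | rfl <;> rcases hb with rfl | rfl <;> decide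

theorem fx_lg_prod (m : ℕ) (s : Finset ℕ) (hs : ∀ p ∈ s, Nat.Coprime p m) :
    ∑ p ∈ s, lg (jacobiSym p m) = lg (jacobiSym ((∏ p ∈ s, p : ℕ) : ℤ) m) := by
  induction s using Finset.induction_on with
  | empty => simp [jacobiSym.one_left, lg]
  | insert a s ha ih =>
    rw [Finset.sum_insert ha, Finset.prod_insert ha,
      ih fun p hp => hs p (Finset.mem_insert_of_mem hp)]
    push_cast
    rw [jacobiSym.mul_left, fx_lg_mul]
    · exact jacobiSym.eq_one_or_neg_one (hs a (Finset.mem_insert_self a s))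
    · have h1 : Nat.Coprime (∏ p ∈ s, p) m :=
        Nat.Coprime.prod_left fun p hp => hs p (Finset.mem_insert_of_mem hp)
      have h2 : ((∏ p ∈ s, p : ℕ) : ℤ).gcd m = 1 := h1
      have h3 := jacobiSym.eq_one_or_neg_one h2
      push_cast at h3
      exact h3

theorem fx_frob (π : Pr D) (n : ℕ) (hn : Squarefree n) (hc : ∀ k, Nat.Coprime n (π.p k)) :
    ∑ p ∈ n.primeFactors, frob π p = frob π n := by
  funext k
  rw [Finset.sum_apply]
  unfold frob
  rw [fx_lg_prod (π.p k) n.primeFactors fun p hp =>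
    Nat.Coprime.coprime_dvd_left (Nat.dvd_of_mem_primeFactors hp) (hc k),
    Nat.prod_primeFactors_of_squarefree hn]

theorem fx_mof_zero (x : D.P → ℕ) : D.mof x 0 = 1 := by simp [Dt.mof]

theorem fx_mof (x : D.P → ℕ) {v : D.V} (hv : v ≠ 0) :
    D.mof x v = ∏ z : D.Z, ∏ ζ : D.Z, x (⟨v, z⟩, ζ) := by simp [Dt.mof, hv]

/-- products over the indices -/
theorem fx_prod {M : Type*} [CommMonoid M] (F : D.P → M) :
    ∏ i, F i = ∏ v : D.V, ∏ z : D.Z, ∏ ζ : D.Z, F (⟨v, z⟩, ζ) := by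
  rw [Fintype.prod_prod_type]
  rw [← (Ext.equivProd (D := D)).symm.prod_comp (fun g => ∏ ζ : D.Z, F (g, ζ)),
    Fintype.prod_prod_type]
  rfl

theorem fx_prod_ext {M : Type*} [CommMonoid M] (F : Ext D → M) :
    ∏ g, F g = ∏ v : D.V, ∏ z : D.Z, F ⟨v, z⟩ := by
  rw [← (Ext.equivProd (D := D)).symm.prod_comp F, Fintype.prod_prod_type]
  rfl

theorem fx_sqf {ι : Type} [Fintype ι] (x : ι → ℕ) (hx : Squarefree (∏ i, x i)) (i : ι) :
    Squarefree (x i) :=
  hx.squarefree_of_dvd (Finset.dvd_prod_of_mem x (Finset.mem_univ i))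

theorem fx_cop {ι : Type} [Fintype ι] (x : ι → ℕ) (hx : Squarefree (∏ i, x i)) (i j : ι)
    (hij : i ≠ j) {p : ℕ} (hp : p.Prime) (hpi : p ∣ x i) : ¬ p ∣ x j := by
  classical
  intro hpj
  have h1 : x i * x j ∣ ∏ i, x i := by
    rw [← Finset.mul_prod_erase Finset.univ x (Finset.mem_univ i)]
    refine mul_dvd_mul_left _ (Finset.dvd_prod_of_mem x ?_)
    exact Finset.mem_erase.2 ⟨hij.symm, Finset.mem_univ _⟩
  exact hp.one_lt.ne' (Nat.isUnit_iff.1 (hx p ((mul_dvd_mul hpi hpj).trans h1)))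

/-- the sign at one prime -/
theorem fx_one (π : Pr D) (x : D.P → ℕ) (hx : Squarefree (∏ i, x i)) (i : D.P) {p : ℕ}
    (hp : p.Prime) (hpi : p ∣ x i) :
    sg (i.2 ⬝ᵥ D.B i.1.v (fxW π (D.mof x) p)) = sg (i.2 ⬝ᵥ D.B i.1.v (frob π p)) *
      ∏ u : D.V, if i.2 ⬝ᵥ D.B i.1.v u = 1 then jacobiSym p (D.mof x u) else 1 := by
  rw [fx_dot, ss_add, ss_sum]
  congr 1
  refine Finset.prod_congr rfl fun u _ => xp_sg _ _ ?_
  by_cases hu0 : u = 0
  · left
    rw [hu0, fx_B_zero, dotProduct_zero]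
  · by_cases huv : u = i.1.v
    · left
      rw [huv, fx_B_self, dotProduct_zero]
    · right
      refine jacobiSym.eq_one_or_neg_one ?_
      rw [fx_mof x hu0, Int.gcd_natCast_natCast]
      refine Nat.Coprime.prod_right fun z _ => Nat.Coprime.prod_right fun ξ _ =>
        (Nat.Prime.coprime_iff_not_dvd hp).2 ?_
      refine fx_cop x hx i (⟨u, z⟩, ξ) (fun h => huv ?_) hp hpi
      rw [h]

/-- the sign of one index -/
theorem fx_G (π : Pr D) (x : D.P → ℕ) (hx : Squarefree (∏ i, x i))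
    (hc : ∀ i k, Nat.Coprime (x i) (π.p k)) (i : D.P) :
    ∏ p ∈ (x i).primeFactors, sg (i.2 ⬝ᵥ D.B i.1.v (fxW π (D.mof x) p)) =
      (∏ j, if D.e i j = 1 then jacobiSym (x i) (x j) else 1) *
        sg (i.2 ⬝ᵥ D.B i.1.v (frob π (x i))) := by
  have hsq := fx_sqf x hx i
  have h1 : ∀ p ∈ (x i).primeFactors, sg (i.2 ⬝ᵥ D.B i.1.v (fxW π (D.mof x) p)) =
      sg (i.2 ⬝ᵥ D.B i.1.v (frob π p)) *
        ∏ u : D.V, if i.2 ⬝ᵥ D.B i.1.v u = 1 then jacobiSym p (D.mof x u) else 1 :=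
    fun p hp => fx_one π x hx i (Nat.prime_of_mem_primeFactors hp)
      (Nat.dvd_of_mem_primeFactors hp)
  rw [Finset.prod_congr rfl h1, Finset.prod_mul_distrib, mul_comm]
  congr 1
  · rw [Finset.prod_comm, fx_prod]
    refine Finset.prod_congr rfl fun u _ => ?_
    rw [xp_ite_prod, xp_jac_primes_left _ _ hsq]
    show _ = ∏ z : D.Z, ∏ ξ : D.Z,
      if i.2 ⬝ᵥ D.B i.1.v u = 1 then jacobiSym (x i) (x (⟨u, z⟩, ξ)) else 1
    split_ifs with h
    · by_cases hu : u = 0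
      · subst hu
        rw [fx_B_zero, dotProduct_zero] at h
        exact absurd h zero_ne_one
      · rw [fx_mof x hu, xp_jac_right _ _ _ fun z _ => Finset.prod_ne_zero_iff.2 fun ξ _ =>
          (fx_sqf x hx _).ne_zero]
        refine Finset.prod_congr rfl fun z _ => ?_
        rw [xp_jac_right _ _ _ fun ξ _ => (fx_sqf x hx _).ne_zero]
    · simp
  · rw [← ss_sum, ← dotProduct_sum]
    congr 2
    rw [← fxB_apply, ← fx_frob π (x i) hsq (hc i), map_sum]
    rfl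

open Classical in
/-- the sign of a tuple -/
theorem fx_sign (π : Pr D) (x : D.P → ℕ) (hx : Squarefree (∏ i, x i))
    (hc : ∀ i k, Nat.Coprime (x i) (π.p k)) :
    ∏ i : D.P, ∏ p ∈ (x i).primeFactors, sg (i.2 ⬝ᵥ D.B i.1.v (fxW π (D.mof x) p)) =
      Wt.sgF π x := by
  unfold Wt.sgF
  rw [← Finset.prod_mul_distrib]
  exact Finset.prod_congr rfl fun i _ => fx_G π x hx hc i

end Pool.Agent.H98.ML
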