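import Pool.Agent.H98.MK.SumSg

/-!
# Project MK2, row P3: grouping of a sum over squarefree tuples (helper37)
-/

set_option autoImplicit false

open scoped BigOperators

namespace Pool.Agent.H98.ML

open Pool.Agent.H98.MK (psi jp lg eps sg p8 prod_sum_sqfree)

/-- products over the fibres -/
def fib {ι κ : Type} [DecidableEq κ] (A : Finset ι) (f : ι → κ) (y : ι → ℕ) (k : κ) : ℕ :=
  ∏ i ∈ A.filter (fun i => f i = k), y i

open Classical in
/-- a sum over squarefree tuples, grouped by the products over the fibres -/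
theorem grp_sum {ι κ : Type} [Fintype ι] [Fintype κ] [DecidableEq ι] [DecidableEq κ] (A : Finset ι) (f : ι → κ) (N : ℕ)
    (P : (κ → ℕ) → Prop) (hsq : ∀ D, P D → ∀ k, Squarefree (D k))
    (hN : ∀ D, P D → ∀ k, D k ≤ N) (c : (κ → ℕ) → ι → ℕ → ℤ) :
    ∑ y ∈ Fintype.piFinset (fun _ : ι => Finset.Icc 1 N),
      (if (∀ i, i ∉ A → y i = 1) ∧ P (fib A f y)
        then ∏ i, ∏ p ∈ (y i).primeFactors, c (fib A f y) i p else 0) =
    ∑ D ∈ Fintype.piFinset (fun _ : κ => Finset.Icc 1 N),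
      (if P D then ∏ k, ∏ p ∈ (D k).primeFactors, ∑ i ∈ A.filter (fun i => f i = k), c D i p
        else 0) := by
  rw [← Finset.sum_filter]
  have hmaps : ∀ y ∈ (Fintype.piFinset (fun _ : ι => Finset.Icc 1 N)).filter (fun y =>
      (∀ i, i ∉ A → y i = 1) ∧ P (fib A f y)),
      fib A f y ∈ Fintype.piFinset (fun _ : κ => Finset.Icc 1 N) := by
    intro y hy
    obtain ⟨-, -, h⟩ := Finset.mem_filter.1 hy
    refine Fintype.mem_piFinset.2 fun k => Finset.mem_Icc.2 ⟨?_, hN _ h k⟩
    exact Nat.one_le_iff_ne_zero.2 (hsq _ h k).ne_zero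
  rw [← Finset.sum_fiberwise_of_maps_to hmaps]
  refine Finset.sum_congr rfl fun D hD => ?_
  have hD1 : ∀ k, 1 ≤ D k ∧ D k ≤ N := fun k =>
    Finset.mem_Icc.1 (Fintype.mem_piFinset.1 hD k)
  have hmem : ∀ y : ι → ℕ, y ∈ ((Fintype.piFinset (fun _ : ι => Finset.Icc 1 N)).filter
      (fun y => (∀ i, i ∉ A → y i = 1) ∧ P (fib A f y))).filter (fun y => fib A f y = D) ↔
      (∀ i, 1 ≤ y i ∧ y i ≤ N) ∧ (∀ i, i ∉ A → y i = 1) ∧ fib A f y = D ∧ P D := by
    intro y
    rw [Finset.mem_filter, Finset.mem_filter, Fintype.mem_piFinset]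
    constructor
    · rintro ⟨⟨h1, h2, h3⟩, rfl⟩
      exact ⟨fun i => Finset.mem_Icc.1 (h1 i), h2, rfl, h3⟩
    · rintro ⟨h1, h2, rfl, h3⟩
      exact ⟨⟨fun i => Finset.mem_Icc.2 (h1 i), h2, h3⟩, rfl⟩
  by_cases hP : P D
  · rw [if_pos hP]
    have h1 : ∀ k : κ, ∏ p ∈ (D k).primeFactors,
        ∑ i ∈ A.filter (fun i => f i = k), c D i p =
        ∑ d ∈ (Fintype.piFinset
          (fun _ : {i // i ∈ A.filter (fun i => f i = k)} => (D k).divisors)).filter
          (fun d => ∏ s, d s = D k), ∏ s, ∏ p ∈ (d s).primeFactors, c D s.1 p := by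
      intro k
      rw [← prod_sum_sqfree (D k) (hsq D hP k)
        (fun p (s : {i // i ∈ A.filter (fun i => f i = k)}) => c D s.1 p)]
      refine Finset.prod_congr rfl fun p _ => ?_
      exact (Finset.sum_coe_sort (A.filter (fun i => f i = k)) (fun i => c D i p)).symm
    simp only [h1]
    rw [Finset.prod_univ_sum]
    refine Finset.sum_bij' (fun y _ k s => y s.1)
      (fun d _ i => if h : i ∈ A then d (f i) ⟨i, Finset.mem_filter.2 ⟨h, rfl⟩⟩ else 1)
      ?_ ?_ ?_ ?_ ?_
    · intro y hy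
      obtain ⟨h2, h3, h4, -⟩ := (hmem y).1 hy
      refine Fintype.mem_piFinset.2 fun k => Finset.mem_filter.2 ⟨?_, ?_⟩
      · refine Fintype.mem_piFinset.2 fun s => Nat.mem_divisors.2 ⟨?_, ?_⟩
        · rw [← h4]
          exact Finset.dvd_prod_of_mem y s.2
        · have := (hD1 k).1
          omega
      · rw [← h4]
        exact Finset.prod_coe_sort (A.filter (fun i => f i = k)) y
    · intro d hd
      have hd1 : ∀ k, (∀ s, d k s ∣ D k) ∧ ∏ s, d k s = D k := fun k => by
        obtain ⟨h1, h2⟩ := Finset.mem_filter.1 (Fintype.mem_piFinset.1 hd k)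
        exact ⟨fun s => Nat.dvd_of_mem_divisors (Fintype.mem_piFinset.1 h1 s), h2⟩
      refine (hmem _).2 ⟨fun i => ?_, fun i hi => ?_, ?_, hP⟩
      · by_cases hi : i ∈ A
        · rw [dif_pos hi]
          have h2 := (hd1 (f i)).1 ⟨i, Finset.mem_filter.2 ⟨hi, rfl⟩⟩
          exact ⟨Nat.pos_of_dvd_of_pos h2 (hD1 _).1,
            (Nat.le_of_dvd (hD1 _).1 h2).trans (hD1 _).2⟩
        · rw [dif_neg hi]
          exact ⟨le_rfl, (hD1 (f i)).1.trans (hD1 (f i)).2⟩
      · rw [dif_neg hi]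
      · funext k
        unfold fib
        rw [← (hd1 k).2, ← Finset.prod_coe_sort]
        refine Finset.prod_congr rfl fun s _ => ?_
        obtain ⟨i, hi⟩ := s
        obtain ⟨h2, h3⟩ := Finset.mem_filter.1 hi
        subst h3
        simp only
        rw [dif_pos h2]
    · intro y hy
      obtain ⟨-, h3, -, -⟩ := (hmem y).1 hy
      funext i
      by_cases hi : i ∈ A
      · rw [dif_pos hi]
      · rw [dif_neg hi, h3 i hi]
    · intro d _
      funext k s
      obtain ⟨i, hi⟩ := s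
      obtain ⟨h2, h3⟩ := Finset.mem_filter.1 hi
      subst h3
      simp only
      rw [dif_pos h2]
    · intro y hy
      obtain ⟨-, h3, h4, -⟩ := (hmem y).1 hy
      rw [h4]
      have h5 : ∏ i, ∏ p ∈ (y i).primeFactors, c D i p =
          ∏ i ∈ A, ∏ p ∈ (y i).primeFactors, c D i p := by
        refine (Finset.prod_subset (Finset.subset_univ A) fun i _ hi => ?_).symm
        rw [h3 i hi]
        simp
      rw [h5, ← Finset.prod_fiberwise A f]
      refine Finset.prod_congr rfl fun k _ => ?_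
      exact (Finset.prod_coe_sort (A.filter (fun i => f i = k))
        (fun i => ∏ p ∈ (y i).primeFactors, c D i p)).symm
  · rw [if_neg hP]
    refine Finset.sum_eq_zero fun y hy => ?_
    exact absurd ((hmem y).1 hy).2.2.2 hP

end Pool.Agent.H98.ML
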