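import Pool.Agent.H98.ML.PDefs
import Pool.Agent.H98.ML.CardConj
import Pool.Agent.H98.ML.Grp
import Pool.Agent.H98.ML.FSgn

/-!
# Project MK2, row P3: the expansion of the positive family (helper37)
-/

set_option autoImplicit false

open scoped BigOperators

namespace Pool.Agent.H98.ML

open Pool.Agent.H98.MK (psi jp lg eps sg p8)

variable {D : Dt}

theorem fx_crep_mk (g : Ext D) : ConjClasses.mk (D.crep g) = ConjClasses.mk g :=
  Quotient.out_eq _

theorem fx_crep_conj (g : Ext D) : IsConj (D.crep g) g :=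
  ConjClasses.mk_eq_mk_iff_isConj.1 (fx_crep_mk g)

theorem fx_crep_congr {g h : Ext D} (hgh : IsConj g h) : D.crep g = D.crep h := by
  unfold Dt.crep
  rw [ConjClasses.mk_eq_mk_iff_isConj.2 hgh]

theorem fx_crep_crep (g : Ext D) : D.crep (D.crep g) = D.crep g :=
  fx_crep_congr (fx_crep_conj g)

theorem fx_conj_v {g h : Ext D} (hgh : IsConj g h) : g.v = h.v := by
  obtain ⟨c, rfl⟩ := isConj_iff.1 hgh
  simp only [Ext.mul_v, Ext.inv_v]
  calc g.v = g.v + (c.v + c.v) := by rw [Ext.two_V, add_zero]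
    _ = c.v + g.v + c.v := by abel

theorem fx_crep_v (g : Ext D) : (D.crep g).v = g.v := fx_conj_v (fx_crep_conj g)

theorem fx_IsM_conj (w : Wt D) {g h : Ext D} (hgh : IsConj g h) : w.IsM g ↔ w.IsM h := by
  obtain ⟨c, rfl⟩ := isConj_iff.1 hgh
  unfold Wt.IsM
  rw [w.conj]
  refine and_congr_left fun _ => not_congr ?_
  rw [conj_eq_one_iff]

theorem fx_IsM_crep (w : Wt D) (g : Ext D) : w.IsM (D.crep g) ↔ w.IsM g :=
  fx_IsM_conj w (fx_crep_conj g)

open Classical in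
theorem fx_mem_actM (w : Wt D) (i : D.P) :
    i ∈ w.actM ↔ (w.IsM i.1 ∧ D.crep i.1 = i.1) ∧ D.zrep i.1.v i.2 = i.2 := by
  unfold Wt.actM Wt.act Wt.IsM
  simp only [Finset.mem_filter, Finset.mem_univ, true_and]
  tauto

open Classical in
/-- products of fibre products over a vector -/
theorem fx_mV_fib {ι : Type} [Fintype ι] (A : Finset ι) (f : ι → Ext D) (y : ι → ℕ)
    (hy : ∀ i, i ∉ A → y i = 1) (v : D.V) :
    ∏ z : D.Z, fib A f y ⟨v, z⟩ = ∏ i, if (f i).v = v then y i else 1 := by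
  have h1 : (∏ i, if (f i).v = v then y i else 1) =
      ∏ i ∈ A.filter (fun i => (f i).v = v), y i := by
    rw [Finset.prod_filter]
    refine (Finset.prod_subset (Finset.subset_univ A) fun i _ hi => ?_).symm
    rw [hy i hi, ite_self]
  rw [h1, ← Finset.prod_fiberwise (A.filter (fun i => (f i).v = v)) (fun i => (f i).z)]
  refine Finset.prod_congr rfl fun z _ => ?_
  unfold fib
  refine Finset.prod_congr ?_ fun _ _ => rfl
  ext i
  simp only [Finset.mem_filter]
  constructor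
  · rintro ⟨h2, h3⟩
    exact ⟨⟨h2, by rw [h3]⟩, by rw [h3]⟩
  · rintro ⟨⟨h2, h3⟩, h4⟩
    exact ⟨h2, Ext.ext h3 h4⟩

open Classical in
theorem fx_prod_fib {ι : Type} [Fintype ι] (A : Finset ι) (f : ι → Ext D) (y : ι → ℕ)
    (hy : ∀ i, i ∉ A → y i = 1) : ∏ g, fib A f y g = ∏ i, y i := by
  unfold fib
  rw [Finset.prod_fiberwise A f]
  exact Finset.prod_subset (Finset.subset_univ A) fun i _ hi => hy i hi

open Classical in
theorem fx_mV_ext (A : Finset (Ext D)) (f : Ext D → Ext D) (hf : ∀ g, (f g).v = g.v)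
    (y : Ext D → ℕ) (hy : ∀ i, i ∉ A → y i = 1) : D.mV (fib A f y) = D.mV y := by
  funext v
  unfold Dt.mV
  split_ifs with hv
  · rfl
  · rw [fx_mV_fib A f y hy, fx_prod_ext]
    simp only [hf]
    rw [Finset.prod_eq_single v]
    · simp
    · intro u _ hu
      simp [hu]
    · intro h
      exact absurd (Finset.mem_univ v) h

open Classical in
theorem fx_mV_P (A : Finset D.P) (x : D.P → ℕ) (hx : ∀ i, i ∉ A → x i = 1) :
    D.mV (fib A Prod.fst x) = D.mof x := by
  funext v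
  unfold Dt.mV Dt.mof
  split_ifs with hv
  · rfl
  · rw [fx_mV_fib A Prod.fst x hx, fx_prod]
    simp only
    rw [Finset.prod_eq_single v]
    · simp
    · intro u _ hu
      simp [hu]
    · intro h
      exact absurd (Finset.mem_univ v) h

/-- the conditions on the grouped tuple -/
def fxP (w : Wt D) (π : Pr D) (Y : ℝ) (M : Ext D → ℕ) : Prop :=
  (∀ g, ¬ (w.IsM g ∧ D.crep g = g) → M g = 1) ∧
    Squarefree (2 * (∏ k, π.p k) * ∏ g, M g) ∧ (∏ g, (M g : ℝ)) ≤ Y ∧ Cnd π (D.mV M)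

theorem fxP_sq (w : Wt D) (π : Pr D) (Y : ℝ) (M : Ext D → ℕ) (h : fxP w π Y M) (g : Ext D) :
    Squarefree (M g) :=
  fx_sqf M (h.2.1.squarefree_of_dvd (dvd_mul_left _ _)) g

theorem fxP_le (w : Wt D) (π : Pr D) (Y : ℝ) (M : Ext D → ℕ) (h : fxP w π Y M) (g : Ext D) :
    M g ≤ ⌊Y⌋₊ := by
  refine Nat.le_floor ?_
  have h1 : M g ≤ ∏ g, M g :=
    Nat.le_of_dvd (Finset.prod_pos fun u _ => Nat.pos_of_ne_zero (fxP_sq w π Y M h u).ne_zero)
      (Finset.dvd_prod_of_mem _ (Finset.mem_univ g))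
  have h2 : (M g : ℝ) ≤ ((∏ g, M g : ℕ) : ℝ) := by exact_mod_cast h1
  rw [Nat.cast_prod] at h2
  exact h2.trans h.2.2.1

open Classical in
/-- the coefficients of both expansions agree -/
theorem fx_coef (w : Wt D) (k : Ext D) (hk : w.IsM k ∧ D.crep k = k) (W : D.V) :
    ∑ g ∈ (Finset.univ.filter fun g => w.IsM g).filter (fun g => D.crep g = k),
      (if D.B g.v W = 0 then (1 : ℤ) else 0) =
    ∑ i ∈ w.actM.filter (fun i => i.1 = k), sg (i.2 ⬝ᵥ D.B i.1.v W) := by
  have h1 : ∑ i ∈ w.actM.filter (fun i => i.1 = k), sg (i.2 ⬝ᵥ D.B i.1.v W) =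
      ∑ ζ ∈ Finset.univ.filter (fun ζ : D.Z => D.zrep k.v ζ = ζ), sg (ζ ⬝ᵥ D.B k.v W) := by
    refine Finset.sum_bij' (fun i _ => i.2) (fun ζ _ => (k, ζ)) ?_ ?_ ?_ ?_ ?_
    · intro i hi
      obtain ⟨h2, h3⟩ := Finset.mem_filter.1 hi
      rw [fx_mem_actM] at h2
      rw [← h3]
      exact Finset.mem_filter.2 ⟨Finset.mem_univ _, h2.2⟩
    · intro ζ hζ
      refine Finset.mem_filter.2 ⟨(fx_mem_actM w _).2 ⟨hk, (Finset.mem_filter.1 hζ).2⟩, rfl⟩
    · intro i hi
      have h3 := (Finset.mem_filter.1 hi).2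
      exact Prod.ext h3.symm rfl
    · intro ζ _
      rfl
    · intro i hi
      have h3 := (Finset.mem_filter.1 hi).2
      rw [h3]
  have h2 : (Finset.univ.filter fun g => w.IsM g).filter (fun g => D.crep g = k) =
      Finset.univ.filter fun g => IsConj k g := by
    ext g
    simp only [Finset.mem_filter, Finset.mem_univ, true_and]
    constructor
    · rintro ⟨-, rfl⟩
      exact fx_crep_conj g
    · intro h
      exact ⟨(fx_IsM_conj w h).1 hk.1, by rw [← fx_crep_congr h, hk.2]⟩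
  have h3 : ∀ g ∈ Finset.univ.filter fun g => IsConj k g,
      (if D.B g.v W = 0 then (1 : ℤ) else 0) = if D.B k.v W = 0 then 1 else 0 := by
    intro g hg
    rw [fx_conj_v (Finset.mem_filter.1 hg).2]
  rw [h1, sum_zrep, h2, Finset.sum_congr rfl h3, Finset.sum_const, nsmul_eq_mul,
    ← card_conj D k, Nat.card_eq_fintype_card, Fintype.card_subtype]
  split_ifs
  · rw [mul_one]
  · rw [mul_zero]

open Classical in
/-- the positive family in terms of grouped tuples -/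
theorem fx_left (w : Wt D) (π : Pr D) (Y : ℝ) :
    w.FF π Y = ((∑ M ∈ Fintype.piFinset (fun _ : Ext D => Finset.Icc 1 ⌊Y⌋₊),
      (if fxP w π Y M then ∏ k, ∏ p ∈ (M k).primeFactors,
        ∑ g ∈ (Finset.univ.filter fun g => w.IsM g).filter (fun g => D.crep g = k),
          (if D.B g.v (fxW π (D.mV M) p) = 0 then (1 : ℤ) else 0) else 0) : ℤ) : ℝ) := by
  rw [← grp_sum (Finset.univ.filter fun g => w.IsM g) D.crep ⌊Y⌋₊ (fxP w π Y)
    (fxP_sq w π Y) (fxP_le w π Y)
    (fun M g p => if D.B g.v (fxW π (D.mV M) p) = 0 then (1 : ℤ) else 0), Int.cast_sum]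
  unfold Wt.FF
  refine Finset.sum_congr rfl fun y _ => ?_
  have hA : (∀ g, ¬ w.IsM g → y g = 1) ↔
      ∀ i, i ∉ (Finset.univ.filter fun g => w.IsM g) → y i = 1 := by simp
  by_cases hy : ∀ i, i ∉ (Finset.univ.filter fun g => w.IsM g) → y i = 1
  · have h1 : fxP w π Y (fib (Finset.univ.filter fun g => w.IsM g) D.crep y) ↔
        Squarefree (2 * (∏ k, π.p k) * ∏ g, y g) ∧ (∏ g, (y g : ℝ)) ≤ Y ∧ Cnd π (D.mV y) := by
      unfold fxP
      rw [← Nat.cast_prod, fx_prod_fib _ _ y hy, Nat.cast_prod,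
        fx_mV_ext _ _ fx_crep_v y hy]
      refine and_iff_right fun g hg => ?_
      unfold fib
      rw [Finset.filter_eq_empty_iff.2, Finset.prod_empty]
      intro h hh hg2
      refine hg ⟨?_, ?_⟩
      · rw [← hg2, fx_IsM_crep]
        exact (Finset.mem_filter.1 hh).2
      · rw [← hg2, fx_crep_crep]
    rw [h1, fx_mV_ext _ _ fx_crep_v y hy]
    by_cases hc : Squarefree (2 * (∏ k, π.p k) * ∏ g, y g) ∧ (∏ g, (y g : ℝ)) ≤ Y ∧
        Cnd π (D.mV y)
    · by_cases hl : ∀ g, ∀ p ∈ (y g).primeFactors,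
          D.B g.v (frob π p + ∑ u : D.V, lg (jacobiSym p (D.mV y u)) • u) = 0
      · rw [if_pos ⟨hA.2 hy, hc.1, hc.2.1, hc.2.2, hl⟩, if_pos ⟨hy, hc⟩]
        have h2 : (∏ g, ∏ p ∈ (y g).primeFactors,
            if D.B g.v (fxW π (D.mV y) p) = 0 then (1 : ℤ) else 0) = 1 :=
          Finset.prod_eq_one fun g _ => Finset.prod_eq_one fun p hp => if_pos (hl g p hp)
        rw [h2, Int.cast_one]
      · rw [if_neg fun h => hl h.2.2.2.2, if_pos ⟨hy, hc⟩]
        push Not at hl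
        obtain ⟨g, p, hp, hne⟩ := hl
        have h2 : (∏ g, ∏ p ∈ (y g).primeFactors,
            if D.B g.v (fxW π (D.mV y) p) = 0 then (1 : ℤ) else 0) = 0 :=
          Finset.prod_eq_zero (Finset.mem_univ g) (Finset.prod_eq_zero hp (if_neg hne))
        rw [h2, Int.cast_zero]
    · rw [if_neg fun h => hc ⟨h.2.1, h.2.2.1, h.2.2.2.1⟩, if_neg fun h => hc h.2,
        Int.cast_zero]
  · rw [if_neg fun h => hy (hA.1 h.1), if_neg fun h => hy h.1, Int.cast_zero]

open Classical in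
/-- the signed sum in terms of grouped tuples -/
theorem fx_right (w : Wt D) (π : Pr D) (Y : ℝ) :
    (∑ x ∈ Fintype.piFinset (fun _ : D.P => Finset.Icc 1 ⌊Y⌋₊),
      if (∀ i, i ∉ w.actM → x i = 1) ∧ Squarefree (2 * (∏ k, π.p k) * ∏ i, x i) ∧
        (∏ i, (x i : ℝ)) ≤ Y ∧ Cnd π (D.mof x)
      then (Wt.sgF π x : ℝ) else 0) =
    ((∑ M ∈ Fintype.piFinset (fun _ : Ext D => Finset.Icc 1 ⌊Y⌋₊),
      (if fxP w π Y M then ∏ k, ∏ p ∈ (M k).primeFactors,
        ∑ i ∈ w.actM.filter (fun i => i.1 = k),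
          sg (i.2 ⬝ᵥ D.B i.1.v (fxW π (D.mV M) p)) else 0) : ℤ) : ℝ) := by
  rw [← grp_sum w.actM Prod.fst ⌊Y⌋₊ (fxP w π Y)
    (fxP_sq w π Y) (fxP_le w π Y)
    (fun M i p => sg (i.2 ⬝ᵥ D.B i.1.v (fxW π (D.mV M) p))), Int.cast_sum]
  refine Finset.sum_congr rfl fun x _ => ?_
  by_cases hx : ∀ i, i ∉ w.actM → x i = 1
  · have h1 : fxP w π Y (fib w.actM Prod.fst x) ↔
        Squarefree (2 * (∏ k, π.p k) * ∏ i, x i) ∧ (∏ i, (x i : ℝ)) ≤ Y ∧
          Cnd π (D.mof x) := by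
      unfold fxP
      rw [← Nat.cast_prod, fx_prod_fib _ _ x hx, Nat.cast_prod, fx_mV_P _ x hx]
      refine and_iff_right fun g hg => ?_
      unfold fib
      rw [Finset.filter_eq_empty_iff.2, Finset.prod_empty]
      intro i hi hg2
      have h3 := ((fx_mem_actM w i).1 hi).1
      rw [hg2] at h3
      exact hg h3
    rw [h1, fx_mV_P _ x hx]
    by_cases hc : Squarefree (2 * (∏ k, π.p k) * ∏ i, x i) ∧ (∏ i, (x i : ℝ)) ≤ Y ∧
          Cnd π (D.mof x)
    · rw [if_pos ⟨hx, hc⟩, if_pos ⟨hx, hc⟩, fx_sign π x]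
      · exact hc.1.squarefree_of_dvd (dvd_mul_left _ _)
      · intro i k
        have h4 : π.p k * x i ∣ 2 * (∏ k, π.p k) * ∏ i, x i :=
          mul_dvd_mul ((Finset.dvd_prod_of_mem π.p (Finset.mem_univ k)).trans
            (dvd_mul_left _ _)) (Finset.dvd_prod_of_mem x (Finset.mem_univ i))
        exact (Nat.coprime_of_squarefree_mul (hc.1.squarefree_of_dvd h4)).symm
    · rw [if_neg fun h => hc h.2, if_neg fun h => hc h.2, Int.cast_zero]
  · rw [if_neg fun h => hx h.1, if_neg fun h => hx h.1, Int.cast_zero]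

open Classical in
/-- splitting by exact supports -/
theorem fx_split (w : Wt D) (π : Pr D) (Y : ℝ) (hY : 1 ≤ Y) :
    (∑ x ∈ Fintype.piFinset (fun _ : D.P => Finset.Icc 1 ⌊Y⌋₊),
      if (∀ i, i ∉ w.actM → x i = 1) ∧ Squarefree (2 * (∏ k, π.p k) * ∏ i, x i) ∧
        (∏ i, (x i : ℝ)) ≤ Y ∧ Cnd π (D.mof x)
      then (Wt.sgF π x : ℝ) else 0) = ∑ σ ∈ w.actM.powerset, Wt.FX π σ Y := by
  have hN : 1 ≤ ⌊Y⌋₊ := Nat.le_floor (by exact_mod_cast hY)
  have h1 : (∑ x ∈ Fintype.piFinset (fun _ : D.P => Finset.Icc 1 ⌊Y⌋₊),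
      if (∀ i, i ∉ w.actM → x i = 1) ∧ Squarefree (2 * (∏ k, π.p k) * ∏ i, x i) ∧
        (∏ i, (x i : ℝ)) ≤ Y ∧ Cnd π (D.mof x)
      then (Wt.sgF π x : ℝ) else 0) =
      ∑ x ∈ (Fintype.piFinset (fun _ : D.P => Finset.Icc 1 ⌊Y⌋₊)).filter
        (fun x => ∀ i, i ∉ w.actM → x i = 1),
        if Squarefree (2 * (∏ k, π.p k) * ∏ i, x i) ∧ (∏ i, (x i : ℝ)) ≤ Y ∧ Cnd π (D.mof x)
        then (Wt.sgF π x : ℝ) else 0 := by
    rw [Finset.sum_filter]
    refine Finset.sum_congr rfl fun x _ => ?_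
    by_cases hx : ∀ i, i ∉ w.actM → x i = 1
    · rw [if_pos hx]
      congr 1
      exact propext (and_iff_right hx)
    · rw [if_neg hx, if_neg (fun hc => hx hc.1)]
  rw [h1, ← Finset.sum_fiberwise_of_maps_to (t := w.actM.powerset)
    (g := fun x : D.P → ℕ => Finset.univ.filter fun i => x i ≠ 1)]
  · refine Finset.sum_congr rfl fun σ hσ => ?_
    unfold Wt.FX
    have h0 := Finset.mem_powerset.1 hσ
    refine Finset.sum_congr ?_ fun x _ => rfl
    ext x
    simp only [Finset.mem_filter, Fintype.mem_piFinset, Finset.mem_Icc]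
    constructor
    · rintro ⟨⟨hx, -⟩, rfl⟩ i
      have hi := hx i
      by_cases hi1 : x i = 1
      · rw [if_neg (by simp [hi1]), Finset.mem_singleton]
        exact hi1
      · rw [if_pos (by simp [hi1]), Finset.mem_Icc]
        omega
    · intro hx
      refine ⟨⟨fun i => ?_, fun i hi => ?_⟩, ?_⟩
      · have hi := hx i
        by_cases hs : i ∈ σ
        · rw [if_pos hs, Finset.mem_Icc] at hi
          omega
        · rw [if_neg hs, Finset.mem_singleton] at hi
          omega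
      · have hi2 := hx i
        rwa [if_neg (fun h => hi (h0 h)), Finset.mem_singleton] at hi2
      · ext i
        simp only [Finset.mem_filter, Finset.mem_univ, true_and]
        have hi := hx i
        by_cases hs : i ∈ σ
        · rw [if_pos hs, Finset.mem_Icc] at hi
          simp only [hs, iff_true]
          omega
        · rw [if_neg hs, Finset.mem_singleton] at hi
          simp [hs, hi]
  · intro x hx
    rw [Finset.mem_powerset]
    intro i hi
    by_contra hi2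
    exact (Finset.mem_filter.1 hi).2 ((Finset.mem_filter.1 hx).2 i hi2)

open Classical in
theorem F_expand {D : Dt} (w : Wt D) (π : Pr D) (Y : ℝ) (hY : 1 ≤ Y) :
    w.FF π Y = ∑ σ ∈ w.actM.powerset, Wt.FX π σ Y := by
  rw [← fx_split w π Y hY, fx_right, fx_left, Int.cast_inj]
  refine Finset.sum_congr rfl fun M _ => ?_
  by_cases hM : fxP w π Y M
  · rw [if_pos hM, if_pos hM]
    refine Finset.prod_congr rfl fun k _ => ?_
    by_cases hk : w.IsM k ∧ D.crep k = k
    · exact Finset.prod_congr rfl fun p _ => fx_coef w k hk _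
    · rw [hM.1 k hk]
      simp
  · rw [if_neg hM, if_neg hM]

end Pool.Agent.H98.ML
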