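import Pool.Agent.H98.ML.FXUU

/-!
# Project MK2, row P5: the sum over the supports compatible with a choice of dual vectors
-/

set_option autoImplicit false

open scoped BigOperators

namespace Pool.Agent.H98.ML

open Pool.Agent.H98.MK (psi jp lg eps sg p8 ss_add ss_sum)

variable {D : Dt}

theorem us_mk (v : D.V) (ζ : D.Z) :
    (Submodule.Quotient.mk (D.zrep v ζ) : D.Z ⧸ D.Av v) = Submodule.Quotient.mk ζ :=
  Quotient.out_eq' _

theorem us_congr {v : D.V} {ζ η : D.Z}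
    (h : (Submodule.Quotient.mk ζ : D.Z ⧸ D.Av v) = Submodule.Quotient.mk η) :
    D.zrep v ζ = D.zrep v η := by
  unfold Dt.zrep
  rw [h]

theorem us_key (v : D.V) (ζ : D.Z) (u : D.V) : D.zrep v ζ ⬝ᵥ D.B v u = ζ ⬝ᵥ D.B v u := by
  have h1 := (Submodule.Quotient.eq (D.Av v)).1 (us_mk v ζ)
  have h2 : (D.zrep v ζ - ζ) ⬝ᵥ D.B v u = 0 := h1 u
  rw [sub_dotProduct] at h2
  exact sub_eq_zero.1 h2

theorem us_AvM_zrep (w : Wt D) (v : D.V) (ζ : D.Z) : w.AvM v (D.zrep v ζ) ↔ w.AvM v ζ := by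
  unfold Wt.AvM
  simp only [us_key]

theorem us_AvM_add (w : Wt D) (v : D.V) {a b : D.Z} (ha : w.AvM v a) (hb : w.AvM v b) :
    w.AvM v (a + b) := by
  intro g hg
  rw [add_dotProduct, ha g hg, hb g hg, add_zero]

/-- adding twice -/
theorem us_twice (v : D.V) (a c : D.Z) : D.zrep v (D.zrep v (a + c) + c) = D.zrep v a := by
  refine us_congr ?_
  rw [Submodule.Quotient.mk_add, us_mk, ← Submodule.Quotient.mk_add, add_assoc, Ext.two_Z,
    add_zero]

open Classical in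
/-- representatives that annihilate the commutators with the elements of least index -/
noncomputable def usA (w : Wt D) (v : D.V) (c : D.Z) : Finset D.Z :=
  Finset.univ.filter fun ξ => D.zrep v ξ = ξ ∧ w.AvM v (ξ + c)

theorem us_mem (w : Wt D) (v : D.V) (c ξ : D.Z) :
    ξ ∈ usA w v c ↔ D.zrep v ξ = ξ ∧ w.AvM v (ξ + c) := by
  classical
  unfold usA
  rw [Finset.mem_filter]
  exact and_iff_right (Finset.mem_univ _)

/-- translation of the representatives -/
theorem us_shift (w : Wt D) (v : D.V) (c : D.Z) (κ : D.V) :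
    ∑ ξ ∈ usA w v c, sg ((ξ + c) ⬝ᵥ D.B v κ) = ∑ η ∈ usA w v 0, sg (η ⬝ᵥ D.B v κ) := by
  refine Finset.sum_bij' (fun ξ _ => D.zrep v (ξ + c)) (fun η _ => D.zrep v (η + c))
    ?_ ?_ ?_ ?_ ?_
  · intro ξ hξ
    rw [us_mem] at hξ ⊢
    refine ⟨us_congr (us_mk v _), ?_⟩
    rw [add_zero, us_AvM_zrep]
    exact hξ.2
  · intro η hη
    rw [us_mem] at hη ⊢
    refine ⟨us_congr (us_mk v _), ?_⟩
    have h1 : w.AvM v η := by
      have h2 := hη.2
      rwa [add_zero] at h2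
    intro g hg
    rw [add_dotProduct, us_key, add_dotProduct, h1 g hg, zero_add]
    exact CharTwo.add_self_eq_zero _
  · intro ξ hξ
    rw [us_mem] at hξ
    rw [us_twice, hξ.1]
  · intro η hη
    rw [us_mem] at hη
    rw [us_twice, hη.1]
  · intro ξ _
    rw [us_key]

theorem us_sg_add (x : ZMod 2) : sg x + sg (x + 1) = 0 := by
  revert x
  decide

/-- the character sum -/
theorem us_ff (w : Wt D) (v κ : D.V) :
    ((∑ η ∈ usA w v 0, sg (η ⬝ᵥ D.B v κ) : ℤ) : ℝ) = w.ff v κ := by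
  classical
  unfold Wt.ff
  split_ifs with h
  · have h1 : ∀ η ∈ usA w v 0, sg (η ⬝ᵥ D.B v κ) = 1 := by
      intro η hη
      rw [us_mem, add_zero] at hη
      rw [h η hη.2]
      rfl
    rw [Finset.sum_congr rfl h1, Finset.sum_const, nsmul_eq_mul, mul_one]
    have h2 : Nat.card {ξ : D.Z // D.zrep v ξ = ξ ∧ w.AvM v ξ} = (usA w v 0).card := by
      rw [Nat.card_eq_fintype_card, Fintype.card_subtype]
      congr 1
      ext ξ
      rw [us_mem, add_zero, Finset.mem_filter]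
      exact and_iff_right (Finset.mem_univ _)
    rw [h2]
    push_cast
    rfl
  · push Not at h
    obtain ⟨α, hα, hne⟩ := h
    have h1 : α ⬝ᵥ D.B v κ = 1 := by
      have h2 : ∀ x : ZMod 2, x ≠ 0 → x = 1 := by decide
      exact h2 _ hne
    have hval : ∀ η : D.Z, D.zrep v (η + α) ⬝ᵥ D.B v κ = η ⬝ᵥ D.B v κ + 1 := by
      intro η
      rw [us_key, add_dotProduct, h1]
    have h0 : ∑ η ∈ usA w v 0, sg (η ⬝ᵥ D.B v κ) = 0 := by
      refine Finset.sum_involution (fun η _ => D.zrep v (η + α)) ?_ ?_ ?_ ?_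
      · intro η _
        rw [hval]
        exact us_sg_add _
      · intro η _ _ h2
        have h3 := hval η
        rw [h2] at h3
        have h4 : ∀ x : ZMod 2, x ≠ x + 1 := by decide
        exact h4 _ h3
      · intro η hη
        rw [us_mem, add_zero] at hη ⊢
        exact ⟨us_congr (us_mk v _), (us_AvM_zrep w v _).2 (us_AvM_add w v hη.2 hα)⟩
      · intro η hη
        rw [us_mem] at hη
        rw [us_twice, hη.1]
    rw [h0, Int.cast_zero]

open Classical in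
/-- the coefficient of one prime -/
theorem us_coef (w : Wt D) (ζ : D.V → D.Z) (k : Ext D) (hk : w.IsM k ∧ D.crep k = k)
    (κ : D.V) :
    ((∑ i ∈ (w.UU ζ).filter (fun i => i.1 = k), sg ((i.2 + ζ i.1.v) ⬝ᵥ D.B i.1.v κ) : ℤ) : ℝ)
      = w.ff k.v κ := by
  rw [← us_ff, ← us_shift w k.v (ζ k.v) κ]
  congr 1
  refine Finset.sum_bij' (fun i _ => i.2) (fun ξ _ => (k, ξ)) ?_ ?_ ?_ ?_ ?_
  · intro i hi
    obtain ⟨h2, h3⟩ := Finset.mem_filter.1 hi
    obtain ⟨h4, h5⟩ := Finset.mem_filter.1 h2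
    rw [us_mem, ← h3]
    exact ⟨((fx_mem_actM w i).1 h4).2, h5⟩
  · intro ξ hξ
    rw [us_mem] at hξ
    exact Finset.mem_filter.2 ⟨Finset.mem_filter.2
      ⟨(fx_mem_actM w _).2 ⟨hk, hξ.1⟩, hξ.2⟩, rfl⟩
  · intro i hi
    have h3 := (Finset.mem_filter.1 hi).2
    exact Prod.ext h3.symm rfl
  · intro ξ _
    rfl
  · intro i hi
    have h3 := (Finset.mem_filter.1 hi).2
    rw [h3]

open Classical in
/-- splitting by exact supports -/
theorem us_split (A : Finset D.P) (C : (D.P → ℕ) → Prop) (F : (D.P → ℕ) → ℝ) (Y : ℝ)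
    (hY : 1 ≤ Y) :
    (∑ x ∈ Fintype.piFinset (fun _ : D.P => Finset.Icc 1 ⌊Y⌋₊),
      if (∀ i, i ∉ A → x i = 1) ∧ C x then F x else 0) = ∑ σ ∈ A.powerset,
      ∑ x ∈ Fintype.piFinset (fun i : D.P => if i ∈ σ then Finset.Icc 2 ⌊Y⌋₊ else {1}),
        if C x then F x else 0 := by
  have hN : 1 ≤ ⌊Y⌋₊ := Nat.le_floor (by exact_mod_cast hY)
  have h1 : (∑ x ∈ Fintype.piFinset (fun _ : D.P => Finset.Icc 1 ⌊Y⌋₊),
      if (∀ i, i ∉ A → x i = 1) ∧ C x then F x else 0) =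
      ∑ x ∈ (Fintype.piFinset (fun _ : D.P => Finset.Icc 1 ⌊Y⌋₊)).filter
        (fun x => ∀ i, i ∉ A → x i = 1), if C x then F x else 0 := by
    rw [Finset.sum_filter]
    refine Finset.sum_congr rfl fun x _ => ?_
    by_cases hx : ∀ i, i ∉ A → x i = 1
    · rw [if_pos hx]
      congr 1
      exact propext (and_iff_right hx)
    · rw [if_neg hx, if_neg (fun hc => hx hc.1)]
  rw [h1, ← Finset.sum_fiberwise_of_maps_to (t := A.powerset)
    (g := fun x : D.P → ℕ => Finset.univ.filter fun i => x i ≠ 1)]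
  · refine Finset.sum_congr rfl fun σ hσ => ?_
    have h0 := Finset.mem_powerset.1 hσ
    refine Finset.sum_congr ?_ fun x _ => rfl
    ext x
    simp only [Finset.mem_filter, Fintype.mem_piFinset, Finset.mem_Icc]
    constructor
    · rintro ⟨⟨hx, -⟩, rfl⟩ i
      have hi := hx i
      by_cases hi1 : x i = 1
      · rw [if_neg (by simp [hi1]), Finset.mem_singleton]
        exact hi1
      · rw [if_pos (by simp [hi1]), Finset.mem_Icc]
        omega
    · intro hx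
      refine ⟨⟨fun i => ?_, fun i hi => ?_⟩, ?_⟩
      · have hi := hx i
        by_cases hs : i ∈ σ
        · rw [if_pos hs, Finset.mem_Icc] at hi
          omega
        · rw [if_neg hs, Finset.mem_singleton] at hi
          omega
      · have hi2 := hx i
        rwa [if_neg (fun h => hi (h0 h)), Finset.mem_singleton] at hi2
      · ext i
        simp only [Finset.mem_filter, Finset.mem_univ, true_and]
        have hi := hx i
        by_cases hs : i ∈ σ
        · rw [if_pos hs, Finset.mem_Icc] at hi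
          simp only [hs, iff_true]
          omega
        · rw [if_neg hs, Finset.mem_singleton] at hi
          simp [hs, hi]
  · intro x hx
    rw [Finset.mem_powerset]
    intro i hi
    by_contra hi2
    exact (Finset.mem_filter.1 hi).2 ((Finset.mem_filter.1 hx).2 i hi2)

/-- the sign of one index as a product over its primes -/
theorem us_sg_primes (π : Pr D) (c : D.Z) (v : D.V) (n : ℕ) (hn : Squarefree n)
    (hk : ∀ k, Nat.Coprime n (π.p k)) :
    sg (c ⬝ᵥ D.B v (frob π n)) = ∏ p ∈ n.primeFactors, sg (c ⬝ᵥ D.B v (frob π p)) := by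
  rw [← ss_sum, ← dotProduct_sum]
  congr 2
  rw [← fxB_apply, ← fx_frob π n hn hk, map_sum]
  rfl

open Classical in
theorem UU_sum {D : Dt} (w : Wt D) (π : Pr D) (ζ : D.V → D.Z) (hζ : w.Cmp ζ) (Y : ℝ)
    (hY : 1 ≤ Y) : ∑ σ ∈ (w.UU ζ).powerset, Wt.FX π σ Y = w.GG π Y := by
  have h1 : ∑ σ ∈ (w.UU ζ).powerset, Wt.FX π σ Y = ∑ σ ∈ (w.UU ζ).powerset,
      ∑ x ∈ Fintype.piFinset (fun i : D.P => if i ∈ σ then Finset.Icc 2 ⌊Y⌋₊ else {1}),
        if Squarefree (2 * (∏ k, π.p k) * ∏ i, x i) ∧ (∏ i, (x i : ℝ)) ≤ Y ∧ Cnd π (D.mof x)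
        then ((∏ i, ∏ p ∈ (x i).primeFactors,
          sg ((i.2 + ζ i.1.v) ⬝ᵥ D.B i.1.v (frob π p)) : ℤ) : ℝ) else 0 := by
    refine Finset.sum_congr rfl fun σ hσ => ?_
    rw [FX_UU w π ζ hζ σ (Finset.mem_powerset.1 hσ) Y]
    refine Finset.sum_congr rfl fun x hx => ?_
    by_cases hc : Squarefree (2 * (∏ k, π.p k) * ∏ i, x i) ∧ (∏ i, (x i : ℝ)) ≤ Y ∧
        Cnd π (D.mof x)
    · rw [if_pos hc, if_pos hc]
      congr 1
      have hx1 : ∀ i, i ∉ σ → x i = 1 := by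
        intro i hi
        have h1 := Fintype.mem_piFinset.1 hx i
        rwa [if_neg hi, Finset.mem_singleton] at h1
      rw [Finset.prod_subset (Finset.subset_univ σ) (fun i _ hi => by
        rw [hx1 i hi, uu_frob_one, fx_B_zero, dotProduct_zero]
        rfl)]
      refine Finset.prod_congr rfl fun i _ => ?_
      refine us_sg_primes π _ _ _ (fx_sqf x (hc.1.squarefree_of_dvd (dvd_mul_left _ _)) i) ?_
      intro k
      have h4 : π.p k * x i ∣ 2 * (∏ k, π.p k) * ∏ i, x i :=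
        mul_dvd_mul ((Finset.dvd_prod_of_mem π.p (Finset.mem_univ k)).trans
          (dvd_mul_left _ _)) (Finset.dvd_prod_of_mem x (Finset.mem_univ i))
      exact (Nat.coprime_of_squarefree_mul (hc.1.squarefree_of_dvd h4)).symm
    · rw [if_neg hc, if_neg hc]
  have hs := us_split (w.UU ζ) (fun x => Squarefree (2 * (∏ k, π.p k) * ∏ i, x i) ∧
    (∏ i, (x i : ℝ)) ≤ Y ∧ Cnd π (D.mof x)) (fun x => ((∏ i, ∏ p ∈ (x i).primeFactors,
      sg ((i.2 + ζ i.1.v) ⬝ᵥ D.B i.1.v (frob π p)) : ℤ) : ℝ)) Y hY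
  rw [h1]
  refine Eq.trans (Eq.trans ?_ hs.symm) ?_
  · refine Finset.sum_congr rfl fun σ _ => Finset.sum_congr rfl fun x _ => ?_
    by_cases hc : Squarefree (2 * (∏ k, π.p k) * ∏ i, x i) ∧ (∏ i, (x i : ℝ)) ≤ Y ∧
        Cnd π (D.mof x)
    · rw [if_pos hc, if_pos hc]
    · rw [if_neg hc, if_neg hc]
  have h2 : (∑ x ∈ Fintype.piFinset (fun _ : D.P => Finset.Icc 1 ⌊Y⌋₊),
      if (∀ i, i ∉ w.UU ζ → x i = 1) ∧ (Squarefree (2 * (∏ k, π.p k) * ∏ i, x i) ∧
        (∏ i, (x i : ℝ)) ≤ Y ∧ Cnd π (D.mof x))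
      then ((∏ i, ∏ p ∈ (x i).primeFactors,
        sg ((i.2 + ζ i.1.v) ⬝ᵥ D.B i.1.v (frob π p)) : ℤ) : ℝ) else 0) =
      ((∑ M ∈ Fintype.piFinset (fun _ : Ext D => Finset.Icc 1 ⌊Y⌋₊),
        (if fxP w π Y M then ∏ k, ∏ p ∈ (M k).primeFactors,
          ∑ i ∈ (w.UU ζ).filter (fun i => i.1 = k),
            sg ((i.2 + ζ i.1.v) ⬝ᵥ D.B i.1.v (frob π p)) else 0) : ℤ) : ℝ) := by
    rw [← grp_sum (w.UU ζ) Prod.fst ⌊Y⌋₊ (fxP w π Y) (fxP_sq w π Y) (fxP_le w π Y)
      (fun _ i p => sg ((i.2 + ζ i.1.v) ⬝ᵥ D.B i.1.v (frob π p))), Int.cast_sum]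
    refine Finset.sum_congr rfl fun x _ => ?_
    by_cases hx : ∀ i, i ∉ w.UU ζ → x i = 1
    · have h3 : fxP w π Y (fib (w.UU ζ) Prod.fst x) ↔
          Squarefree (2 * (∏ k, π.p k) * ∏ i, x i) ∧ (∏ i, (x i : ℝ)) ≤ Y ∧
            Cnd π (D.mof x) := by
        unfold fxP
        rw [← Nat.cast_prod, fx_prod_fib _ _ x hx, Nat.cast_prod, fx_mV_P _ x hx]
        refine and_iff_right fun g hg => ?_
        unfold fib
        rw [Finset.filter_eq_empty_iff.2, Finset.prod_empty]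
        intro i hi hg2
        have h3 := ((fx_mem_actM w i).1 (Finset.mem_filter.1 hi).1).1
        rw [hg2] at h3
        exact hg h3
      rw [h3]
      by_cases hc : Squarefree (2 * (∏ k, π.p k) * ∏ i, x i) ∧ (∏ i, (x i : ℝ)) ≤ Y ∧
            Cnd π (D.mof x)
      · rw [if_pos ⟨hx, hc⟩, if_pos ⟨hx, hc⟩]
      · rw [if_neg fun h => hc h.2, if_neg fun h => hc h.2, Int.cast_zero]
    · rw [if_neg fun h => hx h.1, if_neg fun h => hx h.1, Int.cast_zero]
  refine Eq.trans (Eq.trans ?_ h2) ?_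
  · refine Finset.sum_congr rfl fun x _ => ?_
    by_cases hc : (∀ i, i ∉ w.UU ζ → x i = 1) ∧ (Squarefree (2 * (∏ k, π.p k) * ∏ i, x i) ∧
        (∏ i, (x i : ℝ)) ≤ Y ∧ Cnd π (D.mof x))
    · rw [if_pos hc, if_pos hc]
    · rw [if_neg hc, if_neg hc]
  unfold Wt.GG
  rw [Int.cast_sum]
  refine Finset.sum_congr rfl fun M _ => ?_
  by_cases hM : fxP w π Y M
  · rw [if_pos hM, if_pos (show _ ∧ _ from hM)]
    rw [Int.cast_prod]
    refine Finset.prod_congr rfl fun k _ => ?_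
    rw [Int.cast_prod]
    by_cases hk : w.IsM k ∧ D.crep k = k
    · exact Finset.prod_congr rfl fun p _ => us_coef w ζ k hk _
    · rw [hM.1 k hk]
      simp
  · rw [if_neg hM, if_neg (show ¬ (_ ∧ _) from hM), Int.cast_zero]

theorem GG_nonneg {D : Dt} (w : Wt D) (π : Pr D) (Y : ℝ) : 0 ≤ w.GG π Y := by
  classical
  unfold Wt.GG
  refine Finset.sum_nonneg fun y _ => ?_
  split_ifs
  · refine Finset.prod_nonneg fun g _ => Finset.prod_nonneg fun p _ => ?_
    unfold Wt.ff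
    split_ifs
    · positivity
    · exact le_rfl
  · exact le_rfl

end Pool.Agent.H98.ML
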