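import Pool.Agent.H98.ML.PDefs
import Pool.Agent.H98.ML.FExpand
import Pool.Agent.H98.ML.FXSmall
import Pool.Agent.H98.ML.UUSum

/-!
# Project MK2, row P6: the lower bound for the positive family (helper78)
-/

set_option autoImplicit false

open scoped BigOperators
open Filter

namespace Pool.Agent.H98.ML

open Pool.Agent.H98.MK (psi jp lg eps sg p8)

variable {D : Dt}

theorem p6_AvM_add (w : Wt D) (v : D.V) {a b : D.Z} (ha : w.AvM v a) (hb : w.AvM v b) :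
    w.AvM v (a + b) := by
  intro g hg
  rw [add_dotProduct, ha g hg, hb g hg, add_zero]

theorem p6_mk_zrep (v : D.V) (ζ : D.Z) :
    (Submodule.Quotient.mk (D.zrep v ζ) : D.Z ⧸ D.Av v) = Submodule.Quotient.mk ζ :=
  Quotient.out_eq _

theorem p6_zrep_zrep (v : D.V) (ζ : D.Z) : D.zrep v (D.zrep v ζ) = D.zrep v ζ := by
  have h := p6_mk_zrep v ζ
  unfold Dt.zrep at h ⊢
  rw [h]

theorem p6_zrep_zero (v : D.V) : D.zrep v 0 ∈ D.Av v := by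
  have h := p6_mk_zrep v 0
  rwa [Submodule.Quotient.mk_zero, Submodule.Quotient.mk_eq_zero] at h

theorem p6_mem_actM (w : Wt D) (i : D.P) : i ∈ w.actM ↔
    i.1 ≠ 1 ∧ w.ind i.1 = w.m ∧ D.crep i.1 = i.1 ∧ D.zrep i.1.v i.2 = i.2 := by
  unfold Wt.actM Wt.act
  rw [Finset.mem_filter, Finset.mem_filter]
  constructor
  · rintro ⟨⟨-, h1, h2⟩, h3⟩
    exact ⟨h1, h3, h2 h3⟩
  · rintro ⟨h1, h2, h3⟩
    exact ⟨⟨Finset.mem_univ _, h1, fun _ => h3⟩, h2⟩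

theorem p6_mem_UU (w : Wt D) (ζ : D.V → D.Z) (i : D.P) :
    i ∈ w.UU ζ ↔ i ∈ w.actM ∧ w.AvM i.1.v (i.2 + ζ i.1.v) := by
  simp only [Wt.UU, Finset.mem_filter]

/-- Two choices that agree modulo the annihilators give the same set of indices. -/
theorem p6_UU_eq (w : Wt D) (ζ ζ' : D.V → D.Z)
    (h : ∀ g, w.IsM g → D.crep g = g → w.AvM g.v (ζ g.v + ζ' g.v)) : w.UU ζ = w.UU ζ' := by
  ext i
  rw [p6_mem_UU, p6_mem_UU]
  refine and_congr_right fun hi => ?_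
  obtain ⟨h1, h2, h3, -⟩ := (p6_mem_actM w i).1 hi
  have h4 := h i.1 ⟨h1, h2⟩ h3
  constructor
  · intro h5
    have h6 := p6_AvM_add w _ h5 h4
    have h7 : i.2 + ζ i.1.v + (ζ i.1.v + ζ' i.1.v) = i.2 + ζ' i.1.v := by
      calc i.2 + ζ i.1.v + (ζ i.1.v + ζ' i.1.v) = i.2 + ζ' i.1.v + (ζ i.1.v + ζ i.1.v) := by abel
        _ = _ := by rw [Ext.two_Z, add_zero]
    rwa [h7] at h6
  · intro h5
    have h6 := p6_AvM_add w _ h5 h4
    have h7 : i.2 + ζ' i.1.v + (ζ i.1.v + ζ' i.1.v) = i.2 + ζ i.1.v := by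
      calc i.2 + ζ' i.1.v + (ζ i.1.v + ζ' i.1.v) =
          i.2 + ζ i.1.v + (ζ' i.1.v + ζ' i.1.v) := by abel
        _ = _ := by rw [Ext.two_Z, add_zero]
    rwa [h7] at h6

open Classical in
/-- The sets of indices. -/
noncomputable def p6U (w : Wt D) : Finset (Finset D.P) :=
  ((Finset.univ : Finset (D.V → D.Z)).filter fun ζ => w.Cmp ζ ∧
    ∀ g, w.IsM g → D.crep g = g → (g, ζ g.v) ∈ w.actM).image w.UU

theorem p6_mem_U (w : Wt D) (U : Finset D.P) : U ∈ p6U w ↔ ∃ ζ : D.V → D.Z, (w.Cmp ζ ∧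
    ∀ g, w.IsM g → D.crep g = g → (g, ζ g.v) ∈ w.actM) ∧ w.UU ζ = U := by
  unfold p6U
  rw [Finset.mem_image]
  simp only [Finset.mem_filter, Finset.mem_univ, true_and]

theorem p6_sub (w : Wt D) {U : Finset D.P} (hU : U ∈ p6U w) : U ⊆ w.actM := by
  obtain ⟨ζ, -, rfl⟩ := (p6_mem_U w U).1 hU
  exact fun i hi => ((p6_mem_UU w ζ i).1 hi).1

theorem p6_nonempty (w : Wt D) : (p6U w).Nonempty := by
  refine ⟨w.UU fun v => D.zrep v 0, (p6_mem_U w _).2 ⟨fun v => D.zrep v 0, ⟨?_, ?_⟩, rfl⟩⟩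
  · intro g g' _ _
    rw [p6_zrep_zero g.v g'.v, p6_zrep_zero g'.v g.v]
  · intro g hg hc
    exact (p6_mem_actM w _).2 ⟨hg.1, hg.2, hc, p6_zrep_zrep _ _⟩

/-- A support of the main term lies in exactly one of the sets. -/
theorem p6_unique (w : Wt D) {σ : Finset D.P} (hσ : σ ⊆ w.actM) (hS : w.Sb σ) :
    ∃ U₀ ∈ p6U w, ∀ U ∈ p6U w, σ ⊆ U ↔ U = U₀ := by
  obtain ⟨ζ, hC, h1, h2⟩ := hS
  refine ⟨w.UU ζ, (p6_mem_U w _).2 ⟨ζ, ⟨hC, fun g hg hc => hσ (h1 g hg hc)⟩, rfl⟩, ?_⟩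
  intro U hU
  have hsub : σ ⊆ w.UU ζ := fun i hi => (p6_mem_UU w ζ i).2 ⟨hσ hi, h2 i hi⟩
  constructor
  · intro h
    obtain ⟨ζ', -, rfl⟩ := (p6_mem_U w U).1 hU
    refine (p6_UU_eq w ζ ζ' fun g hg hc => ?_).symm
    exact ((p6_mem_UU w ζ' _).1 (h (h1 g hg hc))).2
  · rintro rfl
    exact hsub

open Classical in
theorem p6_count (w : Wt D) (F : Finset D.P → ℝ) :
    ∑ U ∈ p6U w, ∑ σ ∈ U.powerset, F σ =
      ∑ σ ∈ w.actM.powerset, (((p6U w).filter fun U => σ ⊆ U).card : ℝ) * F σ := by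
  have e1 : ∀ U ∈ p6U w, ∑ σ ∈ U.powerset, F σ =
      ∑ σ ∈ w.actM.powerset, if σ ⊆ U then F σ else 0 := by
    intro U hU
    rw [← Finset.sum_filter]
    refine Finset.sum_congr ?_ fun _ _ => rfl
    ext σ
    rw [Finset.mem_powerset, Finset.mem_filter, Finset.mem_powerset]
    exact ⟨fun h => ⟨h.trans (p6_sub w hU), h⟩, fun h => h.2⟩
  rw [Finset.sum_congr rfl e1, Finset.sum_comm]
  refine Finset.sum_congr rfl fun σ _ => ?_
  rw [← Finset.sum_filter, Finset.sum_const, nsmul_eq_mul]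

open Classical in
theorem p6_card_one (w : Wt D) {σ : Finset D.P} (hσ : σ ⊆ w.actM) (hS : w.Sb σ) :
    ((p6U w).filter fun U => σ ⊆ U).card = 1 := by
  obtain ⟨U₀, h0, h1⟩ := p6_unique w hσ hS
  rw [Finset.card_eq_one]
  refine ⟨U₀, ?_⟩
  ext U
  rw [Finset.mem_filter, Finset.mem_singleton]
  constructor
  · rintro ⟨h2, h3⟩
    exact (h1 U h2).1 h3
  · rintro rfl
    exact ⟨h0, (h1 _ h0).2 rfl⟩

theorem F_GG_of (w : Wt D) (π : Pr D)
    (hexp : ∀ Y : ℝ, 1 ≤ Y → w.FF π Y = ∑ σ ∈ w.actM.powerset, Wt.FX π σ Y)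
    (hsm : ∀ σ : Finset D.P, σ ⊆ w.actM → ¬ w.Sb σ →
      Tendsto (fun Y : ℝ => Wt.FX π σ Y / (Y * Real.log Y ^ (w.b - 1))) atTop (nhds 0))
    (hUU : ∀ ζ : D.V → D.Z, w.Cmp ζ → ∀ Y : ℝ, 1 ≤ Y →
      ∑ σ ∈ (w.UU ζ).powerset, Wt.FX π σ Y = w.GG π Y)
    (hG : ∀ Y : ℝ, 0 ≤ w.GG π Y) (ε : ℝ) (hε : 0 < ε) :
    ∀ᶠ Y : ℝ in atTop, w.GG π Y - ε * (Y * Real.log Y ^ (w.b - 1)) ≤ w.FF π Y := by
  classical
  set n : Finset D.P → ℝ := fun σ => (((p6U w).filter fun U => σ ⊆ U).card : ℝ) with hn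
  have h1 : ∀ Y : ℝ, 1 ≤ Y → w.FF π Y - (p6U w).card * w.GG π Y =
      ∑ σ ∈ w.actM.powerset.filter fun σ => ¬ w.Sb σ, (1 - n σ) * Wt.FX π σ Y := by
    intro Y hY
    have h2 : (p6U w).card * w.GG π Y = ∑ σ ∈ w.actM.powerset, n σ * Wt.FX π σ Y := by
      rw [← p6_count w, ← nsmul_eq_mul, ← Finset.sum_const]
      refine Finset.sum_congr rfl fun U hU => ?_
      obtain ⟨ζ, hζ, rfl⟩ := (p6_mem_U w U).1 hU
      exact (hUU ζ hζ.1 Y hY).symm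
    rw [h2, hexp Y hY, ← Finset.sum_sub_distrib, Finset.sum_filter]
    refine Finset.sum_congr rfl fun σ hσ => ?_
    by_cases hS : w.Sb σ
    · rw [if_neg (not_not.2 hS)]
      have h3 : n σ = 1 := by
        rw [hn]
        simp only
        rw [p6_card_one w (Finset.mem_powerset.1 hσ) hS]
        simp
      rw [h3]
      ring
    · rw [if_pos hS]
      ring
  have h2 : Tendsto (fun Y : ℝ => ∑ σ ∈ w.actM.powerset.filter fun σ => ¬ w.Sb σ,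
      (1 - n σ) * (Wt.FX π σ Y / (Y * Real.log Y ^ (w.b - 1)))) atTop (nhds 0) := by
    have h3 : Tendsto (fun Y : ℝ => ∑ σ ∈ w.actM.powerset.filter fun σ => ¬ w.Sb σ,
      (1 - n σ) * (Wt.FX π σ Y / (Y * Real.log Y ^ (w.b - 1)))) atTop
        (nhds (∑ σ ∈ w.actM.powerset.filter fun σ => ¬ w.Sb σ, (1 - n σ) * 0)) := by
      refine tendsto_finsetSum _ fun σ hσ => ?_
      rw [Finset.mem_filter, Finset.mem_powerset] at hσ
      exact (hsm σ hσ.1 hσ.2).const_mul _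
    simpa using h3
  have h4 : (1 : ℝ) ≤ (p6U w).card := by
    exact_mod_cast (p6_nonempty w).card_pos
  filter_upwards [eventually_gt_atTop (1 : ℝ), h2.eventually (lt_mem_nhds (neg_lt_zero.2 hε))]
    with Y hY h5
  have hlog : 0 < Real.log Y := Real.log_pos hY
  have hpos : 0 < Y * Real.log Y ^ (w.b - 1) := mul_pos (by linarith) (pow_pos hlog _)
  have h6 : (∑ σ ∈ w.actM.powerset.filter fun σ => ¬ w.Sb σ,
      (1 - n σ) * (Wt.FX π σ Y / (Y * Real.log Y ^ (w.b - 1)))) =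
      (w.FF π Y - (p6U w).card * w.GG π Y) / (Y * Real.log Y ^ (w.b - 1)) := by
    rw [h1 Y hY.le, Finset.sum_div]
    refine Finset.sum_congr rfl fun σ _ => ?_
    rw [mul_div_assoc]
  rw [h6, lt_div_iff₀ hpos] at h5
  have h7 : w.GG π Y ≤ (p6U w).card * w.GG π Y := by
    have h8 := hG Y
    nlinarith
  linarith

theorem F_GG {D : Dt} (w : Wt D) (π : Pr D) (ε : ℝ) (hε : 0 < ε) :
    ∀ᶠ Y : ℝ in atTop, w.GG π Y - ε * (Y * Real.log Y ^ (w.b - 1)) ≤ w.FF π Y :=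
  F_GG_of w π (F_expand w π) (FX_small w π) (UU_sum w π) (GG_nonneg w π) ε hε

end Pool.Agent.H98.ML
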