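import Pool.Agent.H98.ML.FLeA

/-!
# Project MK2 (MP_a3214d), row P2: the positive family embeds in the full sum
-/

set_option autoImplicit false

open scoped BigOperators

namespace Pool.Agent.H98.ML

open Pool.Agent.H98.MK (psi jp lg eps sg p8)

variable {D : Dt}

theorem fle_wt (w : Wt D) (g : Ext D) : 1 ≤ w.wt g := by
  unfold Wt.wt
  split_ifs with h
  · exact le_refl 1
  · have h1 : (0 : ℝ) < w.m := by exact_mod_cast w.pos
    rw [le_div_iff₀ h1, one_mul]
    exact_mod_cast w.min g h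

theorem F_le {D : Dt} (w : Wt D) (π : Pr D)
    (θ : D.V → D.V → (D.V → ZMod 8) → Finset D.V → ℝ) (h0 : ∀ a b δ Q, 0 ≤ θ a b δ Q)
    (h1 : ∀ Q, D.Span 0 0 Q → 1 ≤ θ 0 0 (fun _ => 1) Q) :
    ∃ C1 : ℝ, 1 ≤ C1 ∧ ∀ Y : ℝ, 1 ≤ Y → w.FF π Y ≤ S w θ (C1 * Y) := by
  classical
  set C1 : ℝ := ∏ g, (flePP π g : ℝ) ^ w.wt g with hC1
  have hPP1 : ∀ g, (1 : ℝ) ≤ flePP π g := fun g => by
    exact_mod_cast Nat.succ_le_of_lt (fle_PP_pos π g)
  have hwt0 : ∀ g, 0 ≤ w.wt g := fun g => zero_le_one.trans (fle_wt w g)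
  have hC1' : 1 ≤ C1 := by
    rw [hC1]
    have : ∀ g ∈ (Finset.univ : Finset (Ext D)), (1 : ℝ) ≤ (flePP π g : ℝ) ^ w.wt g :=
      fun g _ => Real.one_le_rpow (hPP1 g) (hwt0 g)
    calc (1 : ℝ) = ∏ g : Ext D, (1 : ℝ) := by simp
      _ ≤ _ := Finset.prod_le_prod (fun _ _ => zero_le_one) this
  refine ⟨C1, hC1', fun Y hY => ?_⟩
  -- reduce to `a = b = 0`
  have e1 : ∀ a b : D.V, 0 ≤ ∑ m ∈ Fintype.piFinset (fun _ : Ext D => Finset.Icc 1 ⌊C1 * Y⌋₊),
      (if m 1 = 1 ∧ Squarefree (2 * ∏ g, m g) ∧ (∏ g, (m g : ℝ) ^ w.wt g) ≤ C1 * Y ∧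
        ∀ g, ∀ p ∈ (m g).primeFactors, D.okp a b (D.mV m) g.v p
      then θ a b (fun v => (D.mV m v : ZMod 8)) (Finset.univ.filter fun v => D.mV m v ≠ 1)
      else 0) := by
    intro a b
    refine Finset.sum_nonneg fun m _ => ?_
    split_ifs
    · exact h0 _ _ _ _
    · exact le_refl 0
  have e2 : ∑ m ∈ Fintype.piFinset (fun _ : Ext D => Finset.Icc 1 ⌊C1 * Y⌋₊),
      (if m 1 = 1 ∧ Squarefree (2 * ∏ g, m g) ∧ (∏ g, (m g : ℝ) ^ w.wt g) ≤ C1 * Y ∧
        ∀ g, ∀ p ∈ (m g).primeFactors, D.okp 0 0 (D.mV m) g.v p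
      then θ 0 0 (fun v => (D.mV m v : ZMod 8)) (Finset.univ.filter fun v => D.mV m v ≠ 1)
      else 0) ≤ S w θ (C1 * Y) := by
    unfold S
    refine le_trans ?_ (Finset.single_le_sum (fun a _ => Finset.sum_nonneg fun b _ => ?_)
      (Finset.mem_univ (0 : D.V)))
    · refine le_trans (le_of_eq ?_) (Finset.single_le_sum (fun b _ => ?_)
        (Finset.mem_univ (0 : D.V)))
      · refine Finset.sum_congr rfl fun m _ => ?_
        split_ifs <;> rfl
      · refine Finset.sum_nonneg fun m _ => ?_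
        split_ifs
        · exact h0 _ _ _ _
        · exact le_refl 0
    · refine Finset.sum_nonneg fun m _ => ?_
      split_ifs
      · exact h0 _ _ _ _
      · exact le_refl 0
  refine le_trans ?_ e2
  unfold Wt.FF
  rw [← Finset.sum_filter]
  set A := (Fintype.piFinset (fun _ : Ext D => Finset.Icc 1 ⌊Y⌋₊)).filter fun y =>
      (∀ g, ¬ w.IsM g → y g = 1) ∧ Squarefree (2 * (∏ k, π.p k) * ∏ g, y g) ∧
      (∏ g, (y g : ℝ)) ≤ Y ∧ Cnd π (D.mV y) ∧
      ∀ g, ∀ p ∈ (y g).primeFactors,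
        D.B g.v (frob π p + ∑ u : D.V, lg (jacobiSym p (D.mV y u)) • u) = 0 with hA
  set T : (Ext D → ℕ) → ℝ := fun m =>
    if m 1 = 1 ∧ Squarefree (2 * ∏ g, m g) ∧ (∏ g, (m g : ℝ) ^ w.wt g) ≤ C1 * Y ∧
        ∀ g, ∀ p ∈ (m g).primeFactors, D.okp 0 0 (D.mV m) g.v p
      then θ 0 0 (fun v => (D.mV m v : ZMod 8)) (Finset.univ.filter fun v => D.mV m v ≠ 1)
      else 0 with hT
  set μ : (Ext D → ℕ) → (Ext D → ℕ) := fun y g => y g * flePP π g with hμ
  have hμi : Function.Injective μ := by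
    intro y y' h
    funext g
    have := congrFun h g
    exact Nat.eq_of_mul_eq_mul_right (fle_PP_pos π g) this
  have hkey : ∀ y ∈ A, 1 ≤ T (μ y) ∧
      μ y ∈ Fintype.piFinset (fun _ : Ext D => Finset.Icc 1 ⌊C1 * Y⌋₊) := by
    intro y hy
    rw [hA, Finset.mem_filter, Fintype.mem_piFinset] at hy
    obtain ⟨hy0, hy1, hy2, hy3, hy4, hy5⟩ := hy
    have hpos : ∀ g, 1 ≤ y g := fun g => (Finset.mem_Icc.1 (hy0 g)).1
    have hne : ∀ g, y g ≠ 0 := fun g => by
      have := hpos g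
      omega
    have b1 : μ y 1 = 1 := by
      show y 1 * flePP π 1 = 1
      rw [fle_PP_one, mul_one]
      exact hy1 1 fun h => h.1 rfl
    have b2 : Squarefree (2 * ∏ g, μ y g) := by
      have : ∏ g, μ y g = (∏ g, y g) * ∏ k, π.p k := by
        show ∏ g, y g * flePP π g = _
        rw [Finset.prod_mul_distrib, fle_prod_PP]
      rw [this, mul_comm (∏ g, y g), ← mul_assoc]
      exact hy2
    have b3 : (∏ g, (μ y g : ℝ) ^ w.wt g) = C1 * ∏ g, (y g : ℝ) := by
      have c1 : ∀ g, (μ y g : ℝ) ^ w.wt g = (flePP π g : ℝ) ^ w.wt g * (y g : ℝ) := by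
        intro g
        show ((y g * flePP π g : ℕ) : ℝ) ^ w.wt g = _
        rw [Nat.cast_mul, Real.mul_rpow (Nat.cast_nonneg _) (Nat.cast_nonneg _), mul_comm]
        congr 1
        by_cases hg : w.IsM g
        · have : w.wt g = 1 := by
            unfold Wt.wt
            rw [if_neg hg.1, hg.2]
            have h2 : (0 : ℝ) < w.m := by exact_mod_cast w.pos
            exact div_self h2.ne'
          rw [this, Real.rpow_one]
        · rw [hy1 g hg, Nat.cast_one, Real.one_rpow]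
      rw [Finset.prod_congr rfl fun g _ => c1 g, Finset.prod_mul_distrib]
    have b4 : (∏ g, (μ y g : ℝ) ^ w.wt g) ≤ C1 * Y := by
      rw [b3]
      exact mul_le_mul_of_nonneg_left hy3 (zero_le_one.trans hC1')
    have b5 : ∀ g, ∀ p ∈ (μ y g).primeFactors, D.okp 0 0 (D.mV (μ y)) g.v p := by
      intro g p hp
      have hpp := Nat.prime_of_mem_primeFactors hp
      have hpd : p ∣ y g * flePP π g := Nat.dvd_of_mem_primeFactors hp
      rcases (Nat.Prime.dvd_mul hpp).1 hpd with hd | hd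
      · have hg : w.IsM g := by
          by_contra hc
          rw [hy1 g hc] at hd
          exact absurd (Nat.dvd_one.1 hd) hpp.one_lt.ne'
        exact fle_ok1 w π y hy2 hne g hg p hpp hd
          (hy5 g p (Nat.mem_primeFactors.2 ⟨hpp, hd, hne g⟩))
      · unfold flePP at hd
        obtain ⟨k, -, hk⟩ := (hpp.prime.dvd_finsetProd_iff _).1 hd
        by_cases hgk : (⟨Pi.single k 1, 0⟩ : Ext D) = g
        · rw [if_pos hgk] at hk
          have hpk := (Nat.prime_dvd_prime_iff_eq hpp (π.prime k)).1 hk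
          rw [hpk, ← hgk]
          exact fle_ok2 π y hy2 hne hy4 k
        · rw [if_neg hgk] at hk
          exact absurd (Nat.dvd_one.1 hk) hpp.one_lt.ne'
    have hμ1 : ∀ g, 1 ≤ μ y g := fun g => Nat.succ_le_of_lt
      (Nat.mul_pos (Nat.pos_of_ne_zero (hne g)) (fle_PP_pos π g))
    have hμr : ∀ g, (1 : ℝ) ≤ (μ y g : ℝ) := fun g => by exact_mod_cast hμ1 g
    constructor
    · rw [hT]
      show 1 ≤ ite _ _ _
      rw [if_pos ⟨b1, b2, b4, b5⟩]
      have c2 : (fun v => (D.mV (μ y) v : ZMod 8)) = fun _ => 1 := by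
        funext v
        exact fle_res π y hy4 v
      rw [c2]
      refine h1 _ (fle_span D _ fun k => ?_)
      rw [Finset.mem_filter]
      refine ⟨Finset.mem_univ _, ?_⟩
      show D.mV (fun g => y g * flePP π g) (Pi.single k 1) ≠ 1
      rw [fle_mV, fle_QQ_e]
      intro hc
      exact (π.prime k).one_lt.ne' (Nat.eq_one_of_mul_eq_one_left hc)
    · rw [Fintype.mem_piFinset]
      intro g
      rw [Finset.mem_Icc]
      refine ⟨hμ1 g, Nat.le_floor ?_⟩
      refine le_trans ?_ b4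
      rw [← Finset.mul_prod_erase Finset.univ _ (Finset.mem_univ g)]
      have d1 : (μ y g : ℝ) ≤ (μ y g : ℝ) ^ w.wt g := by
        calc (μ y g : ℝ) = (μ y g : ℝ) ^ (1 : ℝ) := (Real.rpow_one _).symm
          _ ≤ _ := Real.rpow_le_rpow_of_exponent_le (hμr g) (fle_wt w g)
      have d2 : (1 : ℝ) ≤ ∏ x ∈ Finset.univ.erase g, (μ y x : ℝ) ^ w.wt x := by
        calc (1 : ℝ) = ∏ x ∈ Finset.univ.erase g, (1 : ℝ) := by simp
          _ ≤ _ := Finset.prod_le_prod (fun _ _ => zero_le_one)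
            fun x _ => Real.one_le_rpow (hμr x) (hwt0 x)
      have d3 : (0 : ℝ) ≤ (μ y g : ℝ) ^ w.wt g := Real.rpow_nonneg (Nat.cast_nonneg _) _
      calc (μ y g : ℝ) ≤ (μ y g : ℝ) ^ w.wt g := d1
        _ = (μ y g : ℝ) ^ w.wt g * 1 := (mul_one _).symm
        _ ≤ _ := mul_le_mul_of_nonneg_left d2 d3
  calc ∑ y ∈ A, (1 : ℝ) ≤ ∑ y ∈ A, T (μ y) := Finset.sum_le_sum fun y hy => (hkey y hy).1
    _ = ∑ m ∈ A.image μ, T m := (Finset.sum_image fun y _ y' _ h => hμi h).symm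
    _ ≤ ∑ m ∈ Fintype.piFinset (fun _ : Ext D => Finset.Icc 1 ⌊C1 * Y⌋₊), T m := by
        refine Finset.sum_le_sum_of_subset_of_nonneg ?_ ?_
        · intro m hm
          obtain ⟨y, hy, rfl⟩ := Finset.mem_image.1 hm
          exact (hkey y hy).2
        · intro m _ _
          rw [hT]
          show 0 ≤ ite _ _ _
          split_ifs
          · exact h0 _ _ _ _
          · exact le_refl 0

end Pool.Agent.H98.ML
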