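import Pool.Agent.H98.ML.PDefs

/-!
# Project MK2 (MP_a3214d), row P8: the mean of the local weights
-/

set_option autoImplicit false

open scoped BigOperators

namespace Pool.Agent.H98.ML

open Pool.Agent.H98.MK (psi jp lg eps sg p8)

variable {D : Dt}

private theorem fm_mk_zrep (v : D.V) (ζ : D.Z) :
    (Submodule.Quotient.mk (D.zrep v ζ) : D.Z ⧸ D.Av v) = Submodule.Quotient.mk ζ :=
  Quotient.out_eq' _

private theorem fm_zrep_congr {v : D.V} {ζ η : D.Z}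
    (h : (Submodule.Quotient.mk ζ : D.Z ⧸ D.Av v) = Submodule.Quotient.mk η) :
    D.zrep v ζ = D.zrep v η := by
  unfold Dt.zrep
  rw [h]

private theorem fm_key (v w : D.V) (ζ : D.Z) :
    D.zrep v ζ ⬝ᵥ D.B v w = ζ ⬝ᵥ D.B v w := by
  have h1 := (Submodule.Quotient.eq (D.Av v)).1 (fm_mk_zrep v ζ)
  have h2 : (D.zrep v ζ - ζ) ⬝ᵥ D.B v w = 0 := h1 w
  rw [sub_dotProduct] at h2
  exact sub_eq_zero.1 h2

private theorem fm_sg_add (x : ZMod 2) : sg x + sg (x + 1) = 0 := by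
  revert x
  decide

private theorem fm_ne (x : ZMod 2) : x ≠ x + 1 := by
  revert x
  decide

private theorem fm_one {x : ZMod 2} (h : x ≠ 0) : x = 1 := by
  revert x
  decide

open Classical in
/-- the representatives -/
private noncomputable def fmR (w : Wt D) (v : D.V) : Finset D.Z :=
  Finset.univ.filter fun ξ => D.zrep v ξ = ξ ∧ w.AvM v ξ

private theorem fm_mem {w : Wt D} {v : D.V} {ξ : D.Z} :
    ξ ∈ fmR w v ↔ D.zrep v ξ = ξ ∧ w.AvM v ξ := by
  simp [fmR]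

private theorem fm_card (w : Wt D) (v : D.V) :
    Nat.card {ξ : D.Z // D.zrep v ξ = ξ ∧ w.AvM v ξ} = (fmR w v).card := by
  classical
  unfold fmR
  rw [Nat.card_eq_fintype_card, Fintype.card_subtype]

private theorem fm_AvM_zrep {w : Wt D} {v : D.V} {ξ : D.Z} (h : w.AvM v ξ) :
    w.AvM v (D.zrep v ξ) := by
  intro g hg
  rw [fm_key]
  exact h g hg

private theorem fm_AvM_add {w : Wt D} {v : D.V} {ξ η : D.Z} (h : w.AvM v ξ)
    (h' : w.AvM v η) : w.AvM v (ξ + η) := by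
  intro g hg
  rw [add_dotProduct, h g hg, h' g hg, add_zero]

/-- the local weight is a character sum -/
private theorem fm_ff (w : Wt D) (v κ : D.V) :
    w.ff v κ = ((∑ ξ ∈ fmR w v, sg (ξ ⬝ᵥ D.B v κ) : ℤ) : ℝ) := by
  unfold Wt.ff
  split_ifs with h
  · have h1 : ∀ ξ ∈ fmR w v, sg (ξ ⬝ᵥ D.B v κ) = 1 := by
      intro ξ hξ
      rw [h ξ (fm_mem.1 hξ).2]
      rfl
    rw [Finset.sum_congr rfl h1, Finset.sum_const, nsmul_eq_mul, mul_one, fm_card]
    simp
  · push Not at h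
    obtain ⟨η, hη1, hη2⟩ := h
    have hη := fm_one hη2
    have hval : ∀ ζ : D.Z, D.zrep v (ζ + η) ⬝ᵥ D.B v κ = ζ ⬝ᵥ D.B v κ + 1 := by
      intro ζ
      rw [fm_key, add_dotProduct, hη]
    have h0 : ∑ ξ ∈ fmR w v, sg (ξ ⬝ᵥ D.B v κ) = 0 := by
      refine Finset.sum_involution (fun ζ _ => D.zrep v (ζ + η)) ?_ ?_ ?_ ?_
      · intro ζ _
        rw [hval]
        exact fm_sg_add _
      · intro ζ _ _ h2
        have h3 := hval ζ
        rw [h2] at h3
        exact fm_ne _ h3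
      · intro ζ hζ
        rw [fm_mem]
        exact ⟨fm_zrep_congr (fm_mk_zrep v _),
          fm_AvM_zrep (fm_AvM_add (fm_mem.1 hζ).2 hη1)⟩
      · intro ζ hζ
        have h1 := (fm_mem.1 hζ).1
        have h2 : (Submodule.Quotient.mk (D.zrep v (ζ + η) + η) : D.Z ⧸ D.Av v) =
            Submodule.Quotient.mk ζ := by
          rw [Submodule.Quotient.mk_add, fm_mk_zrep, ← Submodule.Quotient.mk_add, add_assoc,
            Ext.two_Z, add_zero]
        show D.zrep v (D.zrep v (ζ + η) + η) = ζ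
        rw [fm_zrep_congr h2, h1]
    rw [h0]
    simp

private theorem fm_B_add (v κ κ' : D.V) : D.B v (κ + κ') = D.B v κ + D.B v κ' := by
  unfold Dt.B
  rw [map_add, map_add, LinearMap.add_apply]
  abel

/-- the sum over the characters -/
private theorem fm_sum (v : D.V) (ξ : D.Z) (hξ : D.zrep v ξ = ξ) :
    ∑ κ : D.V, sg (ξ ⬝ᵥ D.B v κ) = if ξ = D.zrep v 0 then (Fintype.card D.V : ℤ) else 0 := by
  split_ifs with h
  · have h1 : ∀ κ : D.V, sg (ξ ⬝ᵥ D.B v κ) = 1 := by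
      intro κ
      rw [h, fm_key, zero_dotProduct]
      rfl
    rw [Finset.sum_congr rfl fun κ _ => h1 κ, Finset.sum_const, nsmul_eq_mul, mul_one,
      Finset.card_univ]
  · obtain ⟨u, hu⟩ : ∃ u : D.V, ξ ⬝ᵥ D.B v u ≠ 0 := by
      by_contra hne
      push Not at hne
      apply h
      rw [← hξ]
      apply fm_zrep_congr
      rw [Submodule.Quotient.eq, sub_zero]
      exact hne
    have hu' := fm_one hu
    have h1 : ∑ κ : D.V, sg (ξ ⬝ᵥ D.B v κ) = ∑ κ : D.V, sg (ξ ⬝ᵥ D.B v (κ + u)) :=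
      (Equiv.sum_comp (Equiv.addRight u) fun κ => sg (ξ ⬝ᵥ D.B v κ)).symm
    have h2 : ∑ κ : D.V, sg (ξ ⬝ᵥ D.B v κ) + ∑ κ : D.V, sg (ξ ⬝ᵥ D.B v (κ + u)) = 0 := by
      rw [← Finset.sum_add_distrib]
      apply Finset.sum_eq_zero
      intro κ _
      rw [fm_B_add, dotProduct_add, hu']
      exact fm_sg_add _
    rw [← h1] at h2
    omega

/-- the mean of the local weights is at least one -/
theorem ff_mean {D : Dt} (w : Wt D) (v : D.V) :
    ∑ κ : D.V, w.ff v κ = (Fintype.card D.V : ℝ) := by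
  classical
  have h1 : ∑ κ : D.V, w.ff v κ =
      ((∑ κ : D.V, ∑ ξ ∈ fmR w v, sg (ξ ⬝ᵥ D.B v κ) : ℤ) : ℝ) := by
    rw [Int.cast_sum]
    exact Finset.sum_congr rfl fun κ _ => fm_ff w v κ
  rw [h1, Finset.sum_comm]
  have h2 : ∑ ξ ∈ fmR w v, ∑ κ : D.V, sg (ξ ⬝ᵥ D.B v κ) =
      ∑ ξ ∈ fmR w v, if ξ = D.zrep v 0 then (Fintype.card D.V : ℤ) else 0 :=
    Finset.sum_congr rfl fun ξ hξ => fm_sum v ξ (fm_mem.1 hξ).1
  have h3 : D.zrep v 0 ∈ fmR w v := by
    rw [fm_mem]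
    refine ⟨fm_zrep_congr (fm_mk_zrep v _), fm_AvM_zrep ?_⟩
    intro g _
    rw [zero_dotProduct]
  rw [h2, Finset.sum_ite_eq' (fmR w v) (D.zrep v 0), if_pos h3]
  simp

end Pool.Agent.H98.ML
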