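import Mathlib

/-!
# Project MK2 (MP_a3214d): sums over the primes of a residue class

`∑_{p = a mod q} p ^ (-s) ≥ (1 / φ(q)) log (1 / (s - 1)) - C` for `1 < s ≤ 2`.
-/

set_option autoImplicit false

open scoped BigOperators Topology
open Finset Filter MeasureTheory
open ArithmeticFunction.vonMangoldt (residueClass)

namespace Pool.Agent.H98.ML

section PC

variable {q : ℕ} (a : ZMod q)

open Classical in
/-- the indicator of the primes of a residue class -/
noncomputable def pcw (n : ℕ) : ℝ := if n.Prime ∧ (n : ZMod q) = a then 1 else 0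

theorem pcw_nonneg (n : ℕ) : 0 ≤ pcw a n := by
  unfold pcw
  split_ifs
  · exact zero_le_one
  · exact le_rfl

theorem pcw_le (n : ℕ) : pcw a n ≤ 1 := by
  unfold pcw
  split_ifs
  · exact le_rfl
  · exact zero_le_one

theorem pcw_prime {n : ℕ} (h : pcw a n ≠ 0) : n.Prime := by
  by_contra h1
  apply h
  unfold pcw
  rw [if_neg]
  exact fun h2 => h1 h2.1

/-- one term -/
noncomputable def pct (n : ℕ) (x : ℝ) : ℝ := pcw a n * (Real.log n * (n : ℝ) ^ (-x))

theorem pct_nonneg (n : ℕ) (x : ℝ) : 0 ≤ pct a n x :=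
  mul_nonneg (pcw_nonneg a n) (mul_nonneg (Real.log_natCast_nonneg n)
    (Real.rpow_nonneg (Nat.cast_nonneg n) _))

theorem pct_anti (n : ℕ) {x y : ℝ} (h : x ≤ y) : pct a n y ≤ pct a n x := by
  by_cases h0 : pcw a n = 0
  · unfold pct
    rw [h0, zero_mul, zero_mul]
  · have hp := pcw_prime a h0
    have h1 : (1 : ℝ) ≤ n := by exact_mod_cast hp.one_lt.le
    unfold pct
    exact mul_le_mul_of_nonneg_left (mul_le_mul_of_nonneg_left
      (Real.rpow_le_rpow_of_exponent_le h1 (by linarith)) (Real.log_natCast_nonneg n))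
      (pcw_nonneg a n)

theorem pct_eq (n : ℕ) (x : ℝ) :
    pct a n x = (if n.Prime then residueClass a n else 0) / (n : ℝ) ^ x := by
  unfold pct pcw
  by_cases hp : n.Prime
  · rw [if_pos hp]
    by_cases ha : (n : ZMod q) = a
    · rw [if_pos ⟨hp, ha⟩, one_mul]
      have h1 : residueClass a n = Real.log n := by
        unfold ArithmeticFunction.vonMangoldt.residueClass
        rw [Set.indicator_of_mem (by exact ha)]
        exact ArithmeticFunction.vonMangoldt_apply_prime hp
      rw [h1, Real.rpow_neg (Nat.cast_nonneg n), div_eq_mul_inv]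
    · rw [if_neg (fun h => ha h.2), zero_mul]
      have h1 : residueClass a n = 0 := by
        unfold ArithmeticFunction.vonMangoldt.residueClass
        rw [Set.indicator_of_notMem (by exact ha)]
      rw [h1, zero_div]
  · rw [if_neg (fun h => hp h.1), if_neg hp, zero_mul, zero_div]

theorem pc_sum_res {x : ℝ} (hx : 1 < x) : Summable fun n : ℕ => residueClass a n / (n : ℝ) ^ x := by
  refine LSeries.summable_real_of_abscissaOfAbsConv_lt ?_
  exact (ArithmeticFunction.vonMangoldt.abscissaOfAbsConv_residueClass_le_one a).trans_lt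
    (by exact_mod_cast hx)

theorem pct_summable {x : ℝ} (hx : 1 < x) : Summable fun n : ℕ => pct a n x := by
  refine Summable.of_nonneg_of_le (fun n => pct_nonneg a n x) (fun n => ?_) (pc_sum_res a hx)
  rw [pct_eq]
  have h1 := ArithmeticFunction.vonMangoldt.residueClass_nonneg a n
  have h2 := Real.rpow_nonneg (Nat.cast_nonneg n : (0 : ℝ) ≤ n) x
  split_ifs
  · exact le_rfl
  · rw [zero_div]
    exact div_nonneg h1 h2

/-- the sum over the primes, with logarithms -/
noncomputable def pcP (x : ℝ) : ℝ := ∑' n : ℕ, pct a n x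

theorem pc_lower [NeZero q] (ha : IsUnit a) : ∃ C : ℝ, 0 ≤ C ∧ ∀ x : ℝ, 1 < x → x ≤ 2 →
    (q.totient : ℝ)⁻¹ / (x - 1) - C ≤ pcP a x := by
  obtain ⟨C, hC⟩ := ArithmeticFunction.vonMangoldt.LSeries_residueClass_lower_bound ha
  have hnp := ArithmeticFunction.vonMangoldt.summable_residueClass_non_primes_div a
  set C1 : ℝ := ∑' n : ℕ, (if n.Prime then 0 else residueClass a n) / n with hC1
  refine ⟨|C| + |C1|, by positivity, fun x hx hx2 => ?_⟩
  have h1 := hC (x := x) ⟨hx, hx2⟩
  have h0 : ∀ n : ℕ, 0 ≤ (if n.Prime then 0 else residueClass a n) / (n : ℝ) ^ x := fun n => by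
    have h1 := ArithmeticFunction.vonMangoldt.residueClass_nonneg a n
    have h2 := Real.rpow_nonneg (Nat.cast_nonneg n : (0 : ℝ) ≤ n) x
    split_ifs
    · rw [zero_div]
    · exact div_nonneg h1 h2
  have hle : ∀ n : ℕ, (if n.Prime then 0 else residueClass a n) / (n : ℝ) ^ x ≤
      (if n.Prime then 0 else residueClass a n) / (n : ℝ) := fun n => by
    have h1 := ArithmeticFunction.vonMangoldt.residueClass_nonneg a n
    split_ifs
    · rw [zero_div, zero_div]
    · rcases n.eq_zero_or_pos with rfl | hn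
      · simp
      · refine div_le_div_of_nonneg_left h1 (by exact_mod_cast hn) ?_
        conv_lhs => rw [← Real.rpow_one (n : ℝ)]
        exact Real.rpow_le_rpow_of_exponent_le (by exact_mod_cast hn) hx.le
  have hs2 : Summable fun n : ℕ => (if n.Prime then 0 else residueClass a n) / (n : ℝ) ^ x :=
    Summable.of_nonneg_of_le h0 hle hnp
  have h2 : ∑' n, residueClass a n / (n : ℝ) ^ x =
      pcP a x + ∑' n : ℕ, (if n.Prime then 0 else residueClass a n) / (n : ℝ) ^ x := by
    unfold pcP
    rw [← (pct_summable a hx).tsum_add hs2]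
    refine tsum_congr fun n => ?_
    rw [pct_eq, ← add_div]
    congr 1
    split_ifs
    · rw [add_zero]
    · rw [zero_add]
  have h3 : ∑' n : ℕ, (if n.Prime then 0 else residueClass a n) / (n : ℝ) ^ x ≤ C1 :=
    hs2.tsum_le_tsum hle hnp
  have h4 := le_abs_self C
  have h5 := le_abs_self C1
  linarith

theorem pct_integral (n : ℕ) (s : ℝ) :
    ∫ x in s..2, pct a n x = pcw a n * ((n : ℝ) ^ (-s) - (n : ℝ) ^ (-(2 : ℝ))) := by
  by_cases h0 : pcw a n = 0
  · have h1 : ∀ x, pct a n x = 0 := fun x => by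
      unfold pct
      rw [h0, zero_mul]
    simp only [h1, h0, zero_mul, intervalIntegral.integral_zero]
  · have hp := pcw_prime a h0
    have hn : (0 : ℝ) < n := by exact_mod_cast hp.pos
    have hd : ∀ x : ℝ, HasDerivAt (fun x : ℝ => -((n : ℝ) ^ (-x))) (Real.log n * (n : ℝ) ^ (-x)) x := by
      intro x
      have h1 : HasDerivAt (fun x : ℝ => (n : ℝ) ^ x) (Real.log n * (n : ℝ) ^ (-x)) (-x) := by
        exact (Real.hasStrictDerivAt_const_rpow hn (-x)).hasDerivAt.congr_deriv (mul_comm _ _)
      exact (h1.comp x (hasDerivAt_neg x)).neg.congr_deriv (by ring)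
    have hi : ∫ x in s..2, Real.log n * (n : ℝ) ^ (-x) =
        -((n : ℝ) ^ (-(2 : ℝ))) - -((n : ℝ) ^ (-s)) := by
      refine intervalIntegral.integral_eq_sub_of_hasDerivAt (fun x _ => hd x) ?_
      refine Continuous.intervalIntegrable ?_ _ _
      exact continuous_const.mul (Real.continuous_const_rpow hn.ne' |>.comp continuous_neg)
    unfold pct
    rw [intervalIntegral.integral_const_mul, hi]
    ring

theorem pct_cont (n : ℕ) : Continuous (pct a n) := by
  by_cases h0 : pcw a n = 0
  · have h1 : pct a n = fun _ => 0 := by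
      funext x
      unfold pct
      rw [h0, zero_mul]
    rw [h1]
    exact continuous_const
  · have hp := pcw_prime a h0
    have hn : (0 : ℝ) < n := by exact_mod_cast hp.pos
    unfold pct
    exact continuous_const.mul (continuous_const.mul
      ((Real.continuous_const_rpow hn.ne').comp continuous_neg))

theorem pc_hasSum {s : ℝ} (hs : 1 < s) (hs2 : s ≤ 2) :
    HasSum (fun n : ℕ => pcw a n * ((n : ℝ) ^ (-s) - (n : ℝ) ^ (-(2 : ℝ))))
      (∫ x in s..2, pcP a x) := by
  have h1 : HasSum (fun n : ℕ => ∫ x in s..2, pct a n x) (∫ x in s..2, pcP a x) := by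
    refine intervalIntegral.hasSum_integral_of_dominated_convergence
      (fun n _ => pct a n s) (fun n => (pct_cont a n).aestronglyMeasurable) ?_ ?_ ?_ ?_
    · intro n
      refine ae_of_all _ fun t ht => ?_
      rw [Set.uIoc_of_le hs2] at ht
      rw [Real.norm_of_nonneg (pct_nonneg a n t)]
      exact pct_anti a n ht.1.le
    · exact ae_of_all _ fun t _ => pct_summable a hs
    · exact intervalIntegrable_const
    · refine ae_of_all _ fun t ht => ?_
      rw [Set.uIoc_of_le hs2] at ht
      exact (pct_summable a (hs.trans ht.1)).hasSum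
  simpa only [pct_integral] using h1

/-- the lower bound -/
theorem pc_main [NeZero q] (ha : IsUnit a) : ∃ C : ℝ, 0 ≤ C ∧ ∀ s : ℝ, 1 < s → s ≤ 2 →
    (q.totient : ℝ)⁻¹ * Real.log (1 / (s - 1)) - C ≤ ∑' n : ℕ, pcw a n * (n : ℝ) ^ (-s) := by
  obtain ⟨C, hC0, hC⟩ := pc_lower a ha
  refine ⟨C, hC0, fun s hs hs2 => ?_⟩
  have h1 := pc_hasSum a hs hs2
  have hsum : Summable fun n : ℕ => pcw a n * (n : ℝ) ^ (-s) := by
    refine Summable.of_nonneg_of_le (fun n => ?_) (fun n => ?_)
      (Real.summable_nat_rpow.2 (by linarith : -s < -1))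
    · exact mul_nonneg (pcw_nonneg a n) (Real.rpow_nonneg (Nat.cast_nonneg n) _)
    · exact mul_le_of_le_one_left (Real.rpow_nonneg (Nat.cast_nonneg n) _) (pcw_le a n)
  have h2 : ∫ x in s..2, pcP a x ≤ ∑' n : ℕ, pcw a n * (n : ℝ) ^ (-s) := by
    rw [← h1.tsum_eq]
    refine h1.summable.tsum_le_tsum (fun n => ?_) hsum
    refine mul_le_mul_of_nonneg_left ?_ (pcw_nonneg a n)
    have := Real.rpow_nonneg (Nat.cast_nonneg n : (0 : ℝ) ≤ n) (-(2 : ℝ))
    linarith
  have hanti : AntitoneOn (pcP a) (Set.uIcc s 2) := by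
    intro x hx y hy hxy
    rw [Set.uIcc_of_le hs2] at hx hy
    exact (pct_summable a (by linarith [hy.1])).tsum_le_tsum (fun n => pct_anti a n hxy)
      (pct_summable a (by linarith [hx.1]))
  have hi1 : IntervalIntegrable (fun x : ℝ => (q.totient : ℝ)⁻¹ * (x - 1)⁻¹ - C) volume s 2 := by
    refine IntervalIntegrable.sub ?_ intervalIntegrable_const
    refine ContinuousOn.intervalIntegrable ?_
    refine continuousOn_const.mul (ContinuousOn.inv₀ (by fun_prop) fun x hx => ?_)
    rw [Set.uIcc_of_le hs2] at hx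
    have := hx.1
    intro h
    linarith
  have h3 : ∫ x in s..2, ((q.totient : ℝ)⁻¹ * (x - 1)⁻¹ - C) ≤ ∫ x in s..2, pcP a x := by
    refine intervalIntegral.integral_mono_on hs2 hi1 hanti.intervalIntegrable fun x hx => ?_
    have := hC x (by linarith [hx.1]) hx.2
    rwa [div_eq_mul_inv] at this
  have h4 : ∫ x in s..2, ((q.totient : ℝ)⁻¹ * (x - 1)⁻¹ - C) =
      ((q.totient : ℝ)⁻¹ * Real.log (2 - 1) - C * 2) -
        ((q.totient : ℝ)⁻¹ * Real.log (s - 1) - C * s) := by
    refine intervalIntegral.integral_eq_sub_of_hasDerivAt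
      (f := fun x => (q.totient : ℝ)⁻¹ * Real.log (x - 1) - C * x) (fun x hx => ?_) hi1
    rw [Set.uIcc_of_le hs2] at hx
    have hx1 : x - 1 ≠ 0 := by
      have := hx.1
      intro h
      linarith
    have h5 : HasDerivAt (fun x : ℝ => Real.log (x - 1)) ((x - 1)⁻¹) x := by
      have h6 := ((hasDerivAt_id x).sub_const 1).log hx1
      simpa using h6
    exact ((h5.const_mul (q.totient : ℝ)⁻¹).sub ((hasDerivAt_id x).const_mul C)).congr_deriv
      (by rw [mul_one])
  have h5 : Real.log (1 / (s - 1)) = - Real.log (s - 1) := by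
    rw [one_div, Real.log_inv]
  have h6 : (2 : ℝ) - 1 = 1 := by norm_num
  rw [h6, Real.log_one] at h4
  rw [h5]
  have h8 : C * (2 - s) ≤ C * 1 := mul_le_mul_of_nonneg_left (by linarith) hC0
  nlinarith

end PC

end Pool.Agent.H98.ML
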