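import Pool.Agent.H98.ML.PosAnB
import Pool.Agent.H98.ML.PosAnC

/-!
# Project MK2 (MP_a3214d), row P7: a lower bound for sums of multiplicative weights
-/

set_option autoImplicit false

open scoped BigOperators
open Finset Filter

namespace Pool.Agent.H98.ML

theorem ml_pointwise {q : ℕ} [NeZero q] {h : ZMod q → ℝ} (h0 : ∀ a, 0 ≤ h a) (n : ℕ) :
    ∑ a : (ZMod q)ˣ, h a * pcw (a : ZMod q) n ≤ if n.Prime then h (n : ZMod q) else 0 := by
  by_cases hp : n.Prime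
  · rw [if_pos hp]
    by_cases hu : ∃ u : (ZMod q)ˣ, (u : ZMod q) = n
    · obtain ⟨u, hu⟩ := hu
      have h1 : ∀ a : (ZMod q)ˣ, a ≠ u → h a * pcw (a : ZMod q) n = 0 := by
        intro a ha
        unfold pcw
        rw [if_neg, mul_zero]
        rintro ⟨_, h2⟩
        exact ha (Units.ext (h2.symm.trans hu.symm))
      rw [Fintype.sum_eq_single u h1, ← hu]
      exact mul_le_of_le_one_right (h0 _) (pcw_le _ n)
    · have h1 : ∀ a ∈ (univ : Finset (ZMod q)ˣ), h a * pcw (a : ZMod q) n = 0 := by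
        intro a _
        unfold pcw
        rw [if_neg, mul_zero]
        rintro ⟨_, h2⟩
        exact hu ⟨a, h2.symm⟩
      rw [sum_eq_zero h1]
      exact h0 _
  · rw [if_neg hp]
    refine le_of_eq (sum_eq_zero fun a _ => ?_)
    unfold pcw
    rw [if_neg, mul_zero]
    exact fun h2 => hp h2.1

theorem ml_sum {q : ℕ} [NeZero q] {h : ZMod q → ℝ} (h0 : ∀ a, 0 ≤ h a) (b : ℕ)
    (hm : (b : ℝ) * q.totient ≤ ∑ a : (ZMod q)ˣ, h a) : ∃ C0 : ℝ, ∀ s : ℝ, 1 < s → s ≤ 2 →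
    (b : ℝ) * Real.log (1 / (s - 1)) - C0 ≤
      ∑' n : ℕ, if n.Prime then h (n : ZMod q) * (n : ℝ) ^ (-s) else 0 := by
  choose C hC0 hC using fun a : (ZMod q)ˣ => pc_main (a : ZMod q) a.isUnit
  refine ⟨∑ a : (ZMod q)ˣ, h a * C a, fun s hs hs2 => ?_⟩
  have hφ : (0 : ℝ) < q.totient := by exact_mod_cast Nat.totient_pos.2 (Nat.pos_of_neZero q)
  have hlog : 0 ≤ Real.log (1 / (s - 1)) := by
    refine Real.log_nonneg ?_
    rw [le_div_iff₀ (by linarith)]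
    linarith
  have hsm : ∀ a : (ZMod q)ˣ, Summable fun n : ℕ => pcw (a : ZMod q) n * (n : ℝ) ^ (-s) := by
    intro a
    refine Summable.of_nonneg_of_le (fun n => ?_) (fun n => ?_)
      (Real.summable_nat_rpow.2 (by linarith : -s < -1))
    · exact mul_nonneg (pcw_nonneg _ n) (Real.rpow_nonneg (Nat.cast_nonneg n) _)
    · exact mul_le_of_le_one_left (Real.rpow_nonneg (Nat.cast_nonneg n) _) (pcw_le _ n)
  have h1 : ∑ a : (ZMod q)ˣ, h a * ∑' n : ℕ, pcw (a : ZMod q) n * (n : ℝ) ^ (-s) ≤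
      ∑' n : ℕ, if n.Prime then h (n : ZMod q) * (n : ℝ) ^ (-s) else 0 := by
    have h2 : ∑ a : (ZMod q)ˣ, h a * ∑' n : ℕ, pcw (a : ZMod q) n * (n : ℝ) ^ (-s) =
        ∑' n : ℕ, ∑ a : (ZMod q)ˣ, h a * (pcw (a : ZMod q) n * (n : ℝ) ^ (-s)) := by
      rw [Summable.tsum_finsetSum fun a _ => (hsm a).mul_left _]
      exact sum_congr rfl fun a _ => (hsm a).tsum_mul_left _ |>.symm
    rw [h2]
    have hle : ∀ n : ℕ, ∑ a : (ZMod q)ˣ, h a * (pcw (a : ZMod q) n * (n : ℝ) ^ (-s)) ≤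
        if n.Prime then h (n : ZMod q) * (n : ℝ) ^ (-s) else 0 := by
      intro n
      have h3 := ml_pointwise h0 n
      have h4 : ∑ a : (ZMod q)ˣ, h a * (pcw (a : ZMod q) n * (n : ℝ) ^ (-s)) =
          (∑ a : (ZMod q)ˣ, h a * pcw (a : ZMod q) n) * (n : ℝ) ^ (-s) := by
        rw [sum_mul]
        exact sum_congr rfl fun a _ => (mul_assoc _ _ _).symm
      rw [h4]
      have h5 := Real.rpow_nonneg (Nat.cast_nonneg n : (0 : ℝ) ≤ n) (-s)
      have h6 := mul_le_mul_of_nonneg_right h3 h5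
      refine h6.trans (le_of_eq ?_)
      split_ifs
      · rfl
      · exact zero_mul _
    refine Summable.tsum_le_tsum hle (summable_sum fun a _ => (hsm a).mul_left _) ?_
    exact pb_summable (g := fun n : ℕ => h (n : ZMod q)) (H := ∑ a : ZMod q, h a)
      (fun n => h0 _) (fun n => single_le_sum (fun a _ => h0 a) (mem_univ _)) hs
  refine le_trans ?_ h1
  have h2 : ∑ a : (ZMod q)ˣ, h a * ((q.totient : ℝ)⁻¹ * Real.log (1 / (s - 1)) - C a) ≤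
      ∑ a : (ZMod q)ˣ, h a * ∑' n : ℕ, pcw (a : ZMod q) n * (n : ℝ) ^ (-s) :=
    sum_le_sum fun a _ => mul_le_mul_of_nonneg_left (hC a s hs hs2) (h0 _)
  refine le_trans ?_ h2
  have h3 : ∑ a : (ZMod q)ˣ, h a * ((q.totient : ℝ)⁻¹ * Real.log (1 / (s - 1)) - C a) =
      (∑ a : (ZMod q)ˣ, h a) * (q.totient : ℝ)⁻¹ * Real.log (1 / (s - 1)) -
        ∑ a : (ZMod q)ˣ, h a * C a := by
    rw [sum_mul, sum_mul, ← sum_sub_distrib]
    exact sum_congr rfl fun a _ => by ring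
  rw [h3]
  have h4 : (b : ℝ) ≤ (∑ a : (ZMod q)ˣ, h a) * (q.totient : ℝ)⁻¹ := by
    rw [← div_eq_mul_inv, le_div_iff₀ hφ]
    exact hm
  have h5 := mul_le_mul_of_nonneg_right h4 hlog
  linarith

open Classical in
theorem mult_low (q : ℕ) [NeZero q] (h : ZMod q → ℝ) (h0 : ∀ a, 0 ≤ h a) (b : ℕ) (hb : 1 ≤ b)
    (hm : (b : ℝ) * q.totient ≤ ∑ a : (ZMod q)ˣ, h a) (N : ℕ) (hN : 0 < N) :
    ∃ c : ℝ, 0 < c ∧ ∀ Y0 : ℝ, ∃ Y : ℝ, Y0 ≤ Y ∧ c * (Y * Real.log Y ^ (b - 1)) ≤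
      ∑ n ∈ Finset.Icc 1 ⌊Y⌋₊, if Squarefree n ∧ Nat.Coprime n N
        then ∏ p ∈ n.primeFactors, h (p : ZMod q) else 0 := by
  obtain ⟨C0, hC0⟩ := ml_sum h0 b hm
  obtain ⟨b', rfl⟩ := Nat.exists_eq_add_of_le' hb
  obtain ⟨c, hc, hY⟩ := pa_gen hN (g := fun n : ℕ => h (n : ZMod q)) (H := ∑ a : ZMod q, h a)
    (fun n => h0 _) (fun n => single_le_sum (fun a _ => h0 a) (mem_univ _)) b' C0
    (fun s hs hs2 => by
      have := hC0 s hs hs2
      push_cast at this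
      exact this)
  refine ⟨c, hc, fun Y0 => ?_⟩
  obtain ⟨Y, h1, h2⟩ := hY Y0
  refine ⟨Y, h1, ?_⟩
  rw [Nat.add_sub_cancel]
  rw [paS_eq] at h2
  refine h2.trans (le_of_eq (sum_congr rfl fun n _ => ?_))
  unfold paF
  congr

end Pool.Agent.H98.ML
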