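import Pool.Agent.H98.ML.GGLower3
import Pool.Agent.H98.ML.FFMean
import Pool.Agent.H98.ML.MultLow
import Pool.Agent.H98.ML.CardConj

/-!
# Project MK2, row P9: lower bound for the main part
-/

set_option autoImplicit false

open scoped BigOperators

namespace Pool.Agent.H98.ML

theorem GG_lower {D : Dt} (w : Wt D) (π : Pr D) : ∃ c : ℝ, 0 < c ∧ ∀ Y0 : ℝ, ∃ Y : ℝ, Y0 ≤ Y ∧
    c * (Y * Real.log Y ^ (w.b - 1)) ≤ w.GG π Y := by
  have : NeZero (gq π) := ⟨(gq_pos π).ne'⟩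
  obtain ⟨N, hN, A, hA, E, hE, hY⟩ := w.gl_remove π
  obtain ⟨c, hc, h⟩ := mult_low (gq π) (w.gh π) (w.gh_nonneg π) w.b (b_pos2 w)
    (w.gl_mean (ff_mean w) π) N hN
  refine ⟨c / (E * A * 2 ^ (w.b - 1)), by positivity, fun Y0 => ?_⟩
  obtain ⟨Y, h1, h2⟩ := h (max Y0 A)
  have hY0 : Y0 ≤ Y := (le_max_left _ _).trans h1
  have hAY : A ≤ Y := (le_max_right _ _).trans h1
  have hY1 : 1 ≤ Y := hA.trans hAY
  have hYp : 0 < Y := by linarith
  have hAp : 0 < A := by linarith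
  refine ⟨A * Y, hY0.trans (le_mul_of_one_le_left hYp.le hA), ?_⟩
  have h3 := h2.trans (hY Y hYp.le)
  have hl : Real.log (A * Y) ≤ 2 * Real.log Y := by
    rw [Real.log_mul hAp.ne' hYp.ne']
    have := Real.log_le_log hAp hAY
    linarith
  have hl0 : 0 ≤ Real.log (A * Y) := Real.log_nonneg (by nlinarith)
  have hl1 : Real.log (A * Y) ^ (w.b - 1) ≤ 2 ^ (w.b - 1) * Real.log Y ^ (w.b - 1) := by
    rw [← mul_pow]
    exact pow_le_pow_left₀ hl0 hl _
  calc c / (E * A * 2 ^ (w.b - 1)) * (A * Y * Real.log (A * Y) ^ (w.b - 1))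
      ≤ c / (E * A * 2 ^ (w.b - 1)) * (A * Y * (2 ^ (w.b - 1) * Real.log Y ^ (w.b - 1))) := by
        gcongr
    _ = (c * (Y * Real.log Y ^ (w.b - 1))) / E := by
        field_simp
    _ ≤ (E * w.GG π (A * Y)) / E := div_le_div_of_nonneg_right h3 hE.le
    _ = w.GG π (A * Y) := by
        field_simp

end Pool.Agent.H98.ML
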