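import Pool.Agent.H98.ML.MainPos2Of
import Pool.Agent.H98.ML.ExistsPr
import Pool.Agent.H98.ML.FLe
import Pool.Agent.H98.ML.FGG
import Pool.Agent.H98.ML.FExpand
import Pool.Agent.H98.ML.FXSmall
import Pool.Agent.H98.ML.UUSum
import Pool.Agent.H98.ML.GGLower

/-!
# Project MK2, row P10: positivity of the main term
-/

set_option autoImplicit false

open scoped BigOperators
open Filter

namespace Pool.Agent.H98.ML

theorem main_pos2 {D : Dt} (w : Wt D)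
    (θ : D.V → D.V → (D.V → ZMod 8) → Finset D.V → ℝ) (h0 : ∀ a b δ Q, 0 ≤ θ a b δ Q)
    (h1 : ∀ Q, D.Span 0 0 Q → 1 ≤ θ 0 0 (fun _ => 1) Q) :
    ∃ c : ℝ, 0 < c ∧ ∀ Y0 : ℝ, ∃ Y : ℝ, Y0 ≤ Y ∧
      c * (Y * Real.log Y ^ (w.b - 1)) ≤ S w θ Y := by
  obtain ⟨π⟩ := exists_Pr D
  exact main_pos2_of w π θ (F_le w π θ h0 h1) (fun ε hε => F_GG_of w π
    (fun Y hY => F_expand w π Y hY) (fun σ h2 h3 => FX_small w π σ h2 h3)
    (fun ζ hζ Y hY => UU_sum w π ζ hζ Y hY) (fun Y => GG_nonneg w π Y) ε hε) (GG_lower w π)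

end Pool.Agent.H98.ML
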