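import Pool.Agent.H98.MK.DiscCompare
import Pool.Agent.H98.MK.TameExp

/-!
# Project MK2 (MP_a3214d), discriminants of non-normal fields: preparations (helper33)

Transport of the different under an automorphism, and the `p`-part of the norm of an ideal of a
Galois extension of `ℚ`.
-/

set_option autoImplicit false

open NumberField Pool.Agent.H67.MU UniqueFactorizationMonoid

open scoped Pointwise nonZeroDivisors

namespace Pool.Agent.H98.ML

open Pool.Agent.H98.MK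

section

variable {F K : Type} [Field F] [NumberField F] [Field K] [NumberField K] [Algebra F K]

/-- a description of the different by traces -/
theorem gd_mem_diff (x : 𝓞 K) : x ∈ differentIdeal (𝓞 F) (𝓞 K) ↔
    ∀ y : K, (∀ b : 𝓞 K, Algebra.trace F K (y * (b : K)) ∈ (algebraMap (𝓞 F) F).range) →
      ∃ z : 𝓞 K, (x : K) * y = (z : K) := by
  have h1 : x ∈ differentIdeal (𝓞 F) (𝓞 K) ↔ (x : K) ∈
      (FractionalIdeal.dual (𝓞 F) F (1 : FractionalIdeal (𝓞 K)⁰ K))⁻¹ := by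
    rw [← coeIdeal_differentIdeal (𝓞 F) F K (𝓞 K), FractionalIdeal.mem_coeIdeal]
    constructor
    · intro h
      exact ⟨x, h, rfl⟩
    · rintro ⟨x', h, hx⟩
      have : x' = x := RingOfIntegers.ext hx
      rwa [← this]
  have hone : (1 : FractionalIdeal (𝓞 K)⁰ K) ≠ 0 := one_ne_zero
  rw [h1, FractionalIdeal.mem_inv_iff (FractionalIdeal.dual_ne_zero (𝓞 F) F hone)]
  refine forall_congr' fun y => ?_
  have h2 : y ∈ FractionalIdeal.dual (𝓞 F) F (1 : FractionalIdeal (𝓞 K)⁰ K) ↔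
      ∀ b : 𝓞 K, Algebra.trace F K (y * (b : K)) ∈ (algebraMap (𝓞 F) F).range := by
    rw [FractionalIdeal.mem_dual hone]
    constructor
    · intro h b
      exact h _ ((FractionalIdeal.mem_one_iff _).2 ⟨b, rfl⟩)
    · intro h a ha
      obtain ⟨b, rfl⟩ := (FractionalIdeal.mem_one_iff _).1 ha
      exact h b
  rw [h2, FractionalIdeal.mem_one_iff]
  refine imp_congr_right fun _ => ?_
  constructor
  · rintro ⟨z, hz⟩
    exact ⟨z, hz.symm⟩
  · rintro ⟨z, hz⟩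
    exact ⟨z, hz.symm⟩

end

section

variable {K : Type} [Field K] [NumberField K]

theorem gd_coe_smul (σ : K ≃ₐ[ℚ] K) (x : 𝓞 K) : ((σ • x : 𝓞 K) : K) = σ (x : K) := rfl

theorem gd_trace (σ : K ≃ₐ[ℚ] K) (F : IntermediateField ℚ K) (w : K) :
    Algebra.trace F K (σ.symm w) = (IntermediateField.intermediateFieldMap σ F).symm
      (Algebra.trace (F.map (σ : K →ₐ[ℚ] K)) K w) := by
  have h := Algebra.trace_eq_of_equiv_equiv
    (IntermediateField.intermediateFieldMap σ F).toRingEquiv σ.toRingEquiv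
    (by ext x; rfl) (σ.symm w)
  rw [h]
  have h2 : σ.toRingEquiv (σ.symm w) = w := AlgEquiv.apply_symm_apply σ w
  rw [h2]
  rfl

theorem gd_smul_mem (σ : K ≃ₐ[ℚ] K) (F F' : IntermediateField ℚ K)
    (hF : F.map (σ : K →ₐ[ℚ] K) = F') {x : 𝓞 K}
    (hx : x ∈ differentIdeal (𝓞 F) (𝓞 K)) :
    σ • x ∈ differentIdeal (𝓞 F') (𝓞 K) := by
  subst hF
  rw [gd_mem_diff] at hx ⊢
  intro y hy
  obtain ⟨z, hz⟩ := hx (σ.symm y) fun b => by
    obtain ⟨t, ht⟩ := hy (σ • b)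
    rw [gd_coe_smul] at ht
    have h2 := gd_trace σ F (y * σ (b : K))
    rw [map_mul, AlgEquiv.symm_apply_apply, ← ht] at h2
    rw [h2]
    have hint : IsIntegral ℤ ((IntermediateField.intermediateFieldMap σ F).symm
        (algebraMap (𝓞 (F.map (σ : K →ₐ[ℚ] K))) (F.map (σ : K →ₐ[ℚ] K)) t)) :=
      map_isIntegral_int
        (IntermediateField.intermediateFieldMap σ F).symm (RingOfIntegers.isIntegral_coe t)
    exact ⟨⟨_, hint⟩, rfl⟩
  refine ⟨σ • z, ?_⟩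
  rw [gd_coe_smul, gd_coe_smul, ← hz, map_mul, AlgEquiv.apply_symm_apply]

theorem gd_smul_ne_bot (σ : K ≃ₐ[ℚ] K) {P : Ideal (𝓞 K)} (hP0 : P ≠ ⊥) : σ • P ≠ ⊥ := by
  intro h
  apply hP0
  rw [eq_bot_iff]
  intro x hx
  have h1 := Ideal.smul_mem_pointwise_smul σ x P hx
  rw [h, Ideal.mem_bot, smul_eq_zero_iff_eq] at h1
  exact h1

theorem gd_map_inv (σ : K ≃ₐ[ℚ] K) (F F' : IntermediateField ℚ K)
    (hF : F.map (σ : K →ₐ[ℚ] K) = F') :
    F'.map ((σ⁻¹ : K ≃ₐ[ℚ] K) : K →ₐ[ℚ] K) = F := by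
  rw [← hF, IntermediateField.map_map]
  have h5 : ((σ⁻¹ : K ≃ₐ[ℚ] K) : K →ₐ[ℚ] K).comp (σ : K →ₐ[ℚ] K) = AlgHom.id ℚ K := by
    ext y
    exact AlgEquiv.symm_apply_apply σ y
  rw [h5, IntermediateField.map_id]

theorem gd_vexp_le (σ : K ≃ₐ[ℚ] K) (F F' : IntermediateField ℚ K)
    (hF : F.map (σ : K →ₐ[ℚ] K) = F') (P : Ideal (𝓞 K))
    [hP : P.IsPrime] (hP0 : P ≠ ⊥) :
    vexp P (differentIdeal (𝓞 F) (𝓞 K)) ≤
      vexp (σ • P) (differentIdeal (𝓞 F') (𝓞 K)) := by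
  have hp : (σ • P).IsPrime := inferInstance
  have hd1 : differentIdeal (𝓞 F) (𝓞 K) ≠ ⊥ := differentIdeal_ne_bot
  have hd2 : differentIdeal (𝓞 F') (𝓞 K) ≠ ⊥ := differentIdeal_ne_bot
  have h2 : P ^ vexp P (differentIdeal (𝓞 F) (𝓞 K)) ∣ differentIdeal (𝓞 F) (𝓞 K) :=
    (mu3_pow_dvd_iff hP hP0 hd1 _).2 le_rfl
  rw [← mu3_pow_dvd_iff hp (gd_smul_ne_bot σ hP0) hd2, Ideal.dvd_iff_le, ← smul_pow']
  intro x hx
  apply Ideal.mem_pointwise_smul_iff_inv_smul_mem.2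
  exact Ideal.dvd_iff_le.1 h2 (gd_smul_mem σ⁻¹ F' F (gd_map_inv σ F F' hF) hx)

/-- transport of the exponent of the different -/
theorem gd_vexp_eq (σ : K ≃ₐ[ℚ] K) (F F' : IntermediateField ℚ K)
    (hF : F.map (σ : K →ₐ[ℚ] K) = F') (P : Ideal (𝓞 K))
    [hP : P.IsPrime] (hP0 : P ≠ ⊥) :
    vexp (σ • P) (differentIdeal (𝓞 F') (𝓞 K)) = vexp P (differentIdeal (𝓞 F) (𝓞 K)) := by
  refine le_antisymm ?_ (gd_vexp_le σ F F' hF P hP0)
  have h1 := gd_vexp_le σ⁻¹ F' F (gd_map_inv σ F F' hF) (σ • P) (gd_smul_ne_bot σ hP0)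
  rwa [inv_smul_smul] at h1

end

section

variable {K : Type} [Field K] [NumberField K]

omit [NumberField K] in
theorem gd_liesOver {p : ℕ} [hp : Fact p.Prime] {Q : Ideal (𝓞 K)} [hQ : Q.IsPrime]
    (h : (p : 𝓞 K) ∈ Q) : Q.LiesOver (Ideal.span {(p : ℤ)}) := by
  have hmax : (Ideal.span {(p : ℤ)}).IsMaximal :=
    PrincipalIdealRing.isMaximal_of_irreducible (Nat.prime_iff_prime_int.1 hp.out).irreducible
  refine ⟨hmax.eq_of_le (Ideal.IsPrime.ne_top inferInstance) ?_⟩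
  rw [Ideal.span_singleton_le_iff_mem, Ideal.mem_comap]
  simpa using h

/-- the exponent of `p` in the norm of a prime ideal -/
theorem gd_norm {p : ℕ} [hp : Fact p.Prime] {Q : Ideal (𝓞 K)} [hQ : Q.IsPrime]
    (hQ0 : Q ≠ ⊥) [Decidable ((p : 𝓞 K) ∈ Q)] :
    (Ideal.absNorm Q).factorization p = if (p : 𝓞 K) ∈ Q then Q.inertiaDeg ℤ else 0 := by
  split_ifs with h
  · have := gd_liesOver h
    rw [← Ideal.pow_inertiaDeg p Q, hp.out.factorization_pow]
    simp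
  · rw [Nat.factorization_eq_zero_iff]
    right; left
    intro hdvd
    have h0 : Ideal.absNorm Q ≠ 0 := by rwa [Ne, Ideal.absNorm_eq_zero_iff]
    have h1 : ((Ideal.absNorm Q : ℕ) : 𝓞 K) ∈ Q := Ideal.absNorm_mem Q
    rw [← Nat.prod_primeFactorsList h0, Nat.cast_list_prod, ← Multiset.prod_coe,
      hQ.multiset_prod_mem_iff_exists_mem] at h1
    obtain ⟨_, hx, hxQ⟩ := h1
    rw [Multiset.mem_coe] at hx
    obtain ⟨l, hl, rfl⟩ := List.mem_map.1 hx
    have hlp := Nat.prime_of_mem_primeFactorsList hl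
    have : Fact l.Prime := ⟨hlp⟩
    have := gd_liesOver hxQ
    rw [← Ideal.pow_inertiaDeg l Q] at hdvd
    have h2 := hp.out.dvd_of_dvd_pow hdvd
    rw [Nat.prime_dvd_prime_iff_eq hp.out hlp] at h2
    exact h (h2 ▸ hxQ)

theorem gd_prod (p : ℕ) (s : Multiset (Ideal (𝓞 K))) (hs : ∀ Q ∈ s, Q ≠ ⊥) :
    s.prod ≠ ⊥ ∧ (Ideal.absNorm s.prod).factorization p =
      (s.map fun Q => (Ideal.absNorm Q).factorization p).sum := by
  induction s using Multiset.induction_on with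
  | empty => simp [Ideal.one_eq_top]
  | cons Q s ih =>
    obtain ⟨h1, h2⟩ := ih fun P hP => hs P (Multiset.mem_cons_of_mem hP)
    have hQ0 := hs Q (Multiset.mem_cons_self Q s)
    refine ⟨?_, ?_⟩
    · rw [Multiset.prod_cons]
      exact mul_ne_zero hQ0 h1
    · have e1 : Ideal.absNorm Q ≠ 0 := by rwa [Ne, Ideal.absNorm_eq_zero_iff]
      have e2 : Ideal.absNorm s.prod ≠ 0 := by rwa [Ne, Ideal.absNorm_eq_zero_iff]
      rw [Multiset.prod_cons, map_mul, Nat.factorization_mul e1 e2, Multiset.map_cons,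
        Multiset.sum_cons, ← h2]
      rfl

theorem gd_ne_bot (p : ℕ) [Fact p.Prime] (P : Ideal (𝓞 K)) (hpP : (p : 𝓞 K) ∈ P) : P ≠ ⊥ := by
  have hp : p.Prime := Fact.out
  have hp0 : (p : 𝓞 K) ≠ 0 := by exact_mod_cast hp.ne_zero
  rintro rfl
  exact hp0 (by simpa using hpP)

/-- the exponent of `p` in the norm of an ideal as a sum over the Galois group -/
theorem gd_absNorm [IsGalois ℚ K] (p : ℕ) [Fact p.Prime] (P : Ideal (𝓞 K)) [P.IsPrime]
    (hpP : (p : 𝓞 K) ∈ P) (A : Ideal (𝓞 K)) (hA : A ≠ ⊥) :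
    (Ideal.absNorm A).factorization p * Nat.card (P.inertia (K ≃ₐ[ℚ] K)) =
      ∑ σ : K ≃ₐ[ℚ] K, vexp (σ • P) A := by
  classical
  have hp : p.Prime := Fact.out
  have hP0 : P ≠ ⊥ := gd_ne_bot p P hpP
  have hover : P.LiesOver (Ideal.span {(p : ℤ)}) := gd_liesOver hpP
  have hmax : (Ideal.span {(p : ℤ)}).IsMaximal :=
    PrincipalIdealRing.isMaximal_of_irreducible (Nat.prime_iff_prime_int.1 hp).irreducible
  have hsp : Ideal.span {(p : ℤ)} ≠ ⊥ := by
    rw [Ne, Ideal.span_singleton_eq_bot]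
    exact_mod_cast hp.ne_zero
  set T := IsDedekindDomain.primesOverFinset (Ideal.span {(p : ℤ)}) (𝓞 K) with hT
  have hmemT : ∀ Q : Ideal (𝓞 K), Q ∈ T ↔ Q.IsPrime ∧ Q.LiesOver (Ideal.span {(p : ℤ)}) :=
    fun Q => IsDedekindDomain.mem_primesOverFinset_iff hsp (𝓞 K)
  have hin : ∀ Q : Ideal (𝓞 K), Q.IsPrime → (p : 𝓞 K) ∈ Q →
      Q ∈ T ∧ Q.inertiaDeg ℤ = P.inertiaDeg ℤ := by
    intro Q hQ hpQ
    have hoverQ : Q.LiesOver (Ideal.span {(p : ℤ)}) := gd_liesOver hpQ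
    refine ⟨(hmemT Q).2 ⟨hQ, hoverQ⟩, ?_⟩
    exact Ideal.inertiaDeg_eq_of_isGaloisGroup (Ideal.span {(p : ℤ)}) Q P (K ≃ₐ[ℚ] K)
  have hTin : ∀ Q ∈ T, Q.IsPrime ∧ (p : 𝓞 K) ∈ Q := by
    intro Q hQ
    obtain ⟨h1, h2⟩ := (hmemT Q).1 hQ
    refine ⟨h1, ?_⟩
    have h3 : (p : ℤ) ∈ Q.under ℤ := by
      rw [← h2.over]
      exact Ideal.mem_span_singleton_self _
    simpa using h3
  have hprime : ∀ Q ∈ normalizedFactors A, Q.IsPrime ∧ Q ≠ ⊥ := by
    intro Q hQ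
    have h2 := prime_of_normalized_factor Q hQ
    exact ⟨Ideal.isPrime_of_prime h2, h2.ne_zero⟩
  have hfac : (Ideal.absNorm A).factorization p =
      ((normalizedFactors A).map fun Q => if (p : 𝓞 K) ∈ Q then P.inertiaDeg ℤ else 0).sum := by
    have h1 := (gd_prod p (normalizedFactors A) fun Q hQ => (hprime Q hQ).2).2
    rw [Ideal.prod_normalizedFactors_eq_self hA] at h1
    rw [h1]
    congr 1
    refine Multiset.map_congr rfl fun Q hQ => ?_
    have := (hprime Q hQ).1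
    rw [gd_norm (hprime Q hQ).2]
    split_ifs with h
    · exact (hin Q this h).2
    · rfl
  have hcard : Multiset.card ((normalizedFactors A).filter fun Q => (p : 𝓞 K) ∈ Q) =
      ∑ Q ∈ T, vexp Q A := by
    rw [← Multiset.sum_count_eq_card (s := T) (m := (normalizedFactors A).filter
      fun Q => (p : 𝓞 K) ∈ Q) fun Q hQ => ?_]
    · refine Finset.sum_congr rfl fun Q hQ => ?_
      obtain ⟨h1, h2⟩ := hTin Q hQ
      rw [Multiset.count_filter_of_pos (p := fun Q : Ideal (𝓞 K) => (p : 𝓞 K) ∈ Q) h2]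
      unfold vexp
      congr!
    · have h1 := Multiset.mem_filter.1 hQ
      exact (hin Q (hprime Q h1.1).1 h1.2).1
  have hsum : ((normalizedFactors A).map fun Q =>
      if (p : 𝓞 K) ∈ Q then P.inertiaDeg ℤ else 0).sum =
      Multiset.card ((normalizedFactors A).filter fun Q => (p : 𝓞 K) ∈ Q) *
        P.inertiaDeg ℤ := by
    generalize normalizedFactors A = s
    induction s using Multiset.induction_on with
    | empty => simp
    | cons Q s ih =>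
      rw [Multiset.map_cons, Multiset.sum_cons, ih, Multiset.filter_cons]
      split_ifs with h
      · simp
        ring
      · simp
  have hstab := Ideal.card_stabilizer_eq_card_inertia_mul_finrank (G := K ≃ₐ[ℚ] K)
    (Ideal.span {(p : ℤ)}) P
  have hmaps : ∀ σ ∈ (Finset.univ : Finset (K ≃ₐ[ℚ] K)), σ • P ∈ T := by
    intro σ _
    refine (hin _ inferInstance ?_).1
    have h1 : σ • ((p : ℕ) : 𝓞 K) = ((p : ℕ) : 𝓞 K) :=
      map_natCast (MulSemiringAction.toRingHom (K ≃ₐ[ℚ] K) (𝓞 K) σ) p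
    rw [← h1]
    exact Ideal.smul_mem_pointwise_smul _ _ _ hpP
  have hfib : ∀ Q ∈ T, ∑ σ ∈ (Finset.univ : Finset (K ≃ₐ[ℚ] K)).filter (fun σ => σ • P = Q),
      vexp (σ • P) A = Nat.card (MulAction.stabilizer (K ≃ₐ[ℚ] K) P) * vexp Q A := by
    intro Q hQ
    have h1 : ∀ σ ∈ (Finset.univ : Finset (K ≃ₐ[ℚ] K)).filter (fun σ => σ • P = Q),
        vexp (σ • P) A = vexp Q A := by
      intro σ hσ
      rw [(Finset.mem_filter.1 hσ).2]
    rw [Finset.sum_congr rfl h1, Finset.sum_const, smul_eq_mul]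
    congr 1
    obtain ⟨hQ1, hQ2⟩ := (hmemT Q).1 hQ
    obtain ⟨τ, hτ⟩ := Ideal.exists_smul_eq_of_isGaloisGroup (Ideal.span {(p : ℤ)}) P Q
      (K ≃ₐ[ℚ] K)
    rw [← Nat.card_eq_finsetCard]
    refine Nat.card_congr ⟨fun σ => ⟨τ⁻¹ * σ.1, ?_⟩, fun σ => ⟨τ * σ.1, ?_⟩, ?_, ?_⟩
    · rw [MulAction.mem_stabilizer_iff, mul_smul, (Finset.mem_filter.1 σ.2).2, ← hτ,
        inv_smul_smul]
    · rw [Finset.mem_filter]
      refine ⟨Finset.mem_univ _, ?_⟩
      rw [mul_smul, MulAction.mem_stabilizer_iff.1 σ.2, hτ]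
    · intro σ
      apply Subtype.ext
      exact mul_inv_cancel_left _ _
    · intro σ
      apply Subtype.ext
      exact inv_mul_cancel_left _ _
  rw [← Finset.sum_fiberwise_of_maps_to hmaps, Finset.sum_congr rfl hfib, ← Finset.mul_sum,
    hfac, hsum, hcard, hstab]
  ring

end

end Pool.Agent.H98.ML
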