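import Pool.Agent.H98.ML.ExpSign
import Pool.Agent.H98.ML.CardConj

/-!
# Project MK2 (MP_a3214d), row ML-E2, part 3: local factors (helper54)
-/

set_option autoImplicit false

open scoped BigOperators

namespace Pool.Agent.H98.ML

open Pool.Agent.H98.MK (psi jp lg eps sg p8 sum_sg)

theorem x2_crep {D : Dt} (g : Ext D) : IsConj g (D.crep g) := by
  refine ConjClasses.mk_eq_mk_iff_isConj.1 ?_
  exact (Quotient.out_eq (ConjClasses.mk g)).symm

theorem x2_crep_congr {D : Dt} {g h : Ext D} (hc : IsConj g h) : D.crep g = D.crep h := by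
  unfold Dt.crep
  rw [ConjClasses.mk_eq_mk_iff_isConj.2 hc]

theorem x2_conj_v {D : Dt} {g h : Ext D} (hc : IsConj g h) : h.v = g.v := by
  obtain ⟨c, rfl⟩ := isConj_iff.1 hc
  simp only [Ext.mul_v, Ext.inv_v]
  have h1 := Ext.two_V c.v
  calc c.v + g.v + c.v = g.v + (c.v + c.v) := by abel
    _ = g.v := by rw [h1, add_zero]

theorem x2_conj_ind {D : Dt} (w : Wt D) {g h : Ext D} (hc : IsConj g h) : w.ind h = w.ind g := by
  obtain ⟨c, rfl⟩ := isConj_iff.1 hc
  exact w.conj c g

theorem x2_conj_one {D : Dt} {g h : Ext D} (hc : IsConj g h) : h = 1 ↔ g = 1 := by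
  obtain ⟨c, rfl⟩ := isConj_iff.1 hc
  constructor
  · intro h1
    have h2 : g = c⁻¹ * (c * g * c⁻¹) * c := by group
    rw [h2, h1]
    group
  · rintro rfl
    group

open Classical in
/-- the representative of a class of least index -/
noncomputable def x2pi {D : Dt} (w : Wt D) (g : Ext D) : Ext D :=
  if g ≠ 1 ∧ w.ind g = w.m then D.crep g else g

theorem x2_pi_conj {D : Dt} (w : Wt D) (g : Ext D) : IsConj g (x2pi w g) := by
  unfold x2pi
  split_ifs
  · exact x2_crep g
  · exact IsConj.refl g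

theorem x2_wt_ge {D : Dt} (w : Wt D) (g : Ext D) : 1 ≤ w.wt g := by
  unfold Wt.wt
  split_ifs with h
  · exact le_rfl
  · have h1 := w.min g h
    have h2 : (0 : ℝ) < w.m := by exact_mod_cast w.pos
    rw [le_div_iff₀ h2, one_mul]
    exact_mod_cast h1

theorem x2_wt_conj {D : Dt} (w : Wt D) {g h : Ext D} (hc : IsConj g h) : w.wt h = w.wt g := by
  unfold Wt.wt
  rw [x2_conj_ind w hc]
  by_cases h1 : g = 1
  · rw [if_pos h1, if_pos ((x2_conj_one hc).2 h1)]
  · rw [if_neg h1, if_neg fun h2 => h1 ((x2_conj_one hc).1 h2)]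

theorem x2_size {D : Dt} (w : Wt D) {κ : Type} [Fintype κ] [DecidableEq κ] (π : κ → Ext D)
    (x : κ → ℕ) :
    ∏ g, (x2psh π x g : ℝ) ^ w.wt g = ∏ k, (x k : ℝ) ^ w.wt (π k) := by
  rw [← Finset.prod_fiberwise Finset.univ π (fun k => (x k : ℝ) ^ w.wt (π k))]
  refine Finset.prod_congr rfl fun g _ => ?_
  unfold x2psh
  rw [Nat.cast_prod, ← Real.finsetProd_rpow _ _ (fun ζ _ => Nat.cast_nonneg _)]
  refine Finset.prod_congr rfl fun k hk => ?_
  rw [(Finset.mem_filter.1 hk).2]

theorem x2_box {D : Dt} (w : Wt D) (Y : ℝ) (m : Ext D → ℕ) (hsq : Squarefree (∏ g, m g))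
    (hY : ∏ g, (m g : ℝ) ^ w.wt g ≤ Y) (g : Ext D) : m g ≤ ⌊Y⌋₊ := by
  have h0 : ∀ u, 1 ≤ m u := fun u => Nat.pos_of_ne_zero (x2_sqf hsq u).ne_zero
  have hm : ∀ u, (1 : ℝ) ≤ m u := fun u => by exact_mod_cast h0 u
  refine Nat.le_floor ?_
  have h1 : m g ≤ ∏ u, m u :=
    Nat.le_of_dvd (Finset.prod_pos fun u _ => h0 u) (Finset.dvd_prod_of_mem _ (Finset.mem_univ g))
  have h2 : (m g : ℝ) ≤ ∏ u, (m u : ℝ) := by exact_mod_cast h1
  have h3 : ∏ u, (m u : ℝ) ≤ ∏ u, (m u : ℝ) ^ w.wt u :=
    Finset.prod_le_prod (fun u _ => Nat.cast_nonneg _) fun u _ =>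
      Real.self_le_rpow_of_one_le (hm u) (x2_wt_ge w u)
  exact h2.trans (h3.trans hY)

theorem x2_mV_pi {D : Dt} (w : Wt D) (m : Ext D → ℕ) : D.mV (x2psh (x2pi w) m) = D.mV m := by
  funext v
  by_cases hv : v = 0
  · simp [Dt.mV, hv]
  · rw [x2_mV _ _ _ hv]
    unfold Dt.mV
    rw [if_neg hv, x2_fib_v]
    refine Finset.prod_congr ?_ fun _ _ => rfl
    refine Finset.filter_congr fun k _ => ?_
    rw [x2_conj_v (x2_pi_conj w k)]

theorem x2_q {D : Dt} (w : Wt D) (g : Ext D) (h : w.ind g = w.m) : D.q g.v = 0 := by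
  by_contra hc
  have h1 : g * g ≠ 1 := by
    intro h1
    have h2 : (g * g).z = 0 := by rw [h1]; rfl
    rw [Ext.mul_z, Ext.two_Z, zero_add] at h2
    exact hc h2
  have h3 := w.sqr g h1
  omega

theorem x2_fib {D : Dt} (F : D.P → ℝ) (g : Ext D) :
    ∑ k ∈ Finset.univ.filter (fun k : D.P => k.1 = g), F k = ∑ ζ : D.Z, F (g, ζ) := by
  refine Finset.sum_bij' (fun k _ => k.2) (fun ζ _ => (g, ζ)) ?_ ?_ ?_ ?_ ?_
  · intro k _
    exact Finset.mem_univ _
  · intro ζ _
    exact Finset.mem_filter.2 ⟨Finset.mem_univ _, rfl⟩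
  · intro k hk
    have h1 := (Finset.mem_filter.1 hk).2
    exact Prod.ext h1.symm rfl
  · intro ζ _
    rfl
  · intro k hk
    have h1 := (Finset.mem_filter.1 hk).2
    rw [← h1]

open Classical in
/-- local factors of the parameters -/
noncomputable def x2f1 (D : Dt) (a b : D.V) (M : D.V → ℕ) (g : Ext D) (p : ℕ) : ℝ :=
  if g = 1 then 0 else if D.okp a b M g.v p then 1 else 0

open Classical in
/-- local factors of the expanded variables -/
noncomputable def x2f2 {D : Dt} (w : Wt D) (a b : D.V) (M : D.V → ℕ) (i : D.P) (p : ℕ) : ℝ :=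
  if i ∈ w.act then (if w.ind i.1 = w.m then 1 else 1 / 2 ^ D.s) *
    (sg (i.2 ⬝ᵥ x2X D a b M i.1.v p) : ℝ) else 0

theorem x2_mem_act {D : Dt} (w : Wt D) (i : D.P) :
    i ∈ w.act ↔ i.1 ≠ 1 ∧ (w.ind i.1 = w.m → D.crep i.1 = i.1 ∧ D.zrep i.1.v i.2 = i.2) := by
  unfold Wt.act
  rw [Finset.mem_filter]
  simp only [Finset.mem_univ, true_and]

theorem x2_local {D : Dt} (w : Wt D) (a b : D.V) (M : D.V → ℕ) (g : Ext D) (p : ℕ) :
    ∑ k ∈ Finset.univ.filter (fun k : Ext D => x2pi w k = g), x2f1 D a b M k p =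
      ∑ k ∈ Finset.univ.filter (fun k : D.P => k.1 = g), x2f2 w a b M k p := by
  classical
  rw [x2_fib]
  by_cases hg : g = 1
  · subst hg
    rw [Finset.sum_eq_zero, Finset.sum_eq_zero]
    · intro ζ _
      unfold x2f2
      rw [if_neg]
      rw [x2_mem_act]
      exact fun h => h.1 rfl
    · intro k hk
      have h1 := (Finset.mem_filter.1 hk).2
      have h2 := x2_pi_conj w k
      rw [h1] at h2
      unfold x2f1
      rw [if_pos ((x2_conj_one h2).1 rfl)]
  · by_cases hi : w.ind g = w.m
    · by_cases hr : D.crep g = g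
      · obtain ⟨u, hu⟩ := x2_X_iso D a b M g.v p (x2_q w g hi)
        have hL : ∑ k ∈ Finset.univ.filter (fun k : Ext D => x2pi w k = g), x2f1 D a b M k p =
            (Nat.card {h : Ext D // IsConj g h} : ℝ) *
              (if x2X D a b M g.v p = 0 then 1 else 0) := by
          have h1 : Finset.univ.filter (fun k : Ext D => x2pi w k = g) =
              Finset.univ.filter (fun k : Ext D => IsConj g k) := by
            refine Finset.filter_congr fun k _ => ?_
            constructor
            · intro h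
              have h2 := x2_pi_conj w k
              rw [h] at h2
              exact h2.symm
            · intro h
              have h2 : k ≠ 1 ∧ w.ind k = w.m :=
                ⟨fun h3 => hg ((x2_conj_one h).1 h3), by rw [x2_conj_ind w h]; exact hi⟩
              unfold x2pi
              rw [if_pos h2, ← x2_crep_congr h, hr]
          rw [h1]
          have h2 : ∀ k ∈ Finset.univ.filter (fun k : Ext D => IsConj g k),
              x2f1 D a b M k p = if x2X D a b M g.v p = 0 then 1 else 0 := by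
            intro k hk
            have h3 := (Finset.mem_filter.1 hk).2
            unfold x2f1
            rw [if_neg fun h4 => hg ((x2_conj_one h3).1 h4), x2_conj_v h3]
            by_cases h5 : x2X D a b M g.v p = 0
            · rw [if_pos h5, if_pos ((x2_okp D a b M g.v p).2 h5)]
            · rw [if_neg h5, if_neg fun h6 => h5 ((x2_okp D a b M g.v p).1 h6)]
          rw [Finset.sum_congr rfl h2, Finset.sum_const, nsmul_eq_mul]
          congr 1
          rw [Nat.card_eq_fintype_card, Fintype.card_subtype]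
        have hR : ∑ ζ : D.Z, x2f2 w a b M (g, ζ) p =
            (Nat.card {ζ : D.Z // D.zrep g.v ζ = ζ} : ℝ) *
              (if x2X D a b M g.v p = 0 then 1 else 0) := by
          have h1 : ∀ ζ : D.Z, x2f2 w a b M (g, ζ) p =
              if D.zrep g.v ζ = ζ then (sg (ζ ⬝ᵥ D.B g.v u) : ℝ) else 0 := by
            intro ζ
            unfold x2f2
            by_cases h2 : D.zrep g.v ζ = ζ
            · rw [if_pos h2, if_pos ((x2_mem_act w (g, ζ)).2 ⟨hg, fun _ => ⟨hr, h2⟩⟩)]
              show (if w.ind g = w.m then (1 : ℝ) else 1 / 2 ^ D.s) *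
                (sg (ζ ⬝ᵥ x2X D a b M g.v p) : ℝ) = _
              rw [if_pos hi, one_mul, hu]
            · rw [if_neg h2, if_neg fun h3 => h2 (((x2_mem_act w (g, ζ)).1 h3).2 hi).2]
          rw [Finset.sum_congr rfl fun ζ _ => h1 ζ, ← Finset.sum_filter]
          have h3 := sum_zrep D g.v u
          have h4 : ∑ ζ ∈ Finset.univ.filter (fun ζ : D.Z => D.zrep g.v ζ = ζ),
              (sg (ζ ⬝ᵥ D.B g.v u) : ℝ) = ((∑ ζ ∈ Finset.univ.filter
                (fun ζ : D.Z => D.zrep g.v ζ = ζ), sg (ζ ⬝ᵥ D.B g.v u) : ℤ) : ℝ) := by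
            push_cast
            rfl
          rw [h4, h3, hu]
          by_cases h5 : D.B g.v u = 0
          · rw [if_pos h5, if_pos h5, mul_one]
            push_cast
            rfl
          · rw [if_neg h5, if_neg h5, mul_zero]
            simp
        rw [hL, hR, card_conj]
      · rw [Finset.sum_eq_zero, Finset.sum_eq_zero]
        · intro ζ _
          unfold x2f2
          rw [if_neg]
          rw [x2_mem_act]
          exact fun h => hr (h.2 hi).1
        · intro k hk
          exfalso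
          have h1 := (Finset.mem_filter.1 hk).2
          have h2 := x2_pi_conj w k
          rw [h1] at h2
          have h3 : k ≠ 1 ∧ w.ind k = w.m :=
            ⟨fun h3 => hg ((x2_conj_one h2).2 h3), by rw [← x2_conj_ind w h2]; exact hi⟩
          unfold x2pi at h1
          rw [if_pos h3] at h1
          have h4 := x2_crep_congr h2
          rw [h1] at h4
          exact hr h4.symm
    · have h1 : Finset.univ.filter (fun k : Ext D => x2pi w k = g) = {g} := by
        ext k
        rw [Finset.mem_filter, Finset.mem_singleton]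
        constructor
        · rintro ⟨-, h⟩
          have h2 := x2_pi_conj w k
          rw [h] at h2
          have h3 : ¬ (k ≠ 1 ∧ w.ind k = w.m) := fun h3 => hi (by
            rw [x2_conj_ind w h2]; exact h3.2)
          unfold x2pi at h
          rw [if_neg h3] at h
          exact h
        · rintro rfl
          refine ⟨Finset.mem_univ _, ?_⟩
          unfold x2pi
          rw [if_neg fun h => hi h.2]
      rw [h1, Finset.sum_singleton]
      have h2 : ∀ ζ : D.Z, x2f2 w a b M (g, ζ) p =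
          1 / 2 ^ D.s * (sg (ζ ⬝ᵥ x2X D a b M g.v p) : ℝ) := by
        intro ζ
        unfold x2f2
        rw [if_pos ((x2_mem_act w (g, ζ)).2 ⟨hg, fun h => absurd h hi⟩)]
        show (if w.ind g = w.m then (1 : ℝ) else 1 / 2 ^ D.s) * _ = _
        rw [if_neg hi]
      rw [Finset.sum_congr rfl fun ζ _ => h2 ζ, ← Finset.mul_sum]
      have h3 := sum_sg (x2X D a b M g.v p)
      have h4 : ∑ ζ : D.Z, (sg (ζ ⬝ᵥ x2X D a b M g.v p) : ℝ) =
          ((∑ ζ : D.Z, sg (ζ ⬝ᵥ x2X D a b M g.v p) : ℤ) : ℝ) := by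
        push_cast
        rfl
      rw [h4, h3]
      unfold x2f1
      rw [if_neg hg]
      by_cases h5 : x2X D a b M g.v p = 0
      · rw [if_pos h5, if_pos ((x2_okp D a b M g.v p).2 h5)]
        push_cast
        rw [one_div, inv_mul_cancel₀]
        positivity
      · rw [if_neg h5, if_neg fun h6 => h5 ((x2_okp D a b M g.v p).1 h6)]
        simp

end Pool.Agent.H98.ML
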