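import Mathlib

/-!
# Project MK2 (MP_a3214d): a lower bound for sums of multiplicative weights, first part

Finite Euler products and partial summation over blocks.
-/

set_option autoImplicit false

open scoped BigOperators
open Finset Filter

namespace Pool.Agent.H98.ML

/-- the multiplicative weight on squarefree integers coprime to `N` -/
noncomputable def paF (N : ℕ) (g : ℕ → ℝ) (n : ℕ) : ℝ :=
  if Squarefree n ∧ n.Coprime N then ∏ p ∈ n.primeFactors, g p else 0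

/-- the sum of the weights -/
noncomputable def paS (N : ℕ) (g : ℕ → ℝ) (Y : ℝ) : ℝ :=
  ∑ n ∈ (Icc 1 ⌊Y⌋₊).filter (fun n => Squarefree n ∧ n.Coprime N), ∏ p ∈ n.primeFactors, g p

theorem paS_eq (N : ℕ) (g : ℕ → ℝ) (Y : ℝ) : paS N g Y = ∑ n ∈ Icc 1 ⌊Y⌋₊, paF N g n := by
  unfold paS paF
  rw [sum_filter]

theorem paF_nonneg {N : ℕ} {g : ℕ → ℝ} (hg : ∀ n, 0 ≤ g n) (n : ℕ) : 0 ≤ paF N g n := by
  unfold paF
  split_ifs
  · exact prod_nonneg fun p _ => hg p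
  · exact le_rfl

theorem pa_sqf {t : Finset ℕ} (ht : ∀ p ∈ t, p.Prime) : Squarefree (∏ p ∈ t, p) := by
  refine Finset.squarefree_prod_of_pairwise_isCoprime (fun p hp q hq hpq => ?_)
    (fun p hp => (ht p hp).prime.squarefree)
  exact Nat.coprime_iff_isRelPrime.1 ((Nat.coprime_primes (ht p hp) (ht q hq)).2 hpq)

theorem pa_prod_le {N : ℕ} {g : ℕ → ℝ} (hg : ∀ n, 0 ≤ g n) (P : Finset ℕ)
    (hP : ∀ p ∈ P, p.Prime ∧ p.Coprime N) (s : ℝ) :
    ∏ p ∈ P, (1 + g p * (p : ℝ) ^ (-s)) ≤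
      ∑ n ∈ Icc 1 (∏ p ∈ P, p), paF N g n * (n : ℝ) ^ (-s) := by
  rw [prod_one_add]
  have h1 : ∀ t ∈ P.powerset, ∏ p ∈ t, (g p * (p : ℝ) ^ (-s)) =
      paF N g (∏ p ∈ t, p) * ((∏ p ∈ t, p : ℕ) : ℝ) ^ (-s) := by
    intro t ht
    have ht' := mem_powerset.1 ht
    have h2 : ∀ p ∈ t, p.Prime := fun p hp => (hP p (ht' hp)).1
    unfold paF
    rw [if_pos ⟨pa_sqf h2, Nat.Coprime.prod_left fun p hp => (hP p (ht' hp)).2⟩,
      Nat.primeFactors_prod h2, prod_mul_distrib, Nat.cast_prod,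
      Real.finsetProd_rpow _ _ (fun p _ => Nat.cast_nonneg p)]
  rw [sum_congr rfl h1]
  have h3 : Set.InjOn (fun t : Finset ℕ => ∏ p ∈ t, p) (P.powerset : Set (Finset ℕ)) := by
    intro t ht t' ht' h
    have e1 : (∏ p ∈ t, p).primeFactors = t :=
      Nat.primeFactors_prod fun p hp => (hP p (mem_powerset.1 (mem_coe.1 ht) hp)).1
    have e2 : (∏ p ∈ t', p).primeFactors = t' :=
      Nat.primeFactors_prod fun p hp => (hP p (mem_powerset.1 (mem_coe.1 ht') hp)).1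
    have h' : ∏ p ∈ t, p = ∏ p ∈ t', p := h
    rw [← e1, ← e2, h']
  rw [← sum_image (f := fun n : ℕ => paF N g n * (n : ℝ) ^ (-s)) h3]
  refine sum_le_sum_of_subset_of_nonneg ?_ fun n _ _ =>
    mul_nonneg (paF_nonneg hg n) (Real.rpow_nonneg (Nat.cast_nonneg n) _)
  intro n hn
  obtain ⟨t, ht, rfl⟩ := mem_image.1 hn
  have ht' := mem_powerset.1 ht
  rw [mem_Icc]
  constructor
  · exact Nat.one_le_iff_ne_zero.2 (prod_ne_zero_iff.2 fun p hp => (hP p (ht' hp)).1.ne_zero)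
  · exact Nat.le_of_dvd (Nat.pos_of_ne_zero
      (prod_ne_zero_iff.2 fun p hp => (hP p hp).1.ne_zero)) (prod_dvd_prod_of_subset _ _ _ ht')

theorem pa_exp_le {x : ℝ} (hx : 0 ≤ x) : Real.exp (x - x ^ 2 / 2) ≤ 1 + x := by
  have h1 := Real.le_log_one_add_of_nonneg hx
  have h2 : x - x ^ 2 / 2 ≤ 2 * x / (x + 2) := by
    rw [le_div_iff₀ (by linarith)]
    nlinarith [pow_nonneg hx 3]
  calc Real.exp (x - x ^ 2 / 2) ≤ Real.exp (Real.log (1 + x)) := Real.exp_le_exp.2 (h2.trans h1)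
    _ = 1 + x := Real.exp_log (by linarith)

/-- lower bound for a finite Euler product -/
theorem pa_exp_prod {P : Finset ℕ} {x : ℕ → ℝ} (hx : ∀ p ∈ P, 0 ≤ x p) :
    Real.exp (∑ p ∈ P, x p - (∑ p ∈ P, x p ^ 2) / 2) ≤ ∏ p ∈ P, (1 + x p) := by
  rw [sum_div, ← sum_sub_distrib, Real.exp_sum]
  exact prod_le_prod (fun p _ => (Real.exp_pos _).le) fun p hp => pa_exp_le (hx p hp)

theorem pa_geom (b : ℕ) {t : ℝ} (h0 : 0 < t) (h1 : t ≤ 1) (A : Finset ℕ) :
    ∑ k ∈ A, ((k : ℝ) + 1) ^ b * Real.exp (-t) ^ k ≤ b.factorial * 2 ^ (b + 1) / t ^ (b + 1) := by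
  have hr0 : 0 < Real.exp (-t) := Real.exp_pos _
  have hr1 : Real.exp (-t) < 1 := by
    rw [← Real.exp_zero]
    exact Real.exp_lt_exp.2 (by linarith)
  have hn : ‖Real.exp (-t)‖ < 1 := by rwa [Real.norm_of_nonneg hr0.le]
  have hs := hasSum_choose_mul_geometric_of_norm_lt_one b hn
  have h2 : ∑ k ∈ A, ((k : ℝ) + 1) ^ b * Real.exp (-t) ^ k ≤
      b.factorial * ∑ k ∈ A, (((k + b).choose b : ℕ) : ℝ) * Real.exp (-t) ^ k := by
    rw [mul_sum]
    refine sum_le_sum fun k _ => ?_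
    rw [← mul_assoc]
    refine mul_le_mul_of_nonneg_right ?_ (pow_nonneg hr0.le k)
    have h3 : (k + 1) ^ b ≤ b.factorial * (k + b).choose b := by
      rw [← Nat.ascFactorial_eq_factorial_mul_choose]
      exact Nat.pow_succ_le_ascFactorial (k + 1) b
    exact_mod_cast h3
  have h4 : ∑ k ∈ A, (((k + b).choose b : ℕ) : ℝ) * Real.exp (-t) ^ k ≤
      1 / (1 - Real.exp (-t)) ^ (b + 1) := by
    rw [← hs.tsum_eq]
    exact hs.summable.sum_le_tsum A fun k _ =>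
      mul_nonneg (Nat.cast_nonneg _) (pow_nonneg hr0.le k)
  have h5 : t / 2 ≤ 1 - Real.exp (-t) := by
    have h6 : Real.exp (-t) ≤ 1 / (1 + t) := by
      rw [Real.exp_neg, ← one_div]
      exact one_div_le_one_div_of_le (by linarith) (by linarith [Real.add_one_le_exp t])
    have h7 : 1 / (1 + t) ≤ 1 - t / 2 := by
      rw [div_le_iff₀ (by linarith)]
      nlinarith
    linarith
  have h8 : 1 / (1 - Real.exp (-t)) ^ (b + 1) ≤ 2 ^ (b + 1) / t ^ (b + 1) := by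
    have h9 : (t / 2) ^ (b + 1) ≤ (1 - Real.exp (-t)) ^ (b + 1) :=
      pow_le_pow_left₀ (by linarith) h5 _
    have h10 : 0 < (t / 2) ^ (b + 1) := by positivity
    calc 1 / (1 - Real.exp (-t)) ^ (b + 1) ≤ 1 / (t / 2) ^ (b + 1) :=
          one_div_le_one_div_of_le h10 h9
      _ = 2 ^ (b + 1) / t ^ (b + 1) := by
          rw [div_pow]
          field_simp
  have hb : (0 : ℝ) ≤ b.factorial := Nat.cast_nonneg _
  calc _ ≤ _ := h2
    _ ≤ b.factorial * (2 ^ (b + 1) / t ^ (b + 1)) :=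
        mul_le_mul_of_nonneg_left (h4.trans h8) hb
    _ = _ := by ring

/-- partial summation over blocks -/
theorem pa_upper {f : ℕ → ℝ} (hf : ∀ n, 0 ≤ f n) (b : ℕ) {c : ℝ} (hc : 0 ≤ c) (k0 : ℕ)
    (hk : ∀ k : ℕ, k0 ≤ k →
      ∑ n ∈ Icc 1 ⌊Real.exp ((k : ℝ) + 1)⌋₊, f n ≤ c * (Real.exp ((k : ℝ) + 1) * ((k : ℝ) + 1) ^ b))
    {s : ℝ} (hs : 1 < s) (hs2 : s ≤ 2) (M : ℕ) :
    ∑ n ∈ Icc 1 M, f n * (n : ℝ) ^ (-s) ≤
      ∑ n ∈ Icc 1 ⌊Real.exp (k0 : ℝ)⌋₊, f n +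
        c * (Real.exp 1 * (b.factorial * 2 ^ (b + 1) / (s - 1) ^ (b + 1))) := by
  have hterm : ∀ n : ℕ, 0 ≤ f n * (n : ℝ) ^ (-s) := fun n =>
    mul_nonneg (hf n) (Real.rpow_nonneg (Nat.cast_nonneg n) _)
  have key : ∀ K : ℕ, k0 ≤ K →
      ∑ n ∈ Icc 1 ⌊Real.exp (K : ℝ)⌋₊, f n * (n : ℝ) ^ (-s) ≤
        ∑ n ∈ Icc 1 ⌊Real.exp (k0 : ℝ)⌋₊, f n +
          c * (Real.exp 1 * ∑ k ∈ Ico k0 K, ((k : ℝ) + 1) ^ b * Real.exp (-(s - 1)) ^ k) := by
    intro K hK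
    induction K, hK using Nat.le_induction with
    | base =>
      rw [Ico_self, sum_empty, mul_zero, mul_zero, add_zero]
      refine sum_le_sum fun n hn => ?_
      have hn1 : (1 : ℝ) ≤ n := by exact_mod_cast (mem_Icc.1 hn).1
      calc f n * (n : ℝ) ^ (-s) ≤ f n * 1 :=
            mul_le_mul_of_nonneg_left (Real.rpow_le_one_of_one_le_of_nonpos hn1 (by linarith)) (hf n)
        _ = f n := mul_one _
    | succ K hK ih =>
      have hle : ⌊Real.exp (K : ℝ)⌋₊ ≤ ⌊Real.exp ((K + 1 : ℕ) : ℝ)⌋₊ := by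
        refine Nat.floor_le_floor (Real.exp_le_exp.2 ?_)
        push_cast
        linarith
      have hsplit : ∑ n ∈ Icc 1 ⌊Real.exp ((K + 1 : ℕ) : ℝ)⌋₊, f n * (n : ℝ) ^ (-s) =
          ∑ n ∈ Icc 1 ⌊Real.exp (K : ℝ)⌋₊, f n * (n : ℝ) ^ (-s) +
            ∑ n ∈ Ioc ⌊Real.exp (K : ℝ)⌋₊ ⌊Real.exp ((K + 1 : ℕ) : ℝ)⌋₊, f n * (n : ℝ) ^ (-s) := by
        rw [← sum_union]
        · congr 1
          ext n
          simp only [mem_union, mem_Icc, mem_Ioc]
          omega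
        · rw [disjoint_left]
          intro n h1 h2
          have := (mem_Icc.1 h1).2
          have := (mem_Ioc.1 h2).1
          omega
      have hblock : ∑ n ∈ Ioc ⌊Real.exp (K : ℝ)⌋₊ ⌊Real.exp ((K + 1 : ℕ) : ℝ)⌋₊,
          f n * (n : ℝ) ^ (-s) ≤
          c * (Real.exp 1 * (((K : ℝ) + 1) ^ b * Real.exp (-(s - 1)) ^ K)) := by
        have h1 : ∑ n ∈ Ioc ⌊Real.exp (K : ℝ)⌋₊ ⌊Real.exp ((K + 1 : ℕ) : ℝ)⌋₊,
            f n * (n : ℝ) ^ (-s) ≤
            ∑ n ∈ Ioc ⌊Real.exp (K : ℝ)⌋₊ ⌊Real.exp ((K + 1 : ℕ) : ℝ)⌋₊,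
              Real.exp (-(K * s)) * f n := by
          refine sum_le_sum fun n hn => ?_
          have hn1 : Real.exp (K : ℝ) ≤ n := (Nat.lt_of_floor_lt (mem_Ioc.1 hn).1).le
          have hn2 : (n : ℝ) ^ (-s) ≤ Real.exp (-(K * s)) := by
            calc (n : ℝ) ^ (-s) ≤ (Real.exp (K : ℝ)) ^ (-s) :=
                  Real.rpow_le_rpow_of_nonpos (Real.exp_pos _) hn1 (by linarith)
              _ = Real.exp (-(K * s)) := by
                  rw [← Real.exp_mul]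
                  congr 1
                  ring
          rw [mul_comm]
          exact mul_le_mul_of_nonneg_right hn2 (hf n)
        have h2 : ∑ n ∈ Ioc ⌊Real.exp (K : ℝ)⌋₊ ⌊Real.exp ((K + 1 : ℕ) : ℝ)⌋₊, f n ≤
            c * (Real.exp ((K : ℝ) + 1) * ((K : ℝ) + 1) ^ b) := by
          refine le_trans (sum_le_sum_of_subset_of_nonneg ?_ fun n _ _ => hf n) (hk K hK)
          intro n hn
          rw [mem_Ioc] at hn
          rw [mem_Icc]
          push_cast at hn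
          exact ⟨by omega, hn.2⟩
        calc _ ≤ _ := h1
          _ = Real.exp (-(K * s)) *
              ∑ n ∈ Ioc ⌊Real.exp (K : ℝ)⌋₊ ⌊Real.exp ((K + 1 : ℕ) : ℝ)⌋₊, f n := by
              rw [mul_sum]
          _ ≤ Real.exp (-(K * s)) * (c * (Real.exp ((K : ℝ) + 1) * ((K : ℝ) + 1) ^ b)) :=
              mul_le_mul_of_nonneg_left h2 (Real.exp_pos _).le
          _ = c * (Real.exp 1 * (((K : ℝ) + 1) ^ b * Real.exp (-(s - 1)) ^ K)) := by
              have e1 : Real.exp (-(K * s)) * Real.exp ((K : ℝ) + 1) =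
                  Real.exp 1 * Real.exp (-(s - 1)) ^ K := by
                rw [← Real.exp_nat_mul, ← Real.exp_add, ← Real.exp_add]
                congr 1
                ring
              calc _ = c * ((Real.exp (-(K * s)) * Real.exp ((K : ℝ) + 1)) * ((K : ℝ) + 1) ^ b) := by
                    ring
                _ = _ := by rw [e1]; ring
      rw [hsplit, sum_Ico_succ_top hK]
      have := add_le_add ih hblock
      refine this.trans (le_of_eq ?_)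
      ring
  have hMK : M ≤ ⌊Real.exp ((max M k0 : ℕ) : ℝ)⌋₊ := by
    rw [Nat.le_floor_iff (Real.exp_pos _).le]
    have h1 := Real.add_one_le_exp ((max M k0 : ℕ) : ℝ)
    have h2 : (M : ℝ) ≤ ((max M k0 : ℕ) : ℝ) := by exact_mod_cast le_max_left M k0
    linarith
  calc ∑ n ∈ Icc 1 M, f n * (n : ℝ) ^ (-s)
      ≤ ∑ n ∈ Icc 1 ⌊Real.exp ((max M k0 : ℕ) : ℝ)⌋₊, f n * (n : ℝ) ^ (-s) :=
        sum_le_sum_of_subset_of_nonneg (Icc_subset_Icc_right hMK) fun n _ _ => hterm n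
    _ ≤ _ := key _ (le_max_right M k0)
    _ ≤ _ := by
        have h3 := pa_geom b (t := s - 1) (by linarith) (by linarith) (Ico k0 (max M k0))
        have h4 := mul_le_mul_of_nonneg_left
          (mul_le_mul_of_nonneg_left h3 (Real.exp_pos 1).le) hc
        linarith

end Pool.Agent.H98.ML
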