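import Pool.Agent.H98.ML.FDefs

/-!
# Project MK2 (MP_a3214d), row S2: index functions
-/

set_option autoImplicit false

namespace Pool.Agent.H98.ML

private theorem s2_card_lt {α β : Type} [Finite α] (f : α → β) (hs : Function.Surjective f)
    (hn : ¬ Function.Injective f) : Nat.card β < Nat.card α := by
  have h1 : Nat.card β ≤ Nat.card α := Nat.card_le_card_of_surjective f hs
  refine lt_of_le_of_ne h1 fun h => hn ?_
  exact ((Nat.bijective_iff_surjective_and_card f).2 ⟨hs, h.symm⟩).1

/-- orbits of the powers -/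
private theorem s2_mem {G : Type} [Group G] {H : Subgroup G} (g : G) (x y : G ⧸ H) :
    (MulAction.orbitRel (Subgroup.zpowers g) (G ⧸ H)) x y ↔ ∃ k : ℤ, g ^ k • y = x := by
  rw [MulAction.orbitRel_apply, MulAction.mem_orbit_iff]
  constructor
  · rintro ⟨⟨a, k, rfl⟩, h⟩
    exact ⟨k, h⟩
  · rintro ⟨k, h⟩
    exact ⟨⟨g ^ k, k, rfl⟩, h⟩

private theorem s2_norb_le {G : Type} [Group G] [Finite G] (H : Subgroup G) (g : G) :
    norb H g ≤ H.index := by
  unfold norb
  exact Nat.card_le_card_of_surjective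
    (Quotient.mk (MulAction.orbitRel (Subgroup.zpowers g) (G ⧸ H))) Quotient.mk_surjective

private theorem s2_moves {G : Type} [Group G] (H : Subgroup G) (hc : H.normalCore = ⊥) (g : G)
    (h : g ≠ 1) : ∃ x : G ⧸ H, g • x ≠ x := by
  by_contra hcon
  simp only [not_exists, ne_eq, not_not] at hcon
  apply h
  have h1 : g ∈ H.normalCore := by
    rw [Subgroup.normalCore_eq_ker, MonoidHom.mem_ker]
    apply Equiv.ext
    intro x
    exact hcon x
  rw [hc] at h1
  exact Subgroup.mem_bot.1 h1

theorem hind_pos {G : Type} [Group G] [Finite G] (H0 : Subgroup G) (hc : H0.normalCore = ⊥)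
    (g : G) (h : g ≠ 1) : 0 < hind H0 g := by
  obtain ⟨x, hx⟩ := s2_moves H0 hc g h
  have h1 : norb H0 g < H0.index := by
    unfold norb
    refine s2_card_lt (Quotient.mk (MulAction.orbitRel (Subgroup.zpowers g) (G ⧸ H0)))
      Quotient.mk_surjective fun hi => hx ?_
    refine hi (Quotient.sound ?_)
    change (MulAction.orbitRel (Subgroup.zpowers g) (G ⧸ H0)) (g • x) x
    rw [s2_mem]
    exact ⟨1, by rw [zpow_one]⟩
  unfold hind
  omega

theorem hind_conj {G : Type} [Group G] [Finite G] (H0 : Subgroup G) (x g : G) :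
    hind H0 (x * g * x⁻¹) = hind H0 g := by
  unfold hind norb
  congr 1
  refine Nat.card_congr (Quotient.congr (MulAction.toPerm x : Equiv.Perm (G ⧸ H0)) ?_).symm
  intro a b
  change (MulAction.orbitRel (Subgroup.zpowers g) (G ⧸ H0)) a b ↔
    (MulAction.orbitRel (Subgroup.zpowers (x * g * x⁻¹)) (G ⧸ H0)) (x • a) (x • b)
  rw [s2_mem, s2_mem]
  refine exists_congr fun k => ?_
  rw [conj_zpow, ← mul_smul, inv_mul_cancel_right, mul_smul]
  exact (smul_left_cancel_iff x).symm

theorem hind_lt {D : Dt} (H0 : Subgroup (Ext D)) (hc : H0.normalCore = ⊥) (g : Ext D)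
    (h : g * g ≠ 1) : hind H0 (g * g) < hind H0 g := by
  have hg : g ≠ 1 := by
    rintro rfl
    exact h (one_mul 1)
  have h4 : g * g * (g * g) = 1 := by
    apply Ext.ext
    · simp only [Ext.mul_v, Ext.one_v, Ext.two_V, add_zero]
    · simp only [Ext.mul_z, Ext.mul_v, Ext.one_z, Ext.two_V, Ext.two_Z, map_zero, add_zero]
  obtain ⟨x, hx⟩ := s2_moves H0 hc g hg
  have h1 : norb H0 g < norb H0 (g * g) := by
    have hle : ∀ a b : Ext D ⧸ H0,
        (MulAction.orbitRel (Subgroup.zpowers (g * g)) (Ext D ⧸ H0)) a b →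
        (MulAction.orbitRel (Subgroup.zpowers g) (Ext D ⧸ H0)) a b := by
      intro a b hab
      rw [s2_mem] at hab ⊢
      obtain ⟨k, hk⟩ := hab
      refine ⟨2 * k, ?_⟩
      rw [zpow_mul, zpow_two]
      exact hk
    unfold norb
    refine s2_card_lt (Quotient.map' (s₁ := MulAction.orbitRel (Subgroup.zpowers (g * g)) _)
      (s₂ := MulAction.orbitRel (Subgroup.zpowers g) _) id hle) ?_ fun hi => ?_
    · intro q
      induction q using Quotient.inductionOn' with
      | h a => exact ⟨Quotient.mk'' a, rfl⟩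
    · have h5 : (Quotient.mk'' (g • x) :
          MulAction.orbitRel.Quotient (Subgroup.zpowers (g * g)) (Ext D ⧸ H0)) =
          Quotient.mk'' x := by
        apply hi
        rw [Quotient.map'_mk'', Quotient.map'_mk'']
        refine Quotient.sound ?_
        change (MulAction.orbitRel (Subgroup.zpowers g) (Ext D ⧸ H0)) (g • x) x
        rw [s2_mem]
        exact ⟨1, by rw [zpow_one]⟩
      have h6 := Quotient.exact h5
      change (MulAction.orbitRel (Subgroup.zpowers (g * g)) (Ext D ⧸ H0)) (g • x) x at h6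
      rw [s2_mem] at h6
      obtain ⟨k, hk⟩ := h6
      -- the powers of the square are `1` and the square
      have h7 : (g * g) ^ k = 1 ∨ (g * g) ^ k = g * g := by
        rcases Int.even_or_odd' k with ⟨l, rfl | rfl⟩
        · left
          rw [zpow_mul, zpow_two, h4, one_zpow]
        · right
          rw [zpow_add, zpow_mul, zpow_two, h4, one_zpow, one_mul, zpow_one]
      rcases h7 with h7 | h7
      · rw [h7, one_smul] at hk
        exact hx hk.symm
      · rw [h7, mul_smul] at hk
        exact hx (smul_left_cancel g hk)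
  have h2 := s2_norb_le H0 (g * g)
  unfold hind
  omega

theorem exists_wt (D : Dt) [Nontrivial (Ext D)] (H0 : Subgroup (Ext D))
    (hc : H0.normalCore = ⊥) : ∃ w : Wt D, w.ind = hind H0 := by
  classical
  obtain ⟨g1, hg1⟩ := exists_ne (1 : Ext D)
  obtain ⟨g0, hg0, hmin⟩ := Finset.exists_min_image
    (Finset.univ.filter fun g : Ext D => g ≠ 1) (hind H0)
    ⟨g1, Finset.mem_filter.2 ⟨Finset.mem_univ _, hg1⟩⟩
  have h0 : g0 ≠ 1 := (Finset.mem_filter.1 hg0).2
  have hm : ∀ g, g ≠ 1 → hind H0 g0 ≤ hind H0 g := fun g hg =>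
    hmin g (Finset.mem_filter.2 ⟨Finset.mem_univ _, hg⟩)
  exact ⟨{ ind := hind H0
           m := hind H0 g0
           conj := fun x g => hind_conj H0 x g
           pos := hind_pos H0 hc g0 h0
           min := hm
           att := ⟨g0, h0, rfl⟩
           sqr := fun g hg => (hm _ hg).trans_lt (hind_lt H0 hc g hg) }, rfl⟩

end Pool.Agent.H98.ML
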