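import Pool.Agent.H98.ML.FDefs

/-!
# Project MK2: the index of a permutation
-/

set_option autoImplicit false

open scoped BigOperators

namespace Pool.Agent.H98.ML

/-- a cycle or a fixed point -/
private noncomputable def hpF {α : Type} [Fintype α] [DecidableEq α] (σ : Equiv.Perm α) (x : α) :
    {c : Equiv.Perm α // c ∈ σ.cycleFactorsFinset} ⊕ {x : α // x ∉ σ.support} :=
  if h : x ∈ σ.support then
    Sum.inl ⟨σ.cycleOf x, Equiv.Perm.cycleOf_mem_cycleFactorsFinset_iff.mpr h⟩
  else Sum.inr ⟨x, h⟩

private theorem hpF_eq_iff {α : Type} [Fintype α] [DecidableEq α] (σ : Equiv.Perm α) (x y : α) :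
    hpF σ x = hpF σ y ↔ σ.SameCycle x y := by
  constructor
  · intro h
    unfold hpF at h
    by_cases hx : x ∈ σ.support
    · by_cases hy : y ∈ σ.support
      · rw [dif_pos hx, dif_pos hy] at h
        have h1 : σ.cycleOf x = σ.cycleOf y := by
          have h2 := Sum.inl_injective h
          exact congrArg Subtype.val h2
        have h3 : y ∈ (σ.cycleOf x).support := by
          rw [h1, Equiv.Perm.mem_support_cycleOf_iff]
          exact ⟨Equiv.Perm.SameCycle.refl σ y, hy⟩
        exact (Equiv.Perm.mem_support_cycleOf_iff.mp h3).1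
      · rw [dif_pos hx, dif_neg hy] at h
        exact absurd h (by simp)
    · by_cases hy : y ∈ σ.support
      · rw [dif_neg hx, dif_pos hy] at h
        exact absurd h (by simp)
      · rw [dif_neg hx, dif_neg hy] at h
        have h2 := congrArg Subtype.val (Sum.inr_injective h)
        have h3 : x = y := h2
        rw [h3]
  · intro h
    have hs : x ∈ σ.support ↔ y ∈ σ.support := by
      rw [Equiv.Perm.mem_support, Equiv.Perm.mem_support, not_iff_not]
      exact h.apply_eq_self_iff
    unfold hpF
    by_cases hx : x ∈ σ.support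
    · have hy := hs.mp hx
      rw [dif_pos hx, dif_pos hy]
      congr 1
      exact Subtype.ext h.cycleOf_eq
    · have hy : y ∉ σ.support := fun h1 => hx (hs.mpr h1)
      rw [dif_neg hx, dif_neg hy]
      have hfx : σ x = x := by
        rwa [Equiv.Perm.notMem_support] at hx
      have h2 : x = y := h.eq_of_left hfx
      subst h2
      rfl

private theorem hpF_surj {α : Type} [Fintype α] [DecidableEq α] (σ : Equiv.Perm α) :
    Function.Surjective (hpF σ) := by
  rintro (⟨c, hc⟩ | ⟨x, hx⟩)
  · have hcyc := (Equiv.Perm.mem_cycleFactorsFinset_iff.mp hc).1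
    obtain ⟨a, ha⟩ := hcyc.nonempty_support
    have h1 : c = σ.cycleOf a := Equiv.Perm.cycle_is_cycleOf ha hc
    have h2 : a ∈ σ.support := by
      rw [← Equiv.Perm.cycleOf_mem_cycleFactorsFinset_iff, ← h1]
      exact hc
    refine ⟨a, ?_⟩
    unfold hpF
    rw [dif_pos h2]
    congr 1
    exact Subtype.ext h1.symm
  · refine ⟨x, ?_⟩
    unfold hpF
    rw [dif_neg hx]

private theorem hp_card {α : Type} [Fintype α] [DecidableEq α] (σ : Equiv.Perm α)
    {X : Type} (r : Setoid X) (e : X → α) (he : Function.Surjective e)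
    (hr : ∀ x y, r x y ↔ σ.SameCycle (e x) (e y)) :
    Nat.card (Quotient r) = Multiset.card σ.cycleType +
      (Fintype.card α - σ.support.card) := by
  have key : Nat.card (Quotient r) =
      Nat.card ({c : Equiv.Perm α // c ∈ σ.cycleFactorsFinset} ⊕ {x : α // x ∉ σ.support}) := by
    apply Nat.card_congr
    refine Equiv.ofBijective (Quotient.lift (fun x => hpF σ (e x)) fun x y h =>
      (hpF_eq_iff σ _ _).mpr ((hr x y).mp h)) ⟨?_, ?_⟩
    · intro a b
      induction a using Quotient.inductionOn with
      | h x =>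
        induction b using Quotient.inductionOn with
        | h y =>
          intro h
          exact Quotient.sound ((hr x y).mpr ((hpF_eq_iff σ _ _).mp h))
    · intro z
      obtain ⟨a, ha⟩ := hpF_surj σ z
      obtain ⟨x, hx⟩ := he a
      refine ⟨Quotient.mk r x, ?_⟩
      show hpF σ (e x) = z
      rw [hx, ha]
  rw [key, Nat.card_sum, Nat.card_eq_fintype_card, Nat.card_eq_fintype_card, Fintype.card_coe]
  congr 1
  · rw [Equiv.Perm.cycleType_def, Multiset.card_map]
    rfl
  · rw [Fintype.card_subtype_compl, Fintype.card_coe]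

theorem hind_perm (n : ℕ) (G : Subgroup (Equiv.Perm (Fin n)))
    (htr : MulAction.IsPretransitive G (Fin n)) (i0 : Fin n) (g : G) :
    hind (MulAction.stabilizer G i0) g =
      (g : Equiv.Perm (Fin n)).support.card - Multiset.card (g : Equiv.Perm (Fin n)).cycleType := by
  set σ : Equiv.Perm (Fin n) := (g : Equiv.Perm (Fin n)) with hσ
  set e : G ⧸ MulAction.stabilizer G i0 → Fin n := MulAction.ofQuotientStabilizer G i0 with he
  have einj : Function.Injective e := MulAction.injective_ofQuotientStabilizer G i0
  have esurj : Function.Surjective e := by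
    intro y
    obtain ⟨h, hh⟩ := MulAction.exists_smul_eq G i0 y
    exact ⟨QuotientGroup.mk h, by rw [he, MulAction.ofQuotientStabilizer_mk, hh]⟩
  have hidx : (MulAction.stabilizer G i0).index = n := by
    rw [Subgroup.index, Nat.card_congr (Equiv.ofBijective e ⟨einj, esurj⟩), Nat.card_fin]
  have hpow : ∀ (k : ℤ) (x : G ⧸ MulAction.stabilizer G i0), e (g ^ k • x) = (σ ^ k) (e x) := by
    intro k x
    rw [he, MulAction.ofQuotientStabilizer_smul]
    rfl
  have hrel : ∀ x y : G ⧸ MulAction.stabilizer G i0,
      (MulAction.orbitRel (Subgroup.zpowers g) (G ⧸ MulAction.stabilizer G i0)) x y ↔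
        σ.SameCycle (e x) (e y) := by
    intro x y
    rw [MulAction.orbitRel_apply]
    constructor
    · rintro ⟨⟨h, hh⟩, h2⟩
      obtain ⟨k, hk⟩ := Subgroup.mem_zpowers_iff.mp hh
      apply Equiv.Perm.SameCycle.symm
      refine ⟨k, ?_⟩
      rw [← hpow, hk]
      exact congrArg e h2
    · intro h
      obtain ⟨k, hk⟩ := h.symm
      refine ⟨⟨g ^ k, Subgroup.mem_zpowers_iff.mpr ⟨k, rfl⟩⟩, ?_⟩
      apply einj
      show e (g ^ k • y) = e x
      rw [hpow, hk]
  have hn : norb (MulAction.stabilizer G i0) g = Multiset.card σ.cycleType +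
      (n - σ.support.card) := by
    have h1 := hp_card σ (MulAction.orbitRel (Subgroup.zpowers g)
      (G ⧸ MulAction.stabilizer G i0)) e esurj hrel
    rw [Fintype.card_fin] at h1
    exact h1
  have hle : σ.support.card ≤ n := by
    have h1 := Finset.card_le_univ σ.support
    rwa [Fintype.card_fin] at h1
  rw [hind, hidx, hn]
  omega

end Pool.Agent.H98.ML
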