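import Pool.Agent.H98.ML.MainDat2
import Pool.Agent.H98.ML.MainAlg2
import Pool.Agent.H98.ML.MainAn2
import Pool.Agent.H98.ML.MainPos2

/-!
# Project MK2: the main theorem for one datum, without hypotheses
-/

set_option autoImplicit false

open Filter

namespace Pool.Agent.H98.ML

open Pool.Agent.H98.MK (Om Gam dabs fld chi dd adm par lg eps par_hom par_lc mfun z12)

/-- The asymptotic count for one datum. -/
theorem main_dat2 (D : Dt) (H0 : Subgroup (Ext D)) (w : Wt D) (hw : w.ind = hind H0) :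
    ∃ C : ℝ, 0 < C ∧ Tendsto (fun X : ℝ =>
      (Nat.card {ρ : Gam →* Ext D // Function.Surjective ρ ∧ IsLocallyConstant ρ ∧
        (dabs (fld (H0.comap ρ)) : ℝ) ≤ X} : ℝ) / (X ^ (1 / w.m : ℝ) * Real.log X ^ (w.b - 1)))
      atTop (nhds C) :=
  main_dat2_of D H0 w hw (fun D H0 w hw => main_alg2 D H0 w hw)
    (fun _ w θ hθ => main_an2 w θ hθ) (fun _ w θ h0 h1 => main_pos2 w θ h0 h1)

end Pool.Agent.H98.ML
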