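import Pool.Agent.H98.ML.Defs
import Pool.Agent.H98.MK.Struct

/-!
# Project MK2, row S1: groups with central squares and exponent four
-/

set_option autoImplicit false

open scoped commutatorElement

namespace Pool.Agent.H98.ML

open Pool.Agent.H98.MK (s1_comm s1_mul_left s1_swap s1_elem)

/-- a commutator is a product of squares -/
theorem s2_comm_sq {G : Type} [Group G] (a b : G) :
    ⁅a, b⁆ = a ^ 2 * (a⁻¹ * b) ^ 2 * (b⁻¹) ^ 2 := by
  rw [commutatorElement_def, pow_two, pow_two, pow_two]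
  group

theorem s2_pow_val {G : Type} [Group G] {g : G} {W : Type} [AddCommGroup W]
    [Module (ZMod 2) W] {ζ : W → G} (hζ0 : ζ 0 = 1) {q : W} (hq : ζ q = g ^ 2)
    (x y : ZMod 2) :
    g ^ x.val * g ^ y.val = g ^ (x + y).val * ζ ((x * y) • q) := by
  have hx : x = 0 ∨ x = 1 := by
    fin_cases x
    · exact Or.inl rfl
    · exact Or.inr rfl
  have hy : y = 0 ∨ y = 1 := by
    fin_cases y
    · exact Or.inl rfl
    · exact Or.inr rfl
  rcases hx with rfl | rfl <;> rcases hy with rfl | rfl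
  · simp [hζ0]
  · simp [hζ0]
  · simp [hζ0]
  · have h : (1 : ZMod 2) + 1 = 0 := by decide
    rw [h, mul_one, one_smul, hq, ZMod.val_zero, pow_zero, one_mul, ZMod.val_one, pow_one,
      pow_two]

theorem s2_sec {G : Type} [Group G] (hcl : ∀ a b c : G, ⁅⁅a, b⁆, c⁆ = 1)
    {W : Type} [AddCommGroup W] [Module (ZMod 2) W] (ζ : W → G)
    (hζ : ∀ x y, ζ (x + y) = ζ x * ζ y) (hinj : Function.Injective ζ)
    (hcent : ∀ x g, ζ x * g = g * ζ x) (hcom : ∀ a b : G, ∃ x, ζ x = ⁅a, b⁆)
    (hsq : ∀ a : G, ∃ x, ζ x = a ^ 2) :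
    ∀ (r : ℕ) (g : Fin r → G),
      ∃ (P : (Fin r → ZMod 2) → G)
        (β : (Fin r → ZMod 2) →ₗ[ZMod 2] (Fin r → ZMod 2) →ₗ[ZMod 2] W),
        P 0 = 1 ∧ (∀ i, P (Pi.single i 1) = g i) ∧ ∀ v w, P v * P w = P (v + w) * ζ (β v w) := by
  have hζ0 : ζ 0 = 1 := by
    have h := hζ 0 0
    rw [add_zero] at h
    exact left_eq_mul.1 h
  intro r
  induction r with
  | zero =>
    intro g
    refine ⟨fun _ => 1, 0, rfl, fun i => i.elim0, fun v w => ?_⟩
    simp [hζ0]
  | succ r ih =>
    intro g
    obtain ⟨P, β, hP0, hPi, hP⟩ := ih (fun i => g i.succ)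
    obtain ⟨q0, hq0⟩ := hsq (g 0)
    choose l hl using fun v => hcom (P v) (g 0)
    have hladd : ∀ v w, l (v + w) = l v + l w := by
      intro v w
      apply hinj
      rw [hζ, hl, hl, hl, ← s1_mul_left hcl, hP]
      simp only [commutatorElement_def, mul_inv_rev]
      have h2 := hcent (β v w) (g 0 * (ζ (β v w))⁻¹)
      calc P (v + w) * g 0 * (P (v + w))⁻¹ * (g 0)⁻¹
          = P (v + w) * (g 0 * (ζ (β v w))⁻¹ * ζ (β v w)) * (P (v + w))⁻¹ * (g 0)⁻¹ := by group
        _ = P (v + w) * (ζ (β v w) * (g 0 * (ζ (β v w))⁻¹)) * (P (v + w))⁻¹ * (g 0)⁻¹ := by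
            rw [h2]
        _ = _ := by group
    let L : (Fin r → ZMod 2) →ₗ[ZMod 2] W := (AddMonoidHom.mk' l hladd).toZModLinearMap 2
    have hL : ∀ v, L v = l v := fun v => rfl
    let T : (Fin (r + 1) → ZMod 2) →ₗ[ZMod 2] (Fin r → ZMod 2) :=
      LinearMap.funLeft (ZMod 2) (ZMod 2) Fin.succ
    have hT : ∀ v i, T v i = v i.succ := fun v i => rfl
    let β' : (Fin (r + 1) → ZMod 2) →ₗ[ZMod 2] (Fin (r + 1) → ZMod 2) →ₗ[ZMod 2] W :=
      LinearMap.mk₂ (ZMod 2) (fun v w => β (T v) (T w) + w 0 • L (T v) + (v 0 * w 0) • q0)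
        (by
          intro v v' w
          simp only [map_add, LinearMap.add_apply, smul_add, Pi.add_apply, add_mul, add_smul]
          abel)
        (by
          intro c v w
          simp only [map_smul, LinearMap.smul_apply, smul_add, smul_comm c, Pi.smul_apply,
            smul_eq_mul, mul_assoc, mul_smul])
        (by
          intro v w w'
          simp only [map_add, Pi.add_apply, add_smul, mul_add]
          abel)
        (by
          intro c v w
          simp only [map_smul, Pi.smul_apply, smul_eq_mul, smul_add, mul_smul]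
          congr 1
          exact smul_comm _ _ _)
    have hβ' : ∀ v w, β' v w = β (T v) (T w) + w 0 • L (T v) + (v 0 * w 0) • q0 :=
      fun v w => rfl
    refine ⟨fun v => g 0 ^ (v 0).val * P (T v), β', ?_, ?_, ?_⟩
    · have h1 : T 0 = 0 := map_zero T
      simp [h1, hP0]
    · intro i
      refine Fin.cases ?_ (fun j => ?_) i
      · have h1 : T (Pi.single 0 1) = 0 := by
          funext j
          rw [hT, Pi.zero_apply, Pi.single_eq_of_ne (Fin.succ_ne_zero j)]
        change g 0 ^ ((Pi.single 0 1 : Fin (r + 1) → ZMod 2) 0).val * P (T (Pi.single 0 1)) = g 0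
        rw [Pi.single_eq_same, h1, hP0, mul_one, ZMod.val_one, pow_one]
      · have h1 : T (Pi.single j.succ 1) = Pi.single j 1 := by
          funext k
          rw [hT, Pi.single_apply, Pi.single_apply]
          simp only [Fin.succ_inj]
        have h2 : (Pi.single j.succ 1 : Fin (r + 1) → ZMod 2) 0 = 0 :=
          Pi.single_eq_of_ne (Fin.succ_ne_zero j).symm _
        simp only [h1, h2, hPi]
        simp
    · intro v w
      change g 0 ^ (v 0).val * P (T v) * (g 0 ^ (w 0).val * P (T w)) =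
        g 0 ^ ((v + w) 0).val * P (T (v + w)) * ζ (β' v w)
      have key : P (T v) * g 0 ^ (w 0).val = ζ (w 0 • L (T v)) * (g 0 ^ (w 0).val * P (T v)) := by
        generalize w 0 = x
        have hx : x = 0 ∨ x = 1 := by
          fin_cases x
          · exact Or.inl rfl
          · exact Or.inr rfl
        rcases hx with rfl | rfl
        · rw [zero_smul, hζ0, ZMod.val_zero, pow_zero, one_mul, one_mul, mul_one]
        · rw [one_smul, hL, hl, ZMod.val_one, pow_one]
          exact s1_swap _ _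
      rw [hβ', hζ, hζ, map_add, Pi.add_apply]
      have h3 := hcent (w 0 • L (T v)) (g 0 ^ (w 0).val * P (T v) * P (T w))
      have h4 := s2_pow_val hζ0 hq0 (v 0) (w 0)
      have h5 := hcent ((v 0 * w 0) • q0) (P (T v + T w) * ζ (β (T v) (T w)) * ζ (w 0 • L (T v)))
      calc g 0 ^ (v 0).val * P (T v) * (g 0 ^ (w 0).val * P (T w))
          = g 0 ^ (v 0).val * (P (T v) * g 0 ^ (w 0).val) * P (T w) := by group
        _ = g 0 ^ (v 0).val * (ζ (w 0 • L (T v)) * (g 0 ^ (w 0).val * P (T v) * P (T w))) := by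
            rw [key]; group
        _ = (g 0 ^ (v 0).val * g 0 ^ (w 0).val) * (P (T v) * P (T w)) *
              ζ (w 0 • L (T v)) := by rw [h3]; group
        _ = g 0 ^ (v 0 + w 0).val * (ζ ((v 0 * w 0) • q0) *
              (P (T v + T w) * ζ (β (T v) (T w)) * ζ (w 0 • L (T v)))) := by
            rw [h4, hP]; group
        _ = _ := by rw [h5]; group

/-! ### the structure theorem -/

theorem struct2 (G : Type) [Group G] [Finite G] (h4 : ∀ x : G, x ^ 4 = 1)
    (hc : ∀ x y : G, x ^ 2 * y = y * x ^ 2) : ∃ D : Dt, Nonempty (G ≃* Ext D) := by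
  classical
  -- the subgroup of the squares
  let N : Subgroup G := Subgroup.closure {y : G | ∃ x : G, x ^ 2 = y}
  have hN : N = Subgroup.closure {y : G | ∃ x : G, x ^ 2 = y} := rfl
  have hsqN : ∀ x : G, x ^ 2 ∈ N := fun x => Subgroup.subset_closure ⟨x, rfl⟩
  have hcent : ∀ z ∈ N, ∀ g, z * g = g * z := by
    intro z hz
    rw [hN] at hz
    induction hz using Subgroup.closure_induction with
    | mem x hx =>
      obtain ⟨a, rfl⟩ := hx
      exact hc a
    | one => intro g; simp
    | mul a b _ _ ha hb =>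
      intro g
      rw [mul_assoc, hb, ← mul_assoc, ha, mul_assoc]
    | inv a _ ha =>
      intro g
      have h := ha (a⁻¹ * g * a⁻¹)
      have e1 : a * (a⁻¹ * g * a⁻¹) = g * a⁻¹ := by group
      have e2 : a⁻¹ * g * a⁻¹ * a = a⁻¹ * g := by group
      rw [e1, e2] at h
      exact h.symm
  have hsq : ∀ z ∈ N, z ^ 2 = 1 := by
    intro z hz
    rw [hN] at hz
    induction hz using Subgroup.closure_induction with
    | mem x hx =>
      obtain ⟨a, rfl⟩ := hx
      rw [← pow_mul]
      exact h4 a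
    | one => simp
    | mul a b ha' hb' ha hb =>
      rw [← hN] at ha' hb'
      rw [Commute.mul_pow (hcent a ha' b), ha, hb, one_mul]
    | inv a _ ha => rw [inv_pow, ha, inv_one]
  have hcomN : ∀ a b : G, ⁅a, b⁆ ∈ N := by
    intro a b
    rw [s2_comm_sq]
    exact N.mul_mem (N.mul_mem (hsqN _) (hsqN _)) (hsqN _)
  have hcl : ∀ a b c : G, ⁅⁅a, b⁆, c⁆ = 1 := by
    intro a b c
    exact commutatorElement_eq_one_iff_commute.2 (hcent _ (hcomN a b) c)
  have hNn : N.Normal := ⟨fun z hz g => by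
    rw [← hcent z hz g, mul_inv_cancel_right]
    exact hz⟩
  -- coordinates on the subgroup
  obtain ⟨s, e, -, hadd, -, -⟩ := s1_elem N
    (fun a b => Subtype.ext (hcent a a.2 b)) (fun a => Subtype.ext (hsq a a.2)) Set.univ
    Subgroup.closure_univ
  let ζ : (Fin s → ZMod 2) → G := fun x => (e.symm x : G)
  have hζ : ∀ x y, ζ (x + y) = ζ x * ζ y := by
    intro x y
    have h : e.symm (x + y) = e.symm x * e.symm y := by
      rw [Equiv.symm_apply_eq, hadd, e.apply_symm_apply, e.apply_symm_apply]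
    change ((e.symm (x + y) : N) : G) = _
    rw [h]
    rfl
  have hinj : Function.Injective ζ := fun x y h => e.symm.injective (Subtype.ext h)
  have hcent' : ∀ x g, ζ x * g = g * ζ x := fun x g => hcent _ (e.symm x).2 g
  have hrange : ∀ z ∈ N, ∃ x, ζ x = z := fun z hz =>
    ⟨e ⟨z, hz⟩, by change ((e.symm (e ⟨z, hz⟩) : N) : G) = z; rw [e.symm_apply_apply]⟩
  have hζ0 : ζ 0 = 1 := by
    have h := hζ 0 0
    rw [add_zero] at h
    exact left_eq_mul.1 h
  have hζ2 : ∀ x, ζ x * ζ x = 1 := fun x => by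
    rw [← hζ, ← hζ0]
    congr 1
    funext i
    exact CharTwo.add_self_eq_zero (x i)
  -- coordinates on the quotient
  obtain ⟨r, f, g', hfadd, -, hfg⟩ := s1_elem (G ⧸ N)
    (fun a b => by
      obtain ⟨a, rfl⟩ := QuotientGroup.mk_surjective a
      obtain ⟨b, rfl⟩ := QuotientGroup.mk_surjective b
      rw [← QuotientGroup.mk_mul, ← QuotientGroup.mk_mul, QuotientGroup.eq]
      have h : (a * b)⁻¹ * (b * a) = ⁅b⁻¹, a⁻¹⁆ := by
        rw [commutatorElement_def]
        group
      rw [h]
      exact hcomN _ _)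
    (fun a => by
      obtain ⟨a, rfl⟩ := QuotientGroup.mk_surjective a
      rw [← QuotientGroup.mk_pow, QuotientGroup.eq_one_iff]
      exact hsqN a)
    Set.univ Subgroup.closure_univ
  choose g hgg using fun i => QuotientGroup.mk_surjective (g' i)
  obtain ⟨P, β, hP0, hPi, hP⟩ := s2_sec hcl ζ hζ hinj hcent'
    (fun a b => hrange _ (hcomN a b)) (fun a => hrange _ (hsqN a)) r g
  let π : G → (Fin r → ZMod 2) := fun x => f (QuotientGroup.mk x)
  have hπ : ∀ x y, π (x * y) = π x + π y := fun x y => by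
    change f (QuotientGroup.mk (x * y)) = _
    rw [QuotientGroup.mk_mul, hfadd]
  have hf1 : f 1 = 0 := by
    have h := hfadd 1 1
    rw [one_mul] at h
    exact left_eq_add.1 h
  have hker : ∀ x, π x = 0 ↔ x ∈ N := by
    intro x
    rw [← QuotientGroup.eq_one_iff (N := N)]
    constructor
    · intro h
      apply f.injective
      rw [hf1]
      exact h
    · intro h
      change f (QuotientGroup.mk x) = 0
      rw [h, hf1]
  have hπζ : ∀ x, π (ζ x) = 0 := fun x => (hker _).2 (e.symm x).2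
  have hPπ : ∀ v, π (P v) = v := by
    let M : (Fin r → ZMod 2) →+ (Fin r → ZMod 2) := AddMonoidHom.mk' (fun v => π (P v)) (by
      intro v w
      have h := congrArg π (hP v w)
      rw [hπ, hπ, hπζ, add_zero] at h
      exact h.symm)
    have hM : M.toZModLinearMap 2 = LinearMap.id := by
      apply LinearMap.pi_ext'
      intro i
      apply LinearMap.ext_ring
      change π (P (Pi.single i 1)) = Pi.single i 1
      rw [hPi]
      change f (QuotientGroup.mk (g i)) = _
      rw [hgg, hfg]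
    intro v
    exact congrArg (fun F : (Fin r → ZMod 2) →ₗ[ZMod 2] (Fin r → ZMod 2) => F v) hM
  have hsqP : ∀ v, P v * P v = ζ (β v v) := by
    intro v
    have h : v + v = 0 := by
      funext i
      exact CharTwo.add_self_eq_zero (v i)
    rw [hP, h, hP0, one_mul]
  have hdecomp : ∀ x : G, ∃ v z, x = P v * ζ z := by
    intro x
    have h : π ((P (π x))⁻¹ * x) = 0 := by
      have h2 := hπ (P (π x)) ((P (π x))⁻¹ * x)
      rw [mul_inv_cancel_left, hPπ] at h2
      exact left_eq_add.1 h2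
    obtain ⟨z, hz⟩ := hrange _ ((hker _).1 h)
    exact ⟨π x, z, by rw [hz, mul_inv_cancel_left]⟩
  -- the squares generate
  have hspz : Submodule.span (ZMod 2) (Set.range fun v : Fin r → ZMod 2 => β v v) = ⊤ := by
    set S := Submodule.span (ZMod 2) (Set.range fun v : Fin r → ZMod 2 => β v v) with hS
    have h5 : ∀ z ∈ N, ∃ x ∈ S, ζ x = z := by
      intro z hz
      rw [hN] at hz
      induction hz using Subgroup.closure_induction with
      | mem x hx =>
        obtain ⟨a, rfl⟩ := hx
        obtain ⟨v, z1, rfl⟩ := hdecomp a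
        refine ⟨β v v, Submodule.subset_span ⟨_, rfl⟩, ?_⟩
        rw [← hsqP, pow_two]
        have h7 := hcent' z1 (P v * ζ z1)
        calc P v * P v = P v * P v * (ζ z1 * ζ z1) := by rw [hζ2, mul_one]
          _ = P v * (P v * ζ z1 * ζ z1) := by group
          _ = P v * (ζ z1 * (P v * ζ z1)) := by rw [h7]
          _ = _ := by group
      | one => exact ⟨0, Submodule.zero_mem _, hζ0⟩
      | mul a b _ _ ha hb =>
        obtain ⟨x, hx, rfl⟩ := ha
        obtain ⟨y, hy, rfl⟩ := hb
        exact ⟨x + y, Submodule.add_mem _ hx hy, hζ x y⟩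
      | inv a _ ha =>
        obtain ⟨x, hx, rfl⟩ := ha
        exact ⟨x, hx, (inv_eq_of_mul_eq_one_right (hζ2 x)).symm⟩
    rw [eq_top_iff]
    intro x _
    obtain ⟨y, hy, h⟩ := h5 (ζ x) (e.symm x).2
    rw [← hinj h]
    exact hy
  let D : Dt := ⟨r, s, β, hspz⟩
  let F : Ext D → G := fun x => P x.v * ζ x.z
  have hFmul : ∀ x y : Ext D, F (x * y) = F x * F y := by
    intro x y
    change P (x.v + y.v) * ζ (x.z + y.z + β x.v y.v) = P x.v * ζ x.z * (P y.v * ζ y.z)
    rw [hζ, hζ]
    have h2 := hcent' x.z (P y.v)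
    calc P (x.v + y.v) * (ζ x.z * ζ y.z * ζ (β x.v y.v))
        = P (x.v + y.v) * (ζ (β x.v y.v) * (ζ x.z * ζ y.z)) := by
          rw [hcent' (β x.v y.v) (ζ x.z * ζ y.z)]
      _ = P x.v * P y.v * (ζ x.z * ζ y.z) := by rw [hP, mul_assoc]
      _ = P x.v * (P y.v * ζ x.z) * ζ y.z := by group
      _ = _ := by rw [← h2]; group
  have hFbij : Function.Bijective F := by
    constructor
    · intro x y h
      change P x.v * ζ x.z = P y.v * ζ y.z at h
      have h2 := congrArg π h
      rw [hπ, hπ, hπζ, hπζ, hPπ, hPπ, add_zero, add_zero] at h2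
      rw [h2, mul_right_inj] at h
      exact Ext.ext h2 (hinj h)
    · intro x
      obtain ⟨v, z, rfl⟩ := hdecomp x
      exact ⟨⟨v, z⟩, rfl⟩
  exact ⟨D, ⟨(MulEquiv.ofBijective (MonoidHom.mk' F hFmul) hFbij).symm⟩⟩

end Pool.Agent.H98.ML
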