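import Pool.Agent.H98.ML.CountHoms2
import Pool.Agent.H98.ML.FDefs
import Pool.Agent.H98.ML.Hind
import Pool.Agent.H98.ML.HindPerm
import Pool.Agent.H98.ML.Struct2
import Pool.Agent.H98.ML.MainDat2U
import Pool.Agent.H98.MK.Final

/-!
# Project MK2 (MP_a3214d), row F2: the final count
-/

set_option autoImplicit false

open scoped BigOperators
open Filter Topology

namespace Pool.Agent.H98.ML

open Pool.Agent.H98.MK (Om Gam dabs fld chi dd adm par lg eps par_hom par_lc mfun z12)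

/-- the index depends only on the group and the subgroup up to isomorphism -/
theorem f2_hind_comap {G K : Type} [Group G] [Group K] (e : G ≃* K) (H : Subgroup G) (g : G) :
    hind (H.comap e.symm.toMonoidHom) (e g) = hind H g := by
  have hidx : (H.comap e.symm.toMonoidHom).index = H.index :=
    Subgroup.index_comap_of_surjective H (f := e.symm.toMonoidHom) e.symm.surjective
  have hn : norb (H.comap e.symm.toMonoidHom) (e g) = norb H g := by
    unfold norb
    let q : G ⧸ H ≃ K ⧸ (H.comap e.symm.toMonoidHom) :=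
      Quotient.congr e.toEquiv (by
        intro a b
        rw [QuotientGroup.leftRel_apply, QuotientGroup.leftRel_apply]
        change a⁻¹ * b ∈ H ↔ e.symm ((e a)⁻¹ * e b) ∈ H
        rw [map_mul, map_inv, e.symm_apply_apply, e.symm_apply_apply])
    have hq : ∀ (x : G) (y : G ⧸ H), q (x • y) = e x • q y := by
      intro x y
      induction y using QuotientGroup.induction_on with
      | H y =>
        change (QuotientGroup.mk (e (x * y)) : K ⧸ _) = QuotientGroup.mk (e x * e y)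
        rw [map_mul]
    symm
    refine Nat.card_congr (Quotient.congr q ?_)
    intro a b
    rw [MulAction.orbitRel_apply, MulAction.orbitRel_apply, MulAction.mem_orbit_iff,
      MulAction.mem_orbit_iff]
    constructor
    · rintro ⟨⟨x, hx⟩, h⟩
      obtain ⟨k, rfl⟩ := Subgroup.mem_zpowers_iff.1 hx
      refine ⟨⟨e g ^ k, Subgroup.mem_zpowers_iff.2 ⟨k, rfl⟩⟩, ?_⟩
      have h' : g ^ k • b = a := h
      change e g ^ k • q b = q a
      rw [← h', hq, map_zpow]
    · rintro ⟨⟨x, hx⟩, h⟩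
      obtain ⟨k, rfl⟩ := Subgroup.mem_zpowers_iff.1 hx
      refine ⟨⟨g ^ k, Subgroup.mem_zpowers_iff.2 ⟨k, rfl⟩⟩, ?_⟩
      have h' : e g ^ k • q b = q a := h
      change g ^ k • b = a
      apply q.injective
      rw [hq, map_zpow, h']
  unfold hind
  rw [hidx, hn]

/-- classes of minimal index and isomorphisms -/
theorem f2_classes {G K : Type} [Group G] [Group K] (e : G ≃* K) (f : K → ℕ) (m : ℕ) :
    Nat.card {c : ConjClasses G // ∃ g : G, ConjClasses.mk g = c ∧ g ≠ 1 ∧ f (e g) = m} =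
      Nat.card {c : ConjClasses K // ∃ g : K, ConjClasses.mk g = c ∧ g ≠ 1 ∧ f g = m} := by
  have inv : ∀ {G H : Type} [Group G] [Group H] (e : G ≃* H) (c : ConjClasses G),
      ConjClasses.map e.symm.toMonoidHom (ConjClasses.map e.toMonoidHom c) = c := by
    intro G H _ _ e c
    induction c using Quotient.inductionOn with
    | _ g =>
      change ConjClasses.mk (e.symm (e g)) = ConjClasses.mk g
      rw [e.symm_apply_apply]
  refine Nat.card_congr
    { toFun := fun c => ⟨ConjClasses.map e.toMonoidHom c.1, ?_⟩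
      invFun := fun c => ⟨ConjClasses.map e.symm.toMonoidHom c.1, ?_⟩
      left_inv := fun c => Subtype.ext (inv e c.1)
      right_inv := fun c => Subtype.ext (by
        have := inv e.symm c.1
        rwa [MulEquiv.symm_symm] at this) }
  · obtain ⟨c, g, rfl, hg, hf⟩ := c
    exact ⟨e g, rfl, fun h => hg ((MulEquiv.map_eq_one_iff e).1 h), hf⟩
  · obtain ⟨c, g, rfl, hg, hf⟩ := c
    refine ⟨e.symm g, rfl, fun h => hg ((MulEquiv.map_eq_one_iff e.symm).1 h), ?_⟩
    rw [e.apply_symm_apply]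
    exact hf

/-- a point stabiliser of a transitive group of permutations has trivial core -/
theorem f2_core {n : ℕ} (G : Subgroup (Equiv.Perm (Fin n)))
    (htr : MulAction.IsPretransitive G (Fin n)) (i0 : Fin n) (x : G)
    (hx : ∀ g : G, g * x * g⁻¹ ∈ MulAction.stabilizer G i0) : x = 1 := by
  apply Subtype.ext
  apply Equiv.ext
  intro i
  obtain ⟨c, hc⟩ := htr.exists_smul_eq i i0
  have h1 : (c * x * c⁻¹) • i0 = i0 := hx c
  have h2 : x • i = i := by
    have h3 : (c * x * c⁻¹) • i0 = c • (x • (c⁻¹ • i0)) := by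
      rw [mul_smul, mul_smul]
    rw [h3, ← hc, inv_smul_smul] at h1
    exact MulAction.injective c h1
  exact h2

/-- homomorphisms to isomorphic groups -/
theorem f2_homs {G K : Type} [Group G] [Group K] (e : G ≃* K) (H : Subgroup G) (B : ℝ) :
    Nat.card {ρ : Gam →* G // Function.Surjective ρ ∧ IsLocallyConstant ρ ∧
        (dabs (fld (H.comap ρ)) : ℝ) ≤ B} =
      Nat.card {ρ : Gam →* K // Function.Surjective ρ ∧ IsLocallyConstant ρ ∧
        (dabs (fld ((H.comap e.symm.toMonoidHom).comap ρ)) : ℝ) ≤ B} := by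
  have key : ∀ ρ : Gam →* G,
      (H.comap e.symm.toMonoidHom).comap (e.toMonoidHom.comp ρ) = H.comap ρ := by
    intro ρ
    ext σ
    change e.symm (e (ρ σ)) ∈ H ↔ ρ σ ∈ H
    rw [e.symm_apply_apply]
  refine Nat.card_congr
    { toFun := fun ρ => ⟨e.toMonoidHom.comp ρ.1, e.surjective.comp ρ.2.1,
        ρ.2.2.1.comp e, by rw [key]; exact ρ.2.2.2⟩
      invFun := fun ρ => ⟨e.symm.toMonoidHom.comp ρ.1, e.symm.surjective.comp ρ.2.1,
        ρ.2.2.1.comp e.symm, by rw [← Subgroup.comap_comap]; exact ρ.2.2.2⟩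
      left_inv := fun ρ => Subtype.ext (by
        ext σ : 1
        exact e.symm_apply_apply (ρ.1 σ))
      right_inv := fun ρ => Subtype.ext (by
        ext σ : 1
        exact e.apply_symm_apply (ρ.1 σ)) }

/-- the final count, from the other rows -/
theorem final2_of
    (hmain : ∀ (D : Dt) (H0 : Subgroup (Ext D)) (w : Wt D), w.ind = hind H0 →
      ∃ C : ℝ, 0 < C ∧ Tendsto (fun X : ℝ =>
        (Nat.card {ρ : Gam →* Ext D // Function.Surjective ρ ∧ IsLocallyConstant ρ ∧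
          (dabs (fld (H0.comap ρ)) : ℝ) ≤ X} : ℝ) / (X ^ (1 / w.m : ℝ) * Real.log X ^ (w.b - 1)))
        atTop (nhds C))
    (hstruct : ∀ (G : Type) [Group G] [Finite G], (∀ x : G, x ^ 4 = 1) →
      (∀ x y : G, x ^ 2 * y = y * x ^ 2) → ∃ D : Dt, Nonempty (G ≃* Ext D))
    (hcount : ∀ (n : ℕ) (G : Subgroup (Equiv.Perm (Fin n))),
      MulAction.IsPretransitive G (Fin n) → ∀ (i0 : Fin n) (B : ℝ),
      Nat.card (Quot (fun L L' : {M : IntermediateField ℚ (AlgebraicClosure ℚ) //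
            Module.finrank ℚ M = n ∧
            (∃ e : (M →ₐ[ℚ] AlgebraicClosure ℚ) ≃ Fin n, ∀ π : Equiv.Perm (Fin n),
               π ∈ G ↔ ∃ σ : AlgebraicClosure ℚ ≃ₐ[ℚ] AlgebraicClosure ℚ,
                 ∀ φ : M →ₐ[ℚ] AlgebraicClosure ℚ, e (σ.toAlgHom.comp φ) = π (e φ)) ∧
            ∃ h : NumberField M,
              ((|@NumberField.discr M _ h| : ℤ) : ℝ) ≤ B * ((|NumberField.discr ℚ| : ℤ) : ℝ) ^ n}
          => Nonempty (L.1 ≃ₐ[ℚ] L'.1))) *
        Nat.card {α : MulAut G // ∃ g : G, ∀ x : G, x ∈ MulAction.stabilizer G i0 ↔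
          g * α x * g⁻¹ ∈ MulAction.stabilizer G i0} =
      Nat.card {ρ : Gam →* G // Function.Surjective ρ ∧ IsLocallyConstant ρ ∧
        (dabs (fld ((MulAction.stabilizer G i0).comap ρ)) : ℝ) ≤ B})
    (hperm : ∀ (n : ℕ) (G : Subgroup (Equiv.Perm (Fin n))),
      MulAction.IsPretransitive G (Fin n) → ∀ (i0 : Fin n) (g : G),
      hind (MulAction.stabilizer G i0) g =
        (g : Equiv.Perm (Fin n)).support.card - Multiset.card (g : Equiv.Perm (Fin n)).cycleType)
    (hwt : ∀ (D : Dt) [Nontrivial (Ext D)] (H0 : Subgroup (Ext D)), H0.normalCore = ⊥ →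
      ∃ w : Wt D, w.ind = hind H0)
    (n : ℕ) (G : Subgroup (Equiv.Perm (Fin n)))
    (hne : G ≠ ⊥) (htr : MulAction.IsPretransitive G (Fin n))
    (h4 : ∀ x : G, x ^ 4 = 1) (hc : ∀ x y : G, x ^ 2 * y = y * x ^ 2) (m : ℕ)
    (hm : IsLeast {j | ∃ g ∈ G, g ≠ 1 ∧ g.support.card - Multiset.card g.cycleType = j} m) :
    ∃ c : ℝ, 0 < c ∧
      Asymptotics.IsEquivalent Filter.atTop
        (fun B : ℝ => ((Nat.card (Quot (fun L L' : {M : IntermediateField ℚ (AlgebraicClosure ℚ) //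
            Module.finrank ℚ M = n ∧
            (∃ e : (M →ₐ[ℚ] AlgebraicClosure ℚ) ≃ Fin n, ∀ π : Equiv.Perm (Fin n),
               π ∈ G ↔ ∃ σ : AlgebraicClosure ℚ ≃ₐ[ℚ] AlgebraicClosure ℚ,
                 ∀ φ : M →ₐ[ℚ] AlgebraicClosure ℚ, e (σ.toAlgHom.comp φ) = π (e φ)) ∧
            ∃ h : NumberField M,
              ((|@NumberField.discr M _ h| : ℤ) : ℝ) ≤ B * ((|NumberField.discr ℚ| : ℤ) : ℝ) ^ n}
          => Nonempty (L.1 ≃ₐ[ℚ] L'.1))) : ℕ) : ℝ))
        (fun B : ℝ => c * B ^ (1 / m : ℝ) * Real.log B ^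
          (Nat.card {c : ConjClasses G // ∃ g : G, ConjClasses.mk g = c ∧ g ≠ 1 ∧
            (g : Equiv.Perm (Fin n)).support.card -
              Multiset.card (g : Equiv.Perm (Fin n)).cycleType = m} - 1)) := by
  have hG : Nontrivial G := (Subgroup.nontrivial_iff_ne_bot G).2 hne
  obtain ⟨D, ⟨e⟩⟩ := hstruct G h4 hc
  have hnt : Nontrivial (Ext D) := e.symm.toEquiv.nontrivial
  have hn0 : n ≠ 0 := by
    rintro rfl
    obtain ⟨x, y, hxy⟩ := hG
    exact hxy (Subsingleton.elim x y)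
  let i0 : Fin n := ⟨0, Nat.pos_of_ne_zero hn0⟩
  obtain ⟨w, hw⟩ := hwt D ((MulAction.stabilizer G i0).comap e.symm.toMonoidHom) (by
    rw [eq_bot_iff]
    intro x hx
    rw [Subgroup.mem_bot]
    have h1 : ∀ b : Ext D, b * x * b⁻¹ ∈
        (MulAction.stabilizer G i0).comap e.symm.toMonoidHom := hx
    have h2 : e.symm x = 1 := by
      apply f2_core G htr i0
      intro g
      have h3 := h1 (e g)
      have h4 : e.symm (e g * x * (e g)⁻¹) ∈ MulAction.stabilizer G i0 := h3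
      rwa [map_mul, map_mul, map_inv, e.symm_apply_apply] at h4
    exact (MulEquiv.map_eq_one_iff e.symm).1 h2)
  have hind1 : ∀ g : G, w.ind (e g) =
      (g : Equiv.Perm (Fin n)).support.card -
        Multiset.card (g : Equiv.Perm (Fin n)).cycleType := by
    intro g
    rw [hw, f2_hind_comap, hperm n G htr i0]
  have hm1 : w.m = m := by
    have hl : IsLeast {j | ∃ g ∈ G, g ≠ 1 ∧ g.support.card - Multiset.card g.cycleType = j}
        w.m := by
      constructor
      · obtain ⟨g, hg, hgm⟩ := w.att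
        refine ⟨(e.symm g : G), (e.symm g).2, ?_, ?_⟩
        · intro h
          apply hg
          have h' : e.symm g = 1 := Subtype.ext h
          exact (MulEquiv.map_eq_one_iff e.symm).1 h'
        · rw [← hind1 (e.symm g), e.apply_symm_apply]
          exact hgm
      · rintro j ⟨g, hg, hg1, rfl⟩
        have h1 := w.min (e ⟨g, hg⟩) (fun h => hg1 (by
          have h2 := (MulEquiv.map_eq_one_iff e).1 h
          exact congrArg Subtype.val h2))
        rw [hind1] at h1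
        exact h1
    exact hl.unique hm
  have hb : Nat.card {c : ConjClasses G // ∃ g : G, ConjClasses.mk g = c ∧ g ≠ 1 ∧
      (g : Equiv.Perm (Fin n)).support.card -
        Multiset.card (g : Equiv.Perm (Fin n)).cycleType = m} = w.b := by
    unfold Wt.b
    rw [← f2_classes e w.ind w.m, hm1]
    simp only [hind1]
  obtain ⟨C, hC, hlim⟩ := hmain D _ w hw
  have hA0 : 0 < Nat.card {α : MulAut G // ∃ g : G, ∀ x : G,
      x ∈ MulAction.stabilizer G i0 ↔ g * α x * g⁻¹ ∈ MulAction.stabilizer G i0} := by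
    have : Finite (MulAut G) := inferInstanceAs (Finite (G ≃* G))
    have : Nonempty {α : MulAut G // ∃ g : G, ∀ x : G,
        x ∈ MulAction.stabilizer G i0 ↔ g * α x * g⁻¹ ∈ MulAction.stabilizer G i0} :=
      ⟨⟨1, 1, fun x => by
        rw [one_mul, inv_one, mul_one]
        exact Iff.rfl⟩⟩
    exact Nat.card_pos
  have hA : (0 : ℝ) < Nat.card {α : MulAut G // ∃ g : G, ∀ x : G,
      x ∈ MulAction.stabilizer G i0 ↔ g * α x * g⁻¹ ∈ MulAction.stabilizer G i0} := by
    exact_mod_cast hA0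
  rw [hb, ← hm1]
  refine ⟨C / Nat.card {α : MulAut G // ∃ g : G, ∀ x : G,
      x ∈ MulAction.stabilizer G i0 ↔ g * α x * g⁻¹ ∈ MulAction.stabilizer G i0},
    by positivity, ?_⟩
  apply Pool.Agent.H98.MK.equiv_of_ratio _ _ _ _ (by positivity)
  refine (hlim.div_const (Nat.card {α : MulAut G // ∃ g : G, ∀ x : G,
      x ∈ MulAction.stabilizer G i0 ↔
        g * α x * g⁻¹ ∈ MulAction.stabilizer G i0} : ℝ)).congr ?_
  intro B
  rw [← f2_homs e, ← hcount n G htr i0 B]
  push_cast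
  rw [div_right_comm, mul_div_assoc, div_self hA.ne', mul_one]

/-- the final count, from the count of the homomorphisms and the reduction to them -/
theorem final2_of2
    (hmain : ∀ (D : Dt) (H0 : Subgroup (Ext D)) (w : Wt D), w.ind = hind H0 →
      ∃ C : ℝ, 0 < C ∧ Tendsto (fun X : ℝ =>
        (Nat.card {ρ : Gam →* Ext D // Function.Surjective ρ ∧ IsLocallyConstant ρ ∧
          (dabs (fld (H0.comap ρ)) : ℝ) ≤ X} : ℝ) / (X ^ (1 / w.m : ℝ) * Real.log X ^ (w.b - 1)))
        atTop (nhds C))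
    (hcount : ∀ (n : ℕ) (G : Subgroup (Equiv.Perm (Fin n))),
      MulAction.IsPretransitive G (Fin n) → ∀ (i0 : Fin n) (B : ℝ),
      Nat.card (Quot (fun L L' : {M : IntermediateField ℚ (AlgebraicClosure ℚ) //
            Module.finrank ℚ M = n ∧
            (∃ e : (M →ₐ[ℚ] AlgebraicClosure ℚ) ≃ Fin n, ∀ π : Equiv.Perm (Fin n),
               π ∈ G ↔ ∃ σ : AlgebraicClosure ℚ ≃ₐ[ℚ] AlgebraicClosure ℚ,
                 ∀ φ : M →ₐ[ℚ] AlgebraicClosure ℚ, e (σ.toAlgHom.comp φ) = π (e φ)) ∧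
            ∃ h : NumberField M,
              ((|@NumberField.discr M _ h| : ℤ) : ℝ) ≤ B * ((|NumberField.discr ℚ| : ℤ) : ℝ) ^ n}
          => Nonempty (L.1 ≃ₐ[ℚ] L'.1))) *
        Nat.card {α : MulAut G // ∃ g : G, ∀ x : G, x ∈ MulAction.stabilizer G i0 ↔
          g * α x * g⁻¹ ∈ MulAction.stabilizer G i0} =
      Nat.card {ρ : Gam →* G // Function.Surjective ρ ∧ IsLocallyConstant ρ ∧
        (dabs (fld ((MulAction.stabilizer G i0).comap ρ)) : ℝ) ≤ B})
    (n : ℕ) (G : Subgroup (Equiv.Perm (Fin n)))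
    (hne : G ≠ ⊥) (htr : MulAction.IsPretransitive G (Fin n))
    (h4 : ∀ x : G, x ^ 4 = 1) (hc : ∀ x y : G, x ^ 2 * y = y * x ^ 2) (m : ℕ)
    (hm : IsLeast {j | ∃ g ∈ G, g ≠ 1 ∧ g.support.card - Multiset.card g.cycleType = j} m) :
    ∃ c : ℝ, 0 < c ∧
      Asymptotics.IsEquivalent Filter.atTop
        (fun B : ℝ => ((Nat.card (Quot (fun L L' : {M : IntermediateField ℚ (AlgebraicClosure ℚ) //
            Module.finrank ℚ M = n ∧
            (∃ e : (M →ₐ[ℚ] AlgebraicClosure ℚ) ≃ Fin n, ∀ π : Equiv.Perm (Fin n),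
               π ∈ G ↔ ∃ σ : AlgebraicClosure ℚ ≃ₐ[ℚ] AlgebraicClosure ℚ,
                 ∀ φ : M →ₐ[ℚ] AlgebraicClosure ℚ, e (σ.toAlgHom.comp φ) = π (e φ)) ∧
            ∃ h : NumberField M,
              ((|@NumberField.discr M _ h| : ℤ) : ℝ) ≤ B * ((|NumberField.discr ℚ| : ℤ) : ℝ) ^ n}
          => Nonempty (L.1 ≃ₐ[ℚ] L'.1))) : ℕ) : ℝ))
        (fun B : ℝ => c * B ^ (1 / m : ℝ) * Real.log B ^
          (Nat.card {c : ConjClasses G // ∃ g : G, ConjClasses.mk g = c ∧ g ≠ 1 ∧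
            (g : Equiv.Perm (Fin n)).support.card -
              Multiset.card (g : Equiv.Perm (Fin n)).cycleType = m} - 1)) := by
  exact final2_of hmain struct2 hcount hind_perm (fun D _ H0 h => exists_wt D H0 h)
    n G hne htr h4 hc m hm

/-- the final count, from the count of the homomorphisms -/
theorem final2_of3
    (hmain : ∀ (D : Dt) (H0 : Subgroup (Ext D)) (w : Wt D), w.ind = hind H0 →
      ∃ C : ℝ, 0 < C ∧ Tendsto (fun X : ℝ =>
        (Nat.card {ρ : Gam →* Ext D // Function.Surjective ρ ∧ IsLocallyConstant ρ ∧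
          (dabs (fld (H0.comap ρ)) : ℝ) ≤ X} : ℝ) / (X ^ (1 / w.m : ℝ) * Real.log X ^ (w.b - 1)))
        atTop (nhds C))
    (n : ℕ) (G : Subgroup (Equiv.Perm (Fin n)))
    (hne : G ≠ ⊥) (htr : MulAction.IsPretransitive G (Fin n))
    (h4 : ∀ x : G, x ^ 4 = 1) (hc : ∀ x y : G, x ^ 2 * y = y * x ^ 2) (m : ℕ)
    (hm : IsLeast {j | ∃ g ∈ G, g ≠ 1 ∧ g.support.card - Multiset.card g.cycleType = j} m) :
    ∃ c : ℝ, 0 < c ∧
      Asymptotics.IsEquivalent Filter.atTop
        (fun B : ℝ => ((Nat.card (Quot (fun L L' : {M : IntermediateField ℚ (AlgebraicClosure ℚ) //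
            Module.finrank ℚ M = n ∧
            (∃ e : (M →ₐ[ℚ] AlgebraicClosure ℚ) ≃ Fin n, ∀ π : Equiv.Perm (Fin n),
               π ∈ G ↔ ∃ σ : AlgebraicClosure ℚ ≃ₐ[ℚ] AlgebraicClosure ℚ,
                 ∀ φ : M →ₐ[ℚ] AlgebraicClosure ℚ, e (σ.toAlgHom.comp φ) = π (e φ)) ∧
            ∃ h : NumberField M,
              ((|@NumberField.discr M _ h| : ℤ) : ℝ) ≤ B * ((|NumberField.discr ℚ| : ℤ) : ℝ) ^ n}
          => Nonempty (L.1 ≃ₐ[ℚ] L'.1))) : ℕ) : ℝ))
        (fun B : ℝ => c * B ^ (1 / m : ℝ) * Real.log B ^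
          (Nat.card {c : ConjClasses G // ∃ g : G, ConjClasses.mk g = c ∧ g ≠ 1 ∧
            (g : Equiv.Perm (Fin n)).support.card -
              Multiset.card (g : Equiv.Perm (Fin n)).cycleType = m} - 1)) := by
  exact final2_of2 hmain count_homs2 n G hne htr h4 hc m hm

/-- the final count -/
theorem result (n : ℕ) (G : Subgroup (Equiv.Perm (Fin n)))
    (hne : G ≠ ⊥) (htr : MulAction.IsPretransitive G (Fin n))
    (h4 : ∀ x : G, x ^ 4 = 1) (hc : ∀ x y : G, x ^ 2 * y = y * x ^ 2) (m : ℕ)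
    (hm : IsLeast {j | ∃ g ∈ G, g ≠ 1 ∧ g.support.card - Multiset.card g.cycleType = j} m) :
    ∃ c : ℝ, 0 < c ∧
      Asymptotics.IsEquivalent Filter.atTop
        (fun B : ℝ => ((Nat.card (Quot (fun L L' : {M : IntermediateField ℚ (AlgebraicClosure ℚ) //
            Module.finrank ℚ M = n ∧
            (∃ e : (M →ₐ[ℚ] AlgebraicClosure ℚ) ≃ Fin n, ∀ π : Equiv.Perm (Fin n),
               π ∈ G ↔ ∃ σ : AlgebraicClosure ℚ ≃ₐ[ℚ] AlgebraicClosure ℚ,
                 ∀ φ : M →ₐ[ℚ] AlgebraicClosure ℚ, e (σ.toAlgHom.comp φ) = π (e φ)) ∧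
            ∃ h : NumberField M,
              ((|@NumberField.discr M _ h| : ℤ) : ℝ) ≤ B * ((|NumberField.discr ℚ| : ℤ) : ℝ) ^ n}
          => Nonempty (L.1 ≃ₐ[ℚ] L'.1))) : ℕ) : ℝ))
        (fun B : ℝ => c * B ^ (1 / m : ℝ) * Real.log B ^
          (Nat.card {c : ConjClasses G // ∃ g : G, ConjClasses.mk g = c ∧ g ≠ 1 ∧
            (g : Equiv.Perm (Fin n)).support.card -
              Multiset.card (g : Equiv.Perm (Fin n)).cycleType = m} - 1)) :=
  final2_of3 (fun D H0 w hw => main_dat2 D H0 w hw) n G hne htr h4 hc m hm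

end Pool.Agent.H98.ML
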