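import Pool.Agent.H98.ML.FDefs
import Pool.Agent.H98.ML.HomParam2
import Pool.Agent.H98.ML.Embed2
import Pool.Agent.H98.MK.CountParamA

/-!
# Project MK2 (MP_a3214d), row M7 (helper18): counting surjections by parameters

The statement is derived from the statements of the rows M4 and M6, taken as hypotheses.
-/

set_option autoImplicit false

open scoped BigOperators

namespace Pool.Agent.H98.ML

open Pool.Agent.H98.MK (Om Gam dabs fld chi dd adm par lg eps par_hom par_lc mfun z12 dabs_pos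
  ker_open m7_fact_prod m7_prod_ne_zero m7_z12_one m7_z12_two m7_z12_adm par_injective)

/-! ### the index of the neutral element -/

theorem m7_norb_one {G : Type} [Group G] (H : Subgroup G) : norb H 1 = H.index := by
  unfold norb Subgroup.index
  symm
  refine Nat.card_congr (Equiv.ofBijective
    (fun x : G ⧸ H => (Quotient.mk'' x : MulAction.orbitRel.Quotient (Subgroup.zpowers (1 : G))
      (G ⧸ H))) ⟨?_, ?_⟩)
  · intro a b hab
    have h1 : (MulAction.orbitRel (Subgroup.zpowers (1 : G)) (G ⧸ H)) a b := Quotient.exact' hab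
    rw [MulAction.orbitRel_apply] at h1
    obtain ⟨⟨g, hg⟩, h2⟩ := h1
    rw [Subgroup.zpowers_one_eq_bot, Subgroup.mem_bot] at hg
    subst hg
    rw [← h2]
    exact one_smul _ b
  · intro y
    induction y using Quotient.inductionOn' with
    | h a => exact ⟨a, rfl⟩

theorem m7_hind_one {G : Type} [Group G] (H : Subgroup G) : hind H 1 = 0 := by
  unfold hind
  rw [m7_norb_one, Nat.sub_self]

/-! ### factorizations -/

theorem m7_gfun_prime {D : Dt} (x : ℕ →₀ D.V) (z : ℕ →₀ D.Z) (hx : adm x) (hz : adm z)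
    (g : Ext D) [DecidablePred fun p : ℕ => p ≠ 1 ∧ p ≠ 2 ∧ x p = g.v ∧ z p = g.z] :
    ∀ p ∈ (x.support ∪ z.support).filter
      (fun p => p ≠ 1 ∧ p ≠ 2 ∧ x p = g.v ∧ z p = g.z), p.Prime := by
  intro p hp
  rw [Finset.mem_filter, Finset.mem_union, Finsupp.mem_support_iff, Finsupp.mem_support_iff] at hp
  rcases hp.1 with h | h
  · rcases hx p h with h1 | h1
    · exact absurd h1 hp.2.1
    · exact h1
  · rcases hz p h with h1 | h1
    · exact absurd h1 hp.2.1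
    · exact h1

theorem m7_gfun_ne_zero {D : Dt} (x : ℕ →₀ D.V) (z : ℕ →₀ D.Z) (hx : adm x) (hz : adm z)
    (g : Ext D) : gfun x z g ≠ 0 := by
  classical
  unfold gfun
  exact m7_prod_ne_zero _ (m7_gfun_prime x z hx hz g)

theorem m7_gfun_fact {D : Dt} (x : ℕ →₀ D.V) (z : ℕ →₀ D.Z) (hx : adm x) (hz : adm z)
    (g : Ext D) (q : ℕ) (h1 : q ≠ 1)
    [Decidable (q ≠ 2 ∧ (x q ≠ 0 ∨ z q ≠ 0) ∧ g = ⟨x q, z q⟩)] :
    (gfun x z g).factorization q =
      if q ≠ 2 ∧ (x q ≠ 0 ∨ z q ≠ 0) ∧ g = ⟨x q, z q⟩ then 1 else 0 := by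
  classical
  unfold gfun
  rw [m7_fact_prod _ (m7_gfun_prime x z hx hz g)]
  congr 1
  rw [Finset.mem_filter, Finset.mem_union, Finsupp.mem_support_iff, Finsupp.mem_support_iff,
    Ext.ext_iff]
  simp only [eq_iff_iff]
  constructor
  · rintro ⟨h2, -, h3, h4, h5⟩
    exact ⟨h3, h2, h4.symm, h5.symm⟩
  · rintro ⟨h3, h2, h4, h5⟩
    exact ⟨h2, h1, h3, h4.symm, h5.symm⟩

theorem m7_szG_ne_zero {D : Dt} (H0 : Subgroup (Ext D)) (x : ℕ →₀ D.V) (z : ℕ →₀ D.Z)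
    (hx : adm x) (hz : adm z) : szG H0 x z ≠ 0 := by
  unfold szG
  exact Finset.prod_ne_zero_iff.mpr fun g _ => pow_ne_zero _ (m7_gfun_ne_zero x z hx hz g)

theorem m7_szG_fact {D : Dt} (H0 : Subgroup (Ext D)) (x : ℕ →₀ D.V) (z : ℕ →₀ D.Z)
    (hx : adm x) (hz : adm z) (q : ℕ) (hq : q.Prime) :
    (szG H0 x z).factorization q = if q = 2 then 0 else hind H0 ⟨x q, z q⟩ := by
  classical
  unfold szG
  rw [Nat.factorization_prod (fun g _ => pow_ne_zero _ (m7_gfun_ne_zero x z hx hz g)),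
    Finsupp.finsetSum_apply]
  simp only [Nat.factorization_pow, Finsupp.smul_apply, smul_eq_mul,
    m7_gfun_fact x z hx hz _ q hq.ne_one]
  by_cases h2 : q = 2
  · simp [h2]
  · rw [if_neg h2]
    by_cases h3 : x q ≠ 0 ∨ z q ≠ 0
    · have h4 : ∀ g : Ext D, (hind H0 g * if q ≠ 2 ∧ (x q ≠ 0 ∨ z q ≠ 0) ∧ g = ⟨x q, z q⟩
          then 1 else 0) = if g = ⟨x q, z q⟩ then hind H0 g else 0 := by
        intro g
        by_cases h : g = ⟨x q, z q⟩
        · rw [if_pos h, if_pos ⟨h2, h3, h⟩, mul_one]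
        · rw [if_neg h, if_neg (fun h' => h h'.2.2), mul_zero]
      rw [Finset.sum_congr rfl fun g _ => h4 g, Finset.sum_ite_eq', if_pos (Finset.mem_univ _)]
    · have h4 : ∀ g : Ext D, (hind H0 g * if q ≠ 2 ∧ (x q ≠ 0 ∨ z q ≠ 0) ∧ g = ⟨x q, z q⟩
          then 1 else 0) = 0 := by
        intro g
        rw [if_neg (fun h' => h3 h'.2.1), mul_zero]
      rw [Finset.sum_congr rfl fun g _ => h4 g, Finset.sum_const_zero]
      push Not at h3
      rw [h3.1, h3.2]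
      exact (m7_hind_one H0).symm

/-! ### the absolute value of the discriminant -/

/-- The statement of the row M4 on odd exponents. -/
def M7EO : Prop := ∀ {D : Dt} (H0 : Subgroup (Ext D)) {x : ℕ →₀ D.V} {f : Gam → D.Z} (_ : adm x)
    (h : IsNormal D x f) (z : ℕ →₀ D.Z) (_ : adm z)
    (_ : Function.Surjective (lh (h.toIsLift.add z))) (p : ℕ) (_ : p.Prime) (_ : p ≠ 2),
    ex H0 p (lh (h.toIsLift.add z)) = hind H0 ⟨x p, z p⟩

/-- The statement of the row M6 on twists. -/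
def M7C2 : Prop := ∀ {D : Dt} (H0 : Subgroup (Ext D)) {x : ℕ →₀ D.V} {f : Gam → D.Z}
    (_ : adm x) (_ : Submodule.span (ZMod 2) (Set.range x) = ⊤) (h : IsLift D x f)
    (z z' : ℕ →₀ D.Z) (_ : adm z) (_ : adm z') (_ : z 1 = z' 1) (_ : z 2 = z' 2),
    ex H0 2 (lh (h.add z)) = ex H0 2 (lh (h.add z'))

theorem m7_comap_open {H : Type} [Group H] (ρ : Gam →* H) (h : IsLocallyConstant ρ)
    (U : Subgroup H) : IsOpen ((U.comap ρ : Subgroup Gam) : Set Gam) := h (U : Set H)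

theorem m7_dabs (EO : M7EO) (C2 : M7C2) {D : Dt} (H0 : Subgroup (Ext D)) {x : ℕ →₀ D.V}
    {f : Gam → D.Z} (hx : adm x) (hsp : Submodule.span (ZMod 2) (Set.range x) = ⊤)
    (h : IsNormal D x f) (z : ℕ →₀ D.Z) (hz : adm z)
    (hs : Function.Surjective (lh (h.toIsLift.add z))) :
    dabs (fld (H0.comap (lh (h.toIsLift.add z)))) =
      2 ^ ex H0 2 (lh (h.toIsLift.add (z12 (z 1) (z 2)))) * szG H0 x z := by
  classical
  set ρ := lh (h.toIsLift.add z) with hρ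
  have hpos : 0 < dabs (fld (H0.comap ρ)) := dabs_pos _ (m7_comap_open ρ (lh_lc _) H0)
  have hc : ex H0 2 (lh (h.toIsLift.add (z12 (z 1) (z 2)))) = ex H0 2 ρ := by
    rw [← C2 H0 hx hsp h.toIsLift z (z12 (z 1) (z 2)) hz (m7_z12_adm _ _) (m7_z12_one _ _).symm
      (m7_z12_two _ _).symm]
  rw [hc]
  have hsz := m7_szG_ne_zero H0 x z hx hz
  refine Nat.eq_of_factorization_eq hpos.ne' (mul_ne_zero (pow_ne_zero _ two_ne_zero) hsz) ?_
  intro q
  by_cases hq : q.Prime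
  · rw [Nat.factorization_mul (pow_ne_zero _ two_ne_zero) hsz, Finsupp.add_apply,
      Nat.factorization_pow, Finsupp.smul_apply, smul_eq_mul, Nat.prime_two.factorization,
      m7_szG_fact H0 x z hx hz q hq]
    by_cases h2 : q = 2
    · subst h2
      rw [Finsupp.single_eq_same, mul_one, if_pos rfl, add_zero]
      rfl
    · rw [Finsupp.single_eq_of_ne h2, mul_zero, zero_add, if_neg h2]
      exact EO H0 hx h z hz hs q hq h2
  · rw [Nat.factorization_eq_zero_of_not_prime _ hq, Nat.factorization_eq_zero_of_not_prime _ hq]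

/-! ### the count -/

theorem count_param_of (EO : M7EO) (C2 : M7C2)
    (NEC : ∀ {D : Dt} {x : ℕ →₀ D.V} {f : Gam → D.Z} (_ : adm x) (_ : IsLift D x f), Sol D x)
    (EN : ∀ {D : Dt} {x : ℕ →₀ D.V} {f : Gam → D.Z} (_ : adm x) (_ : IsLift D x f),
      ∃ f' : Gam → D.Z, IsNormal D x f')
    (D : Dt) (H0 : Subgroup (Ext D)) : ∃ cx : (ℕ →₀ D.V) → D.Z → D.Z → ℕ,
    (∀ x : ℕ →₀ D.V, adm x → Sol D x → Submodule.span (ZMod 2) (Set.range x) = ⊤ →
      ∃ (f : Gam → D.Z) (h : IsNormal D x f),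
        ∀ z1 z2, cx x z1 z2 = ex H0 2 (lh (h.toIsLift.add (z12 z1 z2)))) ∧
    ∀ X : ℝ, Nat.card {ρ : Gam →* Ext D // Function.Surjective ρ ∧ IsLocallyConstant ρ ∧
        (dabs (fld (H0.comap ρ)) : ℝ) ≤ X} =
      Nat.card {w : (ℕ →₀ D.V) × (ℕ →₀ D.Z) // adm w.1 ∧ adm w.2 ∧ Sol D w.1 ∧
        Submodule.span (ZMod 2) (Set.range w.1) = ⊤ ∧
        ((2 ^ cx w.1 (w.2 1) (w.2 2) * szG H0 w.1 w.2 : ℕ) : ℝ) ≤ X} := by
  classical
  have hex : ∀ x : ℕ →₀ D.V, ∃ f : Gam → D.Z, adm x → Sol D x → IsNormal D x f := by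
    intro x
    by_cases hx : adm x
    · by_cases hs : Sol D x
      · obtain ⟨f, hf⟩ := embed2 D x hx hs
        obtain ⟨f', hf'⟩ := EN hx hf
        exact ⟨f', fun _ _ => hf'⟩
      · exact ⟨0, fun _ h => absurd h hs⟩
    · exact ⟨0, fun h => absurd h hx⟩
  choose F hF using hex
  have hcx : ∃ cx : (ℕ →₀ D.V) → D.Z → D.Z → ℕ, ∀ (x : ℕ →₀ D.V) (hx : adm x) (hs : Sol D x)
      (z1 z2 : D.Z), cx x z1 z2 = ex H0 2 (lh ((hF x hx hs).toIsLift.add (z12 z1 z2))) := by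
    refine ⟨fun x z1 z2 => if h : adm x ∧ Sol D x then
      ex H0 2 (lh ((hF x h.1 h.2).toIsLift.add (z12 z1 z2))) else 0, fun x hx hs z1 z2 => ?_⟩
    simp only [dif_pos (⟨hx, hs⟩ : adm x ∧ Sol D x)]
  obtain ⟨cx, hcx⟩ := hcx
  refine ⟨cx, fun x hx hs _ => ⟨F x, hF x hx hs, hcx x hx hs⟩, fun X => ?_⟩
  symm
  refine Nat.card_congr (Equiv.ofBijective (fun w => ⟨lh ((hF w.1.1 w.2.1 w.2.2.2.1).toIsLift.add
    w.1.2), ?_, lh_lc _, ?_⟩) ⟨?_, ?_⟩)
  · exact (lh_surj w.2.1 _).mpr w.2.2.2.2.1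
  · have hsur := (lh_surj w.2.1 ((hF w.1.1 w.2.1 w.2.2.2.1).toIsLift.add w.1.2)).mpr
      w.2.2.2.2.1
    have h1 := m7_dabs EO C2 H0 w.2.1 w.2.2.2.2.1 (hF w.1.1 w.2.1 w.2.2.2.1) w.1.2 w.2.2.1 hsur
    rw [h1, ← hcx w.1.1 w.2.1 w.2.2.2.1]
    exact w.2.2.2.2.2
  · rintro ⟨⟨x, z⟩, hx, hz, hs, hsp, hX⟩ ⟨⟨x', z'⟩, hx', hz', hs', hsp', hX'⟩ he
    have h1 := congrArg Subtype.val he
    simp only at h1
    obtain ⟨h2, h3⟩ := lh_inj _ _ hx hx' h1
    simp only at h2 h3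
    subst h2
    have h4 : par z = par z' := by
      funext σ
      have h5 := congrFun h3 σ
      exact add_left_cancel h5
    have h5 := par_injective z z' hz hz' h4
    subst h5
    rfl
  · rintro ⟨ρ, hsur, hlc, hX⟩
    obtain ⟨x, f, h, hx, rfl⟩ := hom_param D ρ hlc
    have hs := NEC hx h
    obtain ⟨z, hz, hfz⟩ := lift_diff (hF x hx hs).toIsLift h
    have hf : f = fun σ => F x σ + par z σ := funext hfz
    subst hf
    have hsp := (lh_surj hx h).mp hsur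
    have h1 := m7_dabs EO C2 H0 hx hsp (hF x hx hs) z hz hsur
    refine ⟨⟨(x, z), hx, hz, hs, hsp, ?_⟩, rfl⟩
    rw [hcx x hx hs]
    rw [h1] at hX
    exact hX

end Pool.Agent.H98.ML
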