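import Pool.Agent.H98.ML.FSgn
import Pool.Agent.H98.ML.FExpand

/-!
# Project MK2, row P5: the main supports, the summand
-/

set_option autoImplicit false

open scoped BigOperators

namespace Pool.Agent.H98.ML

open Pool.Agent.H98.MK (psi jp lg eps sg p8 ss_add ss_sum xp_sg xp_jac_primes_left
  xp_jac_right xp_jac_left xp_ite_prod)

variable {D : Dt}

/-- the bilinear form of a choice of dual vectors -/
def uuE (ζ : D.V → D.Z) (u v : D.V) : ZMod 2 := ζ u ⬝ᵥ D.B u v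

theorem uu_e {w : Wt D} {ζ : D.V → D.Z} {σ : Finset D.P} (hσ : σ ⊆ w.UU ζ) {i j : D.P}
    (hi : i ∈ σ) (hj : j ∈ σ) : D.e i j = uuE ζ i.1.v j.1.v := by
  classical
  have h1 := (Finset.mem_filter.1 (hσ hi)).2
  have h2 := ((fx_mem_actM w j).1 (Finset.mem_filter.1 (hσ hj)).1).1.1
  have h3 : (i.2 + ζ i.1.v) ⬝ᵥ D.B i.1.v j.1.v = 0 := h1 j.1 h2
  rw [add_dotProduct] at h3
  unfold Dt.e uuE
  exact CharTwo.add_eq_zero.1 h3

theorem uu_symm {w : Wt D} {ζ : D.V → D.Z} (hζ : w.Cmp ζ) {σ : Finset D.P} (hσ : σ ⊆ w.UU ζ)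
    {i j : D.P} (hi : i ∈ σ) (hj : j ∈ σ) :
    uuE ζ i.1.v j.1.v = uuE ζ j.1.v i.1.v := by
  classical
  have h1 := ((fx_mem_actM w i).1 (Finset.mem_filter.1 (hσ hi)).1).1.1
  have h2 := ((fx_mem_actM w j).1 (Finset.mem_filter.1 (hσ hj)).1).1.1
  exact hζ i.1 j.1 h1 h2

theorem uu_lg_prod {ι : Type} (m : ℕ) (s : Finset ι) (f : ι → ℕ)
    (hs : ∀ i ∈ s, Nat.Coprime (f i) m) :
    ∑ i ∈ s, lg (jacobiSym (f i) m) = lg (jacobiSym ((∏ i ∈ s, f i : ℕ) : ℤ) m) := by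
  classical
  induction s using Finset.induction_on with
  | empty => simp [jacobiSym.one_left, lg]
  | insert a s ha ih =>
    rw [Finset.sum_insert ha, Finset.prod_insert ha,
      ih fun p hp => hs p (Finset.mem_insert_of_mem hp)]
    push_cast
    rw [jacobiSym.mul_left, fx_lg_mul]
    · exact jacobiSym.eq_one_or_neg_one (hs a (Finset.mem_insert_self a s))
    · have h1 : Nat.Coprime (∏ p ∈ s, f p) m :=
        Nat.Coprime.prod_left fun p hp => hs p (Finset.mem_insert_of_mem hp)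
      have h2 : ((∏ p ∈ s, f p : ℕ) : ℤ).gcd m = 1 := h1
      have h3 := jacobiSym.eq_one_or_neg_one h2
      push_cast at h3
      exact h3

theorem uu_frob_one (π : Pr D) : frob π 1 = 0 := by
  funext k
  simp [frob, jacobiSym.one_left, lg]

/-- the symbols over all pairs of indices, grouped by vectors -/
theorem uu_group (x : D.P → ℕ) (hx : ∀ i, x i ≠ 0) (ζ : D.V → D.Z) :
    (∏ i, ∏ j, if uuE ζ i.1.v j.1.v = 1 then jacobiSym (x i) (x j) else 1) =
      ∏ u : D.V, ∏ v : D.V, if uuE ζ u v = 1 then jacobiSym (D.mof x u) (D.mof x v) else 1 := by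
  rw [fx_prod]
  refine Finset.prod_congr rfl fun u _ => ?_
  have h1 : ∀ (z : D.Z) (ξ : D.Z),
      (∏ j, if uuE ζ u (j : D.P).1.v = 1 then jacobiSym (x (⟨u, z⟩, ξ)) (x j) else 1) =
      ∏ v : D.V, if uuE ζ u v = 1 then jacobiSym (x (⟨u, z⟩, ξ)) (D.mof x v) else 1 := by
    intro z ξ
    rw [fx_prod]
    refine Finset.prod_congr rfl fun v _ => ?_
    simp only
    split_ifs with h
    · by_cases hv : v = 0
      · subst hv
        unfold uuE at h
        rw [fx_B_zero, dotProduct_zero] at h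
        exact absurd h zero_ne_one
      · rw [fx_mof x hv, xp_jac_right _ _ _ fun z _ => Finset.prod_ne_zero_iff.2 fun ξ _ => hx _]
        refine Finset.prod_congr rfl fun z _ => ?_
        rw [xp_jac_right _ _ _ fun ξ _ => hx _]
    · simp
  simp only [h1]
  have h2 : ∀ z : D.Z, (∏ ξ : D.Z, ∏ v : D.V,
      if uuE ζ u v = 1 then jacobiSym (x (⟨u, z⟩, ξ)) (D.mof x v) else 1) =
      ∏ v : D.V, ∏ ξ : D.Z,
        if uuE ζ u v = 1 then jacobiSym (x (⟨u, z⟩, ξ)) (D.mof x v) else 1 :=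
    fun z => Finset.prod_comm
  simp only [h2]
  rw [Finset.prod_comm]
  refine Finset.prod_congr rfl fun v _ => ?_
  simp only [xp_ite_prod]
  split_ifs with h
  · by_cases hu : u = 0
    · subst hu
      unfold uuE at h
      rw [fx_B_zero_left, dotProduct_zero] at h
      exact absurd h zero_ne_one
    · rw [fx_mof x hu, ← xp_jac_left]
      refine Finset.prod_congr rfl fun z _ => ?_
      rw [← xp_jac_left]
  · rfl

theorem uu_cop (x : D.P → ℕ) (hx : Squarefree (∏ i, x i)) {u v : D.V} (hu : u ≠ 0) (hv : v ≠ 0)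
    (huv : u ≠ v) : Nat.Coprime (D.mof x u) (D.mof x v) := by
  rw [fx_mof x hu, fx_mof x hv]
  refine Nat.Coprime.prod_left fun z _ => Nat.Coprime.prod_left fun ξ _ =>
    Nat.Coprime.prod_right fun z' _ => Nat.Coprime.prod_right fun ξ' _ => ?_
  refine Nat.coprime_of_dvd fun p hp h1 h2 => ?_
  refine fx_cop x hx (⟨u, z⟩, ξ) (⟨v, z'⟩, ξ') (fun h => huv ?_) hp h1 h2
  have h3 := congrArg (fun i : D.P => i.1.v) h
  exact h3

theorem uu_mod {n : ℕ} (h : (n : ZMod 8) = 1) : n % 4 = 1 ∧ Odd n := by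
  have h1 : ((n : ℕ) : ZMod 8) = ((1 : ℕ) : ZMod 8) := by rw [h, Nat.cast_one]
  have h2 := (ZMod.natCast_eq_natCast_iff _ _ _).1 h1
  unfold Nat.ModEq at h2
  refine ⟨by omega, Nat.odd_iff.2 (by omega)⟩

/-- the symbols cancel by reciprocity -/
theorem uu_one {w : Wt D} (π : Pr D) {ζ : D.V → D.Z} (hζ : w.Cmp ζ) {σ : Finset D.P}
    (hσ : σ ⊆ w.UU ζ) (x : D.P → ℕ) (hx1 : ∀ i, i ∉ σ → x i = 1)
    (hx : Squarefree (∏ i, x i)) (hc : Cnd π (D.mof x)) :
    (∏ u : D.V, ∏ v : D.V, if uuE ζ u v = 1 then jacobiSym (D.mof x u) (D.mof x v) else 1) =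
      1 := by
  classical
  have hsup : ∀ u : D.V, D.mof x u ≠ 1 → ∃ i ∈ σ, i.1.v = u := by
    intro u hu
    by_contra hne
    push Not at hne
    apply hu
    by_cases hu0 : u = 0
    · rw [hu0, fx_mof_zero]
    · rw [fx_mof x hu0]
      refine Finset.prod_eq_one fun z _ => Finset.prod_eq_one fun ξ _ => hx1 _ fun h => ?_
      exact hne _ h rfl
  have hself : ∀ u : D.V, uuE ζ u u = 0 := fun u => by
    unfold uuE
    rw [fx_B_self, dotProduct_zero]
  rw [← Fintype.prod_prod_type'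
    (fun u v : D.V => if uuE ζ u v = 1 then jacobiSym (D.mof x u) (D.mof x v) else 1)]
  refine Finset.prod_involution (fun a _ => (a.2, a.1)) ?_ ?_ ?_ ?_
  · rintro ⟨u, v⟩ _
    simp only
    by_cases huv : u = v
    · subst huv
      rw [hself u, if_neg (by decide)]
      rfl
    by_cases hu1 : D.mof x u = 1
    · rw [hu1, Nat.cast_one, jacobiSym.one_left, jacobiSym.one_right]
      simp
    by_cases hv1 : D.mof x v = 1
    · rw [hv1, Nat.cast_one, jacobiSym.one_left, jacobiSym.one_right]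
      simp
    obtain ⟨i, hi, rfl⟩ := hsup u hu1
    obtain ⟨j, hj, rfl⟩ := hsup v hv1
    rw [uu_symm hζ hσ hj hi]
    split_ifs with h
    · have hu0 : i.1.v ≠ 0 := fun h0 => hu1 (by rw [h0, fx_mof_zero])
      have hv0 : j.1.v ≠ 0 := fun h0 => hv1 (by rw [h0, fx_mof_zero])
      have h1 := uu_mod (hc i.1.v).1
      have h2 := uu_mod (hc j.1.v).1
      rw [jacobiSym.quadratic_reciprocity_one_mod_four h1.1 h2.2]
      have h3 := uu_cop x hx hu0 hv0 huv
      have h4 : ((D.mof x j.1.v : ℕ) : ℤ).gcd (D.mof x i.1.v) = 1 := by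
        rw [Int.gcd_natCast_natCast]
        exact h3.symm
      rcases jacobiSym.eq_one_or_neg_one h4 with h5 | h5
      · rw [h5]; rfl
      · rw [h5]; rfl
    · rfl
  · rintro ⟨u, v⟩ _ h1 h2
    have h3 : u = v := (Prod.ext_iff.1 h2).2
    subst h3
    apply h1
    simp only
    rw [hself u, if_neg (by decide)]
  · intro _ _
    exact Finset.mem_univ _
  · rintro ⟨u, v⟩ _
    rfl

/-- the auxiliary signs of the choice cancel -/
theorem uu_aux (π : Pr D) (ζ : D.V → D.Z) (x : D.P → ℕ)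
    (hk : ∀ i k, Nat.Coprime (x i) (π.p k)) (hc : Cnd π (D.mof x)) :
    ∏ i : D.P, sg (ζ i.1.v ⬝ᵥ D.B i.1.v (frob π (x i))) = 1 := by
  rw [fx_prod]
  refine Finset.prod_eq_one fun u _ => ?_
  by_cases hu : u = 0
  · subst hu
    refine Finset.prod_eq_one fun z _ => Finset.prod_eq_one fun ξ _ => ?_
    show sg (ζ 0 ⬝ᵥ D.B 0 (frob π (x (⟨0, z⟩, ξ)))) = 1
    rw [fx_B_zero_left, dotProduct_zero]
    rfl
  · show ∏ z : D.Z, ∏ ξ : D.Z, sg (ζ u ⬝ᵥ D.B u (frob π (x (⟨u, z⟩, ξ)))) = 1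
    simp only [← ss_sum, ← dotProduct_sum]
    have h1 : ∑ z : D.Z, ∑ ξ : D.Z, D.B u (frob π (x (⟨u, z⟩, ξ))) = 0 := by
      have h2 : ∑ z : D.Z, ∑ ξ : D.Z, frob π (x (⟨u, z⟩, ξ)) = 0 := by
        funext k
        rw [Finset.sum_apply]
        have h3 : ∀ z : D.Z, (∑ ξ : D.Z, frob π (x (⟨u, z⟩, ξ))) k =
            lg (jacobiSym ((∏ ξ : D.Z, x (⟨u, z⟩, ξ) : ℕ) : ℤ) (π.p k)) := by
          intro z
          rw [Finset.sum_apply]
          exact uu_lg_prod (π.p k) Finset.univ (fun ξ : D.Z => x (⟨u, z⟩, ξ)) fun ξ _ => hk _ k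
        rw [Finset.sum_congr rfl fun z _ => h3 z,
          uu_lg_prod (π.p k) Finset.univ (fun z : D.Z => ∏ ξ : D.Z, x (⟨u, z⟩, ξ)) fun z _ =>
            Nat.Coprime.prod_left fun ξ _ => hk _ k, ← fx_mof x hu, (hc u).2 k]
        simp [lg]
      calc ∑ z : D.Z, ∑ ξ : D.Z, D.B u (frob π (x (⟨u, z⟩, ξ))) =
          fxB u (∑ z : D.Z, ∑ ξ : D.Z, frob π (x (⟨u, z⟩, ξ))) := by
            rw [map_sum]
            refine Finset.sum_congr rfl fun z _ => ?_
            rw [map_sum]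
            rfl
        _ = 0 := by rw [h2, map_zero]
    rw [h1, dotProduct_zero]
    rfl

/-- the sign of a tuple supported in `UU` -/
theorem uu_sgF {w : Wt D} (π : Pr D) {ζ : D.V → D.Z} (hζ : w.Cmp ζ) {σ : Finset D.P}
    (hσ : σ ⊆ w.UU ζ) (x : D.P → ℕ) (hx1 : ∀ i, i ∉ σ → x i = 1)
    (hx : Squarefree (∏ i, x i)) (hk : ∀ i k, Nat.Coprime (x i) (π.p k))
    (hc : Cnd π (D.mof x)) :
    Wt.sgF π x = ∏ i ∈ σ, sg ((i.2 + ζ i.1.v) ⬝ᵥ D.B i.1.v (frob π (x i))) := by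
  classical
  unfold Wt.sgF
  have h1 : (∏ i, ∏ j, if D.e i j = 1 then jacobiSym (x i) (x j) else 1) =
      ∏ i : D.P, ∏ j : D.P, if uuE ζ i.1.v j.1.v = 1 then jacobiSym (x i) (x j) else 1 := by
    refine Finset.prod_congr rfl fun i _ => Finset.prod_congr rfl fun j _ => ?_
    by_cases hi : i ∈ σ
    · by_cases hj : j ∈ σ
      · rw [uu_e hσ hi hj]
      · rw [hx1 j hj, jacobiSym.one_right]
        simp
    · rw [hx1 i hi, Nat.cast_one, jacobiSym.one_left]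
      simp
  have hne : ∀ i, x i ≠ 0 := fun i => (fx_sqf x hx i).ne_zero
  rw [h1, uu_group x hne ζ, uu_one π hζ hσ x hx1 hx hc, one_mul]
  have h2 : ∏ i ∈ σ, sg ((i.2 + ζ i.1.v) ⬝ᵥ D.B i.1.v (frob π (x i))) =
      ∏ i : D.P, sg ((i.2 + ζ i.1.v) ⬝ᵥ D.B i.1.v (frob π (x i))) := by
    refine Finset.prod_subset (Finset.subset_univ σ) fun i _ hi => ?_
    rw [hx1 i hi, uu_frob_one, fx_B_zero, dotProduct_zero]
    rfl
  rw [h2, ← mul_one (∏ i : D.P, sg (i.2 ⬝ᵥ D.B i.1.v (frob π (x i)))), ← uu_aux π ζ x hk hc,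
    ← Finset.prod_mul_distrib]
  refine Finset.prod_congr rfl fun i _ => ?_
  rw [← ss_add, add_dotProduct]

open Classical in
theorem FX_UU {D : Dt} (w : Wt D) (π : Pr D) (ζ : D.V → D.Z) (hζ : w.Cmp ζ) (σ : Finset D.P)
    (hσ : σ ⊆ w.UU ζ) (Y : ℝ) :
    Wt.FX π σ Y =
      ∑ x ∈ Fintype.piFinset (fun i : D.P => if i ∈ σ then Finset.Icc 2 ⌊Y⌋₊ else {1}),
        if Squarefree (2 * (∏ k, π.p k) * ∏ i, x i) ∧ (∏ i, (x i : ℝ)) ≤ Y ∧ Cnd π (D.mof x)
        then ((∏ i ∈ σ, sg ((i.2 + ζ i.1.v) ⬝ᵥ D.B i.1.v (frob π (x i))) : ℤ) : ℝ) else 0 := by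
  unfold Wt.FX
  refine Finset.sum_congr rfl fun x hx => ?_
  by_cases hc : Squarefree (2 * (∏ k, π.p k) * ∏ i, x i) ∧ (∏ i, (x i : ℝ)) ≤ Y ∧
      Cnd π (D.mof x)
  · rw [if_pos hc, if_pos hc]
    have hx1 : ∀ i, i ∉ σ → x i = 1 := by
      intro i hi
      have h1 := Fintype.mem_piFinset.1 hx i
      rwa [if_neg hi, Finset.mem_singleton] at h1
    rw [uu_sgF π hζ hσ x hx1 (hc.1.squarefree_of_dvd (dvd_mul_left _ _)) ?_ hc.2.2]
    intro i k
    have h4 : π.p k * x i ∣ 2 * (∏ k, π.p k) * ∏ i, x i :=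
      mul_dvd_mul ((Finset.dvd_prod_of_mem π.p (Finset.mem_univ k)).trans
        (dvd_mul_left _ _)) (Finset.dvd_prod_of_mem x (Finset.mem_univ i))
    exact (Nat.coprime_of_squarefree_mul (hc.1.squarefree_of_dvd h4)).symm
  · rw [if_neg hc, if_neg hc]

end Pool.Agent.H98.ML
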