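import Pool.Agent.H98.ML.PDefs

/-!
# Project MK2, row P9: the Frobenius vectors are equidistributed
-/

set_option autoImplicit false

open scoped BigOperators

namespace Pool.Agent.H98.ML

open Pool.Agent.H98.MK (lg)

variable {D : Dt}

theorem gl_lg_mul {a b : ℤ} (ha : a = 1 ∨ a = -1) (hb : b = 1 ∨ b = -1) :
    lg (a * b) = lg a + lg b := by
  rcases ha with rfl | rfl <;> rcases hb with rfl | rfl <;> decide

theorem gl_lg_inj {a b : ℤ} (ha : a = 1 ∨ a = -1) (hb : b = 1 ∨ b = -1) (h : lg a = lg b) :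
    a = b := by
  rcases ha with rfl | rfl <;> rcases hb with rfl | rfl <;> revert h <;> decide

/-- the product of the auxiliary primes -/
def gq (π : Pr D) : ℕ := ∏ k, π.p k

theorem gq_pos (π : Pr D) : 0 < gq π := Finset.prod_pos fun k _ => (π.prime k).pos

theorem gq_dvd (π : Pr D) (k : Fin D.r) : π.p k ∣ gq π :=
  Finset.dvd_prod_of_mem _ (Finset.mem_univ k)

theorem gl_odd (π : Pr D) (k : Fin D.r) : Odd (π.p k) := by
  rw [Nat.odd_iff]
  have := π.mod k
  omega

theorem gl_jac (π : Pr D) (k : Fin D.r) {n : ℕ} (h : Nat.Coprime n (π.p k)) :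
    jacobiSym n (π.p k) = 1 ∨ jacobiSym n (π.p k) = -1 :=
  jacobiSym.eq_one_or_neg_one (by rw [Int.gcd_natCast_natCast]; exact h)

theorem gl_frob_mul (π : Pr D) {m n : ℕ} (hm : ∀ k, Nat.Coprime m (π.p k))
    (hn : ∀ k, Nat.Coprime n (π.p k)) : frob π (m * n) = frob π m + frob π n := by
  funext k
  rw [Pi.add_apply]
  unfold frob
  rw [← gl_lg_mul (gl_jac π k (hm k)) (gl_jac π k (hn k)), ← jacobiSym.mul_left]
  push_cast
  rfl

theorem gl_frob_mod (π : Pr D) {m n : ℕ} (h : m ≡ n [MOD gq π]) : frob π m = frob π n := by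
  funext k
  unfold frob
  have h1 : m ≡ n [MOD π.p k] := h.of_dvd (gq_dvd π k)
  rw [jacobiSym.mod_left' (a₁ := (m : ℤ)) (a₂ := (n : ℤ)) (by exact_mod_cast h1)]

/-- the vector of a residue class -/
def gvec (π : Pr D) (a : ZMod (gq π)) : D.V := frob π a.val

theorem gl_gvec_nat (π : Pr D) (n : ℕ) : gvec π (n : ZMod (gq π)) = frob π n := by
  unfold gvec
  refine gl_frob_mod π ?_
  rw [ZMod.val_natCast]
  exact Nat.mod_modEq _ _

theorem gl_unit (π : Pr D) (a : (ZMod (gq π))ˣ) (k : Fin D.r) :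
    Nat.Coprime (a : ZMod (gq π)).val (π.p k) :=
  (ZMod.val_coe_unit_coprime a).coprime_dvd_right (gq_dvd π k)

theorem gl_gvec_mul (π : Pr D) (a b : (ZMod (gq π))ˣ) :
    gvec π ((a * b : (ZMod (gq π))ˣ) : ZMod (gq π)) = gvec π a + gvec π b := by
  have : NeZero (gq π) := ⟨(gq_pos π).ne'⟩
  unfold gvec
  rw [← gl_frob_mul π (gl_unit π a) (gl_unit π b)]
  refine gl_frob_mod π ?_
  rw [Units.val_mul, ZMod.val_mul]
  exact Nat.mod_modEq _ _

theorem gl_pair (π : Pr D) (s : Set (Fin D.r)) : s.Pairwise (Function.onFun Nat.Coprime π.p) := by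
  intro i _ j _ hij
  exact (Nat.coprime_primes (π.prime i) (π.prime j)).2 fun h => hij (π.inj h)

theorem gl_surj (π : Pr D) (κ : D.V) : ∃ a : (ZMod (gq π))ˣ, gvec π a = κ := by
  classical
  have h1 : ∀ k, ∃ n : ℕ, lg (jacobiSym n (π.p k)) = κ k ∧ Nat.Coprime n (π.p k) := by
    intro k
    have : Fact (π.p k).Prime := ⟨π.prime k⟩
    have : NeZero (π.p k) := ⟨(π.prime k).ne_zero⟩
    have h2 : κ k = 0 ∨ κ k = 1 := by
      generalize κ k = t
      revert t
      decide
    rcases h2 with h2 | h2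
    · refine ⟨1, ?_, Nat.coprime_one_left _⟩
      rw [h2]
      simp [lg]
    · have h3 : ringChar (ZMod (π.p k)) ≠ 2 := by
        rw [ZMod.ringChar_zmod_n]
        intro h4
        have := π.mod k
        omega
      obtain ⟨a, ha⟩ := quadraticChar_exists_neg_one h3
      have h4 : jacobiSym ((a.val : ℕ) : ℤ) (π.p k) = -1 := by
        rw [← jacobiSym.legendreSym.to_jacobiSym, legendreSym]
        rw [Int.cast_natCast, ZMod.natCast_zmod_val]
        exact ha
      refine ⟨a.val, ?_, ?_⟩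
      · rw [h4, h2]
        decide
      · by_contra h5
        have h6 : jacobiSym ((a.val : ℕ) : ℤ) (π.p k) = 0 :=
          jacobiSym.eq_zero_iff_not_coprime.2 (by rw [Int.gcd_natCast_natCast]; exact h5)
        rw [h6] at h4
        norm_num at h4
  choose f hf1 hf2 using h1
  obtain ⟨x, hx⟩ := Nat.chineseRemainderOfFinset f π.p Finset.univ
    (fun k _ => (π.prime k).ne_zero) (gl_pair π _)
  have hx' : ∀ k, x ≡ f k [MOD π.p k] := fun k => hx k (Finset.mem_univ k)
  have hc : ∀ k, Nat.Coprime x (π.p k) := by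
    intro k
    have h2 := (hx' k).gcd_eq
    have h3 := hf2 k
    unfold Nat.Coprime at h3 ⊢
    rw [h2, h3]
  have hcq : Nat.Coprime x (gq π) := Nat.Coprime.prod_right fun k _ => hc k
  refine ⟨ZMod.unitOfCoprime x hcq, ?_⟩
  rw [ZMod.coe_unitOfCoprime, gl_gvec_nat]
  funext k
  unfold frob
  rw [jacobiSym.mod_left' (a₁ := (x : ℤ)) (a₂ := (f k : ℤ)) (by exact_mod_cast hx' k)]
  exact hf1 k

/-- equidistribution -/
theorem gl_equi (π : Pr D) [NeZero (gq π)] (F : D.V → ℝ) :
    (Fintype.card D.V : ℝ) * ∑ a : (ZMod (gq π))ˣ, F (gvec π a) =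
      (gq π).totient * ∑ κ : D.V, F κ := by
  have h1 : ∀ κ : D.V, ∑ a : (ZMod (gq π))ˣ, F (gvec π a + κ) =
      ∑ a : (ZMod (gq π))ˣ, F (gvec π a) := by
    intro κ
    obtain ⟨t, ht⟩ := gl_surj π κ
    rw [← Equiv.sum_comp (Equiv.mulRight t) (fun a : (ZMod (gq π))ˣ => F (gvec π a))]
    refine Finset.sum_congr rfl fun a _ => ?_
    rw [Equiv.coe_mulRight, gl_gvec_mul, ht]
  calc (Fintype.card D.V : ℝ) * ∑ a : (ZMod (gq π))ˣ, F (gvec π a)
      = ∑ κ : D.V, ∑ a : (ZMod (gq π))ˣ, F (gvec π a + κ) := by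
        rw [Finset.sum_congr rfl fun κ _ => h1 κ, Finset.sum_const, Finset.card_univ,
          nsmul_eq_mul]
    _ = ∑ a : (ZMod (gq π))ˣ, ∑ κ : D.V, F κ := by
        rw [Finset.sum_comm]
        refine Finset.sum_congr rfl fun a _ => ?_
        exact Equiv.sum_comp (Equiv.addLeft (gvec π (a : ZMod (gq π)))) F
    _ = (gq π).totient * ∑ κ : D.V, F κ := by
        rw [Finset.sum_const, Finset.card_univ, ZMod.card_units_eq_totient, nsmul_eq_mul]

namespace Wt

variable (w : Wt D)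

open Classical in
/-- representatives of the classes of least index -/
noncomputable def Mr : Finset (Ext D) :=
  Finset.univ.filter fun g => w.IsM g ∧ D.crep g = g

theorem gl_mk_crep (g : Ext D) : ConjClasses.mk (D.crep g) = ConjClasses.mk g := by
  unfold Dt.crep
  exact Quotient.out_eq _

theorem gl_b_le : w.b ≤ w.Mr.card := by
  classical
  unfold b
  rw [← Nat.card_eq_finsetCard]
  refine Nat.card_le_card_of_injective (fun c => ⟨Quotient.out c.1, ?_⟩) ?_
  · obtain ⟨c, g, hg, h1, h2⟩ := c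
    subst hg
    have e : Quotient.out (ConjClasses.mk g) = D.crep g := rfl
    rw [e]
    have hc := gl_mk_crep g
    have hc' : IsConj (D.crep g) g := ConjClasses.mk_eq_mk_iff_isConj.1 hc
    obtain ⟨x, hx⟩ := isConj_iff.1 hc'
    unfold Mr
    rw [Finset.mem_filter]
    refine ⟨Finset.mem_univ _, ⟨?_, ?_⟩, ?_⟩
    · intro h3
      rw [h3] at hx
      apply h1
      rw [← hx]
      group
    · have h3 := w.conj x (D.crep g)
      rw [hx] at h3
      rw [← h2, h3]
    · show D.crep (D.crep g) = D.crep g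
      unfold Dt.crep
      unfold Dt.crep at hc
      rw [hc]
  · intro c d h
    have h1 : Quotient.out c.1 = Quotient.out d.1 := congrArg Subtype.val h
    exact Subtype.ext (Quotient.out_injective h1)

open Classical in
/-- the local weight of a residue class -/
noncomputable def gh (π : Pr D) (a : ZMod (gq π)) : ℝ :=
  ∑ g ∈ w.Mr, w.ff g.v (gvec π a)

theorem ff_nonneg (v κ : D.V) : 0 ≤ w.ff v κ := by
  unfold ff
  split_ifs
  · exact Nat.cast_nonneg _
  · exact le_rfl

theorem ff_one_le (v κ : D.V) (h : w.ff v κ ≠ 0) : 1 ≤ w.ff v κ := by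
  unfold ff at h ⊢
  split_ifs at h ⊢ with h1
  · have h2 : (Nat.card {ξ : D.Z // D.zrep v ξ = ξ ∧ w.AvM v ξ}) ≠ 0 := by exact_mod_cast h
    exact_mod_cast Nat.one_le_iff_ne_zero.2 h2
  · exact absurd rfl h

theorem gh_nonneg (π : Pr D) (a : ZMod (gq π)) : 0 ≤ w.gh π a :=
  Finset.sum_nonneg fun _ _ => w.ff_nonneg _ _

theorem gl_mean (hff : ∀ v : D.V, ∑ κ : D.V, w.ff v κ = (Fintype.card D.V : ℝ)) (π : Pr D)
    [NeZero (gq π)] : (w.b : ℝ) * (gq π).totient ≤ ∑ a : (ZMod (gq π))ˣ, w.gh π a := by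
  have hV : (Fintype.card D.V : ℝ) ≠ 0 := by exact_mod_cast Fintype.card_ne_zero
  have h1 : ∀ v : D.V, ∑ a : (ZMod (gq π))ˣ, w.ff v (gvec π a) = (gq π).totient := by
    intro v
    have h2 := gl_equi π (w.ff v)
    rw [hff v, mul_comm] at h2
    exact mul_right_cancel₀ hV h2
  unfold gh
  rw [Finset.sum_comm, Finset.sum_congr rfl fun g _ => h1 g.v, Finset.sum_const, nsmul_eq_mul]
  refine mul_le_mul_of_nonneg_right ?_ (Nat.cast_nonneg _)
  exact_mod_cast w.gl_b_le

end Wt

end Pool.Agent.H98.ML
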