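import Pool.Agent.H98.ML.PDefs

/-!
# Project MK2, row P10: positivity of the main term, from P1, P2, P6, P9
-/

set_option autoImplicit false

open scoped BigOperators
open Filter

namespace Pool.Agent.H98.ML

open Pool.Agent.H98.MK (psi jp lg eps sg p8)

theorem p10_core (k : ℕ) (F G T : ℝ → ℝ)
    (hF : ∃ C1 : ℝ, 1 ≤ C1 ∧ ∀ Y : ℝ, 1 ≤ Y → F Y ≤ T (C1 * Y))
    (hG : ∀ ε : ℝ, 0 < ε → ∀ᶠ Y : ℝ in atTop, G Y - ε * (Y * Real.log Y ^ k) ≤ F Y)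
    (hL : ∃ c : ℝ, 0 < c ∧ ∀ Y0 : ℝ, ∃ Y : ℝ, Y0 ≤ Y ∧ c * (Y * Real.log Y ^ k) ≤ G Y) :
    ∃ c : ℝ, 0 < c ∧ ∀ Y0 : ℝ, ∃ Y : ℝ, Y0 ≤ Y ∧ c * (Y * Real.log Y ^ k) ≤ T Y := by
  obtain ⟨C1, hC1, hF⟩ := hF
  obtain ⟨c, hc, hL⟩ := hL
  obtain ⟨Y1, hY1⟩ := Filter.eventually_atTop.1 (hG (c / 2) (by positivity))
  refine ⟨c / (2 * C1 * 2 ^ k), by positivity, fun Y0 => ?_⟩
  obtain ⟨Y, hY, hcY⟩ := hL (max (max Y0 Y1) (max C1 1))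
  have h1 : Y0 ≤ Y := (le_max_left _ _).trans ((le_max_left _ _).trans hY)
  have h2 : Y1 ≤ Y := (le_max_right _ _).trans ((le_max_left _ _).trans hY)
  have h3 : C1 ≤ Y := (le_max_left _ _).trans ((le_max_right _ _).trans hY)
  have h4 : 1 ≤ Y := (le_max_right _ _).trans ((le_max_right _ _).trans hY)
  have h5 : Y ≤ C1 * Y := by nlinarith
  refine ⟨C1 * Y, h1.trans h5, ?_⟩
  have h6 := hY1 Y h2
  have h7 := hF Y h4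
  have h8 : c / 2 * (Y * Real.log Y ^ k) ≤ T (C1 * Y) := by linarith
  refine le_trans ?_ h8
  have h9 : 0 ≤ Real.log (C1 * Y) := Real.log_nonneg (by nlinarith)
  have h10 : Real.log (C1 * Y) ≤ 2 * Real.log Y := by
    rw [Real.log_mul (by positivity) (by positivity)]
    have := Real.log_le_log (by positivity) h3
    linarith
  have h11 : Real.log (C1 * Y) ^ k ≤ 2 ^ k * Real.log Y ^ k := by
    rw [← mul_pow]
    exact pow_le_pow_left₀ h9 h10 k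
  calc c / (2 * C1 * 2 ^ k) * (C1 * Y * Real.log (C1 * Y) ^ k)
      ≤ c / (2 * C1 * 2 ^ k) * (C1 * Y * (2 ^ k * Real.log Y ^ k)) := by
        refine mul_le_mul_of_nonneg_left ?_ (by positivity)
        exact mul_le_mul_of_nonneg_left h11 (by positivity)
    _ = c / 2 * (Y * Real.log Y ^ k) := by
        field_simp

theorem main_pos2_of {D : Dt} (w : Wt D) (π : Pr D)
    (θ : D.V → D.V → (D.V → ZMod 8) → Finset D.V → ℝ)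
    (hF : ∃ C1 : ℝ, 1 ≤ C1 ∧ ∀ Y : ℝ, 1 ≤ Y → w.FF π Y ≤ S w θ (C1 * Y))
    (hG : ∀ ε : ℝ, 0 < ε → ∀ᶠ Y : ℝ in atTop,
      w.GG π Y - ε * (Y * Real.log Y ^ (w.b - 1)) ≤ w.FF π Y)
    (hL : ∃ c : ℝ, 0 < c ∧ ∀ Y0 : ℝ, ∃ Y : ℝ, Y0 ≤ Y ∧
      c * (Y * Real.log Y ^ (w.b - 1)) ≤ w.GG π Y) :
    ∃ c : ℝ, 0 < c ∧ ∀ Y0 : ℝ, ∃ Y : ℝ, Y0 ≤ Y ∧
      c * (Y * Real.log Y ^ (w.b - 1)) ≤ S w θ Y :=
  p10_core (w.b - 1) (fun Y => w.FF π Y) (fun Y => w.GG π Y) (fun Y => S w θ Y) hF hG hL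

end Pool.Agent.H98.ML
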