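import Pool.Agent.H98.ML.Defs

/-!
# Project MK2 (MP_a3214d): definitions for positivity
-/

set_option autoImplicit false

open scoped BigOperators

namespace Pool.Agent.H98.ML

open Pool.Agent.H98.MK (psi jp lg eps sg p8)

/-- auxiliary primes -/
structure Pr (D : Dt) where
  /-- the primes -/
  p : Fin D.r → ℕ
  prime : ∀ k, (p k).Prime
  mod : ∀ k, p k % 8 = 1
  inj : Function.Injective p
  res : ∀ k l, k ≠ l → jacobiSym (p k) (p l) = 1

variable {D : Dt}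

/-- the Frobenius vector of `n` for the auxiliary primes -/
def frob (π : Pr D) (n : ℕ) : D.V := fun k => lg (jacobiSym n (π.p k))

/-- the residue conditions -/
def Cnd (π : Pr D) (μ : D.V → ℕ) : Prop :=
  ∀ v, (μ v : ZMod 8) = 1 ∧ ∀ k, jacobiSym (μ v) (π.p k) = 1

namespace Wt

variable (w : Wt D)

/-- elements of least index -/
def IsM (g : Ext D) : Prop := g ≠ 1 ∧ w.ind g = w.m

open Classical in
/-- the positive family -/
noncomputable def FF (π : Pr D) (Y : ℝ) : ℝ :=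
  ∑ y ∈ Fintype.piFinset (fun _ : Ext D => Finset.Icc 1 ⌊Y⌋₊),
    if (∀ g, ¬ w.IsM g → y g = 1) ∧ Squarefree (2 * (∏ k, π.p k) * ∏ g, y g) ∧
      (∏ g, (y g : ℝ)) ≤ Y ∧ Cnd π (D.mV y) ∧
      ∀ g, ∀ p ∈ (y g).primeFactors,
        D.B g.v (frob π p + ∑ u : D.V, lg (jacobiSym p (D.mV y u)) • u) = 0
    then 1 else 0

open Classical in
/-- active indices of least index -/
noncomputable def actM : Finset D.P := w.act.filter fun i => w.ind i.1 = w.m

open Classical in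
/-- the sign -/
noncomputable def sgF (π : Pr D) (x : D.P → ℕ) : ℤ :=
  (∏ i, ∏ j, if D.e i j = 1 then jacobiSym (x i) (x j) else 1) *
    ∏ i : D.P, sg (i.2 ⬝ᵥ D.B i.1.v (frob π (x i)))

open Classical in
/-- the part with exact support `σ` -/
noncomputable def FX (π : Pr D) (σ : Finset D.P) (Y : ℝ) : ℝ :=
  ∑ x ∈ Fintype.piFinset (fun i : D.P => if i ∈ σ then Finset.Icc 2 ⌊Y⌋₊ else {1}),
    if Squarefree (2 * (∏ k, π.p k) * ∏ i, x i) ∧ (∏ i, (x i : ℝ)) ≤ Y ∧ Cnd π (D.mof x)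
    then (sgF π x : ℝ) else 0

/-- compatibility of a choice of dual vectors -/
def Cmp (ζ : D.V → D.Z) : Prop :=
  ∀ g g', w.IsM g → w.IsM g' → ζ g.v ⬝ᵥ D.B g.v g'.v = ζ g'.v ⬝ᵥ D.B g'.v g.v

/-- `ξ` annihilates the commutators of `v` with the elements of least index -/
def AvM (v : D.V) (ξ : D.Z) : Prop := ∀ g, w.IsM g → ξ ⬝ᵥ D.B v g.v = 0

/-- supports that contribute to the main term -/
def Sb (σ : Finset D.P) : Prop := ∃ ζ : D.V → D.Z, w.Cmp ζ ∧
  (∀ g, w.IsM g → D.crep g = g → (g, ζ g.v) ∈ σ) ∧ ∀ i ∈ σ, w.AvM i.1.v (i.2 + ζ i.1.v)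

open Classical in
/-- the indices compatible with `ζ` -/
noncomputable def UU (ζ : D.V → D.Z) : Finset D.P :=
  w.actM.filter fun i => w.AvM i.1.v (i.2 + ζ i.1.v)

open Classical in
/-- the local weight -/
noncomputable def ff (v κ : D.V) : ℝ :=
  if ∀ α : D.Z, w.AvM v α → α ⬝ᵥ D.B v κ = 0
  then (Nat.card {ξ : D.Z // D.zrep v ξ = ξ ∧ w.AvM v ξ} : ℝ) else 0

open Classical in
/-- the nonnegative main part -/
noncomputable def GG (π : Pr D) (Y : ℝ) : ℝ :=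
  ∑ y ∈ Fintype.piFinset (fun _ : Ext D => Finset.Icc 1 ⌊Y⌋₊),
    if (∀ g, ¬ (w.IsM g ∧ D.crep g = g) → y g = 1) ∧
      Squarefree (2 * (∏ k, π.p k) * ∏ g, y g) ∧ (∏ g, (y g : ℝ)) ≤ Y ∧ Cnd π (D.mV y)
    then ∏ g, ∏ p ∈ (y g).primeFactors, w.ff g.v (frob π p) else 0

end Wt

end Pool.Agent.H98.ML
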