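import Pool.Agent.H98.ML.GDefs

/-!
# Project MK2, row A8: convergence of all basic sums, from the two input statements (helper86)
-/

set_option autoImplicit false

open scoped BigOperators
open Filter

namespace Pool.Agent.H98.ML

open Pool.Agent.H98.MK (psi jp)

section

variable {ι : Type} [Fintype ι]

open Classical in
/-- the weights, with the non-free variables truncated at `M` -/
noncomputable def a8_tr (w : ι → ℝ) (L : ι → ι → Prop) (c : ι → Fin 4) (a : ι → ℕ → ℝ) (M : ℝ) :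
    ι → ℕ → ℝ :=
  fun l n => if ¬ Free w L c l ∧ M < n then 0 else a l n

theorem a8_tr_one (w : ι → ℝ) (L : ι → ι → Prop) (c : ι → Fin 4) (a : ι → ℕ → ℝ)
    (ha2 : ∀ l n, a l n ≠ 0 → 2 ≤ n) {l₀ : ι} (h : ¬ Free w L c l₀) (Y : ℝ) :
    GW w L (a8_tr w L c a 1) Y = 0 := by
  unfold GW
  refine Finset.sum_eq_zero fun x _ => ?_
  have h1 : a8_tr w L c a 1 l₀ (x l₀) = 0 := by
    unfold a8_tr
    split_ifs with h2
    · rfl
    · by_contra h3
      have h4 := ha2 _ _ h3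
      apply h2
      refine ⟨h, ?_⟩
      have : (2 : ℝ) ≤ (x l₀ : ℝ) := by exact_mod_cast h4
      linarith
  have h2 : ∏ i, a8_tr w L c a 1 i (x i) = 0 := Finset.prod_eq_zero (Finset.mem_univ l₀) h1
  rw [h2]
  simp

theorem a8_tr_big (w : ι → ℝ) (L : ι → ι → Prop) (c : ι → Fin 4) (a : ι → ℕ → ℝ) {M Y : ℝ}
    (h : Y ≤ M) : GW w L (a8_tr w L c a M) Y = GW w L a Y := by
  unfold GW
  refine Finset.sum_congr rfl fun x hx => ?_
  have h1 : ∀ i, a8_tr w L c a M i (x i) = a i (x i) := by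
    intro i
    simp only [Fintype.mem_piFinset] at hx
    have h2 := Finset.mem_Icc.1 (hx i)
    have h3 : (x i : ℝ) ≤ Y := (Nat.le_floor_iff' (by omega)).1 h2.2
    unfold a8_tr
    rw [if_neg]
    rintro ⟨_, h4⟩
    linarith
  rw [Finset.prod_congr rfl fun i _ => h1 i]

theorem a8_tsum (w : ι → ℝ) (L : ι → ι → Prop) (c : ι → Fin 4) (a : ι → ℕ → ℝ)
    (ha2 : ∀ l n, a l n ≠ 0 → 2 ≤ n) {l₀ : ι} (h : ¬ Free w L c l₀) (Y : ℝ) :
    ∑' n : ℕ, (GW w L (a8_tr w L c a (2 * 2 ^ n)) Y - GW w L (a8_tr w L c a (2 ^ n)) Y) =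
      GW w L a Y := by
  obtain ⟨K, hK⟩ := pow_unbounded_of_one_lt Y (one_lt_two (α := ℝ))
  rw [tsum_eq_sum (s := Finset.range K)]
  · have h1 : ∀ n : ℕ, GW w L (a8_tr w L c a (2 * 2 ^ n)) Y - GW w L (a8_tr w L c a (2 ^ n)) Y =
        (fun n : ℕ => GW w L (a8_tr w L c a (2 ^ n)) Y) (n + 1) -
          (fun n : ℕ => GW w L (a8_tr w L c a (2 ^ n)) Y) n := by
      intro n
      simp only [pow_succ']
    rw [Finset.sum_congr rfl fun n _ => h1 n,
      Finset.sum_range_sub (fun n : ℕ => GW w L (a8_tr w L c a (2 ^ n)) Y) K]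
    simp only [pow_zero]
    rw [a8_tr_one w L c a ha2 h, a8_tr_big w L c a hK.le, sub_zero]
  · intro n hn
    have h2 : K ≤ n := by simpa using hn
    have h3 : Y ≤ (2 : ℝ) ^ n := hK.le.trans (pow_le_pow_right₀ (by norm_num) h2)
    have h4 : Y ≤ 2 * (2 : ℝ) ^ n := by
      have : (0 : ℝ) ≤ 2 ^ n := by positivity
      linarith
    rw [a8_tr_big w L c a h3, a8_tr_big w L c a h4, sub_self]

theorem a8_summable : Summable fun n : ℕ => (1 + Real.log ((2 : ℝ) ^ n)) ^ (-2 : ℝ) := by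
  have hl : 0 < Real.log 2 := Real.log_pos (by norm_num)
  have hl1 : Real.log 2 < 1 := by
    have := Real.log_two_lt_d9
    linarith
  have h1 : Summable fun n : ℕ => (Real.log 2 ^ 2)⁻¹ * (1 / ((n : ℝ) + 1) ^ 2) := by
    refine Summable.mul_left _ ?_
    have h2 := (summable_nat_add_iff 1).2 (Real.summable_one_div_nat_pow.2 (one_lt_two (α := ℕ)))
    refine h2.congr fun n => ?_
    push_cast
    rfl
  refine Summable.of_nonneg_of_le (fun n => ?_) (fun n => ?_) h1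
  · rw [Real.log_pow]
    positivity
  · rw [Real.log_pow, Real.rpow_neg (by positivity), Real.rpow_two, one_div, ← mul_inv]
    refine inv_anti₀ (by positivity) ?_
    rw [← mul_pow]
    refine pow_le_pow_left₀ (by positivity) ?_ 2
    have : (0 : ℝ) ≤ n := Nat.cast_nonneg n
    nlinarith

/-- Tannery's theorem for the sums -/
theorem a8_lim (w : ι → ℝ) (L : ι → ι → Prop) (c : ι → Fin 4) (a : ι → ℕ → ℝ)
    (ha2 : ∀ l n, a l n ≠ 0 → 2 ≤ n) {l₀ : ι} (h : ¬ Free w L c l₀) (k : ℕ) (C : ℝ) (D : ℕ → ℝ)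
    (hC : ∀ M Y : ℝ, 1 ≤ M → 1 ≤ Y →
      |GW w L (a8_tr w L c a (2 * M)) Y - GW w L (a8_tr w L c a M) Y| ≤
        C * Y * (1 + Real.log Y) ^ k * (1 + Real.log M) ^ (-2 : ℝ))
    (hD : ∀ n : ℕ, Tendsto (fun Y : ℝ => GW w L (a8_tr w L c a (2 ^ n)) Y /
      (Y * Real.log Y ^ k)) atTop (nhds (D n))) :
    Tendsto (fun Y : ℝ => GW w L a Y / (Y * Real.log Y ^ k)) atTop
      (nhds (∑' n, (D (n + 1) - D n))) := by
  have hC0 : 0 ≤ C := by
    have h1 := (abs_nonneg _).trans (hC 1 1 le_rfl le_rfl)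
    simpa using h1
  have h1 : (fun Y : ℝ => GW w L a Y / (Y * Real.log Y ^ k)) = fun Y : ℝ => ∑' n : ℕ,
      (GW w L (a8_tr w L c a (2 * 2 ^ n)) Y - GW w L (a8_tr w L c a (2 ^ n)) Y) /
        (Y * Real.log Y ^ k) := by
    funext Y
    rw [tsum_div_const, a8_tsum w L c a ha2 h]
  rw [h1]
  refine tendsto_tsum_of_dominated_convergence
    (bound := fun n : ℕ => C * 2 ^ k * (1 + Real.log ((2 : ℝ) ^ n)) ^ (-2 : ℝ))
    (a8_summable.mul_left _) (fun n => ?_) ?_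
  · have h2 := (hD (n + 1)).sub (hD n)
    refine h2.congr fun Y => ?_
    rw [← sub_div, pow_succ' (2 : ℝ) n]
  · filter_upwards [eventually_ge_atTop (Real.exp 1)] with Y hY n
    have hY1 : 1 ≤ Y := le_trans (by have := Real.add_one_le_exp (1 : ℝ); linarith) hY
    have hY0 : 0 < Y := by linarith
    have hlog : 1 ≤ Real.log Y := (Real.le_log_iff_exp_le hY0).2 hY
    have h2n : (1 : ℝ) ≤ 2 ^ n := one_le_pow₀ (by norm_num)
    have h3 := hC (2 ^ n) Y h2n hY1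
    have h4 : (1 + Real.log Y) ^ k ≤ 2 ^ k * Real.log Y ^ k := by
      rw [← mul_pow]
      exact pow_le_pow_left₀ (by linarith) (by linarith) k
    have hr : 0 ≤ (1 + Real.log ((2 : ℝ) ^ n)) ^ (-2 : ℝ) :=
      Real.rpow_nonneg (by have := Real.log_nonneg h2n; linarith) _
    have hp : 0 < Y * Real.log Y ^ k := by positivity
    rw [Real.norm_eq_abs, abs_div, abs_of_pos hp, div_le_iff₀ hp]
    refine h3.trans ?_
    calc C * Y * (1 + Real.log Y) ^ k * (1 + Real.log ((2 : ℝ) ^ n)) ^ (-2 : ℝ)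
        ≤ C * Y * (2 ^ k * Real.log Y ^ k) * (1 + Real.log ((2 : ℝ) ^ n)) ^ (-2 : ℝ) := by
          gcongr
      _ = C * 2 ^ k * (1 + Real.log ((2 : ℝ) ^ n)) ^ (-2 : ℝ) * (Y * Real.log Y ^ k) := by ring

omit [Fintype ι] in
theorem a8_free (w : ι → ℝ) (L : ι → ι → Prop) (c : ι → Fin 4) (a : ι → ℕ → ℝ)
    (hiso : ∀ i, w i = 1 → ∀ n, a i n = if 2 ≤ n then (psi (c i) n : ℝ) else 0) (l : ι)
    (h : Free w L c l) (n : ℕ) : a l n = if 2 ≤ n then 1 else 0 := by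
  rw [hiso l h.1 n, h.2.1]
  simp [psi]

open Classical in
/-- row A8 from the statements of rows A6 and A7 -/
theorem ATS_of
    (hlim : ∀ (w : ι → ℝ), (∀ i, 1 ≤ w i) → ∀ (L : ι → ι → Prop)
      (R : ι → Prop), (∀ i, R i → w i = 1 ∧ ∀ j, ¬ L i j ∧ ¬ L j i) →
      ∀ (a : ι → ℕ → ℝ), (∀ l n, |a l n| ≤ 1) → ∀ (K : ℝ),
      (∀ l, ¬ R l → ∀ n, a l n ≠ 0 → (n : ℝ) ≤ K) →
      (∀ l, R l → ∀ n, a l n = if 2 ≤ n then 1 else 0) →
      (∀ k, Nat.card {l // R l} = k + 1 → ∃ C : ℝ,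
        Tendsto (fun Y : ℝ => GW w L a Y / (Y * Real.log Y ^ k)) atTop (nhds C)) ∧
      (Nat.card {l // R l} = 0 → Tendsto (fun Y : ℝ => GW w L a Y / Y) atTop (nhds 0)))
    (w : ι → ℝ) (hw : ∀ i, 1 ≤ w i) (L : ι → ι → Prop)
    (c : ι → Fin 4) (a : ι → ℕ → ℝ) (ha : ∀ l n, |a l n| ≤ 1)
    (ha2 : ∀ l n, a l n ≠ 0 → 2 ≤ n)
    (hiso : ∀ i, w i = 1 → ∀ n, a i n = if 2 ≤ n then (psi (c i) n : ℝ) else 0)
    (hblock : ∃ C : ℝ, ∀ M Y : ℝ, 1 ≤ M → 1 ≤ Y →
      |GW w L (fun l n => if ¬ Free w L c l ∧ 2 * M < n then 0 else a l n) Y -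
        GW w L (fun l n => if ¬ Free w L c l ∧ M < n then 0 else a l n) Y| ≤
      C * Y * (1 + Real.log Y) ^ (Nat.card {l // Free w L c l} - 1) *
        (1 + Real.log M) ^ (-2 : ℝ)) :
    (∀ k, Nat.card {l // Free w L c l} = k + 1 → ∃ C : ℝ,
      Tendsto (fun Y : ℝ => GW w L a Y / (Y * Real.log Y ^ k)) atTop (nhds C)) ∧
    (Nat.card {l // Free w L c l} = 0 →
      Tendsto (fun Y : ℝ => GW w L a Y / Y) atTop (nhds 0)) := by
  have hR : ∀ i, Free w L c i → w i = 1 ∧ ∀ j, ¬ L i j ∧ ¬ L j i := fun i hi => ⟨hi.1, hi.2.2⟩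
  by_cases hall : ∀ l, Free w L c l
  · exact hlim w hw L (Free w L c) hR a ha 0 (fun l hl => absurd (hall l) hl)
      (fun l hl n => a8_free w L c a hiso l hl n)
  · obtain ⟨l₀, h₀⟩ := not_forall.1 hall
    have htr : ∀ n : ℕ, (∀ k, Nat.card {l // Free w L c l} = k + 1 → ∃ C : ℝ,
        Tendsto (fun Y : ℝ => GW w L (a8_tr w L c a (2 ^ n)) Y / (Y * Real.log Y ^ k)) atTop
          (nhds C)) ∧ (Nat.card {l // Free w L c l} = 0 →
        Tendsto (fun Y : ℝ => GW w L (a8_tr w L c a (2 ^ n)) Y / Y) atTop (nhds 0)) := by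
      intro n
      refine hlim w hw L (Free w L c) hR (a8_tr w L c a (2 ^ n)) ?_ (2 ^ n) ?_ ?_
      · intro l m
        unfold a8_tr
        split_ifs
        · simp
        · exact ha l m
      · intro l hl m hm
        by_contra h1
        apply hm
        unfold a8_tr
        rw [if_pos ⟨hl, not_le.1 h1⟩]
      · intro l hl m
        unfold a8_tr
        rw [if_neg (fun h => h.1 hl)]
        exact a8_free w L c a hiso l hl m
    obtain ⟨C, hC⟩ := hblock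
    constructor
    · intro k hk
      choose D hD using fun n : ℕ => (htr n).1 k hk
      refine ⟨_, a8_lim w L c a ha2 h₀ k C D ?_ hD⟩
      intro M Y hM hY
      have h1 := hC M Y hM hY
      rw [hk, Nat.add_sub_cancel] at h1
      exact h1
    · intro hk
      have h1 := a8_lim w L c a ha2 h₀ 0 C (fun _ => 0) ?_ ?_
      · simpa using h1
      · intro M Y hM hY
        have h1 := hC M Y hM hY
        rw [hk] at h1
        exact h1
      · intro n
        simpa using (htr n).2 hk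

end

end Pool.Agent.H98.ML
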