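import Pool.Agent.H98.ML.CountParamOf
import Pool.Agent.H98.ML.Nec2
import Pool.Agent.H98.ML.Normal2
import Pool.Agent.H98.ML.TwoPack

/-!
# Project MK2 (MP_a3214d), row M7 (helper18): counting surjections by parameters
-/

set_option autoImplicit false

open scoped BigOperators

namespace Pool.Agent.H98.ML

open Pool.Agent.H98.MK (Om Gam dabs fld chi dd adm par lg eps par_hom par_lc mfun z12)

theorem count_param (D : Dt) (H0 : Subgroup (Ext D)) : ∃ cx : (ℕ →₀ D.V) → D.Z → D.Z → ℕ,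
    (∀ x : ℕ →₀ D.V, adm x → Sol D x → Submodule.span (ZMod 2) (Set.range x) = ⊤ →
      ∃ (f : Gam → D.Z) (h : IsNormal D x f),
        ∀ z1 z2, cx x z1 z2 = ex H0 2 (lh (h.toIsLift.add (z12 z1 z2)))) ∧
    ∀ X : ℝ, Nat.card {ρ : Gam →* Ext D // Function.Surjective ρ ∧ IsLocallyConstant ρ ∧
        (dabs (fld (H0.comap ρ)) : ℝ) ≤ X} =
      Nat.card {w : (ℕ →₀ D.V) × (ℕ →₀ D.Z) // adm w.1 ∧ adm w.2 ∧ Sol D w.1 ∧
        Submodule.span (ZMod 2) (Set.range w.1) = ⊤ ∧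
        ((2 ^ cx w.1 (w.2 1) (w.2 2) * szG H0 w.1 w.2 : ℕ) : ℝ) ≤ X} :=
  count_param_of (fun H0 _ _ hx h z hz hs p hp hp2 => ex_odd H0 hx h z hz hs p hp hp2)
    (fun H0 _ _ hx hsp h z z' hz hz' h1 h2 => c2_twist H0 hx hsp h z z' hz hz' h1 h2)
    (fun hx h => nec hx h) (fun hx h => exists_normal hx h) D H0

end Pool.Agent.H98.ML
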