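import Pool.Agent.H98.ML.FDefs

/-!
# Project MK2 (MP_a3214d), row M11: the parameter count is the sum `S`
-/

set_option autoImplicit false

open scoped BigOperators

namespace Pool.Agent.H98.ML

open Pool.Agent.H98.MK (Om Gam dabs fld chi dd adm par lg eps par_hom par_lc mfun z12)

/-! ### general lemmas -/

theorem cs_one_le {ι : Type} (s : Finset ι) (f : ι → ℝ) (h : ∀ i, 1 ≤ f i) :
    1 ≤ ∏ i ∈ s, f i := by
  calc (1:ℝ) = ∏ i ∈ s, (1:ℝ) := by rw [Finset.prod_const_one]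
    _ ≤ _ := Finset.prod_le_prod (fun _ _ => zero_le_one) fun i _ => h i

theorem cs_single_le {ι : Type} (s : Finset ι) (f : ι → ℝ) (h : ∀ i, 1 ≤ f i) {j : ι}
    (hj : j ∈ s) : f j ≤ ∏ i ∈ s, f i := by
  classical
  rw [← Finset.mul_prod_erase s f hj]
  exact le_mul_of_one_le_right (by linarith [h j]) (cs_one_le _ f h)

theorem cs_fib {α β : Type} (Φ : α → β) (s : Finset β) (hs : ∀ a, Φ a ∈ s)
    (hf : ∀ b ∈ s, Finite {a // Φ a = b}) :
    Nat.card α = ∑ b ∈ s, Nat.card {a // Φ a = b} := by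
  classical
  have hfin : ∀ b : s, Finite {a // (⟨Φ a, hs a⟩ : s) = b} := by
    intro b
    have := hf b.1 b.2
    refine Finite.of_injective (β := {a // Φ a = b.1})
      (fun a => ⟨a.1, congrArg Subtype.val a.2⟩) ?_
    intro a b h
    have h2 := congrArg Subtype.val h
    exact Subtype.ext h2
  have e : (Σ b : s, {a // (⟨Φ a, hs a⟩ : s) = b}) ≃ α :=
    Equiv.sigmaFiberEquiv (fun a => (⟨Φ a, hs a⟩ : s))
  rw [← Nat.card_congr e, Nat.card_sigma,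
    ← Finset.sum_coe_sort s (fun b => Nat.card {a // Φ a = b})]
  refine Finset.sum_congr rfl fun b _ => Nat.card_congr (Equiv.subtypeEquivRight fun a => ?_)
  exact Subtype.ext_iff

/-- regrouping by the value of the exponent -/
theorem cs_group {ι : Type} [Fintype ι] (c : ι → ℕ) (T : ℕ) (hc : ∀ z, c z ≤ T)
    (f : ℕ → ℝ) :
    ∑ z, f (c z) = ∑ t ∈ Finset.range (T + 1), (Nat.card {z // c z = t} : ℝ) * f t := by
  classical
  rw [← Finset.sum_fiberwise_of_maps_to (s := Finset.univ) (t := Finset.range (T + 1)) (g := c)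
    (fun z _ => Finset.mem_range.2 (by have := hc z; omega))]
  refine Finset.sum_congr rfl fun t _ => ?_
  rw [Finset.sum_congr rfl (g := fun _ => f t) (fun z hz => by rw [(Finset.mem_filter.1 hz).2]),
    Finset.sum_const, nsmul_eq_mul, Nat.card_eq_fintype_card, Fintype.card_subtype]

variable {D : Dt}

/-! ### the size -/

theorem cs_size (H0 : Subgroup (Ext D)) (w : Wt D) (hw : w.ind = hind H0)
    (m : Ext D → ℕ) (h1 : m 1 = 1) (t : ℕ) {X : ℝ} (hX : 1 ≤ X) :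
    (((2 ^ t * ∏ g, m g ^ hind H0 g : ℕ) : ℝ) ≤ X) ↔
      ∏ g, (m g : ℝ) ^ w.wt g ≤ X ^ (1 / w.m : ℝ) * 2 ^ (-(t / w.m) : ℝ) := by
  have hm : (0:ℝ) < w.m := by exact_mod_cast w.pos
  have hX0 : 0 < X := by linarith
  set P : ℝ := ∏ g, (m g : ℝ) ^ w.wt g with hP
  have hP0 : 0 ≤ P := Finset.prod_nonneg fun v _ => Real.rpow_nonneg (Nat.cast_nonneg _) _
  have hY0 : 0 ≤ X ^ (1 / w.m : ℝ) * (2:ℝ) ^ (-(t / w.m) : ℝ) := by positivity
  rw [← Real.rpow_le_rpow_iff hP0 hY0 hm]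
  have e1 : (X ^ (1 / w.m : ℝ) * (2:ℝ) ^ (-(t / w.m) : ℝ)) ^ (w.m : ℝ) = X * ((2:ℝ) ^ t)⁻¹ := by
    rw [Real.mul_rpow (by positivity) (by positivity), ← Real.rpow_mul hX0.le,
      ← Real.rpow_mul (by norm_num)]
    have e2 : (1 / w.m : ℝ) * (w.m : ℝ) = 1 := by field_simp
    have e3 : (-(t / w.m) : ℝ) * (w.m : ℝ) = -(t : ℝ) := by field_simp
    rw [e2, e3, Real.rpow_one, Real.rpow_neg (by norm_num), Real.rpow_natCast]
  have e4 : P ^ (w.m : ℝ) = ((∏ g, m g ^ hind H0 g : ℕ) : ℝ) := by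
    rw [hP, ← Real.finsetProd_rpow _ _ (fun v _ => Real.rpow_nonneg (Nat.cast_nonneg _) _)]
    push_cast
    refine Finset.prod_congr rfl fun g _ => ?_
    rw [← Real.rpow_mul (Nat.cast_nonneg _)]
    by_cases hg : g = 1
    · rw [hg, h1]
      simp
    · unfold Wt.wt
      rw [if_neg hg, div_mul_cancel₀ _ hm.ne', Real.rpow_natCast, hw]
  rw [e1, e4]
  have h2 : (0:ℝ) < 2 ^ t := by positivity
  rw [← div_eq_mul_inv, le_div_iff₀ h2, mul_comm]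
  push_cast
  rfl

/-- the variables are bounded by the size -/
theorem cs_le (w : Wt D) (m : Ext D → ℕ) (hm : ∀ g, 1 ≤ m g) {Y : ℝ}
    (h : ∏ g, (m g : ℝ) ^ w.wt g ≤ Y) (g : Ext D) : m g ≤ ⌊Y⌋₊ := by
  have hp : (0:ℝ) < w.m := by exact_mod_cast w.pos
  have hw : ∀ g, 1 ≤ w.wt g := by
    intro g
    unfold Wt.wt
    split_ifs with hg
    · exact le_rfl
    · rw [le_div_iff₀ hp, one_mul]
      exact_mod_cast w.min g hg
  have h1 : ∀ g, 1 ≤ (m g : ℝ) := fun g => by exact_mod_cast hm g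
  have h3 : ∀ g, (m g : ℝ) ≤ (m g : ℝ) ^ w.wt g := by
    intro g
    calc (m g : ℝ) = (m g : ℝ) ^ (1:ℝ) := (Real.rpow_one _).symm
      _ ≤ _ := Real.rpow_le_rpow_of_exponent_le (h1 g) (hw g)
  apply Nat.le_floor
  calc (m g : ℝ) ≤ (m g : ℝ) ^ w.wt g := h3 g
    _ ≤ ∏ g, (m g : ℝ) ^ w.wt g :=
      cs_single_le _ _ (fun g => (h1 g).trans (h3 g)) (Finset.mem_univ g)
    _ ≤ Y := h

/-! ### local conditions -/

theorem cs_okp0 (a b : D.V) (m : D.V → ℕ) (p : ℕ) : D.okp a b m 0 p := by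
  have hB : ∀ u : D.V, D.B u 0 = 0 := by
    intro u
    unfold Dt.B
    simp
  have hq : D.q (0 : D.V) = 0 := by
    unfold Dt.q
    simp
  unfold Dt.okp
  simp [hB, hq]

theorem cs_okp (a b : D.V) (m : Ext D → ℕ) (hne : ∀ g, m g ≠ 0) :
    (∀ v : D.V, ∀ p ∈ (D.mV m v).primeFactors, D.okp a b (D.mV m) v p) ↔
      ∀ g : Ext D, ∀ p ∈ (m g).primeFactors, D.okp a b (D.mV m) g.v p := by
  constructor
  · intro h g p hp
    by_cases hg : g.v = 0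
    · rw [hg]
      exact cs_okp0 _ _ _ _
    · apply h g.v p
      have h1 : D.mV m g.v = ∏ z : D.Z, m ⟨g.v, z⟩ := by
        unfold Dt.mV
        rw [if_neg hg]
      rw [h1]
      have h2 : m g ∣ ∏ z : D.Z, m ⟨g.v, z⟩ :=
        Finset.dvd_prod_of_mem (fun z : D.Z => m ⟨g.v, z⟩) (Finset.mem_univ g.z)
      exact Nat.primeFactors_mono h2 (Finset.prod_ne_zero_iff.2 fun z _ => hne _) hp
  · intro h v p hp
    by_cases hv : v = 0
    · rw [hv]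
      exact cs_okp0 _ _ _ _
    · have h1 : D.mV m v = ∏ z : D.Z, m ⟨v, z⟩ := by
        unfold Dt.mV
        rw [if_neg hv]
      rw [h1] at hp
      have hpp := Nat.prime_of_mem_primeFactors hp
      obtain ⟨z, _, hz⟩ := (Prime.dvd_finsetProd_iff hpp.prime _).1
        (Nat.dvd_of_mem_primeFactors hp)
      exact h ⟨v, z⟩ p (Nat.mem_primeFactors.2 ⟨hpp, hz, hne _⟩)

/-! ### the coordinates -/

/-- existence and uniqueness of the parameters (row M9) -/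
def csEx (D : Dt) : Prop :=
  ∀ (a b : D.V) (z1 z2 : D.Z) (m : Ext D → ℕ), m 1 = 1 → Squarefree (2 * ∏ g, m g) →
    ∃! w : (ℕ →₀ D.V) × (ℕ →₀ D.Z), adm w.1 ∧ adm w.2 ∧ w.1 1 = a ∧ w.1 2 = b ∧ w.2 1 = z1 ∧
      w.2 2 = z2 ∧ gfun w.1 w.2 = m

theorem cs_gfun_congr (x : ℕ →₀ D.V) (z z' : ℕ →₀ D.Z)
    (h : ∀ p, p ≠ 1 → p ≠ 2 → z' p = z p) : gfun x z' = gfun x z := by
  funext g
  unfold gfun
  refine Finset.prod_congr ?_ fun _ _ => rfl
  ext p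
  simp only [Finset.mem_filter, Finset.mem_union, Finsupp.mem_support_iff]
  constructor
  · rintro ⟨h1, h2, h3, h4, h5⟩
    rw [h p h2 h3] at h1 h5
    exact ⟨h1, h2, h3, h4, h5⟩
  · rintro ⟨h1, h2, h3, h4, h5⟩
    rw [← h p h2 h3] at h1 h5
    exact ⟨h1, h2, h3, h4, h5⟩

theorem cs_x0 (hex : csEx D) (a b : D.V) (m : Ext D → ℕ) (h0 : m 1 = 1)
    (hm : Squarefree (2 * ∏ g, m g)) :
    ∃ x0 : ℕ →₀ D.V, adm x0 ∧ x0 1 = a ∧ x0 2 = b ∧ ∀ z1 z2 : D.Z, ∃ z : ℕ →₀ D.Z,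
      adm z ∧ z 1 = z1 ∧ z 2 = z2 ∧ gfun x0 z = m ∧
      ∀ y : (ℕ →₀ D.V) × (ℕ →₀ D.Z), adm y.1 → adm y.2 → y.1 1 = a → y.1 2 = b →
        y.2 1 = z1 → y.2 2 = z2 → gfun y.1 y.2 = m → y = (x0, z) := by
  classical
  obtain ⟨⟨x0, zz⟩, ⟨h1, h2, h3, h4, h5, h6, h7⟩, -⟩ := hex a b 0 0 m h0 hm
  refine ⟨x0, h1, h3, h4, fun z1 z2 => ?_⟩
  set z : ℕ →₀ D.Z := (zz.update 1 z1).update 2 z2 with hz
  have e1 : z 1 = z1 := by
    rw [hz, Finsupp.update_apply, if_neg (by norm_num), Finsupp.update_apply, if_pos rfl]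
  have e2 : z 2 = z2 := by
    rw [hz, Finsupp.update_apply, if_pos rfl]
  have e3 : ∀ p, p ≠ 1 → p ≠ 2 → z p = zz p := by
    intro p hp1 hp2
    rw [hz, Finsupp.update_apply, if_neg hp2, Finsupp.update_apply, if_neg hp1]
  have e4 : adm z := by
    intro i hi
    by_cases hi1 : i = 1
    · exact Or.inl hi1
    · by_cases hi2 : i = 2
      · right
        rw [hi2]
        exact Nat.prime_two
      · rw [e3 i hi1 hi2] at hi
        exact h2 i hi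
  have e5 : gfun x0 z = m := by
    rw [cs_gfun_congr x0 zz z e3]
    exact h7
  refine ⟨z, e4, e1, e2, e5, ?_⟩
  intro y g1 g2 g3 g4 g5 g6 g7
  obtain ⟨u, -, hu⟩ := hex a b z1 z2 m h0 hm
  rw [hu y ⟨g1, g2, g3, g4, g5, g6, g7⟩]
  exact (hu (x0, z) ⟨h1, e4, h3, h4, e1, e2, e5⟩).symm

/-- the condition on the parameters -/
def csP (D : Dt) (H0 : Subgroup (Ext D)) (cx : (ℕ →₀ D.V) → D.Z → D.Z → ℕ) (X : ℝ)
    (y : (ℕ →₀ D.V) × (ℕ →₀ D.Z)) : Prop :=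
  adm y.1 ∧ adm y.2 ∧ Sol D y.1 ∧ Submodule.span (ZMod 2) (Set.range y.1) = ⊤ ∧
    ((2 ^ cx y.1 (y.2 1) (y.2 2) * szG H0 y.1 y.2 : ℕ) : ℝ) ≤ X

/-- the coordinates of the parameters -/
noncomputable def csF (D : Dt) (y : (ℕ →₀ D.V) × (ℕ →₀ D.Z)) :
    D.V × D.V × (Ext D → ℕ) × D.Z × D.Z :=
  (y.1 1, y.1 2, gfun y.1 y.2, y.2 1, y.2 2)

open Classical in
theorem cs_fibre (H0 : Subgroup (Ext D)) (cx : (ℕ →₀ D.V) → D.Z → D.Z → ℕ) (X : ℝ)
    (m : Ext D → ℕ) (z1 z2 : D.Z) (x0 : ℕ →₀ D.V) (hx0 : adm x0) (z : ℕ →₀ D.Z) (hz : adm z)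
    (hz1 : z 1 = z1) (hz2 : z 2 = z2) (hg : gfun x0 z = m)
    (hun : ∀ y : (ℕ →₀ D.V) × (ℕ →₀ D.Z), adm y.1 → adm y.2 → y.1 1 = x0 1 → y.1 2 = x0 2 →
        y.2 1 = z1 → y.2 2 = z2 → gfun y.1 y.2 = m → y = (x0, z)) :
    Nat.card {y : {y // csP D H0 cx X y} // csF D y.1 = (x0 1, x0 2, m, z1, z2)} =
      if Sol D x0 ∧ Submodule.span (ZMod 2) (Set.range x0) = ⊤ ∧
        ((2 ^ cx x0 z1 z2 * ∏ g, m g ^ hind H0 g : ℕ) : ℝ) ≤ X then 1 else 0 := by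
  have key : ∀ y : {y : {y // csP D H0 cx X y} // csF D y.1 = (x0 1, x0 2, m, z1, z2)},
      y.1.1 = (x0, z) := by
    rintro ⟨⟨y, p1, p2, p3, p4, p5⟩, hy⟩
    simp only [csF, Prod.mk.injEq] at hy
    obtain ⟨h1, h2, h3, h4, h5⟩ := hy
    exact hun y p1 p2 h1 h2 h4 h5 h3
  have hsz : szG H0 x0 z = ∏ g, m g ^ hind H0 g := by
    unfold szG
    rw [hg]
  split_ifs with hc
  · rw [Nat.card_eq_one_iff_unique]
    refine ⟨⟨fun y y' => ?_⟩, ⟨⟨⟨(x0, z), hx0, hz, hc.1, hc.2.1, ?_⟩, ?_⟩⟩⟩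
    · apply Subtype.ext
      apply Subtype.ext
      rw [key y, key y']
    · simp only
      rw [hz1, hz2, hsz]
      exact hc.2.2
    · simp only [csF]
      rw [hz1, hz2, hg]
  · have hE : IsEmpty {y : {y // csP D H0 cx X y} // csF D y.1 = (x0 1, x0 2, m, z1, z2)} := by
      constructor
      intro y
      apply hc
      have hk := key y
      obtain ⟨p1, p2, p3, p4, p5⟩ := y.1.2
      rw [hk] at p3 p4 p5
      simp only at p3 p4 p5
      rw [hz1, hz2, hsz] at p5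
      exact ⟨p3, p4, p5⟩
    exact Nat.card_of_isEmpty

end Pool.Agent.H98.ML
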