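import Pool.Agent.H98.ML.DiscOrbOf
import Pool.Agent.H98.ML.DiscSub
import Pool.Agent.H98.ML.TameSub

/-!
# Project MK2 (MP_a3214d), row ML-G3: discriminant exponents and orbits of the tame generator
-/

set_option autoImplicit false

open scoped BigOperators Pointwise

open Filter NumberField Pool.Agent.H67.MU

namespace Pool.Agent.H98.ML

theorem disc_orb {K : Type} [Field K] [NumberField K] [IsGalois ℚ K] (k : ℕ)
    (hk : Module.finrank ℚ K = 2 ^ k) (p : ℕ) [Fact p.Prime] (hp : p ≠ 2) (P : Ideal (𝓞 K))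
    [P.IsPrime] (hpP : (p : 𝓞 K) ∈ P) (τ : K ≃ₐ[ℚ] K)
    (hτ : Subgroup.zpowers τ = P.inertia (K ≃ₐ[ℚ] K)) (H : Subgroup (K ≃ₐ[ℚ] K)) :
    (discr (IntermediateField.fixedField H)).natAbs.factorization p + norb H τ = H.index :=
  disc_orb_of (fun p _ P _ hpP H => disc_sub p P hpP H)
    (fun k hk p _ hp P _ hpP J hJ => tame_sub k hk p hp P hpP J hJ) k hk p hp P hpP τ hτ H

end Pool.Agent.H98.ML
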