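import Pool.Agent.H98.ML.FDefs
import Pool.Agent.H98.MK.FldBasic
import Pool.Agent.H98.MK.ChiBasic

/-!
# Project MK2 (MP_a3214d), row G6: universal tame generators (compactness)
-/

set_option autoImplicit false

open scoped BigOperators

namespace Pool.Agent.H98.ML

open Pool.Agent.H98.MK (Om Gam dabs fld chi dd adm par lg eps par_hom par_lc mfun z12 chi_hom
  chi_lc om_galois)

theorem g6_compact : CompactSpace Gam := by
  haveI := om_galois
  infer_instance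

/-- the pairs good for `U` -/
def g6_C (p : ℕ) (U : Subgroup Gam) : Set (Gam × Gam) :=
  {x | x.2 * x.1 * x.2⁻¹ * (x.1 ^ p)⁻¹ ∈ U ∧
      (∀ W : Subgroup Gam, U ≤ W → (dabs (fld W)).factorization p + norb W x.1 = W.index) ∧
      (∀ d : ℤ, ¬ (p : ℤ) ∣ d → (∀ σ ∈ U, chi d σ = 0) →
        chi d x.1 = 0 ∧ chi d x.2 = lg (jacobiSym d p)) ∧
      ((∀ σ ∈ U, chi (dd p : ℤ) σ = 0) → chi (dd p : ℤ) x.1 = 1)}

theorem g6_mono (p : ℕ) {U U' : Subgroup Gam} (h : U' ≤ U) : g6_C p U' ⊆ g6_C p U := by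
  rintro x ⟨h1, h2, h3, h4⟩
  refine ⟨h h1, fun W hW => h2 W (h.trans hW), fun d hd hU => h3 d hd fun σ hσ => hU σ (h hσ),
    fun hU => h4 fun σ hσ => hU σ (h hσ)⟩

theorem g6_chi {U : Subgroup Gam} (d : ℚ) (hU : ∀ σ ∈ U, chi d σ = 0) {a b : Gam}
    (h : b⁻¹ * a ∈ U) : chi d a = chi d b := by
  have h1 : a = b * (b⁻¹ * a) := by group
  rw [h1, chi_hom, hU _ h, add_zero]

theorem g6_smul {U W : Subgroup Gam} [hn : U.Normal] (hUW : U ≤ W) {a b : Gam}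
    (h : b⁻¹ * a ∈ U) (x : Gam ⧸ W) : a • x = b • x := by
  induction x using QuotientGroup.induction_on with
  | H g =>
    change ((a * g : Gam) : Gam ⧸ W) = ((b * g : Gam) : Gam ⧸ W)
    symm
    rw [QuotientGroup.eq]
    have h1 : (b * g)⁻¹ * (a * g) = g⁻¹ * (b⁻¹ * a) * g⁻¹⁻¹ := by group
    rw [h1]
    exact hUW (hn.conj_mem _ h g⁻¹)

theorem g6_zpow {U W : Subgroup Gam} [hn : U.Normal] (hUW : U ≤ W) {a b : Gam}
    (h : b⁻¹ * a ∈ U) (n : ℤ) (x : Gam ⧸ W) : a ^ n • x = b ^ n • x := by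
  have h1 : MulAction.toPermHom Gam (Gam ⧸ W) a = MulAction.toPermHom Gam (Gam ⧸ W) b := by
    ext y
    exact g6_smul hUW h y
  have h2 : MulAction.toPermHom Gam (Gam ⧸ W) (a ^ n) =
      MulAction.toPermHom Gam (Gam ⧸ W) (b ^ n) := by
    rw [map_zpow, map_zpow, h1]
  exact congrArg (fun f : Equiv.Perm (Gam ⧸ W) => f x) h2

theorem g6_orbit {U W : Subgroup Gam} [hn : U.Normal] (hUW : U ≤ W) {a b : Gam}
    (h : b⁻¹ * a ∈ U) (x y : Gam ⧸ W) :
    (MulAction.orbitRel (Subgroup.zpowers a) (Gam ⧸ W)) x y ↔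
      (MulAction.orbitRel (Subgroup.zpowers b) (Gam ⧸ W)) x y := by
  rw [MulAction.orbitRel_apply, MulAction.orbitRel_apply]
  constructor
  · rintro ⟨⟨_, n, rfl⟩, h1⟩
    refine ⟨⟨b ^ n, n, rfl⟩, ?_⟩
    rw [← h1]
    exact (g6_zpow hUW h n y).symm
  · rintro ⟨⟨_, n, rfl⟩, h1⟩
    refine ⟨⟨a ^ n, n, rfl⟩, ?_⟩
    rw [← h1]
    exact g6_zpow hUW h n y

theorem g6_norb {U W : Subgroup Gam} [hn : U.Normal] (hUW : U ≤ W) {a b : Gam}
    (h : b⁻¹ * a ∈ U) : norb W a = norb W b := by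
  unfold norb
  apply Nat.card_congr
  exact Quotient.congr (Equiv.refl _) fun x y => g6_orbit hUW h x y

theorem g6_inv (p : ℕ) {U : Subgroup Gam} [hn : U.Normal] {x y : Gam × Gam}
    (hx : x ∈ g6_C p U) (h1 : x.1⁻¹ * y.1 ∈ U) (h2 : x.2⁻¹ * y.2 ∈ U) : y ∈ g6_C p U := by
  obtain ⟨hr, hd, hc, he⟩ := hx
  refine ⟨?_, ?_, ?_, ?_⟩
  · have e1 : ((x.1 : Gam) : Gam ⧸ U) = (y.1 : Gam ⧸ U) := QuotientGroup.eq.mpr h1
    have e2 : ((x.2 : Gam) : Gam ⧸ U) = (y.2 : Gam ⧸ U) := QuotientGroup.eq.mpr h2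
    rw [← QuotientGroup.eq_one_iff] at hr ⊢
    rw [← hr]
    simp only [QuotientGroup.mk_mul, QuotientGroup.mk_inv, QuotientGroup.mk_pow, e1, e2]
  · intro W hW
    rw [g6_norb hW h1]
    exact hd W hW
  · intro d hd1 hd2
    rw [g6_chi d hd2 h1, g6_chi d hd2 h2]
    exact hc d hd1 hd2
  · intro hU
    rw [g6_chi _ hU h1]
    exact he hU

theorem g6_closed (p : ℕ) {U : Subgroup Gam} [hn : U.Normal] (hU : IsOpen (U : Set Gam)) :
    IsClosed (g6_C p U) := by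
  rw [← isOpen_compl_iff, isOpen_iff_mem_nhds]
  intro x hx
  have h1 : IsOpen {y : Gam × Gam | x.1⁻¹ * y.1 ∈ U ∧ x.2⁻¹ * y.2 ∈ U} := by
    have ha : IsOpen ((fun y : Gam × Gam => x.1⁻¹ * y.1) ⁻¹' (U : Set Gam)) :=
      hU.preimage (continuous_const.mul continuous_fst)
    have hb : IsOpen ((fun y : Gam × Gam => x.2⁻¹ * y.2) ⁻¹' (U : Set Gam)) :=
      hU.preimage (continuous_const.mul continuous_snd)
    exact ha.inter hb
  refine Filter.mem_of_superset (h1.mem_nhds ?_) ?_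
  · refine ⟨?_, ?_⟩
    · rw [inv_mul_cancel]
      exact one_mem _
    · rw [inv_mul_cancel]
      exact one_mem _
  · rintro y ⟨ha, hb⟩ hy
    refine hx (g6_inv p hy ?_ ?_)
    · have := U.inv_mem ha
      rwa [mul_inv_rev, inv_inv] at this
    · have := U.inv_mem hb
      rwa [mul_inv_rev, inv_inv] at this

/-- the index set -/
def G6I : Type := {U : Subgroup Gam // U.Normal ∧ IsOpen (U : Set Gam) ∧ ∃ k, U.index = 2 ^ k}

theorem g6_inf (U V : G6I) : ∃ T : G6I, T.1 ≤ U.1 ∧ T.1 ≤ V.1 := by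
  obtain ⟨U, hU1, hU2, a, hU3⟩ := U
  obtain ⟨V, hV1, hV2, b, hV3⟩ := V
  refine ⟨⟨U ⊓ V, inferInstance, ?_, ?_⟩, inf_le_left, inf_le_right⟩
  · rw [Subgroup.coe_inf]
    exact hU2.inter hV2
  · have h1 : (U ⊓ V).relIndex U * U.index = (U ⊓ V).index :=
      Subgroup.relIndex_mul_index inf_le_left
    have h2 : (U ⊓ V).relIndex U ∣ 2 ^ b := by
      rw [Subgroup.inf_relIndex_left, ← hV3]
      exact Subgroup.relIndex_dvd_index_of_normal V U
    obtain ⟨c, _, hc⟩ := (Nat.dvd_prime_pow Nat.prime_two).mp h2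
    exact ⟨c + a, by rw [← h1, hc, hU3, pow_add]⟩

/-- the kernel of a quadratic character -/
noncomputable def g6_ker (d : ℚ) : Subgroup Gam where
  carrier := {σ | chi d σ = 0}
  one_mem' := by
    have h := chi_hom d 1 1
    rw [mul_one] at h
    exact left_eq_add.mp h
  mul_mem' := by
    intro a b ha hb
    change chi d (a * b) = 0
    rw [chi_hom, show chi d a = 0 from ha, show chi d b = 0 from hb, add_zero]
  inv_mem' := by
    intro a ha
    change chi d a⁻¹ = 0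
    have h1 : chi d 1 = 0 := by
      have h := chi_hom d 1 1
      rw [mul_one] at h
      exact left_eq_add.mp h
    have h2 := chi_hom d a a⁻¹
    rw [mul_inv_cancel, h1, show chi d a = 0 from ha, zero_add] at h2
    exact h2.symm

theorem g6_mem_ker (d : ℚ) (σ : Gam) : σ ∈ g6_ker d ↔ chi d σ = 0 := Iff.rfl

instance g6_ker_normal (d : ℚ) : (g6_ker d).Normal := by
  constructor
  intro a ha g
  rw [g6_mem_ker] at ha ⊢
  have h1 := chi_hom d g g⁻¹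
  rw [mul_inv_cancel] at h1
  have h0 : chi d 1 = 0 := (g6_mem_ker d 1).mp (one_mem _)
  rw [h0] at h1
  rw [chi_hom, chi_hom, ha, add_zero, ← h1]

theorem g6_ker_open (d : ℚ) : IsOpen (g6_ker d : Set Gam) :=
  (chi_lc d).isOpen_fiber 0

theorem g6_ker_index (d : ℚ) : ∃ k, (g6_ker d).index = 2 ^ k := by
  by_cases h : ∀ σ, chi d σ = 0
  · refine ⟨0, ?_⟩
    rw [pow_zero, Subgroup.index_eq_one, eq_top_iff]
    intro σ _
    exact h σ
  · push Not at h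
    obtain ⟨σ, hσ⟩ := h
    refine ⟨1, ?_⟩
    rw [pow_one, Subgroup.index_eq_two_iff]
    refine ⟨σ, fun b => ?_⟩
    rw [g6_mem_ker, g6_mem_ker, chi_hom]
    revert hσ
    generalize chi d σ = s
    generalize chi d b = t
    revert s t
    decide

/-- the kernel as an index -/
noncomputable def g6_kI (d : ℚ) : G6I := ⟨g6_ker d, g6_ker_normal d, g6_ker_open d, g6_ker_index d⟩

theorem exists_tau_of (p : ℕ)
    (hloc : ∀ (U : Subgroup Gam) [U.Normal], IsOpen (U : Set Gam) → ∀ k : ℕ, U.index = 2 ^ k →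
      ∃ τ φ : Gam, φ * τ * φ⁻¹ * (τ ^ p)⁻¹ ∈ U ∧
      (∀ W : Subgroup Gam, U ≤ W → (dabs (fld W)).factorization p + norb W τ = W.index) ∧
      (∀ d : ℤ, ¬ (p : ℤ) ∣ d → (∀ σ ∈ U, chi d σ = 0) →
        chi d τ = 0 ∧ chi d φ = lg (jacobiSym d p)) ∧
      ((∀ σ ∈ U, chi (dd p : ℤ) σ = 0) → chi (dd p : ℤ) τ = 1)) :
    ∃ τ φ : Gam, IsTau p τ φ := by
  haveI := g6_compact
  haveI : Nonempty G6I := ⟨⟨⊤, inferInstance, isOpen_univ, 0, by simp⟩⟩
  have key : (⋂ i : G6I, g6_C p i.1).Nonempty := by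
    refine IsCompact.nonempty_iInter_of_directed_nonempty_isCompact_isClosed
      (fun i : G6I => g6_C p i.1) ?_ ?_ ?_ ?_
    · intro U V
      obtain ⟨T, h1, h2⟩ := g6_inf U V
      exact ⟨T, g6_mono p h1, g6_mono p h2⟩
    · rintro ⟨U, hU1, hU2, k, hk⟩
      obtain ⟨τ, φ, h⟩ := @hloc U hU1 hU2 k hk
      exact ⟨(τ, φ), h⟩
    · rintro ⟨U, hU1, hU2, k, hk⟩
      exact (g6_closed p hU2).isCompact
    · rintro ⟨U, hU1, hU2, k, hk⟩
      exact g6_closed p hU2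
  obtain ⟨⟨τ, φ⟩, hx⟩ := key
  rw [Set.mem_iInter] at hx
  refine ⟨τ, φ, ?_, ?_, ?_, ?_⟩
  · intro U hU1 hU2 hk
    exact (hx ⟨U, hU1, hU2, hk⟩).1
  · intro U hU1 hU2 hk W hW
    exact (hx ⟨U, hU1, hU2, hk⟩).2.1 W hW
  · intro d hd
    exact (hx (g6_kI d)).2.2.1 d hd fun σ hσ => hσ
  · exact (hx (g6_kI (dd p : ℤ))).2.2.2 fun σ hσ => hσ

end Pool.Agent.H98.ML
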