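import Pool.Agent.H98.MK.SumSg

/-!
# Project MK2 (MP_a3214d), row ML-E2, part 1: expansion of products over the primes (helper54)
-/

set_option autoImplicit false

open scoped BigOperators

namespace Pool.Agent.H98.ML

open Pool.Agent.H98.MK (ssA mem_ssA prod_ssA)

/-- Real version of `prod_sum_sqfree`. -/
theorem x2_prod_sum {κ : Type} [Fintype κ] [DecidableEq κ] (m : ℕ) (hm : Squarefree m)
    (F : ℕ → κ → ℝ) :
    ∏ p ∈ m.primeFactors, ∑ ζ : κ, F p ζ =
      ∑ d ∈ (Fintype.piFinset (fun _ : κ => m.divisors)).filter (fun d => ∏ ζ, d ζ = m),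
        ∏ ζ, ∏ p ∈ (d ζ).primeFactors, F p ζ := by
  have hm0 : m ≠ 0 := hm.ne_zero
  have hmP : ∏ i : m.primeFactors, (i : ℕ) = m := by
    rw [Finset.prod_coe_sort m.primeFactors (fun i => i)]
    exact Nat.prod_primeFactors_of_squarefree hm
  rw [← Finset.prod_coe_sort, Finset.prod_univ_sum, Fintype.piFinset_univ]
  have hprime : ∀ (φ : m.primeFactors → κ) (ζ : κ), ∀ p ∈ ssA φ ζ, p.Prime := by
    intro φ ζ p hp
    obtain ⟨h, -⟩ := (mem_ssA φ ζ p).1 hp
    exact Nat.prime_of_mem_primeFactors h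
  have hpf : ∀ (φ : m.primeFactors → κ) (ζ : κ),
      (∏ p ∈ ssA φ ζ, p).primeFactors = ssA φ ζ := fun φ ζ =>
    Nat.primeFactors_prod (hprime φ ζ)
  have hprod : ∀ φ : m.primeFactors → κ, ∏ ζ, ∏ p ∈ ssA φ ζ, p = m := fun φ =>
    (prod_ssA φ (fun p _ => p)).trans hmP
  refine Finset.sum_bij (fun (φ : m.primeFactors → κ) _ ζ => ∏ p ∈ ssA φ ζ, p) ?_ ?_ ?_ ?_
  · intro φ _
    rw [Finset.mem_filter, Fintype.mem_piFinset]
    refine ⟨fun ζ => Nat.mem_divisors.2 ⟨?_, hm0⟩, hprod φ⟩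
    conv_rhs => rw [← hprod φ]
    exact Finset.dvd_prod_of_mem (fun ζ => ∏ p ∈ ssA φ ζ, p) (Finset.mem_univ ζ)
  · intro φ _ ψ _ h
    funext i
    have h1 : ssA φ (φ i) = ssA ψ (φ i) := by
      rw [← hpf φ, ← hpf ψ]
      exact congrArg Nat.primeFactors (congrFun h (φ i))
    have h2 : (i : ℕ) ∈ ssA φ (φ i) := (mem_ssA φ _ _).2 ⟨i.2, rfl⟩
    rw [h1] at h2
    obtain ⟨_, h3⟩ := (mem_ssA ψ _ _).1 h2
    exact h3.symm
  · intro d hd
    rw [Finset.mem_filter, Fintype.mem_piFinset] at hd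
    obtain ⟨hd1, hd2⟩ := hd
    have hex : ∀ i : m.primeFactors, ∃ ζ : κ, (i : ℕ) ∣ d ζ := by
      intro i
      have hp := Nat.prime_of_mem_primeFactors i.2
      have h1 : (i : ℕ) ∣ ∏ ζ, d ζ := by
        rw [hd2]
        exact Nat.dvd_of_mem_primeFactors i.2
      obtain ⟨ζ, -, hζ⟩ := (Prime.dvd_finsetProd_iff hp.prime _).1 h1
      exact ⟨ζ, hζ⟩
    choose φ hφ using hex
    have huniq : ∀ (p : ℕ) (ζ ζ' : κ), p.Prime → p ∣ d ζ → p ∣ d ζ' → ζ = ζ' := by
      intro p ζ ζ' hp h1 h2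
      by_contra hne
      have h3 : p * p ∣ m := by
        rw [← hd2, ← Finset.mul_prod_erase Finset.univ d (Finset.mem_univ ζ)]
        refine mul_dvd_mul h1 (h2.trans (Finset.dvd_prod_of_mem d ?_))
        exact Finset.mem_erase.2 ⟨fun h => hne h.symm, Finset.mem_univ _⟩
      exact hp.one_lt.ne' (Nat.isUnit_iff.1 (hm p h3))
    refine ⟨φ, Finset.mem_univ _, ?_⟩
    funext ζ
    have hdvd : d ζ ∣ m := Nat.dvd_of_mem_divisors (hd1 ζ)
    have hsq : Squarefree (d ζ) := hm.squarefree_of_dvd hdvd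
    have h4 : ssA φ ζ = (d ζ).primeFactors := by
      ext p
      rw [mem_ssA]
      constructor
      · rintro ⟨h, rfl⟩
        exact Nat.mem_primeFactors.2 ⟨Nat.prime_of_mem_primeFactors h, hφ ⟨p, h⟩, hsq.ne_zero⟩
      · intro h0
        obtain ⟨hp, h5, -⟩ := Nat.mem_primeFactors.1 h0
        have h6 : p ∈ m.primeFactors := Nat.mem_primeFactors.2 ⟨hp, h5.trans hdvd, hm0⟩
        exact ⟨h6, huniq p _ _ hp (hφ ⟨p, h6⟩) h5⟩
    show ∏ p ∈ ssA φ ζ, p = d ζ
    rw [h4]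
    exact Nat.prod_primeFactors_of_squarefree hsq
  · intro φ _
    have h1 : ∀ ζ, ∏ p ∈ (∏ p ∈ ssA φ ζ, p).primeFactors, F p ζ = ∏ p ∈ ssA φ ζ, F p ζ :=
      fun ζ => by rw [hpf]
    simp only [h1]
    exact (prod_ssA φ F).symm

section

variable {ι κ : Type} [Fintype ι] [Fintype κ] [DecidableEq ι] [DecidableEq κ]

/-- products over the fibres -/
def x2psh (π : κ → ι) (x : κ → ℕ) (i : ι) : ℕ := ∏ k ∈ Finset.univ.filter (fun k => π k = i), x k

theorem x2_prod_psh (π : κ → ι) (x : κ → ℕ) : ∏ i, x2psh π x i = ∏ k, x k :=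
  Finset.prod_fiberwise Finset.univ π x

theorem x2_sqf {D : ι → ℕ} (h : Squarefree (∏ i, D i)) (i : ι) : Squarefree (D i) :=
  h.squarefree_of_dvd (Finset.dvd_prod_of_mem D (Finset.mem_univ i))

theorem x2_uniq {D : ι → ℕ} (h : Squarefree (∏ i, D i)) {p : ℕ} (hp : p.Prime) {i j : ι}
    (hi : p ∣ D i) (hj : p ∣ D j) : i = j := by
  by_contra hne
  have h3 : p * p ∣ ∏ i, D i := by
    rw [← Finset.mul_prod_erase Finset.univ D (Finset.mem_univ i)]
    refine mul_dvd_mul hi (hj.trans (Finset.dvd_prod_of_mem D ?_))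
    exact Finset.mem_erase.2 ⟨fun h => hne h.symm, Finset.mem_univ _⟩
  exact hp.one_lt.ne' (Nat.isUnit_iff.1 (h p h3))

theorem x2_primes (G : ℕ → ℝ) (D : ι → ℕ) (h : Squarefree (∏ i, D i)) :
    ∏ p ∈ (∏ i, D i).primeFactors, G p = ∏ i, ∏ p ∈ (D i).primeFactors, G p := by
  have hU : (∏ i, D i).primeFactors = Finset.univ.biUnion fun i => (D i).primeFactors := by
    ext p
    simp only [Finset.mem_biUnion, Finset.mem_univ, true_and, Nat.mem_primeFactors]
    constructor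
    · rintro ⟨hp, hd, -⟩
      obtain ⟨i, -, hi⟩ := (Prime.dvd_finsetProd_iff hp.prime _).1 hd
      exact ⟨i, hp, hi, (x2_sqf h i).ne_zero⟩
    · rintro ⟨i, hp, hd, -⟩
      exact ⟨hp, hd.trans (Finset.dvd_prod_of_mem D (Finset.mem_univ i)), h.ne_zero⟩
  rw [hU, Finset.prod_biUnion]
  intro i _ j _ hij
  refine Finset.disjoint_left.2 fun p hp hq => hij ?_
  exact x2_uniq h (Nat.prime_of_mem_primeFactors hp) (Nat.dvd_of_mem_primeFactors hp)
    (Nat.dvd_of_mem_primeFactors hq)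

/-- The product over the primes of a tuple as a sum over the tuples above it. -/
theorem x2_tuple (π : κ → ι) (D : ι → ℕ) (h : Squarefree (∏ i, D i)) (N : ℕ)
    (hN : ∀ i, D i ≤ N) (f : κ → ℕ → ℝ) :
    ∏ i, ∏ p ∈ (D i).primeFactors, ∑ k ∈ Finset.univ.filter (fun k => π k = i), f k p =
      ∑ x ∈ (Fintype.piFinset (fun _ : κ => Finset.Icc 1 N)).filter (fun x => x2psh π x = D),
        ∏ k, ∏ p ∈ (x k).primeFactors, f k p := by
  have h1 : ∏ i, ∏ p ∈ (D i).primeFactors, ∑ k ∈ Finset.univ.filter (fun k => π k = i), f k p =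
      ∏ p ∈ (∏ i, D i).primeFactors, ∑ k : κ, if p ∣ D (π k) then f k p else 0 := by
    rw [x2_primes _ D h]
    refine Finset.prod_congr rfl fun i _ => Finset.prod_congr rfl fun p hp => ?_
    rw [Finset.sum_filter]
    refine Finset.sum_congr rfl fun k _ => ?_
    have hpp := Nat.prime_of_mem_primeFactors hp
    have hpi := Nat.dvd_of_mem_primeFactors hp
    by_cases hk : π k = i
    · rw [if_pos hk, if_pos (by rw [hk]; exact hpi)]
    · rw [if_neg hk, if_neg fun hd => hk (x2_uniq h hpp hd hpi)]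
  rw [h1, x2_prod_sum _ h (fun p k => if p ∣ D (π k) then f k p else 0)]
  symm
  have hsub : (Fintype.piFinset (fun _ : κ => Finset.Icc 1 N)).filter
      (fun x => x2psh π x = D) ⊆ (Fintype.piFinset (fun _ : κ => (∏ i, D i).divisors)).filter
        (fun d => ∏ k, d k = ∏ i, D i) := by
    intro x hx
    obtain ⟨hx1, hx2⟩ := Finset.mem_filter.1 hx
    have h3 : ∏ k, x k = ∏ i, D i := by rw [← hx2, x2_prod_psh]
    refine Finset.mem_filter.2 ⟨Fintype.mem_piFinset.2 fun k => Nat.mem_divisors.2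
      ⟨?_, h.ne_zero⟩, h3⟩
    rw [← h3]
    exact Finset.dvd_prod_of_mem x (Finset.mem_univ k)
  rw [← Finset.sum_subset hsub]
  · refine Finset.sum_congr rfl fun x hx => ?_
    obtain ⟨hx1, hx2⟩ := Finset.mem_filter.1 hx
    refine Finset.prod_congr rfl fun k _ => Finset.prod_congr rfl fun p hp => ?_
    rw [if_pos]
    rw [← hx2]
    refine (Nat.dvd_of_mem_primeFactors hp).trans ?_
    exact Finset.dvd_prod_of_mem x (Finset.mem_filter.2 ⟨Finset.mem_univ k, rfl⟩)
  · intro x hx hx'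
    obtain ⟨hx1, hx2⟩ := Finset.mem_filter.1 hx
    have hx1' : ∀ k, x k ∣ ∏ i, D i := fun k =>
      Nat.dvd_of_mem_divisors (Fintype.mem_piFinset.1 hx1 k)
    by_contra hne
    have hne' := Finset.prod_ne_zero_iff.1 hne
    have h4 : ∀ k, ∀ p ∈ (x k).primeFactors, p ∣ D (π k) := by
      intro k p hp
      by_contra hc
      exact Finset.prod_ne_zero_iff.1 (hne' k (Finset.mem_univ k)) p hp (if_neg hc)
    have hsqx : Squarefree (∏ k, x k) := by rw [hx2]; exact h
    have h5 : ∀ k, x k ∣ D (π k) := fun k => by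
      rw [← Nat.prod_primeFactors_of_squarefree (x2_sqf hsqx k)]
      exact Finset.prod_primes_dvd _ (fun p hp => (Nat.prime_of_mem_primeFactors hp).prime)
        (h4 k)
    have h6 : ∀ i, x2psh π x i ∣ D i := by
      intro i
      unfold x2psh
      refine Finset.prod_dvd_of_isRelPrime ?_ ?_
      · intro k _ l _ hkl
        refine Nat.coprime_iff_isRelPrime.1 (Nat.coprime_of_dvd fun p hp hk hl => ?_)
        exact hkl (x2_uniq hsqx hp hk hl)
      · intro k hk
        have h7 := h5 k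
        rwa [(Finset.mem_filter.1 hk).2] at h7
    have h8 : x2psh π x = D := by
      have h9 : ∀ i, x2psh π x i * (D i / x2psh π x i) = D i := fun i => Nat.mul_div_cancel' (h6 i)
      have h10 : (∏ i, x2psh π x i) * ∏ i, (D i / x2psh π x i) = ∏ i, D i := by
        rw [← Finset.prod_mul_distrib]
        exact Finset.prod_congr rfl fun i _ => h9 i
      rw [x2_prod_psh, hx2] at h10
      have h11 : ∏ i, (D i / x2psh π x i) = 1 := by
        have h12 : 0 < ∏ i, D i := Nat.pos_of_ne_zero h.ne_zero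
        exact Nat.eq_of_mul_eq_mul_left h12 (by rw [h10, mul_one])
      funext i
      have h13 : D i / x2psh π x i ∣ 1 := by
        rw [← h11]
        exact Finset.dvd_prod_of_mem (fun i => D i / x2psh π x i) (Finset.mem_univ i)
      have h14 := h9 i
      rw [Nat.dvd_one.1 h13, mul_one] at h14
      exact h14
    refine hx' (Finset.mem_filter.2 ⟨Fintype.mem_piFinset.2 fun k => Finset.mem_Icc.2 ⟨?_, ?_⟩,
      h8⟩)
    · exact Nat.pos_of_ne_zero (x2_sqf hsqx k).ne_zero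
    · exact (Nat.le_of_dvd (Nat.pos_of_ne_zero (x2_sqf h (π k)).ne_zero) (h5 k)).trans (hN _)

theorem x2_gen (π : κ → ι) (N : ℕ) (Q : (ι → ℕ) → Prop) [DecidablePred Q]
    (hQ : ∀ D, Q D → Squarefree (∏ i, D i) ∧ ∀ i, D i ≤ N) (Φ : (ι → ℕ) → ℝ)
    (f : (ι → ℕ) → κ → ℕ → ℝ) :
    ∑ x ∈ Fintype.piFinset (fun _ : κ => Finset.Icc 1 N), (if Q (x2psh π x) then
      (∏ k, ∏ p ∈ (x k).primeFactors, f (x2psh π x) k p) * Φ (x2psh π x) else 0) =
    ∑ D ∈ Fintype.piFinset (fun _ : ι => Finset.Icc 1 N), if Q D then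
      (∏ i, ∏ p ∈ (D i).primeFactors, ∑ k ∈ Finset.univ.filter (fun k => π k = i), f D k p) * Φ D
      else 0 := by
  rw [← Finset.sum_filter]
  have hmaps : ∀ x ∈ (Fintype.piFinset (fun _ : κ => Finset.Icc 1 N)).filter
      (fun x => Q (x2psh π x)), x2psh π x ∈ Fintype.piFinset (fun _ : ι => Finset.Icc 1 N) := by
    intro x hx
    obtain ⟨-, h2⟩ := Finset.mem_filter.1 hx
    obtain ⟨h3, h4⟩ := hQ _ h2
    exact Fintype.mem_piFinset.2 fun i => Finset.mem_Icc.2
      ⟨Nat.pos_of_ne_zero (x2_sqf h3 i).ne_zero, h4 i⟩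
  rw [← Finset.sum_fiberwise_of_maps_to hmaps]
  refine Finset.sum_congr rfl fun D _ => ?_
  by_cases hD : Q D
  · obtain ⟨h3, h4⟩ := hQ _ hD
    rw [if_pos hD, x2_tuple π D h3 N h4 (f D), Finset.sum_mul, Finset.filter_filter]
    refine Finset.sum_congr ?_ ?_
    · refine Finset.filter_congr fun x _ => ?_
      constructor
      · exact fun h => h.2
      · intro h
        exact ⟨by rw [h]; exact hD, h⟩
    · intro x hx
      rw [(Finset.mem_filter.1 hx).2]
  · rw [if_neg hD]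
    refine Finset.sum_eq_zero fun x hx => ?_
    obtain ⟨h1, h2⟩ := Finset.mem_filter.1 hx
    obtain ⟨-, h3⟩ := Finset.mem_filter.1 h1
    rw [h2] at h3
    exact absurd h3 hD

end

end Pool.Agent.H98.ML
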