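import Pool.Agent.H98.MK.Expand2
import Pool.Agent.H98.ML.ExpGen
import Pool.Agent.H98.ML.Defs

/-!
# Project MK2 (MP_a3214d), row ML-E2, part 2: the sign of an expanded term (helper54)
-/

set_option autoImplicit false

open scoped BigOperators

namespace Pool.Agent.H98.ML

open Pool.Agent.H98.MK (psi jp lg eps sg p8 xp_sg xp_jac_right xp_jac_primes_left
  xp_jac_primes_right xp_ite_prod ss_add ss_sum sum_sg)

theorem x2_B_symm (D : Dt) (u v : D.V) : D.B u v = D.B v u := add_comm _ _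

theorem x2_B_self (D : Dt) (v : D.V) : D.B v v = 0 := Ext.two_Z _

theorem x2_B_zero_left (D : Dt) (v : D.V) : D.B 0 v = 0 := by simp [Dt.B]

theorem x2_q_zero (D : Dt) : D.q 0 = 0 := by simp [Dt.q]

/-- The obstruction at `p`. -/
noncomputable def x2X (D : Dt) (a b : D.V) (m : D.V → ℕ) (v : D.V) (p : ℕ) : D.Z :=
  ∑ u : D.V, lg (jacobiSym p (m u)) • D.B u v + lg (jacobiSym (-1) p) • D.B a v +
    lg (jacobiSym 2 p) • D.B b v + lg (jacobiSym (-1) p) • D.q v

theorem x2_okp (D : Dt) (a b : D.V) (m : D.V → ℕ) (v : D.V) (p : ℕ) :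
    D.okp a b m v p ↔ x2X D a b m v p = 0 := by
  unfold Dt.okp x2X
  constructor
  · intro h
    rw [h]
    exact Ext.two_Z _
  · intro h
    have h2 := Ext.two_Z (lg (jacobiSym (-1) p) • D.q v)
    calc ∑ u : D.V, lg (jacobiSym p (m u)) • D.B u v + lg (jacobiSym (-1) p) • D.B a v +
          lg (jacobiSym 2 p) • D.B b v
        = ∑ u : D.V, lg (jacobiSym p (m u)) • D.B u v + lg (jacobiSym (-1) p) • D.B a v +
          lg (jacobiSym 2 p) • D.B b v +
          (lg (jacobiSym (-1) p) • D.q v + lg (jacobiSym (-1) p) • D.q v) := by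
          rw [h2, add_zero]
      _ = lg (jacobiSym (-1) p) • D.q v := by rw [← add_assoc, h, zero_add]

/-- The obstruction is a commutator with `v` if `q v = 0`. -/
theorem x2_X_iso (D : Dt) (a b : D.V) (m : D.V → ℕ) (v : D.V) (p : ℕ) (hv : D.q v = 0) :
    ∃ w, x2X D a b m v p = D.B v w := by
  refine ⟨∑ u : D.V, lg (jacobiSym p (m u)) • u + lg (jacobiSym (-1) p) • a +
    lg (jacobiSym 2 p) • b, ?_⟩
  unfold x2X
  rw [hv, smul_zero, add_zero]
  unfold Dt.B
  simp only [map_add, map_sum, map_smul, LinearMap.add_apply, LinearMap.smul_apply,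
    LinearMap.sum_apply, smul_add, Finset.sum_add_distrib]
  abel

/-! ### the parameters -/

theorem x2_fib_v {D : Dt} {M : Type*} [CommMonoid M] (F : Ext D → M) (v : D.V) :
    ∏ z : D.Z, F ⟨v, z⟩ = ∏ g ∈ Finset.univ.filter (fun g : Ext D => g.v = v), F g := by
  refine Finset.prod_bij' (fun z _ => (⟨v, z⟩ : Ext D)) (fun g _ => g.z) ?_ ?_ ?_ ?_ ?_
  · intro z _
    exact Finset.mem_filter.2 ⟨Finset.mem_univ _, rfl⟩
  · intro g _
    exact Finset.mem_univ _
  · intro z _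
    rfl
  · intro g hg
    have h1 := (Finset.mem_filter.1 hg).2
    exact Ext.ext h1.symm rfl
  · intro z _
    rfl

theorem x2_mV {D : Dt} {κ : Type} [Fintype κ] [DecidableEq κ] (π : κ → Ext D) (x : κ → ℕ)
    (v : D.V) (hv : v ≠ 0) :
    D.mV (x2psh π x) v = ∏ k ∈ Finset.univ.filter (fun k => (π k).v = v), x k := by
  unfold Dt.mV
  rw [if_neg hv, x2_fib_v]
  unfold x2psh
  rw [← Finset.prod_fiberwise_of_maps_to (s := Finset.univ.filter (fun k => (π k).v = v))
    (t := Finset.univ.filter (fun g : Ext D => g.v = v)) (g := π)]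
  · refine Finset.prod_congr rfl fun g hg => ?_
    refine Finset.prod_congr ?_ fun _ _ => rfl
    ext k
    simp only [Finset.mem_filter, Finset.mem_univ, true_and]
    constructor
    · intro h
      exact ⟨by rw [h]; exact (Finset.mem_filter.1 hg).2, h⟩
    · exact fun h => h.2
  · intro k hk
    exact Finset.mem_filter.2 ⟨Finset.mem_univ _, (Finset.mem_filter.1 hk).2⟩

theorem x2_mof {D : Dt} (x : D.P → ℕ) :
    D.mof x = D.mV (x2psh (fun i : D.P => i.1) x) := by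
  funext v
  by_cases hv : v = 0
  · simp [Dt.mof, Dt.mV, hv]
  · rw [x2_mV _ _ _ hv]
    unfold Dt.mof
    rw [if_neg hv, x2_fib_v (fun g => ∏ ζ : D.Z, x (g, ζ)), ← Finset.prod_product']
    refine Finset.prod_congr ?_ fun _ _ => rfl
    ext k
    simp

theorem x2_mof_v {D : Dt} (x : D.P → ℕ) {v : D.V} (hv : v ≠ 0) :
    D.mof x v = ∏ z : D.Z, ∏ ζ : D.Z, x (⟨v, z⟩, ζ) := by
  unfold Dt.mof
  rw [if_neg hv]

/-! ### the sign identity -/

theorem x2_two {D : Dt} (x : D.P → ℕ) (hx : Squarefree (2 * ∏ i, x i)) (i : D.P) {p : ℕ}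
    (hpi : p ∣ x i) : p ≠ 2 := by
  rintro rfl
  have h2 : 2 * 2 ∣ 2 * ∏ i, x i :=
    mul_dvd_mul_left 2 (hpi.trans (Finset.dvd_prod_of_mem x (Finset.mem_univ i)))
  have h3 := Nat.isUnit_iff.1 (hx 2 h2)
  omega

theorem x2_one {D : Dt} (a b : D.V) (x : D.P → ℕ) (hx : Squarefree (2 * ∏ i, x i)) (i : D.P)
    {p : ℕ} (hp : p.Prime) (hpi : p ∣ x i) :
    sg (i.2 ⬝ᵥ x2X D a b (D.mof x) i.1.v p) =
      (∏ u : D.V, if i.2 ⬝ᵥ D.B u i.1.v = 1 then jacobiSym p (D.mof x u) else 1) *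
      (if i.2 ⬝ᵥ (D.q i.1.v + D.B i.1.v a) = 1 then jacobiSym (-1) p else 1) *
      (if i.2 ⬝ᵥ D.B i.1.v b = 1 then jacobiSym 2 p else 1) := by
  have hsq : Squarefree (∏ i, x i) := hx.squarefree_of_dvd (dvd_mul_left _ _)
  have h1 : i.2 ⬝ᵥ x2X D a b (D.mof x) i.1.v p =
      (∑ u : D.V, lg (jacobiSym p (D.mof x u)) * (i.2 ⬝ᵥ D.B u i.1.v)) +
        lg (jacobiSym (-1) p) * (i.2 ⬝ᵥ (D.q i.1.v + D.B i.1.v a)) +
        lg (jacobiSym 2 p) * (i.2 ⬝ᵥ D.B i.1.v b) := by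
    unfold x2X
    simp only [dotProduct_add, dotProduct_sum, dotProduct_smul, smul_eq_mul,
      x2_B_symm D a i.1.v, x2_B_symm D b i.1.v]
    ring
  rw [h1, ss_add, ss_add, ss_sum]
  congr 1
  · congr 1
    · refine Finset.prod_congr rfl fun u _ => xp_sg _ _ ?_
      by_cases hu0 : u = 0
      · left
        rw [hu0, x2_B_zero_left, dotProduct_zero]
      · by_cases huv : u = i.1.v
        · left
          rw [huv, x2_B_self, dotProduct_zero]
        · right
          refine jacobiSym.eq_one_or_neg_one ?_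
          rw [x2_mof_v x hu0, Int.gcd_natCast_natCast]
          refine Nat.Coprime.prod_right fun z _ => Nat.Coprime.prod_right fun ξ _ =>
            (Nat.Prime.coprime_iff_not_dvd hp).2 fun h => ?_
          have h2 := x2_uniq hsq hp hpi h
          refine huv ?_
          rw [h2]
    · refine xp_sg _ _ (Or.inr (jacobiSym.eq_one_or_neg_one ?_))
      simp
  · refine xp_sg _ _ (Or.inr (jacobiSym.eq_one_or_neg_one ?_))
    have h2 : Nat.Coprime 2 p := by
      refine (Nat.coprime_primes Nat.prime_two hp).2 ?_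
      exact (x2_two x hx _ hpi).symm
    exact h2

theorem x2_G {D : Dt} (a b : D.V) (x : D.P → ℕ) (hx : Squarefree (2 * ∏ i, x i)) (i : D.P) :
    ∏ p ∈ (x i).primeFactors, sg (i.2 ⬝ᵥ x2X D a b (D.mof x) i.1.v p) =
      (∏ j, if D.e i j = 1 then jacobiSym (x i) (x j) else 1) *
      (if i.2 ⬝ᵥ (D.q i.1.v + D.B i.1.v a) = 1 then jacobiSym (-1) (x i) else 1) *
      (if i.2 ⬝ᵥ D.B i.1.v b = 1 then jacobiSym 2 (x i) else 1) := by
  have hsq0 : Squarefree (∏ i, x i) := hx.squarefree_of_dvd (dvd_mul_left _ _)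
  have hsq := x2_sqf hsq0 i
  have h1 : ∀ p ∈ (x i).primeFactors, sg (i.2 ⬝ᵥ x2X D a b (D.mof x) i.1.v p) =
      (∏ u : D.V, if i.2 ⬝ᵥ D.B u i.1.v = 1 then jacobiSym p (D.mof x u) else 1) *
      (if i.2 ⬝ᵥ (D.q i.1.v + D.B i.1.v a) = 1 then jacobiSym (-1) p else 1) *
      (if i.2 ⬝ᵥ D.B i.1.v b = 1 then jacobiSym 2 p else 1) := fun p hp =>
    x2_one a b x hx i (Nat.prime_of_mem_primeFactors hp) (Nat.dvd_of_mem_primeFactors hp)
  rw [Finset.prod_congr rfl h1, Finset.prod_mul_distrib, Finset.prod_mul_distrib,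
    xp_ite_prod, xp_ite_prod, xp_jac_primes_right _ _ hsq, xp_jac_primes_right _ _ hsq,
    Finset.prod_comm]
  congr 2
  have h2 : ∏ j : D.P, (if D.e i j = 1 then jacobiSym (x i) (x j) else 1) =
      ∏ u : D.V, ∏ j ∈ Finset.univ.filter (fun j : D.P => j.1.v = u),
        (if D.e i j = 1 then jacobiSym (x i) (x j) else 1) :=
    (Finset.prod_fiberwise Finset.univ (fun j : D.P => j.1.v) _).symm
  rw [h2]
  refine Finset.prod_congr rfl fun u _ => ?_
  rw [xp_ite_prod, xp_jac_primes_left _ _ hsq]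
  have h3 : ∏ j ∈ Finset.univ.filter (fun j : D.P => j.1.v = u),
      (if D.e i j = 1 then jacobiSym (x i) (x j) else 1) =
      ∏ j ∈ Finset.univ.filter (fun j : D.P => j.1.v = u),
      (if i.2 ⬝ᵥ D.B u i.1.v = 1 then jacobiSym (x i) (x j) else 1) := by
    refine Finset.prod_congr rfl fun j hj => ?_
    unfold Dt.e
    rw [(Finset.mem_filter.1 hj).2, x2_B_symm]
  rw [h3, xp_ite_prod]
  by_cases hu : u = 0
  · subst hu
    simp [x2_B_zero_left]
  · rw [x2_mof, x2_mV _ _ _ hu, xp_jac_right _ _ _ fun k _ => (x2_sqf hsq0 k).ne_zero]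

theorem x2_sign {D : Dt} (a b : D.V) (x : D.P → ℕ) (hx : Squarefree (2 * ∏ i, x i)) :
    ∏ i, ∏ p ∈ (x i).primeFactors, sg (i.2 ⬝ᵥ x2X D a b (D.mof x) i.1.v p) =
      D.sgn a b x := by
  rw [Finset.prod_congr rfl fun i _ => x2_G a b x hx i]
  unfold Dt.sgn
  rw [Finset.prod_mul_distrib, Finset.prod_mul_distrib]

end Pool.Agent.H98.ML
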