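import Pool.Agent.H98.ML.PDefs

/-!
# Project MK2 (MP_a3214d), row P2: auxiliary lemmas
-/

set_option autoImplicit false

open scoped BigOperators

namespace Pool.Agent.H98.ML

open Pool.Agent.H98.MK (psi jp lg eps sg p8)

variable {D : Dt}

theorem fle_inj {k l : Fin D.r} (h : (Pi.single k 1 : D.V) = Pi.single l 1) : k = l := by
  by_contra hne
  have h1 := congrFun h k
  rw [Pi.single_eq_same, Pi.single_eq_of_ne hne] at h1
  exact one_ne_zero h1

theorem fle_ne (k : Fin D.r) : (Pi.single k 1 : D.V) ≠ 0 := by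
  intro h
  have h1 := congrFun h k
  rw [Pi.single_eq_same] at h1
  exact one_ne_zero h1

/-- the auxiliary factor of an element -/
noncomputable def flePP (π : Pr D) (g : Ext D) : ℕ :=
  ∏ k, if (⟨Pi.single k 1, 0⟩ : Ext D) = g then π.p k else 1

/-- the auxiliary factor of a vector -/
noncomputable def fleQQ (π : Pr D) (u : D.V) : ℕ :=
  ∏ k, if (Pi.single k 1 : D.V) = u then π.p k else 1

theorem fle_PP_pos (π : Pr D) (g : Ext D) : 0 < flePP π g := by
  unfold flePP
  refine Finset.prod_pos fun k _ => ?_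
  split_ifs
  · exact (π.prime k).pos
  · exact one_pos

theorem fle_QQ_pos (π : Pr D) (u : D.V) : 0 < fleQQ π u := by
  unfold fleQQ
  refine Finset.prod_pos fun k _ => ?_
  split_ifs
  · exact (π.prime k).pos
  · exact one_pos

theorem fle_PP_one (π : Pr D) : flePP π 1 = 1 := by
  unfold flePP
  refine Finset.prod_eq_one fun k _ => ?_
  rw [if_neg]
  intro h
  exact fle_ne k (congrArg Ext.v h)

theorem fle_prod_PP (π : Pr D) : ∏ g, flePP π g = ∏ k, π.p k := by
  unfold flePP
  rw [Finset.prod_comm]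
  refine Finset.prod_congr rfl fun k _ => ?_
  rw [Finset.prod_ite_eq, if_pos (Finset.mem_univ _)]

theorem fle_QQ_e (π : Pr D) (k : Fin D.r) : fleQQ π (Pi.single k 1) = π.p k := by
  unfold fleQQ
  rw [Finset.prod_eq_single k]
  · rw [if_pos rfl]
  · intro l _ hl
    rw [if_neg]
    intro h
    exact hl (fle_inj h)
  · intro h
    exact absurd (Finset.mem_univ k) h

theorem fle_QQ_one (π : Pr D) (u : D.V) (h : ∀ k, (Pi.single k 1 : D.V) ≠ u) :
    fleQQ π u = 1 := by
  unfold fleQQ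
  exact Finset.prod_eq_one fun k _ => if_neg (h k)

theorem fle_prod_z (π : Pr D) (u : D.V) : ∏ z : D.Z, flePP π ⟨u, z⟩ = fleQQ π u := by
  unfold flePP fleQQ
  rw [Finset.prod_comm]
  refine Finset.prod_congr rfl fun k _ => ?_
  by_cases h : (Pi.single k 1 : D.V) = u
  · rw [if_pos h, Finset.prod_eq_single 0]
    · rw [if_pos (by rw [h])]
    · intro z _ hz
      rw [if_neg]
      intro h1
      exact hz (congrArg Ext.z h1).symm
    · intro h1
      exact absurd (Finset.mem_univ _) h1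
  · rw [if_neg h]
    refine Finset.prod_eq_one fun z _ => ?_
    rw [if_neg]
    intro h1
    exact h (congrArg Ext.v h1)

theorem fle_mV (π : Pr D) (y : Ext D → ℕ) (u : D.V) :
    D.mV (fun g => y g * flePP π g) u = D.mV y u * fleQQ π u := by
  unfold Dt.mV
  by_cases h : u = 0
  · rw [if_pos h, if_pos h, one_mul, h]
    exact (fle_QQ_one π 0 fun k => fle_ne k).symm
  · rw [if_neg h, if_neg h, Finset.prod_mul_distrib, fle_prod_z]

theorem fle_lg_mul {x y : ℤ} (hx : x = 1 ∨ x = -1) (hy : y = 1 ∨ y = -1) :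
    lg (x * y) = lg x + lg y := by
  rcases hx with rfl | rfl <;> rcases hy with rfl | rfl <;> decide

theorem fle_sq {ι : Type} [Fintype ι] [DecidableEq ι] (y : ι → ℕ) (N : ℕ)
    (h : Squarefree (N * ∏ i, y i)) {i j : ι} (hij : i ≠ j) {p : ℕ} (hp : p.Prime)
    (hi : p ∣ y i) : ¬ p ∣ y j := by
  intro hj
  have h1 : y i * y j ∣ ∏ i, y i := by
    rw [← Finset.mul_prod_erase Finset.univ y (Finset.mem_univ i)]
    exact mul_dvd_mul_left _
      (Finset.dvd_prod_of_mem y (Finset.mem_erase.2 ⟨hij.symm, Finset.mem_univ j⟩))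
  have h2 : p * p ∣ N * ∏ i, y i := ((mul_dvd_mul hi hj).trans h1).mul_left N
  have h3 := h p h2
  rw [Nat.isUnit_iff] at h3
  exact hp.one_lt.ne' h3

theorem fle_sq' (N M : ℕ) (h : Squarefree (N * M)) {p : ℕ} (hp : p.Prime)
    (hi : p ∣ M) : ¬ p ∣ N := by
  intro hj
  have h3 := h p (mul_dvd_mul hj hi)
  rw [Nat.isUnit_iff] at h3
  exact hp.one_lt.ne' h3

/-- commutators as a linear map -/
def fleBL (D : Dt) (v : D.V) : D.V →ₗ[ZMod 2] D.Z := D.β v + D.β.flip v

theorem fle_BL (v u : D.V) : fleBL D v u = D.B v u := rfl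

theorem fle_comm (v u : D.V) : D.B v u = D.B u v := add_comm _ _

theorem fle_self (v : D.V) : D.B v v = 0 := Ext.two_Z _

theorem fle_zero (v : D.V) : D.B 0 v = 0 := by
  unfold Dt.B
  simp

theorem fle_frob (π : Pr D) (p : ℕ) (v : D.V) :
    ∑ k, frob π p k • D.B (Pi.single k 1) v = D.B v (frob π p) := by
  have h1 : frob π p = ∑ k, frob π p k • (Pi.single k 1 : D.V) := by
    funext j
    rw [Finset.sum_apply, Finset.sum_eq_single j]
    · simp
    · intro l _ hl
      rw [Pi.smul_apply, Pi.single_eq_of_ne hl.symm, smul_zero]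
    · intro h
      exact absurd (Finset.mem_univ j) h
  rw [← fle_BL v (frob π p)]
  conv_rhs => rw [h1]
  rw [map_sum]
  refine Finset.sum_congr rfl fun k _ => ?_
  rw [map_smul, fle_BL, fle_comm]

theorem fle_QQ_lg (π : Pr D) (p : ℕ) (u : D.V) :
    lg (jacobiSym p (fleQQ π u)) = ∑ k, if (Pi.single k 1 : D.V) = u then frob π p k else 0 := by
  by_cases h : ∃ k, (Pi.single k 1 : D.V) = u
  · obtain ⟨k, rfl⟩ := h
    rw [fle_QQ_e, Finset.sum_eq_single k]
    · rw [if_pos rfl]
      rfl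
    · intro l _ hl
      rw [if_neg]
      intro h
      exact hl (fle_inj h)
    · intro h
      exact absurd (Finset.mem_univ k) h
  · have h1 : ∀ k, (Pi.single k 1 : D.V) ≠ u := fun k hk => h ⟨k, hk⟩
    rw [fle_QQ_one π u h1, jacobiSym.one_right]
    rw [Finset.sum_eq_zero fun k _ => if_neg (h1 k)]
    decide

theorem fle_QQ_sum (π : Pr D) (p : ℕ) (v : D.V) :
    ∑ u : D.V, lg (jacobiSym p (fleQQ π u)) • D.B u v = D.B v (frob π p) := by
  rw [← fle_frob]
  have h1 : ∀ u : D.V, lg (jacobiSym p (fleQQ π u)) • D.B u v =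
      ∑ k, if (Pi.single k 1 : D.V) = u then frob π p k • D.B u v else 0 := by
    intro u
    rw [fle_QQ_lg, Finset.sum_smul]
    refine Finset.sum_congr rfl fun k _ => ?_
    split_ifs
    · rfl
    · rw [zero_smul]
  rw [Finset.sum_congr rfl fun u _ => h1 u, Finset.sum_comm]
  refine Finset.sum_congr rfl fun k _ => ?_
  rw [Finset.sum_ite_eq, if_pos (Finset.mem_univ _)]

theorem fle_pm {p n : ℕ} (hp : p.Prime) (h : ¬ p ∣ n) :
    jacobiSym p n = 1 ∨ jacobiSym p n = -1 := by
  refine jacobiSym.eq_one_or_neg_one ?_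
  rw [Int.gcd_natCast_natCast]
  exact (Nat.Prime.coprime_iff_not_dvd hp).2 h

theorem fle_mV_dvd {y : Ext D → ℕ} {u : D.V} {p : ℕ} (hp : p.Prime)
    (h : p ∣ D.mV y u) : u ≠ 0 ∧ ∃ z : D.Z, p ∣ y ⟨u, z⟩ := by
  unfold Dt.mV at h
  by_cases h0 : u = 0
  · rw [if_pos h0] at h
    exact absurd (Nat.dvd_one.1 h) hp.one_lt.ne'
  · rw [if_neg h0] at h
    obtain ⟨z, -, hz⟩ := (hp.prime.dvd_finsetProd_iff _).1 h
    exact ⟨h0, z, hz⟩

theorem fle_QQ_dvd (π : Pr D) {u : D.V} {p : ℕ} (hp : p.Prime)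
    (h : p ∣ fleQQ π u) : ∃ k, Pi.single k 1 = u ∧ p = π.p k := by
  by_contra hc
  push Not at hc
  unfold fleQQ at h
  obtain ⟨k, -, hk⟩ := (hp.prime.dvd_finsetProd_iff _).1 h
  by_cases h1 : (Pi.single k 1 : D.V) = u
  · rw [if_pos h1] at hk
    exact hc k h1 ((Nat.prime_dvd_prime_iff_eq hp (π.prime k)).1 hk)
  · rw [if_neg h1] at hk
    exact absurd (Nat.dvd_one.1 hk) hp.one_lt.ne'

theorem fle_ok1 (w : Wt D) (π : Pr D) (y : Ext D → ℕ)
    (hsq : Squarefree (2 * (∏ k, π.p k) * ∏ g, y g)) (hpos : ∀ g, y g ≠ 0) (g : Ext D)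
    (hg : w.IsM g) (p : ℕ) (hp : p.Prime) (hpg : p ∣ y g)
    (hB : D.B g.v (frob π p + ∑ u : D.V, lg (jacobiSym p (D.mV y u)) • u) = 0) :
    D.okp 0 0 (D.mV fun g => y g * flePP π g) g.v p := by
  have hq : D.q g.v = 0 := by
    have h1 : g * g = 1 := by
      by_contra hc
      have h2 := w.sqr g hc
      rw [hg.2] at h2
      exact lt_irrefl _ h2
    have h2 := congrArg Ext.z h1
    rw [Ext.mul_z, Ext.two_Z, zero_add, Ext.one_z] at h2
    exact h2
  unfold Dt.okp
  rw [fle_zero, smul_zero, smul_zero, add_zero, add_zero, hq, smul_zero]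
  have h1 : ∀ u : D.V, lg (jacobiSym p (D.mV (fun g => y g * flePP π g) u)) • D.B u g.v =
      lg (jacobiSym p (D.mV y u)) • D.B u g.v + lg (jacobiSym p (fleQQ π u)) • D.B u g.v := by
    intro u
    by_cases hu : u = g.v
    · rw [hu, fle_self, smul_zero, smul_zero, smul_zero, add_zero]
    · have a1 : ¬ p ∣ D.mV y u := by
        intro hc
        obtain ⟨-, z, hz⟩ := fle_mV_dvd hp hc
        refine fle_sq y _ hsq (i := g) (j := ⟨u, z⟩) ?_ hp hpg hz
        intro h
        exact hu (congrArg Ext.v h).symm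
      have a2 : ¬ p ∣ fleQQ π u := by
        intro hc
        obtain ⟨k, -, hk⟩ := fle_QQ_dvd π hp hc
        refine fle_sq' _ _ hsq hp (hpg.trans (Finset.dvd_prod_of_mem y (Finset.mem_univ g))) ?_
        refine Dvd.dvd.mul_left ?_ 2
        rw [hk]
        exact Finset.dvd_prod_of_mem _ (Finset.mem_univ k)
      have a3 : D.mV y u ≠ 0 := by
        unfold Dt.mV
        split_ifs
        · exact one_ne_zero
        · exact Finset.prod_ne_zero_iff.2 fun z _ => hpos _
      rw [fle_mV, jacobiSym.mul_right' _ a3 (fle_QQ_pos π u).ne',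
        fle_lg_mul (fle_pm hp a1) (fle_pm hp a2), add_smul]
  rw [Finset.sum_congr rfl fun u _ => h1 u, Finset.sum_add_distrib, fle_QQ_sum]
  have h2 : ∑ u : D.V, lg (jacobiSym p (D.mV y u)) • D.B u g.v =
      D.B g.v (∑ u : D.V, lg (jacobiSym p (D.mV y u)) • u) := by
    rw [← fle_BL g.v (∑ u : D.V, lg (jacobiSym p (D.mV y u)) • u), map_sum]
    refine Finset.sum_congr rfl fun u _ => ?_
    rw [map_smul, fle_BL, fle_comm]
  rw [h2, add_comm, ← fle_BL, ← fle_BL, ← map_add, fle_BL]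
  exact hB

theorem fle_ok2 (π : Pr D) (y : Ext D → ℕ)
    (hsq : Squarefree (2 * (∏ k, π.p k) * ∏ g, y g)) (hpos : ∀ g, y g ≠ 0)
    (hC : Cnd π (D.mV y)) (k : Fin D.r) :
    D.okp 0 0 (D.mV fun g => y g * flePP π g) (Pi.single k 1) (π.p k) := by
  have h8 := π.mod k
  have hodd : Odd (π.p k) := by
    rw [Nat.odd_iff]
    omega
  have h1 : jacobiSym (-1) (π.p k) = 1 := by
    rw [jacobiSym.at_neg_one hodd, ZMod.χ₄_nat_one_mod_four (by omega)]
  unfold Dt.okp
  rw [fle_zero, smul_zero, smul_zero, add_zero, add_zero, h1]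
  have h2 : lg 1 = 0 := by decide
  rw [h2, zero_smul]
  refine Finset.sum_eq_zero fun u _ => ?_
  by_cases hu : u = Pi.single k 1
  · rw [hu, fle_self, smul_zero]
  · have a3 : D.mV y u ≠ 0 := by
      unfold Dt.mV
      split_ifs
      · exact one_ne_zero
      · exact Finset.prod_ne_zero_iff.2 fun z _ => hpos _
    have a4 : Odd (D.mV y u) := by
      rw [← Nat.not_even_iff_odd]
      intro he
      obtain ⟨-, z, hz⟩ := fle_mV_dvd Nat.prime_two (even_iff_two_dvd.1 he)
      refine fle_sq' _ _ hsq Nat.prime_two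
        (hz.trans (Finset.dvd_prod_of_mem y (Finset.mem_univ _))) ?_
      exact Dvd.dvd.mul_right (dvd_refl 2) _
    have a5 : jacobiSym (π.p k) (D.mV y u) = 1 := by
      rw [jacobiSym.quadratic_reciprocity_one_mod_four (by omega) a4]
      exact (hC u).2 k
    have a6 : jacobiSym (π.p k) (fleQQ π u) = 1 := by
      by_cases h : ∃ l, (Pi.single l 1 : D.V) = u
      · obtain ⟨l, rfl⟩ := h
        rw [fle_QQ_e]
        refine π.res k l ?_
        rintro rfl
        exact hu rfl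
      · have h1 : ∀ k, (Pi.single k 1 : D.V) ≠ u := fun k hk => h ⟨k, hk⟩
        rw [fle_QQ_one π u h1, jacobiSym.one_right]
    rw [fle_mV, jacobiSym.mul_right' _ a3 (fle_QQ_pos π u).ne', a5, a6, mul_one, h2, zero_smul]

theorem fle_res (π : Pr D) (y : Ext D → ℕ) (hC : Cnd π (D.mV y)) (v : D.V) :
    ((D.mV (fun g => y g * flePP π g) v : ℕ) : ZMod 8) = 1 := by
  rw [fle_mV, Nat.cast_mul, (hC v).1, one_mul]
  unfold fleQQ
  rw [Nat.cast_prod]
  refine Finset.prod_eq_one fun k _ => ?_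
  split_ifs
  · have h1 := π.mod k
    rw [← ZMod.natCast_mod, h1]
    rfl
  · exact Nat.cast_one

theorem fle_span (D : Dt) (T : Finset D.V) (h : ∀ k : Fin D.r, Pi.single k 1 ∈ T) :
    D.Span 0 0 T := by
  unfold Dt.Span
  rw [eq_top_iff]
  intro x _
  have h1 : x = ∑ k, x k • (Pi.single k 1 : D.V) := by
    funext j
    rw [Finset.sum_apply, Finset.sum_eq_single j]
    · simp
    · intro l _ hl
      rw [Pi.smul_apply, Pi.single_eq_of_ne hl.symm, smul_zero]
    · intro h
      exact absurd (Finset.mem_univ j) h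
  rw [h1]
  refine Submodule.sum_mem _ fun k _ => Submodule.smul_mem _ _ (Submodule.subset_span ?_)
  exact Set.mem_insert_of_mem _ (Set.mem_insert_of_mem _ (Finset.mem_coe.2 (h k)))

end Pool.Agent.H98.ML
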