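import Pool.Agent.H98.ML.PDefs
import Pool.Agent.H98.ML.SgnPsi2
import Pool.Agent.H98.ML.Fourier2
import Pool.Agent.H98.ML.SExpand2Aux
import Pool.Agent.H98.MK.Expand2

/-!
# Project MK2 (MP_a3214d), row P4: the expansion of the summand of `FX`
-/

set_option autoImplicit false

open scoped BigOperators
open Filter

namespace Pool.Agent.H98.ML

open Pool.Agent.H98.MK (psi jp lg eps sg p8 ss_add ss_sum xp_jac_left)

variable {D : Dt}

open Classical in
/-- the residue condition modulo eight as a weight -/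
noncomputable def fsTh (D : Dt) : D.V → D.V → (D.V → ZMod 8) → Finset D.V → ℝ :=
  fun _ _ δ _ => if ∀ v, δ v = 1 then 1 else 0

theorem fs_B_zero (v : D.V) : D.B v 0 = 0 := by
  unfold Dt.B
  rw [map_zero, map_zero, LinearMap.zero_apply, add_zero]

theorem fs_zero_B (v : D.V) : D.B 0 v = 0 := by
  unfold Dt.B
  rw [map_zero, map_zero, LinearMap.zero_apply, add_zero]

open Classical in
theorem fs_mod (σ : Finset D.P) (hq : ∀ i ∈ σ, D.q i.1.v = 0) (x : D.P → ℕ)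
    (hx : ∀ i, x i ≠ 1 ↔ i ∈ σ) (hsq : Squarefree (2 * ∏ i, x i)) :
    ((∏ i, ∏ j, if D.e i j = 1 then jacobiSym (x i) (x j) else 1 : ℤ) : ℝ) *
      (if ∀ v, (D.mof x v : ZMod 8) = 1 then 1 else 0) =
    ∑ c ∈ D.C4 σ, D.coef (fsTh D) 0 0 σ c *
      (((∏ i ∈ σ, p8 (c i) (x i : ZMod 8) : ℤ) : ℝ) * (jp D.L x : ℝ)) := by
  have h1 := sgn_psi2 D (fsTh D) 0 0 σ x hx hsq
  have h2 : D.sgn 0 0 x = ∏ i, ∏ j, if D.e i j = 1 then jacobiSym (x i) (x j) else 1 := by
    unfold Dt.sgn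
    have h3 : (∏ i : D.P, if i.2 ⬝ᵥ (D.q i.1.v + D.B i.1.v 0) = 1
        then jacobiSym (-1) (x i) else 1) = 1 := by
      refine Finset.prod_eq_one fun i _ => ?_
      by_cases hi : i ∈ σ
      · rw [hq i hi, fs_B_zero, add_zero, dotProduct_zero, if_neg (by decide)]
      · have h4 : x i = 1 := by
          by_contra h5
          exact hi ((hx i).1 h5)
        rw [h4, jacobiSym.one_right]
        split_ifs <;> rfl
    have h3' : (∏ i : D.P, if i.2 ⬝ᵥ D.B i.1.v 0 = 1 then jacobiSym 2 (x i) else 1) = 1 := by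
      refine Finset.prod_eq_one fun i _ => ?_
      rw [fs_B_zero, dotProduct_zero, if_neg (by decide)]
    rw [h3, h3', mul_one, mul_one]
  rw [h2] at h1
  have h4 : fsTh D 0 0 (fun v => (D.mof x v : ZMod 8))
      (Finset.univ.filter fun v => D.mof x v ≠ 1) =
      if ∀ v, (D.mof x v : ZMod 8) = 1 then 1 else 0 := rfl
  rw [h4] at h1
  rw [h1]
  have h5 : (fun i => (x i : ZMod 8)) ∈ D.U8 σ := by
    unfold Dt.U8
    rw [Fintype.mem_piFinset]
    intro i
    by_cases hi : i ∈ σ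
    · rw [if_pos hi]
      exact e5_cast_mem (x i) (e5_odd x hsq i)
    · rw [if_neg hi, Finset.mem_singleton]
      have h3 : x i = 1 := by
        by_contra h4
        exact hi ((hx i).1 h4)
      rw [h3, Nat.cast_one]
  rw [fourier2 D σ (D.Psi (fsTh D) 0 0 σ) _ h5, Finset.sum_mul]
  refine Finset.sum_congr rfl fun c _ => ?_
  unfold Dt.coef
  ring

/-- the links with the auxiliary primes -/
def fsK (T : Finset (D.V × Fin D.r)) (i : D.P) (k : Fin D.r) : Prop :=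
  ¬ ((i.1.v ≠ 0 ∧ (i.1.v, k) ∈ T) ↔ i.2 ⬝ᵥ D.B i.1.v (Pi.single k 1) = 1)

theorem fs_prod {M : Type*} [CommMonoid M] (F : D.P → M) :
    ∏ i, F i = ∏ v : D.V, ∏ z : D.Z, ∏ ζ : D.Z, F (⟨v, z⟩, ζ) := by
  rw [Fintype.prod_prod_type]
  rw [← (Ext.equivProd (D := D)).symm.prod_comp, Fintype.prod_prod_type]
  rfl

theorem fs_B_sum (v κ : D.V) : D.B v κ = ∑ k, κ k • D.B v (Pi.single k 1) := by
  have h1 : κ = ∑ k, κ k • (Pi.single k 1 : D.V) := by
    funext l
    rw [Finset.sum_apply]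
    simp [Pi.single_apply]
  conv_lhs => rw [h1]
  unfold Dt.B
  rw [map_sum, map_sum, LinearMap.sum_apply, ← Finset.sum_add_distrib]
  refine Finset.sum_congr rfl fun k _ => ?_
  rw [map_smul, map_smul, LinearMap.smul_apply, smul_add]

theorem fs_sg1 (j : ℤ) (t : ZMod 2) (h : j = 1 ∨ j = -1) :
    sg (lg j * t) = if t = 1 then j else 1 := by
  rcases h with rfl | rfl
  · revert t
    decide
  · revert t
    decide

open Classical in
theorem fs_sgn (π : Pr D) (x : D.P → ℕ)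
    (hJ : ∀ i k, jacobiSym (x i) (π.p k) = 1 ∨ jacobiSym (x i) (π.p k) = -1) (i : D.P) :
    sg (i.2 ⬝ᵥ D.B i.1.v (frob π (x i))) =
      ∏ k, if i.2 ⬝ᵥ D.B i.1.v (Pi.single k 1) = 1 then jacobiSym (x i) (π.p k) else 1 := by
  rw [fs_B_sum, dotProduct_sum, ss_sum]
  refine Finset.prod_congr rfl fun k _ => ?_
  rw [dotProduct_smul, smul_eq_mul]
  unfold frob
  rw [fs_sg1 _ _ (hJ i k)]

theorem fs_jac1 (m : ℕ) : jacobiSym ((1 : ℕ) : ℤ) m = 1 := by
  rw [Nat.cast_one, jacobiSym.one_left]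

open Classical in
theorem fs_mof (π : Pr D) (x : D.P → ℕ) (T : Finset (D.V × Fin D.r)) :
    ∏ a ∈ T, jacobiSym (D.mof x a.1) (π.p a.2) =
      ∏ i : D.P, ∏ k, if i.1.v ≠ 0 ∧ (i.1.v, k) ∈ T then jacobiSym (x i) (π.p k) else 1 := by
  have h1 : ∏ a ∈ T, jacobiSym (D.mof x a.1) (π.p a.2) =
      ∏ v : D.V, ∏ k, if (v, k) ∈ T then jacobiSym (D.mof x v) (π.p k) else 1 := by
    rw [← Fintype.prod_prod_type (fun a : D.V × Fin D.r =>
      if a ∈ T then jacobiSym (D.mof x a.1) (π.p a.2) else 1), Finset.prod_ite_mem,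
      Finset.univ_inter]
  rw [h1, fs_prod]
  refine Finset.prod_congr rfl fun v _ => ?_
  have h2 : ∀ z : D.Z, (∏ ζ : D.Z, ∏ k, if v ≠ 0 ∧ (v, k) ∈ T
      then jacobiSym (x (⟨v, z⟩, ζ)) (π.p k) else 1) =
      ∏ k, ∏ ζ : D.Z, if v ≠ 0 ∧ (v, k) ∈ T then jacobiSym (x (⟨v, z⟩, ζ)) (π.p k) else 1 :=
    fun z => Finset.prod_comm
  show _ = ∏ z : D.Z, ∏ ζ : D.Z, ∏ k, if v ≠ 0 ∧ (v, k) ∈ T
      then jacobiSym (x (⟨v, z⟩, ζ)) (π.p k) else 1
  rw [Finset.prod_congr rfl fun z _ => h2 z, Finset.prod_comm]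
  refine Finset.prod_congr rfl fun k _ => ?_
  by_cases hv : v = 0
  · simp [hv, Dt.mof]
  · by_cases hT : (v, k) ∈ T
    · simp only [hv, hT, ne_eq, not_false_eq_true, and_self, if_true]
      unfold Dt.mof
      rw [if_neg hv, ← xp_jac_left]
      refine Finset.prod_congr rfl fun z _ => ?_
      rw [← xp_jac_left]
    · simp [hT]

theorem fs_pm_prod {ι : Type*} (s : Finset ι) (f : ι → ℤ) (h : ∀ i ∈ s, f i = 1 ∨ f i = -1) :
    ∏ i ∈ s, f i = 1 ∨ ∏ i ∈ s, f i = -1 := by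
  classical
  induction s using Finset.induction_on with
  | empty => simp
  | insert a s ha ih =>
    rw [Finset.prod_insert ha]
    have h1 := h a (Finset.mem_insert_self a s)
    have h2 := ih fun i hi => h i (Finset.mem_insert_of_mem hi)
    rcases h1 with h1 | h1 <;> rcases h2 with h2 | h2 <;> rw [h1, h2] <;> simp

theorem fs_mof_pm (π : Pr D) (x : D.P → ℕ)
    (hJ : ∀ i k, jacobiSym (x i) (π.p k) = 1 ∨ jacobiSym (x i) (π.p k) = -1) (v : D.V)
    (k : Fin D.r) :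
    jacobiSym (D.mof x v) (π.p k) = 1 ∨ jacobiSym (D.mof x v) (π.p k) = -1 := by
  unfold Dt.mof
  split_ifs with hv
  · left
    exact fs_jac1 _
  · rw [← xp_jac_left]
    refine fs_pm_prod _ _ fun z _ => ?_
    rw [← xp_jac_left]
    exact fs_pm_prod _ _ fun ζ _ => hJ _ _

open Classical in
/-- the residue conditions at the auxiliary primes together with the signs -/
theorem fs_res (π : Pr D) (x : D.P → ℕ)
    (hJ : ∀ i k, jacobiSym (x i) (π.p k) = 1 ∨ jacobiSym (x i) (π.p k) = -1) :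
    (if ∀ (v : D.V) (k : Fin D.r), jacobiSym (D.mof x v) (π.p k) = 1 then (1 : ℝ) else 0) *
      ((∏ i : D.P, sg (i.2 ⬝ᵥ D.B i.1.v (frob π (x i))) : ℤ) : ℝ) =
    ∑ T : Finset (D.V × Fin D.r), (1 / 2 : ℝ) ^ (Fintype.card (D.V × Fin D.r)) *
      ((∏ i : D.P, ∏ k, if fsK T i k then jacobiSym (x i) (π.p k) else 1 : ℤ) : ℝ) := by
  have h1 : (if ∀ (v : D.V) (k : Fin D.r), jacobiSym (D.mof x v) (π.p k) = 1
      then (1 : ℝ) else 0) =
      ∏ a : D.V × Fin D.r, ((1 / 2 : ℝ) * (1 + (jacobiSym (D.mof x a.1) (π.p a.2) : ℝ))) := by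
    by_cases h : ∀ (v : D.V) (k : Fin D.r), jacobiSym (D.mof x v) (π.p k) = 1
    · rw [if_pos h]
      symm
      refine Finset.prod_eq_one fun a _ => ?_
      rw [h a.1 a.2]
      norm_num
    · rw [if_neg h]
      push Not at h
      obtain ⟨v, k, hk⟩ := h
      symm
      refine Finset.prod_eq_zero (Finset.mem_univ (v, k)) ?_
      rcases fs_mof_pm π x hJ v k with h2 | h2
      · exact absurd h2 hk
      · simp only [h2]
        norm_num
  rw [h1, Finset.prod_mul_distrib, Finset.prod_const, Finset.card_univ, Finset.prod_one_add,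
    Finset.mul_sum, Finset.sum_mul, Finset.powerset_univ]
  refine Finset.sum_congr rfl fun T _ => ?_
  rw [mul_assoc]
  congr 1
  have h2 : (∏ a ∈ T, (jacobiSym (D.mof x a.1) (π.p a.2) : ℝ)) =
      ((∏ a ∈ T, jacobiSym (D.mof x a.1) (π.p a.2) : ℤ) : ℝ) := by push_cast; rfl
  rw [h2, ← Int.cast_mul, fs_mof]
  congr 1
  rw [← Finset.prod_mul_distrib]
  refine Finset.prod_congr rfl fun i _ => ?_
  rw [fs_sgn π x hJ i, ← Finset.prod_mul_distrib]
  refine Finset.prod_congr rfl fun k _ => ?_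
  unfold fsK
  by_cases hA : i.1.v ≠ 0 ∧ (i.1.v, k) ∈ T
  · by_cases hB : i.2 ⬝ᵥ D.B i.1.v (Pi.single k 1) = 1
    · rw [if_pos hA, if_pos hB, if_neg (fun h => h (iff_of_true hA hB))]
      rcases hJ i k with h | h <;> rw [h] <;> norm_num
    · rw [if_pos hA, if_neg hB, if_pos (fun h => hB (h.1 hA)), mul_one]
  · by_cases hB : i.2 ⬝ᵥ D.B i.1.v (Pi.single k 1) = 1
    · rw [if_neg hA, if_pos hB, if_pos (fun h => hA (h.2 hB)), one_mul]
    · rw [if_neg hA, if_neg hB, if_neg (fun h => h (iff_of_false hA hB)), one_mul]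

end Pool.Agent.H98.ML
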