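import Pool.Agent.H98.ML.FXSmallA

/-!
# Project MK2 (MP_a3214d), row P4: the basic sums with the auxiliary primes as variables
-/

set_option autoImplicit false

open scoped BigOperators
open Filter

namespace Pool.Agent.H98.ML

open Pool.Agent.H98.MK (psi jp lg eps sg p8 psi_p8)

variable {D : Dt}

/-- the links of the extended sums -/
def fsL (σ : Finset D.P) (T : Finset (D.V × Fin D.r)) :
    {i // i ∈ σ} ⊕ Fin D.r → {i // i ∈ σ} ⊕ Fin D.r → Prop
  | .inl i, .inl j => D.L i.1 j.1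
  | .inl i, .inr k => fsK T i.1 k
  | .inr _, _ => False

/-- the size exponents of the extended sums -/
def fsW (σ : Finset D.P) : {i // i ∈ σ} ⊕ Fin D.r → ℝ := Sum.elim (fun _ => 1) (fun _ => 2)

/-- the one-variable weights of the extended sums -/
noncomputable def fsA (π : Pr D) (σ : Finset D.P) (c : D.P → Fin 4) :
    {i // i ∈ σ} ⊕ Fin D.r → ℕ → ℝ
  | .inl i, n => if 2 ≤ n then (psi (c i.1) n : ℝ) else 0
  | .inr k, n => if n = π.p k then 1 else 0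

/-- the extended tuple -/
def fsY (π : Pr D) (σ : Finset D.P) (x : D.P → ℕ) : {i // i ∈ σ} ⊕ Fin D.r → ℕ :=
  Sum.elim (fun i => x i.1) π.p

theorem fs_prod_coe {M : Type*} [CommMonoid M] (σ : Finset D.P) (f : D.P → M)
    (h : ∀ i, i ∉ σ → f i = 1) : ∏ i : {i // i ∈ σ}, f i.1 = ∏ i, f i := by
  classical
  rw [Finset.prod_coe_sort σ f]
  exact Finset.prod_subset (Finset.subset_univ σ) fun i _ hi => h i hi

theorem fs_jp (π : Pr D) (σ : Finset D.P) (T : Finset (D.V × Fin D.r)) (x : D.P → ℕ)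
    (hx1 : ∀ i, i ∉ σ → x i = 1) :
    (open Classical in (jp D.L x : ℤ) *
      ∏ i : D.P, ∏ k, if fsK T i k then jacobiSym (x i) (π.p k) else 1) =
      jp (fsL σ T) (fsY π σ x) := by
  classical
  unfold jp
  rw [Fintype.prod_sum_type]
  have h1 : ∀ k : Fin D.r, (∏ j, if fsL σ T (Sum.inr k) j
      then jacobiSym (fsY π σ x (Sum.inr k)) (fsY π σ x j) else 1) = 1 := by
    intro k
    refine Finset.prod_eq_one fun j _ => ?_
    rw [if_neg (by intro h; cases j <;> exact h)]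
  rw [Finset.prod_congr rfl fun k _ => h1 k, Finset.prod_const_one, mul_one,
    ← Finset.prod_mul_distrib]
  have h2 : ∀ i : {i // i ∈ σ}, (∏ j, if fsL σ T (Sum.inl i) j
      then jacobiSym (fsY π σ x (Sum.inl i)) (fsY π σ x j) else 1) =
      (∏ j, if D.L i.1 j then jacobiSym (x i.1) (x j) else 1) *
      ∏ k, if fsK T i.1 k then jacobiSym (x i.1) (π.p k) else 1 := by
    intro i
    rw [Fintype.prod_sum_type]
    congr 1
    exact fs_prod_coe σ (fun j => if D.L i.1 j then jacobiSym (x i.1) (x j) else 1)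
      fun j hj => by rw [hx1 j hj]; simp
  rw [Finset.prod_congr rfl fun i _ => h2 i]
  refine (fs_prod_coe σ (fun i => (∏ j, if D.L i j then jacobiSym (x i) (x j) else 1) *
      ∏ k, if fsK T i k then jacobiSym (x i) (π.p k) else 1) fun i hi => ?_).symm
  rw [hx1 i hi]
  simp [jacobiSym.one_left]

theorem fs_sq (π : Pr D) (σ : Finset D.P) (x : D.P → ℕ) (hx1 : ∀ i, i ∉ σ → x i = 1) :
    2 * (∏ k, π.p k) * ∏ i, x i = 2 * ∏ i, fsY π σ x i := by
  rw [Fintype.prod_sum_type]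
  show _ = 2 * ((∏ i : {i // i ∈ σ}, x i.1) * ∏ k, π.p k)
  rw [fs_prod_coe σ x hx1]
  ring

theorem fs_size (π : Pr D) (σ : Finset D.P) (x : D.P → ℕ) (hx1 : ∀ i, i ∉ σ → x i = 1) :
    ∏ i, (fsY π σ x i : ℝ) ^ fsW σ i = (∏ i, (x i : ℝ)) * ∏ k, (π.p k : ℝ) ^ 2 := by
  rw [Fintype.prod_sum_type]
  congr 1
  · rw [← fs_prod_coe σ (fun i => (x i : ℝ)) fun i hi => by rw [hx1 i hi]; simp]
    refine Finset.prod_congr rfl fun i _ => ?_
    show (x i.1 : ℝ) ^ (1 : ℝ) = _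
    rw [Real.rpow_one]
  · refine Finset.prod_congr rfl fun k _ => ?_
    show (π.p k : ℝ) ^ (2 : ℝ) = _
    rw [← Real.rpow_natCast]
    norm_num

theorem fs_pos (π : Pr D) : 0 < ∏ k, (π.p k : ℝ) ^ 2 :=
  Finset.prod_pos fun k _ => by
    have := (π.prime k).pos
    positivity

theorem fs_odd_of {n m : ℕ} (h : Squarefree (2 * m)) (hn : n ∣ m) : Odd n := by
  rw [← Nat.not_even_iff_odd]
  intro h0
  have h2 : 2 * 2 ∣ 2 * m := Nat.mul_dvd_mul_left 2 ((even_iff_two_dvd.1 h0).trans hn)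
  have h3 := h 2 h2
  exact absurd (Nat.isUnit_iff.1 h3) (by norm_num)

open Classical in
/-- the summands agree -/
theorem fs_val (π : Pr D) (σ : Finset D.P) (T : Finset (D.V × Fin D.r)) (c : D.P → Fin 4)
    (Y : ℝ) (x : D.P → ℕ) (hx1 : ∀ i, i ∉ σ → x i = 1) (hx2 : ∀ i ∈ σ, 2 ≤ x i) :
    (if Squarefree (2 * (∏ k, π.p k) * ∏ i, x i) ∧ (∏ i, (x i : ℝ)) ≤ Y then
      (((∏ i ∈ σ, p8 (c i) (x i : ZMod 8) : ℤ) : ℝ) * (jp D.L x : ℝ)) *
       ((∏ i : D.P, ∏ k, if fsK T i k then jacobiSym (x i) (π.p k) else 1 : ℤ) : ℝ) else 0) =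
    if Squarefree (2 * ∏ i, fsY π σ x i) ∧
        ∏ i, (fsY π σ x i : ℝ) ^ fsW σ i ≤ Y * ∏ k, (π.p k : ℝ) ^ 2
    then (∏ i, fsA π σ c i (fsY π σ x i)) * (jp (fsL σ T) (fsY π σ x) : ℝ) else 0 := by
  rw [fs_sq π σ x hx1, fs_size π σ x hx1]
  have h0 : (∏ i, (x i : ℝ)) * ∏ k, (π.p k : ℝ) ^ 2 ≤ Y * ∏ k, (π.p k : ℝ) ^ 2 ↔
      (∏ i, (x i : ℝ)) ≤ Y := mul_le_mul_iff_left₀ (fs_pos π)
  by_cases hc : Squarefree (2 * ∏ i, fsY π σ x i) ∧ (∏ i, (x i : ℝ)) ≤ Y
  · rw [if_pos hc, if_pos ⟨hc.1, h0.2 hc.2⟩, ← fs_jp π σ T x hx1]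
    have h1 : (∏ i, fsA π σ c i (fsY π σ x i)) =
        ((∏ i ∈ σ, p8 (c i) (x i : ZMod 8) : ℤ) : ℝ) := by
      rw [Fintype.prod_sum_type]
      have h2 : (∏ k : Fin D.r, fsA π σ c (Sum.inr k) (fsY π σ x (Sum.inr k))) = 1 :=
        Finset.prod_eq_one fun k _ => if_pos rfl
      rw [h2, mul_one, Int.cast_prod, ← Finset.prod_coe_sort σ fun i =>
        ((p8 (c i) (x i : ZMod 8) : ℤ) : ℝ)]
      refine Finset.prod_congr rfl fun i _ => ?_
      show (if 2 ≤ x i.1 then (psi (c i.1) (x i.1) : ℝ) else 0) = _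
      have h3 : Odd (x i.1) := fs_odd_of hc.1
        (Finset.dvd_prod_of_mem (fsY π σ x) (Finset.mem_univ (Sum.inl i)))
      rw [if_pos (hx2 i.1 i.2), psi_p8 _ _ h3]
    rw [h1]
    push_cast
    ring
  · rw [if_neg hc, if_neg (fun h => hc ⟨h.1, h0.1 h.2⟩)]

theorem fs_mem {α : Type} (i1 : DecidableEq α) [Fintype α] {δ : α → Type}
    (t : ∀ a, Finset (δ a)) (f : ∀ a, δ a) :
    f ∈ @Fintype.piFinset α i1 _ δ t ↔ ∀ a, f a ∈ t a := Fintype.mem_piFinset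

theorem fs_le_prod {ι : Type} [Fintype ι] (f : ι → ℝ) (h : ∀ i, 1 ≤ f i) (i : ι) :
    f i ≤ ∏ j, f j := by
  classical
  rw [← Finset.mul_prod_erase Finset.univ f (Finset.mem_univ i)]
  have h1 : 1 ≤ ∏ j ∈ Finset.univ.erase i, f j := Finset.one_le_prod fun j _ => h j
  exact le_mul_of_one_le_right (zero_le_one.trans (h i)) h1

open Classical in
theorem fs_GW (π : Pr D) (σ : Finset D.P) (T : Finset (D.V × Fin D.r)) (c : D.P → Fin 4)
    (Y : ℝ) :
    ∑ x ∈ Fintype.piFinset (fun i : D.P => if i ∈ σ then Finset.Icc 2 ⌊Y⌋₊ else {1}),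
      (if Squarefree (2 * (∏ k, π.p k) * ∏ i, x i) ∧ (∏ i, (x i : ℝ)) ≤ Y then
      (((∏ i ∈ σ, p8 (c i) (x i : ZMod 8) : ℤ) : ℝ) * (jp D.L x : ℝ)) *
       ((∏ i : D.P, ∏ k, if fsK T i k then jacobiSym (x i) (π.p k) else 1 : ℤ) : ℝ) else 0) =
    GW (fsW σ) (fsL σ T) (fsA π σ c) (Y * ∏ k, (π.p k : ℝ) ^ 2) := by
  have hbox : ∀ x ∈ Fintype.piFinset (fun i : D.P => if i ∈ σ then Finset.Icc 2 ⌊Y⌋₊ else {1}),
      (∀ i, i ∉ σ → x i = 1) ∧ ∀ i ∈ σ, 2 ≤ x i := by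
    intro x hx
    rw [Fintype.mem_piFinset] at hx
    refine ⟨fun i hi => ?_, fun i hi => ?_⟩
    · have := hx i
      rwa [if_neg hi, Finset.mem_singleton] at this
    · have := hx i
      rw [if_pos hi, Finset.mem_Icc] at this
      exact this.1
  have hp1 : ∀ k, (1 : ℝ) ≤ π.p k := fun k => by exact_mod_cast (π.prime k).one_lt.le
  have hq1 : (1 : ℝ) ≤ ∏ k, (π.p k : ℝ) ^ 2 := Finset.one_le_prod fun k _ => one_le_pow₀ (hp1 k)
  unfold GW
  refine Finset.sum_bij_ne_zero (fun x _ _ => fsY π σ x) ?_ ?_ ?_ ?_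
  · intro x hx h0
    obtain ⟨hx1, hx2⟩ := hbox x hx
    rw [fs_val π σ T c Y x hx1 hx2] at h0
    have hc : Squarefree (2 * ∏ i, fsY π σ x i) ∧
        ∏ i, (fsY π σ x i : ℝ) ^ fsW σ i ≤ Y * ∏ k, (π.p k : ℝ) ^ 2 := by
      by_contra hc
      exact h0 (if_neg hc)
    have h1 : ∀ i, 1 ≤ fsY π σ x i := by
      rintro (i | k)
      · exact le_trans (by norm_num) (hx2 i.1 i.2)
      · exact (π.prime k).one_lt.le
    refine (fs_mem _ _ _).2 fun i => ?_
    rw [Finset.mem_Icc]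
    refine ⟨h1 i, Nat.le_floor ?_⟩
    have h2 : (1 : ℝ) ≤ fsY π σ x i := by exact_mod_cast h1 i
    have h3 : (1 : ℝ) ≤ fsW σ i := by
      rcases i with i | k
      · exact le_rfl
      · exact one_le_two
    refine le_trans ?_ hc.2
    refine le_trans ?_ (fs_le_prod (fun i => (fsY π σ x i : ℝ) ^ fsW σ i) (fun j => ?_) i)
    · exact Real.self_le_rpow_of_one_le h2 h3
    · refine Real.one_le_rpow (by exact_mod_cast h1 j) ?_
      rcases j with j | k
      · exact zero_le_one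
      · exact zero_le_two
  · intro x hx _ y hy _ hxy
    obtain ⟨hx1, hx2⟩ := hbox x hx
    obtain ⟨hy1, hy2⟩ := hbox y hy
    funext i
    by_cases hi : i ∈ σ
    · exact congrFun hxy (Sum.inl ⟨i, hi⟩)
    · rw [hx1 i hi, hy1 i hi]
  · intro y hy h0
    have hc : Squarefree (2 * ∏ i, y i) ∧
        ∏ i, (y i : ℝ) ^ fsW σ i ≤ Y * ∏ k, (π.p k : ℝ) ^ 2 := by
      by_contra hc
      exact h0 (if_neg hc)
    have h2 : ∏ i, fsA π σ c i (y i) ≠ 0 := by
      intro h3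
      rw [h3, zero_mul, ite_self] at h0
      exact h0 rfl
    have h3 : ∀ i, fsA π σ c i (y i) ≠ 0 := fun i => Finset.prod_ne_zero_iff.1 h2 i
      (Finset.mem_univ i)
    have h4 : ∀ i : {i // i ∈ σ}, 2 ≤ y (Sum.inl i) := by
      intro i
      by_contra h5
      exact h3 (Sum.inl i) (if_neg h5)
    have h5 : ∀ k, y (Sum.inr k) = π.p k := by
      intro k
      by_contra h5
      exact h3 (Sum.inr k) (if_neg h5)
    set x : D.P → ℕ := fun i => if h : i ∈ σ then y (Sum.inl ⟨i, h⟩) else 1 with hx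
    have hx1 : ∀ i, i ∉ σ → x i = 1 := fun i hi => by
      rw [hx]
      exact dif_neg hi
    have hx3 : ∀ i (hi : i ∈ σ), x i = y (Sum.inl ⟨i, hi⟩) := fun i hi => by
      rw [hx]
      exact dif_pos hi
    have hx2 : ∀ i ∈ σ, 2 ≤ x i := fun i hi => by
      rw [hx3 i hi]
      exact h4 _
    have hxy : fsY π σ x = y := by
      funext i
      rcases i with i | k
      · exact hx3 i.1 i.2
      · exact (h5 k).symm
    have hle : (∏ i, (x i : ℝ)) ≤ Y := by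
      have h6 := hc.2
      rw [← hxy, fs_size π σ x hx1] at h6
      exact le_of_mul_le_mul_right h6 (fs_pos π)
    have hx0 : ∀ i, (1 : ℝ) ≤ x i := by
      intro i
      by_cases hi : i ∈ σ
      · have := hx2 i hi
        exact_mod_cast (by omega : 1 ≤ x i)
      · rw [hx1 i hi, Nat.cast_one]
    have hxb : x ∈ Fintype.piFinset
        (fun i : D.P => if i ∈ σ then Finset.Icc 2 ⌊Y⌋₊ else {1}) := by
      rw [Fintype.mem_piFinset]
      intro i
      by_cases hi : i ∈ σ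
      · rw [if_pos hi, Finset.mem_Icc]
        exact ⟨hx2 i hi, Nat.le_floor ((fs_le_prod (fun i => (x i : ℝ)) hx0 i).trans hle)⟩
      · rw [if_neg hi, Finset.mem_singleton]
        exact hx1 i hi
    refine ⟨x, hxb, ?_, hxy⟩
    rw [fs_val π σ T c Y x hx1 hx2, hxy]
    exact h0
  · intro x hx _
    obtain ⟨hx1, hx2⟩ := hbox x hx
    exact fs_val π σ T c Y x hx1 hx2

end Pool.Agent.H98.ML
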