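import Pool.Agent.H98.ML.GGLower1
import Pool.Agent.H98.MK.SumSg

/-!
# Project MK2, row P9: expansion of the product and removal of the residue conditions
-/

set_option autoImplicit false

open scoped BigOperators

namespace Pool.Agent.H98.ML

open Pool.Agent.H98.MK (lg ssA mem_ssA prod_ssA)

theorem gl_prod_sum {κ : Type} [Fintype κ] [DecidableEq κ] (m : ℕ) (hm : Squarefree m)
    (F : ℕ → κ → ℝ) :
    ∏ p ∈ m.primeFactors, ∑ ζ : κ, F p ζ =
      ∑ d ∈ (Fintype.piFinset (fun _ : κ => m.divisors)).filter (fun d => ∏ ζ, d ζ = m),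
        ∏ ζ, ∏ p ∈ (d ζ).primeFactors, F p ζ := by
  have hm0 : m ≠ 0 := hm.ne_zero
  have hmP : ∏ i : m.primeFactors, (i : ℕ) = m := by
    rw [Finset.prod_coe_sort m.primeFactors (fun i => i)]
    exact Nat.prod_primeFactors_of_squarefree hm
  rw [← Finset.prod_coe_sort, Finset.prod_univ_sum, Fintype.piFinset_univ]
  have hprime : ∀ (φ : m.primeFactors → κ) (ζ : κ), ∀ p ∈ ssA φ ζ, p.Prime := by
    intro φ ζ p hp
    obtain ⟨h, -⟩ := (mem_ssA φ ζ p).1 hp
    exact Nat.prime_of_mem_primeFactors h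
  have hpf : ∀ (φ : m.primeFactors → κ) (ζ : κ),
      (∏ p ∈ ssA φ ζ, p).primeFactors = ssA φ ζ := fun φ ζ =>
    Nat.primeFactors_prod (hprime φ ζ)
  have hprod : ∀ φ : m.primeFactors → κ, ∏ ζ, ∏ p ∈ ssA φ ζ, p = m := fun φ =>
    (prod_ssA φ (fun p _ => p)).trans hmP
  refine Finset.sum_bij (fun (φ : m.primeFactors → κ) _ ζ => ∏ p ∈ ssA φ ζ, p) ?_ ?_ ?_ ?_
  · intro φ _
    rw [Finset.mem_filter, Fintype.mem_piFinset]
    refine ⟨fun ζ => Nat.mem_divisors.2 ⟨?_, hm0⟩, hprod φ⟩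
    conv_rhs => rw [← hprod φ]
    exact Finset.dvd_prod_of_mem (fun ζ => ∏ p ∈ ssA φ ζ, p) (Finset.mem_univ ζ)
  · intro φ _ ψ _ h
    funext i
    have h1 : ssA φ (φ i) = ssA ψ (φ i) := by
      rw [← hpf φ, ← hpf ψ]
      exact congrArg Nat.primeFactors (congrFun h (φ i))
    have h2 : (i : ℕ) ∈ ssA φ (φ i) := (mem_ssA φ _ _).2 ⟨i.2, rfl⟩
    rw [h1] at h2
    obtain ⟨_, h3⟩ := (mem_ssA ψ _ _).1 h2
    exact h3.symm
  · intro d hd
    rw [Finset.mem_filter, Fintype.mem_piFinset] at hd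
    obtain ⟨hd1, hd2⟩ := hd
    have hex : ∀ i : m.primeFactors, ∃ ζ : κ, (i : ℕ) ∣ d ζ := by
      intro i
      have hp := Nat.prime_of_mem_primeFactors i.2
      have h1 : (i : ℕ) ∣ ∏ ζ, d ζ := by
        rw [hd2]
        exact Nat.dvd_of_mem_primeFactors i.2
      obtain ⟨ζ, -, hζ⟩ := (Prime.dvd_finset_prod_iff hp.prime _).1 h1
      exact ⟨ζ, hζ⟩
    choose φ hφ using hex
    have huniq : ∀ (p : ℕ) (ζ ζ' : κ), p.Prime → p ∣ d ζ → p ∣ d ζ' → ζ = ζ' := by
      intro p ζ ζ' hp h1 h2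
      by_contra hne
      have h3 : p * p ∣ m := by
        rw [← hd2, ← Finset.mul_prod_erase Finset.univ d (Finset.mem_univ ζ)]
        refine mul_dvd_mul h1 (h2.trans (Finset.dvd_prod_of_mem d ?_))
        exact Finset.mem_erase.2 ⟨fun h => hne h.symm, Finset.mem_univ _⟩
      exact hp.one_lt.ne' (Nat.isUnit_iff.1 (hm p h3))
    refine ⟨φ, Finset.mem_univ _, ?_⟩
    funext ζ
    have hdvd : d ζ ∣ m := Nat.dvd_of_mem_divisors (hd1 ζ)
    have hsq : Squarefree (d ζ) := hm.squarefree_of_dvd hdvd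
    have h4 : ssA φ ζ = (d ζ).primeFactors := by
      ext p
      rw [mem_ssA]
      constructor
      · rintro ⟨h, rfl⟩
        exact Nat.mem_primeFactors.2 ⟨Nat.prime_of_mem_primeFactors h, hφ ⟨p, h⟩, hsq.ne_zero⟩
      · intro h0
        obtain ⟨hp, h5, -⟩ := Nat.mem_primeFactors.1 h0
        have h6 : p ∈ m.primeFactors := Nat.mem_primeFactors.2 ⟨hp, h5.trans hdvd, hm0⟩
        exact ⟨h6, huniq p _ _ hp (hφ ⟨p, h6⟩) h5⟩
    show ∏ p ∈ ssA φ ζ, p = d ζ
    rw [h4]
    exact Nat.prod_primeFactors_of_squarefree hsq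
  · intro φ _
    have h1 : ∀ ζ, ∏ p ∈ (∏ p ∈ ssA φ ζ, p).primeFactors, F p ζ = ∏ p ∈ ssA φ ζ, F p ζ :=
      fun ζ => by rw [hpf]
    simp only [h1]
    exact (prod_ssA φ F).symm

open Classical in
/-- the sum over integers is a sum over tuples -/
theorem gl_tuples {κ : Type} [Fintype κ] [DecidableEq κ] (M : Finset κ) (f : κ → ℕ → ℝ)
    (hf : ∀ g p, 0 ≤ f g p) (N : ℕ) (Y : ℝ) (hY : 0 ≤ Y) :
    (∑ n ∈ Finset.Icc 1 ⌊Y⌋₊, if Squarefree n ∧ Nat.Coprime n N
      then ∏ p ∈ n.primeFactors, ∑ g ∈ M, f g p else 0) ≤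
    ∑ y ∈ Fintype.piFinset (fun _ : κ => Finset.Icc 1 ⌊Y⌋₊),
      if (∀ g, g ∉ M → y g = 1) ∧ Squarefree (∏ g, y g) ∧ Nat.Coprime (∏ g, y g) N ∧
        (∏ g, (y g : ℝ)) ≤ Y
      then ∏ g, ∏ p ∈ (y g).primeFactors, f g p else 0 := by
  have hnn : ∀ y : κ → ℕ, 0 ≤ ∏ g, ∏ p ∈ (y g).primeFactors, f g p := fun y =>
    Finset.prod_nonneg fun g _ => Finset.prod_nonneg fun p _ => hf g p
  have h1 : ∀ n ∈ Finset.Icc 1 ⌊Y⌋₊, (if Squarefree n ∧ Nat.Coprime n N
      then ∏ p ∈ n.primeFactors, ∑ g ∈ M, f g p else 0) ≤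
      ∑ y ∈ (Fintype.piFinset (fun _ : κ => Finset.Icc 1 ⌊Y⌋₊)).filter
        (fun y => ∏ g, y g = n),
      if (∀ g, g ∉ M → y g = 1) ∧ Squarefree (∏ g, y g) ∧ Nat.Coprime (∏ g, y g) N ∧
        (∏ g, (y g : ℝ)) ≤ Y
      then ∏ g, ∏ p ∈ (y g).primeFactors, f g p else 0 := by
    intro n hn
    rw [Finset.mem_Icc] at hn
    split_ifs with hc
    · have h2 : ∏ p ∈ n.primeFactors, ∑ g ∈ M, f g p =
          ∏ p ∈ n.primeFactors, ∑ g : κ, (if g ∈ M then f g p else 0) := by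
        refine Finset.prod_congr rfl fun p _ => ?_
        rw [Finset.sum_ite_mem, Finset.univ_inter]
      rw [h2, gl_prod_sum n hc.1 (fun p g => if g ∈ M then f g p else 0)]
      have hsub : (Fintype.piFinset (fun _ : κ => n.divisors)).filter
          (fun d => ∏ ζ, d ζ = n) ⊆ (Fintype.piFinset (fun _ : κ => Finset.Icc 1 ⌊Y⌋₊)).filter
        (fun y => ∏ g, y g = n) := by
        intro d hd
        rw [Finset.mem_filter, Fintype.mem_piFinset] at hd ⊢
        refine ⟨fun g => ?_, hd.2⟩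
        have h3 := hd.1 g
        rw [Finset.mem_Icc]
        exact ⟨Nat.pos_of_mem_divisors h3, (Nat.divisor_le h3).trans hn.2⟩
      refine (Finset.sum_le_sum fun d hd => ?_).trans
        (Finset.sum_le_sum_of_subset_of_nonneg hsub fun y _ _ => ?_)
      · rw [Finset.mem_filter, Fintype.mem_piFinset] at hd
        by_cases h4 : ∀ g, g ∉ M → d g = 1
        · rw [if_pos]
          · refine Finset.prod_le_prod (fun g _ => Finset.prod_nonneg fun p _ => ?_)
              fun g _ => Finset.prod_le_prod (fun p _ => ?_) fun p _ => ?_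
            · split_ifs
              · exact hf g p
              · exact le_rfl
            · split_ifs
              · exact hf g p
              · exact le_rfl
            · split_ifs
              · exact le_rfl
              · exact hf g p
          · refine ⟨h4, by rw [hd.2]; exact hc.1, by rw [hd.2]; exact hc.2, ?_⟩
            have h5 : (∏ g, (d g : ℝ)) = (n : ℝ) := by
              rw [← hd.2]
              push_cast
              rfl
            rw [h5]
            exact (Nat.le_floor_iff hY).1 hn.2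
        · rw [if_neg fun h => h4 h.1]
          push Not at h4
          obtain ⟨g, hg, hg1⟩ := h4
          refine le_of_eq (Finset.prod_eq_zero (Finset.mem_univ g) ?_)
          have h5 : d g ≠ 0 := (Nat.pos_of_mem_divisors (hd.1 g)).ne'
          obtain ⟨p, hp, hpd⟩ := Nat.exists_prime_and_dvd hg1
          exact Finset.prod_eq_zero (Nat.mem_primeFactors.2 ⟨hp, hpd, h5⟩) (if_neg hg)
      · split_ifs
        · exact hnn y
        · exact le_rfl
    · refine Finset.sum_nonneg fun y _ => ?_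
      split_ifs
      · exact hnn y
      · exact le_rfl
  refine (Finset.sum_le_sum h1).trans ?_
  rw [Finset.sum_fiberwise_eq_sum_filter]
  refine Finset.sum_le_sum_of_subset_of_nonneg (Finset.filter_subset _ _) fun y _ _ => ?_
  split_ifs
  · exact hnn y
  · exact le_rfl

end Pool.Agent.H98.ML
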