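import Pool.Agent.H98.ML.GGLower2

/-!
# Project MK2, row P9: removal of the residue conditions
-/

set_option autoImplicit false

open scoped BigOperators

namespace Pool.Agent.H98.ML

open Pool.Agent.H98.MK (lg)

variable {D : Dt}

theorem gl_mV_dvd (y : Ext D → ℕ) (v : D.V) : D.mV y v ∣ ∏ g, y g := by
  classical
  unfold Dt.mV
  split_ifs with h
  · exact one_dvd _
  · have h1 : ∏ z : D.Z, y ⟨v, z⟩ = ∏ g ∈ Finset.univ.image (fun z : D.Z => (⟨v, z⟩ : Ext D)),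
        y g := by
      rw [Finset.prod_image]
      intro z _ z' _ h2
      exact congrArg Ext.z h2
    rw [h1]
    exact Finset.prod_dvd_prod_of_subset _ _ _ (Finset.subset_univ _)

theorem gl_mV_mul (y y' : Ext D → ℕ) (v : D.V) :
    D.mV (fun g => y g * y' g) v = D.mV y v * D.mV y' v := by
  unfold Dt.mV
  split_ifs with h
  · rfl
  · exact Finset.prod_mul_distrib

theorem gl_sq8 : ∀ x : ZMod 8, IsUnit x → x * x = 1 := by decide

theorem gl_Q0 (π : Pr D) : Squarefree (2 * ∏ k, π.p k) := by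
  rw [Nat.squarefree_mul_iff]
  refine ⟨Nat.Coprime.prod_right fun k _ => ?_, Nat.prime_two.squarefree, ?_⟩
  · exact Nat.coprime_two_left.2 (gl_odd π k)
  · refine Finset.squarefree_prod_of_pairwise_isCoprime (fun i _ j _ hij => ?_)
      fun k _ => (π.prime k).squarefree
    rw [Function.onFun, ← Nat.coprime_iff_isRelPrime]
    exact (Nat.coprime_primes (π.prime i) (π.prime j)).2 fun h => hij (π.inj h)

/-- the residue data of a tuple -/
noncomputable def gdat (π : Pr D) (y : Ext D → ℕ) : (D.V → ZMod 8) × (D.V → D.V) :=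
  (fun v => (D.mV y v : ZMod 8), fun v => frob π (D.mV y v))

namespace Wt

variable (w : Wt D)

/-- admissible tuples -/
def Gd (π : Pr D) (y : Ext D → ℕ) : Prop :=
  (∀ g, ¬ (w.IsM g ∧ D.crep g = g) → y g = 1) ∧ Squarefree (2 * (∏ k, π.p k) * ∏ g, y g)

/-- the weight of a tuple -/
noncomputable def wg (π : Pr D) (y : Ext D → ℕ) : ℝ :=
  ∏ g, ∏ p ∈ (y g).primeFactors, w.ff g.v (frob π p)

theorem wg_nonneg (π : Pr D) (y : Ext D → ℕ) : 0 ≤ w.wg π y :=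
  Finset.prod_nonneg fun _ _ => Finset.prod_nonneg fun _ _ => w.ff_nonneg _ _

theorem wg_one_le (π : Pr D) (y : Ext D → ℕ) (h : w.wg π y ≠ 0) : 1 ≤ w.wg π y := by
  unfold wg at h ⊢
  rw [Finset.prod_ne_zero_iff] at h
  refine Finset.one_le_prod fun g hg => Finset.one_le_prod fun p hp => ?_
  exact w.ff_one_le _ _ (Finset.prod_ne_zero_iff.1 (h g hg) p hp)

variable {w} {π : Pr D} {y y' : Ext D → ℕ}

theorem Gd.ne_zero (h : w.Gd π y) (g : Ext D) : y g ≠ 0 := by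
  intro h0
  have h1 : ∏ g, y g = 0 := Finset.prod_eq_zero (Finset.mem_univ g) h0
  have h2 := h.2.ne_zero
  rw [h1, mul_zero] at h2
  exact h2 rfl

theorem Gd.cop (h : w.Gd π y) (v : D.V) :
    Nat.Coprime (D.mV y v) 8 ∧ ∀ k, Nat.Coprime (D.mV y v) (π.p k) := by
  have h1 : Nat.Coprime (2 * ∏ k, π.p k) (∏ g, y g) := (Nat.squarefree_mul_iff.1 h.2).1
  have h2 : Nat.Coprime (2 * ∏ k, π.p k) (D.mV y v) := h1.coprime_dvd_right (gl_mV_dvd y v)
  constructor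
  · have h3 : Nat.Coprime 2 (D.mV y v) := h2.coprime_dvd_left (dvd_mul_right _ _)
    have h4 : Nat.Coprime (2 ^ 3) (D.mV y v) := h3.pow_left 3
    exact h4.symm
  · intro k
    exact (h2.coprime_dvd_left ((Finset.dvd_prod_of_mem _ (Finset.mem_univ k)).trans
      (dvd_mul_left _ _))).symm

theorem Gd.cnd (h : w.Gd π y) (h' : w.Gd π y') (hd : gdat π y = gdat π y') :
    Cnd π (D.mV (fun g => y g * y' g)) := by
  intro v
  have h1 : (D.mV y v : ZMod 8) = (D.mV y' v : ZMod 8) := congrFun (congrArg Prod.fst hd) v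
  have h2 : frob π (D.mV y v) = frob π (D.mV y' v) := congrFun (congrArg Prod.snd hd) v
  rw [gl_mV_mul]
  constructor
  · push_cast
    rw [← h1]
    exact gl_sq8 _ ((ZMod.isUnit_iff_coprime _ _).2 (h.cop v).1)
  · intro k
    have h3 : lg (jacobiSym (D.mV y v) (π.p k)) = lg (jacobiSym (D.mV y' v) (π.p k)) :=
      congrFun h2 k
    have j1 := gl_jac π k ((h.cop v).2 k)
    have j2 := gl_jac π k ((h'.cop v).2 k)
    have h4 := gl_lg_inj j1 j2 h3
    push_cast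
    rw [jacobiSym.mul_left, ← h4]
    rcases j1 with h5 | h5 <;> rw [h5] <;> norm_num

theorem Gd.mul (h : w.Gd π y) (h' : w.Gd π y') (hc : Nat.Coprime (∏ g, y g) (∏ g, y' g)) :
    w.Gd π (fun g => y g * y' g) := by
  refine ⟨fun g hg => ?_, ?_⟩
  · show y g * y' g = 1
    rw [h.1 g hg, h'.1 g hg]
  · rw [Finset.prod_mul_distrib, ← mul_assoc, Nat.squarefree_mul_iff]
    have h1 := Nat.squarefree_mul_iff.1 h'.2
    exact ⟨Nat.Coprime.mul_left h1.1 hc, h.2, h1.2.2⟩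

theorem Gd.wg_mul (h : w.Gd π y) (h' : w.Gd π y')
    (hc : Nat.Coprime (∏ g, y g) (∏ g, y' g)) :
    w.wg π (fun g => y g * y' g) = w.wg π y * w.wg π y' := by
  unfold wg
  rw [← Finset.prod_mul_distrib]
  refine Finset.prod_congr rfl fun g _ => ?_
  have h1 : Nat.Coprime (y g) (y' g) :=
    (hc.coprime_dvd_left (Finset.dvd_prod_of_mem y (Finset.mem_univ g))).coprime_dvd_right
      (Finset.dvd_prod_of_mem y' (Finset.mem_univ g))
  rw [Nat.primeFactors_mul (h.ne_zero g) (h'.ne_zero g),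
    Finset.prod_union h1.disjoint_primeFactors]

variable (w) (π)

open Classical in
theorem gl_fib (ρ : (D.V → ZMod 8) × (D.V → D.V)) (y0 : Ext D → ℕ) (h0 : w.Gd π y0)
    (hw0 : w.wg π y0 ≠ 0) (hd0 : gdat π y0 = ρ) (A Y : ℝ) (hY : 0 ≤ Y)
    (hA : (∏ g, (y0 g : ℝ)) ≤ A) :
    (∑ y ∈ Fintype.piFinset (fun _ : Ext D => Finset.Icc 1 ⌊Y⌋₊),
      if gdat π y = ρ ∧ w.Gd π y ∧ Nat.Coprime (∏ g, y g) (∏ g, y0 g) ∧
        (∏ g, (y g : ℝ)) ≤ Y then w.wg π y else 0) ≤ w.GG π (A * Y) := by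
  have hy0 : ∀ g, 1 ≤ y0 g := fun g => Nat.one_le_iff_ne_zero.2 (h0.ne_zero g)
  have hp0 : (1 : ℝ) ≤ ∏ g, (y0 g : ℝ) := Finset.one_le_prod fun g _ => by
    exact_mod_cast hy0 g
  unfold GG
  rw [← Finset.sum_filter]
  have hinj : Set.InjOn (fun (y : Ext D → ℕ) (g : Ext D) => y g * y0 g)
      ((Fintype.piFinset (fun _ : Ext D => Finset.Icc 1 ⌊Y⌋₊)).filter (fun y =>
        gdat π y = ρ ∧ w.Gd π y ∧ Nat.Coprime (∏ g, y g) (∏ g, y0 g) ∧
        (∏ g, (y g : ℝ)) ≤ Y) : Finset (Ext D → ℕ)) := by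
    intro y _ y' _ h
    funext g
    exact Nat.eq_of_mul_eq_mul_right (hy0 g) (congrFun h g)
  obtain ⟨T, hT⟩ : ∃ T : (Ext D → ℕ) → ℝ, T = fun y =>
    if (∀ g, ¬ (w.IsM g ∧ D.crep g = g) → y g = 1) ∧
      Squarefree (2 * (∏ k, π.p k) * ∏ g, y g) ∧ (∏ g, (y g : ℝ)) ≤ A * Y ∧ Cnd π (D.mV y)
    then ∏ g, ∏ p ∈ (y g).primeFactors, w.ff g.v (frob π p) else 0 := ⟨_, rfl⟩
  have hT0 : ∀ y, 0 ≤ T y := by
    intro y
    rw [hT]
    simp only
    split_ifs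
    · exact w.wg_nonneg π y
    · exact le_rfl
  refine le_trans (b := ∑ y ∈ (Fintype.piFinset (fun _ : Ext D => Finset.Icc 1 ⌊Y⌋₊)).filter
      (fun y => gdat π y = ρ ∧ w.Gd π y ∧ Nat.Coprime (∏ g, y g) (∏ g, y0 g) ∧
        (∏ g, (y g : ℝ)) ≤ Y), T (fun g => y g * y0 g)) ?_ ?_
  · refine Finset.sum_le_sum fun y hy => ?_
    obtain ⟨-, h1, h2, h3, h4⟩ := Finset.mem_filter.1 hy
    have h5 := h2.mul h0 h3
    have h6 : T (fun g => y g * y0 g) = w.wg π (fun g => y g * y0 g) := by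
      rw [hT]
      simp only
      rw [if_pos]
      · rfl
      · refine ⟨h5.1, h5.2, ?_, h2.cnd h0 (h1.trans hd0.symm)⟩
        push_cast
        rw [Finset.prod_mul_distrib, mul_comm A Y]
        exact mul_le_mul h4 hA (by linarith) hY
    rw [h6, h2.wg_mul h0 h3]
    exact le_mul_of_one_le_right (w.wg_nonneg π y) (w.wg_one_le π y0 hw0)
  · rw [← Finset.sum_image (f := T) hinj]
    have e : (∑ y ∈ Fintype.piFinset (fun _ : Ext D => Finset.Icc 1 ⌊A * Y⌋₊),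
        if (∀ g, ¬ (w.IsM g ∧ D.crep g = g) → y g = 1) ∧
          Squarefree (2 * (∏ k, π.p k) * ∏ g, y g) ∧ (∏ g, (y g : ℝ)) ≤ A * Y ∧
            Cnd π (D.mV y)
        then ∏ g, ∏ p ∈ (y g).primeFactors, w.ff g.v (frob π p) else 0) =
        ∑ y ∈ Fintype.piFinset (fun _ : Ext D => Finset.Icc 1 ⌊A * Y⌋₊), T y := by
      rw [hT]
    rw [e]
    refine Finset.sum_le_sum_of_subset_of_nonneg ?_ fun y _ _ => hT0 y
    intro z hz
    obtain ⟨y, hy, rfl⟩ := Finset.mem_image.1 hz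
    obtain ⟨hy1, h1, h2, h3, h4⟩ := Finset.mem_filter.1 hy
    rw [Fintype.mem_piFinset] at hy1 ⊢
    intro g
    have h5 := Finset.mem_Icc.1 (hy1 g)
    refine Finset.mem_Icc.2 ⟨Nat.mul_pos h5.1 (hy0 g), Nat.le_floor ?_⟩
    have h6 : y g * y0 g ≤ (∏ g, y g) * ∏ g, y0 g := by
      refine Nat.mul_le_mul (Nat.le_of_dvd (Finset.prod_pos fun g _ => ?_)
        (Finset.dvd_prod_of_mem y (Finset.mem_univ g)))
        (Nat.le_of_dvd (Finset.prod_pos fun g _ => hy0 g)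
          (Finset.dvd_prod_of_mem y0 (Finset.mem_univ g)))
      exact Nat.pos_of_ne_zero (h2.ne_zero g)
    have h7 : ((y g * y0 g : ℕ) : ℝ) ≤ (∏ g, (y g : ℝ)) * ∏ g, (y0 g : ℝ) := by
      exact_mod_cast h6
    refine h7.trans ?_
    rw [mul_comm A Y]
    exact mul_le_mul h4 hA (by linarith) hY

theorem GG_nonneg (Y : ℝ) : 0 ≤ w.GG π Y := by
  unfold GG
  refine Finset.sum_nonneg fun y _ => ?_
  split_ifs
  · exact w.wg_nonneg π y
  · exact le_rfl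

open Classical in
/-- the unconditioned sum is bounded by the conditioned one -/
theorem gl_remove : ∃ N : ℕ, 0 < N ∧ ∃ A : ℝ, 1 ≤ A ∧ ∃ E : ℝ, 0 < E ∧ ∀ Y : ℝ, 0 ≤ Y →
    (∑ n ∈ Finset.Icc 1 ⌊Y⌋₊, if Squarefree n ∧ Nat.Coprime n N
      then ∏ p ∈ n.primeFactors, w.gh π (p : ZMod (gq π)) else 0) ≤ E * w.GG π (A * Y) := by
  obtain ⟨y0, hy0⟩ : ∃ y0 : (D.V → ZMod 8) × (D.V → D.V) → Ext D → ℕ, ∀ ρ,
      (∀ g, 1 ≤ y0 ρ g) ∧ ((∃ y, w.Gd π y ∧ w.wg π y ≠ 0 ∧ gdat π y = ρ) →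
        w.Gd π (y0 ρ) ∧ w.wg π (y0 ρ) ≠ 0 ∧ gdat π (y0 ρ) = ρ) := by
    refine Classical.axiomOfChoice (r := fun ρ (y : Ext D → ℕ) => (∀ g, 1 ≤ y g) ∧
      ((∃ y, w.Gd π y ∧ w.wg π y ≠ 0 ∧ gdat π y = ρ) →
        w.Gd π y ∧ w.wg π y ≠ 0 ∧ gdat π y = ρ)) fun ρ => ?_
    by_cases h : ∃ y, w.Gd π y ∧ w.wg π y ≠ 0 ∧ gdat π y = ρ
    · obtain ⟨y, hy⟩ := h
      exact ⟨y, fun g => Nat.one_le_iff_ne_zero.2 (hy.1.ne_zero g), fun _ => hy⟩
    · exact ⟨fun _ => 1, fun _ => le_rfl, fun h' => absurd h' h⟩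
  obtain ⟨A, hA⟩ : ∃ A : ℕ, A = ∏ ρ, ∏ g, y0 ρ g := ⟨_, rfl⟩
  have hApos : 0 < A := by
    rw [hA]
    exact Finset.prod_pos fun ρ _ => Finset.prod_pos fun g _ => (hy0 ρ).1 g
  have hdvd : ∀ ρ, ∏ g, y0 ρ g ∣ A := fun ρ => by
    rw [hA]
    exact Finset.dvd_prod_of_mem (fun ρ => ∏ g, y0 ρ g) (Finset.mem_univ ρ)
  refine ⟨2 * (∏ k, π.p k) * A, Nat.mul_pos (Nat.pos_of_ne_zero (gl_Q0 π).ne_zero) hApos, A,
    by exact_mod_cast hApos, Fintype.card ((D.V → ZMod 8) × (D.V → D.V)),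
    by exact_mod_cast Fintype.card_pos, fun Y hY => ?_⟩
  have e1 : ∀ p : ℕ, w.gh π (p : ZMod (gq π)) = ∑ g ∈ w.Mr, w.ff g.v (frob π p) := by
    intro p
    unfold gh
    rw [gl_gvec_nat]
  simp only [e1]
  refine (gl_tuples w.Mr (fun g p => w.ff g.v (frob π p)) (fun _ _ => w.ff_nonneg _ _)
    (2 * (∏ k, π.p k) * A) Y hY).trans ?_
  refine le_trans (b := ∑ y ∈ Fintype.piFinset (fun _ : Ext D => Finset.Icc 1 ⌊Y⌋₊),
    ∑ ρ : (D.V → ZMod 8) × (D.V → D.V), (if gdat π y = ρ ∧ w.Gd π y ∧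
      Nat.Coprime (∏ g, y g) (∏ g, y0 ρ g) ∧ (∏ g, (y g : ℝ)) ≤ Y then w.wg π y else (0 : ℝ)))
      ?_ ?_
  · refine Finset.sum_le_sum fun y _ => ?_
    have hnn : ∀ ρ ∈ (Finset.univ : Finset ((D.V → ZMod 8) × (D.V → D.V))),
        0 ≤ if gdat π y = ρ ∧ w.Gd π y ∧ Nat.Coprime (∏ g, y g) (∏ g, y0 ρ g) ∧
        (∏ g, (y g : ℝ)) ≤ Y then w.wg π y else 0 := by
      intro ρ _
      split_ifs
      · exact w.wg_nonneg π y
      · exact le_rfl
    split_ifs with hc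
    · obtain ⟨h1, h2, h3, h4⟩ := hc
      have hG : w.Gd π y := by
        refine ⟨fun g hg => h1 g fun hg' => hg ?_, ?_⟩
        · unfold Mr at hg'
          exact (Finset.mem_filter.1 hg').2
        · rw [Nat.squarefree_mul_iff]
          exact ⟨(h3.coprime_dvd_right (dvd_mul_right _ _)).symm, gl_Q0 π, h2⟩
      refine le_trans (le_of_eq ?_) (Finset.single_le_sum (f := fun ρ =>
        if gdat π y = ρ ∧ w.Gd π y ∧ Nat.Coprime (∏ g, y g) (∏ g, y0 ρ g) ∧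
        (∏ g, (y g : ℝ)) ≤ Y then w.wg π y else 0) hnn (Finset.mem_univ (gdat π y)))
      rw [if_pos]
      · rfl
      · exact ⟨rfl, hG, h3.coprime_dvd_right ((hdvd _).trans (dvd_mul_left _ _)), h4⟩
    · exact Finset.sum_nonneg hnn
  · rw [Finset.sum_comm]
    calc _ ≤ ∑ _ρ : (D.V → ZMod 8) × (D.V → D.V), w.GG π (A * Y) := by
          refine Finset.sum_le_sum fun ρ _ => ?_
          by_cases hr : ∃ y, w.Gd π y ∧ w.wg π y ≠ 0 ∧ gdat π y = ρ
          · obtain ⟨g1, g2, g3⟩ := (hy0 ρ).2 hr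
            refine w.gl_fib π ρ (y0 ρ) g1 g2 g3 A Y hY ?_
            have h5 : ∏ g, y0 ρ g ≤ A := Nat.le_of_dvd hApos (hdvd ρ)
            exact_mod_cast h5
          · rw [Finset.sum_eq_zero]
            · exact w.GG_nonneg π _
            · intro y _
              by_cases h6 : w.wg π y = 0
              · rw [h6]
                exact ite_self _
              · rw [if_neg]
                rintro ⟨h7, h8, -, -⟩
                exact hr ⟨y, h8, h6, h7⟩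
      _ = _ := by rw [Finset.sum_const, Finset.card_univ, nsmul_eq_mul]

end Wt

end Pool.Agent.H98.ML
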