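import Pool.Agent.H98.ML.GDefs

/-!
# Project MK2 (MP_a3214d), row A7: the dyadic block of the largest non-free variable, pieces
-/

set_option autoImplicit false

open scoped BigOperators

namespace Pool.Agent.H98.ML

open Pool.Agent.H98.MK (psi jp)

/-! ### the three hypotheses -/

/-- the bound for a linked pair of large variables -/
def A7Pair {ι : Type} [Fintype ι] (w : ι → ℝ) (L : ι → ι → Prop) (c : ι → Fin 4) : Prop :=
  ∀ i j, L i j → w i = 1 → w j = 1 →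
    ∃ C : ℝ, ∃ k : ℕ, ∀ (a : ι → ℕ → ℝ) (P M Y : ℝ), (∀ l n, |a l n| ≤ 1) → 1 ≤ P → 1 ≤ M →
      1 ≤ Y → (∀ l, ¬ Free w L c l → ∀ n, a l n ≠ 0 → (n : ℝ) ≤ M) →
      (∀ n, a i n ≠ 0 → P < n) → (∀ n, a j n ≠ 0 → P < n) →
      |GW w L a Y| ≤ C * Y * (1 + Real.log Y) ^ (Nat.card {l // Free w L c l} - 1) *
        P ^ (-(1 / 12) : ℝ) * (1 + Real.log M) ^ k

/-- the bound for a large variable of weight `> 1` -/
def A7An {ι : Type} [Fintype ι] (w : ι → ℝ) (L : ι → ι → Prop) (c : ι → Fin 4) : Prop :=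
  ∀ i, 1 < w i →
    ∃ C : ℝ, ∃ k : ℕ, ∀ (a : ι → ℕ → ℝ) (P M Y : ℝ), (∀ l n, |a l n| ≤ 1) → 1 ≤ P → 1 ≤ M →
      1 ≤ Y → (∀ l, ¬ Free w L c l → ∀ n, a l n ≠ 0 → (n : ℝ) ≤ M) →
      (∀ n, a i n ≠ 0 → P < n) →
      |GW w L a Y| ≤ C * Y * (1 + Real.log Y) ^ (Nat.card {l // Free w L c l} - 1) *
        P ^ (-(w i - 1)) * (1 + Real.log M) ^ k

open Classical in
/-- the bound for a nontrivial character in a large variable -/
def A7Char {ι : Type} [Fintype ι] (w : ι → ℝ) (L : ι → ι → Prop) (c : ι → Fin 4) : Prop :=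
  ∀ i, w i = 1 → ¬ Free w L c i → ∀ d : Fin 4, (d ≠ 0 ∨ ∃ j, L i j ∨ L j i) →
    ∃ C : ℝ, ∃ k : ℕ, ∀ (a : ι → ℕ → ℝ) (P M Y : ℝ), (∀ l n, |a l n| ≤ 1) → 1 ≤ P → 1 ≤ M →
      1 ≤ Y → (∀ l, ¬ Free w L c l → ∀ n, a l n ≠ 0 → (n : ℝ) ≤ 2 * M) →
      (∀ n : ℕ, a i n = if M < n ∧ (n : ℝ) ≤ 2 * M then (psi d n : ℝ) else 0) →
      (∀ j, L i j ∨ L j i → ∀ n, a j n ≠ 0 → 2 ≤ n ∧ (n : ℝ) ≤ P) →
      |GW w L a Y| ≤ C * Y * (1 + Real.log Y) ^ (Nat.card {l // Free w L c l} - 1) *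
        (P ^ (Fintype.card ι) / M) ^ (1 / 2 : ℝ) * (1 + Real.log M) ^ k

/-! ### multilinearity -/

open Classical in
theorem a7_split {ι : Type} [Fintype ι] (w : ι → ℝ) (L : ι → ι → Prop)
    (F : ι → Bool → ℕ → ℝ) (Y : ℝ) :
    GW w L (fun i n => F i false n + F i true n) Y =
      ∑ s : ι → Bool, GW w L (fun i n => F i (s i) n) Y := by
  unfold GW
  rw [Finset.sum_comm]
  refine Finset.sum_congr rfl fun x _ => ?_
  by_cases hc : Squarefree (2 * ∏ i, x i) ∧ ∏ i, (x i : ℝ) ^ w i ≤ Y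
  · simp only [if_pos hc]
    rw [← Finset.sum_mul]
    congr 1
    have e : ∀ i, F i false (x i) + F i true (x i) =
        ∑ t ∈ (Finset.univ : Finset Bool), F i t (x i) := by
      intro i
      rw [Fintype.sum_bool, add_comm]
    rw [Finset.prod_congr rfl fun i _ => e i, Finset.prod_univ_sum, Fintype.piFinset_univ]
  · simp only [if_neg hc]
    exact Finset.sum_const_zero.symm

theorem a7_zero {ι : Type} [Fintype ι] (w : ι → ℝ) (L : ι → ι → Prop) (a : ι → ℕ → ℝ) (Y : ℝ)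
    (i : ι) (h : ∀ n, a i n = 0) : GW w L a Y = 0 := by
  classical
  unfold GW
  refine Finset.sum_eq_zero fun x _ => ?_
  have h0 : ∏ j, a j (x j) = 0 := Finset.prod_eq_zero (Finset.mem_univ i) (h (x i))
  rw [h0, zero_mul, ite_self]

/-! ### real estimates -/

theorem a7_r1 (δ : ℝ) (hδ : 0 < δ) (n : ℕ) :
    ∃ C : ℝ, 0 ≤ C ∧ ∀ M : ℝ, 1 ≤ M →
      M ^ (-δ) * (1 + Real.log M) ^ n ≤ C * (1 + Real.log M) ^ (-2 : ℝ) := by
  refine ⟨(n + 2).factorial / δ ^ (n + 2) * Real.exp δ, by positivity, fun M hM => ?_⟩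
  have hl : 0 ≤ Real.log M := Real.log_nonneg hM
  set t := 1 + Real.log M with ht
  have t0 : 0 < t := by linarith
  have hM' : M ^ (-δ) = Real.exp δ * (Real.exp (δ * t))⁻¹ := by
    rw [Real.rpow_def_of_pos (by linarith), ← Real.exp_neg, ← Real.exp_add]
    congr 1
    rw [ht]
    ring
  have h1 := Real.pow_div_factorial_le_exp (δ * t) (by positivity) (n + 2)
  have h2 : t ^ (-2 : ℝ) = (t ^ 2)⁻¹ := by
    rw [Real.rpow_neg t0.le, ← Real.rpow_natCast t 2]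
    norm_num
  have hE := Real.exp_pos (δ * t)
  rw [h2, hM', ← div_eq_mul_inv, ← div_eq_mul_inv, le_div_iff₀ (by positivity)]
  rw [div_le_iff₀ (by positivity), mul_pow] at h1
  have e1 : Real.exp δ / Real.exp (δ * t) * t ^ n * t ^ 2 =
      (t ^ (n + 2) / Real.exp (δ * t)) * Real.exp δ := by
    rw [pow_add]
    ring
  rw [e1]
  refine mul_le_mul_of_nonneg_right ?_ (Real.exp_pos δ).le
  rw [div_le_div_iff₀ hE (by positivity)]
  linarith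

theorem a7_r2 {t δ : ℝ} (ht : 1 ≤ t) {A n : ℕ} (h : (n : ℝ) + 2 ≤ A * δ) :
    (t ^ A) ^ (-δ) * t ^ n ≤ t ^ (-2 : ℝ) := by
  have t0 : 0 < t := by linarith
  rw [← Real.rpow_natCast t A, ← Real.rpow_mul t0.le, ← Real.rpow_natCast t n,
    ← Real.rpow_add t0]
  refine Real.rpow_le_rpow_of_exponent_le ht ?_
  linarith

theorem a7_r3 {M : ℝ} (hM : 1 ≤ M) (k : ℕ) :
    (1 + Real.log (2 * M)) ^ k ≤ 2 ^ k * (1 + Real.log M) ^ k := by
  have hl : 0 ≤ Real.log M := Real.log_nonneg hM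
  have h2 : Real.log 2 ≤ 1 := by
    have := Real.log_two_lt_d9
    linarith
  have h3 : 0 ≤ Real.log 2 := Real.log_nonneg (by norm_num)
  rw [← mul_pow, Real.log_mul (by norm_num) (by linarith)]
  exact pow_le_pow_left₀ (by linarith) (by linarith) k

theorem a7_close {v C Y E X Q C' s : ℝ} (hYE : 0 ≤ Y * E) (h : v ≤ C * Y * E * X * Q)
    (hXQ : 0 ≤ X * Q) (h2 : X * Q ≤ C' * s) : v ≤ |C| * C' * (Y * E * s) := by
  calc v ≤ C * Y * E * X * Q := h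
    _ = C * (Y * E * (X * Q)) := by ring
    _ ≤ |C| * (Y * E * (X * Q)) :=
        mul_le_mul_of_nonneg_right (le_abs_self C) (mul_nonneg hYE hXQ)
    _ ≤ |C| * (Y * E * (C' * s)) :=
        mul_le_mul_of_nonneg_left (mul_le_mul_of_nonneg_left h2 hYE) (abs_nonneg C)
    _ = _ := by ring

theorem a7_YE {Y : ℝ} (hY : 1 ≤ Y) (n : ℕ) : 0 ≤ Y * (1 + Real.log Y) ^ n := by
  have := Real.log_nonneg hY
  positivity

/-! ### one large linked variable -/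

/-- the standing conditions for a piece -/
structure A7Ok {ι : Type} [Fintype ι] (w : ι → ℝ) (L : ι → ι → Prop) (c : ι → Fin 4)
    (α : ι → ℕ → ℝ) (M Y : ℝ) : Prop where
  one : ∀ l n, |α l n| ≤ 1
  two : ∀ l n, α l n ≠ 0 → 2 ≤ n
  M1 : 1 ≤ M
  Y1 : 1 ≤ Y
  sup : ∀ l, ¬ Free w L c l → ∀ n, α l n ≠ 0 → (n : ℝ) ≤ 2 * M

/-- the wanted bound, without the constant -/
noncomputable def a7B {ι : Type} [Fintype ι] (w : ι → ℝ) (L : ι → ι → Prop) (c : ι → Fin 4)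
    (M Y : ℝ) : ℝ :=
  Y * (1 + Real.log Y) ^ (Nat.card {l // Free w L c l} - 1) * (1 + Real.log M) ^ (-2 : ℝ)

theorem a7B_nonneg {ι : Type} [Fintype ι] (w : ι → ℝ) (L : ι → ι → Prop) (c : ι → Fin 4)
    {M Y : ℝ} (hM : 1 ≤ M) (hY : 1 ≤ Y) : 0 ≤ a7B w L c M Y := by
  have h1 := Real.log_nonneg hM
  have h2 := a7_YE hY (Nat.card {l // Free w L c l} - 1)
  unfold a7B
  exact mul_nonneg h2 (Real.rpow_nonneg (by linarith) _)

theorem a7_an {ι : Type} [Fintype ι] (w : ι → ℝ) (L : ι → ι → Prop) (c : ι → Fin 4)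
    (han : A7An w L c) (j : ι) (hj : 1 < w j) :
    ∃ A₀ : ℕ, ∀ A : ℕ, A₀ ≤ A → ∃ C : ℝ, 0 ≤ C ∧ ∀ (α : ι → ℕ → ℝ) (M Y : ℝ),
      A7Ok w L c α M Y → (∀ n, α j n ≠ 0 → (1 + Real.log M) ^ A < n) →
      |GW w L α Y| ≤ C * a7B w L c M Y := by
  obtain ⟨C, k, h⟩ := han j hj
  obtain ⟨A₀, hA₀⟩ := exists_nat_ge (((k : ℝ) + 2) / (w j - 1))
  refine ⟨A₀, fun A hA => ⟨|C| * 2 ^ k, by positivity, fun α M Y ho hα => ?_⟩⟩
  have hl := Real.log_nonneg ho.M1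
  have h1 := h α ((1 + Real.log M) ^ A) (2 * M) Y ho.one (one_le_pow₀ (by linarith))
    (by linarith [ho.M1]) ho.Y1 ho.sup hα
  have hAr : (k : ℝ) + 2 ≤ A * (w j - 1) := by
    rw [div_le_iff₀ (by linarith)] at hA₀
    refine hA₀.trans (mul_le_mul_of_nonneg_right (by exact_mod_cast hA) (by linarith))
  have hlog2 : 0 ≤ Real.log (2 * M) := Real.log_nonneg (by linarith [ho.M1])
  have hX : 0 ≤ ((1 + Real.log M) ^ A) ^ (-(w j - 1)) :=
    Real.rpow_nonneg (pow_nonneg (by linarith) _) _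
  refine a7_close (a7_YE ho.Y1 _) h1 (mul_nonneg hX (pow_nonneg (by linarith) _)) ?_
  calc ((1 + Real.log M) ^ A) ^ (-(w j - 1)) * (1 + Real.log (2 * M)) ^ k
      ≤ ((1 + Real.log M) ^ A) ^ (-(w j - 1)) * (2 ^ k * (1 + Real.log M) ^ k) :=
        mul_le_mul_of_nonneg_left (a7_r3 ho.M1 k) hX
    _ = 2 ^ k * (((1 + Real.log M) ^ A) ^ (-(w j - 1)) * (1 + Real.log M) ^ k) := by ring
    _ ≤ 2 ^ k * (1 + Real.log M) ^ (-2 : ℝ) :=
        mul_le_mul_of_nonneg_left (a7_r2 (by linarith) hAr) (by positivity)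

theorem a7_an' {ι : Type} [Fintype ι] (w : ι → ℝ) (L : ι → ι → Prop) (c : ι → Fin 4)
    (han : A7An w L c) (j : ι) (hj : 1 < w j) :
    ∃ C : ℝ, 0 ≤ C ∧ ∀ (α : ι → ℕ → ℝ) (M Y : ℝ),
      A7Ok w L c α M Y → (∀ n, α j n ≠ 0 → M < n) →
      |GW w L α Y| ≤ C * a7B w L c M Y := by
  obtain ⟨C, k, h⟩ := han j hj
  obtain ⟨C', hC', h'⟩ := a7_r1 (w j - 1) (by linarith) k
  refine ⟨|C| * (2 ^ k * C'), by positivity, fun α M Y ho hα => ?_⟩
  have hl := Real.log_nonneg ho.M1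
  have h1 := h α M (2 * M) Y ho.one ho.M1 (by linarith [ho.M1]) ho.Y1 ho.sup hα
  have hlog2 : 0 ≤ Real.log (2 * M) := Real.log_nonneg (by linarith [ho.M1])
  have hX : 0 ≤ M ^ (-(w j - 1)) := Real.rpow_nonneg (by linarith [ho.M1]) _
  refine a7_close (a7_YE ho.Y1 _) h1 (mul_nonneg hX (pow_nonneg (by linarith) _)) ?_
  calc M ^ (-(w j - 1)) * (1 + Real.log (2 * M)) ^ k
      ≤ M ^ (-(w j - 1)) * (2 ^ k * (1 + Real.log M) ^ k) :=
        mul_le_mul_of_nonneg_left (a7_r3 ho.M1 k) hX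
    _ = 2 ^ k * (M ^ (-(w j - 1)) * (1 + Real.log M) ^ k) := by ring
    _ ≤ 2 ^ k * (C' * (1 + Real.log M) ^ (-2 : ℝ)) :=
        mul_le_mul_of_nonneg_left (h' M ho.M1) (by positivity)
    _ = _ := by ring

theorem a7_pair {ι : Type} [Fintype ι] (w : ι → ℝ) (L : ι → ι → Prop) (c : ι → Fin 4)
    (hpair : A7Pair w L c) (i j : ι) (hij : L i j ∨ L j i) (hi : w i = 1) (hj : w j = 1) :
    ∃ A₀ : ℕ, ∀ A : ℕ, A₀ ≤ A → ∃ C : ℝ, 0 ≤ C ∧ ∀ (α : ι → ℕ → ℝ) (M Y : ℝ),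
      A7Ok w L c α M Y → (∀ n, α i n ≠ 0 → M < n) →
      (∀ n, α j n ≠ 0 → (1 + Real.log M) ^ A < n) →
      |GW w L α Y| ≤ C * a7B w L c M Y := by
  obtain ⟨C, k, h⟩ : ∃ C : ℝ, ∃ k : ℕ, ∀ (a : ι → ℕ → ℝ) (P M Y : ℝ), (∀ l n, |a l n| ≤ 1) →
      1 ≤ P → 1 ≤ M → 1 ≤ Y → (∀ l, ¬ Free w L c l → ∀ n, a l n ≠ 0 → (n : ℝ) ≤ M) →
      (∀ n, a i n ≠ 0 → P < n) → (∀ n, a j n ≠ 0 → P < n) →
      |GW w L a Y| ≤ C * Y * (1 + Real.log Y) ^ (Nat.card {l // Free w L c l} - 1) *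
        P ^ (-(1 / 12) : ℝ) * (1 + Real.log M) ^ k := by
    rcases hij with hij | hij
    · exact hpair i j hij hi hj
    · obtain ⟨C, k, h⟩ := hpair j i hij hj hi
      exact ⟨C, k, fun a P M Y h1 h2 h3 h4 h5 h6 h7 => h a P M Y h1 h2 h3 h4 h5 h7 h6⟩
  obtain ⟨C', hC', h'⟩ := a7_r1 (1 / 12) (by norm_num) k
  refine ⟨12 * (k + 2), fun A hA => ⟨|C| * (2 ^ k * (1 + C')), by positivity,
    fun α M Y ho hαi hαj => ?_⟩⟩
  have hl := Real.log_nonneg ho.M1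
  have hM := ho.M1
  have hP1 : 1 ≤ (1 + Real.log M) ^ A := one_le_pow₀ (by linarith)
  have h1 := h α (min ((1 + Real.log M) ^ A) M) (2 * M) Y ho.one (le_min hP1 hM)
    (by linarith) ho.Y1 ho.sup (fun n hn => lt_of_le_of_lt (min_le_right _ _) (hαi n hn))
    (fun n hn => lt_of_le_of_lt (min_le_left _ _) (hαj n hn))
  have hAr : (k : ℝ) + 2 ≤ A * (1 / 12) := by
    have h2 : ((12 * (k + 2) : ℕ) : ℝ) ≤ A := by exact_mod_cast hA
    push_cast at h2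
    linarith
  have hlog2 : 0 ≤ Real.log (2 * M) := Real.log_nonneg (by linarith)
  have hmin : 0 < min ((1 + Real.log M) ^ A) M := lt_min (by linarith) (by linarith)
  have hX : 0 ≤ (min ((1 + Real.log M) ^ A) M) ^ (-(1 / 12) : ℝ) := Real.rpow_nonneg hmin.le _
  refine a7_close (a7_YE ho.Y1 _) h1 (mul_nonneg hX (pow_nonneg (by linarith) _)) ?_
  have hX2 : (min ((1 + Real.log M) ^ A) M) ^ (-(1 / 12) : ℝ) * (1 + Real.log M) ^ k ≤
      (1 + C') * (1 + Real.log M) ^ (-2 : ℝ) := by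
    have hs : 0 ≤ (1 + Real.log M) ^ (-2 : ℝ) := Real.rpow_nonneg (by linarith) _
    have h2 : ((1 + Real.log M) ^ A) ^ (-(1 / 12) : ℝ) * (1 + Real.log M) ^ k ≤
      (1 + Real.log M) ^ (-2 : ℝ) := a7_r2 (by linarith) hAr
    have h3 := h' M hM
    rcases min_choice ((1 + Real.log M) ^ A) M with h4 | h4
    · rw [h4]
      nlinarith
    · rw [h4]
      nlinarith
  calc (min ((1 + Real.log M) ^ A) M) ^ (-(1 / 12) : ℝ) * (1 + Real.log (2 * M)) ^ k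
      ≤ (min ((1 + Real.log M) ^ A) M) ^ (-(1 / 12) : ℝ) * (2 ^ k * (1 + Real.log M) ^ k) :=
        mul_le_mul_of_nonneg_left (a7_r3 ho.M1 k) hX
    _ = 2 ^ k * ((min ((1 + Real.log M) ^ A) M) ^ (-(1 / 12) : ℝ) * (1 + Real.log M) ^ k) := by
        ring
    _ ≤ 2 ^ k * ((1 + C') * (1 + Real.log M) ^ (-2 : ℝ)) :=
        mul_le_mul_of_nonneg_left hX2 (by positivity)
    _ = _ := by ring

/-! ### all linked variables small -/

open Classical in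
theorem a7_char {ι : Type} [Fintype ι] (w : ι → ℝ) (L : ι → ι → Prop) (c : ι → Fin 4)
    (hchar : A7Char w L c) (i : ι) (hi : w i = 1) (hF : ¬ Free w L c i) (A : ℕ) :
    ∃ C : ℝ, 0 ≤ C ∧ ∀ (α : ι → ℕ → ℝ) (M Y : ℝ),
      A7Ok w L c α M Y →
      (∀ n : ℕ, α i n = if M < n ∧ (n : ℝ) ≤ 2 * M then (psi (c i) n : ℝ) else 0) →
      (∀ j, L i j ∨ L j i → ∀ n, α j n ≠ 0 → (n : ℝ) ≤ (1 + Real.log M) ^ A) →
      |GW w L α Y| ≤ C * a7B w L c M Y := by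
  have hd : c i ≠ 0 ∨ ∃ j, L i j ∨ L j i := by
    by_contra hcon
    push Not at hcon
    exact hF ⟨hi, hcon.1, fun j => hcon.2 j⟩
  obtain ⟨C, k, h⟩ := hchar i hi hF (c i) hd
  obtain ⟨C', hC', h'⟩ := a7_r1 (1 / 2) (by norm_num) (A * Fintype.card ι + k)
  refine ⟨|C| * C', by positivity, fun α M Y ho hαi hαj => ?_⟩
  have hl := Real.log_nonneg ho.M1
  have hM := ho.M1
  have hP1 : 1 ≤ (1 + Real.log M) ^ A := one_le_pow₀ (by linarith)
  have h1 := h α ((1 + Real.log M) ^ A) M Y ho.one hP1 hM ho.Y1 ho.sup hαi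
    (fun j hj n hn => ⟨ho.two j n hn, hαj j hj n hn⟩)
  have hX : 0 ≤ (((1 + Real.log M) ^ A) ^ (Fintype.card ι) / M) ^ (1 / 2 : ℝ) :=
    Real.rpow_nonneg (by positivity) _
  refine a7_close (a7_YE ho.Y1 _) h1 (mul_nonneg hX (pow_nonneg (by linarith) _)) ?_
  have h2 : (((1 + Real.log M) ^ A) ^ (Fintype.card ι) / M) ^ (1 / 2 : ℝ) ≤
      M ^ (-(1 / 2) : ℝ) * (1 + Real.log M) ^ (A * Fintype.card ι) := by
    rw [← pow_mul, Real.div_rpow (by positivity) (by linarith), div_eq_mul_inv,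
      ← Real.rpow_neg (by linarith), mul_comm]
    refine mul_le_mul_of_nonneg_left ?_ (Real.rpow_nonneg (by linarith) _)
    have h3 : 1 ≤ (1 + Real.log M) ^ (A * Fintype.card ι) := one_le_pow₀ (by linarith)
    calc ((1 + Real.log M) ^ (A * Fintype.card ι)) ^ (1 / 2 : ℝ)
        ≤ ((1 + Real.log M) ^ (A * Fintype.card ι)) ^ (1 : ℝ) :=
          Real.rpow_le_rpow_of_exponent_le h3 (by norm_num)
      _ = _ := Real.rpow_one _
  calc (((1 + Real.log M) ^ A) ^ (Fintype.card ι) / M) ^ (1 / 2 : ℝ) * (1 + Real.log M) ^ k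
      ≤ M ^ (-(1 / 2) : ℝ) * (1 + Real.log M) ^ (A * Fintype.card ι) * (1 + Real.log M) ^ k :=
        mul_le_mul_of_nonneg_right h2 (pow_nonneg (by linarith) _)
    _ = M ^ (-(1 / 2) : ℝ) * (1 + Real.log M) ^ (A * Fintype.card ι + k) := by
        rw [pow_add]
        ring
    _ ≤ C' * (1 + Real.log M) ^ (-2 : ℝ) := h' M hM

end Pool.Agent.H98.ML
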