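import Pool.Agent.H98.ML.GDefs
import Pool.Agent.H98.MK.GSChar2
import Pool.Agent.H98.MK.Recip

/-!
# Project MK2, row A5: the bound of a single inner sum
-/

set_option autoImplicit false

open scoped BigOperators

namespace Pool.Agent.H98.ML

open Pool.Agent.H98.MK

open Classical in
/-- refined character sums over squarefree integers -/
def CSq : Prop :=
  ∀ (χ : ℕ → ℝ), (∀ a b, χ (a * b) = χ a * χ b) → (∀ n, |χ n| ≤ 1) → ∀ (q : ℝ), 1 ≤ q →
    (∀ M : ℕ, |∑ n ∈ Finset.Icc 1 M, χ n| ≤ q) → ∀ (m : ℕ), 0 < m → ∀ (x : ℝ), 1 ≤ x →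
    |∑ n ∈ Finset.Icc 1 ⌊x⌋₊, if Squarefree n ∧ Nat.Coprime n m then χ n else 0| ≤
      8 * hm m * Real.sqrt (q * x)

theorem a5_hm_nonneg (m : ℕ) : 0 ≤ hm m :=
  Finset.sum_nonneg fun _ _ => div_nonneg (Nat.cast_nonneg _) (Real.sqrt_nonneg _)

open Classical in
theorem a5_inner (hC : CSq) (χ : ℕ → ℝ) (hmul : ∀ a b, χ (a * b) = χ a * χ b)
    (h1 : ∀ n, |χ n| ≤ 1) (q : ℝ) (hq : 1 ≤ q) (hs : ∀ M : ℕ, |∑ n ∈ Finset.Icc 1 M, χ n| ≤ q)
    (m : ℕ) (hm0 : 0 < m) (K X : ℝ) (hK : 1 ≤ K) (hX : 0 ≤ X) (N : ℕ) (hN : ⌊X⌋₊ ≤ N) :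
    |∑ n ∈ Finset.Icc 1 N, if (Squarefree n ∧ Nat.Coprime n m) ∧ K < n ∧ (n : ℝ) ≤ X
      then χ n else 0| ≤ 16 * hm m * Real.sqrt q * (X / Real.sqrt K) := by
  have hK0 : 0 < Real.sqrt K := Real.sqrt_pos.2 (by linarith)
  have t0 : (0 : ℝ) ≤ hm m := a5_hm_nonneg m
  rcases le_or_gt X K with hXK | hKX
  · have h0 : (∑ n ∈ Finset.Icc 1 N, if (Squarefree n ∧ Nat.Coprime n m) ∧ K < n ∧ (n : ℝ) ≤ X
        then χ n else 0) = 0 := by
      refine Finset.sum_eq_zero fun n _ => ?_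
      rw [if_neg]
      rintro ⟨-, h2, h3⟩
      linarith
    rw [h0, abs_zero]
    positivity
  · have hX1 : 1 ≤ X := by linarith
    have e : (∑ n ∈ Finset.Icc 1 N, if (Squarefree n ∧ Nat.Coprime n m) ∧ K < n ∧ (n : ℝ) ≤ X
        then χ n else 0) =
        (∑ n ∈ Finset.Icc 1 ⌊X⌋₊, if Squarefree n ∧ Nat.Coprime n m then χ n else 0) -
        ∑ n ∈ Finset.Icc 1 ⌊K⌋₊, if Squarefree n ∧ Nat.Coprime n m then χ n else 0 := by
      rw [a4_floor _ X hX N hN, a4_floor _ K (by linarith) N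
        ((Nat.floor_le_floor hKX.le).trans hN), ← Finset.sum_sub_distrib]
      refine Finset.sum_congr rfl fun n _ => ?_
      by_cases c1 : Squarefree n ∧ Nat.Coprime n m
      · rw [if_pos c1]
        by_cases c2 : (n : ℝ) ≤ K
        · rw [if_neg (fun h => absurd h.2.1 (not_lt.2 c2)), if_pos (c2.trans hKX.le), if_pos c2,
            sub_self]
        · by_cases c3 : (n : ℝ) ≤ X
          · rw [if_pos ⟨c1, not_le.1 c2, c3⟩, if_pos c3, if_neg c2, sub_zero]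
          · rw [if_neg (fun h => c3 h.2.2), if_neg c3, if_neg c2, sub_zero]
      · rw [if_neg (fun h => c1 h.1), if_neg c1]
        simp
    rw [e]
    have b1 := hC χ hmul h1 q hq hs m hm0 X hX1
    have b2 := hC χ hmul h1 q hq hs m hm0 K hK
    have q0 : 0 ≤ q := by linarith
    have b3 : Real.sqrt (q * K) ≤ Real.sqrt (q * X) :=
      Real.sqrt_le_sqrt (mul_le_mul_of_nonneg_left hKX.le q0)
    have b4 : Real.sqrt (q * X) ≤ Real.sqrt q * (X / Real.sqrt K) := by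
      rw [Real.sqrt_mul q0]
      refine mul_le_mul_of_nonneg_left ?_ (Real.sqrt_nonneg _)
      rw [le_div_iff₀ hK0]
      calc Real.sqrt X * Real.sqrt K ≤ Real.sqrt X * Real.sqrt X :=
            mul_le_mul_of_nonneg_left (Real.sqrt_le_sqrt hKX.le) (Real.sqrt_nonneg _)
        _ = X := Real.mul_self_sqrt hX
    have b5 : (8 : ℝ) * hm m * Real.sqrt (q * K) ≤ 8 * hm m * Real.sqrt (q * X) :=
      mul_le_mul_of_nonneg_left b3 (by positivity)
    have b6 : (16 : ℝ) * hm m * Real.sqrt (q * X) ≤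
        16 * hm m * (Real.sqrt q * (X / Real.sqrt K)) :=
      mul_le_mul_of_nonneg_left b4 (by positivity)
    refine (abs_sub _ _).trans ?_
    linarith

/-- submultiplicativity over a finite product -/
theorem a5_hm_prod (hmul : ∀ a b : ℕ, 0 < a → 0 < b → hm (a * b) ≤ hm a * hm b)
    {ι : Type} (s : Finset ι) (z : ι → ℕ) (hz : ∀ j, 0 < z j) :
    hm (∏ j ∈ s, z j) ≤ ∏ j ∈ s, hm (z j) := by
  classical
  induction s using Finset.induction_on with
  | empty => simp [hm]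
  | insert a s ha ih =>
    rw [Finset.prod_insert ha, Finset.prod_insert ha]
    exact (hmul _ _ (hz a) (Finset.prod_pos fun j _ => hz j)).trans
      (mul_le_mul_of_nonneg_left ih (a5_hm_nonneg _))

open Classical in
/-- the bound of a single inner sum, with all data -/
theorem a5_term (hC : CSq) (hhm : ∀ a b : ℕ, 0 < a → 0 < b → hm (a * b) ≤ hm a * hm b)
    {ι : Type} [Fintype ι] (w : ι → ℝ) (hw : ∀ i, 1 ≤ w i) (L : ι → ι → Prop)
    (hL : ∀ i j, L i j → ¬ L j i) (R : ι → Prop) (i : ι) (hi : w i = 1) (c : Fin 4)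
    (hc : c ≠ 0 ∨ ∃ j, L i j ∨ L j i) (a : ι → ℕ → ℝ) (P K Y : ℝ) (ha : ∀ l n, |a l n| ≤ 1)
    (hP : 1 ≤ P) (hK : 1 ≤ K) (hY : 1 ≤ Y)
    (haR : ∀ l, ¬ R l → ∀ n, a l n ≠ 0 → (n : ℝ) ≤ 2 * K)
    (hai : ∀ n : ℕ, a i n = if K < n ∧ (n : ℝ) ≤ 2 * K then (psi c n : ℝ) else 0)
    (haj : ∀ j, L i j ∨ L j i → ∀ n, a j n ≠ 0 → 2 ≤ n ∧ (n : ℝ) ≤ P)
    (z : ι → ℕ) (hz1 : ∀ j, 1 ≤ z j) (hzi : z i = 1) (D : (x : ι → ℕ) →
      Decidable (Squarefree (2 * ∏ j, x j) ∧ ∏ j, (x j : ℝ) ^ w j ≤ Y)) :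
    |∑ n ∈ Finset.Icc 1 ⌊Y⌋₊, @ite ℝ (Squarefree (2 * ∏ j, Function.update z i n j) ∧
        ∏ j, (Function.update z i n j : ℝ) ^ w j ≤ Y) (D (Function.update z i n))
        ((∏ j, a j (Function.update z i n j)) * (jp L (Function.update z i n) : ℝ)) 0| ≤
      if (∀ j, ¬ R j → (z j : ℝ) ≤ 2 * K) ∧ ∏ j, (z j : ℝ) ^ w j ≤ Y then
      16 * Real.sqrt 8 * (P ^ (Fintype.card ι) / K) ^ (1 / 2 : ℝ) *
        ((∏ j, hm (z j)) * min (Y / ∏ j, (z j : ℝ) ^ w j) (2 * K)) else 0 := by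
  have hLi : ¬ L i i := fun h => hL _ _ h h
  obtain ⟨m, hmd⟩ : ∃ m : ℕ, m = ∏ j, z j := ⟨_, rfl⟩
  obtain ⟨W, hWd⟩ : ∃ W : ℝ, W = ∏ j, (z j : ℝ) ^ w j := ⟨_, rfl⟩
  obtain ⟨Ap, hApd⟩ : ∃ Ap : ℝ, Ap = ∏ j ∈ Finset.univ.erase i, a j (z j) := ⟨_, rfl⟩
  rw [← hWd]
  have hm0 : 0 < m := by
    rw [hmd]
    exact Finset.prod_pos fun j _ => hz1 j
  have hzr : ∀ j, (1 : ℝ) ≤ z j := fun j => by exact_mod_cast hz1 j
  have hmW : (m : ℝ) ≤ W := by
    rw [hmd, hWd]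
    push_cast
    refine Finset.prod_le_prod (fun j _ => by positivity) fun j _ => ?_
    calc (z j : ℝ) = (z j : ℝ) ^ (1 : ℝ) := (Real.rpow_one _).symm
      _ ≤ _ := Real.rpow_le_rpow_of_exponent_le (hzr j) (hw j)
  have hm1 : (1 : ℝ) ≤ m := by exact_mod_cast hm0
  have hW1 : 1 ≤ W := hm1.trans hmW
  have hW0 : 0 < W := by linarith
  have eprod : ∀ n, ∏ j, Function.update z i n j = n * m := fun n => by
    have h1 := a4_upd (M := ℕ) i z n (fun _ x => x)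
    have h2 : m = z i * ∏ j ∈ Finset.univ.erase i, z j := by
      rw [hmd]
      exact (Finset.mul_prod_erase Finset.univ _ (Finset.mem_univ i)).symm
    rw [h1, h2, hzi, one_mul]
  have eW : ∀ n : ℕ, ∏ j, (Function.update z i n j : ℝ) ^ w j = n * W := fun n => by
    have h1 := a4_upd (M := ℝ) i z n (fun j x => (x : ℝ) ^ w j)
    have h2 : W = (z i : ℝ) ^ w i * ∏ j ∈ Finset.univ.erase i, (z j : ℝ) ^ w j := by
      rw [hWd]
      exact (Finset.mul_prod_erase Finset.univ (fun j => (z j : ℝ) ^ w j)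
        (Finset.mem_univ i)).symm
    rw [h1, h2, hzi, hi, Real.rpow_one, Nat.cast_one, Real.rpow_one, one_mul]
  have eA : ∀ n : ℕ, ∏ j, a j (Function.update z i n j) = a i n * Ap := fun n => by
    rw [hApd]
    exact a4_upd (M := ℝ) i z n (fun j x => a j x)
  have hAp : |Ap| ≤ 1 := by
    rw [hApd, Finset.abs_prod]
    exact Finset.prod_le_one (fun _ _ => abs_nonneg _) fun j _ => ha _ _
  have hK0 : 0 < K := by linarith
  have hP0 : 0 < P := by linarith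
  have hY0 : 0 < Y := by linarith
  have hs8 : 0 ≤ Real.sqrt 8 := Real.sqrt_nonneg _
  have hmin0 : 0 ≤ min (Y / W) (2 * K) := le_min (by positivity) (by positivity)
  have hpr0 : 0 ≤ ∏ j, hm (z j) := Finset.prod_nonneg fun j _ => a5_hm_nonneg _
  have hR : 0 ≤ if (∀ j, ¬ R j → (z j : ℝ) ≤ 2 * K) ∧ W ≤ Y then
      16 * Real.sqrt 8 * (P ^ (Fintype.card ι) / K) ^ (1 / 2 : ℝ) *
        ((∏ j, hm (z j)) * min (Y / W) (2 * K)) else 0 := by
    split_ifs
    · positivity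
    · exact le_rfl
  by_cases h0 : (Squarefree (2 * m) ∧ Ap ≠ 0) ∧ W ≤ Y
  swap
  · have e0 : (∑ n ∈ Finset.Icc 1 ⌊Y⌋₊, @ite ℝ (Squarefree (2 * ∏ j, Function.update z i n j) ∧
        ∏ j, (Function.update z i n j : ℝ) ^ w j ≤ Y) (D (Function.update z i n))
        ((∏ j, a j (Function.update z i n j)) * (jp L (Function.update z i n) : ℝ)) 0) = 0 := by
      refine Finset.sum_eq_zero fun n hn => ?_
      by_cases hA : Ap = 0
      · rw [eA, hA, mul_zero, zero_mul]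
        exact ite_self _
      · rw [if_neg]
        rintro ⟨h, h'⟩
        apply h0
        refine ⟨⟨?_, hA⟩, ?_⟩
        · rw [eprod] at h
          exact h.squarefree_of_dvd ⟨n, by ring⟩
        · rw [eW] at h'
          have hn1 : (1 : ℝ) ≤ n := by exact_mod_cast (Finset.mem_Icc.1 hn).1
          nlinarith
    rw [e0, abs_zero]
    exact hR
  obtain ⟨⟨hsf, hAp0⟩, hWY⟩ := h0
  have hane : ∀ j, j ≠ i → a j (z j) ≠ 0 := fun j hj => by
    rw [hApd] at hAp0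
    exact Finset.prod_ne_zero_iff.1 hAp0 j (Finset.mem_erase.2 ⟨hj, Finset.mem_univ _⟩)
  have hz2K : ∀ j, ¬ R j → (z j : ℝ) ≤ 2 * K := by
    intro j hj
    by_cases hji : j = i
    · rw [hji, hzi]
      push_cast
      linarith
    · exact haR j hj _ (hane j hji)
  rw [if_pos ⟨hz2K, hWY⟩]
  obtain ⟨A, hAd⟩ : ∃ A : Finset ι, A = Finset.univ.filter fun k => L i k := ⟨_, rfl⟩
  obtain ⟨B, hBd⟩ : ∃ B : Finset ι, B = Finset.univ.filter fun j => L j i := ⟨_, rfl⟩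
  have hAm : ∀ j, j ∈ A ↔ L i j := fun j => by
    rw [hAd, Finset.mem_filter]
    exact ⟨fun h => h.2, fun h => ⟨Finset.mem_univ _, h⟩⟩
  have hBm : ∀ j, j ∈ B ↔ L j i := fun j => by
    rw [hBd, Finset.mem_filter]
    exact ⟨fun h => h.2, fun h => ⟨Finset.mem_univ _, h⟩⟩
  have hAB : Disjoint A B := by
    rw [Finset.disjoint_left]
    intro j h1 h2
    exact hL _ _ ((hAm j).1 h1) ((hBm j).1 h2)
  have hmodd : Odd m := by
    have h : Nat.Coprime 2 m := (Nat.squarefree_mul_iff.1 hsf).1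
    exact (Nat.coprime_two_left).1 h
  have hmsf : Squarefree m := (Nat.squarefree_mul_iff.1 hsf).2.2
  have hodd : ∀ j, Odd (z j) := fun j => by
    rw [hmd] at hmodd
    exact Odd.of_dvd_nat hmodd (Finset.dvd_prod_of_mem z (Finset.mem_univ j))
  obtain ⟨c', hc'1, hc'2⟩ := recip A B hAB z hodd c
  obtain ⟨Q, hQd⟩ : ∃ Q : ℕ, Q = ∏ j ∈ A ∪ B, z j := ⟨_, rfl⟩
  rw [← hQd] at hc'2
  have hQm : Q ∣ m := by
    rw [hQd, hmd]
    exact Finset.prod_dvd_prod_of_subset _ _ _ (Finset.subset_univ _)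
  have hQodd : Odd Q := Odd.of_dvd_nat hmodd hQm
  have hQsf : Squarefree Q := hmsf.squarefree_of_dvd hQm
  have hlink : ∀ j ∈ A ∪ B, 2 ≤ z j ∧ (z j : ℝ) ≤ P := by
    intro j hj
    have hj' : L i j ∨ L j i := by
      rcases Finset.mem_union.1 hj with h | h
      · exact Or.inl ((hAm j).1 h)
      · exact Or.inr ((hBm j).1 h)
    refine haj j hj' (z j) (hane j ?_)
    rintro rfl
    rcases hj' with h | h <;> exact hLi h
  have hQc : Q ≠ 1 ∨ c' ≠ 0 := by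
    by_cases hE : A ∪ B = ∅
    · right
      rw [hc'1 hE]
      rcases hc with h | ⟨j, hj⟩
      · exact h
      · exfalso
        have : j ∈ A ∪ B := by
          rw [Finset.mem_union]
          rcases hj with h | h
          · exact Or.inl ((hAm j).2 h)
          · exact Or.inr ((hBm j).2 h)
        rw [hE] at this
        exact absurd this (Finset.notMem_empty j)
    · left
      obtain ⟨j, hj⟩ := Finset.nonempty_iff_ne_empty.2 hE
      intro hQ
      have h1 : z j ∣ Q := by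
        rw [hQd]
        exact Finset.dvd_prod_of_mem z hj
      rw [hQ] at h1
      have h2 := Nat.dvd_one.1 h1
      have h3 := (hlink j hj).1
      omega
  have hQP : (Q : ℝ) ≤ P ^ (Fintype.card ι) := by
    rw [hQd]
    push_cast
    calc ∏ j ∈ A ∪ B, (z j : ℝ) ≤ ∏ j ∈ A ∪ B, P :=
          Finset.prod_le_prod (fun j _ => by positivity) fun j hj => (hlink j hj).2
      _ = P ^ (A ∪ B).card := by rw [Finset.prod_const]
      _ ≤ P ^ (Fintype.card ι) := pow_le_pow_right₀ hP (Finset.card_le_univ _)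
  have hQ1 : (1 : ℝ) ≤ Q := by exact_mod_cast hQodd.pos
  have hXY : min (Y / W) (2 * K) ≤ Y := (min_le_left _ _).trans (div_le_self hY0.le hW1)
  have key := a5_inner hC (a4_chi Q c') (a4_chi_mul Q c') (a4_chi_abs Q c') (8 * Q)
    (by linarith) (a4_chi_sum Q hQodd hQsf c' hQc) m hm0 K (min (Y / W) (2 * K)) hK hmin0 ⌊Y⌋₊
    (Nat.floor_le_floor hXY)
  have e1 : (∑ n ∈ Finset.Icc 1 ⌊Y⌋₊, @ite ℝ (Squarefree (2 * ∏ j, Function.update z i n j) ∧
        ∏ j, (Function.update z i n j : ℝ) ^ w j ≤ Y) (D (Function.update z i n))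
        ((∏ j, a j (Function.update z i n j)) * (jp L (Function.update z i n) : ℝ)) 0) =
      (Ap * (jp L z : ℝ)) * ∑ n ∈ Finset.Icc 1 ⌊Y⌋₊,
        if (Squarefree n ∧ Nat.Coprime n m) ∧ K < n ∧ (n : ℝ) ≤ min (Y / W) (2 * K)
        then a4_chi Q c' n else 0 := by
    rw [Finset.mul_sum]
    refine Finset.sum_congr rfl fun n hn => ?_
    have hiff : (n : ℝ) ≤ Y / W ↔ n * W ≤ Y := le_div_iff₀ hW0
    have hsq : Squarefree (2 * (n * m)) ↔ (Squarefree n ∧ Nat.Coprime n m) ∧ Odd n := by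
      have e : 2 * (n * m) = n * (2 * m) := by ring
      rw [e, Nat.squarefree_mul_iff, Nat.coprime_mul_iff_right, Nat.coprime_two_right]
      tauto
    rw [eA, hai]
    by_cases c1 : (Squarefree n ∧ Nat.Coprime n m) ∧ K < n ∧ (n : ℝ) ≤ min (Y / W) (2 * K)
    · have c1' := le_min_iff.1 c1.2.2
      rw [if_pos c1, if_pos (show K < (n : ℝ) ∧ (n : ℝ) ≤ 2 * K from ⟨c1.2.1, c1'.2⟩)]
      by_cases c2 : Odd n
      · rw [if_pos ⟨by rw [eprod]; exact hsq.2 ⟨c1.1, c2⟩, by rw [eW]; exact hiff.1 c1'.1⟩]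
        have h := hc'2 n c2
        rw [a4_jp L hL i z hzi n]
        unfold a4_chi
        rw [if_pos c2]
        have h' : psi c n * (∏ k, if L i k then jacobiSym n (z k) else 1) *
            (∏ j, if L j i then jacobiSym (z j) n else 1) = jacobiSym n Q * psi c' n := by
          rw [← h, hAd, hBd, Finset.prod_filter, Finset.prod_filter]
        rw [← h']
        push_cast
        ring
      · rw [if_neg]
        · unfold a4_chi
          rw [if_neg c2, mul_zero]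
        · rintro ⟨h, -⟩
          rw [eprod] at h
          exact c2 (hsq.1 h).2
    · rw [if_neg c1, mul_zero]
      by_cases c3 : K < n ∧ (n : ℝ) ≤ 2 * K
      · rw [if_neg]
        rintro ⟨h, h'⟩
        rw [eprod] at h
        rw [eW] at h'
        exact c1 ⟨(hsq.1 h).1, c3.1, le_min (hiff.2 h') c3.2⟩
      · rw [if_neg c3, zero_mul, zero_mul]
        exact ite_self _
  rw [e1, abs_mul, abs_mul]
  have hJ := a4_jp_abs L z
  have hAJ : |Ap| * |((jp L z : ℤ) : ℝ)| ≤ 1 := mul_le_one₀ hAp (abs_nonneg _) hJ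
  refine (mul_le_of_le_one_left (abs_nonneg _) hAJ).trans (key.trans ?_)
  have hq : Real.sqrt (8 * Q) ≤ Real.sqrt 8 * Real.sqrt (P ^ (Fintype.card ι)) := by
    rw [← Real.sqrt_mul (by norm_num)]
    exact Real.sqrt_le_sqrt (by linarith)
  have hpow : (P ^ (Fintype.card ι) / K) ^ (1 / 2 : ℝ) =
      Real.sqrt (P ^ (Fintype.card ι)) / Real.sqrt K := by
    rw [← Real.sqrt_eq_rpow, Real.sqrt_div (by positivity)]
  have htau : hm m ≤ ∏ j, hm (z j) := by
    rw [hmd]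
    exact a5_hm_prod hhm Finset.univ z fun j => hz1 j
  have hsK : 0 < Real.sqrt K := Real.sqrt_pos.2 hK0
  rw [hpow]
  obtain ⟨u, hu⟩ : ∃ u : ℝ, u = ∏ j, hm (z j) := ⟨_, rfl⟩
  obtain ⟨v, hv⟩ : ∃ v : ℝ, v = min (Y / W) (2 * K) := ⟨_, rfl⟩
  rw [← hu] at htau hpr0 ⊢
  rw [← hv] at hmin0 ⊢
  have hsP : 0 ≤ Real.sqrt (P ^ (Fintype.card ι)) := Real.sqrt_nonneg _
  calc 16 * hm m * Real.sqrt (8 * Q) * (v / Real.sqrt K)
      ≤ 16 * u * (Real.sqrt 8 * Real.sqrt (P ^ (Fintype.card ι))) * (v / Real.sqrt K) :=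
        mul_le_mul_of_nonneg_right (mul_le_mul (mul_le_mul_of_nonneg_left htau (by norm_num)) hq
          (Real.sqrt_nonneg _) (mul_nonneg (by norm_num) hpr0)) (div_nonneg hmin0 hsK.le)
    _ = 16 * Real.sqrt 8 * (Real.sqrt (P ^ (Fintype.card ι)) / Real.sqrt K) * (u * v) := by
        ring

end Pool.Agent.H98.ML
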