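import Pool.Agent.H98.ML.GWChar1
import Pool.Agent.H98.ML.RSum

/-!
# Project MK2, row A5: summation over the other variables
-/

set_option autoImplicit false

open scoped BigOperators

namespace Pool.Agent.H98.ML

open Pool.Agent.H98.MK

open Classical in
/-- the sum over the free variables with a smaller bound -/
theorem a5_rs {κ : Type} [Fintype κ] (h : ℕ → ℝ) (hh : ∀ n, 0 ≤ h n) (C : ℝ)
    (hrs : ∀ Y H : ℝ, 1 ≤ Y → 1 ≤ H →
      ∑ r ∈ Fintype.piFinset (fun _ : κ => Finset.Icc 1 ⌊Y⌋₊),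
        (if ∏ i, (r i : ℝ) ≤ Y then (∏ i, h (r i)) * min (Y / ∏ i, (r i : ℝ)) H else 0) ≤
      C * Y * (1 + Real.log Y) ^ (Fintype.card κ - 1) * (1 + Real.log H))
    (Y Y1 H : ℝ) (hY : 1 ≤ Y) (hY1 : 0 ≤ Y1) (hYY : Y1 ≤ Y) (hH : 1 ≤ H) :
    ∑ r ∈ Fintype.piFinset (fun _ : κ => Finset.Icc 1 ⌊Y⌋₊),
        (if ∏ i, (r i : ℝ) ≤ Y1 then (∏ i, h (r i)) * min (Y1 / ∏ i, (r i : ℝ)) H else 0) ≤
      |C| * Y1 * (1 + Real.log Y) ^ (Fintype.card κ - 1) * (1 + Real.log H) := by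
  have hlY : 0 ≤ Real.log Y := Real.log_nonneg hY
  have hlH : 0 ≤ Real.log H := Real.log_nonneg hH
  rcases lt_or_ge Y1 1 with h1 | h1
  · rw [Finset.sum_eq_zero]
    · positivity
    · intro r hr
      rw [Fintype.mem_piFinset] at hr
      rw [if_neg]
      intro h2
      have h3 : (1 : ℝ) ≤ ∏ i, (r i : ℝ) := Finset.one_le_prod fun j _ => by
        exact_mod_cast (Finset.mem_Icc.1 (hr j)).1
      linarith
  · have e : ∑ r ∈ Fintype.piFinset (fun _ : κ => Finset.Icc 1 ⌊Y⌋₊),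
        (if ∏ i, (r i : ℝ) ≤ Y1 then (∏ i, h (r i)) * min (Y1 / ∏ i, (r i : ℝ)) H else 0) =
        ∑ r ∈ Fintype.piFinset (fun _ : κ => Finset.Icc 1 ⌊Y1⌋₊),
        (if ∏ i, (r i : ℝ) ≤ Y1 then (∏ i, h (r i)) * min (Y1 / ∏ i, (r i : ℝ)) H else 0) := by
      symm
      refine Finset.sum_subset (Fintype.piFinset_subset _ _ fun _ =>
        Finset.Icc_subset_Icc_right (Nat.floor_le_floor hYY)) ?_
      intro r hr hr'
      rw [if_neg]
      intro h2
      apply hr'
      rw [Fintype.mem_piFinset] at hr ⊢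
      intro j
      rw [Finset.mem_Icc]
      have hj := (Finset.mem_Icc.1 (hr j)).1
      refine ⟨hj, Nat.le_floor (le_trans ?_ h2)⟩
      have h3 : (r j : ℝ) * 1 ≤ (r j : ℝ) * ∏ i ∈ Finset.univ.erase j, (r i : ℝ) := by
        refine mul_le_mul_of_nonneg_left ?_ (Nat.cast_nonneg _)
        have : ∀ s : Finset κ, (1 : ℝ) ≤ ∏ i ∈ s, (r i : ℝ) := fun s => by
          induction s using Finset.induction_on with
          | empty => simp
          | insert a s ha ih =>
            rw [Finset.prod_insert ha]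
            have h4 : (1 : ℝ) ≤ r a := by exact_mod_cast (Finset.mem_Icc.1 (hr a)).1
            exact one_le_mul_of_one_le_of_one_le h4 ih
        exact this _
      rw [mul_one, Finset.mul_prod_erase Finset.univ (fun i => (r i : ℝ)) (Finset.mem_univ j)] at h3
      exact h3
    rw [e]
    refine (hrs Y1 H h1 hH).trans ?_
    have h2 : 0 ≤ Real.log Y1 := Real.log_nonneg h1
    have h3 : Real.log Y1 ≤ Real.log Y := Real.log_le_log (by linarith) hYY
    have h4 := le_abs_self C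
    gcongr

open Classical in
/-- splitting a sum over tuples -/
theorem a5_split {ι : Type} [Fintype ι] (R : ι → Prop) (S : ι → Finset ℕ)
    (F : (ι → ℕ) → ℝ) :
    ∑ z ∈ Fintype.piFinset S, F z =
      ∑ s ∈ Fintype.piFinset (fun j : {j // ¬ R j} => S j),
        ∑ r ∈ Fintype.piFinset (fun j : {j // R j} => S j),
          F ((Equiv.piEquivPiSubtypeProd R (fun _ => ℕ)).symm (r, s)) := by
  rw [← Finset.sum_product_right']
  refine Finset.sum_equiv (Equiv.piEquivPiSubtypeProd R (fun _ => ℕ)) ?_ ?_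
  · intro z
    simp only [Fintype.mem_piFinset, Finset.mem_product, Equiv.piEquivPiSubtypeProd_apply]
    constructor
    · intro h
      exact ⟨fun j => h j, fun j => h j⟩
    · rintro ⟨h1, h2⟩ j
      by_cases hj : R j
      · exact h1 ⟨j, hj⟩
      · exact h2 ⟨j, hj⟩
  · intro z _
    congr 1
    exact ((Equiv.piEquivPiSubtypeProd R (fun _ => ℕ)).symm_apply_apply z).symm

open Classical in
theorem a5_prod {ι : Type} [Fintype ι] (R : ι → Prop) (f : ι → ℕ → ℝ)
    (r : {j // R j} → ℕ) (s : {j // ¬ R j} → ℕ) :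
    ∏ j, f j ((Equiv.piEquivPiSubtypeProd R (fun _ => ℕ)).symm (r, s) j) =
      (∏ j, f j.1 (r j)) * ∏ j, f j.1 (s j) := by
  rw [← Fintype.prod_subtype_mul_prod_subtype R]
  congr 1
  · refine Finset.prod_congr rfl fun j _ => ?_
    rw [Equiv.piEquivPiSubtypeProd_symm_apply]
    simp [j.2]
  · refine Finset.prod_congr rfl fun j _ => ?_
    rw [Equiv.piEquivPiSubtypeProd_symm_apply]
    simp [j.2]

open Classical in
theorem a5_sum {ι : Type} [Fintype ι] (w : ι → ℝ) (hw : ∀ i, 1 ≤ w i) (R : ι → Prop)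
    (hR : ∀ i, R i → w i = 1) (i : ι) (hiR : ¬ R i) (h : ℕ → ℝ) (hh : ∀ n, 0 ≤ h n)
    (hh1 : h 1 = 1) (C0 : ℝ)
    (hs : ∀ t : ℝ, 1 ≤ t → ∑ n ∈ Finset.Icc 1 ⌊t⌋₊, h n ≤ C0 * t) :
    ∃ C : ℝ, 0 ≤ C ∧ ∀ Y K D : ℝ, 1 ≤ Y → 1 ≤ K → 0 ≤ D →
      ∑ z ∈ Fintype.piFinset (fun j : ι => if j = i then ({1} : Finset ℕ) else
        Finset.Icc 1 ⌊Y⌋₊),
        (if (∀ j, ¬ R j → (z j : ℝ) ≤ 2 * K) ∧ ∏ j, (z j : ℝ) ^ w j ≤ Y then
          D * ((∏ j, h (z j)) * min (Y / ∏ j, (z j : ℝ) ^ w j) (2 * K)) else 0) ≤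
      D * (C * Y * (1 + Real.log Y) ^ (Nat.card {l // R l} - 1) *
        (1 + Real.log K) ^ (Fintype.card ι + 1)) := by
  obtain ⟨C, hC⟩ := rs_sum (κ := {j // R j}) h hh C0 hs
  have hC0 := rs_C0 hh hs
  refine ⟨|C| * 2 * ((1 + 4 * C0) * 2) ^ (Fintype.card {j // ¬ R j}), by positivity, ?_⟩
  intro Y K D hY hK hD
  have hlY : 0 ≤ Real.log Y := Real.log_nonneg hY
  have hlK : 0 ≤ Real.log K := Real.log_nonneg hK
  have hK0 : 0 < K := by linarith
  have hY0 : 0 < Y := by linarith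
  have h2K : (1 : ℝ) ≤ 2 * K := by linarith
  have hl2K : 1 + Real.log (2 * K) ≤ 2 * (1 + Real.log K) := by
    rw [Real.log_mul (by norm_num) hK0.ne']
    have := Real.log_two_lt_d9
    linarith
  have hl2K0 : 0 ≤ Real.log (2 * K) := Real.log_nonneg h2K
  rw [a5_split R]
  obtain ⟨A, hA⟩ : ∃ A : ({j // ¬ R j} → ℕ) → ℝ, A = fun s =>
    |C| * (Y / ∏ j, (s j : ℝ) ^ w j.1) * (1 + Real.log Y) ^ (Fintype.card {j // R j} - 1) *
      (1 + Real.log (2 * K)) := ⟨_, rfl⟩
  have hA0 : ∀ s, 0 ≤ A s := fun s => by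
    rw [hA]
    have : 0 ≤ ∏ j, (s j : ℝ) ^ w j.1 := Finset.prod_nonneg fun j _ => by positivity
    positivity
  have step1 : ∀ s ∈ Fintype.piFinset (fun j : {j // ¬ R j} =>
      if j.1 = i then ({1} : Finset ℕ) else Finset.Icc 1 ⌊Y⌋₊),
      ∑ r ∈ Fintype.piFinset (fun j : {j // R j} =>
        if j.1 = i then ({1} : Finset ℕ) else Finset.Icc 1 ⌊Y⌋₊),
        (if (∀ j, ¬ R j → (((Equiv.piEquivPiSubtypeProd R (fun _ => ℕ)).symm (r, s) j : ℕ) : ℝ) ≤
            2 * K) ∧ ∏ j, (((Equiv.piEquivPiSubtypeProd R (fun _ => ℕ)).symm (r, s) j : ℕ) : ℝ) ^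
              w j ≤ Y then
          D * ((∏ j, h ((Equiv.piEquivPiSubtypeProd R (fun _ => ℕ)).symm (r, s) j)) *
            min (Y / ∏ j, (((Equiv.piEquivPiSubtypeProd R (fun _ => ℕ)).symm (r, s) j : ℕ) : ℝ) ^
              w j) (2 * K)) else 0) ≤
      if ∀ j, (s j : ℝ) ≤ 2 * K then D * (∏ j, h (s j)) * A s else 0 := by
    intro s hs'
    rw [Fintype.mem_piFinset] at hs'
    have hs1 : ∀ j, 1 ≤ s j := fun j => by
      have h1 := hs' j
      by_cases hj : j.1 = i
      · rw [if_pos hj, Finset.mem_singleton] at h1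
        exact h1.symm.le
      · rw [if_neg hj, Finset.mem_Icc] at h1
        exact h1.1
    have hsr : ∀ j, (1 : ℝ) ≤ s j := fun j => by exact_mod_cast hs1 j
    obtain ⟨W, hW⟩ : ∃ W : ℝ, W = ∏ j, (s j : ℝ) ^ w j.1 := ⟨_, rfl⟩
    have hW1 : 1 ≤ W := by
      rw [hW]
      exact Finset.one_le_prod fun j _ => Real.one_le_rpow (hsr j) (by linarith [hw j.1])
    have hW0 : 0 < W := by linarith
    obtain ⟨G, hG⟩ : ∃ G : ℝ, G = ∏ j, h (s j) := ⟨_, rfl⟩
    have hG0 : 0 ≤ G := by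
      rw [hG]
      exact Finset.prod_nonneg fun j _ => hh _
    have eS : (fun j : {j // R j} => if j.1 = i then ({1} : Finset ℕ) else
        Finset.Icc 1 ⌊Y⌋₊) = fun _ => Finset.Icc 1 ⌊Y⌋₊ := by
      funext j
      rw [if_neg]
      intro hj
      exact hiR (hj ▸ j.2)
    rw [eS]
    have et : ∀ r ∈ Fintype.piFinset (fun _ : {j // R j} => Finset.Icc 1 ⌊Y⌋₊),
        (if (∀ j, ¬ R j → (((Equiv.piEquivPiSubtypeProd R (fun _ => ℕ)).symm (r, s) j : ℕ) : ℝ) ≤
            2 * K) ∧ ∏ j, (((Equiv.piEquivPiSubtypeProd R (fun _ => ℕ)).symm (r, s) j : ℕ) : ℝ) ^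
              w j ≤ Y then
          D * ((∏ j, h ((Equiv.piEquivPiSubtypeProd R (fun _ => ℕ)).symm (r, s) j)) *
            min (Y / ∏ j, (((Equiv.piEquivPiSubtypeProd R (fun _ => ℕ)).symm (r, s) j : ℕ) : ℝ) ^
              w j) (2 * K)) else 0) =
        if ∀ j, (s j : ℝ) ≤ 2 * K then (D * G) * (if ∏ j, (r j : ℝ) ≤ Y / W then
          (∏ j, h (r j)) * min (Y / W / ∏ j, (r j : ℝ)) (2 * K) else 0) else 0 := by
      intro r hr
      rw [Fintype.mem_piFinset] at hr
      have hr0 : (0 : ℝ) < ∏ j, (r j : ℝ) := Finset.prod_pos fun j _ => by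
        exact_mod_cast (Finset.mem_Icc.1 (hr j)).1
      have e1 : ∏ j, (((Equiv.piEquivPiSubtypeProd R (fun _ => ℕ)).symm (r, s) j : ℕ) : ℝ) ^
          w j = (∏ j, (r j : ℝ)) * W := by
        rw [a5_prod R (fun j x => (x : ℝ) ^ w j) r s, hW]
        congr 1
        refine Finset.prod_congr rfl fun j _ => ?_
        rw [hR _ j.2, Real.rpow_one]
      have e2 : ∏ j, h ((Equiv.piEquivPiSubtypeProd R (fun _ => ℕ)).symm (r, s) j) =
          (∏ j, h (r j)) * G := by
        rw [a5_prod R (fun _ x => h x) r s, hG]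
      have e3 : (∀ j, ¬ R j →
          (((Equiv.piEquivPiSubtypeProd R (fun _ => ℕ)).symm (r, s) j : ℕ) : ℝ) ≤ 2 * K) ↔
          ∀ j, (s j : ℝ) ≤ 2 * K := by
        constructor
        · intro h1 j
          have h2 := h1 j.1 j.2
          rw [Equiv.piEquivPiSubtypeProd_symm_apply] at h2
          simpa [j.2] using h2
        · intro h1 j hj
          have h2 := h1 ⟨j, hj⟩
          rw [Equiv.piEquivPiSubtypeProd_symm_apply]
          simpa [hj] using h2
      have e4 : (∏ j, (r j : ℝ)) * W ≤ Y ↔ ∏ j, (r j : ℝ) ≤ Y / W := (le_div_iff₀ hW0).symm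
      have e5 : Y / ((∏ j, (r j : ℝ)) * W) = Y / W / ∏ j, (r j : ℝ) := by
        rw [div_div, mul_comm]
      rw [e1, e2, e5]
      by_cases c1 : ∀ j, (s j : ℝ) ≤ 2 * K
      · by_cases c2 : ∏ j, (r j : ℝ) ≤ Y / W
        · rw [if_pos ⟨e3.2 c1, e4.2 c2⟩, if_pos c1, if_pos c2]
          ring
        · rw [if_neg (fun h1 => c2 (e4.1 h1.2)), if_pos c1, if_neg c2, mul_zero]
      · rw [if_neg (fun h1 => c1 (e3.1 h1.1)), if_neg c1]
    rw [Finset.sum_congr rfl et]
    by_cases c1 : ∀ j, (s j : ℝ) ≤ 2 * K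
    · rw [if_pos c1]
      simp only [if_pos c1]
      rw [← Finset.mul_sum, ← hG]
      refine mul_le_mul_of_nonneg_left ?_ (mul_nonneg hD hG0)
      rw [hA]
      simp only
      rw [← hW]
      refine (le_of_eq (Finset.sum_congr ?_ fun _ _ => rfl)).trans
        (a5_rs h hh C hC Y (Y / W) (2 * K) hY (by positivity) (div_le_self hY0.le hW1) h2K)
      ext r
      simp only [Fintype.mem_piFinset]
    · rw [if_neg c1]
      simp only [if_neg c1]
      rw [Finset.sum_const_zero]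
  refine (Finset.sum_le_sum step1).trans ?_
  have step2 : ∑ s ∈ Fintype.piFinset (fun j : {j // ¬ R j} =>
      if j.1 = i then ({1} : Finset ℕ) else Finset.Icc 1 ⌊Y⌋₊),
      (if ∀ j, (s j : ℝ) ≤ 2 * K then D * (∏ j, h (s j)) * A s else 0) ≤
      ∑ s ∈ Fintype.piFinset (fun j : {j // ¬ R j} =>
      if j.1 = i then ({1} : Finset ℕ) else Finset.Icc 1 ⌊2 * K⌋₊),
      D * (|C| * Y * (1 + Real.log Y) ^ (Fintype.card {j // R j} - 1) *
      (1 + Real.log (2 * K))) * ∏ j, h (s j) / (s j) := by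
    rw [← Finset.sum_filter]
    have hsub : (Fintype.piFinset (fun j : {j // ¬ R j} =>
        if j.1 = i then ({1} : Finset ℕ) else Finset.Icc 1 ⌊Y⌋₊)).filter
        (fun s => ∀ j, (s j : ℝ) ≤ 2 * K) ⊆ Fintype.piFinset (fun j : {j // ¬ R j} =>
        if j.1 = i then ({1} : Finset ℕ) else Finset.Icc 1 ⌊2 * K⌋₊) := by
      intro s hs'
      rw [Finset.mem_filter, Fintype.mem_piFinset] at hs'
      rw [Fintype.mem_piFinset]
      intro j
      have h1 := hs'.1 j
      by_cases hj : j.1 = i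
      · rw [if_pos hj] at h1 ⊢
        exact h1
      · rw [if_neg hj, Finset.mem_Icc] at h1 ⊢
        exact ⟨h1.1, Nat.le_floor (hs'.2 j)⟩
    refine (Finset.sum_le_sum (f := fun s => D * (∏ j, h (s j)) * A s) (g := fun s =>
      D * (|C| * Y * (1 + Real.log Y) ^ (Fintype.card {j // R j} - 1) *
      (1 + Real.log (2 * K))) * ∏ j, h (s j) / (s j)) fun s hs' => ?_).trans
      (Finset.sum_le_sum_of_subset_of_nonneg hsub fun s _ _ => ?_)
    · have hs2 := hsub hs'
      rw [Fintype.mem_piFinset] at hs2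
      have hs1 : ∀ j, 1 ≤ s j := fun j => by
        have h1 := hs2 j
        by_cases hj : j.1 = i
        · rw [if_pos hj, Finset.mem_singleton] at h1
          exact h1.symm.le
        · rw [if_neg hj, Finset.mem_Icc] at h1
          exact h1.1
      have hsr : ∀ j, (1 : ℝ) ≤ s j := fun j => by exact_mod_cast hs1 j
      have hp0 : (0 : ℝ) < ∏ j, (s j : ℝ) := Finset.prod_pos fun j _ => by
        linarith [hsr j]
      have hpW : ∏ j, (s j : ℝ) ≤ ∏ j, (s j : ℝ) ^ w j.1 := by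
        refine Finset.prod_le_prod (fun j _ => by positivity) fun j _ => ?_
        calc (s j : ℝ) = (s j : ℝ) ^ (1 : ℝ) := (Real.rpow_one _).symm
          _ ≤ _ := Real.rpow_le_rpow_of_exponent_le (hsr j) (hw j.1)
      have hG0 : 0 ≤ ∏ j, h (s j) := Finset.prod_nonneg fun j _ => hh _
      have h1 : Y / ∏ j, (s j : ℝ) ^ w j.1 ≤ Y / ∏ j, (s j : ℝ) :=
        div_le_div_of_nonneg_left hY0.le hp0 hpW
      rw [hA]
      simp only
      rw [Finset.prod_div_distrib]
      calc D * (∏ j, h (s j)) * (|C| * (Y / ∏ j, (s j : ℝ) ^ w j.1) *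
            (1 + Real.log Y) ^ (Fintype.card {j // R j} - 1) * (1 + Real.log (2 * K)))
          ≤ D * (∏ j, h (s j)) * (|C| * (Y / ∏ j, (s j : ℝ)) *
            (1 + Real.log Y) ^ (Fintype.card {j // R j} - 1) * (1 + Real.log (2 * K))) := by
            gcongr
        _ = _ := by ring
    · have : 0 ≤ ∏ j, h (s j) / (s j : ℝ) := Finset.prod_nonneg fun j _ =>
        div_nonneg (hh _) (Nat.cast_nonneg _)
      positivity
  refine step2.trans ?_
  rw [← Finset.mul_sum]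
  have h2 := Finset.prod_univ_sum (fun j : {j // ¬ R j} =>
    if j.1 = i then ({1} : Finset ℕ) else Finset.Icc 1 ⌊2 * K⌋₊)
    (fun _ n => h n / (n : ℝ))
  rw [← h2]
  have hB1 : 1 ≤ (1 + 4 * C0) * 2 * (1 + Real.log K) := by
    have h3 : 1 ≤ (1 + 4 * C0) * 2 := by linarith
    have h4 : 1 ≤ 1 + Real.log K := by linarith
    exact one_le_mul_of_one_le_of_one_le h3 h4
  have h3 : ∏ j : {j // ¬ R j}, ∑ n ∈ (if j.1 = i then ({1} : Finset ℕ) else
      Finset.Icc 1 ⌊2 * K⌋₊), h n / (n : ℝ) ≤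
      ((1 + 4 * C0) * 2 * (1 + Real.log K)) ^ (Fintype.card {j // ¬ R j}) := by
    calc _ ≤ ∏ _j : {j // ¬ R j}, ((1 + 4 * C0) * 2 * (1 + Real.log K)) := by
          refine Finset.prod_le_prod (fun j _ => Finset.sum_nonneg fun n _ =>
            div_nonneg (hh _) (Nat.cast_nonneg _)) fun j _ => ?_
          by_cases hj : j.1 = i
          · rw [if_pos hj, Finset.sum_singleton, hh1]
            simpa using hB1
          · rw [if_neg hj]
            refine (rs_S hh hs h2K).trans ?_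
            have h4 : 0 ≤ 1 + Real.log (2 * K) := by linarith
            calc 4 * C0 * (1 + Real.log (2 * K)) ≤ (1 + 4 * C0) * (2 * (1 + Real.log K)) := by
                  refine mul_le_mul (by linarith) hl2K h4 (by linarith)
              _ = _ := by ring
      _ = _ := by rw [Finset.prod_const, Finset.card_univ]
  have h4 : Fintype.card {j // ¬ R j} ≤ Fintype.card ι := Fintype.card_subtype_le _
  have h5 : (1 + Real.log K) * (1 + Real.log K) ^ (Fintype.card {j // ¬ R j}) ≤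
      (1 + Real.log K) ^ (Fintype.card ι + 1) := by
    rw [← pow_succ']
    exact pow_le_pow_right₀ (by linarith) (by omega)
  rw [Nat.card_eq_fintype_card]
  obtain ⟨E, hE⟩ : ∃ E : ℝ, E = (1 + Real.log Y) ^ (Fintype.card {j // R j} - 1) := ⟨_, rfl⟩
  have hE0 : 0 ≤ E := by rw [hE]; positivity
  rw [← hE]
  calc D * (|C| * Y * E * (1 + Real.log (2 * K))) * _
      ≤ D * (|C| * Y * E * (2 * (1 + Real.log K))) *
        ((1 + 4 * C0) * 2 * (1 + Real.log K)) ^ (Fintype.card {j // ¬ R j}) := by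
        refine mul_le_mul ?_ h3 ?_ ?_
        · gcongr
        · exact Finset.prod_nonneg fun j _ => Finset.sum_nonneg fun n _ =>
            div_nonneg (hh _) (Nat.cast_nonneg _)
        · positivity
    _ = D * (|C| * 2 * ((1 + 4 * C0) * 2) ^ (Fintype.card {j // ¬ R j}) * Y * E) *
        ((1 + Real.log K) * (1 + Real.log K) ^ (Fintype.card {j // ¬ R j})) := by
        rw [mul_pow ((1 + 4 * C0) * 2)]
        ring
    _ ≤ D * (|C| * 2 * ((1 + 4 * C0) * 2) ^ (Fintype.card {j // ¬ R j}) * Y * E) *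
        (1 + Real.log K) ^ (Fintype.card ι + 1) := by
        refine mul_le_mul_of_nonneg_left h5 (by positivity)
    _ = _ := by ring

end Pool.Agent.H98.ML
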