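import Pool.Agent.H98.ML.GDefs
import Pool.Agent.H98.MK.GSPair2

/-!
# Project MK2, row A3: a linked pair of large variables, the inner sums
-/

set_option autoImplicit false

open scoped BigOperators

namespace Pool.Agent.H98.ML

open Pool.Agent.H98.MK

section

variable {ι : Type} [Fintype ι] [DecidableEq ι]

open Classical in
theorem gwp_term (w : ι → ℝ) (L : ι → ι → Prop) {i j : ι} (hij : i ≠ j) (h1 : ¬ L i i)
    (h2 : ¬ L j j) (h3 : ¬ L j i) (h4 : L i j) (hi : w i = 1) (hj : w j = 1) (a : ι → ℕ → ℝ)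
    (Y : ℝ) (z : ι → ℕ) (hz : ∀ l, 1 ≤ z l) (m n : ℕ) (hn : 1 ≤ n) :
    (if Squarefree (2 * ∏ l, gpU i j z m n l) ∧ ∏ l, (gpU i j z m n l : ℝ) ^ w l ≤ Y
      then (∏ l, a l (gpU i j z m n l)) * (jp L (gpU i j z m n) : ℝ) else 0) =
    if Squarefree (2 * ∏ l ∈ gpS i j, z l) then
      ((∏ l ∈ gpS i j, a l (z l)) * (gpK L i j z : ℝ)) *
      (if (m * n : ℝ) ≤ Y / ∏ l ∈ gpS i j, (z l : ℝ) ^ w l then
        (a i m * (gpA L i j z m : ℝ) * gpI (∏ l ∈ gpS i j, z l) m) *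
        (a j n * (gpB L i j z n : ℝ) * gpI (∏ l ∈ gpS i j, z l) n) * (jacobiSym m n : ℝ) else 0)
      else 0 := by
  have hw : 0 < ∏ l ∈ gpS i j, (z l : ℝ) ^ w l :=
    Finset.prod_pos fun l _ => Real.rpow_pos_of_pos (by exact_mod_cast hz l) _
  have e1 : ∏ l, gpU i j z m n l = m * n * ∏ l ∈ gpS i j, z l := by
    rw [gp_split hij, gpU_i hij, gpU_j]
    congr 1
    exact Finset.prod_congr rfl fun l hl => gpU_of hl _ _ _
  have e2 : ∏ l, (gpU i j z m n l : ℝ) ^ w l =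
      m * n * ∏ l ∈ gpS i j, (z l : ℝ) ^ w l := by
    rw [gp_split hij, gpU_i hij, gpU_j, hi, hj, Real.rpow_one, Real.rpow_one]
    congr 1
    exact Finset.prod_congr rfl fun l hl => by rw [gpU_of hl]
  have e3 : ∏ l, a l (gpU i j z m n l) = a i m * a j n * ∏ l ∈ gpS i j, a l (z l) := by
    rw [gp_split hij, gpU_i hij, gpU_j]
    congr 1
    exact Finset.prod_congr rfl fun l hl => by rw [gpU_of hl]
  rw [e1, e2, e3, gp_jp_upd L hij h1 h2 h3 h4]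
  have hiff : (Squarefree (2 * (m * n * ∏ l ∈ gpS i j, z l)) ∧
      m * n * ∏ l ∈ gpS i j, (z l : ℝ) ^ w l ≤ Y) ↔
      (Squarefree (2 * ∏ l ∈ gpS i j, z l) ∧ (Squarefree m ∧ m.Coprime (2 * ∏ l ∈ gpS i j, z l)) ∧
        (Squarefree n ∧ n.Coprime (2 * ∏ l ∈ gpS i j, z l)) ∧ m.Coprime n) ∧
      (m * n : ℝ) ≤ Y / ∏ l ∈ gpS i j, (z l : ℝ) ^ w l := by
    rw [gp_sqf, le_div_iff₀ hw]
  unfold gpI
  by_cases c1 : Squarefree (2 * ∏ l ∈ gpS i j, z l)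
  swap
  · rw [if_neg (fun h => c1 (hiff.1 h).1.1), if_neg c1]
  rw [if_pos c1]
  by_cases c2 : (m * n : ℝ) ≤ Y / ∏ l ∈ gpS i j, (z l : ℝ) ^ w l
  swap
  · rw [if_neg (fun h => c2 (hiff.1 h).2), if_neg c2, mul_zero]
  rw [if_pos c2]
  by_cases c3 : Squarefree m ∧ m.Coprime (2 * ∏ l ∈ gpS i j, z l)
  swap
  · rw [if_neg (fun h => c3 (hiff.1 h).1.2.1), if_neg c3]
    ring
  by_cases c4 : Squarefree n ∧ n.Coprime (2 * ∏ l ∈ gpS i j, z l)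
  swap
  · rw [if_neg (fun h => c4 (hiff.1 h).1.2.2.1), if_neg c4]
    ring
  rw [if_pos c3, if_pos c4]
  by_cases c5 : m.Coprime n
  swap
  · rw [if_neg (fun h => c5 (hiff.1 h).1.2.2.2)]
    have : NeZero n := ⟨by omega⟩
    have h0 : jacobiSym m n = 0 := by
      rw [jacobiSym.eq_zero_iff_not_coprime]
      intro h
      exact c5 h
    rw [h0]
    push_cast
    ring
  rw [if_pos (hiff.2 ⟨⟨c1, c3, c4, c5⟩, c2⟩)]
  push_cast
  ring

open Classical in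
/-- the bilinear sum with both variables at most `M` -/
theorem gwp_bil {C : ℝ} (hC : 0 ≤ C) (hb : GPBil C) (P M Y W : ℝ) (hP : 1 ≤ P) (hM : 1 ≤ M)
    (hY : 1 ≤ Y) (hW : 1 ≤ W) (hWY : W ≤ Y) (A B : ℕ → ℝ) (hAabs : ∀ m, |A m| ≤ 1)
    (hBabs : ∀ m, |B m| ≤ 1) (hAne : ∀ n, A n ≠ 0 → P < n ∧ Odd n ∧ Squarefree n)
    (hBne : ∀ n, B n ≠ 0 → P < n ∧ Odd n ∧ Squarefree n)
    (hAM : ∀ n, A n ≠ 0 → (n : ℝ) ≤ M) (hBM : ∀ n, B n ≠ 0 → (n : ℝ) ≤ M) :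
    |∑ m ∈ Finset.Icc 1 ⌊Y⌋₊, ∑ n ∈ Finset.Icc 1 ⌊Y⌋₊,
      (if (m * n : ℝ) ≤ Y / W then A m * B n * (jacobiSym m n : ℝ) else 0)| ≤
      4 * C * P ^ (-(1 / 12) : ℝ) * (1 + Real.log M) ^ 2 * min (Y / W) (M ^ 2) := by
  have hWpos : 0 < W := by linarith
  have hYW : 1 ≤ Y / W := by rwa [le_div_iff₀ hWpos, one_mul]
  have hYWY : Y / W ≤ Y := div_le_self (by linarith) hW
  have hM2 : (1 : ℝ) ≤ M ^ 2 := one_le_pow₀ hM
  set x : ℝ := min (Y / W) (M ^ 2) with hx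
  have hx1 : 1 ≤ x := le_min hYW hM2
  have hxY : x ≤ Y := (min_le_left _ _).trans hYWY
  set f : ℕ → ℕ → ℝ := fun m n =>
    if (m * n : ℝ) ≤ x then A m * B n * (jacobiSym m n : ℝ) else 0 with hf
  have hterm : ∀ m n : ℕ, (if (m * n : ℝ) ≤ Y / W then A m * B n * (jacobiSym m n : ℝ) else 0) =
      f m n := by
    intro m n
    rw [hf]
    show _ = (if (m * n : ℝ) ≤ x then A m * B n * (jacobiSym m n : ℝ) else 0)
    by_cases hA0 : A m = 0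
    · rw [hA0]
      simp
    by_cases hB0 : B n = 0
    · rw [hB0]
      simp
    have h1 := hAM m hA0
    have h2 := hBM n hB0
    have h3 : (m * n : ℝ) ≤ M ^ 2 := by
      have h4 : (0 : ℝ) ≤ m := Nat.cast_nonneg m
      have h5 : (0 : ℝ) ≤ n := Nat.cast_nonneg n
      nlinarith
    by_cases h6 : (m * n : ℝ) ≤ Y / W
    · rw [if_pos h6, if_pos (le_min h6 h3)]
    · rw [if_neg h6, if_neg (fun h => h6 (h.trans (min_le_left _ _)))]
  simp only [hterm]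
  have hvan : ∀ m n : ℕ, 1 ≤ m → 1 ≤ n → (x < m ∨ x < n) → f m n = 0 := by
    intro m n hm hn h
    have hm' : (1 : ℝ) ≤ m := by exact_mod_cast hm
    have hn' : (1 : ℝ) ≤ n := by exact_mod_cast hn
    refine if_neg (not_le.2 ?_)
    rcases h with h | h
    · nlinarith
    · nlinarith
  have hsub : Finset.Icc 1 ⌊x⌋₊ ⊆ Finset.Icc 1 ⌊Y⌋₊ :=
    Finset.Icc_subset_Icc_right (Nat.floor_le_floor hxY)
  have hnot : ∀ m : ℕ, m ∈ Finset.Icc 1 ⌊Y⌋₊ → m ∉ Finset.Icc 1 ⌊x⌋₊ → x < m := by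
    intro m hm hm'
    have h5 := (Finset.mem_Icc.1 hm).1
    have h6 : ⌊x⌋₊ < m := by
      by_contra hcon
      exact hm' (Finset.mem_Icc.2 ⟨h5, not_lt.1 hcon⟩)
    exact (Nat.floor_lt' (by omega)).1 h6
  have e1 : ∑ m ∈ Finset.Icc 1 ⌊Y⌋₊, ∑ n ∈ Finset.Icc 1 ⌊Y⌋₊, f m n =
      ∑ m ∈ Finset.Icc 1 ⌊x⌋₊, ∑ n ∈ Finset.Icc 1 ⌊x⌋₊, f m n := by
    rw [← Finset.sum_subset hsub]
    · refine Finset.sum_congr rfl fun m hm => ?_
      rw [← Finset.sum_subset hsub]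
      intro n hn hn'
      exact hvan m n (Finset.mem_Icc.1 hm).1 (Finset.mem_Icc.1 hn).1 (Or.inr (hnot n hn hn'))
    · intro m hm hm'
      refine Finset.sum_eq_zero fun n hn => ?_
      exact hvan m n (Finset.mem_Icc.1 hm).1 (Finset.mem_Icc.1 hn).1 (Or.inl (hnot m hm hm'))
  rw [e1]
  refine (hb P x A B hP hx1 hAabs hBabs hAne hBne).trans ?_
  have hlogM : 0 ≤ Real.log M := Real.log_nonneg hM
  have hlog1 : 0 ≤ Real.log x := Real.log_nonneg hx1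
  have hlog2 : Real.log x ≤ 2 * Real.log M := by
    have h7 : Real.log x ≤ Real.log (M ^ 2) := Real.log_le_log (by linarith) (min_le_right _ _)
    rwa [Real.log_pow] at h7
  have h8 : (1 + Real.log x) ^ 2 ≤ (2 * (1 + Real.log M)) ^ 2 :=
    pow_le_pow_left₀ (by linarith) (by linarith) 2
  have hPp : 0 < P ^ (-(1 / 12) : ℝ) := Real.rpow_pos_of_pos (by linarith) _
  calc C * x * P ^ (-(1 / 12) : ℝ) * (1 + Real.log x) ^ 2
      ≤ C * x * P ^ (-(1 / 12) : ℝ) * (2 * (1 + Real.log M)) ^ 2 := by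
        refine mul_le_mul_of_nonneg_left h8 ?_
        positivity
    _ = 4 * C * P ^ (-(1 / 12) : ℝ) * (1 + Real.log M) ^ 2 * x := by ring

open Classical in
theorem gwp_inner (w : ι → ℝ) (hw : ∀ l, 1 ≤ w l) (L : ι → ι → Prop) (R : ι → Prop) {i j : ι}
    (hij : i ≠ j) (h1 : ¬ L i i) (h2 : ¬ L j j) (h3 : ¬ L j i) (h4 : L i j) (hi : w i = 1)
    (hj : w j = 1) (hRi : ¬ R i) (hRj : ¬ R j) {C : ℝ} (hC : 0 ≤ C) (hb : GPBil C)
    (a : ι → ℕ → ℝ) (P M Y : ℝ) (ha : ∀ l n, |a l n| ≤ 1) (hP : 1 ≤ P) (hM : 1 ≤ M) (hY : 1 ≤ Y)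
    (haM : ∀ l, ¬ R l → ∀ n, a l n ≠ 0 → (n : ℝ) ≤ M)
    (hPi : ∀ n, a i n ≠ 0 → P < n) (hPj : ∀ n, a j n ≠ 0 → P < n) (z : ι → ℕ)
    (hz : ∀ l, 1 ≤ z l) (hzi : z i = 1) (hzj : z j = 1) :
    |∑ m ∈ Finset.Icc 1 ⌊Y⌋₊, ∑ n ∈ Finset.Icc 1 ⌊Y⌋₊,
      (if Squarefree (2 * ∏ l, gpU i j z m n l) ∧ ∏ l, (gpU i j z m n l : ℝ) ^ w l ≤ Y
        then (∏ l, a l (gpU i j z m n l)) * (jp L (gpU i j z m n) : ℝ) else 0)| ≤
      4 * C * P ^ (-(1 / 12) : ℝ) * (1 + Real.log M) ^ 2 *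
        (if (∀ l, ¬ R l → (z l : ℝ) ≤ M) ∧ ∏ l, (z l : ℝ) ^ w l ≤ Y then
          min (Y / ∏ l, (z l : ℝ) ^ w l) (M ^ 2) else 0) := by
  have hlogM : 0 ≤ Real.log M := Real.log_nonneg hM
  have hPp : 0 < P ^ (-(1 / 12) : ℝ) := Real.rpow_pos_of_pos (by linarith) _
  have hW : ∏ l, (z l : ℝ) ^ w l = ∏ l ∈ gpS i j, (z l : ℝ) ^ w l := by
    rw [gp_split hij, hzi, hzj]
    simp
  have hz1 : ∀ l, (1 : ℝ) ≤ z l := fun l => by exact_mod_cast hz l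
  have hw1 : (1 : ℝ) ≤ ∏ l ∈ gpS i j, (z l : ℝ) ^ w l := by
    calc (1 : ℝ) = ∏ l ∈ gpS i j, (1 : ℝ) := by rw [Finset.prod_const_one]
      _ ≤ ∏ l ∈ gpS i j, (z l : ℝ) ^ w l :=
        Finset.prod_le_prod (fun _ _ => zero_le_one) fun l _ =>
          Real.one_le_rpow (hz1 l) (by linarith [hw l])
  rw [hW]
  have hmin0 : 0 ≤ (if (∀ l, ¬ R l → (z l : ℝ) ≤ M) ∧ ∏ l ∈ gpS i j, (z l : ℝ) ^ w l ≤ Y then
          min (Y / ∏ l ∈ gpS i j, (z l : ℝ) ^ w l) (M ^ 2) else 0) := by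
    split_ifs
    · exact le_min (by positivity) (by positivity)
    · exact le_rfl
  have hrhs : 0 ≤ 4 * C * P ^ (-(1 / 12) : ℝ) * (1 + Real.log M) ^ 2 *
        (if (∀ l, ¬ R l → (z l : ℝ) ≤ M) ∧ ∏ l ∈ gpS i j, (z l : ℝ) ^ w l ≤ Y then
          min (Y / ∏ l ∈ gpS i j, (z l : ℝ) ^ w l) (M ^ 2) else 0) := by
    have : 0 ≤ 4 * C * P ^ (-(1 / 12) : ℝ) * (1 + Real.log M) ^ 2 := by positivity
    exact mul_nonneg this hmin0
  -- the sum in the factored form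
  by_cases c1 : Squarefree (2 * ∏ l ∈ gpS i j, z l)
  swap
  · rw [Finset.sum_eq_zero]
    · rw [abs_zero]
      exact hrhs
    · intro m _
      refine Finset.sum_eq_zero fun n hn => ?_
      rw [gwp_term w L hij h1 h2 h3 h4 hi hj a Y z hz m n (Finset.mem_Icc.1 hn).1, if_neg c1]
  set K : ℝ := (∏ l ∈ gpS i j, a l (z l)) * (gpK L i j z : ℝ) with hK
  set A : ℕ → ℝ := fun m => a i m * (gpA L i j z m : ℝ) * gpI (∏ l ∈ gpS i j, z l) m with hA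
  set B : ℕ → ℝ := fun n => a j n * (gpB L i j z n : ℝ) * gpI (∏ l ∈ gpS i j, z l) n with hB
  set W : ℝ := ∏ l ∈ gpS i j, (z l : ℝ) ^ w l with hWdef
  have hsum : ∑ m ∈ Finset.Icc 1 ⌊Y⌋₊, ∑ n ∈ Finset.Icc 1 ⌊Y⌋₊,
      (if Squarefree (2 * ∏ l, gpU i j z m n l) ∧ ∏ l, (gpU i j z m n l : ℝ) ^ w l ≤ Y
        then (∏ l, a l (gpU i j z m n l)) * (jp L (gpU i j z m n) : ℝ) else 0) =
      K * ∑ m ∈ Finset.Icc 1 ⌊Y⌋₊, ∑ n ∈ Finset.Icc 1 ⌊Y⌋₊,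
        (if (m * n : ℝ) ≤ Y / W then A m * B n * (jacobiSym m n : ℝ) else 0) := by
    rw [Finset.mul_sum]
    refine Finset.sum_congr rfl fun m _ => ?_
    rw [Finset.mul_sum]
    refine Finset.sum_congr rfl fun n hn => ?_
    rw [gwp_term w L hij h1 h2 h3 h4 hi hj a Y z hz m n (Finset.mem_Icc.1 hn).1, if_pos c1]
  rw [hsum, abs_mul]
  by_cases c0 : ∀ l, ¬ R l → (z l : ℝ) ≤ M
  swap
  · push Not at c0
    obtain ⟨l, hl1, hl2⟩ := c0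
    have hlS : l ∈ gpS i j := by
      unfold gpS
      rw [Finset.mem_sdiff, Finset.mem_insert, Finset.mem_singleton, not_or]
      refine ⟨Finset.mem_univ _, ?_, ?_⟩
      · rintro rfl
        rw [hzi] at hl2
        push_cast at hl2
        linarith
      · rintro rfl
        rw [hzj] at hl2
        push_cast at hl2
        linarith
    have h5 : a l (z l) = 0 := by
      by_contra h6
      linarith [haM l hl1 (z l) h6]
    have h6 : K = 0 := by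
      rw [hK, Finset.prod_eq_zero hlS h5, zero_mul]
    rw [h6, abs_zero, zero_mul]
    exact hrhs
  by_cases c2 : W ≤ Y
  swap
  · rw [Finset.sum_eq_zero, abs_zero, mul_zero]
    · exact hrhs
    · intro m hm
      refine Finset.sum_eq_zero fun n hn => ?_
      have h5 : (1 : ℝ) ≤ m := by exact_mod_cast (Finset.mem_Icc.1 hm).1
      have h6 : (1 : ℝ) ≤ n := by exact_mod_cast (Finset.mem_Icc.1 hn).1
      refine if_neg (not_le.2 ?_)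
      have h7 : Y / W < 1 := by
        rw [div_lt_one (by linarith)]
        exact not_le.1 c2
      nlinarith
  rw [if_pos ⟨c0, c2⟩]
  have hKabs : |K| ≤ 1 := by
    refine gp_mul_absR (gp_prod_absR _ _ fun l => ha l _) ?_
    rw [← Int.cast_abs]
    exact_mod_cast gpK_abs L i j z
  have hAabs : ∀ m, |A m| ≤ 1 := fun m => by
    refine gp_mul_absR (gp_mul_absR (ha i m) ?_) (gpI_abs _ _)
    rw [← Int.cast_abs]
    exact_mod_cast gpA_abs L i j z m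
  have hBabs : ∀ m, |B m| ≤ 1 := fun m => by
    refine gp_mul_absR (gp_mul_absR (ha j m) ?_) (gpI_abs _ _)
    rw [← Int.cast_abs]
    exact_mod_cast gpB_abs L i j z m
  have hA0 : ∀ n, A n ≠ 0 → a i n ≠ 0 := fun n hn =>
    left_ne_zero_of_mul (left_ne_zero_of_mul hn)
  have hB0 : ∀ n, B n ≠ 0 → a j n ≠ 0 := fun n hn =>
    left_ne_zero_of_mul (left_ne_zero_of_mul hn)
  have hmain := gwp_bil hC hb P M Y W hP hM hY hw1 c2 A B hAabs hBabs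
    (fun n hn => ⟨hPi n (hA0 n hn), gpI_ne (right_ne_zero_of_mul hn)⟩)
    (fun n hn => ⟨hPj n (hB0 n hn), gpI_ne (right_ne_zero_of_mul hn)⟩)
    (fun n hn => haM i hRi n (hA0 n hn)) (fun n hn => haM j hRj n (hB0 n hn))
  calc |K| * |∑ m ∈ Finset.Icc 1 ⌊Y⌋₊, ∑ n ∈ Finset.Icc 1 ⌊Y⌋₊,
        (if (m * n : ℝ) ≤ Y / W then A m * B n * (jacobiSym m n : ℝ) else 0)|
      ≤ 1 * (4 * C * P ^ (-(1 / 12) : ℝ) * (1 + Real.log M) ^ 2 * min (Y / W) (M ^ 2)) :=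
        mul_le_mul hKabs hmain (abs_nonneg _) zero_le_one
    _ = _ := one_mul _

end

end Pool.Agent.H98.ML
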