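import Pool.Agent.H98.ML.GDefs

/-!
# Project MK2, row A2: auxiliary facts on sums over squarefree integers
-/

set_option autoImplicit false

namespace Pool.Agent.H98.ML

open Finset ArithmeticFunction ArithmeticFunction.Moebius

theorem hm_cs_mult_sum (f : ℕ → ℝ) (e M : ℕ) (he : 0 < e) :
    ∑ n ∈ Finset.Icc 1 M, (if e ∣ n then f n else 0) = ∑ j ∈ Finset.Icc 1 (M / e), f (e * j) := by
  rw [← Finset.sum_filter]
  symm
  refine Finset.sum_bij (fun j _ => e * j) ?_ ?_ ?_ ?_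
  · intro j hj
    rw [Finset.mem_Icc] at hj
    rw [Finset.mem_filter, Finset.mem_Icc]
    refine ⟨⟨Nat.mul_pos he hj.1, ?_⟩, Dvd.intro _ rfl⟩
    calc e * j ≤ e * (M / e) := Nat.mul_le_mul_left _ hj.2
      _ ≤ M := Nat.mul_div_le M e
  · intro a _ b _ h
    exact Nat.eq_of_mul_eq_mul_left he h
  · intro n hn
    rw [Finset.mem_filter, Finset.mem_Icc] at hn
    obtain ⟨⟨h1, h2⟩, j, rfl⟩ := hn
    refine ⟨j, ?_, rfl⟩
    rw [Finset.mem_Icc]
    refine ⟨Nat.pos_of_mul_pos_left h1, ?_⟩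
    rw [Nat.le_div_iff_mul_le he, mul_comm]
    exact h2
  · intro j _
    rfl

theorem hm_cs_sum_mu (k : ℕ) : ∑ i ∈ Nat.divisors k, ((μ i : ℤ) : ℝ) = if k = 1 then 1 else 0 := by
  have h1 : ∑ i ∈ Nat.divisors k, (μ i : ℤ) = if k = 1 then 1 else 0 := by
    rw [← coe_mul_zeta_apply, moebius_mul_coe_zeta, one_apply]
  have h2 := congrArg (fun z : ℤ => (z : ℝ)) h1
  simp only [Int.cast_sum, Int.cast_ite, Int.cast_one, Int.cast_zero] at h2
  exact h2

theorem hm_cs_abs_mu (k : ℕ) : |((μ k : ℤ) : ℝ)| ≤ 1 := by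
  have h := abs_moebius_le_one (n := k)
  have h2 : ((|μ k| : ℤ) : ℝ) ≤ ((1 : ℤ) : ℝ) := Int.cast_le.2 h
  rwa [Int.cast_abs, Int.cast_one] at h2

theorem hm_cs_coprime (n m : ℕ) (hn : 0 < n) (hm : 0 < m) :
    ∑ e ∈ Nat.divisors m, (if e ∣ n then ((μ e : ℤ) : ℝ) else 0) =
      if Nat.Coprime n m then 1 else 0 := by
  rw [← Finset.sum_filter]
  have h : (Nat.divisors m).filter (fun e => e ∣ n) = Nat.divisors (Nat.gcd n m) := by
    ext e
    rw [Finset.mem_filter, Nat.mem_divisors, Nat.mem_divisors, Nat.dvd_gcd_iff]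
    constructor
    · rintro ⟨⟨h1, -⟩, h2⟩
      exact ⟨⟨h2, h1⟩, (Nat.gcd_pos_of_pos_left _ hn).ne'⟩
    · rintro ⟨⟨h1, h2⟩, -⟩
      exact ⟨⟨h2, hm.ne'⟩, h1⟩
  rw [h, hm_cs_sum_mu]

theorem hm_cs_dvd {a b d : ℕ} (ha : Squarefree a) (hb : 0 < b) (h : d ^ 2 ∣ b ^ 2 * a) :
    d ∣ b := by
  have ha0 : a ≠ 0 := ha.ne_zero
  have hd : d ≠ 0 := by
    rintro rfl
    rw [zero_pow two_ne_zero, zero_dvd_iff] at h
    exact (Nat.mul_ne_zero (pow_ne_zero _ hb.ne') ha0) h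
  rw [← Nat.factorization_le_iff_dvd hd hb.ne']
  intro p
  have h1 := (Nat.factorization_le_iff_dvd (pow_ne_zero 2 hd)
    (Nat.mul_ne_zero (pow_ne_zero _ hb.ne') ha0)).2 h p
  rw [Nat.factorization_mul (pow_ne_zero _ hb.ne') ha0, Nat.factorization_pow,
    Nat.factorization_pow, Finsupp.add_apply, Finsupp.smul_apply, Finsupp.smul_apply,
    smul_eq_mul, smul_eq_mul] at h1
  have h2 : a.factorization p ≤ 1 := ha.natFactorization_le_one p
  omega

theorem hm_cs_sqf (n N : ℕ) (hn : 0 < n) (hN : n ≤ N) :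
    ∑ d ∈ Finset.Icc 1 N, (if d ^ 2 ∣ n then ((μ d : ℤ) : ℝ) else 0) =
      if Squarefree n then 1 else 0 := by
  obtain ⟨a, b, hab, ha⟩ := Nat.sq_mul_squarefree n
  have hb : 0 < b := by
    rcases Nat.eq_zero_or_pos b with h | h
    · rw [h, zero_pow two_ne_zero, zero_mul] at hab
      omega
    · exact h
  rw [← Finset.sum_filter]
  have h : (Finset.Icc 1 N).filter (fun d => d ^ 2 ∣ n) = Nat.divisors b := by
    ext d
    rw [Finset.mem_filter, Finset.mem_Icc, Nat.mem_divisors]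
    constructor
    · rintro ⟨-, h2⟩
      rw [← hab] at h2
      exact ⟨hm_cs_dvd ha hb h2, hb.ne'⟩
    · rintro ⟨h1, -⟩
      have hd : 0 < d := Nat.pos_of_dvd_of_pos h1 hb
      have h3 : d ^ 2 ∣ n := by
        rw [← hab]
        exact Dvd.dvd.mul_right (pow_dvd_pow_of_dvd h1 2) a
      refine ⟨⟨hd, ?_⟩, h3⟩
      have h4 := Nat.le_of_dvd hn h3
      nlinarith
  rw [h, hm_cs_sum_mu]
  have h5 : b = 1 ↔ Squarefree n := by
    constructor
    · rintro rfl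
      rw [← hab, one_pow, one_mul]
      exact ha
    · intro hs
      have h6 : b * b ∣ n := by
        rw [← hab, pow_two]
        exact Dvd.intro _ rfl
      exact Nat.isUnit_iff.1 (hs b h6)
  by_cases h7 : b = 1
  · rw [if_pos h7, if_pos (h5.1 h7)]
  · rw [if_neg h7, if_neg fun h8 => h7 (h5.2 h8)]

/-- The telescoping bound. -/
theorem hm_cs_tele (y : ℝ) (hy : 0 < y) (K : ℕ) :
    ∑ d ∈ Finset.Icc 1 K, y ^ 2 / ((y + d) * (y + d - 1)) ≤ y := by
  have h : ∀ K : ℕ, ∑ d ∈ Finset.Icc 1 K, y ^ 2 / ((y + d) * (y + d - 1)) = y * K / (y + K) := by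
    intro K
    induction K with
    | zero => simp
    | succ K ih =>
      rw [Finset.sum_Icc_succ_top (by omega), ih]
      push_cast
      have h1 : y + (K : ℝ) ≠ 0 := by positivity
      have h2 : y + ((K : ℝ) + 1) ≠ 0 := by positivity
      have h3 : y + ((K : ℝ) + 1) - 1 = y + K := by ring
      rw [h3]
      field_simp
      ring
  rw [h K, div_le_iff₀ (by positivity)]
  nlinarith [sq_nonneg y]

theorem hm_cs_step (D q x y : ℝ) (hD : 1 ≤ D) (hq : 1 ≤ q) (hx : 0 < x) (hy : 0 < y)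
    (hyx : q * y ^ 2 = x) (d : ℕ) (hd : 1 ≤ d) (t : ℝ) (h1 : t ≤ D * q) (h2 : t ≤ x / d ^ 2) :
    t ≤ 4 * D * q * (y ^ 2 / ((y + d) * (y + d - 1))) := by
  have hd1 : (1 : ℝ) ≤ d := by exact_mod_cast hd
  have hpos : 0 < (y + d) * (y + d - 1) := by
    apply mul_pos <;> linarith
  have hDq : 0 < D * q := by positivity
  rw [← mul_div_assoc, le_div_iff₀ hpos]
  have h3 : (y + d) * (y + d - 1) ≤ (y + d) ^ 2 := by nlinarith
  rcases le_total (d : ℝ) y with h | h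
  · have h4 : (y + d) ^ 2 ≤ 4 * y ^ 2 := by nlinarith
    calc t * ((y + d) * (y + d - 1)) ≤ (D * q) * ((y + d) * (y + d - 1)) :=
          mul_le_mul_of_nonneg_right h1 hpos.le
      _ ≤ (D * q) * (4 * y ^ 2) := mul_le_mul_of_nonneg_left (h3.trans h4) hDq.le
      _ = 4 * D * q * y ^ 2 := by ring
  · have h4 : (y + d) ^ 2 ≤ 4 * (d : ℝ) ^ 2 := by nlinarith
    have hd2 : (0 : ℝ) < (d : ℝ) ^ 2 := by positivity
    calc t * ((y + d) * (y + d - 1)) ≤ (x / d ^ 2) * ((y + d) * (y + d - 1)) :=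
          mul_le_mul_of_nonneg_right h2 hpos.le
      _ ≤ (x / d ^ 2) * (4 * (d : ℝ) ^ 2) :=
          mul_le_mul_of_nonneg_left (h3.trans h4) (by positivity)
      _ = 4 * x := by field_simp
      _ = 4 * (q * y ^ 2) := by rw [hyx]
      _ ≤ D * (4 * (q * y ^ 2)) := le_mul_of_one_le_left (by positivity) hD
      _ = 4 * D * q * y ^ 2 := by ring


theorem hm_cs_min (q x : ℝ) (hq : 1 ≤ q) (hx : 0 < x) (N : ℕ) (t : ℕ → ℝ)
    (h1 : ∀ d ∈ Finset.Icc 1 N, t d ≤ q) (h2 : ∀ d ∈ Finset.Icc 1 N, t d ≤ x / (d : ℝ) ^ 2) :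
    ∑ d ∈ Finset.Icc 1 N, t d ≤ 4 * Real.sqrt (q * x) := by
  have hq0 : 0 < q := by linarith
  obtain ⟨y, hy, hyq, hyx⟩ : ∃ y : ℝ, 0 < y ∧ q * y = Real.sqrt (q * x) ∧ q * y ^ 2 = x := by
    have hs0 : 0 < Real.sqrt (q * x) := Real.sqrt_pos.2 (by positivity)
    have hs1 : Real.sqrt (q * x) ^ 2 = q * x := Real.sq_sqrt (by positivity)
    refine ⟨Real.sqrt (q * x) / q, by positivity, by field_simp, ?_⟩
    rw [div_pow, hs1]
    field_simp
  have e6 : ∀ d ∈ Finset.Icc 1 N, t d ≤ 4 * 1 * q * (y ^ 2 / ((y + d) * (y + d - 1))) := by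
    intro d hd
    have hd' := Finset.mem_Icc.1 hd
    exact hm_cs_step 1 q x y le_rfl hq hx hy hyx d hd'.1 _ (by rw [one_mul]; exact h1 d hd)
      (h2 d hd)
  refine (Finset.sum_le_sum e6).trans ?_
  rw [← Finset.mul_sum]
  calc 4 * 1 * q * ∑ d ∈ Finset.Icc 1 N, y ^ 2 / ((y + d) * (y + d - 1))
      ≤ 4 * 1 * q * y := mul_le_mul_of_nonneg_left (hm_cs_tele y hy N) (by positivity)
    _ = 4 * (q * y) := by ring
    _ = 4 * Real.sqrt (q * x) := by rw [hyq]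

end Pool.Agent.H98.ML
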