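import Pool.Agent.H98.ML.LhTauA
import Pool.Agent.H98.MK.ChiBasic
import Pool.Agent.H98.MK.InertiaMap
import Pool.Agent.H98.MK.TameGen
import Pool.Agent.H98.MK.TameFaithful
import Pool.Agent.H98.MK.DiscExp
import Pool.Agent.H98.MK.TameExp
import Pool.Agent.H98.MK.QuadLocal

/-!
# Project MK2 (MP_a3214d), row ML-G5: the local lemma at odd primes, all subgroups (helper16)

Adapted from helper25's file `MK/LocalOdd.lean`. Version with the orbit formula for the
discriminant exponents as a hypothesis.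
-/

set_option autoImplicit false

open scoped BigOperators Pointwise

open Filter NumberField Pool.Agent.H67.MU

namespace Pool.Agent.H98.ML

open Pool.Agent.H98.MK (Om Gam dabs fld chi dd adm par lg eps par_hom par_lc mfun z12)

/-- discriminant exponents and orbits of the tame generator -/
def G5Orb : Prop := ∀ (K : Type) [Field K] [NumberField K] [IsGalois ℚ K] (k : ℕ),
    Module.finrank ℚ K = 2 ^ k → ∀ (p : ℕ) [Fact p.Prime], p ≠ 2 → ∀ (P : Ideal (𝓞 K))
    [P.IsPrime], (p : 𝓞 K) ∈ P → ∀ τ : K ≃ₐ[ℚ] K,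
    Subgroup.zpowers τ = P.inertia (K ≃ₐ[ℚ] K) → ∀ H : Subgroup (K ≃ₐ[ℚ] K),
    (discr (IntermediateField.fixedField H)).natAbs.factorization p + norb H τ = H.index

private theorem g5_numberField (U : Subgroup Gam) (hU : IsOpen (U : Set Gam))
    (h : U.index ≠ 0) : NumberField (fld U) := by
  have h1 : 0 < Module.finrank ℚ (fld U) := by
    rw [Pool.Agent.H98.MK.fld_finrank U hU]
    exact Nat.pos_of_ne_zero h
  have h2 : FiniteDimensional ℚ (fld U) := Module.finite_of_finrank_pos h1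
  exact { to_charZero := inferInstance, to_finiteDimensional := h2 }

private theorem g5_dabs (U : Subgroup Gam) [h : NumberField (fld U)] :
    dabs (fld U) = (discr (fld U)).natAbs := by
  unfold dabs
  rw [dif_pos h]

private theorem g5_prime {K : Type} [Field K] [NumberField K] (p : ℕ) [Fact p.Prime] :
    ∃ P : Ideal (𝓞 K), P.IsPrime ∧ P ≠ ⊥ ∧ (p : 𝓞 K) ∈ P := by
  have hp : Prime (p : ℤ) := Nat.prime_iff_prime_int.1 (Fact.out : p.Prime)
  have h1 : (Ideal.span {(p : ℤ)}).IsPrime := (Ideal.span_singleton_prime hp.ne_zero).2 hp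
  have h0 : Ideal.span {(p : ℤ)} ≠ ⊥ := by
    rw [Ne, Ideal.span_singleton_eq_bot]
    exact hp.ne_zero
  have h2 : (Ideal.span {(p : ℤ)}).IsMaximal := h1.isMaximal h0
  obtain ⟨P, hP⟩ := (inferInstance : Nonempty ((Ideal.span {(p : ℤ)}).primesOver (𝓞 K)))
  have hP1 : P.IsPrime := hP.1
  have hP2 : P.LiesOver (Ideal.span {(p : ℤ)}) := hP.2
  refine ⟨P, hP1, Ideal.ne_bot_of_liesOver_of_ne_bot h0 P, ?_⟩
  have h3 : (p : ℤ) ∈ P.under ℤ := by
    rw [← hP2.over]
    exact Ideal.mem_span_singleton_self _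
  rw [Ideal.mem_comap] at h3
  simpa using h3

private theorem g5_sq_mem {U : Subgroup Gam} {d : ℚ} (h : ∀ σ ∈ U, chi d σ = 0) :
    Pool.Agent.H98.MK.sq d ∈ fld U := by
  unfold fld
  rw [IntermediateField.mem_fixedField_iff]
  intro σ hσ
  exact (Pool.Agent.H98.MK.chi_eq_zero_iff' d (Pool.Agent.H98.MK.sq d)
    (Pool.Agent.H98.MK.sq_sq d) σ).1 (h σ hσ)

/-- the fixed field of the image of `W` in the Galois group of `fld U` is `fld W` -/
private theorem g5_lift (U W : Subgroup Gam) (hUW : U ≤ W)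
    (π : Gam →* ((fld U) ≃ₐ[ℚ] (fld U)))
    (hπ : ∀ (σ : Gam) (x : fld U), ((π σ x : fld U) : Om) = σ (x : Om)) :
    IntermediateField.lift (IntermediateField.fixedField (W.map π)) = fld W := by
  ext x
  constructor
  · intro hx
    have hxU : x ∈ fld U := IntermediateField.lift_le _ hx
    have hx2 : (⟨x, hxU⟩ : fld U) ∈ IntermediateField.fixedField (W.map π) :=
      (IntermediateField.mem_lift (⟨x, hxU⟩ : fld U)).1 hx
    rw [IntermediateField.mem_fixedField_iff] at hx2
    refine (IntermediateField.mem_fixedField_iff W x).2 fun σ hσ => ?_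
    have h1 := hx2 (π σ) (Subgroup.mem_map_of_mem π hσ)
    have h2 := congrArg (fun z : fld U => (z : Om)) h1
    simp only [hπ] at h2
    exact h2
  · intro hx
    have hxU : x ∈ fld U := Pool.Agent.H98.MK.fld_mono hUW hx
    refine (IntermediateField.mem_lift (⟨x, hxU⟩ : fld U)).2 ?_
    rw [IntermediateField.mem_fixedField_iff]
    rintro _ ⟨σ, hσ, rfl⟩
    apply Subtype.ext
    exact (hπ σ ⟨x, hxU⟩).trans ((IntermediateField.mem_fixedField_iff W x).1 hx σ hσ)

private theorem g5_dabs_eq (U W : Subgroup Gam) (hUW : U ≤ W) (hU : NumberField (fld U))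
    (π : Gam →* ((fld U) ≃ₐ[ℚ] (fld U)))
    (hπ : ∀ (σ : Gam) (x : fld U), ((π σ x : fld U) : Om) = σ (x : Om)) :
    dabs (fld W) = (discr (IntermediateField.fixedField (W.map π))).natAbs := by
  have e := IntermediateField.liftAlgEquiv (IntermediateField.fixedField (W.map π))
  have hN : NumberField (IntermediateField.lift (IntermediateField.fixedField (W.map π))) :=
    { to_charZero := inferInstance
      to_finiteDimensional := e.toLinearEquiv.finiteDimensional }
  rw [← g5_lift U W hUW π hπ]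
  unfold dabs
  rw [dif_pos hN]
  exact congrArg Int.natAbs (NumberField.discr_eq_discr_of_algEquiv _ e).symm

/-- **Row ML-G5**: the local lemma at odd primes, with a hypothesis. -/
theorem local_odd_fin_of (hO : G5Orb) (p : ℕ) [Fact p.Prime] (hp : p ≠ 2) (U : Subgroup Gam)
    [U.Normal] (hU : IsOpen (U : Set Gam)) (k : ℕ) (hk : U.index = 2 ^ k) :
    ∃ τ φ : Gam, φ * τ * φ⁻¹ * (τ ^ p)⁻¹ ∈ U ∧
      (∀ W : Subgroup Gam, U ≤ W → (dabs (fld W)).factorization p + norb W τ = W.index) ∧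
      (∀ d : ℤ, ¬ (p : ℤ) ∣ d → (∀ σ ∈ U, chi d σ = 0) →
        chi d τ = 0 ∧ chi d φ = lg (jacobiSym d p)) ∧
      ((∀ σ ∈ U, chi (dd p : ℤ) σ = 0) → chi (dd p : ℤ) τ = 1) := by
  have hp1 : p.Prime := Fact.out
  have hfin : Module.finrank ℚ (fld U) = 2 ^ k := (Pool.Agent.H98.MK.fld_finrank U hU).trans hk
  have hNU : NumberField (fld U) := g5_numberField U hU (by rw [hk]; positivity)
  have := Pool.Agent.H98.MK.fld_galois U hU
  obtain ⟨P, hP, hP0, hpP⟩ := g5_prime (K := fld U) p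
  obtain ⟨τ0, φ0, hz, hφ0, hrel⟩ := Pool.Agent.H98.MK.tame_gen_of
    (fun _ _ _ P _ => Pool.Agent.H98.MK.tame_faithful P) k hfin p hp P hpP
  obtain ⟨π, hπs, hπk, hπ⟩ := Pool.Agent.H98.MK.exists_res U hU
  obtain ⟨τ, rfl⟩ := hπs τ0
  obtain ⟨φ, rfl⟩ := hπs φ0
  have hin : π τ ∈ P.inertia (fld U ≃ₐ[ℚ] fld U) := by
    rw [← hz]
    exact Subgroup.mem_zpowers _
  refine ⟨τ, φ, ?_, ?_, ?_, ?_⟩
  · rw [← hπk, MonoidHom.mem_ker, map_mul, map_mul, map_mul, map_inv, map_inv, map_pow, hrel,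
      mul_inv_cancel]
  · intro W hUW
    have hWc : (W.map π).comap π = W := by
      rw [Subgroup.comap_map_eq, hπk, sup_eq_left.2 hUW]
    have h1 := hO (fld U) k hfin p hp P hpP (π τ) hz (W.map π)
    have h2 : norb W τ = norb (W.map π) (π τ) := by
      conv_lhs => rw [← hWc]
      exact m3_norb π hπs (W.map π) τ
    have h3 : W.index = (W.map π).index := by
      conv_lhs => rw [← hWc]
      exact Subgroup.index_comap_of_surjective _ hπs
    rw [g5_dabs_eq U W hUW hNU π hπ, h2, h3]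
    exact h1
  · intro d hd hσ
    have hd0 : d ≠ 0 := by
      rintro rfl
      exact hd (dvd_zero _)
    have hdq : ((d : ℤ) : ℚ) ≠ 0 := by exact_mod_cast hd0
    have hmem : Pool.Agent.H98.MK.sq (d : ℚ) ∈ fld U := g5_sq_mem hσ
    have hy : (⟨Pool.Agent.H98.MK.sq (d : ℚ), hmem⟩ : fld U) ^ 2 = (d : fld U) := by
      apply Subtype.ext
      push_cast
      rw [Pool.Agent.H98.MK.sq_sq, Rat.cast_intCast]
    have h1 := Pool.Agent.H98.MK.quad_inertia p hp P hpP d hd _ hy (π τ) hin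
    have h2 := Pool.Agent.H98.MK.quad_frob p hp P hpP d hd _ hy (π φ) hφ0
    have h1' : τ (Pool.Agent.H98.MK.sq (d : ℚ)) = Pool.Agent.H98.MK.sq (d : ℚ) := by
      have := congrArg (fun z : fld U => (z : Om)) h1
      simpa only [hπ] using this
    have h2' : φ (Pool.Agent.H98.MK.sq (d : ℚ)) =
        (jacobiSym d p : Om) * Pool.Agent.H98.MK.sq (d : ℚ) := by
      have := congrArg (fun z : fld U => (z : Om)) h2
      simp only [hπ] at this
      rw [this]
      push_cast
      rfl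
    refine ⟨(Pool.Agent.H98.MK.chi_eq_zero_iff' _ _ (Pool.Agent.H98.MK.sq_sq _) τ).2 h1', ?_⟩
    have hj : jacobiSym d p = 1 ∨ jacobiSym d p = -1 := by
      have hc : IsCoprime d p := by
        rw [isCoprime_comm]
        exact (Nat.prime_iff_prime_int.1 hp1).coprime_iff_not_dvd.2 hd
      exact jacobiSym.eq_one_or_neg_one (Int.isCoprime_iff_gcd_eq_one.1 hc)
    rcases hj with hj | hj
    · rw [hj] at h2' ⊢
      rw [Int.cast_one, one_mul] at h2'
      rw [(Pool.Agent.H98.MK.chi_eq_zero_iff' _ _ (Pool.Agent.H98.MK.sq_sq _) φ).2 h2']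
      rfl
    · rw [hj] at h2' ⊢
      rw [Int.cast_neg, Int.cast_one, neg_one_mul] at h2'
      rw [(Pool.Agent.H98.MK.chi_eq_one_iff _ hdq _ (Pool.Agent.H98.MK.sq_sq _) φ).2 h2']
      rfl
  · intro hσ
    have hd0 : dd p ≠ 0 := by
      unfold dd
      have := hp1.pos
      split_ifs <;> omega
    have hdq : ((dd p : ℤ) : ℚ) ≠ 0 := by exact_mod_cast hd0
    have hmem : Pool.Agent.H98.MK.sq ((dd p : ℤ) : ℚ) ∈ fld U := g5_sq_mem hσ
    have hy : (⟨Pool.Agent.H98.MK.sq ((dd p : ℤ) : ℚ), hmem⟩ : fld U) ^ 2 =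
        ((dd p : ℤ) : fld U) := by
      apply Subtype.ext
      push_cast
      rw [Pool.Agent.H98.MK.sq_sq, Rat.cast_intCast]
    have h1 := Pool.Agent.H98.MK.quad_ram p hp P hpP _ hy (π τ) hz
    have h1' : τ (Pool.Agent.H98.MK.sq ((dd p : ℤ) : ℚ)) =
        -Pool.Agent.H98.MK.sq ((dd p : ℤ) : ℚ) := by
      have := congrArg (fun z : fld U => (z : Om)) h1
      simp only [hπ] at this
      exact this
    exact (Pool.Agent.H98.MK.chi_eq_one_iff _ hdq _ (Pool.Agent.H98.MK.sq_sq _) τ).2 h1'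

end Pool.Agent.H98.ML
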