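import Pool.Agent.H98.ML.LhTauA
import Pool.Agent.H98.ML.HomParam2
import Pool.Agent.H98.MK.Conj

/-!
# Project MK2 (MP_a3214d), row M4: necessity of the local conditions, normalised lifts and the
exponents at the odd primes (version with the existence of the tame generators as a hypothesis)
-/

set_option autoImplicit false

open scoped BigOperators

namespace Pool.Agent.H98.ML

open Pool.Agent.H98.MK (Om Gam dabs fld chi dd adm par lg eps par_hom par_lc mfun z12 exists_conj)

private theorem m4_conj {D : Dt} (g t : Ext D) :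
    g * t * g⁻¹ = ⟨t.v, t.z + D.B g.v t.v⟩ := by
  apply Ext.ext
  · show g.v + t.v + g.v = t.v
    rw [add_right_comm, Ext.two_V, zero_add]
  · show g.z + t.z + D.β g.v t.v + (g.z + D.β g.v g.v) + D.β (g.v + t.v) g.v =
      t.z + (D.β g.v t.v + D.β t.v g.v)
    rw [map_add, LinearMap.add_apply]
    have h1 := Ext.two_Z (D := D) g.z
    have h2 := Ext.two_Z (D := D) (D.β g.v g.v)
    calc _ = (g.z + g.z) + (D.β g.v g.v + D.β g.v g.v) + (t.z + (D.β g.v t.v + D.β t.v g.v)) := by
          abel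
      _ = _ := by rw [h1, h2, zero_add, zero_add]

private theorem m4_sq {D : Dt} (t : Ext D) : t * t = ⟨0, D.q t.v⟩ := by
  apply Ext.ext
  · exact Ext.two_V t.v
  · show t.z + t.z + D.β t.v t.v = D.β t.v t.v
    rw [Ext.two_Z, zero_add]

private theorem m4_pow {D : Dt} (t : Ext D) (k : ℕ) :
    t ^ (2 * k + 1) = ⟨t.v, t.z + k • D.q t.v⟩ := by
  induction k with
  | zero => simp
  | succ k ih =>
    have h1 : t ^ (2 * (k + 1) + 1) = t ^ (2 * k + 1) * (t * t) := by
      rw [← pow_two, ← pow_add]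
      congr 1
    rw [h1, ih, m4_sq]
    apply Ext.ext
    · show t.v + 0 = t.v
      rw [add_zero]
    · show t.z + k • D.q t.v + D.q t.v + D.β t.v 0 = t.z + (k + 1) • D.q t.v
      rw [map_zero, add_zero, succ_nsmul, add_assoc]

private theorem m4_B_self {D : Dt} (v : D.V) : D.B v v = 0 := Ext.two_Z _

private theorem m4_B_sum {D : Dt} {ι : Type} (s : Finset ι) (g : ι → D.V) (v : D.V) :
    D.B (∑ i ∈ s, g i) v = ∑ i ∈ s, D.B (g i) v := by
  simp only [Dt.B, map_sum, LinearMap.sum_apply, Finset.sum_add_distrib]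

private theorem m4_B_smul {D : Dt} (c : ZMod 2) (w v : D.V) :
    D.B (c • w) v = c • D.B w v := by
  simp only [Dt.B, map_smul, LinearMap.smul_apply, smul_add]

private theorem m4_nsmul {D : Dt} (k : ℕ) (z : D.Z) : k • z = (k : ZMod 2) • z :=
  (Nat.cast_smul_eq_nsmul (ZMod 2) k z).symm

private theorem m4_lg {p : ℕ} (hp : p.Prime) (hp2 : p ≠ 2) :
    lg (jacobiSym (-1) p) = ((p / 2 : ℕ) : ZMod 2) := by
  have hodd : Odd p := hp.odd_of_ne_two hp2
  rw [jacobiSym.at_neg_one hodd]
  have h4 : p % 4 = 1 ∨ p % 4 = 3 := by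
    obtain ⟨m, hm⟩ := hodd
    omega
  rcases h4 with h | h
  · rw [ZMod.χ₄_nat_one_mod_four h, lg, if_neg (by norm_num)]
    have h2 : p / 2 = 2 * (p / 4) := by omega
    have h3 : (2 : ZMod 2) = 0 := by decide
    rw [h2, Nat.cast_mul, Nat.cast_two, h3, zero_mul]
  · rw [ZMod.χ₄_nat_three_mod_four h, lg, if_pos rfl]
    have h2 : p / 2 = 2 * (p / 4) + 1 := by omega
    have h3 : (2 : ZMod 2) = 0 := by decide
    rw [h2, Nat.cast_add, Nat.cast_mul, Nat.cast_two, h3, zero_mul, zero_add, Nat.cast_one]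

private theorem m4_dd (p i : ℕ) (hp : p.Prime) (hp2 : p ≠ 2) (hi : i = 1 ∨ i.Prime)
    (hip : i ≠ p) : ¬ (p : ℤ) ∣ dd i := by
  have h0 : ¬ p ∣ i := by
    intro h
    rcases hi with rfl | hi
    · exact hp.one_lt.ne' (Nat.dvd_one.1 h)
    · exact hip ((Nat.prime_dvd_prime_iff_eq hp hi).1 h).symm
  unfold dd
  intro h
  split_ifs at h with h1 h2 h3
  · rw [Int.dvd_neg] at h
    exact hp.one_lt.ne' (Nat.dvd_one.1 (by exact_mod_cast h))
  · exact hp2 ((Nat.prime_dvd_prime_iff_eq hp Nat.prime_two).1 (by exact_mod_cast h))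
  · exact h0 (by exact_mod_cast h)
  · rw [Int.dvd_neg] at h
    exact h0 (by exact_mod_cast h)

/-- necessity of the local conditions -/
theorem nec_of (hE : M3Ex) {D : Dt} {x : ℕ →₀ D.V} {f : Gam → D.Z} (hx : adm x)
    (h : IsLift D x f) : Sol D x := by
  constructor
  · intro p hp hp2 hxp
    haveI : Fact p.Prime := ⟨hp⟩
    obtain ⟨τ, φ, ht⟩ := hE p hp2
    have hadm : ∀ i ∈ x.support, i = 1 ∨ i.Prime := fun i hi =>
      hx i (Finsupp.mem_support_iff.1 hi)
    have h2 : ∀ i ∈ x.support, i ≠ p → chi (dd i : ℤ) τ = 0 ∧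
        chi (dd i : ℤ) φ = lg (jacobiSym (dd i) p) := fun i hi hip =>
      ht.chi0 (dd i) (m4_dd p i hp hp2 (hadm i hi) hip)
    have h1 : lh h (φ * τ * φ⁻¹) = lh h (τ ^ p) := by
      have h0 := ht.rel (lh h).ker (m3_open _ (lh_lc h)) (m3_ker _)
      rw [MonoidHom.mem_ker, map_mul, map_inv] at h0
      exact mul_inv_eq_one.1 h0
    have hps : p ∈ x.support := Finsupp.mem_support_iff.2 hxp
    have hτ : par x τ = x p := by
      rw [par, Finsupp.sum, Finset.sum_eq_single_of_mem p hps, ht.chi1, one_smul]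
      intro i hi hip
      rw [(h2 i hi hip).1, zero_smul]
    have hB : D.B (par x φ) (x p) =
        x.sum fun i w => if i = p then 0 else lg (jacobiSym (dd i) p) • D.B w (x p) := by
      rw [par, Finsupp.sum, Finsupp.sum, m4_B_sum]
      refine Finset.sum_congr rfl fun i hi => ?_
      rw [m4_B_smul]
      split_ifs with hip
      · rw [hip, m4_B_self, smul_zero]
      · rw [(h2 i hi hip).2]
    rw [map_mul, map_mul, map_inv, map_pow, m4_conj] at h1
    have hp' : p = 2 * (p / 2) + 1 := by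
      obtain ⟨m, hm⟩ := hp.odd_of_ne_two hp2
      omega
    have h4 : lh h τ ^ p = ⟨(lh h τ).v, (lh h τ).z + (p / 2) • D.q (lh h τ).v⟩ := by
      conv_lhs => rw [hp']
      exact m4_pow _ _
    rw [h4] at h1
    have h5 := add_left_cancel (congrArg Ext.z h1)
    have h6 : (lh h τ).v = x p := hτ
    have h7 : (lh h φ).v = par x φ := rfl
    rw [h6, h7, hB] at h5
    rw [h5, m4_nsmul, m4_lg hp hp2]
  · obtain ⟨c, hc, hchi⟩ := exists_conj
    have h1 : lh h c * lh h c = 1 := by rw [← map_mul, hc, map_one]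
    rw [m4_sq] at h1
    have h2 : D.q (par x c) = 0 := congrArg Ext.z h1
    have h3 : par x c = x.sum fun i w => if dd i < 0 then w else 0 := by
      rw [par]
      refine Finset.sum_congr rfl fun i hi => ?_
      have hdd : dd i ≠ 0 := by
        have h4 := hx i (Finsupp.mem_support_iff.1 hi)
        have h5 : i ≠ 0 := by
          rintro rfl
          rcases h4 with h4 | h4
          · exact absurd h4 (by norm_num)
          · exact Nat.not_prime_zero h4
        unfold dd
        split_ifs <;> simp <;> omega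
      show chi (dd i : ℤ) c • x i = if dd i < 0 then x i else 0
      rw [hchi (dd i) hdd]
      split_ifs
      · rw [one_smul]
      · rw [zero_smul]
    rw [← h3]
    exact h2

open Classical in
/-- the parameters with values `f (tau p)` -/
theorem exists_normal_of (hE : M3Ex) {D : Dt} {x : ℕ →₀ D.V} {f : Gam → D.Z}
    (h : IsLift D x f) : ∃ f' : Gam → D.Z, IsNormal D x f' := by
  have hfin := tau_finite_of hE (lh h) (lh_lc h)
  have hval : ∀ p : ℕ, (if p.Prime ∧ p ≠ 2 then f (tau p) else 0) ≠ 0 → p ∈ hfin.toFinset := by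
    intro p hp
    rw [Set.Finite.mem_toFinset]
    by_cases hc : p.Prime ∧ p ≠ 2
    · rw [if_pos hc] at hp
      exact ⟨hc.1, hc.2, fun h1 => hp (congrArg Ext.z h1)⟩
    · rw [if_neg hc] at hp
      exact absurd rfl hp
  let z : ℕ →₀ D.Z := Finsupp.onFinset hfin.toFinset
    (fun p => if p.Prime ∧ p ≠ 2 then f (tau p) else 0) hval
  have hz : adm z := by
    intro p hp
    by_cases hc : p.Prime ∧ p ≠ 2
    · exact Or.inr hc.1
    · exact absurd (if_neg hc) hp
  refine ⟨fun σ => f σ + par z σ, { toIsLift := h.add z, nor := ?_ }⟩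
  intro p hp hp2
  show f (tau p) + par z (tau p) = 0
  rw [m3_par hE hz p hp hp2]
  have h1 : z p = f (tau p) := if_pos ⟨hp, hp2⟩
  rw [h1]
  exact Ext.two_Z _

theorem ex_odd_of (hE : M3Ex) {D : Dt} (H0 : Subgroup (Ext D)) {x : ℕ →₀ D.V} {f : Gam → D.Z}
    (hx : adm x) (h : IsNormal D x f) (z : ℕ →₀ D.Z) (hz : adm z)
    (hs : Function.Surjective (lh (h.toIsLift.add z))) (p : ℕ) (hp : p.Prime) (hp2 : p ≠ 2) :
    ex H0 p (lh (h.toIsLift.add z)) = hind H0 ⟨x p, z p⟩ := by
  rw [ex_tau_of hE H0 _ (lh_lc _) hs p hp hp2, lh_tau_of hE hx _ p hp hp2]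
  have h1 : f (tau p) + par z (tau p) = z p := by
    rw [h.nor p hp hp2, zero_add, m3_par hE hz p hp hp2]
  rw [h1]

end Pool.Agent.H98.ML
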