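import Pool.Agent.H98.ML.PosAnA

/-!
# Project MK2 (MP_a3214d): a lower bound for sums of multiplicative weights, second part

If the sum over the primes of `g p / p ^ s` is at least `(b + 1) log (1 / (s - 1)) - C`, then
the sum of the weights up to `Y` is at least `c Y (log Y) ^ b` for arbitrarily large `Y`.
-/

set_option autoImplicit false

open scoped BigOperators
open Finset Filter

namespace Pool.Agent.H98.ML

theorem pb_summable {g : ℕ → ℝ} {H : ℝ} (hg : ∀ n, 0 ≤ g n) (hH : ∀ n, g n ≤ H) {s : ℝ}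
    (hs : 1 < s) : Summable fun n : ℕ => if n.Prime then g n * (n : ℝ) ^ (-s) else 0 := by
  have h1 : Summable fun n : ℕ => H * (n : ℝ) ^ (-s) :=
    (Real.summable_nat_rpow.2 (by linarith)).mul_left H
  refine Summable.of_nonneg_of_le (fun n => ?_) (fun n => ?_) h1
  · split_ifs
    · exact mul_nonneg (hg n) (Real.rpow_nonneg (Nat.cast_nonneg n) _)
    · exact le_rfl
  · have h2 := Real.rpow_nonneg (Nat.cast_nonneg n : (0 : ℝ) ≤ n) (-s)
    split_ifs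
    · exact mul_le_mul_of_nonneg_right (hH n) h2
    · exact mul_nonneg ((hg n).trans (hH n)) h2

/-- the primes which do not divide `N` carry almost the whole sum -/
theorem pb_finset {N : ℕ} (hN : 0 < N) {g : ℕ → ℝ} {H : ℝ} (hg : ∀ n, 0 ≤ g n)
    (hH : ∀ n, g n ≤ H) {s : ℝ} (hs : 1 < s) {L : ℝ}
    (hL : L ≤ ∑' n : ℕ, if n.Prime then g n * (n : ℝ) ^ (-s) else 0) :
    ∃ P : Finset ℕ, (∀ p ∈ P, p.Prime ∧ p.Coprime N) ∧
      L - N.primeFactors.card * H - 1 ≤ ∑ p ∈ P, g p * (p : ℝ) ^ (-s) := by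
  have hsum := (pb_summable hg hH hs).hasSum
  have h1 : ∀ᶠ A : Finset ℕ in atTop,
      L - 1 < ∑ n ∈ A, if n.Prime then g n * (n : ℝ) ^ (-s) else 0 :=
    hsum.eventually (lt_mem_nhds (by linarith))
  obtain ⟨A, hA⟩ := h1.exists
  refine ⟨(A.filter Nat.Prime) \ N.primeFactors, fun p hp => ?_, ?_⟩
  · obtain ⟨h2, h3⟩ := mem_sdiff.1 hp
    have h4 := (mem_filter.1 h2).2
    refine ⟨h4, (Nat.Prime.coprime_iff_not_dvd h4).2 fun h5 => h3 ?_⟩
    exact Nat.mem_primeFactors.2 ⟨h4, h5, hN.ne'⟩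
  · rw [← sum_filter] at hA
    have h2 : ∑ p ∈ A.filter Nat.Prime, g p * (p : ℝ) ^ (-s) ≤
        ∑ p ∈ (A.filter Nat.Prime) \ N.primeFactors, g p * (p : ℝ) ^ (-s) +
          ∑ p ∈ N.primeFactors, g p * (p : ℝ) ^ (-s) := by
      rw [← sum_union sdiff_disjoint]
      refine sum_le_sum_of_subset_of_nonneg ?_ fun n _ _ =>
        mul_nonneg (hg n) (Real.rpow_nonneg (Nat.cast_nonneg n) _)
      rw [sdiff_union_self_eq_union]
      exact subset_union_left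
    have h3 : ∑ p ∈ N.primeFactors, g p * (p : ℝ) ^ (-s) ≤ N.primeFactors.card * H := by
      rw [← nsmul_eq_mul]
      refine sum_le_card_nsmul _ _ _ fun p hp => ?_
      have hp1 : (1 : ℝ) ≤ p := by
        exact_mod_cast (Nat.prime_of_mem_primeFactors hp).one_lt.le
      have h4 : (p : ℝ) ^ (-s) ≤ 1 := Real.rpow_le_one_of_one_le_of_nonpos hp1 (by linarith)
      calc g p * (p : ℝ) ^ (-s) ≤ g p * 1 := mul_le_mul_of_nonneg_left h4 (hg p)
        _ ≤ H := by rw [mul_one]; exact hH p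
    linarith

theorem pb_sq {g : ℕ → ℝ} {H : ℝ} (hg : ∀ n, 0 ≤ g n) (hH : ∀ n, g n ≤ H) {s : ℝ}
    (hs : 1 < s) {P : Finset ℕ} (hP : ∀ p ∈ P, p.Prime) :
    ∑ p ∈ P, (g p * (p : ℝ) ^ (-s)) ^ 2 ≤ H ^ 2 * ∑' n : ℕ, 1 / (n : ℝ) ^ 2 := by
  have h0 : Summable fun n : ℕ => 1 / (n : ℝ) ^ 2 :=
    Real.summable_one_div_nat_pow.2 (by norm_num)
  have h1 : ∑ p ∈ P, (g p * (p : ℝ) ^ (-s)) ^ 2 ≤ ∑ p ∈ P, H ^ 2 * (1 / (p : ℝ) ^ 2) := by
    refine sum_le_sum fun p hp => ?_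
    have hp1 : (1 : ℝ) ≤ p := by exact_mod_cast (hP p hp).one_lt.le
    have hp0 : (0 : ℝ) < p := by linarith
    rw [mul_pow]
    have h2 : g p ^ 2 ≤ H ^ 2 := pow_le_pow_left₀ (hg p) (hH p) 2
    have h3 : ((p : ℝ) ^ (-s)) ^ 2 ≤ 1 / (p : ℝ) ^ 2 := by
      have h4 : (p : ℝ) ^ (-s) ≤ (p : ℝ)⁻¹ := by
        rw [← Real.rpow_neg_one]
        exact Real.rpow_le_rpow_of_exponent_le hp1 (by linarith)
      calc ((p : ℝ) ^ (-s)) ^ 2 ≤ ((p : ℝ)⁻¹) ^ 2 :=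
            pow_le_pow_left₀ (Real.rpow_nonneg hp0.le _) h4 2
        _ = 1 / (p : ℝ) ^ 2 := by rw [inv_pow, one_div]
    exact mul_le_mul h2 h3 (pow_nonneg (Real.rpow_nonneg hp0.le _) 2) (pow_nonneg
      ((hg p).trans (hH p)) 2)
  refine h1.trans ?_
  rw [← mul_sum]
  refine mul_le_mul_of_nonneg_left ?_ (sq_nonneg H)
  exact h0.sum_le_tsum P fun n _ => by positivity

/-- the general lower bound -/
theorem pa_gen {N : ℕ} (hN : 0 < N) {g : ℕ → ℝ} {H : ℝ} (hg : ∀ n, 0 ≤ g n)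
    (hH : ∀ n, g n ≤ H) (b : ℕ) (C0 : ℝ)
    (hL : ∀ s : ℝ, 1 < s → s ≤ 2 → ((b : ℝ) + 1) * Real.log (1 / (s - 1)) - C0 ≤
      ∑' n : ℕ, if n.Prime then g n * (n : ℝ) ^ (-s) else 0) :
    ∃ c : ℝ, 0 < c ∧ ∀ Y0 : ℝ, ∃ Y : ℝ, Y0 ≤ Y ∧ c * (Y * Real.log Y ^ b) ≤ paS N g Y := by
  set Z : ℝ := ∑' n : ℕ, 1 / (n : ℝ) ^ 2 with hZ
  set κ : ℝ := Real.exp (-C0 - N.primeFactors.card * H - 1 - H ^ 2 * Z / 2) with hκ
  have hκ0 : 0 < κ := Real.exp_pos _
  set K0 : ℝ := Real.exp 1 * (b.factorial * 2 ^ (b + 1)) with hK0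
  have hK00 : 0 < K0 := by
    have : (0 : ℝ) < b.factorial := by exact_mod_cast b.factorial_pos
    have := Real.exp_pos 1
    positivity
  refine ⟨κ / (2 * K0), by positivity, ?_⟩
  by_contra hcon
  push Not at hcon
  obtain ⟨Y0, hY0⟩ := hcon
  obtain ⟨k0, hk0⟩ := exists_nat_ge Y0
  set c : ℝ := κ / (2 * K0) with hc
  have hc0 : 0 < c := by positivity
  have hf : ∀ n, 0 ≤ paF N g n := paF_nonneg hg
  have hk : ∀ k : ℕ, k0 ≤ k → ∑ n ∈ Icc 1 ⌊Real.exp ((k : ℝ) + 1)⌋₊, paF N g n ≤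
      c * (Real.exp ((k : ℝ) + 1) * ((k : ℝ) + 1) ^ b) := by
    intro k hk
    have h1 : Y0 ≤ Real.exp ((k : ℝ) + 1) := by
      have h2 := Real.add_one_le_exp ((k : ℝ) + 1)
      have h3 : (k0 : ℝ) ≤ k := by exact_mod_cast hk
      linarith
    have h4 := (hY0 _ h1).le
    rw [Real.log_exp, paS_eq] at h4
    exact h4
  set C1 : ℝ := ∑ n ∈ Icc 1 ⌊Real.exp (k0 : ℝ)⌋₊, paF N g n with hC1
  have hC10 : 0 ≤ C1 := sum_nonneg fun n _ => hf n
  have main : ∀ s : ℝ, 1 < s → s ≤ 2 → κ * (1 / (s - 1)) ^ (b + 1) ≤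
      C1 + κ / 2 * (1 / (s - 1)) ^ (b + 1) := by
    intro s hs hs2
    obtain ⟨P, hP, hPs⟩ := pb_finset hN hg hH hs (hL s hs hs2)
    have h1 := pa_upper hf b hc0.le k0 hk hs hs2 (∏ p ∈ P, p)
    have h2 := pa_prod_le hg P hP s
    have h3 := pa_exp_prod (P := P) (x := fun p => g p * (p : ℝ) ^ (-s)) fun p _ =>
      mul_nonneg (hg p) (Real.rpow_nonneg (Nat.cast_nonneg p) _)
    have h4 := pb_sq hg hH hs (P := P) fun p hp => (hP p hp).1
    have hpos : 0 < 1 / (s - 1) := by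
      have : 0 < s - 1 := by linarith
      positivity
    have h5 : κ * (1 / (s - 1)) ^ (b + 1) ≤
        Real.exp (∑ p ∈ P, g p * (p : ℝ) ^ (-s) - (∑ p ∈ P, (g p * (p : ℝ) ^ (-s)) ^ 2) / 2) := by
      have h6 : (1 / (s - 1)) ^ (b + 1) = Real.exp (((b : ℝ) + 1) * Real.log (1 / (s - 1))) := by
        have h7 : ((b : ℝ) + 1) = ((b + 1 : ℕ) : ℝ) := by push_cast; ring
        rw [h7, Real.exp_nat_mul, Real.exp_log hpos]
      rw [h6, hκ, ← Real.exp_add]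
      refine Real.exp_le_exp.2 ?_
      have h8 : (∑ p ∈ P, (g p * (p : ℝ) ^ (-s)) ^ 2) / 2 ≤ H ^ 2 * Z / 2 := by linarith
      linarith
    have h9 : c * (Real.exp 1 * (b.factorial * 2 ^ (b + 1) / (s - 1) ^ (b + 1))) =
        κ / 2 * (1 / (s - 1)) ^ (b + 1) := by
      have h10 : (s - 1) ^ (b + 1) ≠ 0 := pow_ne_zero _ (by linarith)
      have h11 : (b.factorial : ℝ) ≠ 0 := by exact_mod_cast b.factorial_ne_zero
      have h12 := (Real.exp_pos 1).ne'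
      rw [hc, hK0, div_pow, one_pow]
      field_simp
    rw [h9] at h1
    exact h5.trans (h3.trans (h2.trans h1))
  -- a contradiction for `s` close to one
  set u : ℝ := 2 * C1 / κ + 2 with hu
  have hu0 : 2 ≤ u := by
    have : 0 ≤ 2 * C1 / κ := by positivity
    linarith
  have h1 := main (1 + 1 / u) (by
    have : 0 < 1 / u := by positivity
    linarith) (by
    have : 1 / u ≤ 1 := by
      rw [div_le_one (by linarith)]
      linarith
    linarith)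
  have e1 : 1 / (1 + 1 / u - 1) = u := by
    rw [add_sub_cancel_left, one_div_one_div]
  rw [e1] at h1
  have h2 : u ≤ u ^ (b + 1) := by
    calc u = u ^ 1 := (pow_one u).symm
      _ ≤ u ^ (b + 1) := pow_le_pow_right₀ (by linarith) (by omega)
  have h3 : κ / 2 * u ^ (b + 1) ≤ C1 := by linarith
  have h4 : κ / 2 * u ≤ C1 := (mul_le_mul_of_nonneg_left h2 (by positivity)).trans h3
  have h5 : κ / 2 * u = C1 + κ := by
    rw [hu]
    field_simp
  linarith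

end Pool.Agent.H98.ML
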