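import Pool.Agent.H98.ML.Defs
import Pool.Agent.H98.MK.RLe2

/-!
# Project MK2 (MP_a3214d), row E6: changing two residues

How the function of the residues modulo eight changes when the values at two indices over the
same group element are both multiplied by `5` or by `7`.
-/

set_option autoImplicit false

open scoped BigOperators

namespace Pool.Agent.H98.ML

open Pool.Agent.H98.MK (psi jp lg eps sg p8 n7_zm2 n7_sg_add n7_sg_zero n7_sg_sq n7_un n7_un5
  n7_un7 n7_eps5 n7_eps7 n7_p1_5 n7_p1_7 n7_p2_5 n7_p2_7 n7_p0 n7_eps1 n7_prod_or n7_ite_sg)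

section

variable {ι : Type*}

open Classical in
/-- multiply the values at `i` and `i'` by `m` -/
noncomputable def e6_tw (m : ZMod 8) (i i' : ι) (u : ι → ZMod 8) : ι → ZMod 8 :=
  fun k => if k = i ∨ k = i' then m * u k else u k

theorem e6_tw_of {m : ZMod 8} {i i' : ι} {u : ι → ZMod 8} {k : ι}
    (h : k = i ∨ k = i') : e6_tw m i i' u k = m * u k := by
  simp only [e6_tw, if_pos h]

theorem e6_tw_not {m : ZMod 8} {i i' : ι} {u : ι → ZMod 8} {k : ι}
    (h : ¬ (k = i ∨ k = i')) : e6_tw m i i' u k = u k := by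
  simp only [e6_tw, if_neg h]

theorem e6_tw_tw {m : ZMod 8} (hm : m * m = 1) (i i' : ι) (u : ι → ZMod 8) :
    e6_tw m i i' (e6_tw m i i' u) = u := by
  funext k
  by_cases h : k = i ∨ k = i'
  · rw [e6_tw_of h, e6_tw_of h, ← mul_assoc, hm, one_mul]
  · rw [e6_tw_not h, e6_tw_not h]

/-- change of a product of characters -/
theorem e6_prod_tw [Fintype ι] {m : ZMod 8} {i i' : ι} (hne : i ≠ i') {u : ι → ZMod 8}
    (hu : n7_un (u i)) (hu' : n7_un (u i')) (X : ι → ZMod 2) (f : ZMod 8 → ℤ) (η : ℤ)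
    (hf : ∀ x, n7_un x → f (m * x) = η * f x) :
    (∏ k, if X k = 1 then f (e6_tw m i i' u k) else 1) =
      ((if X i = 1 then η else 1) * (if X i' = 1 then η else 1)) *
        ∏ k, if X k = 1 then f (u k) else 1 := by
  classical
  rw [← n7_prod_or hne (fun k => if X k = 1 then η else 1), ← Finset.prod_mul_distrib]
  refine Finset.prod_congr rfl fun k _ => ?_
  by_cases h : k = i ∨ k = i'
  · rw [e6_tw_of h, if_pos h]
    have hk : n7_un (u k) := by
      rcases h with rfl | rfl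
      · exact hu
      · exact hu'
    by_cases hX : X k = 1
    · rw [if_pos hX, if_pos hX, if_pos hX, hf _ hk]
    · rw [if_neg hX, if_neg hX, if_neg hX, one_mul]
  · rw [e6_tw_not h, if_neg h, one_mul]

/-- the part of the quadratic signs which changes -/
theorem e6_half [Fintype ι] {σ : Finset ι} {i i' : ι} (hne : i ≠ i') {u : ι → ZMod 8}
    (hu : ∀ k, k ∉ σ → u k = 1) (C : ι → ι → Prop) [∀ k l, Decidable (C k l)]
    [∀ k, Decidable (k = i ∨ k = i')]
    (hC : ∀ l ∈ σ, (C i l ↔ C i' l)) :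
    (∏ k, ∏ l, if C k l then sg ((if k = i ∨ k = i' then 1 else 0) * eps (u l)) else 1) = 1 := by
  rw [Finset.prod_comm]
  refine Finset.prod_eq_one fun l _ => ?_
  have h1 : ∀ k : ι, (if C k l then sg ((if k = i ∨ k = i' then 1 else 0) * eps (u l)) else 1) =
      if k = i ∨ k = i' then (if C k l then sg (eps (u l)) else 1) else 1 := by
    intro k
    by_cases h : k = i ∨ k = i'
    · simp only [if_pos h, one_mul]
    · simp only [if_neg h, zero_mul, n7_sg_zero, ite_self]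
  rw [Finset.prod_congr rfl fun k _ => h1 k, n7_prod_or hne]
  by_cases hl : l ∈ σ
  · by_cases h2 : C i l
    · rw [if_pos h2, if_pos ((hC l hl).mp h2), n7_sg_sq]
    · rw [if_neg h2, if_neg fun h3 => h2 ((hC l hl).mpr h3), one_mul]
  · rw [hu l hl, n7_eps1, n7_sg_zero]
    simp

theorem e6_pair7 [Fintype ι] {σ : Finset ι} {i i' : ι} (hi : i ∈ σ) (hi' : i' ∈ σ)
    (hne : i ≠ i') {u : ι → ZMod 8} (hu : ∀ k ∈ σ, n7_un (u k)) (hu1 : ∀ k, k ∉ σ → u k = 1)
    (C : ι → ι → Prop) [∀ k l, Decidable (C k l)]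
    (h0 : ∀ k l, (k = i ∨ k = i') → (l = i ∨ l = i') → ¬ C k l)
    (hC : ∀ l ∈ σ, (C i l ↔ C i' l)) (hC' : ∀ l ∈ σ, (C l i ↔ C l i')) :
    (∏ k, ∏ l, if C k l then
        sg (eps (e6_tw 7 i i' u k) * eps (e6_tw 7 i i' u l)) else 1) =
      ∏ k, ∏ l, if C k l then sg (eps (u k) * eps (u l)) else 1 := by
  classical
  have h1 : ∀ k, eps (e6_tw 7 i i' u k) = eps (u k) + (if k = i ∨ k = i' then 1 else 0) := by
    intro k
    by_cases h : k = i ∨ k = i'
    · rw [if_pos h, e6_tw_of h, n7_eps7]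
      rcases h with rfl | rfl
      · exact hu _ hi
      · exact hu _ hi'
    · rw [if_neg h, e6_tw_not h, add_zero]
  have h2 : ∀ k l, (if C k l then
        sg (eps (e6_tw 7 i i' u k) * eps (e6_tw 7 i i' u l)) else 1) =
      (if C k l then sg (eps (u k) * eps (u l)) else 1) *
      ((if C k l then sg ((if k = i ∨ k = i' then 1 else 0) * eps (u l)) else 1) *
      (if C k l then sg ((if l = i ∨ l = i' then 1 else 0) * eps (u k)) else 1)) := by
    intro k l
    by_cases h : C k l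
    · rw [if_pos h, if_pos h, if_pos h, if_pos h, h1, h1, ← n7_sg_add, ← n7_sg_add]
      congr 1
      have h3 : (if k = i ∨ k = i' then (1 : ZMod 2) else 0) *
          (if l = i ∨ l = i' then 1 else 0) = 0 := by
        by_cases hk : k = i ∨ k = i'
        · by_cases hl : l = i ∨ l = i'
          · exact absurd h (h0 k l hk hl)
          · rw [if_neg hl, mul_zero]
        · rw [if_neg hk, zero_mul]
      linear_combination h3
    · rw [if_neg h, if_neg h, if_neg h, if_neg h, one_mul, one_mul]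
  simp_rw [h2, Finset.prod_mul_distrib]
  rw [e6_half hne hu1 C hC, one_mul]
  have h4 : (∏ k, ∏ l, if C k l then sg ((if l = i ∨ l = i' then 1 else 0) * eps (u k)) else 1)
      = 1 := by
    rw [Finset.prod_comm]
    exact e6_half hne hu1 (fun k l => C l k) hC'
  rw [h4, mul_one]

end

section

variable {D : Dt}

theorem e6_mem_U8 {σ : Finset D.P} {u : D.P → ZMod 8} :
    u ∈ D.U8 σ ↔ (∀ i ∈ σ, n7_un (u i)) ∧ ∀ i, i ∉ σ → u i = 1 := by
  classical
  unfold Dt.U8
  rw [Fintype.mem_piFinset]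
  constructor
  · intro h
    refine ⟨fun i hi => ?_, fun i hi => ?_⟩
    · have := h i
      rw [if_pos hi] at this
      simpa [n7_un] using this
    · have := h i
      rw [if_neg hi] at this
      simpa using this
  · rintro ⟨h1, h2⟩ i
    by_cases hi : i ∈ σ
    · rw [if_pos hi]
      have := h1 i hi
      simpa [n7_un] using this
    · rw [if_neg hi]
      simpa using h2 i hi

theorem e6_tw_mem {m : ZMod 8} (hm : ∀ x, n7_un x → n7_un (m * x)) {σ : Finset D.P}
    {i i' : D.P} (hi : i ∈ σ) (hi' : i' ∈ σ) {u : D.P → ZMod 8} (hu : u ∈ D.U8 σ) :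
    e6_tw m i i' u ∈ D.U8 σ := by
  rw [e6_mem_U8] at hu ⊢
  refine ⟨fun k hk => ?_, fun k hk => ?_⟩
  · by_cases h : k = i ∨ k = i'
    · rw [e6_tw_of h]; exact hm _ (hu.1 k hk)
    · rw [e6_tw_not h]; exact hu.1 k hk
  · have h : ¬ (k = i ∨ k = i') := by
      rintro (rfl | rfl)
      · exact hk hi
      · exact hk hi'
    rw [e6_tw_not h]; exact hu.2 k hk

theorem e6_arg {m : ZMod 8} (hm : m * m = 1) {i i' : D.P} (hne : i ≠ i')
    (hv : i.1 = i'.1) (u : D.P → ZMod 8) (g : Ext D) :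
    ∏ ζ : D.Z, e6_tw m i i' u (g, ζ) = ∏ ζ : D.Z, u (g, ζ) := by
  classical
  by_cases h : g = i.1
  · have h1 : ∀ ζ : D.Z, e6_tw m i i' u (g, ζ) =
        (if ζ = i.2 ∨ ζ = i'.2 then m else 1) * u (g, ζ) := by
      intro ζ
      by_cases h2 : ζ = i.2 ∨ ζ = i'.2
      · rw [if_pos h2, e6_tw_of]
        rcases h2 with rfl | rfl
        · exact Or.inl (Prod.ext h rfl)
        · exact Or.inr (Prod.ext (h.trans hv) rfl)
      · rw [if_neg h2, one_mul, e6_tw_not]
        rintro (h3 | h3)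
        · exact h2 (Or.inl (congrArg Prod.snd h3))
        · exact h2 (Or.inr (congrArg Prod.snd h3))
    rw [Finset.prod_congr rfl fun ζ _ => h1 ζ, Finset.prod_mul_distrib]
    have h2 : i.2 ≠ i'.2 := fun h3 => hne (Prod.ext hv h3)
    rw [n7_prod_or h2 (fun _ => m), hm, one_mul]
  · refine Finset.prod_congr rfl fun ζ _ => e6_tw_not ?_
    rintro (h3 | h3)
    · exact h (congrArg Prod.fst h3)
    · exact h ((congrArg Prod.fst h3).trans hv.symm)

theorem e6_psi5 (θ : D.V → D.V → (D.V → ZMod 8) → Finset D.V → ℝ) (a b : D.V)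
    {σ : Finset D.P} {i i' : D.P} (hi : i ∈ σ) (hi' : i' ∈ σ) (hne : i ≠ i')
    (hv : i.1 = i'.1) {u : D.P → ZMod 8} (hu : u ∈ D.U8 σ) :
    D.Psi θ a b σ (e6_tw 5 i i' u) =
      ((sg ((i.2 + i'.2) ⬝ᵥ D.B i.1.v b) : ℤ) : ℝ) * D.Psi θ a b σ u := by
  classical
  have hu' := e6_mem_U8.mp hu
  have h1 : ∀ k, eps (e6_tw 5 i i' u k) = eps (u k) := by
    intro k
    by_cases h : k = i ∨ k = i'
    · rw [e6_tw_of h, n7_eps5]
      rcases h with rfl | rfl
      · exact hu'.1 _ hi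
      · exact hu'.1 _ hi'
    · rw [e6_tw_not h]
  unfold Dt.Psi
  rw [e6_prod_tw hne (hu'.1 i hi) (hu'.1 i' hi') (fun k => k.2 ⬝ᵥ (D.q k.1.v + D.B k.1.v a))
    (p8 1) 1 n7_p1_5, e6_prod_tw hne (hu'.1 i hi) (hu'.1 i' hi')
    (fun k => k.2 ⬝ᵥ D.B k.1.v b) (p8 2) (-1) n7_p2_5]
  simp_rw [h1, e6_arg (m := 5) (by decide) hne hv u]
  rw [n7_ite_sg, add_dotProduct, ← hv]
  simp only [ite_self, one_mul]
  push_cast
  ring

theorem e6_psi7 (θ : D.V → D.V → (D.V → ZMod 8) → Finset D.V → ℝ) (a b : D.V)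
    {σ : Finset D.P} {i i' : D.P} (hi : i ∈ σ) (hi' : i' ∈ σ) (hne : i ≠ i')
    (hv : i.1 = i'.1) (hq : D.q i.1.v = 0) (hL : ∀ j ∈ σ, D.e i j = D.e i' j)
    {u : D.P → ZMod 8} (hu : u ∈ D.U8 σ) :
    D.Psi θ a b σ (e6_tw 7 i i' u) =
      ((sg ((i.2 + i'.2) ⬝ᵥ D.B i.1.v a) : ℤ) : ℝ) * D.Psi θ a b σ u := by
  classical
  have hu' := e6_mem_U8.mp hu
  have he : ∀ l, D.e l i = D.e l i' := by
    intro l
    unfold Dt.e
    rw [hv]
  unfold Dt.Psi
  rw [e6_prod_tw hne (hu'.1 i hi) (hu'.1 i' hi') (fun k => k.2 ⬝ᵥ (D.q k.1.v + D.B k.1.v a))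
    (p8 1) (-1) n7_p1_7, e6_prod_tw hne (hu'.1 i hi) (hu'.1 i' hi')
    (fun k => k.2 ⬝ᵥ D.B k.1.v b) (p8 2) 1 n7_p2_7]
  rw [e6_pair7 hi hi' hne hu'.1 hu'.2 (fun k l => Fintype.equivFin D.V k.1.v <
      Fintype.equivFin D.V l.1.v ∧ D.e k l = 1 ∧ D.e l k = 1) (by
      rintro k l hk hl ⟨h, _⟩
      have h1 : k.1 = i.1 := by
        rcases hk with rfl | rfl
        · rfl
        · exact hv.symm
      have h2 : l.1 = i.1 := by
        rcases hl with rfl | rfl
        · rfl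
        · exact hv.symm
      rw [h1, h2] at h
      exact lt_irrefl _ h) (by
      intro l hl
      rw [hv, hL l hl, he l]) (by
      intro l hl
      rw [hv, hL l hl, he l])]
  simp_rw [e6_arg (m := 7) (by decide) hne hv u]
  rw [n7_ite_sg, ← hv, hq, zero_add, add_dotProduct]
  simp only [ite_self, one_mul]
  push_cast
  ring

end

end Pool.Agent.H98.ML
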